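import Pool.Agent.Work.MP_cf06ef_an.B17

-- merged part: Pool.Agent.Work.MP_cf06ef_an.B7
section
/-! The limit density of the test function of the increments. -/

set_option autoImplicit false
open Finset Filter Topology MeasureTheory

namespace Pool.Agent.SB
open Pool.Agent.PT

lemma int_le_const {f : ℝ → ℝ} {a b B : ℝ} (hab : a ≤ b) (h : ∀ x, |f x| ≤ B) :
    |∫ x in a..b, f x| ≤ B * (b - a) := by
  have := intervalIntegral.norm_integral_le_of_norm_le_const (a := a) (b := b) (f := f) (C := B)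
    fun x _ => h x
  rwa [abs_of_nonneg (sub_nonneg.mpr hab)] at this

open Classical in
lemma out_le {T l y : ℝ} (h0 : 0 ≤ y) (h1 : y ≤ l) :
    ∫ x in (0 : ℝ)..y, (if 0 ≤ x + T ∧ x + T < l then (0 : ℝ) else 1) ≤ |T| := by
  set f : ℝ → ℝ := fun x => if 0 ≤ x + T ∧ x + T < l then (0 : ℝ) else 1 with hf
  have b1 : ∀ x, |f x| ≤ 1 := fun x => by simp only [hf]; split_ifs <;> simp
  have fi := bdd_int (f := f) (Measurable.ite ((measurableSet_le measurable_const
    (measurable_add_const T)).inter (measurableSet_lt (measurable_add_const T) measurable_const))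
    measurable_const measurable_const) b1
  by_cases hy : y ≤ |T|
  · linarith only [hy, h0, b1, le_abs_self (∫ x in (0 : ℝ)..y, f x), int_le_const h0 b1]
  rcases le_total 0 T with hT | hT
  · rw [abs_of_nonneg hT] at hy ⊢
    rw [← intervalIntegral.integral_add_adjacent_intervals (fi 0 (y - T)) (fi _ _),
      int_congr_Ico (g := fun _ => 0) (by linarith) fun x a b => if_pos ⟨by linarith, by linarith⟩]
    simpa using (le_abs_self _).trans (int_le_const (a := y - T) (b := y) (by linarith) b1)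
  · rw [abs_of_nonpos hT] at hy ⊢
    rw [← intervalIntegral.integral_add_adjacent_intervals (fi 0 (-T)) (fi _ _),
      int_congr_Ico (a := -T) (g := fun _ => 0) (by linarith)
        fun x a b => if_pos ⟨by linarith, by linarith⟩]
    simpa using (le_abs_self _).trans (int_le_const (a := 0) (b := -T) (by linarith) b1)

lemma int_supp {g : ℝ → ℝ} (hg : ∀ a b, IntervalIntegrable g volume a b) (h0 : ∀ x, 0 ≤ g x)
    {l a b : ℝ} (hl : 0 ≤ l) (hab : a ≤ b) (hz : ∀ x, ¬ (0 ≤ x ∧ x < l) → g x = 0) :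
    ∫ x in a..b, g x ≤ ∫ x in (0 : ℝ)..l, g x := by
  refine (intervalIntegral.integral_mono_interval (min_le_left a 0) hab (le_max_left b l)
    (Eventually.of_forall h0) (hg _ _)).trans (le_of_eq ?_)
  rw [← intervalIntegral.integral_add_adjacent_intervals (hg _ 0) (hg _ _),
    ← intervalIntegral.integral_add_adjacent_intervals (hg 0 l) (hg _ _),
    int_congr_Ico (g := fun _ => 0) (min_le_right a 0) fun x _ h => hz x fun h' => by linarith [h'.1],
    int_congr_Ico (a := l) (g := fun _ => 0) (le_max_right b l)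
      fun x h _ => hz x fun h' => by linarith [h'.2]]
  simp

namespace SSS
variable {C : Type} (S : SSS C)

lemma int_child (T : ℝ) (ξ : ℂ) {m : ℕ} {c : C} {l1 l2 : List (C × ℂ)} {e : C × ℂ}
    (h : S.ch c = l1 ++ e :: l2) {y : ℝ} (h0 : 0 ≤ y) (hy : y ≤ S.θ ^ m * S.L e.1) :
    ∫ x in (0 : ℝ)..y, S.H T ξ m e.1 x ≤
      ∫ x in (S.θ ^ m * S.tot l1)..(S.θ ^ m * S.tot l1 + y), S.H T ξ (m + 1) c x ∧
    ∫ x in (S.θ ^ m * S.tot l1)..(S.θ ^ m * S.tot l1 + y), S.H T ξ (m + 1) c x ≤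
      (∫ x in (0 : ℝ)..y, S.H T ξ m e.1 x) + 2 * |T| := by
  classical
  have hp := S.θpow_pos m
  have key : ∀ x, 0 ≤ x → x < y → 0 ≤ x + T ∧ x + T < S.θ ^ m * S.L e.1 →
      S.H T ξ (m + 1) c (S.θ ^ m * S.tot l1 + x) = S.H T ξ m e.1 x := by
    intro x a b hx
    have h1 := S.tot_ch c
    rw [h, tot_append, tot_cons] at h1
    have h2 := mul_nonneg hp.le (S.tot_nonneg l1)
    have h3 := mul_nonneg hp.le (S.tot_nonneg l2)
    have h4 := congrArg (S.θ ^ m * ·) h1
    rw [H, H, if_pos hx, if_pos ⟨by linarith only [hx, h2, hx.1], by rw [pow_succ]; linarith [hx.2]⟩, add_assoc,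
      S.Z_child h hx.1 hx.2, S.Z_child h a (by linarith), add_sub_add_left_eq_sub]
  have i1 : IntervalIntegrable (fun x => S.H T ξ (m + 1) c (S.θ ^ m * S.tot l1 + x)) volume 0 y := by
    simpa using (S.int_H T ξ (m + 1) c (S.θ ^ m * S.tot l1) (S.θ ^ m * S.tot l1 + y)).comp_add_left
      (S.θ ^ m * S.tot l1)
  have e1 := intervalIntegral.integral_comp_add_left (a := 0) (b := y) (S.H T ξ (m + 1) c)
    (S.θ ^ m * S.tot l1)
  rw [add_zero] at e1
  rw [← e1]
  constructor
  · refine int_mono_Ico h0 (S.int_H _ _ _ _ _ _) i1 fun x a b => ?_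
    by_cases hx : 0 ≤ x + T ∧ x + T < S.θ ^ m * S.L e.1
    · exact (key x a b hx).ge
    · rw [H, if_neg hx]; exact S.H_nonneg _ _ _ _ _
  · have i2 : IntervalIntegrable (fun x => if 0 ≤ x + T ∧ x + T < S.θ ^ m * S.L e.1 then (0 : ℝ)
        else 1) volume 0 y := bdd_int (Measurable.ite ((measurableSet_le measurable_const
      (measurable_add_const T)).inter (measurableSet_lt (measurable_add_const T) measurable_const))
      measurable_const measurable_const) (B := 1) (fun x => by split_ifs <;> simp) _ _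
    refine (int_mono_Ico h0 i1 ((S.int_H T ξ m e.1 _ _).add (i2.const_mul 2)) fun x a b => ?_).trans ?_
    · split_ifs with hx
      · rw [key x a b hx]; simp
      · linarith only [S.H_le T ξ (m + 1) c (S.θ ^ m * S.tot l1 + x), S.H_nonneg T ξ m e.1 x]
    · rw [intervalIntegral.integral_add (S.int_H _ _ _ _ _ _) (i2.const_mul 2),
        intervalIntegral.integral_const_mul]
      linarith only [h0, hy, out_le (T := T) h0 hy]

/-- the average of the test function over a tile of level `m`. -/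
noncomputable def av (T : ℝ) (ξ : ℂ) (m : ℕ) (c : C) : ℝ :=
  (∫ x in (0 : ℝ)..(S.θ ^ m * S.L c), S.H T ξ m c x) / (S.θ ^ m * S.L c)

lemma av_mul (T : ℝ) (ξ : ℂ) (m : ℕ) (c : C) :
    ∫ x in (0 : ℝ)..(S.θ ^ m * S.L c), S.H T ξ m c x = S.av T ξ m c * (S.θ ^ m * S.L c) :=
  (div_mul_cancel₀ _ (mul_pos (S.θpow_pos m) (S.pos c)).ne').symm

lemma av_bd (T : ℝ) (ξ : ℂ) (m : ℕ) (c : C) : 0 ≤ S.av T ξ m c ∧ S.av T ξ m c ≤ 2 := by
  have hl := mul_pos (S.θpow_pos m) (S.pos c)
  refine ⟨div_nonneg (intervalIntegral.integral_nonneg hl.le fun x _ => S.H_nonneg _ _ _ _ _) hl.le,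
    (div_le_iff₀ hl).mpr ((le_abs_self _).trans ((int_le_const (B := 2) hl.le fun x => ?_).trans (by simp)))⟩
  rw [abs_of_nonneg (S.H_nonneg _ _ _ _ _)]; exact S.H_le _ _ _ _ _

/-- initial parts made of whole children. -/
lemma int_init (T : ℝ) (ξ : ℂ) {m : ℕ} {c : C} {l1 l2 : List (C × ℂ)} (h : S.ch c = l1 ++ l2) :
    S.θ ^ m * (l1.map fun e => S.L e.1 * S.av T ξ m e.1).sum ≤
      ∫ x in (0 : ℝ)..(S.θ ^ m * S.tot l1), S.H T ξ (m + 1) c x ∧
    ∫ x in (0 : ℝ)..(S.θ ^ m * S.tot l1), S.H T ξ (m + 1) c x ≤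
      (l1.map fun e => S.av T ξ m e.1 * (S.θ ^ m * S.L e.1) + 2 * |T|).sum := by
  have hc := fun D1 e D2 (he : l1 = D1 ++ e :: D2) => S.int_child T ξ (m := m) (c := c) (l1 := D1)
    (l2 := D2 ++ l2) (e := e) (by rw [h, he]; simp) (mul_pos (S.θpow_pos m) (S.pos _)).le le_rfl
  constructor
  · have := S.int_pieces (fun x => -S.H T ξ (m + 1) c x) (fun a b => (S.int_H _ _ _ _ a b).neg)
      (S.θ ^ m) (fun e => -S.θ ^ m * (S.L e.1 * S.av T ξ m e.1)) l1 0 fun D1 e D2 he => by
        have := (hc D1 e D2 he).1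
        rw [av_mul] at this
        rw [intervalIntegral.integral_neg, zero_add]; linarith
    rw [intervalIntegral.integral_neg, zero_add, List.sum_map_mul_left] at this
    linarith
  · simpa only [zero_add] using S.int_pieces _ (S.int_H T ξ (m + 1) c) (S.θ ^ m) _ l1 0
      fun D1 e D2 he => by
        have := (hc D1 e D2 he).2
        rw [av_mul] at this
        rw [zero_add]; exact this

lemma int_init_le (T : ℝ) (ξ : ℂ) {m : ℕ} {c : C} {l1 l2 : List (C × ℂ)} (h : S.ch c = l1 ++ l2)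
    {lm b : ℝ} (hlm : 0 < lm) (hL : ∀ c, lm ≤ S.L c) (hb : ∀ c, S.av T ξ m c ≤ b) :
    ∫ x in (0 : ℝ)..(S.θ ^ m * S.tot l1), S.H T ξ (m + 1) c x ≤
      S.tot l1 * (b * S.θ ^ m + 2 * |T| / lm) := by
  refine (S.int_init T ξ h).2.trans (S.sum_le_tot _ _ _ fun e _ => ?_)
  have h1 := mul_le_mul_of_nonneg_right (hb e.1) (mul_pos (S.θpow_pos m) (S.pos e.1)).le
  have h2 : 2 * |T| ≤ S.L e.1 * (2 * |T| / lm) := by
    rw [mul_div_assoc', le_div_iff₀ hlm, mul_comm]; gcongr; exact hL _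
  linarith only [h1, h2]

lemma av_var (T : ℝ) (ξ : ℂ) (m : ℕ) (c : C) (μ : ℝ) :
    S.av T ξ m c * (S.θ ^ m * S.L c) ≤ 2 * S.ev m c fun w => ((ξ * w).re - μ) ^ 2 := by
  classical
  have hl := mul_pos (S.θpow_pos m) (S.pos c)
  set F : ℂ → ℝ := fun w => ((ξ * w).re - μ) ^ 2 with hF
  set g : ℝ → ℝ := fun x => if 0 ≤ x ∧ x < S.θ ^ m * S.L c then F (S.Z m c x) else 0 with hg
  have gi : ∀ a b, IntervalIntegrable g volume a b :=
    bdd_int (Measurable.ite measurableSet_Ico (S.meas_comp_step F _) measurable_const)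
      fun x => by
        simp only [hg]; split_ifs
        · exact S.comp_step_le F _ x
        · exact (by simp : |(0 : ℝ)| ≤ |F (S.Z m c x)|).trans (S.comp_step_le F _ x)
  have g0 : ∀ x, 0 ≤ g x := fun x => by simp only [hg]; split_ifs; exacts [sq_nonneg _, le_rfl]
  have i1 : IntervalIntegrable (fun x => g (x + T)) volume 0 (S.θ ^ m * S.L c) := by
    simpa using (gi T (S.θ ^ m * S.L c + T)).comp_add_right T
  have e1 : ∫ x in (0 : ℝ)..(S.θ ^ m * S.L c), g x = S.ev m c F := by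
    rw [← integral_Z]; exact int_congr_Ico hl.le fun x a b => if_pos ⟨a, b⟩
  rw [← av_mul]
  refine (int_mono_Ico hl.le (S.int_H _ _ _ _ _ _) (i1.add (gi _ _)) fun x a b => ?_).trans ?_
  · simp only [H, hg, if_pos (And.intro a b), hF]
    split_ifs
    · have := Real.one_sub_sq_div_two_le_cos (x := (ξ * (S.Z m c (x + T) - S.Z m c x)).re)
      rw [mul_sub, Complex.sub_re] at this ⊢
      clear * - ξ C S m c x T μ this
      linarith only [this, sq_nonneg ((ξ * S.Z m c (x + T)).re + (ξ * S.Z m c x).re - 2 * μ), sq_nonneg ((ξ * S.Z m c (x + T)).re + (ξ * S.Z m c x).re - (2 : ℝ) * μ)]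
    · positivity
  · rw [intervalIntegral.integral_add i1 (gi _ _), intervalIntegral.integral_comp_add_right]
    linarith only [e1, gi, g0, hl, int_supp gi g0 hl.le (a := 0 + T) (b := S.θ ^ m * S.L c + T) (by linarith)
      fun x hx => if_neg hx]

lemma av_low (ξ : ℂ) (m : ℕ) (c : C) {c1 : ℝ} (hc1 : 0 < c1)
    (h : S.ev m c (fun w => Real.cos (ξ * w).re) ^ 2 + S.ev m c (fun w => Real.sin (ξ * w).re) ^ 2
      ≤ (1 - c1) * (S.θ ^ m * S.L c) ^ 2) :
    ∃ T, |T| ≤ S.θ ^ m * S.L c ∧ c1 / 4 ≤ S.av T ξ m c := by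
  classical
  have hl := mul_pos (S.θpow_pos m) (S.pos c)
  by_contra hcon
  push Not at hcon
  rw [← integral_Z, ← integral_Z] at h
  have hav := fun T => S.av_mul T ξ m c
  set l := S.θ ^ m * S.L c with hldef
  have h1 : ‖∫ T in (-l)..l, ∫ x in (0 : ℝ)..l, S.H T ξ m c x‖ ≤ c1 / 4 * l * |l - -l| := by
    refine intervalIntegral.norm_integral_le_of_norm_le_const fun T hT => ?_
    rw [Set.uIoc_of_le (by linarith only [hl])] at hT
    rw [hav, Real.norm_of_nonneg (mul_nonneg (S.av_bd _ _ _ _).1 hl.le)]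
    gcongr
    exact (hcon T (abs_le.mpr ⟨hT.1.le, hT.2⟩)).le
  have hm : Measurable (Function.uncurry fun T x => S.H T ξ m c x) := by
    unfold H Function.uncurry
    refine Measurable.ite ?_ (by fun_prop) measurable_const
    exact (measurableSet_le measurable_const (measurable_snd.add measurable_fst)).inter
      (measurableSet_lt (measurable_snd.add measurable_fst) measurable_const)
  rw [intervalIntegral_intervalIntegral_swap (Measure.integrableOn_of_bounded (M := 2) (by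
      rw [Measure.volume_eq_prod, Measure.prod_prod]
      exact ENNReal.mul_ne_top (by simp) (by simp)) hm.aestronglyMeasurable
      (Eventually.of_forall fun z =>
        (Real.norm_of_nonneg (S.H_nonneg _ _ _ _ _)).trans_le (S.H_le _ _ _ _ _)))] at h1
  have ic : IntervalIntegrable (fun x => Real.cos (ξ * S.Z m c x).re) volume 0 l :=
    S.int_comp_step (fun w => Real.cos (ξ * w).re) (S.desc m c) 0 l
  have is : IntervalIntegrable (fun x => Real.sin (ξ * S.Z m c x).re) volume 0 l :=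
    S.int_comp_step (fun w => Real.sin (ξ * w).re) (S.desc m c) 0 l
  set Cs := ∫ x in (0 : ℝ)..l, Real.cos (ξ * S.Z m c x).re with hCs
  set Sn := ∫ x in (0 : ℝ)..l, Real.sin (ξ * S.Z m c x).re with hSn
  have gen : ∀ a b d : ℝ, ∫ x in (0 : ℝ)..l, (a - b * Real.cos (ξ * S.Z m c x).re
      - d * Real.sin (ξ * S.Z m c x).re) = a * l - b * Cs - d * Sn := fun a b d => by
    rw [intervalIntegral.integral_sub (intervalIntegrable_const.sub (ic.const_mul b))
      (is.const_mul d), intervalIntegral.integral_sub intervalIntegrable_const (ic.const_mul b),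
      intervalIntegral.integral_const_mul, intervalIntegral.integral_const_mul]
    simp [mul_comm]; rfl
  rw [int_congr_Ico (g := fun x => l - Cs * Real.cos (ξ * S.Z m c x).re
      - Sn * Real.sin (ξ * S.Z m c x).re) hl.le fun x a b => ?_, gen,
      abs_of_nonneg (by linarith only [hl])] at h1
  · have := le_abs_self (l * l - Cs * Cs - Sn * Sn)
    rw [Real.norm_eq_abs] at h1
    clear * - l Cs Sn c1 C S m c h1 h this hc1 hl
    linarith only [h1, h, this, hc1, hl, mul_pos hc1 (mul_pos hl hl)]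
  · set g : ℝ → ℝ := fun y => if 0 ≤ y ∧ y < l then 1 - Real.cos (ξ * (S.Z m c y - S.Z m c x)).re
      else 0 with hg
    have g0 : ∀ y, 0 ≤ g y := fun y => by
      simp only [hg]; split_ifs; exacts [sub_nonneg.mpr (Real.cos_le_one _), le_rfl]
    have gi : ∀ a b, IntervalIntegrable g volume a b :=
      bdd_int (Measurable.ite measurableSet_Ico (by fun_prop) measurable_const) (B := 2) fun y => by
        rw [abs_of_nonneg (g0 y)]; simp only [hg]; split_ifs
        · linarith only [Real.neg_one_le_cos (ξ * (S.Z m c y - S.Z m c x)).re]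
        · norm_num
    have e1 : ∫ T in (-l)..l, S.H T ξ m c x = ∫ y in (0 : ℝ)..l, g y := by
      refine (intervalIntegral.integral_comp_add_left g x).trans (le_antisymm
        (int_supp gi g0 hl.le (by linarith only [hl]) fun y hy => if_neg hy) ?_)
      exact intervalIntegral.integral_mono_interval (by linarith only [b]) hl.le (by linarith only [a])
        (Eventually.of_forall g0) (gi _ _)
    rw [e1, int_congr_Ico (g := fun y => 1 - Real.cos (ξ * S.Z m c x).re * Real.cos (ξ * S.Z m c y).re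
      - Real.sin (ξ * S.Z m c x).re * Real.sin (ξ * S.Z m c y).re) hl.le fun y a b => by
        simp only [hg, if_pos (And.intro a b), mul_sub, Complex.sub_re, Real.cos_sub]; ring, gen]
    ring

variable [Finite C]

theorem exists_G : ∃ (G : ℝ → ℂ → ℝ) (K c2 : ℝ), 0 < K ∧ 0 < c2 ∧
    (∀ T ξ (ε : ℝ), 0 < ε → ∀ᶠ l in atTop, ∀ c x0 x1, 0 ≤ x0 → x0 ≤ x1 → x1 ≤ S.θ ^ l * S.L c →
      |(∫ x in x0..x1, S.H T ξ l c x) - G T ξ * (x1 - x0)| ≤ ε * S.θ ^ l) ∧
    (∀ T ξ m, G T ξ ≤ K * |T| / S.θ ^ m + K * ‖ξ‖ ^ 2 * S.sig m) ∧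
    ∀ i : ℕ, 1 ≤ i → ∃ T ξ, |T| ≤ K * S.θ ^ i ∧ ‖ξ‖ ^ 2 * ‖S.δ‖ ^ 2 * S.sig i = 1 ∧ c2 ≤ G T ξ := by
  have : Nonempty C := ⟨S.a0⟩
  obtain ⟨lm, lM, hlm, hlM, hL⟩ := S.exists_L
  obtain ⟨π, hπ, hπ1, havg⟩ := S.avg
  obtain ⟨Kv, hKv, hvar⟩ := S.var_bound
  obtain ⟨c1, hc1, hamp⟩ := S.amp
  have hθ := S.one_lt
  have hθ1 : 0 < S.θ - 1 := by linarith
  have full : ∀ m c, S.θ ^ m * S.tot (S.ch c) = S.θ ^ (m + 1) * S.L c := fun m c => by
    rw [tot_ch]; ring
  have low : ∀ T ξ m a, (∀ c, a ≤ S.av T ξ m c) → ∀ c c',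
      a + π * (S.av T ξ m c' - a) ≤ S.av T ξ (m + 1) c := by
    intro T ξ m a ha c c'
    obtain ⟨z, hz⟩ := S.prim c c'
    have h1 := havg c (fun e => S.av T ξ m e.1) a (fun e _ => ha e.1) _ hz
    have h2 := (S.int_init T ξ (m := m) (List.append_nil (S.ch c)).symm).1
    rw [full, av_mul] at h2
    have h3 := mul_le_mul_of_nonneg_left h1 (S.θpow_pos m).le
    refine le_of_mul_le_mul_right ?_ (mul_pos (S.θpow_pos (m + 1)) (S.pos c))
    refine le_trans (le_of_eq (by ring)) (h3.trans h2)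
  have hG : ∀ T ξ, ∃ κ, (∀ c, Tendsto (fun m => S.av T ξ m c) atTop (𝓝 κ)) ∧
      ∀ m a, (∀ c, a ≤ S.av T ξ m c) → a ≤ κ := fun T ξ => by
    rcases doeblin (S.av T ξ) π hπ (fun _ => 0) antitone_const tendsto_const_nhds
      (by clear * - C S T ξ π low; simpa using low T ξ) with h | h
    · simpa using h
    · obtain ⟨m, hm⟩ := ((h S.a0).eventually_gt_atTop 2).exists
      linarith [(S.av_bd T ξ m S.a0).2]
  choose G hG1 hG2 using hG
  set K1 := 2 * S.θ / (lm * (S.θ - 1)) with hK1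
  have hK10 : 0 < K1 := by positivity
  refine ⟨G, K1 + 2 * Kv + lM, π * (c1 / 4), by positivity, by positivity, fun T ξ ε hε => ?_,
    fun T ξ m => ?_, fun i hi => ?_⟩
  · set e := ε / 4 * (S.θ - 1) / (3 * S.θ * lM) with he
    have he0 : 0 < e := by positivity
    have he1 : 3 * e * (S.θ * lM) = ε / 4 * (S.θ - 1) := by rw [he]; field_simp
    have tp := tendsto_pow_atTop_atTop_of_one_lt hθ
    obtain ⟨l0, hl0⟩ := eventually_atTop.mp (((eventually_all.mpr fun c =>
      (Metric.tendsto_nhds.mp (hG1 T ξ c) e he0))).and (tp.eventually_ge_atTop (2 * |T| / lm / e)))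
    set K0 := (2 + |G T ξ|) * (S.θ ^ l0 * lM) with hK0
    have hK00 : 0 ≤ K0 := by positivity
    have key : ∀ l ≥ l0, ∀ c y, 0 ≤ y → y ≤ S.θ ^ l * S.L c →
        |(∫ x in (0 : ℝ)..y, S.H T ξ l c x) - G T ξ * y| ≤ K0 + ε / 4 * S.θ ^ l := by
      clear * - l0 C S T ξ G K0 ε lM lm hL hθ hε e hl0 he0 he1 hlM hK00 hlm c1 this
      intro l hl
      induction l, hl using Nat.le_induction with
      | base =>
        intro c y h0 h1
        have h2 : y ≤ S.θ ^ l0 * lM := h1.trans (by gcongr; exact (hL c).2)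
        have h3 := int_le_const (f := S.H T ξ l0 c) (B := 2) h0 fun x => by
          rw [abs_of_nonneg (S.H_nonneg _ _ _ _ _)]; exact S.H_le _ _ _ _ _
        refine (abs_sub _ _).trans ?_
        rw [abs_mul, abs_of_nonneg h0]
        have : 0 ≤ ε / 4 * S.θ ^ l0 := by positivity
        clear * - C S T ξ l0 c y G K0 ε lM h2 h3 this
        linarith only [h2, h3, this, abs_nonneg (G T ξ), mul_nonneg_of_nonpos_of_nonpos (Mathlib.Tactic.Linarith.sub_nonpos_of_le h2) (Mathlib.Tactic.Linarith.sub_nonpos_of_le (abs_nonneg (G T ξ)))]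
      | succ l hl ih =>
        intro c y h0 h1
        have hp := S.θpow_pos l
        rcases h1.eq_or_lt with rfl | h1
        · have h2 := ((hl0 (l + 1) (by omega)).1 c).le
          rw [av_mul, ← sub_mul, abs_mul, abs_of_nonneg h0]
          have h3 : S.θ ^ (l + 1) * S.L c ≤ S.θ ^ (l + 1) * lM := by gcongr; exact (hL c).2
          have h4 := mul_le_mul h2 h3 h0 he0.le
          have h5 : e * lM ≤ ε / 4 := by clear * - e lM ε C S he1 he0 hlM hθ hε; (refine le_of_not_gt fun h_nl => ?_; linarith only [h_nl, he1, he0, hlM, hθ, hε, mul_pos he0 hlM, mul_pos_of_neg_of_neg (Mathlib.Tactic.Linarith.sub_neg_of_lt hθ) (Mathlib.Tactic.Linarith.sub_neg_of_lt hε), mul_pos_of_neg_of_neg (Mathlib.Tactic.Linarith.sub_neg_of_lt hθ) (Mathlib.Tactic.Linarith.sub_neg_of_lt h_nl)])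
          have h6 := mul_le_mul_of_nonneg_left h5 (S.θpow_pos (l + 1)).le
          rw [Real.dist_eq] at h4
          linarith only [hK00, h4, h6]
        obtain ⟨l1, d, l2, hc, a1, a2⟩ := word_cover (fun e : C × ℂ => S.L e.1) (S.ch c)
          (y / S.θ ^ l) (by positivity) (by
            rw [S.eig, div_lt_iff₀ hp]; rw [pow_succ] at h1; linarith only [h1])
        change S.tot l1 ≤ _ at a1
        change _ < S.tot l1 + _ at a2
        rw [le_div_iff₀ hp] at a1
        rw [div_lt_iff₀ hp] at a2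
        obtain ⟨y', rfl⟩ : ∃ y', y = S.θ ^ l * S.tot l1 + y' := ⟨y - _, (add_sub_cancel _ _).symm⟩
        have b0 : 0 ≤ y' := by linarith only [a1]
        have b1 : y' ≤ S.θ ^ l * S.L d.1 := by linarith only [a2]
        obtain ⟨c1, c2⟩ := S.int_child T ξ hc b0 b1
        obtain ⟨c3, c4⟩ := abs_le.mp (ih d.1 y' b0 b1)
        have near := fun c => abs_le.mp ((hl0 l hl).1 c).le
        have c5 := S.int_init_le T ξ hc hlm (fun c => (hL c).1) (b := G T ξ + e)
          fun c => by linarith only [near, (near c).2]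
        have c6 := (S.int_init T ξ (m := l) hc).1
        have c7 := S.sum_le_tot l1 (fun e => -1 * (S.L e.1 * S.av T ξ l e.1)) (e - G T ξ)
          fun d _ => by clear * - C S d T ξ l e G ε lM near; linarith only [near, (near d.1).1, S.pos d.1, mul_nonneg_of_nonpos_of_nonpos (Mathlib.Tactic.Linarith.sub_nonpos_of_le (near d.1).left) (le_of_lt (Mathlib.Tactic.Linarith.sub_neg_of_lt (S.pos d.1)))]
        rw [List.sum_map_mul_left] at c7
        have c8 := mul_le_mul_of_nonneg_left c7 hp.le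
        have d1 : 2 * |T| / lm ≤ e * S.θ ^ l := by
          have := (hl0 l hl).2; rwa [div_le_iff₀' he0] at this
        have d2 : S.tot l1 ≤ S.θ * lM := by
          clear * - C S c l1 lM d l2 hc lm hL hθ this
          have := S.tot_ch c
          rw [hc, tot_append] at this
          nlinarith [S.tot_nonneg (d :: l2), (hL c).2]
        have d3 := S.tot_nonneg l1
        have d4 : 2 * |T| ≤ e * S.θ ^ l * (S.θ * lM) := by
          clear * - T e C S l lm lM hlm d1 c hL hlM hθ ε hε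
          rw [div_le_iff₀ hlm] at d1
          refine d1.trans (by gcongr; linarith only [hL, hlM, hθ, hL c, mul_pos_of_neg_of_neg (Mathlib.Tactic.Linarith.sub_neg_of_lt hlM) (Mathlib.Tactic.Linarith.sub_neg_of_lt hθ)])
        have d5 := mul_le_mul_of_nonneg_left d1 d3
        have d6 := mul_le_mul_of_nonneg_left d2 (mul_pos he0 hp).le
        have d7 := congrArg (· * S.θ ^ l) he1
        have d8 := abs_nonneg T
        rw [← intervalIntegral.integral_add_adjacent_intervals (S.int_H _ _ _ _ 0 (S.θ ^ l * S.tot l1))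
          (S.int_H _ _ _ _ _ _), abs_le, pow_succ]
        constructor <;> linarith only [c1, c2, c3, c6, c8, d4, d6, d7, c4, c5, d5]
    filter_upwards [eventually_ge_atTop l0, tp.eventually_ge_atTop (4 * K0 / ε)]
      with l h1 h2 c x0 x1 a b d
    rw [div_le_iff₀ hε] at h2
    rw [← intervalIntegral.integral_interval_sub_left (S.int_H _ _ _ _ 0 x1) (S.int_H _ _ _ _ 0 x0)]
    obtain ⟨c1, c2⟩ := abs_le.mp (key l h1 c x0 a (b.trans d))
    obtain ⟨c3, c4⟩ := abs_le.mp (key l h1 c x1 (a.trans b) d)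
    rw [abs_le]; constructor <;> linarith only [h2, c2, c3, c1, c4]
  · have hs : 0 ≤ S.sig m := le_trans (by positivity) (S.le_sig m)
    have hp := S.θpow_pos m
    have key : ∀ j c, S.av T ξ (m + j) c ≤
        2 * Kv * ‖ξ‖ ^ 2 * S.sig m + K1 * |T| / S.θ ^ m - K1 * |T| / S.θ ^ (m + j) := by
      clear * - C S T ξ m Kv K1 hvar hp lm hlm lM hL full hK1 hθ hθ1
      intro j
      induction j with
      | zero =>
        intro c
        obtain ⟨μ, hμ⟩ := hvar ξ m c
        refine le_of_mul_le_mul_right ?_ (mul_pos hp (S.pos c))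
        rw [add_zero, add_sub_cancel_right]
        linarith only [hμ, S.av_var T ξ m c μ]
      | succ j ih =>
        intro c
        have h1 := S.int_init_le T ξ (List.append_nil (S.ch c)).symm hlm (fun c => (hL c).1) ih
        rw [full, av_mul, tot_ch] at h1
        have hq := S.θpow_pos (m + j)
        refine le_of_mul_le_mul_right (h1.trans (le_of_eq ?_)) (mul_pos (S.θpow_pos _) (S.pos c))
        rw [← add_assoc, pow_succ, hK1]; field_simp; ring
    refine le_of_tendsto' ((hG1 T ξ S.a0).comp (tendsto_add_atTop_nat m)) fun j => ?_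
    have h1 := key j S.a0
    rw [add_comm m j] at h1
    have h2 : 0 ≤ K1 * |T| / S.θ ^ (j + m) := by positivity
    have h3 : K1 * |T| / S.θ ^ m ≤ (K1 + 2 * Kv + lM) * |T| / S.θ ^ m := by clear * - K1 T Kv lM C S m lm hlM hKv hθ; gcongr; linarith only [hlM, hKv]
    have h4 : 2 * Kv * ‖ξ‖ ^ 2 * S.sig m ≤ (K1 + 2 * Kv + lM) * ‖ξ‖ ^ 2 * S.sig m := by
      clear * - C S m Kv ξ K1 lM lm hlM hK10 hs
      gcongr; linarith only [hlM, hK10]
    simp only [Function.comp]; linarith only [h1, h2, h3, h4]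
  · obtain ⟨ξ, h1, h2⟩ := hamp i hi
    obtain ⟨T, h3, h4⟩ := S.av_low ξ i S.a0 hc1 (h2 _)
    refine ⟨T, ξ, h3.trans ?_, h1, hG2 T ξ (i + 1) _ fun c => le_trans ?_
      (low T ξ i 0 (fun c => (S.av_bd _ _ _ _).1) c S.a0)⟩
    · rw [mul_comm]; gcongr; linarith only [hKv, hK10, hL, (hL S.a0).2]
    · rw [zero_add, sub_zero]; gcongr

end SSS
end Pool.Agent.SB
end

-- merged part: Pool.Agent.Work.MP_cf06ef_an.B8
section
/-! Spreading of the dilated cocycles and absence of atoms. -/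

set_option autoImplicit false
open Finset Filter Topology MeasureTheory

namespace Pool.Agent.SB
open Pool.Agent.PT

lemma int_ite {P : ℝ → Prop} [DecidablePred P] (hP : MeasurableSet {x | P x}) (a b u v : ℝ) :
    IntervalIntegrable (fun x => if P x then a else b) volume u v :=
  bdd_int (Measurable.ite hP measurable_const measurable_const) (B := |a| + |b|)
    (fun x => by split_ifs <;> linarith only [abs_nonneg a, abs_nonneg b]) u v

lemma break_pts {f : ℝ → ℝ} (hf : ∀ a b, IntervalIntegrable f volume a b) {η u : ℝ} (hη : 0 ≤ η)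
    (s : Finset ℝ) : ∀ v, u ≤ v → (∀ u' v', u ≤ u' → u' ≤ v' → v' ≤ v →
      (∀ x ∈ s, ¬ (u' < x ∧ x < v')) → ∫ x in u'..v', f x ≤ η) →
      ∫ x in u..v, f x ≤ η * (s.card + 1) := by
  induction s using Finset.induction_on_max with
  | empty => intro v hv h; simpa using h u v le_rfl hv le_rfl (by simp)
  | insert a s ha ih =>
    intro v hv h
    rw [card_insert_of_notMem fun h => lt_irrefl _ (ha a h)]
    push_cast
    by_cases hc : u < a ∧ a < v
    · rw [← intervalIntegral.integral_add_adjacent_intervals (hf u a) (hf a v)]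
      have h1 := ih a hc.1.le fun u' v' a1 a2 a3 a4 => h u' v' a1 a2 (a3.trans hc.2.le)
        fun x hx => by
          rcases mem_insert.mp hx with rfl | hx
          · exact fun h => absurd h.2 (not_lt.mpr a3)
          · exact a4 x hx
      have h2 := h a v hc.1.le hc.2.le le_rfl fun x hx => by
        rcases mem_insert.mp hx with rfl | hx
        · exact fun h => lt_irrefl _ h.1
        · exact fun h => lt_asymm h.1 (ha x hx)
      linarith only [h1, h2]
    · have h1 := ih v hv fun u' v' a1 a2 a3 a4 => h u' v' a1 a2 a3 fun x hx => by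
        rcases mem_insert.mp hx with rfl | hx
        · exact fun h => hc ⟨a1.trans_lt h.1, h.2.trans_le a3⟩
        · exact a4 x hx
      linarith

lemma count_le {f : ℝ → ℝ} (hf : ∀ a b, IntervalIntegrable f volume a b) (h0 : ∀ x, 0 ≤ f x)
    {lam u : ℝ} (hl : 0 ≤ lam) (φ : ℝ → ℝ) (s : Finset ℝ) :
    (∀ a ∈ s, u ≤ φ a ∧ ∀ x, φ a ≤ x → x < φ a + lam → 1 ≤ f x) →
    (∀ a ∈ s, ∀ a' ∈ s, a < a' → φ a + lam ≤ φ a') → ∀ v, u ≤ v → (∀ a ∈ s, φ a + lam ≤ v) →
      s.card * lam ≤ ∫ x in u..v, f x := by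
  induction s using Finset.induction_on_max with
  | empty => intro _ _ v hv _; simpa using intervalIntegral.integral_nonneg hv fun x _ => h0 x
  | insert a s ha ih =>
    intro h1 h2 v hv h3
    have ma := mem_insert_self a s
    rw [card_insert_of_notMem fun h => lt_irrefl _ (ha a h),
      ← intervalIntegral.integral_add_adjacent_intervals (hf u (φ a)) (hf _ v),
      ← intervalIntegral.integral_add_adjacent_intervals (hf (φ a) (φ a + lam)) (hf _ v)]
    have a1 := ih (fun b hb => h1 b (mem_insert_of_mem hb))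
      (fun b hb b' hb' => h2 b (mem_insert_of_mem hb) b' (mem_insert_of_mem hb')) (φ a) (h1 a ma).1
      fun b hb => h2 b (mem_insert_of_mem hb) a ma (ha b hb)
    have a2 := int_mono_Ico (a := φ a) (b := φ a + lam) (by linarith only [hl])
      (intervalIntegrable_const (c := (1 : ℝ))) (hf _ _) (h1 a ma).2
    have a3 := intervalIntegral.integral_nonneg (μ := volume) (h3 a ma) fun x _ => h0 x
    simp only [intervalIntegral.integral_const, add_sub_cancel_left, smul_eq_mul, mul_one] at a2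
    push_cast; linarith only [a1, a3, a2]

namespace SSS
variable {C : Type} (S : SSS C)

lemma sig_add (g i : ℕ) (hi : 1 ≤ i) : S.sig (g + i) ≤ (g + 1) * (‖S.β‖ ^ 2) ^ g * S.sig i := by
  have h1 : S.sig (g + i) = S.sig g + (‖S.β‖ ^ 2) ^ g * S.sig i := by
    rw [sig, sum_range_add, sig, sig, mul_sum]
    congr 1; exact sum_congr rfl fun j _ => by ring
  have h2 : S.sig g ≤ g * (‖S.β‖ ^ 2) ^ g := by
    rw [sig, ← pow_mul]
    refine (sum_le_card_nsmul _ _ _ fun j hj => pow_le_pow_right₀ S.one_le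
      (Nat.mul_le_mul_left 2 (mem_range.mp hj).le)).trans (by simp)
  have h3 : (1 : ℝ) ≤ S.sig i := le_trans (by exact_mod_cast hi) (S.le_sig i)
  have h4 : (0 : ℝ) ≤ g * (‖S.β‖ ^ 2) ^ g := by positivity
  linarith only [h1, h2, h3, h4, mul_nonneg_of_nonpos_of_nonpos (Mathlib.Tactic.Linarith.sub_nonpos_of_le h3) (Mathlib.Tactic.Linarith.sub_nonpos_of_le h4)]

open Classical in
/-- the coupling inequality at a finite level. -/
lemma couple {p q : ℝ} (hp : 0 < p) (hq : 0 < q) (l : ℕ) (c c' : C) {α α' u v R : ℝ} (w0 : ℂ)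
    (huv : u ≤ v) (h1 : 0 ≤ p * u + α) (h2 : p * v + α ≤ S.θ ^ l * S.L c) (h3 : 0 ≤ q * u + α')
    (h4 : q * v + α' ≤ S.θ ^ l * S.L c') (hR : 0 ≤ R) (t : ℝ) (ξ : ℂ) :
    ∫ s in u..v, S.H (p * t) (q * ξ) l c (p * s + α) ≤
      (∫ s in u..v, S.H (q * t) (p * ξ) l c' (q * s + α')) + 2 * R * ‖ξ‖ * (v - u) + 4 * |t| +
      4 * ((v - u) - ∫ s in u..v,
        (if ‖q * S.Z l c (p * s + α) - p * S.Z l c' (q * s + α') - w0‖ ≤ R then (1 : ℝ) else 0)) := by
  set W : ℝ → ℂ := fun s => q * S.Z l c (p * s + α) - p * S.Z l c' (q * s + α') - w0 with hW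
  have mW : MeasurableSet {s | ‖W s‖ ≤ R} := measurableSet_le (by fun_prop) measurable_const
  set b : ℝ → ℝ := fun s => if (u ≤ s ∧ s < v) ∧ ‖W s‖ ≤ R then 0 else 1 with hb
  have bi : ∀ x y, IntervalIntegrable b volume x y :=
    int_ite (P := fun s => (u ≤ s ∧ s < v) ∧ ‖W s‖ ≤ R) (measurableSet_Ico.inter mW) _ _
  have b0 : ∀ s, 0 ≤ b s := fun s => by simp only [hb]; split_ifs <;> norm_num
  have b1 : ∀ x y, |∫ s in x..y, b s| ≤ |y - x| := fun x y => by
    simpa using intervalIntegral.norm_integral_le_of_norm_le_const (a := x) (b := y) (f := b)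
      (C := 1) fun s _ => by simp only [hb]; split_ifs <;> simp
  have e1 : ∫ s in u..v, b s = (v - u) - ∫ s in u..v, (if ‖W s‖ ≤ R then (1 : ℝ) else 0) := by
    rw [int_congr_Ico (g := fun s => 1 - if ‖W s‖ ≤ R then (1 : ℝ) else 0) huv fun s a a' => by
      simp only [hb, a, a', true_and]; split_ifs <;> simp,
      intervalIntegral.integral_sub intervalIntegrable_const (int_ite mW _ _ _ _)]
    simp
  have e2 : ∫ s in u..v, b (s + t) ≤ (∫ s in u..v, b s) + 2 * |t| := by
    rw [intervalIntegral.integral_comp_add_right,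
      ← intervalIntegral.integral_add_adjacent_intervals (bi _ u) (bi _ _),
      ← intervalIntegral.integral_add_adjacent_intervals (bi u v) (bi _ _)]
    have a1 := b1 (u + t) u
    have a2 := b1 v (v + t)
    rw [sub_add_cancel_left, abs_neg] at a1
    rw [add_sub_cancel_left] at a2
    linarith only [a1, a2, le_abs_self (∫ s in (u + t)..u, b s), le_abs_self (∫ s in v..(v + t), b s)]
  have iH : ∀ (r a T : ℝ) (ξ : ℂ) (d : C), IntervalIntegrable (fun s => S.H T ξ l d (r * s + a))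
      volume u v := fun r a T ξ d =>
    bdd_int ((S.meas_H T ξ l d).comp (by fun_prop)) (B := 2)
      (fun x => (abs_of_nonneg (S.H_nonneg _ _ _ _ _)).trans_le (S.H_le _ _ _ _ _)) _ _
  have bt : IntervalIntegrable (fun s => b (s + t)) volume u v := by
    simpa using (bi (u + t) (v + t)).comp_add_right t
  refine (int_mono_Ico huv (iH _ _ _ _ _) ((((iH q α' (q * t) (p * ξ) c').add
    (intervalIntegrable_const (c := 2 * R * ‖ξ‖))).add ((bi u v).const_mul 2)).add
    (bt.const_mul 2)) fun s a a' => ?_).trans ?_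
  · have n1 : 0 ≤ 2 * R * ‖ξ‖ := by positivity
    have n2 := S.H_le (p * t) (q * ξ) l c (p * s + α)
    have n3 := S.H_nonneg (q * t) (p * ξ) l c' (q * s + α')
    by_cases g1 : (u ≤ s ∧ s < v) ∧ ‖W s‖ ≤ R
    swap
    · have : b s = 1 := if_neg g1
      linarith only [n1, n2, n3, this, b0, b0 (s + t)]
    by_cases g2 : (u ≤ s + t ∧ s + t < v) ∧ ‖W (s + t)‖ ≤ R
    swap
    · have : b (s + t) = 1 := if_neg g2
      linarith only [n1, n2, n3, this, b0, b0 s]
    have m1 := mul_le_mul_of_nonneg_left g2.1.1 hp.le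
    have m2 := mul_lt_mul_of_pos_left g2.1.2 hp
    have m3 := mul_le_mul_of_nonneg_left g2.1.1 hq.le
    have m4 := mul_lt_mul_of_pos_left g2.1.2 hq
    rw [H, H, if_pos ⟨by linarith only [h1, m1], by linarith only [h2, m2]⟩, if_pos ⟨by linarith only [h3, m3], by linarith only [h4, m4]⟩]
    have k1 := Real.abs_cos_sub_cos_le
      (p * ξ * (S.Z l c' (q * s + α' + q * t) - S.Z l c' (q * s + α'))).re
      (q * ξ * (S.Z l c (p * s + α + p * t) - S.Z l c (p * s + α))).re
    rw [← Complex.sub_re, show p * ξ * (S.Z l c' (q * s + α' + q * t) - S.Z l c' (q * s + α'))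
      - q * ξ * (S.Z l c (p * s + α + p * t) - S.Z l c (p * s + α)) = ξ * (W s - W (s + t)) by
        simp only [hW, mul_add p s t, mul_add q s t, add_right_comm _ _ α, add_right_comm _ _ α']
        ring] at k1
    have k2 : ‖ξ * (W s - W (s + t))‖ ≤ ‖ξ‖ * (R + R) := by
      rw [norm_mul]; gcongr; exact (norm_sub_le _ _).trans (add_le_add g1.2 g2.2)
    linarith only [k1, k2, b0, b0 s, b0 (s + t), le_abs_self (Real.cos
      (p * ξ * (S.Z l c' (q * s + α' + q * t) - S.Z l c' (q * s + α'))).re - Real.cos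
      (q * ξ * (S.Z l c (p * s + α + p * t) - S.Z l c (p * s + α))).re),
      Complex.abs_re_le_norm (ξ * (W s - W (s + t)))]
  · rw [intervalIntegral.integral_add (((iH _ _ _ _ _).add intervalIntegrable_const).add
      ((bi u v).const_mul 2)) (bt.const_mul 2), intervalIntegral.integral_add ((iH _ _ _ _ _).add
      intervalIntegrable_const) ((bi u v).const_mul 2), intervalIntegral.integral_add
      (iH _ _ _ _ _) intervalIntegrable_const, intervalIntegral.integral_const, smul_eq_mul,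
      intervalIntegral.integral_const_mul, intervalIntegral.integral_const_mul, ← e1]
    linarith only [e2]

lemma Tile.spec {n : ℕ} {c : C} {ρ lm : ℝ} {ζ : ℂ} (h : S.Tile n c ρ ζ) (hL : ∀ c, lm ≤ S.L c) :
    0 ≤ ρ ∧ ρ + lm ≤ S.θ ^ n * S.L c ∧ ∀ x, ρ ≤ x → x < ρ + lm → S.Z n c x = ζ := by
  obtain ⟨b, D1, D2, h, rfl⟩ := h
  have h1 := S.tot_desc n c
  rw [h, tot_append, tot_cons] at h1
  exact ⟨S.tot_nonneg _, by linarith only [h1, hL, hL b, S.tot_nonneg D2],
    fun x a a' => S.Z_tile h a (by linarith [hL b])⟩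

lemma Tile.sep {n : ℕ} {c : C} {ρ ρ' lm : ℝ} {ζ ζ' : ℂ} (h : S.Tile n c ρ ζ)
    (h' : S.Tile n c ρ' ζ') (hL : ∀ c, lm ≤ S.L c) (hlt : ρ < ρ') : ρ + lm ≤ ρ' := by
  obtain ⟨b, D1, D2, h, rfl⟩ := h
  obtain ⟨b', D1', D2', h', rfl⟩ := h'
  rcases List.append_eq_append_iff.mp (h.symm.trans h') with ⟨s, rfl, e⟩ | ⟨s, rfl, e⟩
  · cases s with
    | nil => simp at hlt
    | cons d s => rw [tot_append, tot_cons]; linarith only [hL, hL d.1, S.tot_nonneg s]
  · rw [tot_append] at hlt; linarith [S.tot_nonneg s]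

/-- an interval without break points lies in one descendant. -/
lemma cell {p α u v : ℝ} (hp : 0 < p) (n l : ℕ) (c : C) (huv : u < v) (h1 : 0 ≤ p * u + α)
    (h2 : p * v + α ≤ S.θ ^ (n + l) * S.L c)
    (hb : ∀ x ∈ (range ((S.desc l c).length + 1)).image
      (fun i => (S.θ ^ n * S.tot ((S.desc l c).take i) - α) / p), ¬ (u < x ∧ x < v)) :
    ∃ (b : C) (α1 : ℝ) (ζ : ℂ), 0 ≤ p * u + α1 ∧ p * v + α1 ≤ S.θ ^ n * S.L b ∧
      ∀ s, u ≤ s → s < v → S.Z (n + l) c (p * s + α) = S.β ^ n * ζ + S.Z n b (p * s + α1) ∧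
        S.Z l c (p * (s / S.θ ^ n) + α / S.θ ^ n) = ζ := by
  have hn := S.θpow_pos n
  have m0 := mul_lt_mul_of_pos_left huv hp
  obtain ⟨D1, d, D2, e, a1, a2⟩ := word_cover (fun e : C × ℂ => S.L e.1) (S.desc l c)
    ((p * u + α) / S.θ ^ n) (by positivity) (by
      change _ < S.tot _
      rw [tot_desc, div_lt_iff₀ hn]; rw [pow_add] at h2; linarith only [h2, m0])
  change S.tot D1 ≤ _ at a1
  change _ < S.tot D1 + _ at a2
  rw [le_div_iff₀ hn] at a1
  rw [div_lt_iff₀ hn] at a2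
  have a3 := hb _ (mem_image_of_mem _ (mem_range.mpr (show D1.length + 1 < _ by rw [e]; simp)))
  rw [e, show D1 ++ d :: D2 = (D1 ++ [d]) ++ D2 by simp, List.take_left' (by simp), tot_append,
    tot_cons, tot_nil, lt_div_iff₀ hp, div_lt_iff₀ hp, not_and, not_lt] at a3
  replace a3 := a3 (by linarith only [a2])
  refine ⟨d.1, α - S.θ ^ n * S.tot D1, d.2, by linarith, by linarith, fun s b1 b2 => ?_⟩
  have m1 := mul_le_mul_of_nonneg_left b1 hp.le
  have m2 := mul_lt_mul_of_pos_left b2 hp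
  constructor
  · rw [← S.Z_desc e (by linarith) (by linarith only [a3, m2])]; congr 1; ring
  · rw [mul_div_assoc', ← add_div]
    exact S.Z_tile e (by rw [le_div_iff₀ hn]; linarith) (by rw [div_lt_iff₀ hn]; linarith)

open Classical in
/-- atoms of the dilated difference have relative mass at most `κ`. -/
def Pk (p q κ : ℝ) : Prop := ∀ η : ℝ, 0 < η → ∀ᶠ n in atTop, ∀ (c c' : C) (α α' u v : ℝ) (w0 : ℂ),
  u ≤ v → 0 ≤ p * u + α → p * v + α ≤ S.θ ^ n * S.L c → 0 ≤ q * u + α' →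
  q * v + α' ≤ S.θ ^ n * S.L c' →
  ∫ s in u..v, (if q * S.Z n c (p * s + α) - p * S.Z n c' (q * s + α') = w0 then (1 : ℝ) else 0)
    ≤ κ * (v - u) + η * S.θ ^ n

lemma Pk.symm {p q κ : ℝ} (h : S.Pk p q κ) : S.Pk q p κ := fun η hη => by
  filter_upwards [h η hη] with n hn c c' α α' u v w0 a1 a2 a3 a4 a5
  convert hn c' c α' α u v (-w0) a1 a4 a5 a2 a3 using 4
  rw [← neg_inj, neg_sub]

variable [Finite C]

open Classical in
theorem spread (p q : ℝ) (hp : 1 ≤ p) (hpq : p < q) : ∃ c0 : ℝ, 0 < c0 ∧ c0 ≤ 1 ∧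
    ∀ η R : ℝ, 0 < η → 0 ≤ R → ∀ᶠ l in atTop, ∀ (c c' : C) (α α' u v : ℝ) (w0 : ℂ), u ≤ v →
      0 ≤ p * u + α → p * v + α ≤ S.θ ^ l * S.L c → 0 ≤ q * u + α' → q * v + α' ≤ S.θ ^ l * S.L c' →
      ∫ s in u..v, (if ‖q * S.Z l c (p * s + α) - p * S.Z l c' (q * s + α') - w0‖ ≤ R
        then (1 : ℝ) else 0) ≤ (1 - c0) * (v - u) + η * S.θ ^ l := by
  obtain ⟨G, K, c2, hK, hc2, hEQ, hUP, hLO⟩ := S.exists_G
  have hθ := S.one_lt
  have hp0 : 0 < p := by linarith
  have hq0 : 0 < q := by linarith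
  have hδ : 0 < ‖S.δ‖ := norm_pos_iff.mpr S.δ_ne
  have tp := tendsto_pow_atTop_atTop_of_one_lt hθ
  set s := q / p with hs
  have hs1 : 1 < s := (one_lt_div hp0).mpr hpq
  set c3 := c2 / (4 * K ^ 2) with hc3
  have hc30 : 0 < c3 := by positivity
  set r := ‖S.β‖ ^ 2 / S.θ ^ 2 with hr
  have hr0 : 0 ≤ r := by positivity
  have hr1 : r < 1 := by
    rw [hr, div_lt_one (by positivity)]; exact pow_lt_pow_left₀ S.lt (norm_nonneg _) two_ne_zero
  obtain ⟨g, hg1, hg2⟩ := ((tp.eventually_ge_atTop (1 / c3)).and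
    (((tendsto_self_mul_const_pow_of_lt_one hr0 hr1).add
      (tendsto_pow_atTop_nhds_zero_of_lt_one hr0 hr1)).eventually (ge_mem_nhds
      (show 0 + 0 < c2 / 4 * (‖S.δ‖ ^ 2 * c3 ^ 2) / (K * s ^ 2) by
        rw [add_zero]; positivity)))).exists
  rw [div_le_iff₀' hc30] at hg1
  rw [le_div_iff₀ (by positivity)] at hg2
  obtain ⟨J, hJ1, hJ2⟩ := exists_nat_pow_near hg1 hs1
  have hJ0 : (0 : ℝ) ≤ J := by positivity
  set c0 := min 1 (c2 / (32 * (J + 1))) with hc0
  have hc00 : 0 < c0 := by positivity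
  refine ⟨c0, hc00, min_le_left _ _, fun η R hη hR => ?_⟩
  by_contra hcon
  rw [not_eventually] at hcon
  have CP : ∀ (t : ℝ) (ξ : ℂ), G (p * t) (q * ξ) ≤ G (q * t) (p * ξ) + (4 * c0 + 2 * R * ‖ξ‖) := by
    clear * - G p q c0 R C S η hcon hEQ hη tp hp0 hq0 hR hp hpq hθ c2 J hr r s
    intro t ξ
    refine le_of_forall_pos_le_add fun ε hε => ?_
    obtain ⟨l, h0, ⟨e1, e2⟩, e3⟩ := (hcon.and_eventually (((hEQ (p * t) (q * ξ) (ε * η / 3)
      (by positivity)).and (hEQ (q * t) (p * ξ) (ε * η / 3) (by positivity))).and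
      (tp.eventually_ge_atTop (4 * |t| / (ε * η / 3))))).exists
    push Not at h0
    obtain ⟨c, c', α, α', u, v, w0, a1, a2, a3, a4, a5, a6⟩ := h0
    rw [div_le_iff₀' (by positivity)] at e3
    have hl := S.θpow_pos l
    have k1 := S.couple hp0 hq0 l c c' w0 a1 a2 a3 a4 a5 hR t ξ
    have k2 := (le_abs_self _).trans (int_le_const (B := 1) a1 (f := fun s =>
      if ‖q * S.Z l c (p * s + α) - p * S.Z l c' (q * s + α') - w0‖ ≤ R then (1 : ℝ) else 0)
      fun x => by split_ifs <;> simp)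
    have sc : ∀ (r a T : ℝ) (ξ : ℂ) (d : C), 1 ≤ r →
        |(∫ x in (r * u + a)..(r * v + a), S.H T ξ l d x) - G T ξ * (r * v + a - (r * u + a))|
          ≤ ε * η / 3 * S.θ ^ l →
        |(∫ x in u..v, S.H T ξ l d (r * x + a)) - G T ξ * (v - u)| ≤ ε * η / 3 * S.θ ^ l := by
      intro r a T ξ d h1 h2
      have hr : 0 < r := by linarith only [h1]
      rw [← intervalIntegral.mul_integral_comp_mul_add (c := r), show G T ξ * (r * v + a - (r * u + a))
        = r * (G T ξ * (v - u)) by ring, ← mul_sub, abs_mul, abs_of_pos hr] at h2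
      exact (le_mul_of_one_le_left (abs_nonneg _) h1).trans h2
    have k3 := (abs_le.mp (sc p α _ _ c hp (e1 c _ _ a2 (by clear * - p u α v a1 hp a2 a3 c e1 sc; linarith only [a1, hp, mul_nonneg_of_nonpos_of_nonpos (Mathlib.Tactic.Linarith.sub_nonpos_of_le hp) (Mathlib.Tactic.Linarith.sub_nonpos_of_le a1)]) a3))).1
    have k4 := (abs_le.mp (sc q α' _ _ c' (by linarith only [hp, hpq]) (e2 c' _ _ a4 (by clear * - q u α' v p a1 hp hpq a4 a5 c' e2 sc; linarith only [a1, hp, hpq, mul_nonneg_of_nonpos_of_nonpos (Mathlib.Tactic.Linarith.sub_nonpos_of_le hp) (Mathlib.Tactic.Linarith.sub_nonpos_of_le a1), mul_nonneg_of_nonpos_of_nonpos (le_of_lt (Mathlib.Tactic.Linarith.sub_neg_of_lt hpq)) (Mathlib.Tactic.Linarith.sub_nonpos_of_le a1)]) a5))).2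
    have hη' : 0 < η * S.θ ^ l := by positivity
    have k5 : η * S.θ ^ l ≤ v - u := by
      have : c0 * (v - u) ≤ 1 * (v - u) :=
        mul_le_mul_of_nonneg_right (min_le_left _ _) (sub_nonneg.mpr a1)
      linarith only [a6, k2, this]
    have k6 := mul_le_mul_of_nonneg_left k5 hε.le
    refine le_of_mul_le_mul_right ?_ (hη'.trans_le k5)
    linarith only [e3, a6, k1, k3, k4, hη', k6]
  have iter : ∀ (T : ℝ) (ξ : ℂ) (j : ℕ), G T ξ ≤ G (s ^ j * T) (ξ / (s ^ j : ℝ)) +
      j * (4 * c0 + 2 * R * ‖ξ‖) := by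
    clear * - G s c0 R p q CP hp0 hq0 hp hpq hs1 hR hs
    intro T ξ j
    induction j with
    | zero => simp
    | succ j ih =>
      have h1 := CP (s ^ j * T / p) (ξ / (s ^ j : ℝ) / q)
      have hp' : (p : ℂ) ≠ 0 := by exact_mod_cast hp0.ne'
      have hq' : (q : ℂ) ≠ 0 := by exact_mod_cast hq0.ne'
      rw [mul_div_cancel₀ _ hp0.ne', mul_div_cancel₀ _ hq',
        show q * (s ^ j * T / p) = s ^ (j + 1) * T by rw [pow_succ, hs]; ring,
        show p * (ξ / (s ^ j : ℝ) / q) = ξ / (s ^ (j + 1) : ℝ) by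
          rw [pow_succ, hs]; push_cast; field_simp] at h1
      have h2 : ‖ξ / (s ^ j : ℝ) / q‖ ≤ ‖ξ‖ := by
        rw [norm_div, norm_div, Complex.norm_real, Complex.norm_real, Real.norm_of_nonneg hq0.le,
          Real.norm_of_nonneg (by positivity)]
        exact (div_le_self (by positivity) (hp.trans hpq.le)).trans
          (div_le_self (norm_nonneg _) (one_le_pow₀ hs1.le))
      have h3 := mul_le_mul_of_nonneg_left h2 hR
      push_cast at h1 h3 ih ⊢; linarith only [h1, h3, ih]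
  obtain ⟨i, hi⟩ := exists_nat_ge ((16 * J * R) ^ 2 / (c2 ^ 2 * ‖S.δ‖ ^ 2))
  rw [div_le_iff₀ (by positivity)] at hi
  obtain ⟨T, ξ, h1, h2, h3⟩ := hLO (i + 1) (by omega)
  have h4 := hUP (s ^ J * T) (ξ / (s ^ J : ℝ)) (g + (i + 1))
  have hsJ : 0 < s ^ J := by positivity
  have hg := S.θpow_pos g
  have t1 : K * |s ^ J * T| / S.θ ^ (g + (i + 1)) ≤ c2 / 4 := by
    clear * - K s J T C S g i c2 hsJ c3 hJ1 h1 hc2 hK hθ hc3
    rw [abs_mul, abs_of_pos hsJ, div_le_iff₀ (S.θpow_pos _), pow_add]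
    calc _ ≤ K * ((c3 * S.θ ^ g) * (K * S.θ ^ (i + 1))) := by gcongr
      _ = _ := by rw [hc3]; field_simp
  have t2 : K * ‖ξ / (s ^ J : ℝ)‖ ^ 2 * S.sig (g + (i + 1)) ≤ c2 / 4 := by
    clear * - K ξ s J C S g i c2 hsJ q p hq0 hp c3 r hK hδ hr hθ hs1 h2 hg2 hc2 hJ2
    rw [norm_div, Complex.norm_real, Real.norm_of_nonneg hsJ.le, div_pow, mul_div_assoc',
      div_mul_eq_mul_div, div_le_iff₀ (by positivity)]
    refine le_of_mul_le_mul_right ?_ (show 0 < ‖S.δ‖ ^ 2 * s ^ 2 by positivity)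
    have := S.sig_add g (i + 1) (by omega)
    calc _ ≤ K * ‖ξ‖ ^ 2 * ((g + 1) * (‖S.β‖ ^ 2) ^ g * S.sig (i + 1)) * (‖S.δ‖ ^ 2 * s ^ 2) := by
          gcongr
      _ = (g * r ^ g + r ^ g) * (K * s ^ 2) * (S.θ ^ g) ^ 2 * (‖ξ‖ ^ 2 * ‖S.δ‖ ^ 2 * S.sig (i + 1)) := by
          clear * - K ξ g C S i s r hr hθ hs1 hδ hK
          rw [hr, div_pow (‖S.β‖ ^ 2), ← pow_mul S.θ 2 g, mul_comm 2 g, pow_mul]; field_simp
      _ ≤ c2 / 4 * (‖S.δ‖ ^ 2 * c3 ^ 2) * (S.θ ^ g) ^ 2 * 1 := by rw [h2]; gcongr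
      _ = c2 / 4 * ‖S.δ‖ ^ 2 * (c3 * S.θ ^ g) ^ 2 := by ring
      _ ≤ c2 / 4 * ‖S.δ‖ ^ 2 * (s ^ (J + 1)) ^ 2 := by gcongr
      _ = _ := by ring
  have t3 : J * (4 * c0) ≤ c2 / 8 := by
    clear * - c0 c2 J hc00
    have : c0 ≤ c2 / (32 * (J + 1)) := min_le_right _ _
    rw [le_div_iff₀ (by positivity)] at this
    linarith only [hc00, this]
  have t4 : 16 * J * R * ‖ξ‖ ≤ c2 := by
    clear * - c2 J R ξ i C S hi hc2 hδ h2
    refine (abs_le_of_sq_le_sq' ?_ hc2.le).2
    have h5 : (i : ℝ) ≤ S.sig (i + 1) := le_trans (by simp) (S.le_sig (i + 1))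
    calc _ = (16 * J * R) ^ 2 * ‖ξ‖ ^ 2 := by ring
      _ ≤ S.sig (i + 1) * (c2 ^ 2 * ‖S.δ‖ ^ 2) * ‖ξ‖ ^ 2 := by
          gcongr; exact hi.trans (by gcongr)
      _ = c2 ^ 2 * (‖ξ‖ ^ 2 * ‖S.δ‖ ^ 2 * S.sig (i + 1)) := by ring
      _ = _ := by rw [h2, mul_one]
  clear * - c2 G T ξ s J K C S g i c0 R hc2 h3 h4 t1 t2 t3 t4 iter
  linarith only [hc2, h3, h4, t1, t2, t3, t4, iter, iter T ξ J]

lemma Pk_of_lt (p q : ℝ) (hp : 1 ≤ p) (hpq : p < q) (κ : ℝ) (hκ : 0 < κ) : S.Pk p q κ := by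
  classical
  obtain ⟨c0, h0, h1, hsp⟩ := S.spread p q hp hpq
  obtain ⟨lm, lM, hlm, hlM, hL⟩ := S.exists_L
  have hp0 : 0 < p := by linarith
  have hq0 : 0 < q := by linarith
  have key : ∀ j : ℕ, S.Pk p q ((1 - c0) ^ j) := by
    intro j
    induction j with
    | zero =>
      refine fun η hη => Eventually.of_forall fun n c c' α α' u v w0 a _ _ _ _ => ?_
      refine ((le_abs_self _).trans (int_le_const (B := 1) a fun x => ?_)).trans ?_
      · split_ifs <;> simp
      · have := S.θpow_pos n; rw [pow_zero]; linarith only [hη, this, mul_pos_of_neg_of_neg (Mathlib.Tactic.Linarith.sub_neg_of_lt hη) (Mathlib.Tactic.Linarith.sub_neg_of_lt this)]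
    | succ j ih =>
      intro η hη
      have hk0 : 0 ≤ (1 - c0) ^ j := pow_nonneg (by linarith) j
      have hk1 : (1 - c0) ^ j ≤ 1 := pow_le_one₀ (by linarith) (by linarith)
      rw [pow_succ]
      generalize (1 - c0) ^ j = k at ih hk0 hk1
      obtain ⟨n, hn⟩ := (ih (η / 2 / (2 * (lM / lm) + 3)) (by positivity)).exists
      obtain ⟨B, hB0, hB⟩ := S.Z_bdd n
      obtain ⟨l0, hl0⟩ := eventually_atTop.mp (hsp (η / 2) ((p + q) * B) (by positivity)
        (by positivity))
      filter_upwards [eventually_ge_atTop (n + l0)] with N hN c c' α α' u v w0 a1 a2 a3 a4 a5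
      obtain ⟨l, rfl⟩ : ∃ l, N = n + l := ⟨N - n, by omega⟩
      have hθn := S.θpow_pos n
      have hθl : 1 ≤ S.θ ^ l := one_le_pow₀ S.one_lt.le
      have hβ : 1 ≤ ‖S.β ^ n‖ := by rw [norm_pow]; exact one_le_pow₀ S.one_le
      have hβ0 : S.β ^ n ≠ 0 := norm_pos_iff.mp (by linarith only [hβ])
      set g : ℝ → ℝ := fun s => if ‖q * S.Z l c (p * s + α / S.θ ^ n) -
        p * S.Z l c' (q * s + α' / S.θ ^ n) - w0 / S.β ^ n‖ ≤ (p + q) * B then 1 else 0 with hg
      have sc : ∀ r a x : ℝ, r * (x / S.θ ^ n) + a / S.θ ^ n = (r * x + a) / S.θ ^ n :=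
        fun r a x => by ring
      have e1 : ∫ s in u..v, g (s / S.θ ^ n) ≤ (1 - c0) * (v - u) + η / 2 * S.θ ^ (n + l) := by
        clear * - g C S n u v c0 η l hθn q c p α c' α' w0 B hl0 l0 hN a1 sc a2 a3 a4 a5
        rw [intervalIntegral.integral_comp_div g hθn.ne', smul_eq_mul]
        refine (mul_le_mul_of_nonneg_left (hl0 l (by omega) c c' _ _ _ _ _ (by gcongr)
          (by rw [sc]; positivity) (by rw [sc, div_le_iff₀ hθn]; rw [pow_add] at a3; linarith only [a3])
          (by rw [sc]; positivity) (by rw [sc, div_le_iff₀ hθn]; rw [pow_add] at a5; linarith only [a5]))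
          hθn.le).trans (le_of_eq ?_)
        rw [pow_add]; field_simp
      have iA : ∀ (m : ℕ) (d d' : C) (a a' : ℝ) (w : ℂ) (x y : ℝ), IntervalIntegrable (fun s : ℝ =>
          if q * S.Z m d (p * s + a) - p * S.Z m d' (q * s + a') = w then (1 : ℝ) else 0)
          volume x y := fun m d d' a a' w x y =>
        int_ite (measurableSet_eq_fun (by fun_prop) measurable_const) _ _ _ _
      have iB : ∀ x y, IntervalIntegrable (fun s => k * g (s / S.θ ^ n)) volume x y := fun x y =>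
        (int_ite (measurableSet_le (by fun_prop) measurable_const) _ _ _ _).const_mul k
      have e2 := break_pts (fun x y => (iA (n + l) c c' α α' w0 x y).sub (iB x y))
        (η := η / 2 / (2 * (lM / lm) + 3) * S.θ ^ n) (u := u) (by positivity)
        ((range ((S.desc l c).length + 1)).image
          (fun i => (S.θ ^ n * S.tot ((S.desc l c).take i) - α) / p) ∪
        (range ((S.desc l c').length + 1)).image
          (fun i => (S.θ ^ n * S.tot ((S.desc l c').take i) - α') / q)) v a1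
        fun u' v' b1 b2 b3 b4 => by
          clear * - u' v' q C S n l c p α c' α' w0 k g η lM lm b2 v hη hlM hlm hθn b3 b4 hp0 u a2
            b1 hp a3 hq0 a4 hpq a5 hn B hg iA hβ hβ0 hB
          rcases b2.eq_or_lt with rfl | b2
          · simp; positivity
          obtain ⟨b, α1, ζ, c1, c2, c3⟩ := S.cell hp0 n l c b2 (α := α) (by clear * - p u' α u a2 b1 hp S b2 b4 c hp0 l n; linarith only [a2, b1, hp, mul_nonneg_of_nonpos_of_nonpos (Mathlib.Tactic.Linarith.sub_nonpos_of_le hp) (Mathlib.Tactic.Linarith.sub_nonpos_of_le b1)]) (by clear * - p v' α C S n l c v a3 b3 hp b2 b4 hp0; linarith only [a3, b3, hp, mul_nonneg_of_nonpos_of_nonpos (Mathlib.Tactic.Linarith.sub_nonpos_of_le hp) (Mathlib.Tactic.Linarith.sub_nonpos_of_le b3)])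
            fun x hx => b4 x (mem_union_left _ hx)
          obtain ⟨b', α2, ζ', d1, d2, d3⟩ := S.cell hq0 n l c' b2 (α := α') (by clear * - q u' α' u p a4 b1 hp hpq S b2 b4 c' hq0 l n α; linarith only [a4, b1, hp, hpq, mul_nonneg_of_nonpos_of_nonpos (Mathlib.Tactic.Linarith.sub_nonpos_of_le hp) (Mathlib.Tactic.Linarith.sub_nonpos_of_le b1), mul_nonneg_of_nonpos_of_nonpos (le_of_lt (Mathlib.Tactic.Linarith.sub_neg_of_lt hpq)) (Mathlib.Tactic.Linarith.sub_nonpos_of_le b1)])
            (by clear * - q v' α' C S n l c' v p a5 b3 hp hpq b4; nlinarith) fun x hx => b4 x (mem_union_right _ hx)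
          have f1 := hn b b' α1 α2 u' v' (w0 - S.β ^ n * (q * ζ - p * ζ')) b2.le c1 c2 d1 d2
          by_cases hc : ‖q * ζ - p * ζ' - w0 / S.β ^ n‖ ≤ (p + q) * B
          · rw [int_congr_Ico (g := fun s => (if q * S.Z n b (p * s + α1) - p * S.Z n b' (q * s + α2)
              = w0 - S.β ^ n * (q * ζ - p * ζ') then (1 : ℝ) else 0) - k) b2.le fun s s1 s2 => by
                simp only [hg, (c3 s s1 s2).1, (c3 s s1 s2).2, (d3 s s1 s2).1, (d3 s s1 s2).2,
                  if_pos hc, mul_one]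
                congr 2
                exact propext ⟨fun h => by rw [← h]; ring, fun h => by linear_combination h⟩,
              intervalIntegral.integral_sub (iA _ _ _ _ _ _ _ _) intervalIntegrable_const,
              intervalIntegral.integral_const, smul_eq_mul]
            linarith only [f1]
          · rw [int_congr_Ico (g := fun _ => 0) b2.le fun s s1 s2 => by
              clear * - q C S n l c p s α c' α' w0 k g ζ b α1 ζ' b' α2 c3 s1 s2 d3 B hg hc hβ hβ0
                hp0 hq0 hB hp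
              simp only [hg, (c3 s s1 s2).1, (c3 s s1 s2).2, (d3 s s1 s2).1, (d3 s s1 s2).2,
                if_neg hc, mul_zero, sub_zero]
              refine if_neg fun h => hc ?_
              refine (le_mul_of_one_le_left (norm_nonneg _) hβ).trans ?_
              rw [← norm_mul, show S.β ^ n * (q * ζ - p * ζ' - w0 / S.β ^ n)
                = p * S.Z n b' (q * s + α2) - q * S.Z n b (p * s + α1) by
                  rw [← h]; field_simp; ring]
              refine (norm_sub_le _ _).trans ?_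
              rw [norm_mul, norm_mul, Complex.norm_real, Complex.norm_real,
                Real.norm_of_nonneg hp0.le, Real.norm_of_nonneg hq0.le, add_mul]
              gcongr <;> exact hB _ _]
            simp; positivity
      rw [intervalIntegral.integral_sub (iA _ _ _ _ _ _ _ _) (iB _ _),
        intervalIntegral.integral_const_mul] at e2
      have ln : ∀ d, ((S.desc l d).length : ℝ) ≤ lM / lm * S.θ ^ l := fun d => by
        clear * - lm C S l d lM hL hlm hθl c
        have := S.length_le (fun c => (hL c).1) (S.desc l d)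
        rw [tot_desc] at this
        rw [div_mul_eq_mul_div, le_div_iff₀ hlm]
        linarith only [this, hL, hθl, (hL d).2, mul_nonneg_of_nonpos_of_nonpos (Mathlib.Tactic.Linarith.sub_nonpos_of_le hθl) (Mathlib.Tactic.Linarith.sub_nonpos_of_le (hL d).right)]
      have e3 := (card_union_le ((range ((S.desc l c).length + 1)).image
          (fun i => (S.θ ^ n * S.tot ((S.desc l c).take i) - α) / p))
        ((range ((S.desc l c').length + 1)).image
          (fun i => (S.θ ^ n * S.tot ((S.desc l c').take i) - α') / q))).trans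
        (add_le_add card_image_le card_image_le)
      rw [card_range, card_range, ← Nat.cast_le (α := ℝ)] at e3
      push_cast at e3
      have e4 := e2.trans (mul_le_mul_of_nonneg_left (c := (2 * (lM / lm) + 3) * S.θ ^ l)
        (by clear * - C S n l c α p c' α' q lM lm hθl e3 ln; linarith only [hθl, e3, ln, ln c, ln c']) (by positivity))
      rw [show η / 2 / (2 * (lM / lm) + 3) * S.θ ^ n * ((2 * (lM / lm) + 3) * S.θ ^ l)
        = η / 2 * S.θ ^ (n + l) by rw [pow_add]; field_simp] at e4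
      have e5 := mul_le_mul_of_nonneg_left e1 hk0
      have e6 : k * (η / 2 * S.θ ^ (n + l)) ≤ 1 * (η / 2 * S.θ ^ (n + l)) := by
        have := S.θpow_pos (n + l); gcongr
      clear * - q C S n l c p α c' α' w0 u v k c0 η g e4 e5 e6
      linarith only [e4, e5, e6]
  obtain ⟨j, hj⟩ := exists_pow_lt_of_lt_one hκ (show 1 - c0 < 1 by linarith)
  intro η hη
  filter_upwards [key j η hη] with n hn c c' α α' u v w0 a1 a2 a3 a4 a5
  exact (hn c c' α α' u v w0 a1 a2 a3 a4 a5).trans (by gcongr)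

theorem atom (p q : ℕ) (hp : 1 ≤ p) (hq : 1 ≤ q) (hpq : p ≠ q) (κ : ℝ) (hκ : 0 < κ) :
    ∀ᶠ n in atTop, ∀ (c c' : C) (ρ0 : ℝ) (ζ0 : ℂ) (s : Finset ℝ),
      (∀ ρ ∈ s, ∃ ρ' ζ ζ', S.Tile n c ρ ζ ∧ S.Tile n c' ρ' ζ' ∧ q * ρ - p * ρ' = ρ0 ∧
        q * ζ - p * ζ' = ζ0) → (s.card : ℝ) ≤ κ * S.θ ^ n := by
  classical
  obtain ⟨lm, lM, hlm, hlM, hL⟩ := S.exists_L
  have hL1 := fun c => (hL c).1
  have hp1 : (1 : ℝ) ≤ p := by exact_mod_cast hp
  have hq1 : (1 : ℝ) ≤ q := by exact_mod_cast hq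
  have hp0 : (0 : ℝ) < p := by linarith only [hp1]
  set lam := lm / (p + q) with hlam
  have hl0 : 0 < lam := by positivity
  have hl1 : p * lam + q * lam = lm := by rw [hlam]; field_simp
  have hl2 : 0 < p * lam := by positivity
  have hl3 : 0 < q * lam := by positivity
  have hP : S.Pk p q (κ * lam / (2 * lM)) := by
    rcases lt_or_gt_of_ne hpq with h | h
    · exact S.Pk_of_lt p q hp1 (by exact_mod_cast h) _ (by positivity)
    · exact Pk.symm S (S.Pk_of_lt q p hq1 (by exact_mod_cast h) _ (by positivity))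
  filter_upwards [hP (κ * lam / 2) (by positivity)] with n hn c c' ρ0 ζ0 s hs
  have hθn := S.θpow_pos n
  rcases s.eq_empty_or_nonempty with rfl | hne
  · simp; positivity
  have dv : ∀ ρ : ℝ, p * (ρ / p) = ρ := fun ρ => mul_div_cancel₀ _ hp0.ne'
  have sp : ∀ ρ ∈ s, 0 ≤ ρ ∧ ρ + lm ≤ S.θ ^ n * S.L c ∧ 0 ≤ q * (ρ / p) + -ρ0 / p ∧
      q * (ρ / p) + -ρ0 / p + lm ≤ S.θ ^ n * S.L c' ∧ ∀ x, ρ / p ≤ x → x < ρ / p + lam →
      (q : ℝ) * S.Z n c (p * x + 0) - (p : ℝ) * S.Z n c' (q * x + -ρ0 / p) = ζ0 := by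
    clear * - s C S n c c' q p ρ0 ζ0 lm lam hs hL1 hp hp0 hq1 dv hl1 hl3 hl2
    intro ρ hρ
    obtain ⟨ρ', ζ, ζ', t1, t2, e1, e2⟩ := hs ρ hρ
    obtain ⟨a1, a2, a3⟩ := Tile.spec S t1 hL1
    obtain ⟨b1, b2, b3⟩ := Tile.spec S t2 hL1
    have e3 : q * (ρ / p) + -ρ0 / p = ρ' := by rw [← e1]; field_simp; ring
    refine ⟨a1, a2, e3 ▸ b1, e3 ▸ b2, fun x x1 x2 => ?_⟩
    have m1 := mul_le_mul_of_nonneg_left x1 hp0.le
    have m2 := mul_lt_mul_of_pos_left x2 hp0
    have m3 := mul_le_mul_of_nonneg_left x1 (by linarith only [hq1] : (0 : ℝ) ≤ q)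
    have m4 := mul_lt_mul_of_pos_left x2 (by linarith only [hq1] : (0 : ℝ) < q)
    rw [a3 _ (by linarith only [m1, dv, dv ρ]) (by linarith only [hl1, hl3, m2, dv, dv ρ]), b3 _ (by linarith only [e3, m3]) (by linarith only [hl1, hl2, e3, m4])]
    exact_mod_cast e2
  obtain ⟨a1, -, a3, -, -⟩ := sp _ (s.min'_mem hne)
  obtain ⟨-, b2, -, b4, -⟩ := sp _ (s.max'_mem hne)
  have mm : s.min' hne / p ≤ s.max' hne / p := by gcongr; exact s.min'_le _ (s.max'_mem hne)
  have h1 := hn c c' 0 (-ρ0 / p) (s.min' hne / p) (s.max' hne / p + lam) ζ0 (by linarith only [hne, hl0, mm])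
    (by linarith only [hne, a1, dv, dv (s.min' hne)]) (by linarith only [hne, hl1, hl3, b2, dv, dv (s.max' hne)]) a3 (by linarith only [hne, hl1, hl2, b4])
  have h2 := (count_le (int_ite (measurableSet_eq_fun (by fun_prop) measurable_const) 1 0)
    (fun x => by split_ifs <;> norm_num) hl0.le (· / p) s
    (fun a ha => ⟨by gcongr; exact s.min'_le _ ha, fun x x1 x2 =>
      (if_pos ((sp a ha).2.2.2.2 x x1 x2)).ge⟩)
    (fun a ha a' ha' h => by
      clear * - C S n c a c' q p ρ0 ζ0 lam a' hs ha ha' lm hl1 hl3 hL1 h dv hp0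
      obtain ⟨_, _, _, t1, -⟩ := hs a ha
      obtain ⟨_, _, _, t2, -⟩ := hs a' ha'
      refine le_of_mul_le_mul_left ?_ hp0
      linarith only [hl1, hl3, t1, t2, hL1, h, dv, Tile.sep S t1 t2 hL1 h, dv a, dv a']) _ (by linarith only [hne, hl0, mm])
    fun a ha => by gcongr; exact s.le_max' _ ha).trans h1
  have h3 : s.max' hne / p + lam - s.min' hne / p ≤ S.θ ^ n * lM := by
    clear * - p s hne lam C S n lM hp1 lm q hl0 mm c hL hθn hl1 hl3 a1 b2 dv
    refine le_of_mul_le' hp1 (by linarith only [hne, hl0, mm]) ?_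
    have : S.θ ^ n * S.L c ≤ S.θ ^ n * lM := by gcongr; exact (hL c).2
    linarith only [hne, hl1, hl3, a1, b2, this, dv, dv (s.min' hne), dv (s.max' hne)]
  have h4 := mul_le_mul_of_nonneg_left h3 (show 0 ≤ κ * lam / (2 * lM) by positivity)
  rw [show κ * lam / (2 * lM) * (S.θ ^ n * lM) = κ * lam / 2 * S.θ ^ n by field_simp] at h4
  refine le_of_mul_le_mul_right ?_ hl0
  clear * - s lam κ C S n lM hne p lm q h2 h4
  linarith only [hne, h2, h4]

end SSS
end Pool.Agent.SB
end
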