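import Pool.Agent.Work.MP_cf06ef_an.B17
import Pool.Agent.Lib.ANT.Katai
import Pool.Agent.Work.MP_cf06ef_an.B8
import Pool.Agent.Lib.ANT.Davenport

-- merged part: Pool.Agent.Work.MP_cf06ef_an.B14
section
-- merged part: Pool.Agent.Work.MP_cf06ef_an.B2
section
/-! Convolution bound, piecewise constant parameters, moving orbits: linear structure, Katai. -/

set_option autoImplicit false
open Finset Filter Topology
open ArithmeticFunction (moebius)

namespace Pool.Agent.SB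
open Pool.Agent.PT

lemma B2_mumu_le (m n : ℕ) : |mu m * mu n| ≤ 1 := by
  rw [abs_mul]; exact mul_le_one₀ (mu_abs_le m) (abs_nonneg _) (mu_abs_le n)

lemma B2_corr_lt (h : CH2) (η : ℝ) (hη : 0 < η) (s t : ℕ) (hst : s < t) :
    ∀ᶠ N : ℕ in atTop, |∑ u ∈ Icc 1 N, mu (u + s) * mu (u + t)| ≤ η * N := by
  obtain ⟨d, rfl⟩ := Nat.exists_eq_add_of_lt hst
  have h1 := (h (d + 1) (by omega)).abs
  rw [abs_zero] at h1
  obtain ⟨N1, hN1⟩ := eventually_atTop.mp (h1.eventually (gt_mem_nhds (show 0 < η / 4 by positivity)))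
  obtain ⟨N2, hN2⟩ := exists_nat_ge ((s + 1 : ℝ) / (η / 2))
  rw [div_le_iff₀ (by positivity)] at hN2
  filter_upwards [eventually_ge_atTop N1, eventually_ge_atTop N2, eventually_ge_atTop (s + 1)]
    with N a1 a2 a3
  have e : ∑ u ∈ Icc 1 N, mu (u + s) * mu (u + (s + d + 1)) =
      ∑ n ∈ range (s + 1 + N), mu n * mu (n + (d + 1)) -
        ∑ n ∈ range (s + 1), mu n * mu (n + (d + 1)) := by
    rw [sum_range_add, add_sub_cancel_left, ← Ico_add_one_right_eq_Icc, sum_Ico_eq_sum_range,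
      Nat.add_sub_cancel]
    exact sum_congr rfl fun i _ => by congr 2 <;> omega
  have b1 := hN1 (s + 1 + N) (by omega)
  have hpos : (0 : ℝ) < (s + 1 + N : ℕ) := by positivity
  rw [abs_mul, abs_of_pos (by positivity), one_div, inv_mul_lt_iff₀ hpos] at b1
  have b2 : |∑ n ∈ range (s + 1), mu n * mu (n + (d + 1))| ≤ (s + 1 : ℝ) := by
    refine (abs_sum_le_sum_abs _ _).trans ((sum_le_sum fun n _ => B2_mumu_le _ _).trans ?_)
    simp
  have c2 : (N2 : ℝ) ≤ N := by exact_mod_cast a2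
  have c3 : (s + 1 : ℝ) ≤ N := by exact_mod_cast a3
  rw [e]
  refine (abs_sub _ _).trans ?_
  push_cast at b1
  clear * - s N d η N2 hN2 b2 b1 hη c2 c3
  linarith only [hN2, b2, b1, hη, c2, c3, mul_nonneg_of_nonpos_of_nonpos (le_of_lt (Mathlib.Tactic.Linarith.sub_neg_of_lt hη)) (Mathlib.Tactic.Linarith.sub_nonpos_of_le c2), mul_nonneg_of_nonpos_of_nonpos (le_of_lt (Mathlib.Tactic.Linarith.sub_neg_of_lt hη)) (Mathlib.Tactic.Linarith.sub_nonpos_of_le c3)]

theorem cv_of_ch2 (h : CH2) : CV := by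
  classical
  intro δ hδ w
  have hev : ∀ᶠ N : ℕ in atTop, ∀ s ∈ range w, ∀ t ∈ range w, s ≠ t →
      |∑ u ∈ Icc 1 N, mu (u + s) * mu (u + t)| ≤ δ ^ 2 * N := by
    refine (eventually_all_finset _).mpr fun s _ => (eventually_all_finset _).mpr fun t _ => ?_
    rcases lt_trichotomy s t with hst | rfl | hst
    · exact (B2_corr_lt h _ (by positivity) s t hst).mono fun N hN _ => hN
    · exact Eventually.of_forall fun N hN => absurd rfl hN
    · exact (B2_corr_lt h (δ ^ 2) (by positivity) t s hst).mono fun N hN _ => by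
        rwa [sum_congr rfl fun u _ => mul_comm (mu (u + s)) (mu (u + t))]
  obtain ⟨N0, hN0⟩ := eventually_atTop.mp hev
  refine ⟨N0, fun N hN ι I t k ht hk => ?_⟩
  have hk0 : 0 ≤ k := le_trans (Nat.cast_nonneg _) (hk 0)
  rcases I.eq_empty_or_nonempty with rfl | hI
  · simp; positivity
  have hc : (0 : ℝ) < I.card := by exact_mod_cast hI.card_pos
  have hsq : ∑ u ∈ Icc 1 N, (∑ i ∈ I, mu (u + t i)) ^ 2 ≤
      (k * I.card + δ ^ 2 * I.card ^ 2) * N := by
    clear * - N ι I t k δ hN0 hN w ht hk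
    have e : ∑ u ∈ Icc 1 N, (∑ i ∈ I, mu (u + t i)) ^ 2 =
        ∑ i ∈ I, ∑ j ∈ I, ∑ u ∈ Icc 1 N, mu (u + t i) * mu (u + t j) := by
      simp only [pow_two, sum_mul_sum]
      rw [sum_comm]
      exact sum_congr rfl fun i _ => sum_comm
    rw [e]
    refine (sum_le_sum (g := fun _ => (k + δ ^ 2 * I.card) * N) fun i hi => ?_).trans ?_
    · refine (sum_le_sum (g := fun j => ((if t j = t i then 1 else 0) + δ ^ 2) * (N : ℝ))
        fun j hj => ?_).trans ?_
      · split_ifs with hij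
        · refine (sum_le_sum fun u _ => (le_abs_self _).trans (B2_mumu_le _ _)).trans ?_
          simp only [sum_const, Nat.card_Icc, add_tsub_cancel_right, nsmul_eq_mul, mul_one]
          linarith only [Nat.cast_nonneg (α := ℝ) N, sq_nonneg δ, mul_nonneg_of_nonpos_of_nonpos (Mathlib.Tactic.Linarith.sub_nonpos_of_le (sq_nonneg δ)) (Mathlib.Tactic.Linarith.sub_nonpos_of_le (Mathlib.Tactic.Linarith.natCast_nonneg ℝ N))]
        · rw [zero_add]
          exact (le_abs_self _).trans (hN0 N hN _ (mem_range.mpr (ht i hi)) _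
            (mem_range.mpr (ht j hj)) (Ne.symm hij))
      · rw [← sum_mul, sum_add_distrib, sum_boole, sum_const, nsmul_eq_mul]
        exact mul_le_mul_of_nonneg_right (add_le_add (hk (t i)) (le_of_eq (mul_comm _ _)))
          (Nat.cast_nonneg _)
    · rw [sum_const, nsmul_eq_mul]
      exact le_of_eq (by ring)
  have hl : 0 < δ * I.card := by positivity
  have one : ∀ y : ℝ, |y| ≤ y ^ 2 / (2 * (δ * I.card)) + δ * I.card / 2 := fun y => by
    clear * - y δ ι I hδ hI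
    rw [div_add_div _ _ (by positivity) (by norm_num), le_div_iff₀ (by positivity), ← sq_abs y]
    linarith only [sq_nonneg (|y| - δ * I.card), sq_nonneg (|y| - δ * ↑(#I))]
  refine (sum_le_sum fun u _ => one _).trans ?_
  rw [sum_add_distrib, ← sum_div, sum_const, Nat.card_Icc, add_tsub_cancel_right, nsmul_eq_mul]
  have h2 : (∑ u ∈ Icc 1 N, (∑ i ∈ I, mu (u + t i)) ^ 2) / (2 * (δ * I.card)) ≤
      N * (k / (2 * δ) + δ * I.card / 2) := by
    clear * - N ι I t δ k hsq hδ hI hk0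
    refine (div_le_div_of_nonneg_right hsq (by positivity)).trans (le_of_eq ?_)
    field_simp
  have h3 : k / (2 * δ) ≤ k / δ := by gcongr; linarith only [hδ]
  clear * - N ι I t δ k h2 h3
  linarith only [h2, h3, Nat.cast_nonneg (α := ℝ) N, mul_nonneg_of_nonpos_of_nonpos (Mathlib.Tactic.Linarith.sub_nonpos_of_le (Mathlib.Tactic.Linarith.natCast_nonneg ℝ N)) (Mathlib.Tactic.Linarith.sub_nonpos_of_le h3)]

lemma B2_jmp_eq {Θ : Type} (π : ℕ → Θ) (N : ℕ) (h : π (N + 1) = π N) :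
    jmp π (N + 1) = jmp π N := by
  classical
  unfold jmp
  rw [range_add_one, filter_insert, if_neg (by simpa using h)]

lemma B2_jmp_ne {Θ : Type} (π : ℕ → Θ) (N : ℕ) (h : π (N + 1) ≠ π N) :
    jmp π (N + 1) = jmp π N + 1 := by
  classical
  unfold jmp
  rw [range_add_one, filter_insert, if_pos h, card_insert_of_notMem (by simp)]

lemma piecewise {Θ E : Type} [SeminormedAddCommGroup E] (f : Θ → ℕ → E) (α b : ℝ)
    (h : ∀ θ (A M : ℕ), ‖∑ i ∈ range M, f θ (A + i)‖ ≤ α * M + b) (π : ℕ → Θ) (N : ℕ) :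
    ‖∑ n ∈ Icc 1 N, f (π n) n‖ ≤ α * N + b * (jmp π N + 1) := by
  have key : ∀ N M : ℕ, ‖∑ n ∈ Icc 1 N, f (π n) n + ∑ i ∈ range M, f (π N) (N + 1 + i)‖ ≤
      α * (N + M) + b * (jmp π N + 1) := by
    intro N
    induction N with
    | zero => intro M; simpa [jmp] using h (π 0) 1 M
    | succ N ih =>
      intro M
      have e : ∑ n ∈ Icc 1 (N + 1), f (π n) n + ∑ i ∈ range M, f (π (N + 1)) (N + 1 + 1 + i) =
          ∑ n ∈ Icc 1 N, f (π n) n + ∑ i ∈ range (M + 1), f (π (N + 1)) (N + 1 + i) := by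
        rw [sum_Icc_succ_top (by omega), sum_range_succ', add_assoc, add_comm (f _ _)]
        congr 2
        exact sum_congr rfl fun i _ => by congr 1; omega
      rw [e]
      by_cases hj : π (N + 1) = π N
      · rw [B2_jmp_eq π N hj, hj]
        refine (ih (M + 1)).trans (le_of_eq ?_)
        push_cast; ring
      · rw [B2_jmp_ne π N hj]
        have h1 := ih 0
        have h2 := h (π (N + 1)) (N + 1) (M + 1)
        simp only [range_zero, sum_empty, add_zero, Nat.cast_zero] at h1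
        refine (norm_add_le _ _).trans ((add_le_add h1 h2).trans (le_of_eq ?_))
        push_cast; ring
  simpa using key N 0

lemma B2_Sm_nonneg {P : ℤ → Prop} {ε C : ℝ} (h : Sm P ε C) : 0 ≤ C := by
  simpa using h 0 0 ∅ (by simp)

open Classical in
/-- a small set stays small along moving orbits. -/
lemma Sm_moving {P : ℤ → Prop} {ε C : ℝ} (hε : 0 ≤ ε) (h : Sm P ε C) (π : ℕ → Option ℤ) (N : ℕ) :
    (((Icc 1 N).filter fun n : ℕ => ∃ ι, π n = some ι ∧ P (n + ι)).card : ℝ)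
      ≤ ε * N + C * (jmp π N + 1) := by
  have hC := B2_Sm_nonneg h
  have := piecewise (E := ℝ)
    (fun (o : Option ℤ) (n : ℕ) => if ∃ ι, o = some ι ∧ P (n + ι) then (1 : ℝ) else 0) ε C ?_ π N
  · rw [sum_boole] at this
    exact (le_abs_self _).trans this
  · intro o A M
    rw [Real.norm_of_nonneg (sum_nonneg fun i _ => by positivity)]
    cases o with
    | none => simp; positivity
    | some ι =>
      refine le_trans (le_of_eq (sum_congr rfl fun i _ => ?_)) (h.sum_le (A + ι) M)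
      have e : ((A + i : ℕ) : ℤ) + ι = A + ι + i := by push_cast; ring
      simp only [Option.some.injEq, exists_eq_left', e]

lemma BO.add {a b : ℤ → ℂ} (ha : BO a) (hb : BO b) : BO fun n => a n + b n := by
  intro ε hε
  obtain ⟨L1, N1, h1⟩ := ha (ε / 2) (by positivity)
  obtain ⟨L2, N2, h2⟩ := hb (ε / 2) (by positivity)
  refine ⟨L1 + L2, max N1 N2, fun N hN π => ?_⟩
  have e : ∀ o n, sh (fun n => a n + b n) o n = sh a o n + sh b o n := fun o n => by
    cases o <;> simp [sh]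
  simp only [e, mul_add, sum_add_distrib]
  have := h1 N (le_of_max_le_left hN) π
  have := h2 N (le_of_max_le_right hN) π
  exact (norm_add_le _ _).trans (by linarith)

lemma BO.smul {a : ℤ → ℂ} (ha : BO a) (c : ℂ) : BO fun n => c * a n := by
  intro ε hε
  obtain ⟨L1, N1, h1⟩ := ha (ε / (‖c‖ + 1)) (by positivity)
  refine ⟨(‖c‖ + 1) * L1, N1, fun N hN π => ?_⟩
  have e : ∀ o n, sh (fun n => c * a n) o n = c * sh a o n := fun o n => by
    cases o <;> simp [sh]
  have h2 : ∑ n ∈ Icc 1 N, (moebius n : ℂ) * sh (fun n => c * a n) (π n) n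
      = c * ∑ n ∈ Icc 1 N, (moebius n : ℂ) * sh a (π n) n := by
    rw [mul_sum]; exact sum_congr rfl fun n _ => by rw [e]; ring
  rw [h2, norm_mul]
  calc _ ≤ (‖c‖ + 1) * (ε / (‖c‖ + 1) * N + L1 * jmp π N) :=
        mul_le_mul (by linarith only []) (h1 N hN π) (norm_nonneg _) (by positivity)
    _ = ε * N + (‖c‖ + 1) * L1 * jmp π N := by field_simp

lemma BO.zero : BO fun _ => 0 := by
  intro ε hε
  refine ⟨0, 0, fun N _ π => ?_⟩
  have e : ∀ o n, sh (fun _ => 0) o n = 0 := fun o n => by cases o <;> simp [sh]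
  simp only [e, mul_zero, sum_const_zero, norm_zero, zero_mul, add_zero]
  positivity

lemma BO.sum {I : Type} (s : Finset I) (a : I → ℤ → ℂ) (h : ∀ i ∈ s, BO (a i)) :
    BO fun n => ∑ i ∈ s, a i n := by
  classical
  induction s using Finset.induction_on with
  | empty => simpa using BO.zero
  | insert i s hi ih =>
    simp only [sum_insert hi]
    exact (h i (mem_insert_self _ _)).add (ih fun j hj => h j (mem_insert_of_mem hj))

lemma B2_sh_le {a : ℤ → ℂ} (ha : ∀ n, ‖a n‖ ≤ 1) (o : Option ℤ) (n : ℕ) : ‖sh a o n‖ ≤ 1 := by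
  cases o with
  | none => simp [sh]
  | some ι => exact ha _

lemma BOe.perturb {a b : ℤ → ℂ} (ha : ∀ n, ‖a n‖ ≤ 1) (hb : ∀ n, ‖b n‖ ≤ 1) {ε ε' C : ℝ}
    (h : BOe b ε) {P : ℤ → Prop} (hP : Sm P ε' C) (hε' : 0 < ε') (hab : ∀ n, ¬ P n → a n = b n) :
    BOe a (ε + 3 * ε') := by
  classical
  obtain ⟨L0, N0, h⟩ := h
  obtain ⟨N1, hN1⟩ := exists_nat_ge (2 * C / ε')
  rw [div_le_iff₀ hε'] at hN1
  refine ⟨L0 + 2 * C, max N0 N1, fun N hN π => ?_⟩
  have h1 := h N (le_of_max_le_left hN) π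
  have h2 := Sm_moving hε'.le hP π N
  have h3 : (N1 : ℝ) ≤ N := by exact_mod_cast le_of_max_le_right hN
  have h4 : ‖∑ n ∈ Icc 1 N, (moebius n : ℂ) * sh a (π n) n -
      ∑ n ∈ Icc 1 N, (moebius n : ℂ) * sh b (π n) n‖ ≤
      2 * (((Icc 1 N).filter fun n : ℕ => ∃ ι, π n = some ι ∧ P (n + ι)).card : ℝ) := by
    rw [← sum_sub_distrib, ← sum_boole, mul_sum]
    refine norm_sum_le_of_le _ fun n _ => ?_
    rw [← mul_sub, norm_mul]
    split_ifs with hn
    · have := norm_moebius_le n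
      have h5 := (norm_sub_le _ _).trans (add_le_add (B2_sh_le ha (π n) n) (B2_sh_le hb (π n) n))
      calc _ ≤ 1 * (1 + 1 : ℝ) := by gcongr
        _ = 2 * 1 := by norm_num
    · have h5 : sh a (π n) n = sh b (π n) n := by
        cases ho : π n with
        | none => rfl
        | some ι => exact hab _ fun hp => hn ⟨ι, ho, hp⟩
      simp [h5]
  have h5 := norm_le_norm_add_norm_sub' (∑ n ∈ Icc 1 N, (moebius n : ℂ) * sh a (π n) n)
    (∑ n ∈ Icc 1 N, (moebius n : ℂ) * sh b (π n) n)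
  linarith only [hN1, h1, h2, h4, h5, hε', h3, mul_nonneg_of_nonpos_of_nonpos (le_of_lt (Mathlib.Tactic.Linarith.sub_neg_of_lt hε')) (Mathlib.Tactic.Linarith.sub_nonpos_of_le h3)]

lemma B2_jmp_pair {Θ Θ' : Type} (π : ℕ → Θ) (π' : ℕ → Θ') (M : ℕ) :
    jmp (fun m => (π m, π' m)) M ≤ jmp π M + jmp π' M := by
  classical
  unfold jmp
  refine le_trans (card_le_card fun m hm => ?_) (card_union_le _ _)
  simp only [mem_filter, mem_union, ne_eq, Prod.mk.injEq] at hm ⊢
  tauto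

lemma B2_jmp_mul {Θ : Type} (π : ℕ → Θ) (p M : ℕ) :
    jmp (fun m => π (p * m)) M ≤ jmp π (p * M) := by
  classical
  unfold jmp
  refine le_trans (card_le_card (t := ((range (p * M)).filter fun n => π (n + 1) ≠ π n).image
    (· / p)) fun m hm => ?_) card_image_le
  simp only [mem_filter, mem_range] at hm
  by_contra hcon
  have key : ∀ i ≤ p, π (p * m + i) = π (p * m) := by
    intro i hi
    induction i with
    | zero => rfl
    | succ i ih =>
      rw [← ih (by omega)]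
      by_contra hne
      refine hcon (mem_image.mpr ⟨p * m + i, mem_filter.mpr ⟨mem_range.mpr ?_, hne⟩, ?_⟩)
      · calc p * m + i < p * (m + 1) := by rw [mul_add, mul_one]; omega
          _ ≤ p * M := Nat.mul_le_mul_left _ hm.1
      · rw [Nat.mul_add_div (by omega), Nat.div_eq_of_lt (by omega), add_zero]
  exact hm.2 (by rw [mul_add, mul_one]; exact key p le_rfl)

lemma B2_jmp_cut (π : ℕ → Option ℤ) (N K : ℕ) :
    jmp (fun n => if n ≤ N then π n else none) K ≤ jmp π N + 1 := by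
  unfold jmp
  refine le_trans (card_le_card fun m hm => ?_) (card_insert_le N _)
  simp only [mem_filter, mem_range, mem_insert] at hm ⊢
  rcases lt_trichotomy m N with h | h | h
  · right
    refine ⟨h, ?_⟩
    have := hm.2
    rwa [if_pos (by omega), if_pos h.le] at this
  · exact Or.inl h
  · exact absurd (by rw [if_neg (by omega), if_neg (by omega)]) hm.2

theorem BO_of_corr (hK : Kat) (P : Set ℕ) (hP : ∀ p ∈ P, p.Prime)
    (hdiv : ¬ Summable (fun p : P => (1 : ℝ) / (p : ℕ))) (a : ℤ → ℂ) (ha : ∀ n, ‖a n‖ ≤ 1)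
    (hc : ∀ p ∈ P, ∀ q ∈ P, p ≠ q → ∀ α > (0 : ℝ), ∃ b : ℝ, ∀ (ι ι' A : ℤ) (M : ℕ),
      ‖∑ i ∈ range M, a (p * (A + i) + ι) * (starRingEnd ℂ) (a (q * (A + i) + ι'))‖ ≤ α * M + b) :
    BO a := by
  intro ε hε
  obtain ⟨P0, hP0, δ, hδ, N0, hN0⟩ := hK P hP hdiv ε hε
  have : ∀ c : P0 × P0, ∃ b : ℝ, (c.1 : ℕ) ≠ c.2 → ∀ (ι ι' A : ℤ) (M : ℕ),
      ‖∑ i ∈ range M, a ((c.1 : ℕ) * (A + i) + ι) * (starRingEnd ℂ) (a ((c.2 : ℕ) * (A + i) + ι'))‖
        ≤ δ / 2 * M + b := by
    intro c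
    by_cases h : (c.1 : ℕ) ≠ c.2
    · obtain ⟨b, hb⟩ := hc _ (hP0 _ c.1.2) _ (hP0 _ c.2.2) h (δ / 2) (by positivity)
      exact ⟨b, fun _ => hb⟩
    · exact ⟨0, fun h' => absurd h' h⟩
  choose b hb using this
  obtain ⟨b1, hb1⟩ := (Set.finite_range b).bddAbove
  obtain ⟨b0, hb0, hb01⟩ : ∃ b0 : ℝ, 0 ≤ b0 ∧ b1 ≤ b0 := ⟨max 0 b1, le_max_left _ _, le_max_right _ _⟩
  obtain ⟨N1, hN1⟩ := exists_nat_ge (6 * b0 / δ / ε)
  rw [div_le_iff₀ hε] at hN1
  refine ⟨4 * b0 / δ, max N0 N1, fun N hN π => ?_⟩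
  have h4 : (N1 : ℝ) ≤ N := by exact_mod_cast le_of_max_le_right hN
  have hj : (0 : ℝ) ≤ jmp π N := Nat.cast_nonneg _
  by_cases hbig : b0 * (2 * jmp π N + 3) ≤ δ / 2 * N
  · set π' : ℕ → Option ℤ := fun n => if n ≤ N then π n else none with hπ'
    have e : ∑ n ∈ Icc 1 N, (moebius n : ℂ) * sh a (π n) n =
        ∑ n ∈ Icc 1 N, (moebius n : ℂ) * sh a (π' n) n :=
      sum_congr rfl fun n hn => by rw [hπ']; simp only [if_pos (mem_Icc.mp hn).2]
    rw [e]
    refine (hN0 N (le_of_max_le_left hN) (fun n => sh a (π' n) n) (fun n => B2_sh_le ha _ _)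
      fun p hp q hq hpq M hM => ?_).trans (le_add_of_nonneg_right (by positivity))
    have h1 := piecewise (E := ℂ) (fun (o : Option ℤ × Option ℤ) (m : ℕ) =>
      sh a o.1 (p * m) * (starRingEnd ℂ) (sh a o.2 (q * m))) (δ / 2) b0 ?_
      (fun m => (π' (p * m), π' (q * m))) M
    · refine h1.trans ?_
      have h2 : jmp (fun m => (π' (p * m), π' (q * m))) M ≤ 2 * jmp π N + 2 := by
        have a1 := B2_jmp_pair (fun m => π' (p * m)) (fun m => π' (q * m)) M
        have a2 := (B2_jmp_mul π' p M).trans (B2_jmp_cut π N _)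
        have a3 := (B2_jmp_mul π' q M).trans (B2_jmp_cut π N _)
        omega
      have h3 : (jmp (fun m => (π' (p * m), π' (q * m))) M : ℝ) ≤ 2 * jmp π N + 2 := by
        exact_mod_cast h2
      have h5 : (M : ℝ) ≤ N := by exact_mod_cast hM
      clear * - δ M b0 π' p q N π hbig hδ h5 hb0 h3
      linarith only [hbig, hδ, h5, hb0, h3, mul_nonneg_of_nonpos_of_nonpos (le_of_lt (Mathlib.Tactic.Linarith.sub_neg_of_lt hδ)) (Mathlib.Tactic.Linarith.sub_nonpos_of_le h5), mul_nonneg_of_nonpos_of_nonpos (Mathlib.Tactic.Linarith.sub_nonpos_of_le hb0) (Mathlib.Tactic.Linarith.sub_nonpos_of_le h3)]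
    · rintro ⟨o, o'⟩ A M'
      have hz : (0 : ℝ) ≤ δ / 2 * M' + b0 := by positivity
      cases o with
      | none => simpa [sh] using hz
      | some ι =>
        cases o' with
        | none => simpa [sh] using hz
        | some ι' =>
          have h1 := hb (⟨p, hp⟩, ⟨q, hq⟩) hpq ι ι' A M'
          have h2 : b (⟨p, hp⟩, ⟨q, hq⟩) ≤ b1 := hb1 ⟨_, rfl⟩
          simp only [sh]
          push_cast
          exact h1.trans (by linarith only [hp, hq, hb01, h2])
  · have h1 : ‖∑ n ∈ Icc 1 N, (moebius n : ℂ) * sh a (π n) n‖ ≤ N := by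
      refine (norm_sum_le_of_le _ (n := fun _ => (1 : ℝ)) fun n _ => ?_).trans (by simp)
      rw [norm_mul]; exact mul_le_one₀ (norm_moebius_le n) (norm_nonneg _) (B2_sh_le ha _ _)
    have h2 : (N : ℝ) ≤ 6 * b0 / δ + 4 * b0 / δ * jmp π N := by
      clear * - N b0 δ π hδ hbig
      rw [div_mul_eq_mul_div, ← add_div, le_div_iff₀ hδ]
      linarith only [hbig, not_le.mp hbig]
    clear * - N a π ε b0 δ N1 hN1 h1 h2 hε h4
    linarith only [hN1, h1, h2, hε, h4, mul_nonneg_of_nonpos_of_nonpos (le_of_lt (Mathlib.Tactic.Linarith.sub_neg_of_lt hε)) (Mathlib.Tactic.Linarith.sub_nonpos_of_le h4)]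

end Pool.Agent.SB
end

-- merged part: Pool.Agent.Work.MP_cf06ef_an.B3
section
/-! Rigid sequences, periodic words, from moving orbits to blocks. -/

set_option autoImplicit false
open Finset Filter Topology
open ArithmeticFunction (moebius)

namespace Pool.Agent.SB
open Pool.Agent.PT

lemma B3_tele (f : ℕ → ℂ) (N : ℕ) :
    ∑ n ∈ Icc 1 N, f n - ∑ n ∈ Icc 1 N, f (n + 1) = f 1 - f (N + 1) := by
  induction N with
  | zero => simp
  | succ N ih =>
    rw [sum_Icc_succ_top (by omega), sum_Icc_succ_top (by omega)]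
    linear_combination ih

lemma B3_shift (f : ℕ → ℂ) (hf : ∀ n, ‖f n‖ ≤ 1) (N t : ℕ) :
    ‖∑ n ∈ Icc 1 N, f n - ∑ n ∈ Icc 1 N, f (n + t)‖ ≤ 2 * t := by
  induction t with
  | zero => simp
  | succ t ih =>
    have h1 := B3_tele (fun n => f (n + t)) N
    have h2 : ∑ n ∈ Icc 1 N, f (n + (t + 1)) = ∑ n ∈ Icc 1 N, f (n + 1 + t) :=
      sum_congr rfl fun n _ => by rw [add_assoc, add_comm t 1]
    have h3 := norm_sub_le_norm_sub_add_norm_sub (∑ n ∈ Icc 1 N, f n) (∑ n ∈ Icc 1 N, f (n + t))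
      (∑ n ∈ Icc 1 N, f (n + 1 + t))
    rw [h1] at h3
    have h4 := norm_sub_le (f (1 + t)) (f (N + 1 + t))
    rw [h2]
    push_cast
    linarith only [ih, h3, h4, hf, hf (1 + t), hf (N + 1 + t)]

lemma B3_jmp_le {Θ : Type} (π : ℕ → Θ) (N t : ℕ) : jmp π (N + t) ≤ jmp π N + t := by
  classical
  unfold jmp
  refine (card_le_card (t := ((range N).filter fun n => π (n + 1) ≠ π n) ∪ Ico N (N + t))
    fun n hn => ?_).trans ((card_union_le _ _).trans (by simp))
  simp only [mem_filter, mem_range, mem_union, mem_Ico] at hn ⊢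
  by_cases h : n < N
  · exact Or.inl ⟨h, hn.2⟩
  · exact Or.inr ⟨by omega, hn.1⟩

open Classical in
lemma B3_cnt {Θ : Type} (π : ℕ → Θ) (N w t : ℕ) (ht : t ≤ w) :
    ((Icc 1 N).filter fun n => π (n + t) ≠ π n).card ≤ t * jmp π (N + w) := by
  induction t with
  | zero => simp
  | succ t ih =>
    have h1 : ((Icc 1 N).filter fun n => π (n + t + 1) ≠ π (n + t)).card ≤ jmp π (N + w) := by
      unfold jmp
      refine card_le_card_of_injOn (fun n => n + t) (fun n hn => ?_) fun n _ m _ h => by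
        simpa using h
      simp only [coe_filter, mem_Icc, mem_range, Set.mem_ofPred_eq] at hn ⊢
      exact ⟨by omega, hn.2⟩
    refine (card_le_card (t := ((Icc 1 N).filter fun n => π (n + t) ≠ π n) ∪
      (Icc 1 N).filter fun n => π (n + t + 1) ≠ π (n + t)) fun n hn => ?_).trans
      ((card_union_le _ _).trans ?_)
    · simp only [mem_filter, mem_union] at hn ⊢
      by_cases h : π (n + t) = π n
      · exact Or.inr ⟨hn.1, by rw [h]; exact hn.2⟩
      · exact Or.inl ⟨hn.1, h⟩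
    · have := ih (by omega)
      rw [add_mul, one_mul]
      omega

open Classical in
lemma B3_diff (s B : Finset ℕ) (c f g : ℕ → ℂ) (hc : ∀ n, ‖c n‖ ≤ 1) (hf : ∀ n, ‖f n‖ ≤ 1)
    (hg : ∀ n, ‖g n‖ ≤ 1) (h : ∀ n ∈ s, n ∉ B → f n = g n) :
    ‖∑ n ∈ s, c n * f n - ∑ n ∈ s, c n * g n‖ ≤ 2 * B.card := by
  rw [← sum_sub_distrib, ← sum_filter_add_sum_filter_not s (· ∈ B),
    sum_eq_zero (s := s.filter fun n => ¬ n ∈ B) fun n hn => by
      rw [h n (mem_filter.1 hn).1 (mem_filter.1 hn).2, sub_self], add_zero]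
  refine (norm_sum_le_of_le _ (n := fun _ => 2) fun n _ => ?_).trans ?_
  · rw [← mul_sub, norm_mul]
    have h1 := (norm_sub_le _ _).trans (add_le_add (hf n) (hg n))
    have h2 := mul_le_mul (hc n) h1 (norm_nonneg _) zero_le_one
    linarith
  · rw [sum_const, nsmul_eq_mul, mul_comm]
    have h1 : (s.filter (· ∈ B)).card ≤ B.card := card_le_card fun n hn => (mem_filter.1 hn).2
    have h2 : ((s.filter (· ∈ B)).card : ℝ) ≤ B.card := by exact_mod_cast h1
    linarith only [h2]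

lemma B3_sh_le {a : ℤ → ℂ} (ha : ∀ n, ‖a n‖ ≤ 1) (o : Option ℤ) (n : ℕ) : ‖sh a o n‖ ≤ 1 := by
  cases o with
  | none => simp [sh]
  | some ι => exact ha _

theorem BO_of_rigid (hCV : CV) (a : ℤ → ℂ) (ha : ∀ n, ‖a n‖ ≤ 1)
    (h : ∀ ε > (0 : ℝ), ∀ J : ℕ, ∃ (s : Finset ℕ) (C : ℝ), J ≤ s.card ∧
      ∀ t ∈ s, Sm (fun n => a (n + (t : ℕ)) ≠ a n) ε C) : BO a := by
  classical
  intro ε hε
  obtain ⟨J, hJ⟩ := exists_nat_gt (64 / ε ^ 2)
  obtain ⟨s, C, hs, hsm⟩ := h (ε / 16) (by positivity) J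
  obtain ⟨w, hw⟩ : ∃ w, ∀ t ∈ s, t < w := ⟨s.sup id + 1, fun t ht =>
    Nat.lt_succ_of_le (le_sup (f := id) ht)⟩
  obtain ⟨N1, hN1⟩ := hCV (ε / 8) (by positivity) w
  obtain ⟨N2, hN2⟩ := exists_nat_ge ((2 * w + 2 * w ^ 2 + 2 * C) / (ε / 2))
  refine ⟨2 * w + 2 * C, max N1 N2, fun N hN π => ?_⟩
  have hcard : 64 / ε ^ 2 < (s.card : ℝ) := hJ.trans_le (by exact_mod_cast hs)
  have hc0 : (0 : ℝ) < s.card := lt_trans (by positivity) hcard
  have hN3 : 2 * w + 2 * w ^ 2 + 2 * C ≤ ε / 2 * N := by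
    have h1 : (N2 : ℝ) ≤ N := by exact_mod_cast le_of_max_le_right hN
    have h2 := hN2.trans h1
    rwa [div_le_iff₀' (by positivity)] at h2
  have hcv := hN1 N (le_of_max_le_left hN) ℕ s id 1 hw fun r => by
    have : (s.filter fun i => id i = r).card ≤ 1 :=
      card_le_one.2 fun x hx y hy => (mem_filter.1 hx).2.trans (mem_filter.1 hy).2.symm
    exact_mod_cast this
  have hj0 : (0 : ℝ) ≤ jmp π N := Nat.cast_nonneg _
  have key : ∀ t ∈ s, ‖∑ n ∈ Icc 1 N, (moebius n : ℂ) * sh a (π n) n -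
      ∑ n ∈ Icc 1 N, (moebius (n + t) : ℂ) * sh a (π n) n‖ ≤
      5 * ε / 8 * N + (2 * w + 2 * C) * jmp π N := by
    clear * - s N a π ha ε C hε hsm w hw hN3
    intro t ht
    have h1 := B3_shift (fun n => (moebius n : ℂ) * sh a (π n) n) (fun n => by
      rw [norm_mul]
      exact mul_le_one₀ (norm_moebius_le n) (norm_nonneg _) (B3_sh_le ha _ _)) N t
    have h2 := B3_diff (Icc 1 N) (((Icc 1 N).filter fun n => π (n + t) ≠ π n) ∪
      (Icc 1 N).filter fun n : ℕ => ∃ ι, π n = some ι ∧ a (n + ι + (t : ℕ)) ≠ a (n + ι))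
      (fun n => (moebius (n + t) : ℂ)) (fun n => sh a (π (n + t)) (n + t)) (fun n => sh a (π n) n)
      (fun n => norm_moebius_le _) (fun n => B3_sh_le ha _ _) (fun n => B3_sh_le ha _ _)
      (fun n hn hb => by
        simp only [mem_union, mem_filter, hn, true_and, not_or, not_not, not_exists,
          not_and] at hb
        rw [hb.1]
        cases ho : π n with
        | none => rfl
        | some ι =>
          have h3 := hb.2 ι ho
          simp only [sh]
          rw [← h3]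
          congr 1
          push_cast
          ring)
    have h3 := Sm_moving (by positivity) (hsm t ht) π N
    have h4 : (((Icc 1 N).filter fun n => π (n + t) ≠ π n).card : ℝ) ≤ w * (jmp π N + w) := by
      have h5 := (B3_cnt π N w t (hw t ht).le).trans
        (Nat.mul_le_mul (hw t ht).le (B3_jmp_le π N w))
      have h6 : ((Icc 1 N).filter fun n => π (n + t) ≠ π n).card ≤ w * (jmp π N + w) := by
        refine le_trans (le_of_eq ?_) h5
        convert rfl
      exact_mod_cast h6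
    have h5 := card_union_le ((Icc 1 N).filter fun n => π (n + t) ≠ π n)
      ((Icc 1 N).filter fun n : ℕ => ∃ ι, π n = some ι ∧ a (n + ι + (t : ℕ)) ≠ a (n + ι))
    have h6 := (Nat.cast_le (α := ℝ)).2 h5
    rw [Nat.cast_add] at h6
    have h7 : (t : ℝ) ≤ w := by exact_mod_cast (hw t ht).le
    have h8 := norm_sub_le_norm_sub_add_norm_sub (∑ n ∈ Icc 1 N, (moebius n : ℂ) * sh a (π n) n)
      (∑ n ∈ Icc 1 N, (moebius (n + t) : ℂ) * sh a (π (n + t)) (n + t))
      (∑ n ∈ Icc 1 N, (moebius (n + t) : ℂ) * sh a (π n) n)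
    have h9 : (((Icc 1 N).filter fun n : ℕ =>
        ∃ ι, π n = some ι ∧ a (n + ι + (t : ℕ)) ≠ a (n + ι)).card : ℝ) ≤
        ε / 16 * N + C * (jmp π N + 1) := by convert h3
    linarith only [hN3, h1, h2, h4, h6, h7, h8, h9]
  have hsum : ‖∑ t ∈ s, ∑ n ∈ Icc 1 N, (moebius (n + t) : ℂ) * sh a (π n) n‖ ≤
      N * (1 / (ε / 8) + ε / 8 * s.card) := by
    rw [sum_comm]
    refine le_trans (norm_sum_le_of_le _ fun n _ => ?_) hcv
    rw [← sum_mul, norm_mul]
    have h1 : ∑ t ∈ s, (moebius (n + t) : ℂ) = ((∑ t ∈ s, mu (n + id t) : ℝ) : ℂ) := by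
      rw [Complex.ofReal_sum]
      exact sum_congr rfl fun t _ => (mu_cast _).symm
    rw [h1, Complex.norm_real, Real.norm_eq_abs]
    exact mul_le_of_le_one_right (abs_nonneg _) (B3_sh_le ha _ _)
  have hall := norm_sum_le_of_le s key
  rw [sum_sub_distrib, sum_const, sum_const, nsmul_eq_mul, nsmul_eq_mul] at hall
  have htri := norm_le_norm_add_norm_sub'
    ((s.card : ℂ) * ∑ n ∈ Icc 1 N, (moebius n : ℂ) * sh a (π n) n)
    (∑ t ∈ s, ∑ n ∈ Icc 1 N, (moebius (n + t) : ℂ) * sh a (π n) n)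
  rw [norm_mul, Complex.norm_natCast] at htri
  have h8 : 1 / (ε / 8) ≤ ε / 8 * s.card := by
    clear * - ε s hε hcard
    rw [div_lt_iff₀ (by positivity)] at hcard
    rw [div_le_iff₀ (by positivity)]
    linarith only [hcard]
  have hN0 : (0 : ℝ) ≤ N := Nat.cast_nonneg _
  have h9 := mul_le_mul_of_nonneg_left h8 hN0
  have h10 : 0 ≤ (s.card : ℝ) * (ε * N) := by positivity
  refine le_of_mul_le_mul_left ?_ hc0
  clear * - s N a π ε w C hsum hall htri h9 h10
  linarith only [hsum, hall, htri, h9, h10]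

theorem BO_of_AP (hCV : CV) (a : ℤ → ℂ) (ha : ∀ n, ‖a n‖ ≤ 1)
    (h : ∀ ε > (0 : ℝ), ∃ (B : Finset ℝ) (η C : ℝ), 0 < η ∧
      ∀ t, Bohr B η t → Sm (fun n => a (n + t) ≠ a n) ε C) : BO a := by
  classical
  refine BO_of_rigid hCV a ha fun ε hε J => ?_
  obtain ⟨B, η, C, hη, hB⟩ := h ε hε
  obtain ⟨M, hM⟩ := exists_nat_gt (1 / η)
  have hM0 : (0 : ℝ) < M := lt_trans (by positivity) hM
  have h1 := bohr_count B M (by exact_mod_cast hM0) (J * M ^ B.card)
  refine ⟨(range (J * M ^ B.card)).filter fun t : ℕ => Bohr B (1 / M) t, C, ?_,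
    fun t ht => hB t fun β hβ => ?_⟩
  · push_cast at h1
    rw [mul_div_assoc, div_self (by positivity), mul_one] at h1
    exact_mod_cast h1
  · obtain ⟨z, hz⟩ := (mem_filter.1 ht).2 β hβ
    exact ⟨z, hz.trans ((one_div_lt hη hM0).1 hM)⟩

lemma B3_tiled {A : Type} (Φ : WF A) (u x : ℤ → A) (L : ℕ) {U : Finset ℕ}
    (h : Tiled {v | L ≤ v.length ∧ ∃ ι, Occ u ι v} x U) :
    ∃ (π : ℕ → Option ℤ) (k : ℕ) (Bad : Finset ℕ), (∀ n ∉ U, π n = none) ∧
      (∀ N, jmp π N ≤ 2 * k) ∧ k * L ≤ U.card ∧ Bad.card ≤ 2 * Φ.w * k ∧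
      ∀ n ∈ U, n ∉ Bad → sh (Φ.ev u) (π n) n = Φ.ev x n := by
  classical
  induction h with
  | nil => exact ⟨fun _ => none, 0, ∅, fun _ _ => rfl, fun N => by simp [jmp], by simp, by simp,
      by simp⟩
  | @add U u0 v _ hv ho hd ih =>
    obtain ⟨π, k, Bad, h1, h2, h3, h4, h5⟩ := ih
    obtain ⟨hL, ι, hι⟩ := hv
    refine ⟨fun n => if n ∈ Ico u0 (u0 + v.length) then some (ι - u0) else π n, k + 1,
      Bad ∪ (Ico u0 (u0 + Φ.w) ∪ Ico (u0 + v.length - Φ.w) (u0 + v.length)),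
      fun n hn => ?_, fun N => ?_, ?_, ?_, fun n hn hb => ?_⟩
    · rw [mem_union, not_or] at hn
      simp only [if_neg hn.2, h1 n hn.1]
    · have h6 := h2 N
      unfold jmp at h6 ⊢
      refine (card_le_card (t := ((range N).filter fun n => π (n + 1) ≠ π n) ∪
        {u0 - 1, u0 + v.length - 1}) fun n hn => ?_).trans ((card_union_le _ _).trans ?_)
      · simp only [mem_filter, mem_union, mem_insert, mem_singleton, mem_Ico] at hn ⊢
        obtain ⟨hn1, hn2⟩ := hn
        split_ifs at hn2 with a1 a2 a2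
        · exact absurd rfl hn2
        · right; omega
        · right; omega
        · exact Or.inl ⟨hn1, hn2⟩
      · have h7 : ({u0 - 1, u0 + v.length - 1} : Finset ℕ).card ≤ 2 := card_le_two
        refine (add_le_add (le_trans (le_of_eq ?_) h6) h7).trans (by omega)
        convert rfl
    · rw [card_union_of_disjoint hd, Nat.card_Ico, add_mul]
      omega
    · refine (card_union_le _ _).trans ((add_le_add h4 (card_union_le _ _)).trans ?_)
      rw [Nat.card_Ico, Nat.card_Ico, mul_add]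
      omega
    · simp only [mem_union, not_or, mem_Ico] at hn hb ⊢
      split_ifs with a1
      · obtain ⟨j, rfl⟩ := Nat.exists_eq_add_of_le a1.1
        have h6 := Φ.ev_eq hι ho j (by omega) (by omega)
        simp only [sh]
        push_cast
        rw [← h6]
        congr 1
        ring
      · exact h5 n (hn.resolve_right a1) hb.1

theorem BLK_of_BOe {A : Type} (Φ : WF A) (u : ℤ → A) {ε : ℝ} (hε : 0 < ε) (h : BOe (Φ.ev u) ε) :
    ∃ L : ℕ, BLK Φ {v | L ≤ v.length ∧ ∃ ι, Occ u ι v} (2 * ε) := by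
  obtain ⟨L0, N0, h⟩ := h
  obtain ⟨L, hL⟩ := exists_nat_ge ((2 * |L0| + 4 * Φ.w) / ε)
  rw [div_le_iff₀ hε] at hL
  refine ⟨L, N0, fun N hN x U hU hs => ?_⟩
  obtain ⟨π, k, Bad, h1, h2, h3, h4, h5⟩ := B3_tiled Φ u x L hU
  have h6 := h N hN π
  rw [← sum_subset hs fun n _ hn => by rw [h1 n hn]; simp [sh]] at h6
  have h7 := B3_diff U Bad (fun n => (moebius n : ℂ)) (fun n => Φ.ev x n)
    (fun n => sh (Φ.ev u) (π n) n) norm_moebius_le (fun n => Φ.bd _)
    (fun n => B3_sh_le (fun _ => Φ.bd _) _ _) fun n hn hb => (h5 n hn hb).symm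
  have h8 := norm_le_norm_add_norm_sub' (∑ n ∈ U, (moebius n : ℂ) * Φ.ev x n)
    (∑ n ∈ U, (moebius n : ℂ) * sh (Φ.ev u) (π n) n)
  have h9 : (jmp π N : ℝ) ≤ 2 * k := by exact_mod_cast h2 N
  have h10 : (Bad.card : ℝ) ≤ 2 * Φ.w * k := by exact_mod_cast h4
  have h11 : (k : ℝ) * L ≤ N := by
    have := h3.trans (card_le_card hs)
    rw [Nat.card_Icc, add_tsub_cancel_right] at this
    exact_mod_cast this
  have h12 : L0 * jmp π N ≤ |L0| * (2 * k) :=
    (mul_le_mul_of_nonneg_right (le_abs_self _) (Nat.cast_nonneg _)).trans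
      (mul_le_mul_of_nonneg_left h9 (abs_nonneg _))
  have h13 := mul_le_mul_of_nonneg_left hL (Nat.cast_nonneg (α := ℝ) k)
  have h14 := mul_le_mul_of_nonneg_right h11 hε.le
  clear * - U A Φ x ε N u π L0 Bad k L h6 h7 h8 h10 h12 h13 h14
  linarith only [h6, h7, h8, h10, h12, h13, h14]

theorem BLK_per (hCV : CV) {A : Type} [Finite A] (Φ : WF A) (P0 : ℕ) (ε : ℝ) (hε : 0 < ε) :
    ∃ L : ℕ, BLK Φ {v | L ≤ v.length ∧ Per P0 v} ε := by
  classical
  have hQ : 0 < P0.factorial := Nat.factorial_pos _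
  have hfin : {u : ℤ → A | Function.Periodic u (P0.factorial : ℤ)}.Finite := by
    refine Set.Finite.of_finite_image (f := fun u (i : Fin P0.factorial) => u (i : ℕ))
      (Set.toFinite _) fun u hu u' hu' h => funext fun n => ?_
    have h0 : (0 : ℤ) < P0.factorial := by exact_mod_cast hQ
    have h1 := Int.emod_nonneg n h0.ne'
    have h2 := Int.emod_lt_of_pos n h0
    have h3 := congrFun h ⟨(n % P0.factorial).toNat, by omega⟩
    simp only [Int.toNat_of_nonneg h1] at h3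
    have e1 := Function.Periodic.int_mul hu (n / P0.factorial) (n % P0.factorial)
    have e2 := Function.Periodic.int_mul hu' (n / P0.factorial) (n % P0.factorial)
    simp only [Int.cast_id] at e1 e2
    rw [← Int.emod_add_ediv_mul n P0.factorial, e1, e2, h3]
  have := hfin.to_subtype
  obtain ⟨W, ε', -, -, hW, hP⟩ := BLK.family (Φ := Φ)
    (I := {u : ℤ → A | Function.Periodic u (P0.factorial : ℤ)})
    (fun u _ W => ∃ L : ℕ, W = {v | L ≤ v.length ∧ ∃ ι, Occ u.1 ι v}) (fun u δ hδ => by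
      have h1 : BO (Φ.ev u.1) := by
        refine BO_of_rigid hCV _ (fun _ => Φ.bd _) fun η hη J =>
          ⟨(range J).image (· * P0.factorial), 0, ?_, fun t ht ι N s hs => ?_⟩
        · rw [card_image_of_injective _ (mul_left_injective₀ hQ.ne'), card_range]
        · obtain ⟨j, -, rfl⟩ := mem_image.1 ht
          have h2 : s = ∅ := eq_empty_of_forall_notMem fun n hn => (hs n hn).2.2 (by
            simp only [WF.ev]
            congr 1
            funext i
            push_cast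
            rw [← add_assoc]
            exact u.2.nat_mul j _)
          rw [h2, card_empty, Nat.cast_zero]
          positivity
      obtain ⟨L, hL⟩ := BLK_of_BOe Φ u.1 (half_pos hδ) (h1 _ (half_pos hδ))
      exact ⟨_, hL.mono subset_rfl (by linarith only []), L, rfl⟩) ε hε
  choose W' hW' L hL using hP
  obtain ⟨L1, hL1⟩ := (Set.finite_range L).bddAbove
  refine ⟨L1, hW.mono ?_ le_rfl⟩
  rintro v ⟨h1, P, u, hP1, hP2, hu, ho⟩
  obtain ⟨c, hc⟩ := Nat.dvd_factorial hP1 hP2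
  have h2 : Function.Periodic u (P0.factorial : ℤ) := by
    have h3 := Function.Periodic.nat_mul (f := u) (c := (P : ℤ)) hu c
    rw [hc]
    push_cast
    rwa [mul_comm]
  refine hW' ⟨u, h2⟩ ?_
  rw [hL]
  exact ⟨(hL1 (Set.mem_range_self _)).trans h1, 0, ho⟩

end Pool.Agent.SB
end

-- merged part: Pool.Agent.Work.MP_cf06ef_an.B13
section
/-! The Pisot engine along moving orbits (two independent shifts). -/

set_option autoImplicit false
set_option linter.unusedSectionVars false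
open Finset

namespace Pool.Agent.PT
open Pool.Agent.SB

lemma q_arith2 {p q e w n1 ι ι' a ζK φ0 φη st ln θm θi X c1 cL B : ℝ} (hp : 1 ≤ p) (hq : 1 ≤ q)
    (hB : 0 ≤ B) (hc1 : 0 < c1) (_hcL : 0 ≤ cL) (hθm : 1 ≤ θm) (hθi : 0 < θi)
    (hp2 : 8 * X ≤ p * c1) (hi : 8 * (q * (c1 + 1 + cL) + 2 * B) ≤ θi * c1)
    (hln : c1 * (θm * θi) ≤ ln)
    (z3 : |φ0 - p * (st + ln / 2 - (q / p * (a - ι) + ι'))| ≤ 2 * B + X * (θm * θi))
    (a0 : q * ζK = φ0 + p * φη) (b8 : a + ζK ≤ p * n1 + ι) (b9 : p * n1 + ι < a + ζK + p)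
    (he0 : 0 ≤ e) (he : e + 1 ≤ c1 * θm) (hw : |w| ≤ θm * cL) :
    st + φη ≤ q * (n1 + e + w) + ι' ∧ q * (n1 + e + w) + ι' < st + φη + ln := by
  have hp' : 0 < p := by linarith only [hp]
  have eY : p * (st + ln / 2 - (q / p * (a - ι) + ι'))
      = p * (st + ln / 2) - q * (a - ι) - p * ι' := by field_simp; ring
  rw [eY] at z3
  obtain ⟨z4, z5⟩ := abs_le.mp z3
  obtain ⟨w1, w2⟩ := abs_le.mp hw
  have g1 : 0 < θm * θi := by positivity
  have f1 : X * (θm * θi) ≤ p * (ln / 8) := by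
    clear * - X θm θi p c1 hp2 hθm hθi ln hln hp
    have g2 : 8 * X * (θm * θi) ≤ p * c1 * (θm * θi) := by gcongr
    have g3 : p * (c1 * (θm * θi)) ≤ p * ln := by gcongr
    linarith only [g2, g3]
  have f2 : (q * (c1 + 1 + cL) + 2 * B) * θm ≤ ln / 8 := by
    clear * - q c1 cL B θm θi hi hθm ln hln
    have g2 : 8 * (q * (c1 + 1 + cL) + 2 * B) * θm ≤ θi * c1 * θm := by gcongr
    linarith only [hln, g2]
  have fB : 2 * B * 1 ≤ 2 * B * θm := by gcongr
  have f3 : q * (1 + e + w) + 2 * B ≤ ln / 8 := by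
    clear * - e w c1 cL θm hθm he w2 q hq B ln f2 fB g1
    have g1 : 1 + e + w ≤ (c1 + 1 + cL) * θm := by linarith only [hθm, he, w2]
    have g2 : q * (1 + e + w) ≤ q * ((c1 + 1 + cL) * θm) := by gcongr
    linarith only [f2, fB, g2]
  have f4 : -(ln / 8) ≤ q * (e + w) - 2 * B := by
    clear * - c1 θm hc1 hθm cL e w he0 he w1 q hq ln B f2 fB g1
    have g0 : 0 ≤ c1 * θm := by positivity
    have g1 : -((c1 + 1 + cL) * θm) ≤ e + w := by linarith only [hθm, he0, he, w1]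
    have g2 : q * (-((c1 + 1 + cL) * θm)) ≤ q * (e + w) := by gcongr
    linarith only [f2, fB, g2]
  have f5 : 0 ≤ q * (p * n1 + ι - a - ζK) := mul_nonneg (by linarith only [hq]) (by linarith only [b8])
  have f6 : q * (p * n1 + ι - a - ζK) ≤ q * p := by clear * - q p n1 ι a ζK b9 hq; gcongr; linarith
  have f7 : 2 * B * 1 ≤ 2 * B * p := by gcongr
  have hln0 : 0 < ln := lt_of_lt_of_le (by positivity) hln
  have g3 : p * (q * (1 + e + w) + 2 * B) ≤ p * (ln / 8) := by gcongr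
  have g4 : p * (-(ln / 8)) ≤ p * (q * (e + w) - 2 * B) := by gcongr
  have u1 : q * (n1 + e + w) + ι' - (st + ln / 2 + φη) ≤ ln / 4 :=
    le_of_mul_le_mul_left (by clear * - p q n1 e w ι' st ln φη ζK φ0 a ι B X θm θi a0 z5 f1 f6 f7 g3 hp'; linarith only [a0, z5, f1, f6, f7, g3]) hp'
  have u2 : -(ln / 4) ≤ q * (n1 + e + w) + ι' - (st + ln / 2 + φη) :=
    le_of_mul_le_mul_left (by clear * - p ln q n1 e w ι' st φη ζK φ0 B X θm θi a ι a0 z4 f1 f5 f7 g4 hp'; linarith only [a0, z4, f1, f5, f7, g4]) hp'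
  constructor <;> linarith only [hq, hB, f3, f4, u2, u1]

namespace SST
variable {Λ C G : Type} [AddCommGroup Λ] [Group G] (S : SST Λ C G) [Finite C] [Finite G]

/-- the shifts of size at most `Rs` at level `m` generate enough holonomy at `n`. -/
def Gen2 (p q : ℕ) (d : G) (Rs : ℝ) (m : ℕ) (ι ι' n : ℤ) : Prop :=
  (∃ δ1 δ2 δ3 u, (|S.r δ1| ≤ Rs ∧ S.N δ1 ≤ Rs) ∧ (|S.r δ2| ≤ Rs ∧ S.N δ2 ≤ Rs) ∧
    (|S.r δ3| ≤ Rs ∧ S.N δ3 ≤ Rs) ∧
    (S.hol p ι n (S.φ (S.T m δ1)))⁻¹ * (S.hol p ι n (S.φ (S.T m δ2)))⁻¹ *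
      S.hol p ι n (S.φ (S.T m δ3)) = u * d * u⁻¹ ∧
    (S.hol q ι' n (S.φ (S.T m δ1)))⁻¹ * (S.hol q ι' n (S.φ (S.T m δ2)))⁻¹ *
      S.hol q ι' n (S.φ (S.T m δ3)) = 1) ∧
  ∀ κ, ∃ δ, (|S.r δ| ≤ Rs ∧ S.N δ ≤ Rs) ∧ S.hol p ι n (S.φ (S.T m δ)) = κ

lemma runs2 : ∃ p0 a0 : ℕ, a0 ≠ 0 ∧ ∀ p q : ℕ, p0 ≤ p → q ≠ 0 → p.Coprime a0 → p.Coprime q →
    (Nat.card G).Coprime p → ∀ d ∈ S.Dp p, ∃ (Rs β : ℝ) (Ct m0 : ℕ), 0 ≤ Rs ∧ 0 < β ∧ 1 ≤ Ct ∧
      ∀ m ≥ m0, ∀ ι ι' A : ℤ, ∃ A' Lr : ℕ, A' + Lr ≤ Ct * ⌈S.θ ^ m⌉₊ ∧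
        β * (Ct * ⌈S.θ ^ m⌉₊ : ℕ) ≤ Lr ∧ ∀ i < Lr, S.Gen2 p q d Rs m ι ι' (A + A' + i) := by
  obtain ⟨a0, ha0, htor⟩ := S.torsion
  obtain ⟨kq, hkq⟩ := S.robust 2
  obtain ⟨lm, lM, -, hlM, hl⟩ := S.exists_lam
  replace hl : ∀ t, S.r (S.lam t) ≤ lM := fun t => (hl t).2.1
  obtain ⟨c1, c2, hc1, hc2, hc⟩ := S.len_bd
  have hs := S.s_pos
  have hB := S.B_nonneg
  obtain ⟨p0, hp0⟩ := exists_nat_ge (max (8 * (S.s * lM * S.θ ^ kq) / c1) (1 + 2 * S.B))
  refine ⟨p0, a0, ha0, fun p q hp hq hpa hpq hG d hd => ?_⟩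
  have hpr : (p0 : ℝ) ≤ p := by exact_mod_cast hp
  have hp1 : 1 + 2 * S.B ≤ p := (le_max_right _ _).trans (hp0.trans hpr)
  have hp2 : 8 * (S.s * lM * S.θ ^ kq) ≤ p * c1 :=
    (div_le_iff₀ hc1).mp ((le_max_left _ _).trans (hp0.trans hpr))
  clear hp0 hpr hp
  have hpp : (1 : ℝ) ≤ p := by linarith only [hB, hp1]
  have hpz : p ≠ 0 := by rintro rfl; norm_num at hpp
  have hqq : (1 : ℝ) ≤ q := by exact_mod_cast Nat.pos_of_ne_zero hq
  obtain ⟨L, hL⟩ := hd
  obtain ⟨K, hK⟩ := S.res p hpz hG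
  have nL := S.N_nonneg L
  have aL := abs_nonneg (S.r L)
  have hcL0 : 0 ≤ S.s * |S.r L| + S.N L := by positivity
  obtain ⟨i, hi⟩ := S.exists_θpow_ge (8 * (q * (c1 + 1 + (S.s * |S.r L| + S.N L)) + 2 * S.B) / c1)
  replace hi := (div_le_iff₀ hc1).mp (hi i le_rfl)
  obtain ⟨k', hk'⟩ := S.exists_ρpow_le (ε := 1 / q) (by positivity)
  obtain ⟨δ, τ, o, γ0, γ1, γ2, γ3, hδ, h0, h1, h2, h3, hdd⟩ := hL (i + kq + k')
  have Nδ : S.N (q • S.T k' δ) ≤ 1 := by
    clear * - Λ C G S q k' δ hk' hδ hq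
    rw [S.N_nsmul]
    have a2 := S.N_T k' δ
    have a3 := hk' k' le_rfl
    rw [le_div_iff₀ (by positivity)] at a3
    have a4 : S.ρ ^ k' * S.N δ ≤ S.ρ ^ k' * 1 :=
      mul_le_mul_of_nonneg_left hδ (pow_nonneg S.ρ_nonneg _)
    have a5 : q * S.N (S.T k' δ) ≤ q * (S.ρ ^ k' * 1) := by gcongr; linarith
    linarith
  obtain ⟨F, hF⟩ := S.finmod p hpz
  obtain ⟨R1, hR1, hR1'⟩ : ∃ R1 : ℝ, 0 < R1 ∧ ∀ f ∈ F, |S.r f| ≤ R1 ∧ S.N f ≤ R1 := by
    clear * - Λ C G S F
    obtain ⟨b, hb⟩ := (F.image fun f => |S.r f| + S.N f).finite_toSet.bddAbove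
    refine ⟨max b 1, by positivity, fun f hf => ?_⟩
    have : |S.r f| + S.N f ≤ b := hb (by simpa using ⟨f, hf, rfl⟩)
    have h4 := le_max_left b 1
    constructor <;> linarith only [this, h4, abs_nonneg (S.r f), S.N_nonneg f]
  obtain ⟨k1, hk1⟩ := S.robust R1
  obtain ⟨k'', hk''⟩ := S.exists_ρpow_le (ε := 1 / (q * R1)) (by positivity)
  obtain ⟨J0, hJ0⟩ := S.H_depth h0
  obtain ⟨J1, hJ1⟩ := S.H_depth h1
  obtain ⟨J2, hJ2⟩ := S.H_depth h2
  obtain ⟨J3, hJ3⟩ := S.H_depth h3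
  obtain ⟨K', hK'⟩ : ∃ K', K' = J0 + J1 + J2 + J3 + k'' + 1 + k1 := ⟨_, rfl⟩
  obtain ⟨J, hJ⟩ : ∃ J, J = i + kq + (J0 + J1 + J2 + J3 + k'') := ⟨_, rfl⟩
  have d0 := hJ0 J (by omega)
  have d1 := hJ1 J (by omega)
  have d2 := hJ2 J (by omega)
  have d3 := hJ3 J (by omega)
  replace hk'' := (le_div_iff₀ (by positivity)).mp (hk'' K' (by omega))
  obtain ⟨K1, hK1⟩ : ∃ K1, K1 = k1 + 1 + J := ⟨_, rfl⟩
  have hKK : i + kq + K' = K1 := by omega
  clear hJ0 hJ1 hJ2 hJ3 h0 h1 h2 h3 hK' hJ hk' hL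
  obtain ⟨δ2, hδ2⟩ : ∃ δ2, δ2 = S.T (i + kq + k') δ := ⟨_, rfl⟩
  rw [← hδ2] at d2 d3
  have hpK := S.θpow_pos K
  have hpK1 := S.θpow_pos K1
  have nδ := S.N_nonneg δ2
  have aδ := abs_nonneg (S.r δ2)
  have hKl : 0 < S.θ ^ K * lM := by positivity
  obtain ⟨Cw, hCw⟩ := exists_nat_ge (c2 * S.θ ^ K1 + S.θ ^ K1 * (S.s * R1 + R1) + 1)
  obtain ⟨Cl, hCl⟩ := exists_nat_ge c1
  obtain ⟨m0, hm0⟩ := S.exists_θpow_ge (2 * p / c1)
  obtain ⟨tq, κq, oq, -, hstq⟩ := hkq S.x
  have st6 := hstq 1 0 S.H_center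
  generalize S.A kq 0 + oq = o6 at st6
  clear hstq hkq
  refine ⟨|S.r L| + S.N L + |S.r δ2| + S.N δ2 + S.θ ^ K * lM + 4 * S.B,
    c1 / (4 * p * (2 * Cw + Cl + 1)), 2 * Cw + Cl + 1, m0, by clear * - Λ C G S L δ2 K lM nL nδ hpK hlM hB Cl Cw c1 m0 p; positivity, by positivity,
    by omega, fun m hm ι ι' A => ?_⟩
  have hm1 := (div_le_iff₀ hc1).mp (hm0 m hm)
  have hθm := S.one_le_θpow m
  have hU1 : S.θ ^ m ≤ ⌈S.θ ^ m⌉₊ := Nat.le_ceil _
  have hU2 : (⌈S.θ ^ m⌉₊ : ℝ) ≤ 2 * S.θ ^ m := by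
    clear * - Λ C G S m hθm
    have := Nat.ceil_lt_add_one (by linarith : 0 ≤ S.θ ^ m); linarith
  generalize ⌈S.θ ^ m⌉₊ = U at hU1 hU2 ⊢
  obtain ⟨Lr, hLr1, hLr2⟩ : ∃ Lr : ℕ, (Lr : ℝ) * p ≤ c1 * S.θ ^ m ∧ c1 * S.θ ^ m < (Lr + 1) * p :=
    ⟨⌊c1 * S.θ ^ m / p⌋₊, (le_div_iff₀ (by linarith only [hB, hp1])).mp (Nat.floor_le (by positivity)),
      (div_lt_iff₀ (by linarith only [hB, hp1])).mp (Nat.lt_floor_add_one _)⟩
  have hLr3 : (Lr : ℝ) ≤ c1 * S.θ ^ m := le_of_mul_le' hpp (by positivity) (by linarith only [hLr1])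
  obtain ⟨n0, hn0⟩ : ∃ n0 : ℤ, n0 = A + Cw * U := ⟨_, rfl⟩
  -- the p-copy
  obtain ⟨T1, g1, o1, hT1, in1⟩ := S.InZ_cover (m + K1) (p * n0 + ι)
  obtain ⟨ts, κs, os, hds, hst⟩ := hk1 T1
  obtain ⟨o3', hd3⟩ := S.prim ts S.x 1
  obtain ⟨o3, ho3⟩ : ∃ o3, o3 = S.A 1 (S.A k1 o1 + os) + o3' := ⟨_, rfl⟩
  have st3 : S.Stab R1 (1 + k1) S.x o3 := ho3 ▸ Stab.child S (hst g1 o1 hT1) hd3
  obtain ⟨a, ha⟩ : ∃ a, a = S.φ (S.A m (o + S.T J o3)) := ⟨_, rfl⟩
  have hb0' : S.φ (S.A (m + K1) o1) ≤ a ∧ a ≤ S.φ (S.A (m + K1) (o1 + S.lam T1)) := by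
    have e := S.child_bd hT1 (S.D_comp (S.D_comp hds hd3) d0) m
    have e2 : S.A (k1 + 1 + J) o1 + (S.T J (S.T 1 os + o3') + (o + S.P J)) = o + S.T J o3 := by
      apply S.r_inj
      simp only [ho3, map_add, r_A, S.r_T, r_P]; ring
    rw [e2, S.en_eq m, ← ha, ← hK1] at e
    exact ⟨e.1, by linarith [e.2, S.len_pos m τ]⟩
  -- the q-copy
  obtain ⟨ζ0, hζ0, z3⟩ := S.near_pos (m + i + kq) (p * (S.φ (S.A (m + i) o6) +
    (S.φ (S.T (m + i) (S.lam tq)) : ℝ) / 2 - ((q : ℝ) / p * (a - ι) + ι'))) hl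
  obtain ⟨b, c, hbc⟩ := htor p q hpa hpq K' ζ0
  obtain ⟨ζ, hζ, b', rfl⟩ := hF b
  obtain ⟨η, tor⟩ : ∃ η, q • S.T K' ζ = ζ0 + p • η := ⟨-c - q • S.T K' b', by
    rw [hbc, map_add, map_nsmul, smul_add, smul_sub, smul_neg, smul_comm q p]; abel⟩
  clear hbc
  have Nη : S.N η ≤ 1 := S.tors_small hp1 hζ0 (hR1' ζ hζ).2 hk'' tor
  obtain ⟨ω, hω⟩ := st6 η (by linarith only [Nη])
  obtain ⟨ω', hω'⟩ := st6 (η + q • S.T k' δ) (by linarith only [Nδ, Nη, S.N_add η (q • S.T k' δ)])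
  rw [map_add, ← add_assoc, map_nsmul, ← S.T_add] at hω'
  obtain ⟨g', hg'⟩ := st3 ζ (hR1' ζ hζ).2
  obtain ⟨bb, hbb⟩ : ∃ bb, bb = o + S.T J (o3 + S.T (1 + k1) ζ) := ⟨_, rfl⟩
  have c0 : S.H τ (g' * γ0) bb := hbb ▸ S.H_x hg' d0
  have c1' : S.H τ (g' * γ1) (bb + p • L) := by
    convert S.H_x hg' d1 using 1; rw [hbb]; abel
  have c2' : S.H τ (g' * γ2) (bb + p • δ2) := by
    convert S.H_x hg' d2 using 1; rw [hbb]; abel
  have c3' : S.H τ (g' * γ3) (bb + p • (L + δ2)) := by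
    convert S.H_x hg' d3 using 1; rw [hbb, smul_add]; abel
  have est : S.φ (S.A m bb) = a + S.φ (S.T (m + K1) ζ) := by
    clear * - Λ C G S m bb a K1 ζ o J o3 k1 hbb ha a0 kq p q i K' hK1 Cw m0 A U n0 T1 o1
    rw [hbb, ha, map_add (S.T J), ← add_assoc, S.A_add m _ (S.T J _), map_add, ← S.T_add,
      ← S.T_add, show m + J + (1 + k1) = m + K1 by omega]
  obtain ⟨n1, hn1, hn1'⟩ : ∃ n1 : ℤ, S.φ (S.A m bb) ≤ p * n1 + ι ∧
      p * n1 + ι < S.φ (S.A m bb) + p := by
    clear * - p hpz Λ C G S m bb ι A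
    have hp' : (0 : ℤ) < p := by exact_mod_cast Nat.pos_of_ne_zero hpz
    refine ⟨-((ι - S.φ (S.A m bb)) / p), ?_, ?_⟩
    · have := Int.mul_ediv_self_le (x := ι - S.φ (S.A m bb)) hp'.ne'; linarith only [this]
    · have := Int.lt_mul_ediv_self_add (x := ι - S.φ (S.A m bb)) hp'; linarith only [this]
  have b8 : (a : ℝ) + S.φ (S.T (m + K1) ζ) ≤ p * n1 + ι := by rw [est] at hn1; exact_mod_cast hn1
  have b9 : (p : ℝ) * n1 + ι < a + S.φ (S.T (m + K1) ζ) + p := by
    rw [est] at hn1'; exact_mod_cast hn1'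
  have dist : |n1 - n0| ≤ Cw * U := by
    obtain ⟨a4, a5⟩ := in1
    obtain ⟨a6, a7⟩ := hb0'
    rw [en_eq] at a5 a7
    have := p_arith (n0 := n0) (a0 := S.φ (S.A (m + K1) o1)) (ln := S.φ (S.T (m + K1) (S.lam T1)))
      hpp hθm hU1 (by positivity) (by positivity) hCw ((S.abs_φT (m + K1) ζ).trans (by
        clear * - Λ C G S m K1 ζ R1 hR1' hζ hs hpK1 hθm
        rw [pow_add, mul_assoc]
        gcongr
        · exact (hR1' ζ hζ).1
        · exact (hR1' ζ hζ).2))
      ((hc (m + K1) T1).2.trans (le_of_eq (by rw [pow_add]; ring))) (by exact_mod_cast a4)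
      (by exact_mod_cast a5) (by exact_mod_cast a6) (by exact_mod_cast a7) b8 b9
    exact_mod_cast this
  rw [abs_le] at dist
  obtain ⟨A', hA'⟩ : ∃ A' : ℕ, n1 = A + A' := ⟨(n1 - A).toNat, by
    rw [Int.toNat_of_nonneg (by linarith only [hn0, dist])]; ring⟩
  refine ⟨A', Lr, ?_, ?_, fun e he => ?_⟩
  · have a1 : (A' : ℤ) ≤ 2 * Cw * U := by linarith only [hn0, dist, hA']
    have a2 : (Lr : ℝ) ≤ Cl * U := hLr3.trans (by clear * - c1 Cl Λ C G S m U hCl hU1 hθm Lr hLr3; gcongr)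
    have a3 : Lr ≤ Cl * U := by exact_mod_cast a2
    have a4 : A' ≤ 2 * Cw * U := by exact_mod_cast a1
    rw [add_mul, add_mul]; omega
  · push_cast
    rw [show c1 / (4 * p * (2 * Cw + Cl + 1)) * ((2 * Cw + Cl + 1) * U) = c1 * U / (4 * p) by
      clear * - c1 p Cw Cl U hpz hc1
      field_simp, div_le_iff₀ (by positivity)]
    have : c1 * U ≤ c1 * (2 * S.θ ^ m) := by gcongr
    clear * - c1 U Lr p Λ C G S m hm1 hLr2 this
    linarith only [hm1, hLr2, this]
  · rw [← hA']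
    have he' : (e : ℝ) + 1 ≤ Lr := by exact_mod_cast he
    have inp : S.InZ m τ bb (p * (n1 + e) + ι) := by
      constructor
      · have : (0 : ℤ) ≤ p * e := by positivity
        linarith only [hn1, this]
      · rw [en_eq]
        have a1 := (hc m τ).1
        have a0 : ((e : ℝ) + 1) * p ≤ Lr * p := by clear * - p e Lr he' hpz a0; gcongr
        have a2 : (((e + 1) * p : ℤ) : ℝ) ≤ S.φ (S.T m (S.lam τ)) := by clear * - e p Λ C G S m τ Lr c1 hLr1 a1 a0; push_cast; linarith only [hLr1, a1, a0]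
        have a3 : ((e + 1) * p : ℤ) ≤ S.φ (S.T m (S.lam τ)) := by exact_mod_cast a2
        linarith only [hn1', a3]
    have inq : ∀ w : ℤ, |(w : ℝ)| ≤ S.θ ^ m * (S.s * |S.r L| + S.N L) →
        S.InZ (m + i) tq (o6 + S.T kq η) (q * (n1 + e + w) + ι') := by
      intro w hw
      have a0 : (q : ℝ) * S.φ (S.T (m + K1) ζ)
          = S.φ (S.T (m + i + kq) ζ0) + p * S.φ (S.T (m + i + kq) η) := by
        clear * - Λ C G S m i kq q K' ζ ζ0 p η tor K1 a0 o k1 J hK1 hKK Cw m0 ι A U Lr n0 T1 o1 o3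
          a bb n1 A' e
        have := congrArg (fun v => S.φ (S.T (m + i + kq) v)) tor
        simp only [map_add, map_nsmul, nsmul_eq_mul, ← S.T_add] at this
        rw [show m + i + kq + K' = m + K1 by omega] at this
        exact_mod_cast this
      obtain ⟨u1, u2⟩ := q_arith2 (e := e) hpp hqq hB hc1 hcL0 hθm (S.θpow_pos i) hp2 hi
        (by rw [← pow_add]; exact (hc (m + i) tq).1)
        (z3.trans (le_of_eq (by rw [pow_add, pow_add]; ring))) a0 b8 b9 (by positivity)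
        (he'.trans hLr3) hw
      constructor
      · rw [A_add, ← S.T_add, map_add]; exact_mod_cast u1
      · rw [en_eq, A_add, ← S.T_add, map_add]; exact_mod_cast u2
    constructor
    · refine ⟨L, δ2, L + δ2, g' * γ0, ⟨by clear * - Λ C G S L δ2 K lM hB nL nδ aδ hKl c0 c1' c2' c3' g' hdd hδ2 hω hω' i inp inq k' kq m γ0 δ; linarith only [hB, nL, nδ, aδ, hKl], by linarith only [hB, aL, nδ, aδ, hKl]⟩, ⟨by linarith only [hB, nL, aL, nδ, hKl], by linarith only [hB, nL, aL, aδ, hKl]⟩,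
        ⟨?_, ?_⟩, ?_, ?_⟩
      · rw [map_add]; linarith only [hB, nL, nδ, hKl, abs_add_le (S.r L) (S.r δ2)]
      · linarith only [hB, aL, aδ, hKl, S.N_add L δ2]
      · rw [S.hol_eq c0 c1' inp, S.hol_eq c0 c2' inp, S.hol_eq c0 c3' inp, hdd]; group
      · have e1 : S.T (m + i) (S.T (kq + k') δ) = S.T m δ2 := by
          rw [hδ2, ← S.T_add, ← S.T_add, show m + i + (kq + k') = m + (i + kq + k') by omega]
        have a1 := S.hol_eq hω hω' (by clear * - Λ C G S m i tq o6 kq η q n1 e ι' inq L hθm hs nL hω hω'; simpa using inq 0 (by clear * - Λ C G S m L hθm hs nL hω hω' inq; simp; positivity))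
        have a2 := S.hol_eq hω hω' (inq _ (S.abs_φT m L))
        rw [e1] at a1 a2
        rw [a1, ← a2, map_add, map_add]
        simp only [hol, add_assoc]; group
    · intro κ
      obtain ⟨η', b1, b2, c4⟩ := S.all_labels hpp hl hK c0 (κ * (g' * γ0))
      exact ⟨η', ⟨by clear * - Λ C G S η' L δ2 K lM hB nL aL nδ aδ b1 c0 c4 inp; linarith only [hB, nL, aL, nδ, aδ, b1], by clear * - Λ C G S η' L δ2 K lM nL aL nδ aδ hKl b2 c0 c4 inp; linarith only [nL, aL, nδ, aδ, hKl, b2]⟩, by rw [S.hol_eq c0 c4 inp]; group⟩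

theorem beta2 : ∃ p0 a0 : ℕ, a0 ≠ 0 ∧ ∀ p q : ℕ, p0 ≤ p → p ≠ 0 → q ≠ 0 → p.Coprime a0 →
    p.Coprime q → (Nat.card G).Coprime p → ∀ d ∈ S.Dp p, ∀ F : C → G → ℤ → ℂ,
    (∀ t g i, ‖F t g i‖ ≤ 1) → ∀ [Fintype (Subgroup.normalClosure {d})],
    (∀ t g i, ∑ ν : Subgroup.normalClosure {d}, F t (ν * g) i = 0) →
    ∀ α > (0 : ℝ), ∃ b : ℝ, ∀ (ι ι' A : ℤ) (M : ℕ), ‖∑ i ∈ range M,
      F (S.typ (p * (A + i) + ι)) (S.lab (p * (A + i) + ι)) (S.off (p * (A + i) + ι)) *
      (starRingEnd ℂ) (F (S.typ (q * (A + i) + ι')) (S.lab (q * (A + i) + ι'))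
        (S.off (q * (A + i) + ι')))‖ ≤ α * M + b := by
  classical
  obtain ⟨p0, a0, ha0, hruns⟩ := S.runs2
  refine ⟨p0, a0, ha0, fun p q hp hpz hq hpa hpq hG d hd F hF _ hz α hα => ?_⟩
  obtain ⟨Rs, β, Ct, m0, hRs, hβ, hCt, hrun⟩ := hruns p q hp hq hpa hpq hG d hd
  have := Fintype.ofFinite G
  have hc : (0 : ℝ) < Fintype.card G := by exact_mod_cast Fintype.card_pos
  let I := {δ : Λ | |S.r δ| ≤ Rs ∧ S.N δ ≤ Rs}
  have : Finite I := S.fin Rs
  have := Fintype.ofFinite I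
  let i0 : I := ⟨0, by simpa [I, S.N_zero] using hRs⟩
  have : Nonempty I := ⟨i0⟩
  let Ψ0 : ℤ × ℤ → ℤ → EuclideanSpace ℂ (G × G) := fun ι n => WithLp.toLp 2 fun k =>
    (Fintype.card G : ℂ)⁻¹ * (F (S.typ (p * n + ι.1)) (k.1 * S.lab (p * n + ι.1)) (S.off (p * n + ι.1)) *
      (starRingEnd ℂ) (F (S.typ (q * n + ι.2)) (k.2 * S.lab (q * n + ι.2)) (S.off (q * n + ι.2))))
  have key := engine Rt (Vz (Subgroup.normalClosure {d}))
    (fun (ι : ℤ × ℤ) n n' (a : G × G) => S.Eqv (p * n + ι.1) (p * n' + ι.1) a.1 ∧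
      S.Eqv (q * n + ι.2) (q * n' + ι.2) a.2) Ψ0 ?_ ?_ ?_ I β hβ ?_ (α / Fintype.card G)
      (by positivity)
  · obtain ⟨b, hb⟩ := key
    refine ⟨Fintype.card G * b, fun ι ι' A M => ?_⟩
    have h1 := (PiLp.norm_apply_le (∑ i ∈ range M, Ψ0 (ι, ι') (A + i)) (1, 1)).trans
      (hb (ι, ι') A M)
    simp only [WithLp.ofLp_sum, Finset.sum_apply, Ψ0, one_mul, ← mul_sum, norm_mul, norm_inv,
      Complex.norm_natCast] at h1
    rw [inv_mul_le_iff₀ hc] at h1
    refine h1.trans (le_of_eq ?_)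
    field_simp
  · intro ι n g h
    simp only [Ψ0, ← mul_sum, ← sum_mul, mul_assoc (_ : G), hz, zero_mul, mul_zero]
  · intro ι n
    rw [EuclideanSpace.norm_eq, Real.sqrt_le_one]
    refine (sum_le_sum (g := fun _ => ((Fintype.card G : ℝ)⁻¹) ^ 2) fun k _ => ?_).trans ?_
    · simp only [Ψ0, norm_mul, norm_inv, Complex.norm_natCast, Complex.norm_conj]
      gcongr
      refine mul_le_of_le_one_right (by positivity) (mul_le_one₀ (hF _ _ _) (norm_nonneg _) (hF _ _ _))
    · simp only [sum_const, card_univ, Fintype.card_prod, nsmul_eq_mul]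
      push_cast; field_simp; rfl
  · rintro ι n n' a ⟨⟨a1, a2, a3⟩, b1, b2, b3⟩
    ext k
    simp only [Rt_apply, Ψ0, a1, a2, a3, b1, b2, b3, Prod.fst_mul, Prod.snd_mul, mul_assoc]
  · intro W ε hε T0
    have hpq0 : (0 : ℝ) < p + q := by
      have : (0 : ℝ) < p := by exact_mod_cast Nat.pos_of_ne_zero hpz
      positivity
    obtain ⟨i1, hi1⟩ := S.win ((p + q) * Rs) (ε / (p + q)) (by positivity)
    obtain ⟨j0, hj0⟩ := hi1 ((p + q) * W)
    obtain ⟨j1, hj1⟩ := S.exists_θpow_ge T0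
    obtain ⟨Cst, hC⟩ := hj0 (j0 + j1 + m0) (by omega)
    set j := j0 + j1 + m0 with hj
    refine ⟨fun δ => S.φ (S.T (j + i1) δ), Ct * ⌈S.θ ^ (j + i1)⌉₊, Cst + Cst, ?_, fun ι => ?_⟩
    · have h1 : (T0 : ℝ) ≤ ⌈S.θ ^ (j + i1)⌉₊ := (hj1 _ (by omega)).trans (Nat.le_ceil _)
      have h2 : T0 ≤ ⌈S.θ ^ (j + i1)⌉₊ := by exact_mod_cast h1
      clear * - T0 Ct Λ C G S j i1 h2 hCt
      nlinarith only [h2, hCt]
    refine ⟨_, fun n δ => (S.hol p ι.1 n (S.φ (S.T (j + i1) δ)),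
      S.hol q ι.2 n (S.φ (S.T (j + i1) δ))),
      ((hC.affine p hpz ι.1).or (hC.affine q hq ι.2)).weaken (le_of_eq (by field_simp)), ?_, ?_⟩
    · intro n hn δ
      simp only [not_or, not_not] at hn
      have one : ∀ (ι : ℤ) (c : ℕ), c ≤ p + q → S.Win ((p + q) * Rs) j i1 ((p + q) * W) (c * n + ι) →
          ∀ e : ℤ, |e| ≤ W → S.Eqv (c * (n + e) + ι) (c * (n + S.φ (S.T (j + i1) δ) + e) + ι)
            (S.hol c ι n (S.φ (S.T (j + i1) δ))) := by
        intro ι c hc hw e he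
        obtain ⟨a, ha⟩ := Win.eqv S hw (c • (δ : Λ)) (by
          rw [S.N_nsmul]
          exact mul_le_mul (by exact_mod_cast hc) δ.2.2 (S.N_nonneg _) hpq0.le)
        rw [map_nsmul, map_nsmul, nsmul_eq_mul] at ha
        have h1 := (ha 0 (by clear * - p q W hpz hq ha; simp; positivity)).2.2
        have h2 : S.hol c ι n (S.φ (S.T (j + i1) δ)) = a := by
          rw [hol, show (c : ℤ) * (n + S.φ (S.T (j + i1) δ)) + ι
            = c * n + ι + c * S.φ (S.T (j + i1) δ) + 0 by ring, h1]; simp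
        have h3 := ha (c * e) (by
          rw [abs_mul, Nat.abs_cast]; push_cast
          exact mul_le_mul (by exact_mod_cast hc) he (abs_nonneg _) (by positivity))
        rw [h2]
        convert h3 using 1 <;> ring
      exact fun e he => ⟨one _ p (by omega) hn.1 e he, one _ q (by omega) hn.2 e he⟩
    · intro A
      obtain ⟨A', L, h1, h2, h3⟩ := hrun (j + i1) (by omega) ι.1 ι.2 A
      refine ⟨A', L, h1, h2, fun i hi _ => ?_⟩
      obtain ⟨⟨δ1, δ2, δ3, u, b1, b2, b3, b4, b5⟩, b6⟩ := h3 i hi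
      refine contr_of_gen d _ i0 ⟨δ1, b1⟩ ⟨δ2, b2⟩ ⟨δ3, b3⟩ u ?_ (Prod.ext b4 b5) fun κ => ?_
      · simp [i0, hol]
      · obtain ⟨δ, c1, c2⟩ := b6 κ
        exact ⟨⟨δ, c1⟩, c2⟩

theorem alpha2 (hCV : CV) (p : ℕ) (hp : p ≠ 0) (hG : (Nat.card G).Coprime p) (F : C → G → ℤ → ℂ)
    (hF : ∀ t g i, ‖F t g i‖ ≤ 1)
    (hN : ∀ ν ∈ Subgroup.normalClosure (S.Dp p), ∀ t g i, F t (g * ν) i = F t g i) :
    BO fun n => F (S.typ n) (S.lab n) (S.off n) := by
  refine BO_of_AP hCV _ (fun n => hF _ _ _) fun ε hε => ?_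
  obtain ⟨k1, hk1⟩ := S.chain p hp hG
  set e := Nat.card G with he
  have he0 : e ≠ 0 := Nat.card_pos.ne'
  obtain ⟨i0, hi0⟩ := S.den (e * p) ε hε
  obtain ⟨Cst, hC⟩ := hi0 0
  set k := max k1 i0
  obtain ⟨B, η, hη, hB⟩ := S.bohr_mul k (e * p) (mul_ne_zero he0 hp)
  refine ⟨B, η, Cst, hη, fun t ht => hC.mono fun n hn => ?_⟩
  obtain ⟨δ, hδ, rfl⟩ := hB t ht
  refine ⟨_, _, _, S.st_H n, S.st_In n, fun hst => hn ?_⟩
  set π := QuotientGroup.mk' (Subgroup.normalClosure (S.Dp p)) with hπ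
  have hst' := Stab.mono S hst (le_max_right k1 i0)
  have ex : ∀ i : ℕ, ∃ γ, i ≤ e → S.H (S.typ n) γ (S.pos n + p • (i • S.T k δ)) := by
    intro i
    by_cases hi : i ≤ e
    · obtain ⟨γ, hγ⟩ := hst' (p • i • δ) (by
        clear * - Λ C G S p i δ e hi hδ he0 hp
        rw [S.N_nsmul, S.N_nsmul]
        have : (i : ℝ) ≤ e := by exact_mod_cast hi
        have h2 : (i : ℝ) * S.N δ ≤ e * 1 := mul_le_mul this hδ (S.N_nonneg _) (by positivity)
        have h3 : (0 : ℝ) ≤ p := by positivity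
        linarith only [h2, mul_nonneg_of_nonpos_of_nonpos (Mathlib.Tactic.Linarith.sub_nonpos_of_le (Mathlib.Tactic.Linarith.natCast_nonneg ℝ p)) (Mathlib.Tactic.Linarith.sub_nonpos_of_le h2)])
      exact ⟨γ, fun _ => by rwa [map_nsmul, map_nsmul] at hγ⟩
    · exact ⟨1, fun h => absurd h hi⟩
  choose γ hγ using ex
  have γ0 : γ 0 = S.lab n := (S.H_uniq' (by simpa using hγ 0 (Nat.zero_le _)) (S.st_H n)).2
  have pw : ∀ i ≤ e, π (γ 0 * (γ i)⁻¹) = π (γ 0 * (γ 1)⁻¹) ^ i := by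
    intro i
    induction i with
    | zero => simp
    | succ i ih =>
      intro hi
      have := hk1 k (le_max_left _ _) δ hδ (S.typ n) (S.pos n) (i • S.T k δ) (γ 0) (γ i) (γ 1)
        (γ (i + 1)) (γ0 ▸ S.st_H n) (hγ i (by omega)) (by simpa using hγ 1 (by omega))
        (by have := hγ (i + 1) hi; rwa [succ_nsmul, smul_add, ← add_assoc] at this)
      rw [pow_succ, ← ih (by omega), this, ← map_mul]
      congr 1; group
  have h1 := pw e le_rfl
  rw [← map_pow, he, pow_card_eq_one', map_one, ← he] at h1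
  have h2 : γ 0 * (γ e)⁻¹ ∈ Subgroup.normalClosure (S.Dp p) := (QuotientGroup.eq_one_iff _).mp h1
  have h3 : (γ e)⁻¹ * γ 0 ∈ Subgroup.normalClosure (S.Dp p) :=
    Subgroup.normalClosure_normal.mem_comm h2
  obtain ⟨b1, b2, b3⟩ := S.transfer (S.st_H n) (hγ e le_rfl) (S.st_In n)
  have h4 : S.φ (S.T 0 (p • e • S.T k δ)) = ((e * p : ℕ) : ℤ) * S.φ (S.T k δ) := by
    rw [S.T_zero, map_nsmul, map_nsmul]; simp; ring
  rw [h4] at b1 b2 b3
  rw [b1, b2, b3, inv_mul_cancel_right, ← hN _ h3, ← γ0]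
  simp

theorem main2 (hCV : CV) (hK : Kat) (F : C → G → ℤ → ℂ) (hF : ∀ t g i, ‖F t g i‖ ≤ 1) :
    BO fun n => F (S.typ n) (S.lab n) (S.off n) := by
  classical
  obtain ⟨p0, a0, ha0, hbeta⟩ := S.beta2
  obtain ⟨D, hdiv⟩ := prime_pigeon S.Dp (p0 + a0 + Nat.card G)
  set P := {p : ℕ | p.Prime ∧ p0 + a0 + Nat.card G < p ∧ S.Dp p = D} with hP
  have hG : ∀ p ∈ P, (Nat.card G).Coprime p := fun p hp =>
    (Nat.coprime_of_lt_prime Nat.card_pos.ne' (by have := hp.2.1; omega) hp.1).symm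
  have key : ∀ ν ∈ Subgroup.normalClosure D, ∀ F : C → G → ℤ → ℂ, (∀ t g i, ‖F t g i‖ ≤ 1) →
      BO fun n => F (S.typ n) (S.lab n) (S.off n) - F (S.typ n) (S.lab n * ν) (S.off n) := by
    intro ν hν
    induction hν using Subgroup.closure_induction with
    | mem ν hν =>
      intro F hF
      obtain ⟨d, hd, hc⟩ := Group.mem_conjugatesOfSet_iff.mp hν
      have hν' : ν ∈ Subgroup.normalClosure {d} :=
        Subgroup.conjugatesOfSet_subset_normalClosure
          (Group.mem_conjugatesOfSet_iff.mpr ⟨d, rfl, hc⟩)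
      have := Fintype.ofFinite (Subgroup.normalClosure {d})
      have b1 : ∀ t g i, ‖(1 / 2 : ℂ) * (F t g i - F t (g * ν) i)‖ ≤ 1 := fun t g i => by
        clear * - F t g i G ν hF
        have := (norm_sub_le _ _).trans (add_le_add (hF t g i) (hF t (g * ν) i))
        rw [norm_mul]; norm_num; linarith only [this]
      have h1 := BO_of_corr hK P (fun p hp => hp.1) hdiv (fun n => (1 / 2 : ℂ) *
        (F (S.typ n) (S.lab n) (S.off n) - F (S.typ n) (S.lab n * ν) (S.off n)))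
        (fun n => b1 _ _ _) fun p hp q hq hpq => hbeta p q (by have := hp.2.1; omega) hp.1.ne_zero
          hq.1.ne_zero (Nat.coprime_of_lt_prime ha0 (by have := hp.2.1; omega) hp.1)
          ((Nat.coprime_primes hp.1 hq.1).mpr hpq) (hG p hp) d (hp.2.2.symm ▸ hd)
          (fun t g i => (1 / 2 : ℂ) * (F t g i - F t (g * ν) i)) b1 fun t g i => by
            rw [← mul_sum, sum_sub_distrib, mul_eq_zero, sub_eq_zero]
            right
            refine (Fintype.sum_equiv (Equiv.mulRight (⟨g * ν * g⁻¹,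
              Subgroup.normalClosure_normal.conj_mem _ hν' g⟩ : Subgroup.normalClosure {d}))
              _ _ fun x => ?_).symm
            simp [mul_assoc]
      convert h1.smul 2 using 2; ring
    | one => intro F _; simpa using BO.zero
    | mul x y _ _ hx hy =>
      intro F hF
      convert (hy F hF).add (hx (fun t g i => F t (g * y) i) fun t g i => hF _ _ _) using 2
      simp [mul_assoc]
    | inv x _ hx =>
      intro F hF
      convert (hx (fun t g i => F t (g * x⁻¹) i) fun t g i => hF _ _ _).smul (-1) using 2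
      simp
  obtain ⟨p, hp⟩ : P.Nonempty := by
    by_contra h
    rw [Set.not_nonempty_iff_eq_empty] at h
    apply hdiv
    have : IsEmpty P := by rw [h]; infer_instance
    exact summable_empty
  set Nn := Subgroup.normalClosure D with hNn
  have := Fintype.ofFinite Nn
  have hc : (0 : ℝ) < Fintype.card Nn := by exact_mod_cast Fintype.card_pos
  have h1 := S.alpha2 hCV p hp.1.ne_zero (hG p hp)
    (fun t g i => (Fintype.card Nn : ℂ)⁻¹ * ∑ ν : Nn, F t (g * ν) i) (fun t g i => by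
      rw [norm_mul, norm_inv, Complex.norm_natCast, inv_mul_le_iff₀ hc]
      exact (norm_sum_le_of_le _ (n := fun _ => (1 : ℝ)) fun ν _ => hF _ _ _).trans (by simp))
    (fun ν hν t g i => by
      rw [hp.2.2] at hν
      congr 1
      exact Fintype.sum_equiv (Equiv.mulLeft (⟨ν, hν⟩ : Nn)) _ _ fun x => by simp [mul_assoc])
  have h2 := (BO.sum univ _ fun (ν : Nn) _ => key ν ν.2 F hF).smul (Fintype.card Nn : ℂ)⁻¹
  convert h1.add h2 using 2
  rw [sum_sub_distrib, sum_const, card_univ, nsmul_eq_mul]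
  have : (Fintype.card Nn : ℂ) ≠ 0 := by simp
  field_simp; ring

end SST
end Pool.Agent.PT

namespace Pool.Agent.SB
open Pool.Agent.PT

theorem sst_main {Λ C G : Type} [AddCommGroup Λ] [Group G] (S : SST Λ C G) [Finite C] [Finite G]
    (hCV : CV) (hK : Kat) (F : C → G → ℤ → ℂ) (hF : ∀ t g i, ‖F t g i‖ ≤ 1) :
    BO fun n => F (S.typ n) (S.lab n) (S.off n) :=
  S.main2 hCV hK F hF

end Pool.Agent.SB
end

-- merged part: Pool.Agent.Work.MP_cf06ef_an.B14
section
/-! Morphic images of substitutions with lengths of Pisot type. -/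

set_option autoImplicit false
set_option linter.unusedSectionVars false
open Finset Filter Topology

namespace Pool.Agent.SB
open Pool.Agent.PT

section Im
variable {A A' : Type} (σ : A → List A) (ex : A → List A')

/-- the morphic image of the iterated substitution. -/
def im (n : ℕ) (w : List A) : List A' := (it σ n w).flatMap ex

lemma im_add (k l : ℕ) (w : List A) : im σ ex (k + l) w = im σ ex l (it σ k w) := by
  rw [im, it_add, im]

lemma im_append (n : ℕ) (v w : List A) : im σ ex n (v ++ w) = im σ ex n v ++ im σ ex n w := by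
  rw [im, it_append, List.flatMap_append, im, im]

lemma im_nil (n : ℕ) : im σ ex n [] = [] := by rw [im, it_nil]; rfl

lemma im_cons (n : ℕ) (a : A) (w : List A) :
    im σ ex n (a :: w) = im σ ex n [a] ++ im σ ex n w := im_append σ ex n [a] w

lemma length_im (n : ℕ) (w : List A) :
    (im σ ex n w).length = (w.map fun a => (im σ ex n [a]).length).sum := by
  induction w with
  | nil => simp [im_nil]
  | cons a w ih => rw [im_cons, List.length_append, ih]; simp

theorem exists_base' [Fintype A] [Nonempty A] (θ : ℝ) (hθ : 1 < θ) (c : A → ℝ)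
    (cpos : ∀ a, 0 < c a)
    (hc : ∀ a, Tendsto (fun n => ((im σ ex n [a]).length : ℝ) - c a * θ ^ n) atTop (𝓝 0)) :
    ∃ (Λ : Type) (_ : AddCommGroup Λ) (B : GS Λ A Unit) (K : ℕ),
      (∀ j a, B.φ (B.T j (B.lam a)) = (im σ ex (j + K) [a]).length) ∧
      ∀ k a b o, B.D k a b () o ↔ ∃ w1 w2, it σ k [a] = w1 ++ b :: w2 ∧ o = (w1.map B.lam).sum := by
  classical
  have hθ0 : 0 < θ := by linarith
  have tw : ∀ w : List A, Tendsto (fun n => ((im σ ex n w).length : ℝ) - (w.map c).sum * θ ^ n)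
      atTop (𝓝 0) := by
    intro w
    induction w with
    | nil => simp [im_nil]
    | cons a w ih =>
      have := (hc a).add ih
      rw [add_zero] at this
      refine this.congr fun n => ?_
      rw [im_cons σ ex n a w]; simp; ring
  have eig : ∀ k a, ((it σ k [a]).map c).sum = θ ^ k * c a := by
    intro k a
    have h1 := ((hc a).comp (tendsto_add_atTop_nat k)).sub (tw (it σ k [a]))
    rw [sub_zero] at h1
    have h2 : Tendsto (fun n : ℕ => |((it σ k [a]).map c).sum - θ ^ k * c a| * θ ^ n) atTop (𝓝 0) := by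
      have := h1.abs
      rw [abs_zero] at this
      refine this.congr fun n => ?_
      simp only [Function.comp, add_comm n k, im_add]
      rw [← abs_of_pos (pow_pos hθ0 n), ← abs_mul, abs_of_pos (pow_pos hθ0 n)]
      congr 1; ring
    have h3 := ge_of_tendsto' h2 (b := |((it σ k [a]).map c).sum - θ ^ k * c a|) fun n =>
      le_mul_of_one_le_right (abs_nonneg _) (one_le_pow₀ hθ.le)
    exact sub_eq_zero.mp (abs_nonpos_iff.mp h3)
  obtain ⟨ρ, Cg, hρ0, hρ1, hgeo⟩ := geom_of_tendsto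
    (E := A → ℝ) { toFun := fun v a => ((σ a).map v).sum
                   map_add' := fun v w => by funext a; simp [← List.sum_map_add]; rfl
                   map_smul' := fun r v => by funext a; simp [← List.sum_map_mul_left]; rfl }
    (fun n a => ((im σ ex n [a]).length : ℝ) - c a * θ ^ n) (fun j => by
      funext a
      have h1 := eig 1 a
      simp only [it_one, List.flatMap_singleton, pow_one] at h1
      simp only [LinearMap.coe_mk, AddHom.coe_mk]
      rw [add_comm j 1, im_add, it_one, List.flatMap_singleton, length_im, pow_add, pow_one,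
        ← mul_assoc, mul_comm (c a), ← h1]
      generalize σ a = w
      induction w with
      | nil => simp
      | cons b w ih => simp only [List.map_cons, List.sum_cons, ← ih]; push_cast; ring)
    (tendsto_pi_nhds.mpr hc)
  let Λ := Submodule.span ℤ (Set.range c)
  have : Module.Finite ℤ Λ := Module.Finite.span_of_finite ℤ (Set.finite_range c)
  let r : Λ →+ ℝ := Λ.subtype.toAddMonoidHom
  have rinj : Function.Injective r := Subtype.val_injective
  let lam : A → Λ := fun a => ⟨c a, Submodule.subset_span ⟨a, rfl⟩⟩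
  have rval : ∀ w : List A, r (w.map lam).sum = (w.map c).sum := fun w => by
    rw [map_list_sum, List.map_map]; rfl
  have Tmem : ∀ (k : ℕ), ∀ x ∈ Λ, θ ^ k * x ∈ Λ := by
    intro k x hx
    induction hx using Submodule.span_induction with
    | mem x hx => obtain ⟨a, rfl⟩ := hx; rw [← eig, ← rval]; exact Subtype.prop _
    | zero => simp
    | add x y _ _ hx hy => rw [mul_add]; exact Λ.add_mem hx hy
    | smul n x _ hx => rw [mul_smul_comm]; exact Λ.smul_mem n hx
  let T : ℕ → Λ →+ Λ := fun k =>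
    { toFun := fun x => ⟨θ ^ k * x, Tmem k x x.2⟩
      map_zero' := Subtype.ext (by simp)
      map_add' := fun x y => Subtype.ext (by simp [mul_add]) }
  have rT : ∀ k γ, r (T k γ) = θ ^ k * r γ := fun _ _ => rfl
  have Tval : ∀ k (w : List A), T k (w.map lam).sum = ((it σ k w).map lam).sum := by
    intro k w
    apply rinj
    rw [rT, rval, rval]
    induction w with
    | nil => simp [it_nil]
    | cons a w ih => rw [it_cons σ k a w]; simp [eig, ← ih, mul_add]
  let π : (A → ℤ) →ₗ[ℤ] Λ := Fintype.linearCombination ℤ lam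
  have πsurj : LinearMap.range π = ⊤ := by
    rw [Fintype.range_linearCombination, eq_top_iff]
    rintro ⟨x, hx⟩ -
    induction hx using Submodule.span_induction with
    | mem x hx => obtain ⟨a, rfl⟩ := hx; exact Submodule.subset_span ⟨a, rfl⟩
    | zero => exact Submodule.zero_mem _
    | add x y _ _ hx hy => exact Submodule.add_mem _ hx hy
    | smul n x _ hx => exact Submodule.smul_mem _ n hx
  let ℓ : ℕ → (A → ℤ) →ₗ[ℤ] ℤ := fun j =>
    Fintype.linearCombination ℤ fun a => ((im σ ex j [a]).length : ℤ)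
  obtain ⟨K, hK⟩ : ∃ K, LinearMap.ker π ≤ LinearMap.ker (ℓ K) := by
    clear * - A Λ π ℓ r A' σ ex c θ hc lam this
    obtain ⟨s, hs⟩ := IsNoetherian.noetherian (LinearMap.ker π)
    have : ∀ᶠ j in atTop, ∀ n ∈ s, ℓ j n = 0 := by
      rw [eventually_all_finset]
      intro n hn
      have h1 : n ∈ LinearMap.ker π := hs ▸ Submodule.subset_span hn
      have h2 := congrArg r (LinearMap.mem_ker.mp h1)
      simp only [π, Fintype.linearCombination_apply, map_sum, map_zsmul, map_zero,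
        zsmul_eq_mul] at h2
      have h3 : Tendsto (fun j => ((ℓ j n : ℤ) : ℝ)) atTop (𝓝 0) := by
        have := tendsto_finsetSum univ fun a _ => (hc a).const_mul (n a : ℝ)
        simp only [mul_zero, sum_const_zero] at this
        refine this.congr fun j => ?_
        simp only [ℓ, Fintype.linearCombination_apply, smul_eq_mul, mul_sub, sum_sub_distrib,
          ← mul_assoc, ← sum_mul]
        rw [show ∑ a, (n a : ℝ) * c a = 0 from h2]; simp
      filter_upwards [h3.abs.eventually (gt_mem_nhds (by simp : |(0 : ℝ)| < 1))] with j hj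
      exact Int.abs_lt_one_iff.mp (by exact_mod_cast hj)
    obtain ⟨K, hK⟩ := this.exists
    exact ⟨K, hs ▸ Submodule.span_le.mpr hK⟩
  obtain ⟨g, hg⟩ := π.exists_rightInverse_of_surjective πsurj
  let φ : Λ →+ ℤ := ((ℓ K).comp g).toAddMonoidHom
  have φlam : ∀ a, φ (lam a) = (im σ ex K [a]).length := fun a => by
    clear * - A Λ π g lam a hg ℓ K hK φ A' σ ex
    have h1 : g (lam a) - Pi.single a 1 ∈ LinearMap.ker π := by
      rw [LinearMap.mem_ker, map_sub, show π (g (lam a)) = lam a from LinearMap.congr_fun hg _]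
      simp [π]
    have h2 := LinearMap.mem_ker.mp (hK h1)
    rw [map_sub, sub_eq_zero] at h2
    show ℓ K (g (lam a)) = _
    rw [h2]; simp [ℓ]
  have φT : ∀ j a, φ (T j (lam a)) = (im σ ex (j + K) [a]).length := fun j a => by
    have := Tval j [a]
    simp only [List.map_singleton, List.sum_singleton] at this
    rw [this, map_list_sum, im_add, length_im σ ex K, List.map_map]
    simp only [Function.comp_def, φlam]; push_cast; rw [List.map_map]; rfl
  obtain ⟨a0⟩ := ‹Nonempty A›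
  obtain ⟨M, hMθ, hMr, hMT, hMφ⟩ := PM.exists_of_raw θ ρ (θ ^ K) r T φ hθ hρ0 hρ1 (pow_pos hθ0 K)
    rinj rT (fun γ => by
      clear * - A Λ π γ φ T θ K r ρ πsurj Cg A' σ ex lam φT c hgeo
      obtain ⟨n, rfl⟩ := LinearMap.range_eq_top.mp πsurj γ
      refine ⟨∑ a, |(n a : ℝ)| * (Cg * ρ ^ K), fun j => ?_⟩
      simp only [π, Fintype.linearCombination_apply, map_sum, map_zsmul, φT, zsmul_eq_mul,
        smul_eq_mul, mul_sum, sum_mul]
      push_cast
      rw [← sum_sub_distrib]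
      refine (abs_sum_le_sum_abs _ _).trans (sum_le_sum fun a _ => ?_)
      have h1 := (norm_le_pi_norm _ a).trans (hgeo (j + K))
      rw [show (n a : ℝ) * (im σ ex (j + K) [a]).length - θ ^ K * (θ ^ j * (n a * r (lam a)))
        = n a * ((im σ ex (j + K) [a]).length - c a * θ ^ (j + K)) by
          rw [pow_add, show r (lam a) = c a from rfl]; ring, abs_mul, mul_assoc, mul_assoc,
        ← pow_add, add_comm K j]
      gcongr; exact h1)
    (lam a0) (fun h => (cpos a0).ne' (congrArg Subtype.val h))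
  subst hMθ
  let D : ℕ → A → A → Unit → Λ → Prop := fun k a b _ o =>
    ∃ w1 w2, it σ k [a] = w1 ++ b :: w2 ∧ o = (w1.map lam).sum
  have nn : ∀ w : List A, 0 ≤ (w.map c).sum := fun w =>
    List.sum_nonneg (by simpa using fun a _ => (cpos a).le)
  have D_comp : ∀ {k l t t' t'' o o'}, D k t t' () o → D l t' t'' () o' →
      D (k + l) t t'' () (T l o + o') := by
    rintro k l t t' t'' o o' ⟨w1, w2, h1, rfl⟩ ⟨v1, v2, h2, rfl⟩
    refine ⟨it σ l w1 ++ v1, v2 ++ it σ l w2, ?_, by rw [Tval]; simp⟩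
    rw [it_add, h1, it_append, it_cons, h2]; simp
  have D_bd : ∀ {k t t' o}, D k t t' () o → 0 ≤ r o ∧ r o + c t' ≤ M.θ ^ k * c t := by
    rintro k t t' o ⟨w1, w2, h1, rfl⟩
    rw [rval, ← eig, h1]
    simp [nn]
  have D_cover : ∀ k t y, 0 ≤ y → y < M.θ ^ k * c t →
      ∃ t' o, D k t t' () o ∧ r o ≤ y ∧ y < r o + c t' := by
    intro k t y h0 h1
    obtain ⟨w1, b, w2, e, h2, h3⟩ := word_cover c (it σ k [t]) y h0 (by rwa [eig])
    exact ⟨b, _, ⟨w1, w2, e, rfl⟩, by rwa [rval], by rwa [rval]⟩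
  have D_uniq : ∀ {k t t1 t2 o1 o2} y, D k t t1 () o1 → D k t t2 () o2 →
      r o1 ≤ y → y < r o1 + c t1 → r o2 ≤ y → y < r o2 + c t2 → t1 = t2 ∧ o1 = o2 := by
    rintro k t t1 t2 o1 o2 y ⟨w1, w2, h1, rfl⟩ ⟨v1, v2, h2, rfl⟩ a1 a2 a3 a4
    rw [rval] at a1 a2 a3 a4
    obtain ⟨e1, e2⟩ := word_uniq c (fun a => (cpos a).le) (h1.symm.trans h2) a1 a2 a3 a4
    exact ⟨e1, by rw [e2]⟩
  obtain ⟨B1, hB1⟩ : ∃ B1 : ℝ, 0 ≤ B1 ∧ ∀ t t' o, D 1 t t' () o → M.N o ≤ B1 := by
    clear * - A Λ M lam D σ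
    have nN : ∀ w : List A, 0 ≤ (w.map fun a => M.N (lam a)).sum := fun w =>
      List.sum_nonneg (by simpa using fun a _ => M.N_nonneg _)
    refine ⟨∑ t, ((it σ 1 [t]).map fun a => M.N (lam a)).sum, sum_nonneg fun _ _ => nN _, ?_⟩
    rintro t t' o ⟨w1, w2, h1, rfl⟩
    refine le_trans ?_ (single_le_sum (f := fun t => ((it σ 1 [t]).map fun a => M.N (lam a)).sum)
      (fun _ _ => nN _) (mem_univ t))
    have : M.N (w1.map lam).sum ≤ (w1.map fun a => M.N (lam a)).sum := by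
      clear h1
      induction w1 with
      | nil => simp [M.N_zero]
      | cons a w ih => simp only [List.map_cons, List.sum_cons]; linarith only [ih, M.N_add (lam a) (w.map lam).sum]
    rw [h1, List.map_append, List.sum_append]
    linarith only [this, nN, nN (t' :: w2)]
  have hρ' := sub_pos.mpr M.ρ_lt
  have D_N : ∀ k t t' o, D k t t' () o → M.N o ≤ B1 / (1 - M.ρ) := by
    clear * - A Λ D M B1 σ lam hB1 hρ' r c D_bd cpos D_cover hθ hθ0 T D_uniq D_comp rT hMT this ρ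
    intro k
    induction k with
    | zero =>
      rintro t t' o ⟨w1, w2, h1, rfl⟩
      have : w1 = [] := by
        have := congrArg List.length h1
        simp only [it, Function.iterate_zero, id, List.length_nil, List.length_append,
          List.length_cons] at this
        exact List.length_eq_zero_iff.mp (by omega)
      simp only [this, List.map_nil, List.sum_nil, M.N_zero]
      exact div_nonneg hB1.1 hρ'.le
    | succ k ih =>
      intro t t' o h
      obtain ⟨b1, b2⟩ := D_bd h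
      have b3 := cpos t'
      obtain ⟨t1, o1, h1, a1, a2⟩ := D_cover k t (r o / M.θ) (by positivity) (by
        rw [div_lt_iff₀ hθ0]; rw [pow_succ] at b2; linarith only [b2, b3])
      rw [le_div_iff₀ hθ0] at a1
      rw [div_lt_iff₀ hθ0] at a2
      obtain ⟨t2, o2, h2, a3, a4⟩ := D_cover 1 t1 (r o - M.θ * r o1) (by linarith only [a1]) (by linarith only [a2])
      obtain ⟨-, rfl⟩ := D_uniq (r o) (D_comp h1 h2) h (by rw [map_add, rT]; linarith only [a3])
        (by rw [map_add, rT]; linarith only [a4]) le_rfl (by linarith only [b3])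
      have a5 := M.N_T 1 o1
      rw [hMT, pow_one] at a5
      have a6 := mul_le_mul_of_nonneg_left (ih _ _ _ h1) M.ρ_nonneg
      have a7 : B1 / (1 - M.ρ) = M.ρ * (B1 / (1 - M.ρ)) + B1 := by field_simp; ring
      linarith only [a5, a6, a7, hB1, h2, M.N_add (T 1 o1) o2, hB1.2 _ _ _ h2]
  refine ⟨Λ, inferInstance,
    { toPM := M, lam := lam, D := D, B := B1 / (1 - M.ρ)
      lam_pos := fun t => by rw [hMr]; exact cpos t
      D_refl := fun t => ⟨[], [], rfl, rfl⟩
      D_comp := fun h h' => by rw [hMT]; exact D_comp h h'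
      D_bd := fun h => by rw [hMr]; exact D_bd h
      D_cover := fun k t y h0 h1 => by
        rw [hMr] at h1 ⊢
        obtain ⟨t', o, h⟩ := D_cover k t y h0 h1
        exact ⟨t', (), o, h⟩
      D_uniq := fun y h1 h2 => by
        rw [hMr]; intro a1 a2 a3 a4
        obtain ⟨e1, e2⟩ := D_uniq y h1 h2 a1 a2 a3 a4
        exact ⟨e1, rfl, e2⟩
      D_N := fun h => D_N _ _ _ _ h }, K, fun j a => ?_, fun _ _ _ _ => Iff.rfl⟩
  show M.φ (M.T j (lam a)) = _
  rw [hMφ, hMT]; exact φT j a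

end Im

theorem cls_seq' (hCV : CV) (hK : Kat) {A A' Λ : Type} [Finite A] [Nonempty A'] [AddCommGroup Λ]
    (σ : A → List A) (ex : A → List A') (B : GS Λ A Unit) (K : ℕ)
    (hlen : ∀ j a, B.φ (B.T j (B.lam a)) = (im σ ex (j + K) [a]).length)
    (hBD : ∀ k a b o, B.D k a b () o ↔
      ∃ w1 w2, it σ k [a] = w1 ++ b :: w2 ∧ o = (w1.map B.lam).sum)
    (s1 : ℕ) (hs1 : s1 ≠ 0) (p : A → Prop) (a0 : A) (ha0 : p a0)
    (hcl : ∀ k a b, p a → b ∈ it σ (s1 * k) [a] → p b)
    (hpr : ∀ j a b, p a → p b → b ∈ it σ (s1 * (j + 1)) [a])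
    (Φ : WF A') (ε : ℝ) (hε : 0 < ε) :
    ∃ u : ℤ → A', (∀ b, p b → ∀ m, ∃ ι : ℤ, Occ u ι (im σ ex (s1 * m + K) [b])) ∧
      BOe (Φ.ev u) ε := by
  classical
  obtain ⟨z0⟩ := ‹Nonempty A'›
  set w := Φ.w with hw
  have hval : ∀ j (v : List A), B.φ (B.T j (v.map B.lam).sum) = (im σ ex (j + K) v).length := by
    intro j v
    induction v with
    | nil => simp [im_nil]
    | cons a v ih => rw [im_cons]; simp [hlen, ih]
  let B' := B.powRes s1 hs1 p fun k a b o ha h => by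
    obtain ⟨w1, w2, e, -⟩ := (hBD _ _ _ _).mp h
    exact hcl k a b ha (by rw [e]; simp)
  have : Nonempty {a // p a} := ⟨⟨a0, ha0⟩⟩
  obtain ⟨C, G, _, _, _, s, hs, P, fst, hP, hf1, hf2⟩ := B'.exists_PSST
  have Pr : P.r = B.r := by rw [hP]; rfl
  have PT : ∀ j, P.T j = B.T (s1 * (s * j)) := fun j => by rw [hP]; rfl
  have Pφ : P.φ = B.φ := by rw [hP]; rfl
  have Pθ : P.θ = (B.θ ^ s1) ^ s := by rw [hP]; rfl
  replace hf1 : ∀ t g, B.r (fst t g).2 ≤ 0 ∧
    B.r (P.lam t) ≤ B.r (fst t g).2 + B.r (B.lam (fst t g).1) := hf1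
  obtain ⟨J, hJ1, hJ2, hJ3⟩ := ((eventually_all.mpr fun t => P.ev_ge (P.lam t) (P.lam_pos t)
    (2 * w / (ε / 8) + 1)).and ((eventually_all.mpr fun t => eventually_all.mpr fun g =>
      P.ev_nonneg (-(fst t g).2) (by rw [Pr, map_neg]; linarith only [hf1, (hf1 t g).1])).and
      (eventually_all.mpr fun t => eventually_all.mpr fun g =>
      P.ev_nonneg ((fst t g).2 + B.lam (fst t g).1 - P.lam t) (by
        rw [Pr, map_sub, map_add]; linarith only [hf1, (hf1 t g).2])))).exists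
  let S := P.scale J fun t => by
    have h1 : (0 : ℝ) < P.φ (P.T J (P.lam t)) := lt_of_lt_of_le (by positivity) (hJ1 t)
    exact_mod_cast h1
  have Sφ : ∀ γ, S.φ γ = B.φ (B.T (s1 * (s * J)) γ) := fun γ => by
    show P.φ (P.T J γ) = _; rw [Pφ, PT]
  have ST : ∀ j, S.T j = B.T (s1 * (s * j)) := PT
  have Slen : ∀ j (v : List A), S.φ (S.T j (v.map B.lam).sum)
      = (im σ ex (s1 * (s * (J + j)) + K) v).length := fun j v => by
    rw [Sφ, ST, ← B.T_add, hval, mul_add, mul_add]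
  have Slen1 : ∀ j a, S.φ (S.T j (B.lam a)) = (im σ ex (s1 * (s * (J + j)) + K) [a]).length :=
    fun j a => by simpa using Slen j [a]
  replace hJ2 : ∀ t g, S.φ (fst t g).2 ≤ 0 := fun t g => by
    have : 0 ≤ S.φ (-(fst t g).2) := hJ2 t g
    rw [map_neg] at this; linarith only [this]
  replace hJ3 : ∀ t g, S.φ (S.lam t) ≤ S.φ (fst t g).2 + S.φ (B.lam (fst t g).1) := fun t g => by
    have : 0 ≤ S.φ ((fst t g).2 + B.lam (fst t g).1 - S.lam t) := hJ3 t g
    rw [map_sub, map_add] at this; linarith only [this]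
  let Lt : C → G → ℤ → A' := fun t g i =>
    ((im σ ex (s1 * (s * (J + 0)) + K) [(fst t g).1.1])[(i - S.φ (fst t g).2).toNat]?).getD z0
  let u : ℤ → A' := fun n => Lt (S.typ n) (S.lab n) (S.off n)
  have L1 : ∀ j t g o n (i : ℕ), S.H t g o → S.InZ j t o n →
      n = S.φ (S.A j o) + S.φ (S.T j (fst t g).2) + i →
      (im σ ex (s1 * (s * (J + j)) + K) [(fst t g).1.1])[i]? = some (u n) := by
    intro j t g o n i h hn hi
    obtain ⟨t', κ, o', hd, hn'⟩ := S.InZ_down (j := 0) h (by simpa using hn)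
    obtain ⟨e1, e2, e3⟩ := S.st_eq (S.H_D h hd) hn'
    obtain ⟨w1, w2, e4, e5⟩ := (hBD _ _ _ _).mp (hf2 j t t' κ o' g hd)
    have e6 := Slen 0 w1
    rw [← e5, S.T_zero, map_sub, map_add] at e6
    have e7 := Slen1 0 (fst t' (g * κ)).1.1
    rw [S.T_zero] at e7
    obtain ⟨b1, b2⟩ := hn'
    simp only [S.A_zero, map_add] at b1 b2
    have b3 := hJ2 t' (g * κ)
    have b4 := hJ3 t' (g * κ)
    have e8 : S.φ (B'.T (s * j) (fst t g).2) = S.φ (S.T j (fst t g).2) := by rw [ST]; rfl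
    rw [e8] at e6
    obtain ⟨i', hi'⟩ : ∃ i' : ℕ, S.off n - S.φ (fst t' (g * κ)).2 = i' :=
      ⟨_, (Int.toNat_of_nonneg (by rw [SST.off, e3, map_add]; omega)).symm⟩
    have hi2 := hi'
    rw [SST.off, e3, map_add] at hi2
    have hlt : i' < (im σ ex (s1 * (s * (J + 0)) + K) [(fst t' (g * κ)).1.1]).length := by omega
    rw [show s1 * (s * (J + j)) + K = s1 * (s * j) + (s1 * (s * (J + 0)) + K) by ring, im_add, e4,
      im_append, im_cons, show i = (im σ ex (s1 * (s * (J + 0)) + K) w1).length + i' by omega,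
      get_mid _ _ _ _ hlt]
    simp only [u, Lt, e1, e2, hi', Int.toNat_natCast]
    rw [List.getElem?_eq_getElem hlt]; rfl
  refine ⟨u, fun b hb m => ?_, ?_⟩
  · obtain ⟨lm, lM, -, hlM, hl⟩ := B.exists_lam
    have hx : 0 < B.r (P.lam S.x) := Pr ▸ P.lam_pos S.x
    obtain ⟨j1, hj1⟩ := P.exists_θpow_ge (4 * lM / B.r (P.lam S.x))
    replace hj1 := (div_le_iff₀ hx).mp (hj1 j1 le_rfl)
    have hp := P.θpow_pos j1
    have eθ : B'.θ ^ (s * j1) = P.θ ^ j1 := by rw [Pθ, pow_mul]; rfl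
    obtain ⟨τ, hτ, a1, a2⟩ := B'.Dt_cover (s * j1) (τ := fst S.x 1)
      (y := P.θ ^ j1 * (B.r (P.lam S.x) / 2)) (by
        rw [eθ, mul_div_cancel_left₀ _ hp.ne']
        constructor
        · show B.r _ ≤ _; linarith only [hx, hf1, (hf1 S.x 1).1]
        · show _ < B.r _ + B.r (B.lam _); linarith only [hx, hf1, (hf1 S.x 1).2])
    replace a1 : B.r τ.2 ≤ P.θ ^ j1 * (B.r (P.lam S.x) / 2) := a1
    replace a2 : P.θ ^ j1 * (B.r (P.lam S.x) / 2) < B.r τ.2 + B.r (B.lam τ.1) := a2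
    have a3 := (hl τ.1).2.1
    have Sr : S.r = B.r := Pr
    obtain ⟨j2, c1, c2, c3⟩ := ((S.ev_nonneg τ.2 (by rw [Sr]; linarith only [hlM, hj1, a2, a3])).and
      ((S.ev_nonneg (S.T j1 (S.lam S.x) - τ.2 - B.lam τ.1) (by
        rw [map_sub, map_sub, S.r_T, Sr]
        show 0 ≤ P.θ ^ j1 * B.r (P.lam S.x) - _ - _; linarith only [hlM, hj1, a1, a3])).and
        (eventually_ge_atTop (m + 1)))).exists
    obtain ⟨j', hj'⟩ : ∃ j', s * (J + j2) = (j' + 1) + m :=
      ⟨s * (J + j2) - (m + 1), by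
        have : J + j2 ≤ s * (J + j2) := Nat.le_mul_of_pos_left _ (Nat.pos_of_ne_zero hs)
        omega⟩
    obtain ⟨v1, v2, ev⟩ := List.append_of_mem (hpr j' τ.1.1 b τ.1.2 hb)
    obtain ⟨w1, w2, e4, e5⟩ := (hBD _ _ _ _).mp hτ
    have e6 := Slen j2 w1
    have e8 : B'.T (s * j1) (fst S.x 1).2 = S.T j1 (fst S.x 1).2 := by rw [ST]; rfl
    rw [← e5, e8, map_sub, map_sub, ← S.T_add] at e6
    have e7 := Slen1 j2 τ.1.1
    have e9 : im σ ex (s1 * (s * (J + j2)) + K) [τ.1.1] = im σ ex (s1 * m + K) v1 ++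
        (im σ ex (s1 * m + K) [b] ++ im σ ex (s1 * m + K) v2) := by
      rw [hj', show s1 * (j' + 1 + m) + K = s1 * (j' + 1) + (s1 * m + K) by ring, im_add, ev,
        im_append, im_cons]
    simp only [map_sub, ← S.T_add] at c2
    refine ⟨S.φ (S.A (j2 + j1) 0) + S.φ (S.T j2 τ.2) + (im σ ex (s1 * m + K) v1).length,
      fun i hi => ?_⟩
    have e10 := congrArg List.length e9
    simp only [List.length_append] at e10
    have := L1 (j2 + j1) S.x 1 0 (S.φ (S.A (j2 + j1) 0) + S.φ (S.T j2 τ.2) +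
      (im σ ex (s1 * m + K) v1).length + i) ((im σ ex (s1 * (s * (J + j2)) + K) w1).length +
      ((im σ ex (s1 * m + K) v1).length + i)) S.H_center ⟨by omega, by rw [S.en_eq]; omega⟩
      (by push_cast; omega)
    rw [← this, show s1 * (s * (J + (j2 + j1))) + K = s1 * (s * j1) + (s1 * (s * (J + j2)) + K) by
      ring, im_add σ ex (s1 * (s * j1)), e4, im_append, im_cons σ ex _ τ.1.1, get_mid _ _ _ _ (by omega),
      e9, get_mid _ _ _ _ hi]
  · have h0 := sst_main S hCV hK (fun t g i => Φ.f fun e => Lt t g (e + i)) (fun _ _ _ => Φ.bd _)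
      (ε / 2) (by positivity)
    obtain ⟨Cst, hC⟩ := S.near_count w (ε / 8) (by positivity) fun t => by
      clear * - w ε Λ C G S t hJ1 hε
      have h1 : 2 * w / (ε / 8) + 1 ≤ S.φ (S.lam t) := hJ1 t
      have h2 : 2 * w / (ε / 8) ≤ S.φ (S.lam t) := by linarith only [h1]
      rw [div_le_iff₀ (by positivity)] at h2; linarith only [h2]
    obtain ⟨L0, N0, h1⟩ := BOe.perturb (a := Φ.ev u) (fun _ => Φ.bd _) (fun _ => Φ.bd _) h0 hC
      (by positivity) (fun n hn => Φ.loc _ _ fun e he => by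
        obtain ⟨e1, e2, e3⟩ := S.st_eq (S.st_H n) (not_not.mp hn e he)
        simp only [u, add_comm e n, SST.off, e1, e2, e3]
        congr 1; ring)
    refine ⟨L0, N0, fun N hN π => (h1 N hN π).trans ?_⟩
    have : (0 : ℝ) ≤ ε * N := by positivity
    linarith only [this]

theorem hd0l (hCV : CV) {A B : Type} [Nonempty A] [Fintype B] [Nonempty B] (τ : B → List B)
    (hτ : ∀ b, τ b ≠ []) (ex : B → List A) (θ : ℝ) (hθ : 1 < θ) (c : B → ℝ) (hc0 : ∀ b, 0 < c b)
    (hc : ∀ b, Tendsto (fun n => (((it τ n [b]).flatMap ex).length : ℝ) - c b * θ ^ n) atTop (𝓝 0))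
    (Φ : WF A) (ε : ℝ) (hε : 0 < ε) :
    ∃ (W : Set (List A)) (L : ℕ) (b0 : B), BLK Φ W ε ∧ ∀ m0, ∃ m ≥ m0, ∀ v,
      v <:+: (it τ m [b0]).flatMap ex → L ≤ v.length → v ∈ W := by
  obtain ⟨Λ, _, Bs, K, hlen, hBD⟩ := exists_base' τ ex θ hθ c hc0 hc
  obtain ⟨s, hs, hid, hterm⟩ := exists_term τ hτ
  have tr : ∀ a b c, b ∈ it τ s [a] → c ∈ it τ s [b] → c ∈ it τ s [a] := fun a b c h1 h2 => by
    rw [← hid 1, mul_add, mul_one, it_add, mem_it]; exact ⟨b, h1, h2⟩
  have cl : ∀ k a b c, b ∈ it τ s [a] → c ∈ it τ (s * k) [b] → c ∈ it τ s [a] := by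
    intro k a b c h1 h2
    rw [← hid k, mul_add, mul_one, add_comm, it_add, mem_it]; exact ⟨b, h1, h2⟩
  obtain ⟨b1⟩ := ‹Nonempty B›
  obtain ⟨b0, -, hb⟩ := hterm b1
  have hself : b0 ∈ it τ s [b0] := by
    obtain ⟨b', h1, -⟩ := hterm b0
    exact tr _ _ _ h1 (hb _ h1)
  obtain ⟨u, h1, h2⟩ := cls_seq' hCV Pool.Agent.Lib.ANT.katai_fin τ ex Bs K hlen hBD s hs
    (fun b => b ∈ it τ s [b0]) b0 hself (fun k a b ha hb => cl k _ _ _ ha hb)
    (fun j a b ha hb' => (hid j a b).mpr (tr _ _ _ (hb a ha) hb')) Φ (ε / 2) (by positivity)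
  obtain ⟨L, hL⟩ := BLK_of_BOe Φ u (by positivity) h2
  refine ⟨_, L, b0, hL.mono subset_rfl (by linarith only []), fun m0 => ⟨s * m0 + K, ?_, fun v hv hl => ?_⟩⟩
  · have := Nat.le_mul_of_pos_left m0 (Nat.pos_of_ne_zero hs)
    omega
  · obtain ⟨ι, hι⟩ := h1 b0 hself m0
    exact ⟨hl, hι.sub hv⟩

end Pool.Agent.SB
end
end

-- merged part: Pool.Agent.Work.MP_cf06ef_an.B19
section
-- merged part: Pool.Agent.Work.MP_cf06ef_an.B4
section
/-! The core estimate: few coincidences of dilated positions force cancellation. -/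

set_option autoImplicit false
open Finset Filter Topology
open ArithmeticFunction (moebius)

namespace Pool.Agent.SB
open Pool.Agent.PT

open Classical in
lemma pairs_le {ι : Type} (T : Finset ι) (st en : ι → ℕ)
    (hd : ∀ τ ∈ T, ∀ τ' ∈ T, τ ≠ τ' → Disjoint (Ico (st τ) (en τ)) (Ico (st τ') (en τ')))
    (p q : ℕ) (hp : 0 < p) (hq : 0 < q) :
    ((T ×ˢ T).filter fun z => ∃ m, p * m ∈ Ico (st z.1) (en z.1) ∧
      q * m ∈ Ico (st z.2) (en z.2)).card ≤ 2 * T.card := by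
  set f : ι × ι → ℕ := fun z => max (st z.1 ⌈/⌉ p) (st z.2 ⌈/⌉ q) with hf
  have key : ∀ z : ι × ι, (∃ m, p * m ∈ Ico (st z.1) (en z.1) ∧ q * m ∈ Ico (st z.2) (en z.2)) →
      p * f z ∈ Ico (st z.1) (en z.1) ∧ q * f z ∈ Ico (st z.2) (en z.2) := by
    rintro z ⟨m, h1, h2⟩
    rw [mem_Ico] at h1 h2 ⊢
    rw [mem_Ico]
    have a1 : f z ≤ m :=
      max_le ((ceilDiv_le_iff_le_mul hp).2 h1.1) ((ceilDiv_le_iff_le_mul hq).2 h2.1)
    exact ⟨⟨(ceilDiv_le_iff_le_mul hp).1 (le_max_left _ _),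
      (Nat.mul_le_mul_left p a1).trans_lt h1.2⟩,
      (ceilDiv_le_iff_le_mul hq).1 (le_max_right _ _), (Nat.mul_le_mul_left q a1).trans_lt h2.2⟩
  refine (card_le_card_of_injOn (t := T.image (fun τ => st τ ⌈/⌉ p) ∪ T.image (fun τ => st τ ⌈/⌉ q))
    f (fun z hz => ?_) (fun z hz z' hz' h => ?_)).trans ?_
  · rw [mem_coe, mem_filter, mem_product] at hz
    rw [mem_coe, mem_union]
    rcases max_choice (st z.1 ⌈/⌉ p) (st z.2 ⌈/⌉ q) with h | h
    · exact Or.inl (mem_image.2 ⟨z.1, hz.1.1, h.symm⟩)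
    · exact Or.inr (mem_image.2 ⟨z.2, hz.1.2, h.symm⟩)
  · rw [mem_coe, mem_filter, mem_product] at hz hz'
    have k1 := key z hz.2
    have k2 := key z' hz'.2
    rw [← h] at k2
    refine Prod.ext ?_ ?_
    · by_contra hne
      exact disjoint_left.1 (hd _ hz.1.1 _ hz'.1.1 hne) k1.1 k2.1
    · by_contra hne
      exact disjoint_left.1 (hd _ hz.1.2 _ hz'.1.2 hne) k1.2 k2.2
  · refine (card_union_le _ _).trans ?_
    have := card_image_le (s := T) (f := fun τ => st τ ⌈/⌉ p)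
    have := card_image_le (s := T) (f := fun τ => st τ ⌈/⌉ q)
    omega

/-- the criterion of Katai, with one range of summation for each pair of primes. -/
lemma B4_katai (ε : ℝ) (hε : 0 < ε) :
    ∃ P0 : Finset ℕ, (∀ p ∈ P0, p.Prime) ∧ ∃ δ > (0 : ℝ), ∃ N0 : ℕ, ∀ N ≥ N0, ∀ a : ℕ → ℝ,
      (∀ n, |a n| ≤ 1) → (∀ p ∈ P0, ∀ q ∈ P0, p ≠ q →
        |∑ m ∈ Icc 1 (N / max p q), a (p * m) * a (q * m)| ≤ δ * N) →
      ∑ n ∈ Icc 1 N, mu n * a n ≤ ε * N := by
  obtain ⟨F, hF, hC⟩ := Pool.Agent.Lib.ANT.exists_finset_sum_inv_ge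
    Pool.Agent.Lib.ANT.not_summable_inv_primes (max 1 ((12 / ε) ^ 2))
  have hP : ∀ p ∈ F, p.Prime := fun p hp => hF hp
  refine ⟨F, hP, (ε / 4) ^ 2 / (F.sup id + 1 : ℕ), by positivity, F.card,
    fun N hN a ha hc => ?_⟩
  have h := Pool.Agent.Lib.ANT.katai_at (fun n => (moebius n : ℂ)) (fun n => (a n : ℂ))
    Pool.Agent.Lib.ANT.norm_moebius_le_one (fun n => by simpa using ha n) F hP
    (fun p hp m h => Pool.Agent.Lib.ANT.moebius_prime_mul (hP p hp) h) (ε := (ε / 4) ^ 2)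
    (by positivity) N hN
    (fun p hp q hq hpq => by
      have e : ∑ m ∈ Icc 1 (N / max p q), (a (p * m) : ℂ) * (starRingEnd ℂ) (a (q * m) : ℂ) =
          ((∑ m ∈ Icc 1 (N / max p q), a (p * m) * a (q * m) : ℝ) : ℂ) := by
        push_cast
        simp only [Complex.conj_ofReal]
      rw [e, Complex.norm_real, Real.norm_eq_abs]
      refine (hc p hp q hq hpq).trans ?_
      have h0 : 0 < max p q := lt_max_of_lt_left (hP p hp).pos
      have h1 : max p q ≤ F.sup id + 1 :=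
        (max_le (Finset.le_sup (f := id) hp) (Finset.le_sup (f := id) hq)).trans (Nat.le_succ _)
      rw [div_mul_eq_mul_div, mul_div_assoc]
      exact mul_le_mul_of_nonneg_left (div_le_div_of_nonneg_left (by positivity)
        (by exact_mod_cast h0) (by exact_mod_cast h1)) (by positivity))
  rw [Real.sqrt_sq (by positivity)] at h
  have e : ∑ n ∈ Icc 1 N, (moebius n : ℂ) * (a n : ℂ) = ((∑ n ∈ Icc 1 N, mu n * a n : ℝ) : ℂ) := by
    push_cast
    simp only [mu_cast]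
  rw [e, Complex.norm_real, Real.norm_eq_abs] at h
  refine (le_abs_self _).trans ?_
  set L : ℝ := ∑ p ∈ F, (p : ℝ)⁻¹
  have h1 : 1 ≤ L := (le_max_left _ _).trans hC
  have h2 : 12 / ε ≤ √L := Real.le_sqrt_of_sq_le ((le_max_right _ _).trans hC)
  have h3 : 1 ≤ √L := Real.one_le_sqrt.2 h1
  have h4 : √L * √L = L := Real.mul_self_sqrt (by linarith only [h1])
  rw [div_le_iff₀ hε] at h2
  have h5 : 4 * √L + 2 ≤ ε / 2 * L := by clear * - L ε h2 h3 hε h4; linarith only [h2, h3, hε, h4, Mathlib.Tactic.Linarith.mul_zero_eq (Mathlib.Tactic.Linarith.sub_neg_of_lt hε) (sub_eq_zero_of_eq h4), mul_nonneg_of_nonpos_of_nonpos (Mathlib.Tactic.Linarith.sub_nonpos_of_le h2) (Mathlib.Tactic.Linarith.sub_nonpos_of_le h3)]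
  refine le_of_mul_le_mul_left (h.trans ?_) (by linarith only [h1] : 0 < L)
  rw [← mul_assoc]
  exact mul_le_mul_of_nonneg_right (by clear * - L ε h5; linarith only [h5]) (by positivity)

/-- the sum of Moebius over the tiles at a given offset. -/
noncomputable def B4G (X : Finset ℕ) (ℓ : ℕ) (i : ℤ) : ℝ :=
  if 0 ≤ i ∧ i < ℓ then ∑ u ∈ X, mu (u + i.toNat) else 0

/-- the tile average, unnormalised. -/
noncomputable def B4A (X : Finset ℕ) (ℓ : ℕ) (m : ℕ) : ℝ := ∑ u ∈ X, B4G X ℓ ((m : ℤ) - u)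

section
variable {X : Finset ℕ} {ℓ N : ℕ}

lemma B4G_le (i : ℤ) : |B4G X ℓ i| ≤ X.card := by
  unfold B4G
  split_ifs
  · refine (abs_sum_le_sum_abs _ _).trans ((sum_le_sum fun u _ => mu_abs_le _).trans ?_)
    simp
  · simp

lemma B4G_ne {i : ℤ} (h : B4G X ℓ i ≠ 0) : 0 ≤ i ∧ i < ℓ := by
  by_contra hc
  exact h (if_neg hc)

lemma B4G_nat {i : ℕ} (h : i < ℓ) : B4G X ℓ i = ∑ u ∈ X, mu (u + i) := by
  unfold B4G
  rw [if_pos ⟨by omega, by omega⟩, Int.toNat_natCast]

lemma B4_inj (hs : ∀ u ∈ X, ∀ v ∈ X, u < v → u + ℓ ≤ v) {u v b c : ℕ} (hu : u ∈ X) (hv : v ∈ X)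
    (hb : b < ℓ) (hc : c < ℓ) (h : u + b = v + c) : u = v := by
  rcases lt_trichotomy u v with h1 | h1 | h1
  · have := hs u hu v hv h1; omega
  · exact h1
  · have := hs v hv u hu h1; omega

lemma B4_card (hX : ∀ u ∈ X, 1 ≤ u ∧ u + ℓ ≤ N + 1)
    (hs : ∀ u ∈ X, ∀ v ∈ X, u < v → u + ℓ ≤ v) : X.card * ℓ ≤ N := by
  have := card_le_card_of_injOn (s := X ×ˢ range ℓ) (t := Icc 1 N) (fun z => z.1 + z.2)
    (fun z hz => by
      simp only [coe_product, Set.mem_prod, mem_coe, mem_range] at hz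
      have := hX _ hz.1
      simp only [coe_Icc, Set.mem_Icc]
      omega)
    (fun z hz z' hz' h => by
      simp only [coe_product, Set.mem_prod, mem_coe, mem_range] at hz hz'
      have h1 := B4_inj hs hz.1 hz'.1 hz.2 hz'.2 h
      refine Prod.ext h1 ?_
      simp only at h
      omega)
  simpa using this

lemma B4A_le (hs : ∀ u ∈ X, ∀ v ∈ X, u < v → u + ℓ ≤ v) (m : ℕ) : |B4A X ℓ m| ≤ X.card := by
  unfold B4A
  by_cases h : ∃ u ∈ X, B4G X ℓ ((m : ℤ) - u) ≠ 0
  · obtain ⟨u, hu, h⟩ := h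
    rw [sum_eq_single_of_mem u hu fun v hv hne => ?_]
    · exact B4G_le _
    · by_contra h'
      have h1 := B4G_ne h
      have h2 := B4G_ne h'
      exact hne (B4_inj hs hv hu (b := m - v) (c := m - u) (by omega) (by omega) (by omega))
  · push Not at h
    rw [sum_eq_zero h]
    simp

lemma B4_energy (hX : ∀ u ∈ X, 1 ≤ u ∧ u + ℓ ≤ N + 1) :
    ∑ m ∈ Icc 1 N, mu m * B4A X ℓ m = ∑ i ∈ range ℓ, (∑ u ∈ X, mu (u + i)) ^ 2 := by
  simp only [B4A, mul_sum]
  rw [sum_comm]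
  have e : ∀ u ∈ X, ∑ m ∈ Icc 1 N, mu m * B4G X ℓ ((m : ℤ) - u) =
      ∑ i ∈ range ℓ, mu (u + i) * ∑ v ∈ X, mu (v + i) := by
    intro u hu
    have := hX u hu
    rw [← sum_subset (s₁ := Ico u (u + ℓ)) (fun m hm => by rw [mem_Ico] at hm; rw [mem_Icc]; omega)
      (fun m _ hm => by
        rw [mem_Ico] at hm
        by_contra h
        have := B4G_ne (right_ne_zero_of_mul h)
        omega), sum_Ico_eq_sum_range, Nat.add_sub_cancel_left]
    refine sum_congr rfl fun i hi => ?_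
    rw [← B4G_nat (mem_range.1 hi)]
    congr 2
    push_cast
    ring
  rw [sum_congr rfl e, sum_comm]
  exact sum_congr rfl fun i _ => by rw [← sum_mul, sq]

/-- the contribution of one cell of pairs. -/
lemma B4_cell (hX : ∀ u ∈ X, 1 ≤ u ∧ u + ℓ ≤ N + 1)
    (hs : ∀ u ∈ X, ∀ v ∈ X, u < v → u + ℓ ≤ v) {ι : Type} (I : Finset ι) (t : ι → ℕ) {w q : ℕ}
    (hw : 1 ≤ w) (hq : 0 < q) (ht : ∀ i ∈ I, t i < w) (y : ℤ) (J : Finset ℕ) {B : ℝ}
    (hB : ∑ u ∈ Icc 1 N, |∑ i ∈ I, mu (u + t i)| ≤ B) :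
    ∑ j ∈ J, |∑ i ∈ I, B4G X ℓ (q * j + (y + t i))| ≤ B + 2 * w * (X.card * I.card) := by
  classical
  rw [← sum_filter_add_sum_filter_not J (fun j : ℕ => 0 ≤ q * j + y ∧ q * j + y + w ≤ ℓ)]
  refine add_le_add (le_trans ?_ hB) ?_
  · set J1 := J.filter (fun j : ℕ => 0 ≤ q * j + y ∧ q * j + y + w ≤ ℓ) with hJ1
    have h1 : ∀ j ∈ J1, |∑ i ∈ I, B4G X ℓ (q * j + (y + t i))| ≤
        ∑ u ∈ X, |∑ i ∈ I, mu (u + (q * j + y).toNat + t i)| := by
      intro j hj
      have hj' := (mem_filter.1 hj).2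
      refine le_trans (le_of_eq ?_) (abs_sum_le_sum_abs _ _)
      rw [sum_comm]
      congr 1
      refine sum_congr rfl fun i hi => ?_
      have := ht i hi
      have e : (q : ℤ) * j + (y + t i) = (((q * j + y).toNat + t i : ℕ) : ℤ) := by
        push_cast
        rw [Int.toNat_of_nonneg hj'.1]
        ring
      rw [e, B4G_nat (by omega)]
      simp only [add_assoc]
    refine (sum_le_sum h1).trans ?_
    rw [← sum_product']
    have hinj : Set.InjOn (fun z : ℕ × ℕ => z.2 + (q * z.1 + y).toNat) (J1 ×ˢ X : Finset (ℕ × ℕ)) := by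
      intro z hz z' hz' h
      simp only [coe_product, Set.mem_prod, mem_coe, hJ1, mem_filter] at hz hz'
      simp only at h
      have h2 := B4_inj hs hz.2 hz'.2 (by omega) (by omega) h
      refine Prod.ext ?_ h2
      have h3 : (q : ℤ) * z.1 = q * z'.1 := by omega
      have h4 := mul_left_cancel₀ (by omega : (q : ℤ) ≠ 0) h3
      exact_mod_cast h4
    rw [← sum_image (f := fun u => |∑ i ∈ I, mu (u + t i)|) hinj]
    refine sum_le_sum_of_subset_of_nonneg (fun u hu => ?_) fun _ _ _ => abs_nonneg _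
    obtain ⟨z, hz, rfl⟩ := mem_image.1 hu
    simp only [mem_product, hJ1, mem_filter] at hz
    have := hX _ hz.2
    rw [mem_Icc]
    omega
  · set J2 := J.filter (fun j : ℕ => ¬ (0 ≤ q * j + y ∧ q * j + y + w ≤ ℓ)) with hJ2
    set S : Finset ℤ := Ioo (-(w : ℤ)) 0 ∪ Ioo ((ℓ : ℤ) - w) ℓ with hS
    rw [← sum_filter_of_ne (p := fun j : ℕ => q * j + y ∈ S) fun j hj hne => ?_]
    · refine (sum_le_card_nsmul _ _ ((X.card : ℝ) * I.card) fun j _ => ?_).trans ?_
      · refine (abs_sum_le_sum_abs _ _).trans ((sum_le_card_nsmul _ _ _ fun i _ => B4G_le _).trans ?_)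
        rw [nsmul_eq_mul, mul_comm]
      · rw [nsmul_eq_mul]
        refine mul_le_mul_of_nonneg_right ?_ (by positivity)
        have h1 := card_le_card_of_injOn (s := J2.filter fun j : ℕ => q * j + y ∈ S) (t := S)
          (fun j : ℕ => q * j + y) (fun j hj => (mem_filter.1 hj).2) (fun j _ j' _ h => by
            have h3 : (q : ℤ) * j = q * j' := by simpa using h
            have h4 := mul_left_cancel₀ (by omega : (q : ℤ) ≠ 0) h3
            exact_mod_cast h4)
        have h2 : S.card ≤ 2 * w := by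
          refine (card_union_le _ _).trans ?_
          simp only [Int.card_Ioo]
          omega
        exact_mod_cast h1.trans h2
    · have hj' := (mem_filter.1 hj).2
      obtain ⟨i, hi, h⟩ := exists_ne_zero_of_sum_ne_zero (abs_ne_zero.1 hne)
      have h1 := B4G_ne h
      have h2 := ht i hi
      simp only [hS, mem_union, mem_Ioo]
      omega

open Classical in
/-- the correlation as a sum over the overlapping pairs. -/
lemma B4_corr_eq (hX : ∀ u ∈ X, 1 ≤ u ∧ u + ℓ ≤ N + 1) {p q : ℕ} (hp : 0 < p) (hq : 0 < q) :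
    ∑ m ∈ Icc 1 (N / max p q), B4A X ℓ (p * m) * B4A X ℓ (q * m) =
      ∑ z ∈ (X ×ˢ X).filter (fun z => ∃ m, p * m ∈ Ico z.1 (z.1 + ℓ) ∧ q * m ∈ Ico z.2 (z.2 + ℓ)),
        ∑ j ∈ range (ℓ + 1), B4G X ℓ (p * j - (z.1 % p : ℕ)) *
          B4G X ℓ (q * j + (q * (z.1 / p : ℕ) - z.2)) := by
  have e0 : ∀ m : ℕ, B4A X ℓ (p * m) * B4A X ℓ (q * m) = ∑ z ∈ X ×ˢ X,
      B4G X ℓ (((p * m : ℕ) : ℤ) - z.1) * B4G X ℓ (((q * m : ℕ) : ℤ) - z.2) := fun m => by
    rw [B4A, B4A, sum_mul_sum, ← sum_product']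
  simp only [e0]
  rw [sum_comm]
  rw [← sum_filter_of_ne (s := X ×ˢ X)
    (p := fun z => ∃ m, p * m ∈ Ico z.1 (z.1 + ℓ) ∧ q * m ∈ Ico z.2 (z.2 + ℓ)) fun z _ hne => ?_]
  · refine sum_congr rfl fun z hz => ?_
    have hz' := mem_product.1 (mem_filter.1 hz).1
    have h1 := hX _ hz'.1
    have h2 := hX _ hz'.2
    have hdm := Nat.div_add_mod z.1 p
    have hm := Nat.mod_lt z.1 hp
    have e : ∑ j ∈ range (ℓ + 1), B4G X ℓ (p * j - (z.1 % p : ℕ)) *
          B4G X ℓ (q * j + (q * (z.1 / p : ℕ) - z.2)) =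
        ∑ m ∈ Ico (z.1 / p) (z.1 / p + (ℓ + 1)), B4G X ℓ (((p * m : ℕ) : ℤ) - z.1) *
          B4G X ℓ (((q * m : ℕ) : ℤ) - z.2) := by
      rw [sum_Ico_eq_sum_range, Nat.add_sub_cancel_left]
      refine sum_congr rfl fun j _ => ?_
      have hdm' : (z.1 : ℤ) = p * (z.1 / p : ℕ) + (z.1 % p : ℕ) := by exact_mod_cast hdm.symm
      congr 2
      · generalize ((z.1 % p : ℕ) : ℤ) = r at *
        rw [Nat.cast_mul, Nat.cast_add]
        linear_combination hdm'
      · rw [Nat.cast_mul, Nat.cast_add]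
        ring
    rw [e]
    refine sum_congr_of_eq_on_inter (fun m _ hm2 => ?_) (fun m _ hm2 => ?_) fun _ _ _ => rfl
    · by_contra h
      have a1 := B4G_ne (left_ne_zero_of_mul h)
      apply hm2
      rw [mem_Ico]
      have a2 : z.1 ≤ p * m := by omega
      have a3 : p * m < z.1 + ℓ := by omega
      refine ⟨Nat.div_le_of_le_mul a2, ?_⟩
      by_contra a4
      have a5 : p * (z.1 / p + (ℓ + 1)) ≤ p * m := Nat.mul_le_mul_left p (by omega)
      have a6 : ℓ ≤ p * ℓ := Nat.le_mul_of_pos_left ℓ hp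
      rw [mul_add, mul_add, mul_one] at a5
      omega
    · by_contra h
      have a1 := B4G_ne (left_ne_zero_of_mul h)
      have a2 := B4G_ne (right_ne_zero_of_mul h)
      apply hm2
      rw [mem_Icc]
      refine ⟨Nat.pos_of_ne_zero ?_, ?_⟩
      · rintro rfl
        simp only [mul_zero] at a1
        omega
      · rw [Nat.le_div_iff_mul_le (lt_max_of_lt_left hp), mul_comm]
        rcases max_choice p q with h3 | h3 <;> rw [h3] <;> omega
  · obtain ⟨m, _, h⟩ := exists_ne_zero_of_sum_ne_zero hne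
    have a1 := B4G_ne (left_ne_zero_of_mul h)
    have a2 := B4G_ne (right_ne_zero_of_mul h)
    refine ⟨m, ?_, ?_⟩ <;> rw [mem_Ico] <;> omega

open Classical in
/-- the bound for the correlation. -/
lemma B4_corr (hX : ∀ u ∈ X, 1 ≤ u ∧ u + ℓ ≤ N + 1)
    (hs : ∀ u ∈ X, ∀ v ∈ X, u < v → u + ℓ ≤ v) {p q w : ℕ} (hp : 0 < p) (hq : 0 < q) (hw : 1 ≤ w)
    {δ k : ℝ} (hδ : 0 < δ)
    (hcv : ∀ (I : Finset (ℕ × ℕ)) (t : ℕ × ℕ → ℕ), (∀ i ∈ I, t i < w) →
      (∀ s, ((I.filter fun i => t i = s).card : ℝ) ≤ k) →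
      ∑ u ∈ Icc 1 N, |∑ i ∈ I, mu (u + t i)| ≤ N * (k / δ + δ * I.card))
    (hk : ∀ D : ℤ, (((X ×ˢ X).filter fun z =>
        (∃ m, p * m ∈ Ico z.1 (z.1 + ℓ) ∧ q * m ∈ Ico z.2 (z.2 + ℓ)) ∧
          (q : ℤ) * z.1 - p * z.2 = D).card : ℝ) ≤ k) :
    |∑ m ∈ Icc 1 (N / max p q), B4A X ℓ (p * m) * B4A X ℓ (q * m)| ≤
      X.card * ((p * ((q + 1) * (ℓ + 1) / w + 1) : ℕ) * (N * (k / δ)) +
        (N * δ + 2 * w * X.card) * (2 * X.card)) := by
  rw [B4_corr_eq hX hp hq]
  set Pr := (X ×ˢ X).filter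
    (fun z => ∃ m, p * m ∈ Ico z.1 (z.1 + ℓ) ∧ q * m ∈ Ico z.2 (z.2 + ℓ)) with hPr
  have hcard : Pr.card ≤ 2 * X.card := by
    refine pairs_le X id (fun u => u + ℓ) (fun u hu v hv hne => ?_) p q hp hq
    rw [disjoint_left]
    intro a h1 h2
    simp only [id, mem_Ico] at h1 h2
    exact hne (B4_inj hs hu hv (b := a - u) (c := a - v) (by omega) (by omega) (by omega))
  set s : ℕ × ℕ → ℕ := fun z => q * (z.1 / p) + q * (ℓ + 1) - z.2 with hsdef
  have hsz : ∀ z ∈ Pr, z.2 ≤ q * (z.1 / p) + q * (ℓ + 1) ∧ s z < (q + 1) * (ℓ + 1) := by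
    intro z hz
    obtain ⟨_, m, h1, h2⟩ := mem_filter.1 hz
    rw [mem_Ico] at h1 h2
    have hdm := Nat.div_add_mod z.1 p
    have hm := Nat.mod_lt z.1 hp
    have a1 : z.1 / p ≤ m := Nat.div_le_of_le_mul h1.1
    have a2 : m ≤ z.1 / p + (ℓ + 1) := by
      by_contra a4
      have a5 : p * (z.1 / p + (ℓ + 1)) ≤ p * m := Nat.mul_le_mul_left p (by omega)
      have a6 : ℓ ≤ p * ℓ := Nat.le_mul_of_pos_left ℓ hp
      rw [mul_add, mul_add, mul_one] at a5
      omega
    have a3 := Nat.mul_le_mul_left q a1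
    have a4 := Nat.mul_le_mul_left q a2
    rw [mul_add] at a4
    simp only [hsdef]
    rw [add_mul, one_mul]
    omega
  set g : ℕ × ℕ → ℕ × ℕ := fun z => (z.1 % p, s z / w) with hg
  set C := range p ×ˢ range ((q + 1) * (ℓ + 1) / w + 1) with hC
  have hmaps : ∀ z ∈ Pr, g z ∈ C := by
    intro z hz
    simp only [hg, hC, mem_product, mem_range]
    exact ⟨Nat.mod_lt _ hp, Nat.lt_succ_of_le (Nat.div_le_div_right (hsz z hz).2.le)⟩
  have hy : ∀ c : ℕ × ℕ, ∀ z ∈ Pr.filter (fun z => g z = c), z.1 % p = c.1 ∧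
      (q : ℤ) * (z.1 / p : ℕ) - z.2 = (w * c.2 - q * (ℓ + 1) : ℤ) + (s z % w : ℕ) := by
    intro c z hz
    obtain ⟨hz1, rfl⟩ := mem_filter.1 hz
    refine ⟨rfl, ?_⟩
    have a1 := (hsz z hz1).1
    have a2 : ((s z : ℕ) : ℤ) = w * (s z / w : ℕ) + (s z % w : ℕ) := by
      exact_mod_cast (Nat.div_add_mod (s z) w).symm
    have a3 : ((s z : ℕ) : ℤ) = q * (z.1 / p : ℕ) + q * (ℓ + 1) - z.2 := by
      simp only [hsdef]
      rw [Nat.cast_sub a1, Nat.cast_add, Nat.cast_mul, Nat.cast_mul, Nat.cast_add, Nat.cast_one]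
    simp only [hg]
    linear_combination a2 - a3
  rw [← sum_fiberwise_of_maps_to hmaps]
  have hcell : ∀ c ∈ C, |∑ z ∈ Pr.filter (fun z => g z = c), ∑ j ∈ range (ℓ + 1),
      B4G X ℓ (p * j - (z.1 % p : ℕ)) * B4G X ℓ (q * j + (q * (z.1 / p : ℕ) - z.2))| ≤
      X.card * (N * (k / δ) + (N * δ + 2 * w * X.card) * (Pr.filter (fun z => g z = c)).card) := by
    clear * - C g Pr s w hw ℓ X q N k δ hX hs hq hcv p hy hk
    intro c _
    have ht : ∀ z ∈ Pr.filter (fun z => g z = c), s z % w < w := fun z _ => Nat.mod_lt _ hw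
    have h1 := B4_cell hX hs (Pr.filter (fun z => g z = c)) (fun z => s z % w) hw hq ht
      (w * c.2 - q * (ℓ + 1)) (range (ℓ + 1)) (hcv _ _ ht fun r => by
        refine le_trans ?_ (hk (p * (w * c.2 - q * (ℓ + 1) + r) + q * c.1))
        refine Nat.cast_le.2 (card_le_card fun z hz => ?_)
        obtain ⟨hz1, hz2⟩ := mem_filter.1 hz
        obtain ⟨b1, b2⟩ := hy c z hz1
        obtain ⟨b3, b4⟩ := mem_filter.1 (mem_filter.1 hz1).1
        refine mem_filter.2 ⟨b3, b4, ?_⟩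
        have hdm' : (z.1 : ℤ) = p * (z.1 / p : ℕ) + (z.1 % p : ℕ) := by
          exact_mod_cast (Nat.div_add_mod z.1 p).symm
        rw [b1] at hdm'
        rw [hz2] at b2
        linear_combination q * hdm' + p * b2)
    rw [sum_comm]
    refine (abs_sum_le_sum_abs _ _).trans ?_
    refine le_trans (sum_le_sum (g := fun j : ℕ => X.card * |∑ z ∈ Pr.filter (fun z => g z = c),
      B4G X ℓ (q * j + (w * c.2 - q * (ℓ + 1) + (s z % w : ℕ)))|) fun j _ => ?_) ?_
    · rw [sum_congr rfl (g := fun z => B4G X ℓ (p * j - (c.1 : ℕ)) *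
        B4G X ℓ (q * j + (w * c.2 - q * (ℓ + 1) + (s z % w : ℕ)))) fun z hz => by
          rw [(hy c z hz).1, (hy c z hz).2], ← mul_sum, abs_mul]
      exact mul_le_mul_of_nonneg_right (B4G_le _) (abs_nonneg _)
    · rw [← mul_sum]
      refine mul_le_mul_of_nonneg_left (h1.trans (le_of_eq ?_)) (by positivity)
      ring
  refine (abs_sum_le_sum_abs _ _).trans ((sum_le_sum hcell).trans ?_)
  rw [← mul_sum, sum_add_distrib, sum_const, ← mul_sum, ← Nat.cast_sum,
    ← card_eq_sum_card_fiberwise hmaps, nsmul_eq_mul, hC, card_product, card_range, card_range]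
  refine mul_le_mul_of_nonneg_left (add_le_add le_rfl ?_) (by clear * - X; positivity)
  exact mul_le_mul_of_nonneg_left (by exact_mod_cast hcard) (by clear * - N δ w X hδ hw hcard; positivity)

end

open Classical in
theorem core (hCV : CV) (ε : ℝ) (hε : 0 < ε) : ∃ (P0 : Finset ℕ) (κ : ℝ) (ℓ0 : ℕ),
    (∀ p ∈ P0, p.Prime) ∧ 0 < κ ∧ 1 ≤ ℓ0 ∧ ∀ ℓ ≥ ℓ0, ∃ N0 : ℕ, ∀ N ≥ N0, ∀ X : Finset ℕ,
      (∀ u ∈ X, 1 ≤ u ∧ u + ℓ ≤ N + 1) → (∀ u ∈ X, ∀ v ∈ X, u < v → u + ℓ ≤ v) →
      (∀ p ∈ P0, ∀ q ∈ P0, p ≠ q → ∀ D : ℤ, (((X ×ˢ X).filter fun z =>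
        (∃ m, p * m ∈ Ico z.1 (z.1 + ℓ) ∧ q * m ∈ Ico z.2 (z.2 + ℓ)) ∧
          (q : ℤ) * z.1 - p * z.2 = D).card : ℝ) * ℓ ≤ κ * N) →
      ∑ i ∈ range ℓ, |∑ u ∈ X, mu (u + i)| ≤ ε * N := by
  obtain ⟨P0, hP0, d, hd, N1, hK⟩ := B4_katai (ε ^ 2) (by positivity)
  set δ : ℝ := d / 20 with hδdef
  have hδ : 0 < δ := by positivity
  set B : ℕ := P0.sup id + 1 with hB
  set C : ℝ := B * (2 * B / δ + 1) with hC
  have hB0 : (0 : ℝ) < B := by positivity
  have hC0 : 0 < C := by positivity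
  refine ⟨P0, d * ε * δ / (2 * C), ⌈1 / δ⌉₊ + 1, hP0, by positivity, by omega, fun ℓ hℓ => ?_⟩
  have hℓ1 : 1 ≤ ℓ := by omega
  have hℓr : (1 : ℝ) ≤ ℓ := by exact_mod_cast hℓ1
  have hℓδ : 1 ≤ δ * ℓ := by
    clear * - δ ℓ P0 d hℓ hδ
    have h1 : 1 / δ ≤ ℓ := (Nat.le_ceil _).trans (by exact_mod_cast (by omega : ⌈1 / δ⌉₊ ≤ ℓ))
    rw [div_le_iff₀ hδ] at h1
    linarith only [h1]
  set w : ℕ := ⌈δ * ℓ⌉₊ with hw
  have hw1 : δ * ℓ ≤ w := Nat.le_ceil _
  have hw2 : (w : ℝ) ≤ 2 * (δ * ℓ) := by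
    clear * - δ ℓ d hd hℓ1 w hℓδ
    have := Nat.ceil_lt_add_one (by positivity : 0 ≤ δ * ℓ)
    linarith only [hℓδ, this]
  have hw3 : 1 ≤ w := by exact_mod_cast hℓδ.trans hw1
  obtain ⟨N2, hcv⟩ := hCV δ hδ w
  refine ⟨max N1 N2, fun N hN X hX hs hk => ?_⟩
  have hn : (X.card : ℝ) * ℓ ≤ N := by exact_mod_cast B4_card hX hs
  have hN0 : (0 : ℝ) ≤ N := by positivity
  rcases le_or_gt ((X.card : ℝ) * ℓ) (ε * N) with hsm | hbig
  · refine le_trans ?_ hsm
    refine (sum_le_card_nsmul _ _ (X.card : ℝ) fun i hi => ?_).trans ?_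
    · rw [← B4G_nat (mem_range.1 hi)]
      exact B4G_le _
    · rw [card_range, nsmul_eq_mul, mul_comm]
  have hn0 : (0 : ℝ) < X.card := by
    clear * - X ε N ℓ hbig hε
    by_contra h
    have : (X.card : ℝ) = 0 := le_antisymm (not_lt.1 h) (by positivity)
    rw [this, zero_mul] at hbig
    exact absurd hbig (not_lt.2 (by positivity))
  have hE := hK N (le_of_max_le_left hN) (fun m => B4A X ℓ m / X.card)
    (fun m => by
      rw [abs_div, abs_of_pos hn0, div_le_one hn0]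
      exact B4A_le hs m)
    (fun p hp q hq hpq => by
      have h1 := B4_corr hX hs (hP0 p hp).pos (hP0 q hq).pos hw3 hδ
        (k := d * ε * δ / (2 * C) * N / ℓ)
        (fun I t ht hf => hcv N (le_of_max_le_right hN) _ I t _ ht (by convert hf))
        (fun D => by clear * - ℓ p q D X d ε δ C N hℓr hk hp hq hpq; rw [le_div_iff₀ (by clear * - ℓ hℓr D hk hp hpq hq p q; linarith)]; exact hk p hp q hq hpq D)
      simp only [div_mul_div_comm]
      rw [← sum_div, abs_div, abs_of_pos (mul_pos hn0 hn0), div_le_iff₀ (mul_pos hn0 hn0)]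
      refine h1.trans ?_
      have hpB : (p : ℝ) ≤ B := by
        exact_mod_cast (Finset.le_sup (f := id) hp).trans (Nat.le_succ _)
      have hqB : (q : ℝ) + 1 ≤ B := by
        exact_mod_cast Nat.succ_le_succ (Finset.le_sup (f := id) hq)
      have c1 : (((q + 1) * (ℓ + 1) / w : ℕ) : ℝ) ≤ 2 * B / δ := by
        clear * - q ℓ w B δ d hℓδ hw1 hδ hqB hℓr hℓ1 hB0
        refine Nat.cast_div_le.trans ?_
        push_cast
        rw [div_le_div_iff₀ (by linarith only [hℓδ, hw1]) hδ]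
        have : ((q : ℝ) + 1) * (ℓ + 1) ≤ B * (2 * ℓ) :=
          mul_le_mul hqB (by linarith only [hℓr]) (by positivity) hB0.le
        have := mul_le_mul_of_nonneg_right this hδ.le
        have := mul_le_mul_of_nonneg_left hw1 hB0.le
        nlinarith
      have c2 : ((p * ((q + 1) * (ℓ + 1) / w + 1) : ℕ) : ℝ) ≤ C := by
        clear * - p q ℓ w C B δ hpB d c1 hB0
        rw [Nat.cast_mul, Nat.cast_add, Nat.cast_one]
        exact mul_le_mul hpB (by linarith only [c1]) (by positivity) hB0.le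
      have c3 : ((p * ((q + 1) * (ℓ + 1) / w + 1) : ℕ) : ℝ) *
          (N * (d * ε * δ / (2 * C) * N / ℓ / δ)) ≤ d / 2 * N * X.card := by
        clear * - p q ℓ w N d ε δ C X c2 hd hε B P0 hℓ1 hC0 hδ hℓr hbig
        refine (mul_le_mul_of_nonneg_right c2 (by positivity)).trans ?_
        have e : C * (N * (d * ε * δ / (2 * C) * N / ℓ / δ)) = d / 2 * N * (ε * N / ℓ) := by
          field_simp
        rw [e]
        refine mul_le_mul_of_nonneg_left ?_ (by positivity)
        rw [div_le_iff₀ (by linarith only [hℓr])]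
        exact hbig.le
      have c4 : N * δ + 2 * w * X.card ≤ d / 4 * N := by
        clear * - w X δ ℓ hw2 hn0 N hn hδ d hδdef
        have := mul_le_mul_of_nonneg_right hw2 hn0.le
        have := mul_le_mul_of_nonneg_left hn hδ.le
        have : d = 20 * δ := by rw [hδdef]; ring
        nlinarith
      have c5 := mul_le_mul_of_nonneg_right c4 (by clear * - X hn0 c4; positivity : (0 : ℝ) ≤ 2 * X.card)
      have c6 := mul_le_mul_of_nonneg_left (add_le_add c3 c5) hn0.le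
      refine c6.trans (le_of_eq ?_)
      ring)
  simp only [← mul_div_assoc] at hE
  rw [← sum_div, B4_energy hX, div_le_iff₀ hn0] at hE
  have h1 : ∀ i ∈ range ℓ, |∑ u ∈ X, mu (u + i)| ≤
      (∑ u ∈ X, mu (u + i)) ^ 2 / (2 * ε * X.card) + ε * X.card / 2 := by
    clear * - ℓ X ε hε hn0
    intro i _
    rw [← sq_abs, div_add_div _ _ (by positivity) (by positivity), le_div_iff₀ (by positivity)]
    linarith only [sq_nonneg (|∑ u ∈ X, mu (u + i)| - ε * X.card), sq_nonneg (|∑ u ∈ X, mu (u + i)| - ε * ↑(#X))]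
  refine (sum_le_sum h1).trans ?_
  rw [sum_add_distrib, ← sum_div, sum_const, card_range, nsmul_eq_mul]
  have h2 : (∑ i ∈ range ℓ, (∑ u ∈ X, mu (u + i)) ^ 2) / (2 * ε * X.card) ≤ ε * N / 2 := by
    clear * - ℓ X ε N hε hn0 hE
    rw [div_le_iff₀ (by positivity)]
    exact hE.trans (le_of_eq (by ring))
  have h3 := mul_le_mul_of_nonneg_left hn hε.le
  clear * - ℓ X ε N h2 h3
  linarith only [h2, h3]

theorem core2 (hCV : CV) (ε : ℝ) (hε : 0 < ε) : ∃ (P0 : Finset ℕ) (κ : ℝ) (ℓ0 : ℕ),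
    (∀ p ∈ P0, p.Prime) ∧ 0 < κ ∧ ∀ ℓ ≥ ℓ0, ∃ N0 : ℕ, ∀ N ≥ N0, ∀ (ι : Type) (T : Finset ι)
      (st ln : ι → ℕ) (Off : ι → Finset ℕ) (Λ : ℝ),
      (∀ τ ∈ T, 1 ≤ st τ ∧ st τ + ln τ ≤ N + 1 ∧ Λ ≤ ln τ) →
      (∀ τ ∈ T, ∀ τ' ∈ T, τ ≠ τ' →
        Disjoint (Ico (st τ) (st τ + ln τ)) (Ico (st τ') (st τ' + ln τ'))) →
      (∀ τ ∈ T, ∀ o ∈ Off τ, o + ℓ ≤ ln τ ∧ ∀ o' ∈ Off τ, o < o' → o + ℓ ≤ o') →
      (∀ p ∈ P0, ∀ q ∈ P0, p ≠ q → ∀ τ ∈ T, ∀ τ' ∈ T, ∀ D : ℤ,
        (((Off τ ×ˢ Off τ').filter fun z => (q : ℤ) * z.1 - p * z.2 = D).card : ℝ) * ℓ ≤ κ * Λ) →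
      ∑ i ∈ range ℓ, |∑ τ ∈ T, ∑ o ∈ Off τ, mu (st τ + o + i)| ≤ ε * N := by
  classical
  obtain ⟨P0, κ, ℓ0, hP0, hκ, hℓ0, h⟩ := core hCV ε hε
  refine ⟨P0, κ / 2, ℓ0, hP0, by positivity, fun ℓ hℓ => ?_⟩
  obtain ⟨N0, h⟩ := h ℓ hℓ
  refine ⟨N0, fun N hN ι T st ln Off Λ hT hd hO hk => ?_⟩
  have hℓ1 : 1 ≤ ℓ := hℓ0.trans hℓ
  set X := T.biUnion fun τ => (Off τ).image (st τ + ·) with hXdef
  have hmem : ∀ u ∈ X, ∃ τ ∈ T, ∃ o ∈ Off τ, u = st τ + o := by
    intro u hu
    obtain ⟨τ, hτ, hu⟩ := mem_biUnion.1 hu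
    obtain ⟨o, ho, rfl⟩ := mem_image.1 hu
    exact ⟨τ, hτ, o, ho, rfl⟩
  have e : ∀ i, ∑ τ ∈ T, ∑ o ∈ Off τ, mu (st τ + o + i) = ∑ u ∈ X, mu (u + i) := by
    intro i
    rw [hXdef, sum_biUnion fun τ hτ τ' hτ' hne => ?_]
    · exact sum_congr rfl fun τ _ => by rw [sum_image fun a _ b _ h => by simpa using h]
    · refine (hd τ hτ τ' hτ' hne).mono (fun u hu => ?_) fun u hu => ?_
      · obtain ⟨o, ho, rfl⟩ := mem_image.1 hu
        have := (hO τ hτ o ho).1
        rw [mem_Ico]; omega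
      · obtain ⟨o, ho, rfl⟩ := mem_image.1 hu
        have := (hO τ' hτ' o ho).1
        rw [mem_Ico]; omega
  simp only [e]
  refine h N hN X (fun u hu => ?_) (fun u hu v hv huv => ?_) fun p hp q hq hpq D => ?_
  · obtain ⟨τ, hτ, o, ho, rfl⟩ := hmem u hu
    have := hT τ hτ
    have := (hO τ hτ o ho).1
    omega
  · obtain ⟨τ, hτ, o, ho, rfl⟩ := hmem u hu
    obtain ⟨τ', hτ', o', ho', rfl⟩ := hmem v hv
    have a1 := hO τ hτ o ho
    have a2 := (hO τ' hτ' o' ho').1
    by_cases hne : τ = τ'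
    · subst hne
      have := a1.2 o' ho' (by omega)
      omega
    · by_contra hc
      exact disjoint_left.1 (hd τ hτ τ' hτ' hne)
        (show st τ' + o' ∈ _ by rw [mem_Ico]; omega) (by rw [mem_Ico]; omega)
  · set Pr := (T ×ˢ T).filter fun z => ∃ m, p * m ∈ Ico (st z.1) (st z.1 + ln z.1) ∧
      q * m ∈ Ico (st z.2) (st z.2 + ln z.2) with hPr
    have hcard : Pr.card ≤ 2 * T.card := by
      have := pairs_le T st (fun τ => st τ + ln τ) hd p q (hP0 p hp).pos (hP0 q hq).pos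
      convert this
    set S : ι × ι → Finset (ℕ × ℕ) := fun z => (Off z.1 ×ˢ Off z.2).filter fun o =>
      (q : ℤ) * o.1 - p * o.2 = D - q * st z.1 + p * st z.2 with hS
    refine le_trans (mul_le_mul_of_nonneg_right (Nat.cast_le.2 (le_trans (card_le_card
      (t := Pr.biUnion fun z => (S z).image fun o => (st z.1 + o.1, st z.2 + o.2)) fun z hz => ?_)
      (card_biUnion_le.trans (sum_le_sum fun z _ => card_image_le)))) (by positivity)) ?_
    · obtain ⟨hz1, ⟨m, h1, h2⟩, h3⟩ := mem_filter.1 hz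
      obtain ⟨τ, hτ, o, ho, e1⟩ := hmem _ (mem_product.1 hz1).1
      obtain ⟨τ', hτ', o', ho', e2⟩ := hmem _ (mem_product.1 hz1).2
      have a1 := (hO τ hτ o ho).1
      have a2 := (hO τ' hτ' o' ho').1
      rw [mem_Ico] at h1 h2
      refine mem_biUnion.2 ⟨(τ, τ'), mem_filter.2 ⟨mem_product.2 ⟨hτ, hτ'⟩, m, ?_, ?_⟩,
        mem_image.2 ⟨(o, o'), mem_filter.2 ⟨mem_product.2 ⟨ho, ho'⟩, ?_⟩,
          Prod.ext e1.symm e2.symm⟩⟩
      · simp only [mem_Ico]; omega
      · simp only [mem_Ico]; omega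
      · rw [e1, e2] at h3
        push_cast at h3
        linear_combination h3
    · rw [Nat.cast_sum, sum_mul]
      refine (sum_le_card_nsmul _ _ (κ / 2 * Λ) fun z hz => ?_).trans ?_
      · have := mem_product.1 (mem_filter.1 hz).1
        exact hk p hp q hq hpq z.1 this.1 z.2 this.2 _
      rw [nsmul_eq_mul]
      rcases le_or_gt Λ 0 with hΛ | hΛ
      · exact (mul_nonpos_of_nonneg_of_nonpos (by clear * - ι Pr hΛ; positivity)
          (mul_nonpos_of_nonneg_of_nonpos (by positivity) hΛ)).trans (by positivity)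
      have b1 : ∑ τ ∈ T, ln τ ≤ N := by
        have := card_le_card (s := T.biUnion fun τ => Ico (st τ) (st τ + ln τ)) (t := Icc 1 N)
          fun u hu => by
            obtain ⟨τ, hτ, hu⟩ := mem_biUnion.1 hu
            have := hT τ hτ
            rw [mem_Ico] at hu
            rw [mem_Icc]; omega
        rw [card_biUnion hd] at this
        simpa using this
      have b2 : (T.card : ℝ) * Λ ≤ N := by
        have := card_nsmul_le_sum T (fun τ => (ln τ : ℝ)) Λ fun τ hτ => (hT τ hτ).2.2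
        rw [nsmul_eq_mul, ← Nat.cast_sum] at this
        exact this.trans (by exact_mod_cast b1)
      have b3 : (Pr.card : ℝ) ≤ 2 * T.card := by exact_mod_cast hcard
      have b4 := mul_le_mul_of_nonneg_right b3 (by positivity : 0 ≤ κ / 2 * Λ)
      have b5 := mul_le_mul_of_nonneg_left b2 hκ.le
      linarith only [b4, b5]

end Pool.Agent.SB
end

-- merged part: Pool.Agent.Work.MP_cf06ef_an.B11
section
/-! Non Pisot case: few coincidences of dilated positions of subtiles. -/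

set_option autoImplicit false
set_option linter.unusedSectionVars false
open Finset Filter Topology

namespace Pool.Agent.SB
open Pool.Agent.PT
variable {A : Type} [Fintype A] [DecidableEq A] {σ : A → List A}

/-- positions of the subtiles of level `k` and type `b` in `σ^(n+k) c`. -/
def offs (σ : A → List A) (n k : ℕ) (c b : A) : Finset ℕ :=
  ((range (len σ n c)).filter fun i => (it σ n [c])[i]? = some b).image
    fun i => (it σ k ((it σ n [c]).take i)).length

lemma b11_flatMap {B : Type} (f : B → List A) (l : List B) {v v2 : List A} {b : A}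
    (h : l.flatMap f = v ++ b :: v2) : ∃ w1 t w2 v' v'', l = w1 ++ t :: w2 ∧
      f t = v' ++ b :: v'' ∧ v = w1.flatMap f ++ v' := by
  induction l generalizing v with
  | nil => simp at h
  | cons a l ih =>
    rw [List.flatMap_cons] at h
    rcases List.append_eq_append_iff.mp h with ⟨s, rfl, e⟩ | ⟨s, e1, e⟩
    · obtain ⟨w1, t, w2, v', v'', rfl, h2, rfl⟩ := ih e
      exact ⟨a :: w1, t, w2, v', v'', rfl, h2, by simp⟩
    · cases s with
      | nil =>
        obtain ⟨w1, t, w2, v', v'', rfl, h2, h3⟩ := ih (v := []) (by simpa using e.symm)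
        refine ⟨a :: w1, t, w2, v', v'', rfl, h2, ?_⟩
        rw [List.flatMap_cons, List.append_assoc, ← h3, e1]; simp
      | cons x s =>
        simp only [List.cons_append, List.cons.injEq] at e
        obtain ⟨rfl, -⟩ := e
        exact ⟨[], a, l, v, s, rfl, e1, by simp⟩

lemma b11_split {w : List A} {i : ℕ} {b : A} (h : w[i]? = some b) :
    w = w.take i ++ b :: w.drop (i + 1) := by
  obtain ⟨hi, rfl⟩ := List.getElem?_eq_some_iff.mp h
  rw [← List.drop_eq_getElem_cons hi, List.take_append_drop]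

namespace Cls
variable (S : Cls σ)

open Classical in
/-- the part of the image of a letter before a chosen base letter. -/
noncomputable def hd (c : A) : List A :=
  if h : S.p c then (List.append_of_mem (S.prim c S.a0 h S.pa0)).choose else []

lemma hd_spec {c : A} (h : S.p c) : ∃ t, σ c = S.hd c ++ S.a0 :: t := by
  rw [hd, dif_pos h]
  exact (List.append_of_mem (S.prim c S.a0 h S.pa0)).choose_spec

/-- the part of an iterated image before a chosen base letter. -/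
noncomputable def rw' : ℕ → A → List A
  | 0, c => S.hd c
  | n + 1, c => it σ 1 (rw' n c) ++ S.hd S.a0

lemma rw'_spec (n : ℕ) {c : A} (h : S.p c) : ∃ t, it σ (n + 1) [c] = S.rw' n c ++ S.a0 :: t := by
  induction n with
  | zero => simpa [it_one', rw'] using S.hd_spec h
  | succ n ih =>
    obtain ⟨t, ht⟩ := ih
    obtain ⟨t', ht'⟩ := S.hd_spec S.pa0
    refine ⟨t' ++ it σ 1 t, ?_⟩
    rw [it_succ', ht, it_append, it_cons, it_one', ht', rw']; simp

/-- the return vector attached to a position. -/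
noncomputable def vec (n : ℕ) (c : A) (v : List A) (b : A) : A → ℤ :=
  MM σ (ab v) + ab (S.hd b) - ab (S.rw' n c)

lemma vec_mem {n : ℕ} {c b : A} {v v2 : List A} (hc : S.p c) (hb : S.p b)
    (h : it σ n [c] = v ++ b :: v2) : S.vec n c v b ∈ S.Lam := by
  obtain ⟨t, ht⟩ := S.rw'_spec n hc
  obtain ⟨t', ht'⟩ := S.hd_spec hb
  have h1 : it σ (n + 1) [c] = (it σ 1 v ++ S.hd b) ++ S.a0 :: (t' ++ it σ 1 v2) := by
    rw [it_succ', h, it_append, it_cons, it_one', ht']; simp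
  have := S.diff_mem hc h1 ht
  rwa [ab_append, ← MM_ab] at this

lemma rw'_diff (n : ℕ) (t c : A) : ab (S.rw' n t) - ab (S.rw' (n + 1) c) =
    (MM σ ^ n) (ab (S.hd t) - ab (S.rw' 1 c)) := by
  induction n with
  | zero => simp [rw']
  | succ n ih =>
    rw [pow_succ', Module.End.mul_apply, ← ih, map_sub, MM_ab, MM_ab]
    rw [show S.rw' (n + 1 + 1) c = it σ 1 (S.rw' (n + 1) c) ++ S.hd S.a0 from rfl,
      show S.rw' (n + 1) t = it σ 1 (S.rw' n t) ++ S.hd S.a0 from rfl, ab_append, ab_append]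
    abel

lemma vec_succ (n : ℕ) (c t b : A) (w1 v' : List A) :
    S.vec (n + 1) c (it σ n w1 ++ v') b = (MM σ ^ n) (S.vec 1 c w1 t) + S.vec n t v' b := by
  have h1 := S.rw'_diff n t c
  have h2 : MM σ ((MM σ ^ n) (ab w1)) = (MM σ ^ n) (MM σ (ab w1)) := by
    rw [← Module.End.mul_apply, ← Module.End.mul_apply, ← pow_succ', ← pow_succ]
  simp only [vec, ab_append, map_add, ← MM_pow_ab, h2, map_sub] at h1 ⊢
  linear_combination h1

variable {S}

lemma NP.eig_pow (h : S.NP) (n : ℕ) {γ : A → ℤ} (hγ : γ ∈ S.Lam) :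
    h.φ ((MM σ ^ n) γ) = h.β ^ n * h.φ γ := by
  induction n with
  | zero => simp
  | succ n ih =>
    rw [pow_succ', Module.End.mul_apply, h.eig _ (S.Lam_pow n hγ), ih, pow_succ']; ring

open Classical in
/-- the labelled class letters of a word. -/
noncomputable def NP.dec (h : S.NP) (c : A) : List A → List A → List ({c // S.p c} × ℂ)
  | _, [] => []
  | acc, a :: w => (if ha : S.p a then [(⟨a, ha⟩, h.φ (S.vec 1 c acc a))] else []) ++
      NP.dec h c (acc ++ [a]) w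

lemma NP.dec_append (h : S.NP) (c : A) (acc w1 w2 : List A) :
    h.dec c acc (w1 ++ w2) = h.dec c acc w1 ++ h.dec c (acc ++ w1) w2 := by
  induction w1 generalizing acc with
  | nil => simp [NP.dec]
  | cons a w ih => simp [NP.dec, ih]

lemma NP.dec_cons (h : S.NP) (c : A) (acc : List A) {a : A} (ha : S.p a) (w : List A) :
    h.dec c acc (a :: w) = (⟨a, ha⟩, h.φ (S.vec 1 c acc a)) :: h.dec c (acc ++ [a]) w := by
  simp [NP.dec, ha]

lemma NP.dec_sum (h : S.NP) (c : A) (acc w : List A) :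
    ((h.dec c acc w).map fun e => S.L e.1).sum = (w.map S.L).sum := by
  induction w generalizing acc with
  | nil => simp [NP.dec]
  | cons a w ih =>
    by_cases ha : S.p a
    · rw [h.dec_cons c acc ha]; simp [ih]
    · simp [NP.dec, ha, ih, S.zero a ha]

/-- the self-similar system of the class. -/
noncomputable def NP.sss (h : S.NP) : SSS {c // S.p c} where
  θ := S.θ
  β := h.β
  δ := h.β * h.δ
  L := fun c => S.L c
  ch := fun c => h.dec c [] (σ c)
  a0 := ⟨S.a0, S.pa0⟩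
  one_le := h.one_le
  lt := h.lt
  δ_ne := mul_ne_zero (fun e => by have := h.one_le; rw [e, norm_zero] at this; linarith) h.δ_ne
  pos := fun c => S.pos c c.2
  eig := fun c => by
    rw [h.dec_sum]
    simpa [it_one'] using S.eig 1 [c.1]
  prim := fun c c' => by
    obtain ⟨w1, w2, e⟩ := List.append_of_mem (S.prim c c' c.2 c'.2)
    refine ⟨h.φ (S.vec 1 c w1 c'), ?_⟩
    rw [e, h.dec_append, h.dec_cons _ _ c'.2]; simp
  two := fun c => by
    obtain ⟨w1, w, w2, e, hδ⟩ := h.two c c.2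
    have hw : w ∈ S.Ret := ⟨1, c, c.2, w1, w2, by rw [it_one', e]; simp⟩
    refine ⟨h.φ (S.vec 1 c w1 S.a0), h.dec c [] w1, h.dec c (w1 ++ [S.a0]) w,
      h.dec c (w1 ++ [S.a0] ++ w ++ [S.a0]) w2, ?_⟩
    rw [e, h.dec_append, h.dec_cons _ _ S.pa0, h.dec_append, h.dec_cons _ _ S.pa0]
    have : h.φ (S.vec 1 c (w1 ++ S.a0 :: w) S.a0) = h.φ (S.vec 1 c w1 S.a0) + h.β * h.δ := by
      rw [← hδ, ← h.eig _ (S.ret_mem hw), ← map_add]
      congr 1
      simp only [vec, ab_append, map_add]; abel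
    simp [this]

lemma NP.tile (h : S.NP) (n : ℕ) {c b : A} (hc : S.p c) (hb : S.p b) {v v2 : List A}
    (e : it σ n [c] = v ++ b :: v2) :
    h.sss.Tile n ⟨c, hc⟩ (v.map S.L).sum (h.φ (S.vec n c v b)) := by
  induction n generalizing c v v2 with
  | zero =>
    rw [it_zero] at e
    cases v with
    | nil =>
      simp only [List.nil_append, List.cons.injEq] at e
      obtain ⟨rfl, -⟩ := e
      simpa [vec, rw'] using SSS.Tile.zero h.sss ⟨c, hc⟩
    | cons a v => simp at e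
  | succ n ih =>
    rw [it_succ, it_one', it_eq_flatMap] at e
    obtain ⟨w1, t, w2, v', v'', e1, e2, rfl⟩ := b11_flatMap _ _ e
    have ht : S.p t := by
      by_contra ht
      exact S.low_it n ht (by rw [e2]; simp) hb
    have hch : h.sss.ch ⟨c, hc⟩ = h.dec c [] w1 ++ (⟨t, ht⟩, h.φ (S.vec 1 c w1 t)) ::
        h.dec c (w1 ++ [t]) w2 := by
      show h.dec c [] (σ c) = _
      rw [e1, h.dec_append, h.dec_cons _ _ ht]; simp
    have := SSS.Tile.succ h.sss hch (ih ht e2)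
    rw [← it_eq_flatMap, S.vec_succ n c t, map_add, List.map_append, List.sum_append, S.eig,
      h.eig_pow n (S.vec_mem (n := 1) hc ht (by rw [it_one', e1]))]
    have h3 : h.sss.tot (h.dec c [] w1) = (w1.map S.L).sum := h.dec_sum c [] w1
    rw [h3] at this
    exact this

lemma take_lt (S : Cls σ) {w : List A} {i j : ℕ} {b : A} (hb : S.p b) (h : w[i]? = some b)
    (hij : i < j) : ((w.take i).map S.L).sum < ((w.take j).map S.L).sum := by
  have h1 : w.take (i + 1) = w.take i ++ [b] := by rw [List.take_add_one, h]; rfl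
  have h2 : ((w.take (i + 1)).map S.L).sum ≤ ((w.take j).map S.L).sum :=
    ((List.take_prefix_take_left (l := w) (show i + 1 ≤ j from hij)).sublist.map _).sum_le_sum
      fun x hx => by obtain ⟨a, -, rfl⟩ := List.mem_map.mp hx; exact S.L_nonneg a
  rw [h1] at h2
  simp only [List.map_append, List.sum_append, List.map_singleton, List.sum_singleton] at h2
  linarith only [h2, hb, S.pos b hb]

end Cls

theorem Cls.NP.atom {S : Cls σ} (h : S.NP) (P0 : Finset ℕ) (hP0 : ∀ p ∈ P0, 1 ≤ p) (κ : ℝ)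
    (hκ : 0 < κ) : ∃ n : ℕ, ∀ k0 : ℕ, ∃ k ≥ k0, ∀ p ∈ P0, ∀ q ∈ P0, p ≠ q →
      ∀ c c' b, S.p c → S.p c' → S.p b → ∀ D : ℤ,
        (((offs σ n k c b ×ˢ offs σ n k c' b).filter
          fun z => (q : ℤ) * z.1 - p * z.2 = D).card : ℝ) ≤ κ * S.θ ^ n := by
  classical
  have key : ∀ᶠ n in atTop, ∀ p ∈ P0, ∀ q ∈ P0, p ≠ q →
      ∀ (c c' : {c // S.p c}) (ρ0 : ℝ) (ζ0 : ℂ) (s : Finset ℝ),
      (∀ ρ ∈ s, ∃ ρ' ζ ζ', h.sss.Tile n c ρ ζ ∧ h.sss.Tile n c' ρ' ζ' ∧ q * ρ - p * ρ' = ρ0 ∧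
        q * ζ - p * ζ' = ζ0) → (s.card : ℝ) ≤ κ * h.sss.θ ^ n := by
    rw [eventually_all_finset]
    intro p hp
    rw [eventually_all_finset]
    intro q hq
    by_cases hpq : p = q
    · simp [hpq]
    · filter_upwards [h.sss.atom p q (hP0 p hp) (hP0 q hq) hpq κ hκ] with n hn _ using hn
  obtain ⟨n, hn⟩ := key.exists
  refine ⟨n, fun k0 => ?_⟩
  set V : Finset (A → ℤ) := univ.biUnion fun c =>
    (range (len σ n c)).image fun i => ab ((it σ n [c]).take i) with hV
  obtain ⟨k, hk, hg⟩ := h.good (((P0 ×ˢ P0) ×ˢ (V ×ˢ V) ×ˢ (V ×ˢ V)).image fun x =>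
    (x.1.2 : ℤ) • (x.2.1.1 - x.2.1.2) - (x.1.1 : ℤ) • (x.2.2.1 - x.2.2.2)) k0
  refine ⟨k, hk, fun p hp q hq hpq c c' b hc hc' hb D => ?_⟩
  set w := it σ n [c] with hw
  set w' := it σ n [c'] with hw'
  obtain ⟨J, hJ⟩ : ∃ J : Finset ℕ, ∀ i, i ∈ J ↔
      i ∈ ((range (len σ n c)).filter fun i => w[i]? = some b) ∧
      ∃ i' ∈ (range (len σ n c')).filter fun i => w'[i]? = some b,
      (q : ℤ) * (it σ k (w.take i)).length - p * (it σ k (w'.take i')).length = D :=
    ⟨_, fun i => mem_filter⟩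
  have c1 : ((offs σ n k c b ×ˢ offs σ n k c' b).filter
      fun z => (q : ℤ) * z.1 - p * z.2 = D).card ≤ J.card := by
    clear * - q p D A σ n k c b c' w J w' hJ hP0 hp
    refine le_trans (card_le_card_of_injOn (t := J.image fun i => (it σ k (w.take i)).length)
      Prod.fst (fun z hz => ?_) fun z hz z' hz' e => ?_) card_image_le
    · simp only [coe_filter, mem_product, Set.mem_ofPred_eq, offs] at hz
      obtain ⟨⟨h1, h2⟩, h3⟩ := hz
      obtain ⟨i, hi, e1⟩ := mem_image.mp h1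
      obtain ⟨i', hi', e2⟩ := mem_image.mp h2
      exact mem_coe.mpr (mem_image.mpr ⟨i, (hJ i).mpr ⟨hi, i', hi', by rw [e1, e2]; exact h3⟩, e1⟩)
    · simp only [coe_filter, Set.mem_ofPred_eq] at hz hz'
      have h1 := hz.2
      have h2 := hz'.2
      rw [← e] at h2
      have h3 : (p : ℤ) * z.2 = p * z'.2 := by linarith only [hz, h2]
      have h4 : (p : ℤ) ≠ 0 := by have := hP0 p hp; positivity
      exact Prod.ext e (by exact_mod_cast mul_left_cancel₀ h4 h3)
  have c2 : J.card = (J.image fun i => ((w.take i).map S.L).sum).card := by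
    refine (card_image_of_injOn fun i hi j hj e => ?_).symm
    have hi' := (mem_filter.mp ((hJ i).mp hi).1).2
    have hj' := (mem_filter.mp ((hJ j).mp hj).1).2
    rcases lt_trichotomy i j with h1 | h1 | h1
    · exact absurd e (S.take_lt hb hi' h1).ne
    · exact h1
    · exact absurd e (S.take_lt hb hj' h1).ne'
  refine le_trans (Nat.cast_le.mpr (c1.trans c2.le)) ?_
  rcases J.eq_empty_or_nonempty with hJe | ⟨i2, hi2⟩
  · rw [hJe]; simpa using (mul_pos hκ (S.θpow_pos n)).le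
  obtain ⟨hi2, i2', hi2', e2⟩ := (hJ i2).mp hi2
  obtain ⟨r2, g2⟩ := mem_filter.mp hi2
  obtain ⟨r2', g2'⟩ := mem_filter.mp hi2'
  refine hn p hp q hq hpq ⟨c, hc⟩ ⟨c', hc'⟩
    (q * ((w.take i2).map S.L).sum - p * ((w'.take i2').map S.L).sum)
    (q * h.φ (S.vec n c (w.take i2) b) - p * h.φ (S.vec n c' (w'.take i2') b)) _ fun ρ hρ => ?_
  obtain ⟨i, hi, rfl⟩ := mem_image.mp hρ
  obtain ⟨hi, i', hi', e1⟩ := (hJ i).mp hi
  obtain ⟨r1, g1⟩ := mem_filter.mp hi
  obtain ⟨r1', g1'⟩ := mem_filter.mp hi'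
  have mV : ∀ d j, j ∈ range (len σ n d) → ab ((it σ n [d]).take j) ∈ V := fun d j hj =>
    mem_biUnion.mpr ⟨d, mem_univ _, mem_image_of_mem _ hj⟩
  obtain ⟨f1, f2⟩ := hg ((q : ℤ) • (ab (w.take i) - ab (w.take i2)) -
      (p : ℤ) • (ab (w'.take i') - ab (w'.take i2')))
    (mem_image.mpr ⟨((p, q), (ab (w.take i), ab (w.take i2)), ab (w'.take i'), ab (w'.take i2')),
      by simp only [mem_product]; exact ⟨⟨hp, hq⟩, ⟨mV c i r1, mV c i2 r2⟩, mV c' i' r1',
        mV c' i2' r2'⟩, rfl⟩)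
    (by clear * - A σ k q i w i2 p i' w' i2' D e2 e1; simp only [map_sub, map_smul, hh_ab, smul_eq_mul]; linarith only [e2, e1])
  have hM : MM σ ((q : ℤ) • (ab (w.take i) - ab (w.take i2)) -
      (p : ℤ) • (ab (w'.take i') - ab (w'.take i2'))) =
      (q : ℤ) • (S.vec n c (w.take i) b - S.vec n c (w.take i2) b) -
      (p : ℤ) • (S.vec n c' (w'.take i') b - S.vec n c' (w'.take i2') b) := by
    simp only [map_sub, map_smul, Cls.vec]; congr 2 <;> abel
  rw [hM] at f2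
  have f3 := f2 (S.Lam.sub_mem
    (S.Lam.smul_mem _ (S.Lam.sub_mem (S.vec_mem hc hb (b11_split g1))
      (S.vec_mem hc hb (b11_split g2))))
    (S.Lam.smul_mem _ (S.Lam.sub_mem (S.vec_mem hc' hb (b11_split g1'))
      (S.vec_mem hc' hb (b11_split g2')))))
  simp only [map_sub, map_smul, S.rr_ab] at f1 f3
  simp only [zsmul_eq_mul, Int.cast_natCast] at f1 f3
  exact ⟨_, _, _, h.tile n hc hb (b11_split g1), h.tile n hc' hb (b11_split g1'),
    by linear_combination f1, by linear_combination f3⟩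

end Pool.Agent.SB
end

-- merged part: Pool.Agent.Work.MP_cf06ef_an.B12
section
/-! Non Pisot case: the main statement. -/

set_option autoImplicit false
open Finset Filter Topology
open ArithmeticFunction (moebius)

namespace Pool.Agent.SB
open Pool.Agent.PT
variable {A : Type} [Fintype A] [DecidableEq A] {σ : A → List A}

lemma B12_step {M : Type} [AddCommMonoid M] (F : List A → A → M) (y : List A) (a : A) :
    ∑ b, ∑ i ∈ (range (y ++ [a]).length).filter (fun i => (y ++ [a])[i]? = some b),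
      F ((y ++ [a]).take i) b =
    ∑ b, ∑ i ∈ (range y.length).filter (fun i => y[i]? = some b), F (y.take i) b + F y a := by
  have h : ∀ b, ∑ i ∈ (range (y ++ [a]).length).filter (fun i => (y ++ [a])[i]? = some b),
      F ((y ++ [a]).take i) b =
      ∑ i ∈ (range y.length).filter (fun i => y[i]? = some b), F (y.take i) b +
        if a = b then F y b else 0 := by
    intro b
    rw [sum_filter, sum_filter, List.length_append, List.length_singleton, sum_range_succ]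
    congr 1
    · refine sum_congr rfl fun i hi => ?_
      rw [mem_range] at hi
      rw [List.getElem?_append_left hi, List.take_append_of_le_length hi.le]
    · simp
  simp only [h, sum_add_distrib]
  simp

lemma B12_split {M : Type} [AddCommMonoid M] (k : ℕ) (g : ℕ → M) (y : List A) :
    ∑ j ∈ range (it σ k y).length, g j =
      ∑ b, ∑ i ∈ (range y.length).filter (fun i => y[i]? = some b),
        ∑ j ∈ range (len σ k b), g ((it σ k (y.take i)).length + j) := by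
  induction y using List.reverseRecOn with
  | nil => simp [it_nil]
  | append_singleton y a ih =>
    rw [B12_step (fun v b => ∑ j ∈ range (len σ k b), g ((it σ k v).length + j)), ← ih, it_append,
      List.length_append, sum_range_add, len]

lemma B12_map (f : A → ℝ) (y : List A) :
    (y.map f).sum =
      ∑ b, ∑ _i ∈ (range y.length).filter (fun i => y[i]? = some b), f b := by
  induction y using List.reverseRecOn with
  | nil => simp
  | append_singleton y a ih =>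
    rw [B12_step (fun _ b => f b), ← ih]; simp

omit [Fintype A] [DecidableEq A] in
lemma B12_decomp {y : List A} {i : ℕ} {b : A} (h : y[i]? = some b) :
    y.take (i + 1) = y.take i ++ [b] := by
  rw [List.take_add_one, h]; rfl

omit [Fintype A] [DecidableEq A] in
lemma B12_gap (k : ℕ) {y : List A} {i i' : ℕ} {b : A} (h : y[i]? = some b) (hi : i < i') :
    (it σ k (y.take i)).length + len σ k b ≤ (it σ k (y.take i')).length := by
  have e : y.take i' = y.take i ++ [b] ++ (y.take i').drop (i + 1) := by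
    rw [← B12_decomp h]
    conv_lhs => rw [← List.take_append_drop (i + 1) (y.take i')]
    rw [List.take_take, min_eq_left hi]
  rw [e, it_append, it_append, List.length_append, List.length_append, len]
  omega

omit [Fintype A] [DecidableEq A] in
lemma B12_occ (k : ℕ) {y : List A} {i : ℕ} {b : A} (h : y[i]? = some b) {x : ℤ → A} {u : ℤ}
    (ho : Occ x u (it σ k y)) : Occ x (u + (it σ k (y.take i)).length) (it σ k [b]) := by
  have e : y = y.take i ++ [b] ++ y.drop (i + 1) := by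
    rw [← B12_decomp h, List.take_append_drop]
  rw [e, it_append, it_append] at ho
  exact (Occ_append.mp (Occ_append.mp ho).1).2

omit [Fintype A] in
lemma B12_sum_offs {M : Type} [AddCommMonoid M] (hσ : ∀ a, σ a ≠ []) (n k : ℕ) (c b : A)
    (F : ℕ → M) : ∑ o ∈ offs σ n k c b, F o =
      ∑ i ∈ (range (it σ n [c]).length).filter (fun i => (it σ n [c])[i]? = some b),
        F (it σ k ((it σ n [c]).take i)).length := by
  have hl : 0 < len σ k b := List.length_pos_iff.mpr (it_ne_nil σ hσ k b)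
  refine sum_image fun i hi i' hi' he => ?_
  have h1 := (mem_filter.1 hi).2
  have h2 := (mem_filter.1 hi').2
  rcases lt_trichotomy i i' with h | h | h
  · have := B12_gap (σ := σ) k h1 h; omega
  · exact h
  · have := B12_gap (σ := σ) k h2 h; omega

omit [Fintype A] in
lemma B12_sep (n k : ℕ) (c b : A) (o : ℕ) (ho : o ∈ offs σ n k c b) :
    o + len σ k b ≤ (it σ (n + k) [c]).length ∧
      ∀ o' ∈ offs σ n k c b, o < o' → o + len σ k b ≤ o' := by
  obtain ⟨i, hi, rfl⟩ := mem_image.1 ho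
  obtain ⟨h1, h2⟩ := mem_filter.1 hi
  refine ⟨?_, fun o' ho' hlt => ?_⟩
  · have := B12_gap (σ := σ) k h2 (mem_range.1 h1)
    rwa [len, len, List.take_length, ← it_add] at this
  · obtain ⟨i', hi', rfl⟩ := mem_image.1 ho'
    rcases lt_trichotomy i i' with h | h | h
    · exact B12_gap k h2 h
    · subst h; omega
    · have := B12_gap (σ := σ) k (mem_filter.1 hi').2 h; omega

theorem Cls.NP.main (hCV : CV) {S : Cls σ} (h : S.NP) : S.Main := by
  classical
  intro Φ ε hε K0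
  have : Nonempty A := ⟨S.a0⟩
  set a : ℝ := (Fintype.card A : ℝ) with ha
  have ha0 : 0 ≤ a := Nat.cast_nonneg _
  obtain ⟨P0, κ, ℓ0, hP, hκ, hcore⟩ := core2 hCV (ε / (4 * (a + 1))) (by positivity)
  obtain ⟨c1, c2, hc1, hc2, hlo, hhi⟩ := S.len_bd
  obtain ⟨n, hn⟩ := h.atom P0 (fun p hp => (hP p hp).one_le) (κ * c1 / c2) (by positivity)
  have hT : Tendsto (fun k : ℕ => c1 * S.θ ^ k) atTop atTop :=
    (tendsto_pow_atTop_atTop_of_one_lt S.one_lt).const_mul_atTop hc1
  obtain ⟨k0, hk0⟩ := eventually_atTop.1 ((S.spacer (ε / 4) (by positivity)).and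
    ((hT.eventually_ge_atTop ℓ0).and ((hT.eventually_ge_atTop (8 * Φ.w * (a + 1) / ε)).and
      (eventually_ge_atTop K0))))
  obtain ⟨k, hk, hat⟩ := hn k0
  obtain ⟨hsp, hl0, hw, hK⟩ := hk0 k hk
  have hl : ∀ b, S.p b → ℓ0 ≤ len σ k b := fun b hb => by exact_mod_cast hl0.trans (hlo k b hb)
  choose! N0 hN0 using fun b hb => hcore (len σ k b) (hl b hb)
  refine ⟨n + k, by omega, univ.sup N0, fun N hN x U hU hs => ?_⟩
  obtain ⟨T, t1, t2, t3⟩ := hU.exists_tiles
  choose! c hc using fun τ (hτ : τ ∈ T) => (t1 τ hτ).1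
  have hN' : (0 : ℝ) ≤ N := Nat.cast_nonneg _
  have tot : ∑ τ ∈ T, (τ.2.length : ℝ) ≤ N := by
    have e1 := t3 fun _ => 1
    simp only [sum_const, card_range, nsmul_eq_mul, mul_one] at e1
    have e2 : U.card = ∑ τ ∈ T, τ.2.length := by exact_mod_cast e1
    have e3 := card_le_card hs
    rw [Nat.card_Icc, e2] at e3
    exact_mod_cast (by omega : ∑ τ ∈ T, τ.2.length ≤ N)
  have dec : ∀ {M : Type} [AddCommMonoid M] (g : ℕ → M), ∀ τ ∈ T, ∑ j ∈ range τ.2.length, g j =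
      ∑ b, ∑ o ∈ offs σ n k (c τ) b, ∑ j ∈ range (len σ k b), g (o + j) := by
    intro M _ g τ hτ
    rw [(hc τ hτ).2, it_add, B12_split]
    exact sum_congr rfl fun b _ => (B12_sum_offs S.ne n k (c τ) b
      fun o => ∑ j ∈ range (len σ k b), g (o + j)).symm
  set g : ℕ → ℂ := fun m => (moebius m : ℂ) * Φ.ev x m with hg
  rw [t3 g, sum_congr rfl fun τ hτ => dec (fun j => g (τ.1 + j)) τ hτ, sum_comm]
  have mass : ∀ b, ∑ τ ∈ T, ((offs σ n k (c τ) b).card : ℝ) * len σ k b ≤ N := fun b => by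
    clear * - A T σ n k c b N dec tot
    refine le_trans (sum_le_sum fun τ hτ => ?_) tot
    have e := dec (fun _ => (1 : ℝ)) τ hτ
    simp only [sum_const, card_range, nsmul_eq_mul, mul_one] at e
    rw [e]
    exact single_le_sum (f := fun b => ((offs σ n k (c τ) b).card : ℝ) * len σ k b)
      (fun _ _ => by positivity) (mem_univ b)
  have each : ∀ b, ‖∑ τ ∈ T, ∑ o ∈ offs σ n k (c τ) b, ∑ j ∈ range (len σ k b),
      g (τ.1 + (o + j))‖ ≤ ε / (2 * (a + 1)) * N +
        ∑ τ ∈ T, ∑ _o ∈ offs σ n k (c τ) b, if S.p b then (0 : ℝ) else len σ k b := by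
    clear * - A T σ n k c g ε a N S Φ x U t1 hc hN0 N0 hN c1 hs K0 k0 hlo t2 P0 κ c2 hat hhi hκ
      hc1 hc2 mass hw this hε ha0
    intro b
    by_cases hb : S.p b
    · simp only [hb, if_true, sum_const_zero, add_zero]
      have h1 := Φ.same_word x (T.sigma fun τ => offs σ n k (c τ) b)
        (fun z => z.1.1 + z.2) (it σ k [b]) (by
          rintro ⟨τ, o⟩ hz
          obtain ⟨hτ, ho⟩ := mem_sigma.1 hz
          obtain ⟨i, hi, hio⟩ := mem_image.1 ho
          have := (t1 τ hτ).2.1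
          rw [(hc τ hτ).2, it_add] at this
          rw [← hio]
          push_cast
          exact B12_occ k (mem_filter.1 hi).2 this)
      have h2 := hN0 b hb N ((le_sup (mem_univ b)).trans hN) _ T (fun τ => τ.1)
        (fun τ => τ.2.length) (fun τ => offs σ n k (c τ) b) (c1 * S.θ ^ (n + k))
        (fun τ hτ => by
          have e1 : 0 < τ.2.length := by
            rw [(hc τ hτ).2]; exact List.length_pos_iff.mpr (it_ne_nil σ S.ne _ _)
          have e2 := (t1 τ hτ).2.2.trans hs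
          have e3 := mem_Icc.1 (e2 (show τ.1 ∈ _ from mem_Ico.2 ⟨le_rfl, by omega⟩))
          have e4 := mem_Icc.1 (e2 (show τ.1 + τ.2.length - 1 ∈ _ from
            mem_Ico.2 ⟨by omega, by omega⟩))
          refine ⟨e3.1, by omega, ?_⟩
          rw [(hc τ hτ).2]
          exact hlo _ _ (hc τ hτ).1) t2
        (fun τ hτ o ho => by
          rw [(hc τ hτ).2]; exact B12_sep n k (c τ) b o ho)
        (fun p hp q hq hpq τ hτ τ' hτ' D => by
          have e1 := hat p hp q hq hpq _ _ b (hc τ hτ).1 (hc τ' hτ').1 hb D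
          have e2 := hhi k b
          have e3 := S.θpow_pos n
          calc _ ≤ κ * c1 / c2 * S.θ ^ n * (c2 * S.θ ^ k) :=
                mul_le_mul e1 e2 (Nat.cast_nonneg _) (by positivity)
            _ = _ := by rw [pow_add]; field_simp)
      have h3 : (2 * Φ.w * ((T.sigma fun τ => offs σ n k (c τ) b).card : ℝ)) ≤
          ε / (4 * (a + 1)) * N := by
        have e1 := mass b
        rw [← sum_mul] at e1
        rw [card_sigma, Nat.cast_sum]
        have e0 : (0 : ℝ) ≤ ∑ τ ∈ T, ((offs σ n k (c τ) b).card : ℝ) :=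
          sum_nonneg fun _ _ => Nat.cast_nonneg _
        have e2 := hw.trans (hlo k b hb)
        rw [div_le_iff₀ hε] at e2
        rw [div_mul_eq_mul_div, le_div_iff₀ (by positivity)]
        have e3 := mul_le_mul_of_nonneg_left e2 e0
        linarith only [e3, hε, e1, mul_nonneg_of_nonpos_of_nonpos (le_of_lt (Mathlib.Tactic.Linarith.sub_neg_of_lt hε)) (Mathlib.Tactic.Linarith.sub_nonpos_of_le e1)]
      rw [sum_sigma] at h1
      simp only [sum_sigma] at h1
      simp only [← add_assoc]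
      have e : ε / (2 * (a + 1)) * N = ε / (4 * (a + 1)) * N + ε / (4 * (a + 1)) * N := by
        field_simp; ring
      rw [e]
      exact h1.trans (add_le_add h2 h3)
    · simp only [hb, if_false]
      refine le_trans ?_ (le_add_of_nonneg_left (by positivity))
      refine norm_sum_le_of_le _ fun τ _ => norm_sum_le_of_le _ fun o _ => ?_
      refine (norm_sum_le_of_le _ fun j _ => Φ.term_le x _ _).trans ?_
      simp
  refine (norm_sum_le_of_le _ fun b _ => each b).trans ?_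
  rw [sum_add_distrib, sum_const, card_univ, nsmul_eq_mul, ← ha, sum_comm]
  have f1 : a * (ε / (2 * (a + 1)) * N) ≤ ε / 2 * N := by
    clear * - a ε N A this hε hN'
    rw [← mul_assoc]
    refine mul_le_mul_of_nonneg_right ?_ hN'
    rw [← mul_div_assoc, div_le_div_iff₀ (by positivity) (by positivity)]
    linarith only [hε]
  have f2 : ∑ τ ∈ T, ∑ b, ∑ _o ∈ offs σ n k (c τ) b, (if S.p b then (0 : ℝ) else len σ k b) ≤
      ε / 4 * N := by
    refine le_trans (sum_le_sum (g := fun τ => ε / 4 * τ.2.length) fun τ hτ => ?_) ?_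
    · have e := hsp n (c τ) (hc τ hτ).1
      rw [B12_map] at e
      rw [(hc τ hτ).2]
      refine le_trans (le_of_eq (sum_congr rfl fun b _ => ?_)) e
      exact B12_sum_offs S.ne n k (c τ) b fun _ => if S.p b then (0 : ℝ) else len σ k b
    · rw [← mul_sum]
      exact mul_le_mul_of_nonneg_left tot (by positivity)
  clear * - a ε N A T σ n k c S f1 f2 hε
  linarith only [f1, f2, hε, mul_nonneg_of_nonpos_of_nonpos (Mathlib.Tactic.Linarith.sub_nonpos_of_le (Mathlib.Tactic.Linarith.natCast_nonneg ℝ N)) (le_of_lt (Mathlib.Tactic.Linarith.sub_neg_of_lt hε))]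

end Pool.Agent.SB
end

-- merged part: Pool.Agent.Work.MP_cf06ef_an.B15
section
/-! Pisot type case through return words; the main statement for every dominating class. -/

set_option autoImplicit false
set_option linter.unusedSectionVars false
open Finset Filter Topology

namespace Pool.Agent.SB
open Pool.Agent.PT
variable {A : Type} [Fintype A] [DecidableEq A] {σ : A → List A}

/-- one level at which the length vanishes on return vectors of geometric length zero. -/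
lemma Cls.PT.b15_level {S : Cls σ} (h : S.PT) :
    ∃ J, ∀ γ ∈ S.Lam, S.rr γ = 0 → hh σ J γ = 0 := by
  obtain ⟨s, hs⟩ : (S.Lam ⊓ LinearMap.ker S.rr).FG := IsNoetherian.noetherian _
  have key : ∀ γ ∈ s, ∀ᶠ j in atTop, hh σ j γ = 0 := by
    intro γ hγ
    have hm : γ ∈ S.Lam ⊓ LinearMap.ker S.rr := hs ▸ Submodule.subset_span hγ
    have h1 := h γ hm.1
    rw [show S.rr γ = 0 from hm.2] at h1
    simp only [zero_mul, sub_zero] at h1
    have h2 := (Metric.tendsto_nhds.mp h1) 1 one_pos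
    filter_upwards [h2] with j hj
    rw [Real.dist_eq, sub_zero] at hj
    have : |hh σ j γ| < 1 := by exact_mod_cast hj
    exact Int.abs_lt_one_iff.mp this
  obtain ⟨J, hJ⟩ := ((eventually_all_finset s).mpr key).exists
  refine ⟨J, fun γ h1 h2 => ?_⟩
  have hm : γ ∈ Submodule.span ℤ (s : Set (A → ℤ)) := hs ▸ ⟨h1, h2⟩
  exact (Submodule.span_le (p := LinearMap.ker (hh σ J))).mpr (fun x hx => hJ x hx) hm

open Classical in
lemma Cls.b15_count_pre (S : Cls σ) {Lm : ℕ} (hL : ∀ a, (σ a).length ≤ Lm) (y : List A) :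
    ∀ w, w <+: y.flatMap σ → S.a0 ∉ w → (w.filter fun a => S.p a).length ≤ Lm := by
  induction y with
  | nil =>
    intro w hw _
    rw [List.flatMap_nil, List.prefix_nil] at hw
    simp [hw]
  | cons b y ih =>
    intro w hw h0
    rw [List.flatMap_cons] at hw
    rcases List.prefix_or_prefix_of_prefix hw (List.prefix_append (σ b) _) with h1 | ⟨w', rfl⟩
    · exact ((List.length_filter_le _ _).trans h1.length_le).trans (hL b)
    · rw [List.prefix_append_right_inj] at hw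
      have hb : ¬ S.p b := fun hb => h0 (List.mem_append_left _ (S.prim _ _ hb S.pa0))
      have h2 : ((σ b).filter fun a => S.p a) = [] := by
        rw [List.filter_eq_nil_iff]
        intro a ha
        simpa using S.low b a hb ha
      rw [List.filter_append, h2, List.nil_append]
      exact ih w' hw fun h => h0 (List.mem_append_right _ h)

open Classical in
lemma Cls.b15_count (S : Cls σ) {Lm : ℕ} (hL : ∀ a, (σ a).length ≤ Lm) (y : List A) :
    ∀ w, w <:+: y.flatMap σ → S.a0 ∉ w → (w.filter fun a => S.p a).length ≤ 2 * Lm := by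
  induction y with
  | nil =>
    intro w hw _
    rw [List.flatMap_nil, List.infix_nil] at hw
    simp [hw]
  | cons b y ih =>
    intro w hw h0
    rw [List.flatMap_cons, List.infix_append_iff] at hw
    rcases hw with h1 | h1 | ⟨l1, l2, rfl, h1, h2⟩
    · have := ((List.length_filter_le (fun a => decide (S.p a)) _).trans h1.length_le).trans (hL b)
      omega
    · exact ih w h1 h0
    · have h3 :=
        ((List.length_filter_le (fun a => decide (S.p a)) _).trans h1.length_le).trans (hL b)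
      have h4 := S.b15_count_pre hL y l2 h2 fun h => h0 (List.mem_append_right _ h)
      rw [List.filter_append, List.length_append]
      omega

open Classical in
lemma Cls.b15_sum_filter (S : Cls σ) (w : List A) :
    ((w.filter fun a => S.p a).map S.L).sum = (w.map S.L).sum := by
  induction w with
  | nil => rfl
  | cons a w ih =>
    by_cases ha : S.p a
    · rw [List.filter_cons_of_pos (by simpa using ha)]
      simp only [List.map_cons, List.sum_cons, ih]
    · rw [List.filter_cons_of_neg (by simpa using ha)]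
      simp only [List.map_cons, List.sum_cons, ih, S.zero a ha, zero_add]

/-- there are finitely many first return words. -/
lemma Cls.PT.b15_finite {S : Cls σ} (h : S.PT) : {w | w ∈ S.Ret ∧ S.a0 ∉ w}.Finite := by
  classical
  obtain ⟨J, hJ⟩ := h.b15_level
  have : Nonempty A := ⟨S.a0⟩
  obtain ⟨am, ham⟩ := Finite.exists_max fun a => (σ a).length
  set Lm := (σ am).length
  have hcount : ∀ w ∈ S.Ret, S.a0 ∉ w → (w.filter fun a => S.p a).length ≤ 2 * Lm := by
    rintro w ⟨n, c, -, hw⟩ h0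
    cases n with
    | zero =>
      have := hw.length_le
      simp [it_zero] at this
    | succ n =>
      rw [it_succ', it_one] at hw
      refine S.b15_count ham _ w (List.IsInfix.trans ⟨[S.a0], [S.a0], by simp⟩ hw) h0
  let F : List A → ℤ := fun l =>
    if hl : ∃ w ∈ S.Ret, (w.filter fun a => S.p a) = l then hh σ J (ab (S.a0 :: hl.choose)) else 0
  have hF : ∀ w ∈ S.Ret, hh σ J (ab (S.a0 :: w)) = F (w.filter fun a => S.p a) := by
    intro w hw
    have hl : ∃ w' ∈ S.Ret, (w'.filter fun a => S.p a) = (w.filter fun a => S.p a) := ⟨w, hw, rfl⟩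
    have hs := hl.choose_spec
    simp only [F, dif_pos hl]
    rw [← sub_eq_zero, ← map_sub]
    refine hJ _ (S.Lam.sub_mem (S.ret_mem hw) (S.ret_mem hs.1)) ?_
    rw [map_sub, S.rr_ab, S.rr_ab, List.map_cons, List.map_cons, List.sum_cons, List.sum_cons,
      ← S.b15_sum_filter w, ← S.b15_sum_filter hl.choose, hs.2, sub_self]
  obtain ⟨M, hM⟩ := ((List.finite_length_le A (2 * Lm)).image F).bddAbove
  refine (List.finite_length_le A M.toNat).subset ?_
  rintro w ⟨hw, h0⟩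
  have h1 : hh σ J (ab (S.a0 :: w)) ≤ M := hF w hw ▸ hM ⟨_, hcount w hw h0, rfl⟩
  rw [hh_ab] at h1
  have h2 := le_length_it S.ne J (S.a0 :: w)
  simp only [List.length_cons] at h2
  show w.length ≤ M.toNat
  omega

/-- every return word is a concatenation of first return words. -/
lemma Cls.b15_split (S : Cls σ) (w : List A) (hw : w ∈ S.Ret) :
    ∃ l : List {w // w ∈ S.Ret ∧ S.a0 ∉ w}, (l.flatMap fun b => S.a0 :: b.1) = S.a0 :: w := by
  induction hn : w.length using Nat.strong_induction_on generalizing w with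
  | _ n ih =>
    by_cases h0 : S.a0 ∈ w
    · obtain ⟨w1, w2, rfl⟩ := List.append_of_mem h0
      obtain ⟨m, c, hc, hw⟩ := hw
      simp only [List.length_append, List.length_cons] at hn
      obtain ⟨l1, h1⟩ := ih w1.length (by omega) w1
        ⟨m, c, hc, List.IsInfix.trans ⟨[], w2 ++ [S.a0], by simp⟩ hw⟩ rfl
      obtain ⟨l2, h2⟩ := ih w2.length (by omega) w2
        ⟨m, c, hc, List.IsInfix.trans ⟨S.a0 :: w1, [], by simp⟩ hw⟩ rfl
      exact ⟨l1 ++ l2, by rw [List.flatMap_append, h1, h2]; simp⟩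
    · exact ⟨[⟨w, hw, h0⟩], by simp⟩

lemma Cls.b15_other (S : Cls σ) {H T : List A} (e : σ S.a0 = H ++ S.a0 :: T) :
    ∃ c, S.p c ∧ (c ∈ H ∨ c ∈ T) := by
  by_contra hc
  push Not at hc
  have hz : ∀ v : List A, (∀ c ∈ v, ¬ S.p c) → (v.map S.L).sum = 0 := fun v hv =>
    List.sum_eq_zero fun x hx => by
      obtain ⟨c, hc, rfl⟩ := List.mem_map.mp hx
      exact S.zero c (hv c hc)
  have h1 := S.eig 1 [S.a0]
  rw [it_one', e, List.map_append, List.sum_append, List.map_cons, List.sum_cons,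
    hz H fun c h hp => (hc c hp).1 h, hz T fun c h hp => (hc c hp).2 h] at h1
  simp only [List.map_singleton, List.sum_singleton, pow_one] at h1
  have h2 := S.pos _ S.pa0
  have h3 := S.one_lt
  linarith only [h1, h2, h3, mul_pos_of_neg_of_neg (Mathlib.Tactic.Linarith.sub_neg_of_lt h2) (Mathlib.Tactic.Linarith.sub_neg_of_lt h3)]

lemma Cls.b15_ret (S : Cls σ) : ∃ w, w ∈ S.Ret := by
  obtain ⟨H, T, e⟩ := List.append_of_mem (S.prim _ _ S.pa0 S.pa0)
  obtain ⟨c, hc, h⟩ := S.b15_other e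
  have h2 : it σ 2 [S.a0] = it σ 1 H ++ (H ++ S.a0 :: T) ++ it σ 1 T := by
    rw [it_succ' σ 1, it_one', e, it_append, it_cons, it_one', e]
    simp
  have hm : ∀ v : List A, c ∈ v → S.a0 ∈ it σ 1 v := fun v hv =>
    (mem_it σ 1 v _).mpr ⟨c, hv, by rw [it_one']; exact S.prim _ _ hc S.pa0⟩
  rcases h with h | h
  · obtain ⟨u, v, huv⟩ := List.append_of_mem (hm H h)
    exact ⟨v ++ H, 2, S.a0, S.pa0, u, T ++ it σ 1 T, by rw [h2, huv]; simp⟩
  · obtain ⟨u, v, huv⟩ := List.append_of_mem (hm T h)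
    exact ⟨T ++ u, 2, S.a0, S.pa0, it σ 1 H ++ H, v, by rw [h2, huv]; simp⟩

theorem Cls.PT.main (hCV : CV) {S : Cls σ} (h : S.PT) : S.Main := by
  classical
  intro Φ ε hε K0
  have : Nonempty A := ⟨S.a0⟩
  let B := {w // w ∈ S.Ret ∧ S.a0 ∉ w}
  have : Finite B := h.b15_finite.to_subtype
  have : Fintype B := Fintype.ofFinite B
  let ex : B → List A := fun b => S.a0 :: b.1
  have : Nonempty B := by
    obtain ⟨w, hw⟩ := S.b15_ret
    obtain ⟨l, hl⟩ := S.b15_split w hw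
    cases l with
    | nil => simp at hl
    | cons b l => exact ⟨b⟩
  obtain ⟨H, T, e⟩ := List.append_of_mem (S.prim _ _ S.pa0 S.pa0)
  choose τ hτ using fun b : B => S.b15_split _ (S.ret_step e b.2.1)
  have hτ' : ∀ b, (τ b).flatMap ex = S.a0 :: (T ++ (it σ 1 b.1 ++ H)) := hτ
  have hne : ∀ b, τ b ≠ [] := fun b hb => by
    have := hτ' b
    rw [hb] at this
    simp at this
  have conj : ∀ l : List B, H ++ (it τ 1 l).flatMap ex = it σ 1 (l.flatMap ex) ++ H := by
    intro l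
    induction l with
    | nil => simp [it_nil]
    | cons b l ih =>
      rw [it_cons, it_one', List.flatMap_append, hτ', List.flatMap_cons, it_append,
        List.append_assoc, ← ih]
      simp only [ex]
      rw [it_cons, it_one', e]
      simp
  let y : B → ℕ → List A := fun b j => Nat.rec b.1 (fun _ v => T ++ (it σ 1 v ++ H)) j
  have ys : ∀ b j, y b (j + 1) = T ++ (it σ 1 (y b j) ++ H) := fun _ _ => rfl
  have hy : ∀ b j, (it τ j [b]).flatMap ex = S.a0 :: y b j := by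
    intro b j
    induction j with
    | zero => simp [it_zero, ex, y]
    | succ j ih =>
      have h1 := conj (it τ j [b])
      rw [← it_succ', ih, it_cons σ, it_one', e] at h1
      rw [ys]
      simpa using h1
  have hab : ∀ b j, ab ((it τ j [b]).flatMap ex) = (MM σ ^ j) (ab (ex b)) := by
    intro b j
    induction j with
    | zero => simp [it_zero]
    | succ j ih =>
      have h1 := congrArg ab (conj (it τ j [b]))
      rw [← it_succ', ab_append, ab_append, add_comm, add_left_inj, ← MM_ab, ih] at h1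
      rw [h1, pow_succ', Module.End.mul_apply]
  have hlen : ∀ b j, (((it τ j [b]).flatMap ex).length : ℤ) = hh σ j (ab (ex b)) := by
    intro b j
    have h1 := hh_ab σ 0 ((it τ j [b]).flatMap ex)
    rw [it_zero] at h1
    rw [← h1, hab, hh_pow, add_zero]
  obtain ⟨W, L, b0, hW, hm⟩ := hd0l hCV τ hne ex S.θ S.one_lt (fun b => S.rr (ab (ex b)))
    (fun b => by
      rw [S.rr_ab]
      simp only [ex, List.map_cons, List.sum_cons]
      have h1 := S.pos _ S.pa0
      have h2 : 0 ≤ (b.1.map S.L).sum := List.sum_nonneg fun x hx => by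
        obtain ⟨c, -, rfl⟩ := List.mem_map.mp hx
        exact S.L_nonneg c
      linarith)
    (fun b => (h _ (S.ret_mem b.2.1)).congr fun j => by
      rw [← hlen]
      push_cast
      rfl) Φ ε hε
  obtain ⟨c1, c2, hc1, -, hlow, -⟩ := S.len_bd
  have hev : ∀ᶠ K in atTop, (L : ℝ) ≤ c1 * S.θ ^ K :=
    ((tendsto_pow_atTop_atTop_of_one_lt S.one_lt).const_mul_atTop hc1).eventually_ge_atTop _
  obtain ⟨K, hK1, hK2⟩ := (hev.and (eventually_ge_atTop K0)).exists
  refine ⟨K, hK2, hW.mono ?_ le_rfl⟩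
  rintro _ ⟨c, hc, rfl⟩
  obtain ⟨m, hm1, hm2⟩ := hm (K + 2)
  obtain ⟨d, hd, hdm⟩ := S.b15_other e
  have step : ∀ j (v : List A), v <:+: y b0 j → it σ 1 v <:+: y b0 (j + 1) := fun j v hv =>
    (it_infix σ 1 hv).trans ⟨T, H, by rw [ys]; simp⟩
  have h1 : ∀ j, [d] <:+: y b0 (j + 1) := fun j => by
    rw [List.singleton_infix_iff, ys]
    rcases hdm with h | h <;> simp [h]
  have h2 : ∀ j, [c] <:+: y b0 (j + 2) := fun j => by
    refine List.IsInfix.trans ?_ (step (j + 1) _ (h1 j))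
    rw [List.singleton_infix_iff, it_one']
    exact S.prim _ _ hd hc
  have h3 : ∀ k j, it σ k [c] <:+: y b0 (j + 2 + k) := by
    intro k j
    induction k with
    | zero => exact h2 j
    | succ k ih => rw [it_succ']; exact step _ _ ih
  refine hm2 _ ?_ ?_
  · obtain ⟨j, rfl⟩ : ∃ j, m = j + 2 + K := ⟨m - (K + 2), by omega⟩
    rw [hy]
    exact (h3 K j).trans ⟨[S.a0], [], by simp⟩
  · have h4 : (L : ℝ) ≤ len σ K c := hK1.trans (hlow K c hc)
    exact_mod_cast h4

theorem Cls.main (hCV : CV) (S : Cls σ) : S.Main := by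
  obtain ⟨T, hT, h | ⟨⟨h⟩⟩⟩ := S.dich
  · exact S.main_of_pow (Cls.PT.main hCV h)
  · exact S.main_of_pow (h.main hCV)

end Pool.Agent.SB
end

-- merged part: Pool.Agent.Work.MP_cf06ef_an.B18
section
/-! Every factor is almost covered by good words. -/

set_option autoImplicit false
open Finset Filter Topology

namespace Pool.Agent.SB
open Pool.Agent.PT

namespace B18
variable {A : Type}

lemma qp_cov {W : Set (List A)} {P0 k L : ℕ} (hW : {v | L ≤ v.length ∧ Per P0 v} ⊆ W)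
    {r : List A} (h : QP P0 k r) : Cov W r (k * L) := by
  obtain ⟨l, h1, rfl, h2⟩ := h
  rw [← List.flatMap_id]
  refine (Cov.flatMap id (fun _ => (L : ℝ)) l fun s hs => ?_).mono ?_
  · by_cases hL : L ≤ s.length
    · exact (Cov.mem (hW ⟨hL, h2 s hs⟩)).mono (Nat.cast_nonneg _)
    · exact (Cov.self W s).mono (by exact_mod_cast (not_le.mp hL).le)
  · simp only [List.map_const', List.sum_replicate, nsmul_eq_mul]
    gcongr

open Classical in
lemma LK {W : Set (List A)} (Bd : A → Prop) (f : A → List A) (hf : ∀ b, Bd b → ∀ a ∈ f b, Bd a)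
    (C : ℝ) (κ : A → ℝ) (y r : List A) (hr : ∀ b ∈ r, Bd b)
    (hQ : ∀ t, t <:+: r ++ y.flatMap f → (∀ b ∈ t, Bd b) → Cov W t C)
    (hκ : ∀ h ∈ y, ¬ Bd h → Cov W (f h) (κ h)) :
    Cov W (r ++ y.flatMap f) ((y.map fun h => if Bd h then 0 else κ h + C).sum + C) := by
  induction y generalizing r with
  | nil => simpa using hQ r (by simp) hr
  | cons h y ih =>
    rw [List.flatMap_cons] at hQ ⊢
    rw [List.map_cons, List.sum_cons]
    have hκ' : ∀ g ∈ y, ¬ Bd g → Cov W (f g) (κ g) := fun g hg => hκ g (by simp [hg])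
    by_cases hb : Bd h
    · rw [if_pos hb, zero_add, ← List.append_assoc]
      refine ih (r ++ f h) (fun b hb' => ?_) (by rwa [List.append_assoc]) hκ'
      rcases List.mem_append.mp hb' with h1 | h1
      · exact hr b h1
      · exact hf h hb b h1
    · rw [if_neg hb]
      have h1 := hQ r (List.prefix_append _ _).isInfix hr
      have h2 := ih [] (by simp) (fun t ht => hQ t (ht.trans (by
        rw [List.nil_append, ← List.append_assoc]; exact (List.suffix_append _ _).isInfix))) hκ'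
      rw [List.nil_append] at h2
      exact (h1.append ((hκ h (by simp) hb).append h2)).mono (le_of_eq (by ring))

lemma pre (f : A → List A) (M : ℕ) (hM : ∀ b, (f b).length ≤ M) (w v : List A)
    (h : v <+: w.flatMap f) : ∃ y p : List A, v = y.flatMap f ++ p ∧ p.length ≤ M := by
  induction w generalizing v with
  | nil => exact ⟨[], [], by simpa using h, by simp⟩
  | cons b w ih =>
    rw [List.flatMap_cons] at h
    rcases List.prefix_or_prefix_of_prefix h (List.prefix_append _ _) with h1 | ⟨v', rfl⟩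
    · exact ⟨[], v, by simp, h1.length_le.trans (hM b)⟩
    · obtain ⟨y, p, rfl, h2⟩ := ih v' ((List.prefix_append_right_inj _).mp h)
      exact ⟨b :: y, p, by simp, h2⟩

lemma inf (f : A → List A) (M : ℕ) (hM : ∀ b, (f b).length ≤ M) (w v : List A)
    (h : v <:+: w.flatMap f) :
    ∃ s y p : List A, v = s ++ (y.flatMap f ++ p) ∧ s.length ≤ M ∧ p.length ≤ M := by
  induction w with
  | nil => exact ⟨[], [], [], by simpa using h, by simp, by simp⟩
  | cons b w ih =>
    rw [List.flatMap_cons, List.infix_append_iff] at h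
    rcases h with h | h | ⟨s, t, rfl, h1, h2⟩
    · exact ⟨v, [], [], by simp, h.length_le.trans (hM b), by simp⟩
    · exact ih h
    · obtain ⟨y, p, rfl, h3⟩ := pre f M hM w t h2
      exact ⟨s, y, p, rfl, h1.length_le.trans (hM b), h3⟩

/-- the images of high level of the letter are almost covered by good words. -/
def Wh (Φ : WF A) (τ : A → List A) (g : A) : Prop := ∀ ε : ℝ, 0 < ε →
  ∃ W, BLK Φ W ε ∧ ∀ᶠ n in atTop, Cov W (it τ n [g]) (ε * len τ n g)

lemma bd_it {τ : A → List A} {Bd : A → Prop} (hB : ∀ b, Bd b → ∀ a ∈ τ b, Bd a) (n : ℕ) :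
    ∀ b, Bd b → ∀ a ∈ it τ n [b], Bd a := by
  induction n with
  | zero => intro b hb a ha; rw [it_zero, List.mem_singleton] at ha; exact ha ▸ hb
  | succ n ih =>
    intro b hb a ha
    rw [it_succ', mem_it] at ha
    obtain ⟨c, h1, h2⟩ := ha
    exact hB c (ih b hb c h1) a (by rwa [it_one'] at h2)

/-- choice of a level. -/
lemma level (hCV : CV) [Finite A] {τ : A → List A} {Bd : A → Prop} (P0 k : ℕ)
    (hB : ∀ b, Bd b → ∀ a ∈ τ b, Bd a) (hg : ∀ g, ¬ Bd g → Tendsto (fun n => len τ n g) atTop atTop)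
    (Φ : WF A) (cl : A → Prop) [DecidablePred cl] (D : A → Prop) (hD : ∀ h, D h → Wh Φ τ h)
    (ε : ℝ) (hε : 0 < ε) : ∃ (W : Set (List A)) (C : ℝ) (K M : ℕ), BLK Φ W ε ∧
      (∀ a, len τ K a ≤ M) ∧ ∀ y : List A, (∀ h ∈ y, ¬ Bd h → ¬ cl h → D h) →
        (∀ t, t <:+: it τ K y → (∀ b ∈ t, Bd b) → QP P0 k t) →
        Cov W (it τ K y) (M * (y.countP fun c => cl c : ℕ) + ε * (it τ K y).length + C) := by
  classical
  have he : 0 < ε / 2 := by positivity
  obtain ⟨L, hL⟩ := BLK_per hCV Φ P0 (ε / 2) he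
  obtain ⟨W, ε', h1, h2, h3, h4⟩ := BLK.family (I := {h // D h}) (Φ := Φ)
    (fun h e W => ∀ᶠ n in atTop, Cov W (it τ n [h.1]) (e * len τ n h.1))
    (fun h e he => hD h.1 h.2 e he) (ε / 2) he
  have e1 : ∀ᶠ n in atTop, ∀ h : {h // D h}, Cov W (it τ n [h.1]) (ε / 2 * len τ n h.1) := by
    rw [eventually_all]
    intro h
    obtain ⟨W', h5, h6⟩ := h4 h
    filter_upwards [h6] with n hn
    exact (hn.subset h5).mono (by gcongr)
  have e2 : ∀ᶠ n in atTop, ∀ g : {g // ¬ Bd g}, (k * L : ℝ) / (ε / 2) ≤ len τ n g.1 := by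
    rw [eventually_all]
    intro g
    exact (tendsto_natCast_atTop_atTop.comp (hg g.1 g.2)).eventually_ge_atTop _
  obtain ⟨K, k1, k2⟩ := (e1.and e2).exists
  obtain ⟨M, hM⟩ := (Set.finite_range (len τ K)).bddAbove
  have hM' : ∀ a, len τ K a ≤ M := fun a => hM ⟨a, rfl⟩
  refine ⟨W ∪ _, k * L, K, M, (h3.union hL).mono subset_rfl (by linarith only []), hM', fun y hy hQ => ?_⟩
  have h5 := LK (W := W ∪ {v | L ≤ v.length ∧ Per P0 v}) Bd (fun a => it τ K [a]) (bd_it hB K)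
    (k * L) (fun h => if cl h then (len τ K h : ℝ) else ε / 2 * len τ K h) y [] (by simp)
    (fun t ht hb => qp_cov Set.subset_union_right
      (hQ t (by rwa [List.nil_append, ← it_eq_flatMap] at ht) hb))
    fun h hh hb => by
      split_ifs with hc
      · exact Cov.self _ _
      · exact (k1 ⟨h, hy h hh hb hc⟩).subset Set.subset_union_left
  rw [List.nil_append, ← it_eq_flatMap] at h5
  refine h5.mono (add_le_add_left ?_ _)
  rw [length_it']
  clear h5 hQ hy
  induction y with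
  | nil => simp
  | cons h y ih =>
    simp only [List.map_cons, List.sum_cons, List.countP_cons, decide_eq_true_eq, Nat.cast_add,
      Nat.cast_ite, Nat.cast_one, Nat.cast_zero, mul_add]
    have a1 : (len τ K h : ℝ) ≤ M := by exact_mod_cast hM' h
    have a2 : (0 : ℝ) ≤ ε / 2 * len τ K h := by positivity
    have a3 : ¬ Bd h → (k * L : ℝ) ≤ ε / 2 * len τ K h := fun hb => by
      have := k2 ⟨h, hb⟩
      rwa [div_le_iff₀' he] at this
    have a4 : (0 : ℝ) ≤ M := Nat.cast_nonneg _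
    split_ifs with b1 b2 b2
    · linarith only [ih, a2]
    · linarith only [ih, a2]
    · linarith only [ih, a1, a2, a3, b1, a3 b1]
    · linarith only [ih, a3, b1, a3 b1]

lemma whole (hCV : CV) [Fintype A] [DecidableEq A] {τ : A → List A} (hτ : ∀ a, τ a ≠ [])
    (hid : ∀ j a b, b ∈ it τ (j + 1) [a] ↔ b ∈ τ a) {Bd : A → Prop} (P0 k : ℕ)
    (hB : ∀ b, Bd b → ∀ a ∈ τ b, Bd a) (hg : ∀ g, ¬ Bd g → Tendsto (fun n => len τ n g) atTop atTop)
    (hQ : ∀ n a r, r <:+: it τ n [a] → (∀ b ∈ r, Bd b) → QP P0 k r)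
    (Φ : WF A) (g : A) (hb : ¬ Bd g) : Wh Φ τ g := by
  classical
  induction hN : (insert g (τ g).toFinset).card using Nat.strong_induction_on generalizing g with
  | _ N ih =>
  intro ε hε
  rcases cls_dich τ hτ hid g (hg g hb) with ⟨τ', S, h1, h2⟩ | h
  · obtain ⟨K0, hK0⟩ := eventually_atTop.mp (S.spacer ε hε)
    obtain ⟨K, hK, hW⟩ := S.main hCV Φ ε hε K0
    refine ⟨_, hW, ?_⟩
    filter_upwards [eventually_ge_atTop K] with n hn
    obtain ⟨m, rfl⟩ := Nat.exists_eq_add_of_le' hn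
    have h3 := hK0 K hK m g h1
    rw [show len τ' (m + K) g = len τ (m + K) g by rw [len, h2, len]] at h3
    rw [← h2, it_add, it_eq_flatMap τ' K]
    refine (Cov.flatMap _ _ _ fun b _ => ?_).mono h3
    split_ifs with hp
    · exact Cov.mem ⟨b, hp, rfl⟩
    · exact Cov.self _ _
  · have tr : ∀ a b c, b ∈ τ a → c ∈ τ b → c ∈ τ a := fun a b c h1 h2 => by
      rw [← hid 1, it_succ', mem_it]
      exact ⟨b, by rwa [it_one'], by rwa [it_one']⟩
    have he : 0 < ε / 3 := by positivity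
    obtain ⟨W, C, K, M, h1, h2, h3⟩ := level hCV P0 k hB hg Φ (fun c => c ∈ τ g ∧ g ∈ τ c)
      (fun c => ¬ Bd c ∧ c ∈ τ g ∧ g ∉ τ c) (fun c hc => by
        refine ih _ ?_ c hc.1 rfl
        rw [← hN]
        refine card_lt_card ⟨fun d hd => ?_, fun hs => ?_⟩
        · simp only [mem_insert, List.mem_toFinset] at hd ⊢
          rcases hd with rfl | hd
          · exact Or.inr hc.2.1
          · exact Or.inr (tr _ _ _ hc.2.1 hd)
        · have := hs (mem_insert_self _ _)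
          simp only [mem_insert, List.mem_toFinset] at this
          rcases this with rfl | h4
          · exact hc.2.2 hc.2.1
          · exact hc.2.2 h4) (ε / 3) he
    refine ⟨W, h1.mono subset_rfl (by linarith only [hε]), ?_⟩
    obtain ⟨m0, hm0⟩ := eventually_atTop.mp ((h (ε / 3 / (M + 1)) (by positivity)).and
      ((tendsto_natCast_atTop_atTop.comp (hg g hb)).eventually_ge_atTop (C / (ε / 3))))
    filter_upwards [eventually_ge_atTop (m0 + 1 + K)] with n hn
    obtain ⟨m, rfl⟩ : ∃ m, n = m + 1 + K := ⟨n - 1 - K, by omega⟩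
    obtain ⟨h4, h5⟩ := hm0 (m + 1) (by omega)
    have h6 := h3 (it τ (m + 1) [g]) (fun c hc hc' hc'' => ⟨hc', (hid m g c).mp hc,
      fun hx => hc'' ⟨(hid m g c).mp hc, hx⟩⟩) (fun t ht => hQ (m + 1 + K) g t (by rwa [it_add]))
    rw [← it_add, ← len] at h6
    refine h6.mono ?_
    have h7 : (len τ (m + 1) g : ℝ) ≤ len τ (m + 1 + K) g := by
      exact_mod_cast len_mono hτ g (Nat.le_add_right _ _)
    simp only [Function.comp] at h5
    rw [div_le_iff₀' he] at h5
    have h8 : (M : ℝ) * (ε / 3 / (M + 1) * len τ (m + 1) g) ≤ ε / 3 * len τ (m + 1) g := by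
      clear * - M ε A τ m g hε
      rw [← mul_assoc]
      refine mul_le_mul_of_nonneg_right ?_ (Nat.cast_nonneg _)
      rw [mul_div_assoc', div_le_iff₀ (by positivity)]
      linarith only [hε]
    have h9 := mul_le_mul_of_nonneg_left h4 (Nat.cast_nonneg (α := ℝ) M)
    have h10 := mul_le_mul_of_nonneg_left h7 he.le
    linarith only [h5, h8, h9, h10]

end B18

theorem factor (hCV : CV) {A : Type} [Fintype A] [DecidableEq A] (σ : A → List A)
    (hσ : ∀ a, σ a ≠ []) (Φ : WF A) (ε : ℝ) (hε : 0 < ε) : ∃ (W : Set (List A)) (C : ℝ),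
      BLK Φ W ε ∧ ∀ n a v, v <:+: it σ n [a] → Cov W v (ε * v.length + C) := by
  classical
  obtain ⟨s, hs, hid, -⟩ := exists_term σ hσ
  obtain ⟨Bd, P0, k, hB, hg, hQ⟩ := nice σ hσ
  have hB' : ∀ b, Bd b → ∀ a ∈ pw σ s b, Bd a := B18.bd_it hB s
  have hg' : ∀ g, ¬ Bd g → Tendsto (fun n => len (pw σ s) n g) atTop atTop := fun g h => by
    simp only [len_pw]
    exact (hg g h).comp (tendsto_id.const_mul_atTop' (Nat.pos_of_ne_zero hs))
  obtain ⟨W, C, K, M, h1, h2, h3⟩ := B18.level hCV P0 k hB' hg' Φ (fun _ => False)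
    (fun g => ¬ Bd g) (fun g h => B18.whole hCV (τ := pw σ s) (fun a => it_ne_nil σ hσ s a)
      (fun j a b => by rw [it_pw]; exact hid j a b) P0 k hB' hg'
      (fun n a r hr => hQ (s * n) a r (by rwa [it_pw] at hr)) Φ g h) ε hε
  refine ⟨W, |C| + 2 * M, h1, fun n a v hv => ?_⟩
  simp only [len_pw, it_pw] at h2 h3
  have a0 : 0 ≤ ε * v.length := by positivity
  have a1 : (0 : ℝ) ≤ M := Nat.cast_nonneg _
  rcases le_total n (s * K) with hn | hn
  · refine (Cov.self W v).mono ?_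
    have : v.length ≤ M := hv.length_le.trans ((len_mono hσ a hn).trans (h2 a))
    have : (v.length : ℝ) ≤ M := by exact_mod_cast this
    linarith only [a0, this, abs_nonneg C]
  · obtain ⟨m, rfl⟩ := Nat.exists_eq_add_of_le' hn
    obtain ⟨s1, y, p, e, b1, b2⟩ := B18.inf (fun b => it σ (s * K) [b]) M h2 (it σ m [a]) v
      (by rwa [it_add, it_eq_flatMap σ (s * K)] at hv)
    rw [← it_eq_flatMap] at e
    have b3 : it σ (s * K) y <:+: v := ⟨s1, p, by rw [e, List.append_assoc]⟩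
    have h4 := h3 y (fun _ _ h _ => h) fun t ht => hQ _ a t (ht.trans (b3.trans hv))
    have h5 := (Cov.self W s1).append (h4.append (Cov.self W p))
    rw [← e] at h5
    refine h5.mono ?_
    have c1 : (s1.length : ℝ) ≤ M := by exact_mod_cast b1
    have c2 : (p.length : ℝ) ≤ M := by exact_mod_cast b2
    have c3 : ((it σ (s * K) y).length : ℝ) ≤ v.length := by exact_mod_cast b3.length_le
    have c4 := mul_le_mul_of_nonneg_left c3 hε.le
    simp only [decide_false, List.countP_false, Function.const, Nat.cast_zero, mul_zero]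
    linarith only [c1, c2, c4, le_abs_self C]

end Pool.Agent.SB
end

-- merged part: Pool.Agent.Work.MP_cf06ef_an.P15
section
set_option autoImplicit false
open Finset Filter Topology
open ArithmeticFunction (moebius)

namespace Pool.Agent.PT

lemma cyl_approx {A : Type} [TopologicalSpace A] [DiscreteTopology A] (X : Set (ℤ → A))
    (hX : IsCompact X) (f : (ℤ → A) → ℂ) (hf : ContinuousOn f X) (ε : ℝ) (hε : 0 < ε) :
    ∃ w : ℕ, ∀ x ∈ X, ∀ y ∈ X, (∀ e : ℤ, |e| ≤ w → x e = y e) → ‖f x - f y‖ ≤ ε := by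
  have h1 : ∀ x : ℤ → A, ∃ w : ℕ, x ∈ X → ∀ y ∈ X, (∀ e : ℤ, |e| ≤ w → y e = x e) →
      ‖f y - f x‖ < ε / 2 := by
    intro x
    by_cases hx : x ∈ X
    swap
    · exact ⟨0, fun h => absurd h hx⟩
    have h2 := (hf x hx).eventually (Metric.ball_mem_nhds (f x) (half_pos hε))
    obtain ⟨U, hU, h3⟩ := mem_nhdsWithin_iff_exists_mem_nhds_inter.mp h2
    rw [nhds_pi, Filter.mem_pi] at hU
    obtain ⟨I, hI, t, ht, h4⟩ := hU
    obtain ⟨w, hw⟩ := (hI.image Int.natAbs).bddAbove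
    refine ⟨w, fun _ y hy h => ?_⟩
    have := h3 ⟨h4 fun i hi => by
      have h5 : i.natAbs ≤ w := hw ⟨i, hi, rfl⟩
      rw [h i (by rw [Int.abs_eq_natAbs]; exact_mod_cast h5)]
      exact mem_of_mem_nhds (ht i), hy⟩
    simpa [dist_eq_norm] using this
  choose w hw using h1
  obtain ⟨t, ht, hc⟩ := hX.elim_nhds_subcover (fun x => {y | ∀ e : ℤ, |e| ≤ w x → y e = x e})
    fun x _ => by
      have : {y : ℤ → A | ∀ e : ℤ, |e| ≤ w x → y e = x e}
          = Set.pi (Set.Icc (-(w x : ℤ)) (w x)) fun e => {x e} := by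
        clear * - A w x
        ext y; simp [abs_le]
      rw [this]
      exact set_pi_mem_nhds (Set.finite_Icc _ _) fun e _ => (isOpen_discrete _).mem_nhds rfl
  refine ⟨t.sup w, fun x hx y hy h => ?_⟩
  obtain ⟨z, hz, h2⟩ := Set.mem_iUnion₂.mp (hc hx)
  have h3 : (w z : ℤ) ≤ (t.sup w : ℕ) := by exact_mod_cast le_sup (f := w) hz
  have h4 := hw z (ht z hz) x hx h2
  have h5 := hw z (ht z hz) y hy fun e he => (h e (he.trans h3)).symm.trans (h2 e he)
  rw [norm_sub_rev] at h5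
  linarith only [h4, h5, norm_sub_le_norm_sub_add_norm_sub (f x) (f z) (f y)]

theorem final (k : ℕ) (σ : Fin k → List (Fin k)) (hσ : ∀ a, σ a ≠ []) (θ : ℝ) (hθ : 1 < θ)
    (c : Fin k → ℝ)
    (hc : ∀ a, Tendsto (fun n => ((it σ n [a]).length : ℝ) - c a * θ ^ n) atTop (𝓝 0))
    (X : Set (ℤ → Fin k)) (hX : X = {x : ℤ → Fin k | ∀ (i : ℤ) (m : ℕ), ∃ (a : Fin k) (n : ℕ),
      List.IsInfix (List.ofFn (fun j : Fin m => x (i + ((j : ℕ) : ℤ)))) (it σ n [a])})
    (f : (ℤ → Fin k) → ℂ) (hf : ContinuousOn f X) (x : ℤ → Fin k) (hx : x ∈ X) :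
    Tendsto (fun N : ℕ => (1 / (N : ℂ)) * ∑ n ∈ Finset.Icc 1 N,
      f (fun i : ℤ => x (i + (n : ℤ))) * ((moebius n : ℤ) : ℂ)) atTop (𝓝 0) := by
  classical
  have hXc : IsCompact X := by
    refine IsClosed.isCompact ?_
    rw [hX, Set.ofPred_forall]
    refine isClosed_iInter fun i => ?_
    rw [Set.ofPred_forall]
    refine isClosed_iInter fun m => ?_
    exact (isClosed_discrete {v : Fin m → Fin k | ∃ (a : Fin k) (n : ℕ),
      List.IsInfix (List.ofFn v) (it σ n [a])}).preimage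
      (f := fun (x : ℤ → Fin k) (j : Fin m) => x (i + ((j : ℕ) : ℤ))) (by fun_prop)
  have hsh : ∀ n : ℤ, (fun i => x (i + n)) ∈ X := fun n => by
    rw [hX] at hx ⊢
    intro i m
    simpa only [add_right_comm i n] using hx (i + n) m
  obtain ⟨Cf, hCf⟩ := hXc.exists_bound_of_continuousOn hf
  have hCf0 : 0 ≤ Cf := (norm_nonneg _).trans (hCf x hx)
  rw [Metric.tendsto_atTop]
  intro ε hε
  obtain ⟨w, hw⟩ := cyl_approx X hXc f hf (ε / 4) (by positivity)
  let Ψ : ((ℤ → Fin k) → Prop) → ℂ := fun P =>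
    if h : ∃ y ∈ X, P y then ((Cf + 1 : ℝ) : ℂ)⁻¹ * f h.choose else 0
  let Φ : (ℤ → Fin k) → ℂ := fun y => Ψ fun y' => ∀ e : ℤ, |e| ≤ w → y' e = y e
  have hΦ : ∀ y ∈ X, ‖f y - ((Cf + 1 : ℝ) : ℂ) * Φ y‖ ≤ ε / 4 := fun y hy => by
    have h : ∃ y' ∈ X, ∀ e : ℤ, |e| ≤ w → y' e = y e := ⟨y, hy, fun _ _ => rfl⟩
    simp only [Φ, Ψ, dif_pos h]
    rw [mul_inv_cancel_left₀ (by exact_mod_cast (by positivity : Cf + 1 ≠ 0)), norm_sub_rev]
    exact hw _ h.choose_spec.1 _ hy h.choose_spec.2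
  obtain ⟨N0, hN0⟩ := UW Pool.Agent.Lib.ANT.davenport_lite Pool.Agent.Lib.ANT.katai_fin σ hσ θ hθ c
    hc w Φ (fun y => by
      simp only [Φ, Ψ]
      split_ifs with h
      · rw [norm_mul, norm_inv, Complex.norm_real, Real.norm_of_nonneg (by positivity),
          inv_mul_le_iff₀ (by positivity)]
        linarith only [h, hCf, hCf _ h.choose_spec.1]
      · simp)
    (fun y y' h => congrArg Ψ (funext fun z => propext
      ⟨fun h' e he => (h' e he).trans (h e he), fun h' e he => (h' e he).trans (h e he).symm⟩))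
    (ε / 4 / (Cf + 1)) (by positivity)
  refine ⟨max N0 1, fun N hN => ?_⟩
  have hN1 : (0 : ℝ) < N := by exact_mod_cast le_of_max_le_right hN
  rw [hX] at hx
  obtain ⟨a, n, l1, l2, hl⟩ := hx (1 - w) (N + 2 * w)
  have hlen := congrArg List.length hl
  simp only [List.length_append, List.length_ofFn] at hlen
  have h1 := hN0 N (le_of_max_le_left hN) x a n (1 - w - l1.length) (by omega) (by omega)
    fun i b1 b2 => by
      obtain ⟨j, rfl⟩ : ∃ j, i = l1.length + j := ⟨i - l1.length, by omega⟩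
      have hj : j < N + 2 * w := by omega
      rw [← hl, List.append_assoc, get_mid _ _ _ _ (by simpa using hj), List.getElem?_ofFn,
        dif_pos hj]
      congr 2; push_cast; ring
  rw [dist_zero_right, norm_mul, norm_div, norm_one, Complex.norm_natCast, one_div,
    inv_mul_lt_iff₀ hN1]
  have h2 : ∑ n ∈ Icc 1 N, f (fun i : ℤ => x (i + (n : ℤ))) * ((moebius n : ℤ) : ℂ)
      = ((Cf + 1 : ℝ) : ℂ) * ∑ n ∈ Icc 1 N, (moebius n : ℂ) * Φ (fun i => x (i + n))
        + ∑ n ∈ Icc 1 N, (f (fun i : ℤ => x (i + (n : ℤ)))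
          - ((Cf + 1 : ℝ) : ℂ) * Φ (fun i => x (i + n))) * ((moebius n : ℤ) : ℂ) := by
    rw [mul_sum, ← sum_add_distrib]; exact sum_congr rfl fun n _ => by ring
  have h3 : ‖∑ n ∈ Icc 1 N, (f (fun i : ℤ => x (i + (n : ℤ)))
      - ((Cf + 1 : ℝ) : ℂ) * Φ (fun i => x (i + n))) * ((moebius n : ℤ) : ℂ)‖ ≤ N * (ε / 4) := by
    refine (norm_sum_le_of_le _ (n := fun _ => ε / 4) fun n _ => ?_).trans (by simp)
    rw [norm_mul]
    exact (mul_le_of_le_one_right (norm_nonneg _) (norm_moebius_le n)).trans (hΦ _ (hsh n))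
  have h4 : ‖((Cf + 1 : ℝ) : ℂ) * ∑ n ∈ Icc 1 N, (moebius n : ℂ) * Φ (fun i => x (i + n))‖
      ≤ N * (ε / 4) := by
    rw [norm_mul, Complex.norm_real, Real.norm_of_nonneg (by positivity)]
    refine (mul_le_mul_of_nonneg_left h1 (by positivity)).trans (le_of_eq ?_)
    field_simp
  rw [h2]
  exact (norm_add_le _ _).trans_lt (by clear * - Cf N Φ x f ε h3 h4 hε hN1; linarith only [h3, h4, hε, hN1, mul_pos_of_neg_of_neg (Mathlib.Tactic.Linarith.sub_neg_of_lt hε) (Mathlib.Tactic.Linarith.sub_neg_of_lt hN1)])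

end Pool.Agent.PT
end

-- merged part: Pool.Agent.Work.MP_cf06ef_an.B19
section
/-! Moebius disjointness of all substitution subshifts from two-point Chowla. -/

set_option autoImplicit false
open Finset Filter Topology
open ArithmeticFunction (moebius)

namespace Pool.Agent.SB
open Pool.Agent.PT

theorem final (h2 : CH2) (k : ℕ) (σ : Fin k → List (Fin k)) (hσ : ∀ a, σ a ≠ [])
    (X : Set (ℤ → Fin k)) (hX : X = {x : ℤ → Fin k | ∀ (i : ℤ) (m : ℕ), ∃ (a : Fin k) (n : ℕ),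
      List.IsInfix (List.ofFn (fun j : Fin m => x (i + ((j : ℕ) : ℤ)))) (it σ n [a])})
    (f : (ℤ → Fin k) → ℂ) (hf : ContinuousOn f X) (x : ℤ → Fin k) (hx : x ∈ X) :
    Tendsto (fun N : ℕ => (1 / (N : ℂ)) * ∑ n ∈ Finset.Icc 1 N,
      f (fun i : ℤ => x (i + (n : ℤ))) * ((moebius n : ℤ) : ℂ)) atTop (𝓝 0) := by
  classical
  have hXc : IsCompact X := by
    refine IsClosed.isCompact ?_
    rw [hX, Set.ofPred_forall]
    refine isClosed_iInter fun i => ?_
    rw [Set.ofPred_forall]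
    refine isClosed_iInter fun m => ?_
    exact (isClosed_discrete {v : Fin m → Fin k | ∃ (a : Fin k) (n : ℕ),
      List.IsInfix (List.ofFn v) (it σ n [a])}).preimage
      (f := fun (x : ℤ → Fin k) (j : Fin m) => x (i + ((j : ℕ) : ℤ))) (by fun_prop)
  have hsh : ∀ n : ℤ, (fun i => x (i + n)) ∈ X := fun n => by
    rw [hX] at hx ⊢
    intro i m
    simpa only [add_right_comm i n] using hx (i + n) m
  obtain ⟨Cf, hCf⟩ := hXc.exists_bound_of_continuousOn hf
  have hCf0 : 0 ≤ Cf := (norm_nonneg _).trans (hCf x hx)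
  rw [Metric.tendsto_atTop]
  intro ε hε
  obtain ⟨w, hw⟩ := cyl_approx X hXc f hf (ε / 4) (by positivity)
  let Ψ : ((ℤ → Fin k) → Prop) → ℂ := fun P =>
    if h : ∃ y ∈ X, P y then ((Cf + 1 : ℝ) : ℂ)⁻¹ * f h.choose else 0
  let Φ : WF (Fin k) :=
    { f := fun y => Ψ fun y' => ∀ e : ℤ, |e| ≤ w → y' e = y e
      w := w
      bd := fun y => by
        simp only [Ψ]
        split_ifs with h
        · rw [norm_mul, norm_inv, Complex.norm_real, Real.norm_of_nonneg (by positivity),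
            inv_mul_le_iff₀ (by positivity)]
          linarith only [h, hCf, hCf _ h.choose_spec.1]
        · simp
      loc := fun y y' h => congrArg Ψ (funext fun z => propext
        ⟨fun h' e he => (h' e he).trans (h e he), fun h' e he => (h' e he).trans (h e he).symm⟩) }
  have hΦ : ∀ y ∈ X, ‖f y - ((Cf + 1 : ℝ) : ℂ) * Φ.f y‖ ≤ ε / 4 := fun y hy => by
    have h : ∃ y' ∈ X, ∀ e : ℤ, |e| ≤ w → y' e = y e := ⟨y, hy, fun _ _ => rfl⟩
    simp only [Φ, Ψ, dif_pos h]
    rw [mul_inv_cancel_left₀ (by exact_mod_cast (by positivity : Cf + 1 ≠ 0)), norm_sub_rev]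
    exact hw _ h.choose_spec.1 _ hy h.choose_spec.2
  set e := ε / 4 / (Cf + 1) / 3 with he
  have he0 : 0 < e := by positivity
  obtain ⟨W, C, hW, hC⟩ := factor (cv_of_ch2 h2) σ hσ Φ e he0
  obtain ⟨N0, hN0⟩ := hW.whole
  obtain ⟨N1, hN1'⟩ := exists_nat_ge (C / e)
  refine ⟨max (max N0 N1) 1, fun N hN => ?_⟩
  have hN1 : (0 : ℝ) < N := by exact_mod_cast le_of_max_le_right hN
  have hN2 : (N1 : ℝ) ≤ N := by exact_mod_cast le_of_max_le_right (le_of_max_le_left hN)
  rw [hX] at hx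
  obtain ⟨a, n, hl⟩ := hx 1 N
  have h0 := hN0 N (le_of_max_le_left (le_of_max_le_left hN)) x _ _ List.length_ofFn
    (fun i hi => by
      rw [List.length_ofFn] at hi
      rw [List.getElem?_ofFn, dif_pos hi]) (hC n a _ hl)
  have h1 : ‖∑ n ∈ Icc 1 N, (moebius n : ℂ) * Φ.f (fun i => x (i + n))‖
      ≤ ε / 4 / (Cf + 1) * N := by
    clear * - N k Φ x e C ε Cf h0 he N1 he0 hN1' hN2
    refine h0.trans ?_
    rw [div_le_iff₀ he0] at hN1'
    rw [List.length_ofFn, show ε / 4 / (Cf + 1) = 3 * e by rw [he]; ring]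
    linarith only [hN1', he0, hN2, mul_nonneg_of_nonpos_of_nonpos (le_of_lt (Mathlib.Tactic.Linarith.sub_neg_of_lt he0)) (Mathlib.Tactic.Linarith.sub_nonpos_of_le hN2)]
  rw [dist_zero_right, norm_mul, norm_div, norm_one, Complex.norm_natCast, one_div,
    inv_mul_lt_iff₀ hN1]
  have h2 : ∑ n ∈ Icc 1 N, f (fun i : ℤ => x (i + (n : ℤ))) * ((moebius n : ℤ) : ℂ)
      = ((Cf + 1 : ℝ) : ℂ) * ∑ n ∈ Icc 1 N, (moebius n : ℂ) * Φ.f (fun i => x (i + n))
        + ∑ n ∈ Icc 1 N, (f (fun i : ℤ => x (i + (n : ℤ)))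
          - ((Cf + 1 : ℝ) : ℂ) * Φ.f (fun i => x (i + n))) * ((moebius n : ℤ) : ℂ) := by
    rw [mul_sum, ← sum_add_distrib]; exact sum_congr rfl fun n _ => by ring
  have h3 : ‖∑ n ∈ Icc 1 N, (f (fun i : ℤ => x (i + (n : ℤ)))
      - ((Cf + 1 : ℝ) : ℂ) * Φ.f (fun i => x (i + n))) * ((moebius n : ℤ) : ℂ)‖ ≤ N * (ε / 4) := by
    refine (norm_sum_le_of_le _ (n := fun _ => ε / 4) fun n _ => ?_).trans (by simp)
    rw [norm_mul]
    exact (mul_le_of_le_one_right (norm_nonneg _) (norm_moebius_le n)).trans (hΦ _ (hsh n))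
  have h4 : ‖((Cf + 1 : ℝ) : ℂ) * ∑ n ∈ Icc 1 N, (moebius n : ℂ) * Φ.f (fun i => x (i + n))‖
      ≤ N * (ε / 4) := by
    rw [norm_mul, Complex.norm_real, Real.norm_of_nonneg (by positivity)]
    refine (mul_le_mul_of_nonneg_left h1 (by positivity)).trans (le_of_eq ?_)
    field_simp
  rw [h2]
  exact (norm_add_le _ _).trans_lt (by clear * - Cf N k Φ x f ε h3 h4 hε hN1; linarith only [h3, h4, hε, hN1, mul_pos_of_neg_of_neg (Mathlib.Tactic.Linarith.sub_neg_of_lt hε) (Mathlib.Tactic.Linarith.sub_neg_of_lt hN1)])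

end Pool.Agent.SB
end
end
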