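import Pool.Agent.Work.MP_cf06ef_an.P8

-- merged part: Pool.Agent.Work.MP_cf06ef_an.P12
section
-- merged part: Pool.Agent.Work.MP_cf06ef_an.P2
section
set_option autoImplicit false
open Finset Polynomial

namespace Pool.Agent.PT

lemma geom_zero {θ ρ w b : ℝ} (hθ : 1 < θ) (hρ0 : 0 ≤ ρ) (hρ : ρ < 1)
    (h : ∀ j : ℕ, |w| * θ ^ j ≤ b * ρ ^ j) : w = 0 := by
  by_contra hw
  have hw' : 0 < |w| := abs_pos.mpr hw
  obtain ⟨j, hj⟩ := pow_unbounded_of_one_lt (|b| / |w|) hθ
  rw [div_lt_iff₀ hw'] at hj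
  have h1 := h j
  have h2 : b * ρ ^ j ≤ |b| := by
    have := pow_le_one₀ (n := j) hρ0 hρ.le
    have h3 := pow_nonneg hρ0 j
    calc b * ρ ^ j ≤ |b| * ρ ^ j := by gcongr; exact le_abs_self b
      _ ≤ |b| * 1 := by gcongr
      _ = |b| := mul_one _
  linarith only [hj, h1, h2]

/-- the linear functional `X^i ↦ e i`. -/
noncomputable def Lf (e : ℕ → ℝ) : ℝ[X] →ₗ[ℝ] ℝ := (basisMonomials ℝ).constr ℝ e

lemma Lf_X_pow (e : ℕ → ℝ) (i : ℕ) : Lf e (X ^ i) = e i := by
  have := (basisMonomials ℝ).constr_basis ℝ e i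
  rw [coe_basisMonomials] at this
  simpa [Lf, X_pow_eq_monomial] using this

lemma Lf_mul (e : ℕ → ℝ) (j : ℕ) (W : ℝ[X]) (n : ℕ) (hn : W.natDegree < n) :
    Lf e (X ^ j * W) = ∑ i ∈ range n, W.coeff i * e (j + i) := by
  conv_lhs => rw [W.as_sum_range_C_mul_X_pow' hn, mul_sum, map_sum]
  refine sum_congr rfl fun i _ => ?_
  rw [show (X ^ j * (C (W.coeff i) * X ^ i) : ℝ[X]) = W.coeff i • X ^ (j + i) by
    rw [smul_eq_C_mul, pow_add]; ring, map_smul, Lf_X_pow, smul_eq_mul]

theorem PM.exists_of_raw {Λ : Type} [AddCommGroup Λ] [Module.Finite ℤ Λ] (θ ρ s : ℝ)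
    (r : Λ →+ ℝ) (T : ℕ → Λ →+ Λ) (φ : Λ →+ ℤ) (hθ : 1 < θ) (hρ0 : 0 < ρ) (hρ : ρ < 1)
    (hs : 0 < s) (hr : Function.Injective r) (hT : ∀ k γ, r (T k γ) = θ ^ k * r γ)
    (hb : ∀ γ, ∃ b : ℝ, ∀ j, |(φ (T j γ) : ℝ) - s * (θ ^ j * r γ)| ≤ b * ρ ^ j)
    (γ0 : Λ) (hγ0 : γ0 ≠ 0) :
    ∃ M : PM Λ, M.θ = θ ∧ M.r = r ∧ M.T = T ∧ M.φ = φ := by
  classical
  have hθ0 : 0 < θ := by linarith
  have Tadd : ∀ k l a, T (k + l) a = T k (T l a) := fun k l a =>
    hr (by simp [hT, pow_add, mul_assoc])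
  have T0 : ∀ a, T 0 a = a := fun a => hr (by simp [hT])
  -- the error and the seminorm
  set er : Λ → ℕ → ℝ := fun γ j => (φ (T j γ) : ℝ) - s * (θ ^ j * r γ) with her
  obtain er_add : ∀ a b j, er (a + b) j = er a j + er b j := by
    intro a b j; simp only [her, map_add]; push_cast; ring
  obtain er_neg : ∀ a j, er (-a) j = - er a j := by
    intro a j; simp only [her, map_neg]; push_cast; ring
  obtain er_zsmul : ∀ (n : ℤ) a j, er (n • a) j = n * er a j := by
    intro n a j; simp only [her, map_zsmul, smul_eq_mul, zsmul_eq_mul]; push_cast; ring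
  obtain er_T : ∀ k a j, er (T k a) j = er a (j + k) := by
    intro k a j; simp only [her, Tadd, hT, pow_add]; ring
  set N : Λ → ℝ := fun γ => ⨆ j, |er γ j| / ρ ^ j with hN
  obtain bdd : ∀ γ, BddAbove (Set.range fun j => |er γ j| / ρ ^ j) := by
    intro γ
    obtain ⟨b, hb'⟩ := hb γ
    refine ⟨b, ?_⟩
    rintro _ ⟨j, rfl⟩
    exact (div_le_iff₀ (pow_pos hρ0 j)).mpr (hb' j)
  have le_N : ∀ γ j, |er γ j| ≤ N γ * ρ ^ j := fun γ j =>
    (div_le_iff₀ (pow_pos hρ0 j)).mp (le_ciSup (bdd γ) j)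
  have N_le : ∀ γ b, (∀ j, |er γ j| ≤ b * ρ ^ j) → N γ ≤ b := fun γ b h =>
    ciSup_le fun j => (div_le_iff₀ (pow_pos hρ0 j)).mpr (h j)
  have N0 : ∀ γ, 0 ≤ N γ := fun γ => by
    have := le_N γ 0; simp at this; exact (abs_nonneg _).trans this
  -- the minimal polynomial
  obtain hint : IsIntegral ℤ θ := by
    refine isIntegral_of_smul_mem_submodule (LinearMap.range r.toIntLinearMap) ?_ ?_ θ ?_
    · intro h
      have : r γ0 ∈ LinearMap.range r.toIntLinearMap := ⟨γ0, rfl⟩
      rw [h, Submodule.mem_bot] at this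
      exact hγ0 (hr (by simpa using this))
    · rw [LinearMap.range_eq_map]; exact Module.Finite.fg_top.map _
    · rintro _ ⟨a, rfl⟩
      exact ⟨T 1 a, by simp [hT]⟩
  set P := minpoly ℤ θ with hP
  set d := P.natDegree with hd
  have Pmonic : P.Monic := minpoly.monic hint
  have Paeval : aeval θ P = 0 := minpoly.aeval ℤ θ
  have dpos : 0 < d := minpoly.natDegree_pos hint
  obtain Pact : ∀ j a, ∑ i ∈ range (d + 1), P.coeff i • T (j + i) a = 0 := by
    intro j a
    apply hr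
    rw [aeval_eq_sum_range] at Paeval
    simp only [map_sum, map_zsmul, hT, map_zero, zsmul_eq_mul] at Paeval ⊢
    have : ∑ i ∈ range (d + 1), (P.coeff i : ℝ) * (θ ^ (j + i) * r a)
        = (∑ i ∈ range (d + 1), (P.coeff i : ℝ) * θ ^ i) * (θ ^ j * r a) := by
      rw [sum_mul]; exact sum_congr rfl fun i _ => by rw [pow_add]; ring
    rw [this, Paeval, zero_mul]
  obtain P0 : P.coeff 0 ≠ 0 := by
    intro h0
    obtain ⟨Q, hQ⟩ := X_dvd_iff.mpr h0
    obtain hQ0 : aeval θ Q = 0 := by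
      rw [hQ, map_mul, aeval_X] at Paeval
      exact (mul_eq_zero.mp Paeval).resolve_left hθ0.ne'
    have hQne : Q ≠ 0 := by rintro rfl; exact Pmonic.ne_zero (by simpa using hQ)
    have h1 := natDegree_le_of_dvd (minpoly.isIntegrallyClosed_dvd hint hQ0) hQne
    obtain h2 : P.natDegree = 1 + Q.natDegree := by
      conv_lhs => rw [hQ]
      rw [natDegree_mul X_ne_zero hQne, natDegree_X]
    rw [← hP] at h1; omega
  obtain P1 : aeval θ (derivative P) ≠ 0 := by
    intro h0
    obtain hne : derivative P ≠ 0 := by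
      intro h; have := derivative_eq_zero.mp h; omega
    have h1 := natDegree_le_of_dvd (minpoly.isIntegrallyClosed_dvd hint h0) hne
    have h2 := natDegree_derivative_lt (p := P) (by omega)
    rw [← hP] at h1; omega
  obtain inj0 : ∀ c, (∀ i < d, φ (T i c) = 0) → c = 0 := by
    clear * - Λ d φ T P Pact θ Pmonic s r ρ N hθ hρ0 hρ er le_N hθ0 her hr hs
    intro c hc
    obtain all : ∀ j, φ (T j c) = 0 := by
      intro j
      induction j using Nat.strong_induction_on with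
      | _ j ih =>
        by_cases hj : j < d
        · exact hc j hj
        · obtain ⟨l, rfl⟩ := Nat.exists_eq_add_of_le' (not_lt.mp hj)
          have h1 := congrArg φ (Pact l c)
          rw [sum_range_succ, map_add, map_sum, map_zero] at h1
          have h2 : ∑ i ∈ range d, φ (P.coeff i • T (l + i) c) = 0 :=
            sum_eq_zero fun i hi => by
              rw [map_zsmul, ih (l + i) (by have := mem_range.mp hi; omega), smul_zero]
          have h3 : P.coeff d = 1 := Pmonic.coeff_natDegree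
          rw [h2, h3, zero_add, one_smul] at h1
          exact h1
    have : s * r c = 0 := geom_zero (b := N c) hθ hρ0.le hρ fun j => by
      have h1 := le_N c j
      simp only [her, all j] at h1
      rw [Int.cast_zero, zero_sub, abs_neg, show s * (θ ^ j * r c) = (s * r c) * θ ^ j by ring,
        abs_mul, abs_of_pos (pow_pos hθ0 j)] at h1
      exact h1
    exact hr (by simpa using (mul_eq_zero.mp this).resolve_left hs.ne')
  refine ⟨⟨θ, ρ, s, r, T, φ, N, hθ, hρ0.le, hρ, hs, hr, hT, ?_, ?_, ?_, ?_, ?_, ?_, ?_, ?_, ?_⟩,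
    rfl, rfl, rfl, rfl⟩
  · intro a b
    refine N_le _ _ fun j => ?_
    rw [er_add, add_mul]
    exact (abs_add_le _ _).trans (add_le_add (le_N a j) (le_N b j))
  · intro a; simp only [hN, er_neg, abs_neg]
  · intro k a
    refine N_le _ _ fun j => ?_
    rw [er_T]
    exact (le_N a _).trans (le_of_eq (by rw [pow_add]; ring))
  · intro n a
    apply le_antisymm
    · refine N_le _ _ fun j => ?_
      rw [← natCast_zsmul, er_zsmul, abs_mul, mul_assoc]
      simp only [Int.cast_natCast, Nat.abs_cast]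
      clear * - n er a j N ρ le_N; gcongr; exact le_N a j
    · rcases Nat.eq_zero_or_pos n with rfl | hn
      · simpa using N0 _
      · have hn' : (0 : ℝ) < n := by exact_mod_cast hn
        rw [mul_comm, ← le_div_iff₀ hn']
        refine N_le _ _ fun j => ?_
        have h1 := le_N (n • a) j
        rw [← natCast_zsmul, er_zsmul, abs_mul, natCast_zsmul] at h1
        simp only [Int.cast_natCast, Nat.abs_cast] at h1
        rw [div_mul_eq_mul_div, le_div_iff₀ hn']; linarith only [h1]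
  · intro a
    have := le_N a 0
    simpa [her, T0] using this
  · intro R
    obtain ⟨K, hK⟩ := exists_nat_ge (s * θ ^ d * |R| + |R|)
    refine Set.Finite.of_finite_image (f := fun a (i : Fin d) => φ (T i a)) ?_ ?_
    · refine (Set.Finite.pi' (fun _ : Fin d => Set.finite_Icc (-(K : ℤ)) K)).subset ?_
      rintro _ ⟨a, ⟨ha1, ha2⟩, rfl⟩ i
      have h1 := le_N a i
      obtain h2 : N a * ρ ^ (i : ℕ) ≤ |R| := by
        clear * - ρ d i hρ0 hρ N a R N0 ha2
        have := pow_le_one₀ (n := i) hρ0.le hρ.le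
        calc N a * ρ ^ (i : ℕ) ≤ N a * 1 := by gcongr; exact N0 a
          _ ≤ |R| := by rw [mul_one]; exact ha2.trans (le_abs_self R)
      obtain h3 : |s * (θ ^ (i : ℕ) * r a)| ≤ s * θ ^ d * |R| := by
        clear * - s θ d i Λ r a R hs hθ0 hθ ha1
        rw [abs_mul, abs_mul, abs_of_pos hs, abs_of_pos (pow_pos hθ0 _), mul_assoc]
        have h4 : θ ^ (i : ℕ) ≤ θ ^ d := pow_le_pow_right₀ hθ.le i.2.le
        have h5 := ha1.trans (le_abs_self R)
        gcongr
      obtain h4 : |(φ (T i a) : ℝ)| ≤ K := by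
        have : (φ (T i a) : ℝ) = er a i + s * (θ ^ (i : ℕ) * r a) := by simp [her]
        rw [this]
        exact (abs_add_le _ _).trans (by linarith only [hK, h1, h2, h3])
      have h5 : |φ (T i a)| ≤ (K : ℤ) := by exact_mod_cast h4
      exact abs_le.mp h5
    · intro a _ b _ hab
      have := inj0 (a - b) fun i hi => by
        rw [map_sub, map_sub, sub_eq_zero]; exact congrFun hab ⟨i, hi⟩
      exact sub_eq_zero.mp this
  · refine ⟨(P.coeff 0).natAbs, by simpa using P0, fun a => ?_⟩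
    have h1 := Pact 0 a
    rw [sum_range_succ'] at h1
    obtain h2 : ∑ i ∈ range d, P.coeff (i + 1) • T (0 + (i + 1)) a
        = T 1 (∑ i ∈ range d, P.coeff (i + 1) • T i a) := by
      rw [map_sum]; refine sum_congr rfl fun i _ => ?_
      rw [map_zsmul, ← Tadd, zero_add, add_comm]
    rw [h2, add_zero, T0] at h1
    rcases Int.natAbs_eq (P.coeff 0) with h | h
    · refine ⟨-(∑ i ∈ range d, P.coeff (i + 1) • T i a), ?_⟩
      rw [← natCast_zsmul, ← h, map_neg]; exact eq_neg_of_add_eq_zero_right h1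
    · refine ⟨(∑ i ∈ range d, P.coeff (i + 1) • T i a), ?_⟩
      rw [← natCast_zsmul, ← neg_eq_iff_eq_neg.mpr h, neg_smul]
      exact (eq_neg_of_add_eq_zero_left h1).symm
  · intro p hp
    obtain ⟨n, f, hf⟩ := Module.Finite.exists_fin' ℤ Λ
    refine ⟨(Fintype.piFinset fun _ : Fin n => Ico (0 : ℤ) p).image f, fun a => ?_⟩
    obtain ⟨v, rfl⟩ := hf a
    have hp' : (0 : ℤ) < p := by exact_mod_cast Nat.pos_of_ne_zero hp
    refine ⟨f (fun i => v i % p), mem_image_of_mem _ (Fintype.mem_piFinset.mpr fun i =>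
      mem_Ico.mpr ⟨Int.emod_nonneg _ hp'.ne', Int.emod_lt_of_pos _ hp'⟩), f (fun i => v i / p), ?_⟩
    rw [← map_nsmul, ← map_add]
    congr 1; funext i
    simp [Int.emod_add_mul_ediv]
  · intro k
    set Pr : ℝ[X] := P.map (Int.castRingHom ℝ) with hPr
    obtain Prroot : Pr.IsRoot θ := by
      rw [IsRoot, hPr, eval_map, ← Paeval, aeval_def]; rfl
    set Q : ℝ[X] := Pr /ₘ (X - C θ) with hQ
    have hPQ : (X - C θ) * Q = Pr := mul_divByMonic_eq_iff_isRoot.mpr Prroot
    have Prdeg : Pr.natDegree = d := Pmonic.natDegree_map _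
    obtain Qdeg : Q.natDegree < d + 1 := by
      have := natDegree_divByMonic Pr (monic_X_sub_C θ); rw [← hQ] at this; omega
    obtain Qθ : Q.eval θ ≠ 0 := by
      intro h
      apply P1
      obtain h1 : (derivative Pr).eval θ = Q.eval θ := by
        rw [← hPQ]; simp
      rw [h, hPr, derivative_map, eval_map] at h1
      rw [aeval_def]; exact h1
    set e := er γ0 with he
    obtain LP : ∀ j, Lf e (X ^ j * Pr) = 0 := by
      clear * - e Pr d θ Prdeg Λ φ P T γ0 Pact r s hPr er he her hT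
      intro j
      rw [Lf_mul e j Pr (d + 1) (by omega)]
      have h1 := congrArg φ (Pact j γ0)
      have h2 := congrArg r (Pact j γ0)
      simp only [map_sum, map_zsmul, map_zero, hT, zsmul_eq_mul, smul_eq_mul] at h1 h2
      obtain h3 : ((∑ i ∈ range (d + 1), P.coeff i * φ (T (j + i) γ0) : ℤ) : ℝ) = 0 := by
        exact_mod_cast h1
      push_cast at h3
      simp only [he, her, hPr, coeff_map, mul_sub, sum_sub_distrib, eq_intCast]
      rw [h3, zero_sub, neg_eq_zero]
      have : ∑ i ∈ range (d + 1), (P.coeff i : ℝ) * (s * (θ ^ (j + i) * r γ0))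
        = s * ∑ i ∈ range (d + 1), (P.coeff i : ℝ) * (θ ^ (j + i) * r γ0) := by
        rw [mul_sum]; exact sum_congr rfl fun i _ => by ring
      rw [this, h2, mul_zero]
    obtain wrec : ∀ j, Lf e (X ^ j * Q) = Lf e (X ^ 0 * Q) * θ ^ j := by
      intro j
      induction j with
      | zero => simp
      | succ j ih =>
        obtain h1 : (X ^ (j + 1) * Q : ℝ[X]) = X ^ j * Pr + θ • (X ^ j * Q) := by
          rw [← hPQ, smul_eq_C_mul]; ring
        rw [h1, map_add, LP, map_smul, ih, smul_eq_mul, pow_succ]; ring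
    have ebd : ∀ j i, |e (j + i)| ≤ N γ0 * ρ ^ j := fun j i =>
      (le_N γ0 _).trans (by
        have := N0 γ0
        gcongr ?_ * ?_
        exact pow_le_pow_of_le_one hρ0.le hρ.le (by omega))
    have w0 : Lf e (X ^ 0 * Q) = 0 :=
      geom_zero (b := (∑ i ∈ range (d + 1), |Q.coeff i|) * N γ0) hθ hρ0.le hρ fun j => by
        clear * - e Q θ j d N γ0 ρ hθ0 wrec Qdeg ebd
        rw [← abs_of_pos (pow_pos hθ0 j), ← abs_mul, ← wrec, Lf_mul e j Q (d + 1) Qdeg,
          sum_mul, sum_mul]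
        refine (abs_sum_le_sum_abs _ _).trans (sum_le_sum fun i _ => ?_)
        rw [abs_mul, mul_assoc]; gcongr; exact ebd j i
    have wz : ∀ j, ∑ i ∈ range (d + 1), Q.coeff i * e (j + i) = 0 := fun j => by
      rw [← Lf_mul e j Q (d + 1) Qdeg, wrec, w0, zero_mul]
    have hr0 : r γ0 ≠ 0 := fun h => hγ0 (hr (by simpa using h))
    set c := Q.eval θ * (s * (θ ^ k * r γ0)) with hc
    have hc0 : c ≠ 0 := by clear * - θ Q s k Λ r γ0 Qθ hs hθ hr0 c; positivity
    set v : ℕ → ℝ := fun i => Q.coeff i / c with hv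
    set U : ℝ := ∑ i ∈ range (d + 1), |(φ (T (k + i) γ0) : ℝ)| with hU
    have hU0 : 0 ≤ U := sum_nonneg fun i _ => abs_nonneg _
    have hN0 := N0 γ0
    refine ⟨(range (d + 1)).image v, min (1 / (U + 1)) (1 / ((d + 1) * N γ0 + 1)),
      by clear * - U d N γ0 Λ φ T k dpos hN0; positivity, fun t ht => ?_⟩
    set η := min (1 / (U + 1)) (1 / ((d + 1) * N γ0 + 1)) with hη
    have hη0 : 0 < η := by clear * - U d N γ0 Λ φ T k dpos hN0 η; positivity
    have : ∀ i, ∃ z : ℤ, i ∈ range (d + 1) → |v i * t - z| < η := by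
      intro i
      by_cases hi : i ∈ range (d + 1)
      · obtain ⟨z, hz⟩ := ht (v i) (mem_image_of_mem _ hi); exact ⟨z, fun _ => hz⟩
      · exact ⟨0, fun h => absurd h hi⟩
    choose z hz using this
    refine ⟨∑ i ∈ range (d + 1), z i • T i γ0, N_le _ _ fun j => ?_, ?_⟩
    · have h1 : er (∑ i ∈ range (d + 1), z i • T i γ0) j
          = ∑ i ∈ range (d + 1), (z i - v i * t) * e (j + i) := by
        clear * - d v t e j c Q hv s θ Λ r γ0 k φ T er z wz her hT he Tadd
        obtain h2 : ∑ i ∈ range (d + 1), (v i * t) * e (j + i)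
            = (t / c) * ∑ i ∈ range (d + 1), Q.coeff i * e (j + i) := by
          rw [mul_sum]; exact sum_congr rfl fun i _ => by simp only [hv]; ring
        simp only [sub_mul, sum_sub_distrib]
        rw [h2, wz, mul_zero, sub_zero]
        simp only [he, her, map_sum, map_zsmul, hT, Tadd, zsmul_eq_mul, smul_eq_mul, mul_sub,
          sum_sub_distrib, mul_sum]
        push_cast
        congr 1
        exact sum_congr rfl fun i _ => by rw [pow_add]; ring
      rw [h1]
      calc _ ≤ ∑ i ∈ range (d + 1), η * (N γ0 * ρ ^ j) := by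
            refine (abs_sum_le_sum_abs _ _).trans (sum_le_sum fun i hi => ?_)
            rw [abs_mul, abs_sub_comm]
            exact mul_le_mul (hz i hi).le (ebd j i) (abs_nonneg _) hη0.le
        _ = (η * ((d + 1) * N γ0)) * ρ ^ j := by simp; ring
        _ ≤ 1 * ρ ^ j := by
            clear * - ρ j η d N γ0 U hη0 dpos hN0 hρ0
            gcongr
            have : η ≤ 1 / ((d + 1) * N γ0 + 1) := min_le_right _ _
            rw [le_div_iff₀ (by positivity)] at this
            linarith only [hη0, this]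
    · have h1 : ((φ (T k (∑ i ∈ range (d + 1), z i • T i γ0)) - t : ℤ) : ℝ)
          = ∑ i ∈ range (d + 1), (z i - v i * t) * (φ (T (k + i) γ0) : ℝ) := by
        clear * - d Q Λ φ T k γ0 c e wz s θ r er he her hc Qdeg v t hv z hc0 Tadd
        obtain h2 : ∑ i ∈ range (d + 1), Q.coeff i * (φ (T (k + i) γ0) : ℝ) = c := by
          have h3 := wz k
          simp only [he, her, mul_sub, sum_sub_distrib] at h3
          rw [sub_eq_zero.mp h3, hc, eval_eq_sum_range' Qdeg, sum_mul]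
          exact sum_congr rfl fun i _ => by rw [pow_add]; ring
        obtain h3 : ∑ i ∈ range (d + 1), (v i * t) * (φ (T (k + i) γ0) : ℝ)
            = (t / c) * ∑ i ∈ range (d + 1), Q.coeff i * (φ (T (k + i) γ0) : ℝ) := by
          rw [mul_sum]; exact sum_congr rfl fun i _ => by simp only [hv]; ring
        simp only [sub_mul, sum_sub_distrib]
        rw [h3, h2, div_mul_cancel₀ _ hc0]
        simp only [map_sum, map_zsmul, Tadd, smul_eq_mul]
        push_cast; rfl
      obtain h2 : |((φ (T k (∑ i ∈ range (d + 1), z i • T i γ0)) - t : ℤ) : ℝ)| < 1 := by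
        clear * - Λ φ T k d z γ0 t v h1 η U hz hU N hη0
        rw [h1]
        calc _ ≤ ∑ i ∈ range (d + 1), η * |(φ (T (k + i) γ0) : ℝ)| := by
              refine (abs_sum_le_sum_abs _ _).trans (sum_le_sum fun i hi => ?_)
              rw [abs_mul, abs_sub_comm]
              exact mul_le_mul_of_nonneg_right (hz i hi).le (abs_nonneg _)
          _ = η * U := by rw [hU, mul_sum]
          _ < 1 := by
              clear * - η U d N γ0 hη0 Λ φ T k
              have : η ≤ 1 / (U + 1) := min_le_left _ _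
              rw [le_div_iff₀ (by positivity)] at this
              nlinarith
      have h3 : |φ (T k (∑ i ∈ range (d + 1), z i • T i γ0)) - t| < 1 := by exact_mod_cast h2
      exact sub_eq_zero.mp (Int.abs_lt_one_iff.mp h3)

end Pool.Agent.PT
end

-- merged part: Pool.Agent.Work.MP_cf06ef_an.P12
section
set_option autoImplicit false
set_option linter.unusedSectionVars false
open Finset Filter Topology

namespace Pool.Agent.PT

lemma geom_of_tendsto {E : Type} [NormedAddCommGroup E] [NormedSpace ℝ E] [FiniteDimensional ℝ E]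
    (f : E →ₗ[ℝ] E) (e : ℕ → E) (he : ∀ j, e (j + 1) = f (e j)) (h0 : Tendsto e atTop (𝓝 0)) :
    ∃ ρ C : ℝ, 0 < ρ ∧ ρ < 1 ∧ ∀ j, ‖e j‖ ≤ C * ρ ^ j := by
  let W : Submodule ℝ E :=
    { carrier := {v | Tendsto (fun j => (f ^ j) v) atTop (𝓝 0)}
      add_mem' := fun {a b} ha hb => by simpa using Tendsto.add ha hb
      zero_mem' := by simp
      smul_mem' := fun c a ha => by simpa using Tendsto.const_smul ha c }
  have he' : ∀ j i, (f ^ j) (e i) = e (j + i) := by
    intro j i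
    induction j with
    | zero => simp
    | succ j ih => rw [pow_succ', Module.End.mul_apply, ih, ← he]; congr 1; omega
  have hW : ∀ i, e i ∈ W := fun i => by
    show Tendsto _ _ _
    simp only [he']; exact h0.comp (tendsto_add_atTop_nat i)
  let b := Module.finBasis ℝ W
  obtain ⟨C0, hC0, hb⟩ := b.exists_opNorm_le (F := E)
  have ev : ∀ᶠ j in atTop, ∀ i, ‖(f ^ j) (b i)‖ ≤ 1 / (2 * C0) := by
    rw [eventually_all]
    intro i
    have : Tendsto (fun j => ‖(f ^ j) (b i)‖) atTop (𝓝 0) := by simpa using (b i).2.norm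
    exact this.eventually (ge_mem_nhds (by positivity))
  obtain ⟨j0, hj1, hj0⟩ := ((eventually_ge_atTop 1).and ev).exists
  have half : ∀ i, ‖e (j0 + i)‖ ≤ 1 / 2 * ‖e i‖ := fun i => by
    have h1 := hb (u := LinearMap.toContinuousLinearMap ((f ^ j0).domRestrict W))
      (by positivity) hj0
    have h2 := (LinearMap.toContinuousLinearMap ((f ^ j0).domRestrict W)).le_of_opNorm_le h1
      ⟨e i, hW i⟩
    rw [show C0 * (1 / (2 * C0)) = 1 / 2 by field_simp] at h2
    rw [← he']; exact h2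
  have hj : (1 : ℝ) ≤ j0 := by exact_mod_cast hj1
  have hr : 1 / (2 * j0 : ℝ) ≤ 1 / 2 := by gcongr; linarith only [hj]
  have hr0 : 0 < 1 / (2 * j0 : ℝ) := by positivity
  set ρ : ℝ := 1 - 1 / (2 * j0) with hρ
  have hρ0 : 0 < ρ := by linarith only [hr, hr0]
  have hρ1 : ρ < 1 := by linarith only [hr0]
  have hp : 1 / 2 ≤ ρ ^ j0 := by
    have := one_add_mul_le_pow (a := -(1 / (2 * j0 : ℝ))) (by linarith only [hr, hr0]) j0
    rw [← sub_eq_add_neg, ← hρ] at this
    refine le_trans (le_of_eq ?_) this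
    field_simp; ring
  set C1 := ∑ i ∈ range j0, ‖e i‖
  have hC1 : 0 ≤ C1 := sum_nonneg fun _ _ => norm_nonneg _
  refine ⟨ρ, 2 * C1, hρ0, hρ1, fun j => ?_⟩
  induction j using Nat.strong_induction_on with
  | _ j ih =>
    by_cases hlt : j < j0
    · have h1 : ‖e j‖ ≤ C1 := single_le_sum (f := fun i => ‖e i‖) (fun _ _ => norm_nonneg _)
        (mem_range.mpr hlt)
      have h2 := hp.trans (pow_le_pow_of_le_one hρ0.le hρ1.le hlt.le)
      clear * - E e j C1 ρ j0 h1 hr hr0 hC1 h2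
      (refine le_of_not_gt fun h_nl => ?_; linarith only [h_nl, h1, hr, hr0, hC1, h2, mul_nonneg_of_nonpos_of_nonpos (Mathlib.Tactic.Linarith.sub_nonpos_of_le hr) (le_of_lt (Mathlib.Tactic.Linarith.sub_neg_of_lt h_nl)), mul_pos_of_neg_of_neg (Mathlib.Tactic.Linarith.sub_neg_of_lt hr0) (Mathlib.Tactic.Linarith.sub_neg_of_lt h_nl), mul_nonneg_of_nonpos_of_nonpos (Mathlib.Tactic.Linarith.sub_nonpos_of_le hC1) (Mathlib.Tactic.Linarith.sub_nonpos_of_le h2)])
    · obtain ⟨i, rfl⟩ := Nat.exists_eq_add_of_le (not_lt.mp hlt)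
      have h1 := ih i (by omega)
      have h2 : 0 ≤ 2 * C1 * ρ ^ i := by positivity
      rw [pow_add]
      clear * - E e j0 i C1 ρ h1 half hr hr0 hp h2
      (refine le_of_not_gt fun h_nl => ?_; linarith only [h_nl, h1, half, hr, hr0, hp, h2, half i, mul_nonneg_of_nonpos_of_nonpos (Mathlib.Tactic.Linarith.sub_nonpos_of_le hr) (le_of_lt (Mathlib.Tactic.Linarith.sub_neg_of_lt h_nl)), mul_pos_of_neg_of_neg (Mathlib.Tactic.Linarith.sub_neg_of_lt hr0) (Mathlib.Tactic.Linarith.sub_neg_of_lt h_nl), mul_nonneg_of_nonpos_of_nonpos (Mathlib.Tactic.Linarith.sub_nonpos_of_le hp) (Mathlib.Tactic.Linarith.sub_nonpos_of_le h2)])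

section Words
variable {A : Type} (σ : A → List A)

/-- the iterated substitution on words. -/
def it (n : ℕ) (w : List A) : List A := Nat.iterate (fun w : List A => w.flatMap σ) n w

lemma it_add (k l : ℕ) (w : List A) : it σ (k + l) w = it σ l (it σ k w) := by
  rw [it, add_comm, Function.iterate_add_apply]; rfl

lemma it_one (w : List A) : it σ 1 w = w.flatMap σ := rfl

lemma it_append (n : ℕ) (v w : List A) : it σ n (v ++ w) = it σ n v ++ it σ n w := by
  induction n with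
  | zero => rfl
  | succ n ih => rw [it_add, it_add, it_add, ih, it_one, it_one, it_one, List.flatMap_append]

lemma it_nil (n : ℕ) : it σ n [] = [] := by
  induction n with
  | zero => rfl
  | succ n ih => rw [it_add, ih]; rfl

lemma it_cons (n : ℕ) (a : A) (w : List A) : it σ n (a :: w) = it σ n [a] ++ it σ n w :=
  it_append σ n [a] w

lemma length_it (n : ℕ) (w : List A) :
    (it σ n w).length = (w.map fun a => (it σ n [a]).length).sum := by
  induction w with
  | nil => simp [it_nil]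
  | cons a w ih => rw [it_cons, List.length_append, ih]; simp

lemma it_ne_nil (hσ : ∀ a, σ a ≠ []) (n : ℕ) (a : A) : it σ n [a] ≠ [] := by
  induction n generalizing a with
  | zero => simp [it]
  | succ n ih =>
    rw [add_comm, it_add, it_one]
    obtain ⟨b, w, h⟩ := List.exists_cons_of_ne_nil (hσ a)
    simp [h, it_cons σ n b w, ih b]

lemma word_cover (ℓ : A → ℝ) (W : List A) (y : ℝ) (h0 : 0 ≤ y) (h1 : y < (W.map ℓ).sum) :
    ∃ w1 b w2, W = w1 ++ b :: w2 ∧ (w1.map ℓ).sum ≤ y ∧ y < (w1.map ℓ).sum + ℓ b := by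
  induction W generalizing y with
  | nil => simp at h1; linarith
  | cons a W ih =>
    by_cases h : y < ℓ a
    · exact ⟨[], a, W, rfl, by simpa using h0, by simpa using h⟩
    · obtain ⟨w1, b, w2, rfl, h2, h3⟩ := ih (y - ℓ a) (by linarith) (by simp at h1; linarith)
      exact ⟨a :: w1, b, w2, rfl, by simp; linarith, by simp; linarith⟩

lemma word_uniq (ℓ : A → ℝ) (hℓ : ∀ a, 0 ≤ ℓ a) {w1 w2 v1 v2 : List A} {b b' : A} {y : ℝ}
    (h : w1 ++ b :: w2 = v1 ++ b' :: v2) (a1 : (w1.map ℓ).sum ≤ y) (a2 : y < (w1.map ℓ).sum + ℓ b)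
    (a3 : (v1.map ℓ).sum ≤ y) (a4 : y < (v1.map ℓ).sum + ℓ b') : b = b' ∧ w1 = v1 := by
  have nn : ∀ w : List A, 0 ≤ (w.map ℓ).sum := fun w => List.sum_nonneg (by simpa using fun a _ => hℓ a)
  rcases List.append_eq_append_iff.mp h with ⟨u, rfl, h2⟩ | ⟨u, rfl, h2⟩
  · cases u with
    | nil => simp at h2; simp [h2.1]
    | cons c u =>
      simp only [List.cons_append, List.cons.injEq] at h2
      simp [← h2.1] at a3; linarith only [a2, a3, nn, nn u]
  · cases u with
    | nil => simp at h2; simp [h2.1]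
    | cons c u =>
      simp only [List.cons_append, List.cons.injEq] at h2
      simp [← h2.1] at a1; linarith [nn u]

theorem exists_base [Fintype A] [Nonempty A] (hσ : ∀ a, σ a ≠ []) (θ : ℝ) (hθ : 1 < θ) (c : A → ℝ)
    (hc : ∀ a, Tendsto (fun n => ((it σ n [a]).length : ℝ) - c a * θ ^ n) atTop (𝓝 0)) :
    ∃ (Λ : Type) (_ : AddCommGroup Λ) (B : GS Λ A Unit) (K : ℕ),
      (∀ j a, B.φ (B.T j (B.lam a)) = (it σ (j + K) [a]).length) ∧
      ∀ k a b o, B.D k a b () o ↔ ∃ w1 w2, it σ k [a] = w1 ++ b :: w2 ∧ o = (w1.map B.lam).sum := by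
  classical
  have hθ0 : 0 < θ := by linarith
  have cpos : ∀ a, 0 < c a := fun a => by
    obtain ⟨n, hn⟩ := ((hc a).eventually (gt_mem_nhds one_pos)).exists
    obtain h1 : (1 : ℝ) ≤ (it σ n [a]).length := by
      exact_mod_cast List.length_pos_iff.mpr (it_ne_nil σ hσ n a)
    exact (mul_pos_iff_of_pos_right (pow_pos hθ0 n)).mp (by linarith)
  obtain tw : ∀ w : List A, Tendsto (fun n => ((it σ n w).length : ℝ) - (w.map c).sum * θ ^ n)
      atTop (𝓝 0) := by
    intro w
    induction w with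
    | nil => simp [it_nil]
    | cons a w ih =>
      have := (hc a).add ih
      rw [add_zero] at this
      refine this.congr fun n => ?_
      rw [it_cons σ n a w]; simp; ring
  obtain eig : ∀ k a, ((it σ k [a]).map c).sum = θ ^ k * c a := by
    intro k a
    have h1 := ((hc a).comp (tendsto_add_atTop_nat k)).sub (tw (it σ k [a]))
    rw [sub_zero] at h1
    obtain h2 : Tendsto (fun n : ℕ => |((it σ k [a]).map c).sum - θ ^ k * c a| * θ ^ n) atTop (𝓝 0) := by
      have := h1.abs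
      rw [abs_zero] at this
      refine this.congr fun n => ?_
      simp only [Function.comp, add_comm n k, it_add]
      rw [← abs_of_pos (pow_pos hθ0 n), ← abs_mul, abs_of_pos (pow_pos hθ0 n)]
      congr 1; ring
    have h3 := ge_of_tendsto' h2 (b := |((it σ k [a]).map c).sum - θ ^ k * c a|) fun n =>
      le_mul_of_one_le_right (abs_nonneg _) (one_le_pow₀ hθ.le)
    exact sub_eq_zero.mp (abs_nonpos_iff.mp h3)
  obtain ⟨ρ, Cg, hρ0, hρ1, hgeo⟩ := geom_of_tendsto
    (E := A → ℝ) { toFun := fun v a => ((σ a).map v).sum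
                   map_add' := fun v w => by funext a; simp [← List.sum_map_add]; rfl
                   map_smul' := fun r v => by funext a; simp [← List.sum_map_mul_left]; rfl }
    (fun n a => ((it σ n [a]).length : ℝ) - c a * θ ^ n) (fun j => by
      funext a
      have h1 := eig 1 a
      simp only [it_one, List.flatMap_singleton, pow_one] at h1
      simp only [LinearMap.coe_mk, AddHom.coe_mk]
      rw [add_comm j 1, it_add, it_one, List.flatMap_singleton, length_it, pow_add, pow_one,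
        ← mul_assoc, mul_comm (c a), ← h1]
      generalize σ a = w
      induction w with
      | nil => simp
      | cons b w ih => simp only [List.map_cons, List.sum_cons, ← ih]; push_cast; ring)
    (tendsto_pi_nhds.mpr hc)
  let Λ := Submodule.span ℤ (Set.range c)
  have : Module.Finite ℤ Λ := Module.Finite.span_of_finite ℤ (Set.finite_range c)
  let r : Λ →+ ℝ := Λ.subtype.toAddMonoidHom
  have rinj : Function.Injective r := Subtype.val_injective
  let lam : A → Λ := fun a => ⟨c a, Submodule.subset_span ⟨a, rfl⟩⟩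
  have rval : ∀ w : List A, r (w.map lam).sum = (w.map c).sum := fun w => by
    rw [map_list_sum, List.map_map]; rfl
  obtain Tmem : ∀ (k : ℕ), ∀ x ∈ Λ, θ ^ k * x ∈ Λ := by
    intro k x hx
    induction hx using Submodule.span_induction with
    | mem x hx => obtain ⟨a, rfl⟩ := hx; rw [← eig, ← rval]; exact Subtype.prop _
    | zero => simp
    | add x y _ _ hx hy => rw [mul_add]; exact Λ.add_mem hx hy
    | smul n x _ hx => rw [mul_smul_comm]; exact Λ.smul_mem n hx
  let T : ℕ → Λ →+ Λ := fun k =>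
    { toFun := fun x => ⟨θ ^ k * x, Tmem k x x.2⟩
      map_zero' := Subtype.ext (by simp)
      map_add' := fun x y => Subtype.ext (by simp [mul_add]) }
  have rT : ∀ k γ, r (T k γ) = θ ^ k * r γ := fun _ _ => rfl
  obtain Tval : ∀ k (w : List A), T k (w.map lam).sum = ((it σ k w).map lam).sum := by
    intro k w
    apply rinj
    rw [rT, rval, rval]
    induction w with
    | nil => simp [it_nil]
    | cons a w ih => rw [it_cons σ k a w]; simp [eig, ← ih, mul_add]
  let π : (A → ℤ) →ₗ[ℤ] Λ := Fintype.linearCombination ℤ lam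
  obtain πsurj : LinearMap.range π = ⊤ := by
    rw [Fintype.range_linearCombination, eq_top_iff]
    rintro ⟨x, hx⟩ -
    induction hx using Submodule.span_induction with
    | mem x hx => obtain ⟨a, rfl⟩ := hx; exact Submodule.subset_span ⟨a, rfl⟩
    | zero => exact Submodule.zero_mem _
    | add x y _ _ hx hy => exact Submodule.add_mem _ hx hy
    | smul n x _ hx => exact Submodule.smul_mem _ n hx
  let ℓ : ℕ → (A → ℤ) →ₗ[ℤ] ℤ := fun j =>
    Fintype.linearCombination ℤ fun a => ((it σ j [a]).length : ℤ)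
  obtain ⟨K, hK⟩ : ∃ K, LinearMap.ker π ≤ LinearMap.ker (ℓ K) := by
    clear * - A Λ π ℓ r σ c θ hc lam this
    obtain ⟨s, hs⟩ := IsNoetherian.noetherian (LinearMap.ker π)
    have : ∀ᶠ j in atTop, ∀ n ∈ s, ℓ j n = 0 := by
      rw [eventually_all_finset]
      intro n hn
      have h1 : n ∈ LinearMap.ker π := hs ▸ Submodule.subset_span hn
      have h2 := congrArg r (LinearMap.mem_ker.mp h1)
      simp only [π, Fintype.linearCombination_apply, map_sum, map_zsmul, map_zero,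
        zsmul_eq_mul] at h2
      obtain h3 : Tendsto (fun j => ((ℓ j n : ℤ) : ℝ)) atTop (𝓝 0) := by
        have := tendsto_finsetSum univ fun a _ => (hc a).const_mul (n a : ℝ)
        simp only [mul_zero, sum_const_zero] at this
        refine this.congr fun j => ?_
        simp only [ℓ, Fintype.linearCombination_apply, smul_eq_mul, mul_sub, sum_sub_distrib,
          ← mul_assoc, ← sum_mul]
        rw [show ∑ a, (n a : ℝ) * c a = 0 from h2]; simp
      filter_upwards [h3.abs.eventually (gt_mem_nhds (by simp : |(0 : ℝ)| < 1))] with j hj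
      exact Int.abs_lt_one_iff.mp (by exact_mod_cast hj)
    obtain ⟨K, hK⟩ := this.exists
    exact ⟨K, hs ▸ Submodule.span_le.mpr hK⟩
  obtain ⟨g, hg⟩ := π.exists_rightInverse_of_surjective πsurj
  let φ : Λ →+ ℤ := ((ℓ K).comp g).toAddMonoidHom
  have φlam : ∀ a, φ (lam a) = (it σ K [a]).length := fun a => by
    obtain h1 : g (lam a) - Pi.single a 1 ∈ LinearMap.ker π := by
      rw [LinearMap.mem_ker, map_sub, show π (g (lam a)) = lam a from LinearMap.congr_fun hg _]
      simp [π]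
    have h2 := LinearMap.mem_ker.mp (hK h1)
    rw [map_sub, sub_eq_zero] at h2
    show ℓ K (g (lam a)) = _
    rw [h2]; simp [ℓ]
  have φT : ∀ j a, φ (T j (lam a)) = (it σ (j + K) [a]).length := fun j a => by
    have := Tval j [a]
    simp only [List.map_singleton, List.sum_singleton] at this
    rw [this, map_list_sum, it_add, length_it σ K, List.map_map]
    simp only [Function.comp_def, φlam]; push_cast; rw [List.map_map]; rfl
  obtain ⟨a0⟩ := ‹Nonempty A›
  obtain ⟨M, hMθ, hMr, hMT, hMφ⟩ := PM.exists_of_raw θ ρ (θ ^ K) r T φ hθ hρ0 hρ1 (pow_pos hθ0 K)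
    rinj rT (fun γ => by
      clear * - A Λ π γ φ T θ K r ρ πsurj Cg σ lam φT c hgeo
      obtain ⟨n, rfl⟩ := LinearMap.range_eq_top.mp πsurj γ
      refine ⟨∑ a, |(n a : ℝ)| * (Cg * ρ ^ K), fun j => ?_⟩
      simp only [π, Fintype.linearCombination_apply, map_sum, map_zsmul, φT, zsmul_eq_mul,
        smul_eq_mul, mul_sum, sum_mul]
      push_cast
      rw [← sum_sub_distrib]
      refine (abs_sum_le_sum_abs _ _).trans (sum_le_sum fun a _ => ?_)
      have h1 := (norm_le_pi_norm _ a).trans (hgeo (j + K))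
      rw [show (n a : ℝ) * (it σ (j + K) [a]).length - θ ^ K * (θ ^ j * (n a * r (lam a)))
        = n a * ((it σ (j + K) [a]).length - c a * θ ^ (j + K)) by
          rw [pow_add, show r (lam a) = c a from rfl]; ring, abs_mul, mul_assoc, mul_assoc,
        ← pow_add, add_comm K j]
      gcongr; exact h1)
    (lam a0) (fun h => (cpos a0).ne' (congrArg Subtype.val h))
  subst hMθ
  let D : ℕ → A → A → Unit → Λ → Prop := fun k a b _ o =>
    ∃ w1 w2, it σ k [a] = w1 ++ b :: w2 ∧ o = (w1.map lam).sum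
  have nn : ∀ w : List A, 0 ≤ (w.map c).sum := fun w =>
    List.sum_nonneg (by simpa using fun a _ => (cpos a).le)
  obtain D_comp : ∀ {k l t t' t'' o o'}, D k t t' () o → D l t' t'' () o' →
      D (k + l) t t'' () (T l o + o') := by
    rintro k l t t' t'' o o' ⟨w1, w2, h1, rfl⟩ ⟨v1, v2, h2, rfl⟩
    refine ⟨it σ l w1 ++ v1, v2 ++ it σ l w2, ?_, by rw [Tval]; simp⟩
    rw [it_add, h1, it_append, it_cons, h2]; simp
  obtain D_bd : ∀ {k t t' o}, D k t t' () o → 0 ≤ r o ∧ r o + c t' ≤ M.θ ^ k * c t := by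
    rintro k t t' o ⟨w1, w2, h1, rfl⟩
    rw [rval, ← eig, h1]
    simp [nn]
  obtain D_cover : ∀ k t y, 0 ≤ y → y < M.θ ^ k * c t →
      ∃ t' o, D k t t' () o ∧ r o ≤ y ∧ y < r o + c t' := by
    intro k t y h0 h1
    obtain ⟨w1, b, w2, e, h2, h3⟩ := word_cover c (it σ k [t]) y h0 (by rwa [eig])
    exact ⟨b, _, ⟨w1, w2, e, rfl⟩, by rwa [rval], by rwa [rval]⟩
  obtain D_uniq : ∀ {k t t1 t2 o1 o2} y, D k t t1 () o1 → D k t t2 () o2 →
      r o1 ≤ y → y < r o1 + c t1 → r o2 ≤ y → y < r o2 + c t2 → t1 = t2 ∧ o1 = o2 := by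
    rintro k t t1 t2 o1 o2 y ⟨w1, w2, h1, rfl⟩ ⟨v1, v2, h2, rfl⟩ a1 a2 a3 a4
    rw [rval] at a1 a2 a3 a4
    obtain ⟨e1, e2⟩ := word_uniq c (fun a => (cpos a).le) (h1.symm.trans h2) a1 a2 a3 a4
    exact ⟨e1, by rw [e2]⟩
  obtain ⟨B1, hB1⟩ : ∃ B1 : ℝ, 0 ≤ B1 ∧ ∀ t t' o, D 1 t t' () o → M.N o ≤ B1 := by
    clear * - A Λ M lam D σ
    have nN : ∀ w : List A, 0 ≤ (w.map fun a => M.N (lam a)).sum := fun w =>
      List.sum_nonneg (by simpa using fun a _ => M.N_nonneg _)
    refine ⟨∑ t, ((it σ 1 [t]).map fun a => M.N (lam a)).sum, sum_nonneg fun _ _ => nN _, ?_⟩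
    rintro t t' o ⟨w1, w2, h1, rfl⟩
    refine le_trans ?_ (single_le_sum (f := fun t => ((it σ 1 [t]).map fun a => M.N (lam a)).sum)
      (fun _ _ => nN _) (mem_univ t))
    have : M.N (w1.map lam).sum ≤ (w1.map fun a => M.N (lam a)).sum := by
      clear h1
      induction w1 with
      | nil => simp [M.N_zero]
      | cons a w ih => simp only [List.map_cons, List.sum_cons]; linarith only [ih, M.N_add (lam a) (w.map lam).sum]
    rw [h1, List.map_append, List.sum_append]
    linarith [nN (t' :: w2)]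
  have hρ' := sub_pos.mpr M.ρ_lt
  obtain D_N : ∀ k t t' o, D k t t' () o → M.N o ≤ B1 / (1 - M.ρ) := by
    clear * - A Λ D M B1 σ lam hB1 hρ' r c D_bd cpos D_cover hθ hθ0 T D_uniq D_comp rT hMT this ρ
    intro k
    induction k with
    | zero =>
      rintro t t' o ⟨w1, w2, h1, rfl⟩
      have : w1 = [] := by
        have := congrArg List.length h1
        simp only [it, Function.iterate_zero, id, List.length_nil, List.length_append,
          List.length_cons] at this
        exact List.length_eq_zero_iff.mp (by omega)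
      simp only [this, List.map_nil, List.sum_nil, M.N_zero]
      exact div_nonneg hB1.1 hρ'.le
    | succ k ih =>
      intro t t' o h
      obtain ⟨b1, b2⟩ := D_bd h
      have b3 := cpos t'
      obtain ⟨t1, o1, h1, a1, a2⟩ := D_cover k t (r o / M.θ) (by positivity) (by
        rw [div_lt_iff₀ hθ0]; rw [pow_succ] at b2; linarith only [b2, b3])
      rw [le_div_iff₀ hθ0] at a1
      rw [div_lt_iff₀ hθ0] at a2
      obtain ⟨t2, o2, h2, a3, a4⟩ := D_cover 1 t1 (r o - M.θ * r o1) (by linarith) (by linarith)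
      obtain ⟨-, rfl⟩ := D_uniq (r o) (D_comp h1 h2) h (by rw [map_add, rT]; linarith only [a3])
        (by rw [map_add, rT]; linarith only [a4]) le_rfl (by linarith only [b3])
      have a5 := M.N_T 1 o1
      rw [hMT, pow_one] at a5
      have a6 := mul_le_mul_of_nonneg_left (ih _ _ _ h1) M.ρ_nonneg
      have a7 : B1 / (1 - M.ρ) = M.ρ * (B1 / (1 - M.ρ)) + B1 := by field_simp; ring
      linarith only [a5, a6, a7, hB1, h2, M.N_add (T 1 o1) o2, hB1.2 _ _ _ h2]
  refine ⟨Λ, inferInstance,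
    { toPM := M, lam := lam, D := D, B := B1 / (1 - M.ρ)
      lam_pos := fun t => by rw [hMr]; exact cpos t
      D_refl := fun t => ⟨[], [], rfl, rfl⟩
      D_comp := fun h h' => by rw [hMT]; exact D_comp h h'
      D_bd := fun h => by rw [hMr]; exact D_bd h
      D_cover := fun k t y h0 h1 => by
        rw [hMr] at h1 ⊢
        obtain ⟨t', o, h⟩ := D_cover k t y h0 h1
        exact ⟨t', (), o, h⟩
      D_uniq := fun y h1 h2 => by
        rw [hMr]; intro a1 a2 a3 a4
        obtain ⟨e1, e2⟩ := D_uniq y h1 h2 a1 a2 a3 a4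
        exact ⟨e1, rfl, e2⟩
      D_N := fun h => D_N _ _ _ _ h }, K, fun j a => ?_, fun _ _ _ _ => Iff.rfl⟩
  show M.φ (M.T j (lam a)) = _
  rw [hMφ, hMT]; exact φT j a

end Words

end Pool.Agent.PT
end
end

-- merged part: Pool.Agent.Work.MP_cf06ef_an.P14
section
-- merged part: Pool.Agent.Work.MP_cf06ef_an.P9
section
set_option autoImplicit false
set_option linter.unusedSectionVars false
open Finset
open ArithmeticFunction (moebius)

namespace Pool.Agent.PT

/-- the finitary Katai criterion. -/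
def Kat : Prop := ∀ (P : Set ℕ), (∀ p ∈ P, p.Prime) →
  (¬ Summable (fun p : P => (1 : ℝ) / (p : ℕ))) → ∀ (ε : ℝ), 0 < ε →
  ∃ P0 : Finset ℕ, (∀ p ∈ P0, p ∈ P) ∧ ∃ δ > (0 : ℝ), ∃ N0 : ℕ, ∀ N ≥ N0, ∀ a : ℕ → ℂ,
    (∀ n, ‖a n‖ ≤ 1) → (∀ p ∈ P0, ∀ q ∈ P0, p ≠ q → ∀ M ≤ N,
      ‖∑ m ∈ Icc 1 M, a (p * m) * (starRingEnd ℂ) (a (q * m))‖ ≤ δ * N) →
    ‖∑ n ∈ Icc 1 N, (moebius n : ℂ) * a n‖ ≤ ε * N

lemma UO.add {a b : ℤ → ℂ} (ha : UO a) (hb : UO b) : UO (fun n => a n + b n) := by
  intro ε hε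
  obtain ⟨N1, h1⟩ := ha (ε / 2) (by positivity)
  obtain ⟨N2, h2⟩ := hb (ε / 2) (by positivity)
  refine ⟨max N1 N2, fun N hN ι => ?_⟩
  simp only [mul_add, sum_add_distrib]
  have := h1 N (le_of_max_le_left hN) ι
  have := h2 N (le_of_max_le_right hN) ι
  exact (norm_add_le _ _).trans (by linarith)

lemma UO.smul {a : ℤ → ℂ} (ha : UO a) (c : ℂ) : UO (fun n => c * a n) := by
  intro ε hε
  obtain ⟨N1, h1⟩ := ha (ε / (‖c‖ + 1)) (by positivity)
  refine ⟨N1, fun N hN ι => ?_⟩
  have h2 : ∑ n ∈ Icc 1 N, (moebius n : ℂ) * (c * a (n + ι))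
      = c * ∑ n ∈ Icc 1 N, (moebius n : ℂ) * a (n + ι) := by
    rw [mul_sum]; exact sum_congr rfl fun n _ => by ring
  rw [h2, norm_mul]
  calc _ ≤ (‖c‖ + 1) * (ε / (‖c‖ + 1) * N) :=
        mul_le_mul (by linarith only []) (h1 N hN ι) (norm_nonneg _) (by positivity)
    _ = ε * N := by field_simp

lemma UO.zero : UO (fun _ => 0) := fun ε hε => ⟨0, fun N _ ι => by simp; positivity⟩

lemma UO.sum {I : Type} (s : Finset I) (a : I → ℤ → ℂ) (h : ∀ i ∈ s, UO (a i)) :
    UO (fun n => ∑ i ∈ s, a i n) := by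
  classical
  induction s using Finset.induction_on with
  | empty => simpa using UO.zero
  | insert i s hi ih =>
    simp only [sum_insert hi]
    exact (h i (mem_insert_self _ _)).add (ih fun j hj => h j (mem_insert_of_mem hj))

lemma UO_of_corr (hK : Kat) (P : Set ℕ) (hP : ∀ p ∈ P, p.Prime)
    (hdiv : ¬ Summable (fun p : P => (1 : ℝ) / (p : ℕ))) (a : ℤ → ℂ) (ha : ∀ n, ‖a n‖ ≤ 1)
    (hc : ∀ p ∈ P, ∀ q ∈ P, p ≠ q → ∀ α > (0 : ℝ), ∃ b : ℝ, ∀ (ι A : ℤ) (M : ℕ),
      ‖∑ i ∈ range M, a (p * (A + i) + ι) * (starRingEnd ℂ) (a (q * (A + i) + ι))‖ ≤ α * M + b) :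
    UO a := by
  intro ε hε
  obtain ⟨P0, hP0, δ, hδ, N0, hN0⟩ := hK P hP hdiv ε hε
  have : ∀ c : P0 × P0, ∃ b : ℝ, (c.1 : ℕ) ≠ c.2 → ∀ (ι A : ℤ) (M : ℕ),
      ‖∑ i ∈ range M, a ((c.1 : ℕ) * (A + i) + ι) * (starRingEnd ℂ) (a ((c.2 : ℕ) * (A + i) + ι))‖
        ≤ δ / 2 * M + b := by
    intro c
    by_cases h : (c.1 : ℕ) ≠ c.2
    · obtain ⟨b, hb⟩ := hc _ (hP0 _ c.1.2) _ (hP0 _ c.2.2) h (δ / 2) (by positivity)
      exact ⟨b, fun _ => hb⟩
    · exact ⟨0, fun h' => absurd h' h⟩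
  choose b hb using this
  obtain ⟨b0, hb0⟩ := (Set.finite_range b).bddAbove
  obtain ⟨N1, hN1⟩ := exists_nat_ge (b0 / (δ / 2))
  rw [div_le_iff₀ (by positivity)] at hN1
  refine ⟨max N0 N1, fun N hN ι => hN0 N (le_of_max_le_left hN) (fun n => a (n + ι))
    (fun n => ha _) fun p hp q hq hpq M hM => ?_⟩
  have h1 := hb (⟨p, hp⟩, ⟨q, hq⟩) hpq ι 1 M
  have h2 : b (⟨p, hp⟩, ⟨q, hq⟩) ≤ b0 := hb0 ⟨_, rfl⟩
  have h3 : (M : ℝ) ≤ N := by exact_mod_cast hM
  have h4 : (N1 : ℝ) ≤ N := by exact_mod_cast le_of_max_le_right hN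
  rw [← Ico_add_one_right_eq_Icc, sum_Ico_eq_sum_range, Nat.add_sub_cancel]
  push_cast
  refine h1.trans ?_
  linarith only [hp, hq, hN1, h2, hδ, h3, h4, mul_nonneg_of_nonpos_of_nonpos (le_of_lt (Mathlib.Tactic.Linarith.sub_neg_of_lt hδ)) (Mathlib.Tactic.Linarith.sub_nonpos_of_le h3), mul_nonneg_of_nonpos_of_nonpos (le_of_lt (Mathlib.Tactic.Linarith.sub_neg_of_lt hδ)) (Mathlib.Tactic.Linarith.sub_nonpos_of_le h4)]

lemma prime_pigeon {X : Type} [Finite X] (f : ℕ → X) (b : ℕ) :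
    ∃ D : X, ¬ Summable (fun p : {p : ℕ | p.Prime ∧ b < p ∧ f p = D} => (1 : ℝ) / (p : ℕ)) := by
  classical
  by_contra hcon
  push Not at hcon
  have := Fintype.ofFinite X
  apply not_summable_one_div_on_primes
  have h1 : ∀ D, Summable (Set.indicator {p : ℕ | p.Prime ∧ b < p ∧ f p = D}
      fun n : ℕ => (1 : ℝ) / n) := fun D => summable_subtype_iff_indicator.mp (hcon D)
  have h2 := summable_sum (s := univ) fun D _ => h1 D
  have h3 : Summable (Set.indicator (Set.Iic b) fun n : ℕ => (1 : ℝ) / n) :=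
    summable_subtype_iff_indicator.mp ((Set.finite_Iic b).summable _)
  refine Summable.of_nonneg_of_le (fun n => Set.indicator_nonneg (fun _ _ => by positivity) n)
    (fun n => ?_) (h2.add h3)
  have h4 : ∀ D, 0 ≤ Set.indicator {p : ℕ | p.Prime ∧ b < p ∧ f p = D}
      (fun n : ℕ => (1 : ℝ) / n) n := fun D => Set.indicator_nonneg (fun _ _ => by positivity) n
  have h5 : 0 ≤ Set.indicator (Set.Iic b) (fun n : ℕ => (1 : ℝ) / n) n :=
    Set.indicator_nonneg (fun _ _ => by positivity) n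
  have h6 := sum_nonneg (s := univ) fun D _ => h4 D
  by_cases hn : n.Prime
  · rw [Set.indicator_of_mem (by exact hn)]
    by_cases hb : b < n
    · have h7 := single_le_sum (fun D _ => h4 D) (mem_univ (f n))
      rw [Set.indicator_of_mem (by exact ⟨hn, hb, rfl⟩)] at h7
      linarith only [h5, h7]
    · rw [Set.indicator_of_mem (s := Set.Iic b) (not_lt.mp hb)]; linarith only [h6]
  · rw [Set.indicator_of_notMem (by exact hn)]; linarith only [h5, h6]

/-- right translation on functions on a finite group. -/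
noncomputable def Rt {K : Type} [Group K] [Fintype K] (a : K) :
    EuclideanSpace ℂ K →ₗᵢ[ℂ] EuclideanSpace ℂ K :=
  (LinearIsometryEquiv.piLpCongrLeft 2 ℂ ℂ (Equiv.mulRight a).symm).toLinearIsometry

lemma Rt_apply {K : Type} [Group K] [Fintype K] (a : K) (ψ : EuclideanSpace ℂ K) (k : K) :
    Rt a ψ k = ψ (k * a) := by
  simp [Rt, LinearIsometryEquiv.piLpCongrLeft_apply, Equiv.piCongrLeft'_apply]

/-- functions with zero mean along `N` in the first coordinate. -/
def Vz {G : Type} [Group G] [Fintype G] (N : Subgroup G) [Fintype N] :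
    Submodule ℂ (EuclideanSpace ℂ (G × G)) where
  carrier := {ψ | ∀ g h, ∑ ν : N, ψ (ν * g, h) = 0}
  add_mem' := fun {a b} ha hb g h => by simp [sum_add_distrib, ha g h, hb g h]
  zero_mem' := fun g h => by simp
  smul_mem' := fun c a ha g h => by simp [← mul_sum, ha g h]

lemma contr_of_gen {G I : Type} [Group G] [Fintype G] (d : G)
    [Fintype (Subgroup.normalClosure {d})] (a : I → G × G) (i0 i1 i2 i3 : I) (u : G)
    (h0 : a i0 = 1) (h1 : (a i1)⁻¹ * (a i2)⁻¹ * a i3 = (u * d * u⁻¹, 1))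
    (h2 : ∀ κ, ∃ i, (a i).1 = κ) : Contr Rt (Vz (Subgroup.normalClosure {d})) a := by
  intro ψ hψ h
  let Inv : Subgroup (G × G) :=
    { carrier := {k | ∀ x, ψ (x * k) = ψ x}
      mul_mem' := fun {k l} hk hl x => by rw [← mul_assoc, hl, hk]
      one_mem' := fun x => by rw [mul_one]
      inv_mem' := fun {k} hk x => by rw [← hk (x * k⁻¹), inv_mul_cancel_right] }
  have hI : ∀ i, a i ∈ Inv := fun i x => by
    have := congrArg (fun v : EuclideanSpace ℂ (G × G) => v x) (h i i0)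
    simpa [Rt_apply, h0] using this
  let J : Subgroup G := Inv.comap (MonoidHom.inl G G)
  have Jn : J.Normal := ⟨fun n hn g => by
    obtain ⟨i, rfl⟩ := h2 g
    have := Inv.mul_mem (Inv.mul_mem (hI i) hn) (Inv.inv_mem (hI i))
    show ((a i).1 * n * (a i).1⁻¹, (1 : G)) ∈ Inv
    convert this using 1
    ext <;> simp⟩
  have hd : d ∈ J := by
    have h3 : u * d * u⁻¹ ∈ J := by
      show (u * d * u⁻¹, (1 : G)) ∈ Inv
      rw [← h1]; exact Inv.mul_mem (Inv.mul_mem (Inv.inv_mem (hI _)) (Inv.inv_mem (hI _))) (hI _)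
    have := Jn.conj_mem _ h3 u⁻¹
    simpa [mul_assoc] using this
  have hN : Subgroup.normalClosure {d} ≤ J := Subgroup.normalClosure_le_normal (by simpa using hd)
  ext ⟨g, h'⟩
  have h4 : ∀ ν : Subgroup.normalClosure {d}, ψ (ν * g, h') = ψ (g, h') := fun ν => by
    have := (Jn.conj_mem _ (hN ν.2) g⁻¹) (g, h')
    simpa [mul_assoc] using this
  have h5 := hψ g h'
  simp only [h4, sum_const, card_univ, nsmul_eq_mul, mul_eq_zero, Nat.cast_eq_zero,
    Fintype.card_ne_zero, false_or] at h5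
  simpa using h5

namespace SST
variable {Λ C G : Type} [AddCommGroup Λ] [Group G] (S : SST Λ C G) [Finite C] [Finite G]

theorem beta : ∃ p0 a0 : ℕ, a0 ≠ 0 ∧ ∀ p q : ℕ, p0 ≤ p → p ≠ 0 → q ≠ 0 → p.Coprime a0 →
    p.Coprime q → (Nat.card G).Coprime p → ∀ d ∈ S.Dp p, ∀ F : C → G → ℤ → ℂ,
    (∀ t g i, ‖F t g i‖ ≤ 1) → ∀ [Fintype (Subgroup.normalClosure {d})],
    (∀ t g i, ∑ ν : Subgroup.normalClosure {d}, F t (ν * g) i = 0) →
    ∀ α > (0 : ℝ), ∃ b : ℝ, ∀ (ι A : ℤ) (M : ℕ), ‖∑ i ∈ range M,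
      F (S.typ (p * (A + i) + ι)) (S.lab (p * (A + i) + ι)) (S.off (p * (A + i) + ι)) *
      (starRingEnd ℂ) (F (S.typ (q * (A + i) + ι)) (S.lab (q * (A + i) + ι))
        (S.off (q * (A + i) + ι)))‖ ≤ α * M + b := by
  classical
  obtain ⟨p0, a0, ha0, hruns⟩ := S.runs
  refine ⟨p0, a0, ha0, fun p q hp hpz hq hpa hpq hG d hd F hF _ hz α hα => ?_⟩
  obtain ⟨Rs, β, Ct, m0, hRs, hβ, hCt, hrun⟩ := hruns p q hp hq hpa hpq hG d hd
  have := Fintype.ofFinite G
  have hc : (0 : ℝ) < Fintype.card G := by exact_mod_cast Fintype.card_pos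
  let I := {δ : Λ | |S.r δ| ≤ Rs ∧ S.N δ ≤ Rs}
  have : Finite I := S.fin Rs
  have := Fintype.ofFinite I
  let i0 : I := ⟨0, by simpa [I, S.N_zero] using hRs⟩
  have : Nonempty I := ⟨i0⟩
  let Ψ0 : ℤ → ℤ → EuclideanSpace ℂ (G × G) := fun ι n => WithLp.toLp 2 fun k =>
    (Fintype.card G : ℂ)⁻¹ * (F (S.typ (p * n + ι)) (k.1 * S.lab (p * n + ι)) (S.off (p * n + ι)) *
      (starRingEnd ℂ) (F (S.typ (q * n + ι)) (k.2 * S.lab (q * n + ι)) (S.off (q * n + ι))))
  have key := engine Rt (Vz (Subgroup.normalClosure {d}))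
    (fun (ι : ℤ) n n' (a : G × G) => S.Eqv (p * n + ι) (p * n' + ι) a.1 ∧
      S.Eqv (q * n + ι) (q * n' + ι) a.2) Ψ0 ?_ ?_ ?_ I β hβ ?_ (α / Fintype.card G)
      (by positivity)
  · obtain ⟨b, hb⟩ := key
    refine ⟨Fintype.card G * b, fun ι A M => ?_⟩
    have h1 := (PiLp.norm_apply_le (∑ i ∈ range M, Ψ0 ι (A + i)) (1, 1)).trans (hb ι A M)
    simp only [WithLp.ofLp_sum, Finset.sum_apply, Ψ0, one_mul, ← mul_sum, norm_mul, norm_inv,
      Complex.norm_natCast] at h1
    rw [inv_mul_le_iff₀ hc] at h1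
    refine h1.trans (le_of_eq ?_)
    field_simp
  · intro ι n g h
    simp only [Ψ0, ← mul_sum, ← sum_mul, mul_assoc (_ : G), hz, zero_mul, mul_zero]
  · intro ι n
    rw [EuclideanSpace.norm_eq, Real.sqrt_le_one]
    refine (sum_le_sum (g := fun _ => ((Fintype.card G : ℝ)⁻¹) ^ 2) fun k _ => ?_).trans ?_
    · simp only [Ψ0, norm_mul, norm_inv, Complex.norm_natCast, Complex.norm_conj]
      gcongr
      refine mul_le_of_le_one_right (by positivity) (mul_le_one₀ (hF _ _ _) (norm_nonneg _) (hF _ _ _))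
    · simp only [sum_const, card_univ, Fintype.card_prod, nsmul_eq_mul]
      push_cast; field_simp; rfl
  · rintro ι n n' a ⟨⟨a1, a2, a3⟩, b1, b2, b3⟩
    ext k
    simp only [Rt_apply, Ψ0, a1, a2, a3, b1, b2, b3, Prod.fst_mul, Prod.snd_mul, mul_assoc]
  · intro W ε hε T0
    have hpq0 : (0 : ℝ) < p + q := by
      have : (0 : ℝ) < p := by exact_mod_cast Nat.pos_of_ne_zero hpz
      positivity
    obtain ⟨i1, hi1⟩ := S.win ((p + q) * Rs) (ε / (p + q)) (by positivity)
    obtain ⟨j0, hj0⟩ := hi1 ((p + q) * W)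
    obtain ⟨j1, hj1⟩ := S.exists_θpow_ge T0
    obtain ⟨Cst, hC⟩ := hj0 (j0 + j1 + m0) (by omega)
    set j := j0 + j1 + m0 with hj
    refine ⟨fun δ => S.φ (S.T (j + i1) δ), Ct * ⌈S.θ ^ (j + i1)⌉₊, Cst + Cst, ?_, fun ι => ?_⟩
    · have h1 : (T0 : ℝ) ≤ ⌈S.θ ^ (j + i1)⌉₊ := (hj1 _ (by omega)).trans (Nat.le_ceil _)
      have h2 : T0 ≤ ⌈S.θ ^ (j + i1)⌉₊ := by exact_mod_cast h1
      nlinarith only [h2, hCt]
    refine ⟨_, fun n δ => (S.hol p ι n (S.φ (S.T (j + i1) δ)), S.hol q ι n (S.φ (S.T (j + i1) δ))),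
      ((hC.affine p hpz ι).or (hC.affine q hq ι)).weaken (le_of_eq (by field_simp)), ?_, ?_⟩
    · intro n hn δ
      simp only [not_or, not_not] at hn
      have one : ∀ c : ℕ, c ≤ p + q → S.Win ((p + q) * Rs) j i1 ((p + q) * W) (c * n + ι) →
          ∀ e : ℤ, |e| ≤ W → S.Eqv (c * (n + e) + ι) (c * (n + S.φ (S.T (j + i1) δ) + e) + ι)
            (S.hol c ι n (S.φ (S.T (j + i1) δ))) := by
        intro c hc hw e he
        obtain ⟨a, ha⟩ := Win.eqv S hw (c • (δ : Λ)) (by
          rw [S.N_nsmul]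
          exact mul_le_mul (by exact_mod_cast hc) δ.2.2 (S.N_nonneg _) hpq0.le)
        rw [map_nsmul, map_nsmul, nsmul_eq_mul] at ha
        have h1 := (ha 0 (by simp; positivity)).2.2
        have h2 : S.hol c ι n (S.φ (S.T (j + i1) δ)) = a := by
          rw [hol, show (c : ℤ) * (n + S.φ (S.T (j + i1) δ)) + ι
            = c * n + ι + c * S.φ (S.T (j + i1) δ) + 0 by ring, h1]; simp
        have h3 := ha (c * e) (by
          rw [abs_mul, Nat.abs_cast]; push_cast
          exact mul_le_mul (by exact_mod_cast hc) he (abs_nonneg _) (by positivity))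
        rw [h2]
        convert h3 using 1 <;> ring
      exact fun e he => ⟨one p (by omega) hn.1 e he, one q (by omega) hn.2 e he⟩
    · intro A
      obtain ⟨A', L, h1, h2, h3⟩ := hrun (j + i1) (by omega) ι A
      refine ⟨A', L, h1, h2, fun i hi _ => ?_⟩
      obtain ⟨⟨δ1, δ2, δ3, u, b1, b2, b3, b4, b5⟩, b6⟩ := h3 i hi
      refine contr_of_gen d _ i0 ⟨δ1, b1⟩ ⟨δ2, b2⟩ ⟨δ3, b3⟩ u ?_ (Prod.ext b4 b5) fun κ => ?_
      · simp [i0, hol]
      · obtain ⟨δ, c1, c2⟩ := b6 κ
        exact ⟨⟨δ, c1⟩, c2⟩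

theorem main (hD : Dav) (hK : Kat) (F : C → G → ℤ → ℂ) (hF : ∀ t g i, ‖F t g i‖ ≤ 1) :
    UO fun n => F (S.typ n) (S.lab n) (S.off n) := by
  classical
  obtain ⟨p0, a0, ha0, hbeta⟩ := S.beta
  obtain ⟨D, hdiv⟩ := prime_pigeon S.Dp (p0 + a0 + Nat.card G)
  set P := {p : ℕ | p.Prime ∧ p0 + a0 + Nat.card G < p ∧ S.Dp p = D} with hP
  have hG : ∀ p ∈ P, (Nat.card G).Coprime p := fun p hp =>
    (Nat.coprime_of_lt_prime Nat.card_pos.ne' (by have := hp.2.1; omega) hp.1).symm
  have key : ∀ ν ∈ Subgroup.normalClosure D, ∀ F : C → G → ℤ → ℂ, (∀ t g i, ‖F t g i‖ ≤ 1) →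
      UO fun n => F (S.typ n) (S.lab n) (S.off n) - F (S.typ n) (S.lab n * ν) (S.off n) := by
    intro ν hν
    induction hν using Subgroup.closure_induction with
    | mem ν hν =>
      intro F hF
      obtain ⟨d, hd, hc⟩ := Group.mem_conjugatesOfSet_iff.mp hν
      have hν' : ν ∈ Subgroup.normalClosure {d} :=
        Subgroup.conjugatesOfSet_subset_normalClosure
          (Group.mem_conjugatesOfSet_iff.mpr ⟨d, rfl, hc⟩)
      have := Fintype.ofFinite (Subgroup.normalClosure {d})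
      have b1 : ∀ t g i, ‖(1 / 2 : ℂ) * (F t g i - F t (g * ν) i)‖ ≤ 1 := fun t g i => by
        have := (norm_sub_le _ _).trans (add_le_add (hF t g i) (hF t (g * ν) i))
        rw [norm_mul]; norm_num; linarith only [this]
      have h1 := UO_of_corr hK P (fun p hp => hp.1) hdiv (fun n => (1 / 2 : ℂ) *
        (F (S.typ n) (S.lab n) (S.off n) - F (S.typ n) (S.lab n * ν) (S.off n)))
        (fun n => b1 _ _ _) fun p hp q hq hpq => hbeta p q (by have := hp.2.1; omega) hp.1.ne_zero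
          hq.1.ne_zero (Nat.coprime_of_lt_prime ha0 (by have := hp.2.1; omega) hp.1)
          ((Nat.coprime_primes hp.1 hq.1).mpr hpq) (hG p hp) d (hp.2.2.symm ▸ hd)
          (fun t g i => (1 / 2 : ℂ) * (F t g i - F t (g * ν) i)) b1 fun t g i => by
            rw [← mul_sum, sum_sub_distrib, mul_eq_zero, sub_eq_zero]
            right
            refine (Fintype.sum_equiv (Equiv.mulRight (⟨g * ν * g⁻¹,
              Subgroup.normalClosure_normal.conj_mem _ hν' g⟩ : Subgroup.normalClosure {d}))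
              _ _ fun x => ?_).symm
            simp [mul_assoc]
      convert h1.smul 2 using 2; ring
    | one => intro F _; simpa using UO.zero
    | mul x y _ _ hx hy =>
      intro F hF
      convert (hy F hF).add (hx (fun t g i => F t (g * y) i) fun t g i => hF _ _ _) using 2
      simp [mul_assoc]
    | inv x _ hx =>
      intro F hF
      convert (hx (fun t g i => F t (g * x⁻¹) i) fun t g i => hF _ _ _).smul (-1) using 2
      simp
  obtain ⟨p, hp⟩ : P.Nonempty := by
    by_contra h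
    rw [Set.not_nonempty_iff_eq_empty] at h
    apply hdiv
    have : IsEmpty P := by rw [h]; infer_instance
    exact summable_empty
  set Nn := Subgroup.normalClosure D with hNn
  have := Fintype.ofFinite Nn
  have hc : (0 : ℝ) < Fintype.card Nn := by exact_mod_cast Fintype.card_pos
  have h1 := S.alpha hD p hp.1.ne_zero (hG p hp)
    (fun t g i => (Fintype.card Nn : ℂ)⁻¹ * ∑ ν : Nn, F t (g * ν) i) (fun t g i => by
      rw [norm_mul, norm_inv, Complex.norm_natCast, inv_mul_le_iff₀ hc]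
      exact (norm_sum_le_of_le _ (n := fun _ => (1 : ℝ)) fun ν _ => hF _ _ _).trans (by simp))
    (fun ν hν t g i => by
      rw [hp.2.2] at hν
      congr 1
      exact Fintype.sum_equiv (Equiv.mulLeft (⟨ν, hν⟩ : Nn)) _ _ fun x => by simp [mul_assoc])
  have h2 := (UO.sum univ _ fun (ν : Nn) _ => key ν ν.2 F hF).smul (Fintype.card Nn : ℂ)⁻¹
  convert h1.add h2 using 2
  rw [sum_sub_distrib, sum_const, card_univ, nsmul_eq_mul]
  have : (Fintype.card Nn : ℂ) ≠ 0 := by simp
  field_simp; ring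

end SST
end Pool.Agent.PT
end

-- merged part: Pool.Agent.Work.MP_cf06ef_an.P13
section
set_option autoImplicit false
set_option linter.unusedSectionVars false
open Finset Filter Topology
open ArithmeticFunction (moebius)

namespace Pool.Agent.PT

lemma PM.ev_ge {Λ : Type} [AddCommGroup Λ] (M : PM Λ) (γ : Λ) (h : 0 < M.r γ) (X : ℝ) :
    ∀ᶠ j in atTop, X ≤ M.φ (M.T j γ) := by
  have hs := M.s_pos
  obtain ⟨k, hk⟩ := M.exists_θpow_ge ((X + M.N γ) / (M.s * M.r γ))
  filter_upwards [eventually_ge_atTop k] with j hj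
  have h1 := (div_le_iff₀ (by positivity)).mp (hk j hj)
  linarith only [h1, (abs_le.mp (M.approxT j γ)).1]

lemma PM.ev_nonneg {Λ : Type} [AddCommGroup Λ] (M : PM Λ) (γ : Λ) (h : 0 ≤ M.r γ) :
    ∀ᶠ j in atTop, 0 ≤ M.φ (M.T j γ) := by
  rcases h.eq_or_lt with h | h
  · have : γ = 0 := M.r_inj (by simp [← h])
    simp [this]
  · filter_upwards [M.ev_ge γ h 0] with j hj using by exact_mod_cast hj

open Classical in
lemma cnt_ends (P : ℤ → Prop) (a b : ℤ) (W : ℕ) (h : ∀ n, a ≤ n → n < b → P n → n < a + W ∨ b - W ≤ n) :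
    ∑ n ∈ Ico a b, (if P n then (1 : ℝ) else 0) ≤ 2 * W := by
  rw [sum_boole]
  refine le_trans (Nat.cast_le.mpr (card_le_card (t := Ico a (a + W) ∪ Ico (b - W) b)
    fun n hn => ?_)) ?_
  · simp only [mem_filter, mem_union, mem_Ico] at hn ⊢
    have := h n hn.1.1 hn.1.2 hn.2
    omega
  · refine le_trans (Nat.cast_le.mpr (card_union_le _ _)) ?_
    simp [two_mul]

lemma SST.near_count {Λ C G : Type} [AddCommGroup Λ] [Group G] (S : SST Λ C G) [Finite C] (W : ℕ)
    (ε : ℝ) (hε : 0 ≤ ε) (h : ∀ t, 2 * (W : ℝ) ≤ ε * S.φ (S.lam t)) :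
    ∃ Cst, Sm (fun n => ¬ ∀ e : ℤ, |e| ≤ W → S.InZ 0 (S.typ n) (S.pos n) (n + e)) ε Cst := by
  obtain ⟨C2, h2⟩ := S.Sm_cells 0
  refine ⟨C2, h2 _ ε hε fun t g o ho => ?_⟩
  rw [S.T_zero]
  refine le_trans (cnt_ends _ _ _ W fun n h1 h2 hn2 => ?_) (h t)
  obtain ⟨e1, -, e2⟩ := S.st_eq ho ⟨h1, h2⟩
  rw [e1, e2] at hn2
  by_contra hc
  refine hn2 fun e he => ?_
  rw [abs_le] at he
  constructor <;> omega

/-- power of a base structure restricted to a closed class of letters. -/
def GS.powRes {Λ A : Type} [AddCommGroup Λ] (B : GS Λ A Unit) (s : ℕ) (hs : s ≠ 0) (p : A → Prop)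
    (hp : ∀ k a b o, p a → B.D (s * k) a b () o → p b) : GS Λ {a // p a} Unit where
  toPM := B.toPM.pow s hs
  lam := fun a => B.lam a.1
  D := fun k a b _ o => B.D (s * k) a.1 b.1 () o
  B := B.B
  lam_pos := fun a => B.lam_pos a.1
  D_refl := fun a => B.D_refl a.1
  D_comp := fun h h' => by rw [mul_add]; exact B.D_comp h h'
  D_bd := fun h => by have := B.D_bd h; rw [pow_mul] at this; exact this
  D_cover := fun k t y h0 h1 => by
    obtain ⟨t', κ, o, h, a⟩ := B.D_cover (s * k) t.1 y h0 (by rw [pow_mul]; exact h1)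
    exact ⟨⟨t', hp _ _ _ _ t.2 h⟩, (), o, h, a⟩
  D_uniq := fun y h1 h2 a1 a2 a3 a4 => by
    obtain ⟨e1, -, e2⟩ := B.D_uniq y h1 h2 a1 a2 a3 a4
    exact ⟨Subtype.ext e1, rfl, e2⟩
  D_N := fun h => B.D_N h

lemma get_mid {A : Type} (l1 m l2 : List A) (i : ℕ) (hi : i < m.length) :
    (l1 ++ (m ++ l2))[l1.length + i]? = m[i]? := by
  rw [List.getElem?_append_right (by omega), Nat.add_sub_cancel_left,
    List.getElem?_append_left hi]

lemma diff_le (a b : ℤ → ℂ) (ha : ∀ n, ‖a n‖ ≤ 1) (hb : ∀ n, ‖b n‖ ≤ 1) (P : ℤ → Prop) {ε C : ℝ}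
    (hP : Sm P ε C) (h : ∀ n, ¬ P n → a n = b n) (N : ℕ) (ι : ℤ) :
    ‖∑ n ∈ Icc 1 N, (moebius n : ℂ) * a (n + ι)‖ ≤
      ‖∑ n ∈ Icc 1 N, (moebius n : ℂ) * b (n + ι)‖ + 2 * (ε * N + C) := by
  classical
  have h1 : ‖∑ n ∈ Icc 1 N, (moebius n : ℂ) * a (n + ι) - ∑ n ∈ Icc 1 N, (moebius n : ℂ) * b (n + ι)‖
      ≤ 2 * (ε * N + C) := by
    rw [← sum_sub_distrib]
    refine (norm_sum_le_of_le _ (n := fun n : ℕ => 2 * if P (n + ι) then (1 : ℝ) else 0)
      fun n _ => ?_).trans ?_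
    · split_ifs with hn
      · rw [← mul_sub, norm_mul]
        have := norm_moebius_le n
        have h2 := (norm_sub_le _ _).trans (add_le_add (ha (n + ι)) (hb (n + ι)))
        calc _ ≤ 1 * (1 + 1 : ℝ) := by gcongr
          _ = 2 * 1 := by norm_num
      · simp [h _ hn]
    · rw [← mul_sum, ← Ico_add_one_right_eq_Icc, sum_Ico_eq_sum_range, Nat.add_sub_cancel]
      have := hP.sum_le (1 + ι) N
      refine mul_le_mul_of_nonneg_left (le_trans (le_of_eq (sum_congr rfl fun i _ => ?_)) this)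
        (by norm_num)
      congr 2; push_cast; ring
  linarith only [h1, norm_sub_norm_le (∑ n ∈ Icc 1 N, (moebius n : ℂ) * a (n + ι))
    (∑ n ∈ Icc 1 N, (moebius n : ℂ) * b (n + ι))]

theorem cls_seq (hD : Dav) (hK : Kat) {A Λ : Type} [Finite A] [AddCommGroup Λ] (σ : A → List A)
    (B : GS Λ A Unit) (K : ℕ)
    (hlen : ∀ j a, B.φ (B.T j (B.lam a)) = (it σ (j + K) [a]).length)
    (hBD : ∀ k a b o, B.D k a b () o ↔
      ∃ w1 w2, it σ k [a] = w1 ++ b :: w2 ∧ o = (w1.map B.lam).sum)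
    (s1 : ℕ) (hs1 : s1 ≠ 0) (p : A → Prop) (a0 : A) (ha0 : p a0)
    (hcl : ∀ k a b, p a → b ∈ it σ (s1 * k) [a] → p b)
    (hpr : ∀ j a b, p a → p b → b ∈ it σ (s1 * (j + 1)) [a])
    (w : ℕ) (Φ : (ℤ → A) → ℂ) (hΦ : ∀ x, ‖Φ x‖ ≤ 1)
    (hΦw : ∀ x y, (∀ e : ℤ, |e| ≤ w → x e = y e) → Φ x = Φ y) (ε : ℝ) (hε : 0 < ε) :
    ∃ u : ℤ → A, (∀ b, p b → ∀ m, ∃ ι : ℤ, ∀ i : ℕ, i < (it σ (s1 * m + K) [b]).length →
      (it σ (s1 * m + K) [b])[i]? = some (u (ι + i))) ∧
      ∃ N0 : ℕ, ∀ N ≥ N0, ∀ ι : ℤ,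
        ‖∑ n ∈ Icc 1 N, (moebius n : ℂ) * Φ (fun i => u (i + (n + ι)))‖ ≤ ε * N := by
  classical
  have hval : ∀ j (v : List A), B.φ (B.T j (v.map B.lam).sum) = (it σ (j + K) v).length := by
    intro j v
    induction v with
    | nil => simp [it_nil]
    | cons a v ih => rw [it_cons]; simp [hlen, ih]
  let B' := B.powRes s1 hs1 p fun k a b o ha h => by
    obtain ⟨w1, w2, e, -⟩ := (hBD _ _ _ _).mp h
    exact hcl k a b ha (by rw [e]; simp)
  have : Nonempty {a // p a} := ⟨⟨a0, ha0⟩⟩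
  obtain ⟨C, G, _, _, _, s, hs, P, fst, hP, hf1, hf2⟩ := B'.exists_PSST
  have Pr : P.r = B.r := by rw [hP]; rfl
  have PT : ∀ j, P.T j = B.T (s1 * (s * j)) := fun j => by rw [hP]; rfl
  have Pφ : P.φ = B.φ := by rw [hP]; rfl
  have Pθ : P.θ = (B.θ ^ s1) ^ s := by rw [hP]; rfl
  replace hf1 : ∀ t g, B.r (fst t g).2 ≤ 0 ∧
    B.r (P.lam t) ≤ B.r (fst t g).2 + B.r (B.lam (fst t g).1) := hf1
  obtain ⟨J, hJ1, hJ2, hJ3⟩ := ((eventually_all.mpr fun t => P.ev_ge (P.lam t) (P.lam_pos t)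
    (2 * w / (ε / 8) + 1)).and ((eventually_all.mpr fun t => eventually_all.mpr fun g =>
      P.ev_nonneg (-(fst t g).2) (by rw [Pr, map_neg]; linarith only [hf1, (hf1 t g).1])).and
      (eventually_all.mpr fun t => eventually_all.mpr fun g =>
      P.ev_nonneg ((fst t g).2 + B.lam (fst t g).1 - P.lam t) (by
        rw [Pr, map_sub, map_add]; linarith [(hf1 t g).2])))).exists
  let S := P.scale J fun t => by
    clear * - Λ C G P J t w ε hε hJ1
    have h1 : (0 : ℝ) < P.φ (P.T J (P.lam t)) := lt_of_lt_of_le (by positivity) (hJ1 t)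
    exact_mod_cast h1
  have Sφ : ∀ γ, S.φ γ = B.φ (B.T (s1 * (s * J)) γ) := fun γ => by
    show P.φ (P.T J γ) = _; rw [Pφ, PT]
  have ST : ∀ j, S.T j = B.T (s1 * (s * j)) := PT
  have Slen : ∀ j (v : List A), S.φ (S.T j (v.map B.lam).sum)
      = (it σ (s1 * (s * (J + j)) + K) v).length := fun j v => by
    rw [Sφ, ST, ← B.T_add, hval, mul_add, mul_add]
  have Slen1 : ∀ j a, S.φ (S.T j (B.lam a)) = (it σ (s1 * (s * (J + j)) + K) [a]).length :=
    fun j a => by simpa using Slen j [a]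
  replace hJ2 : ∀ t g, S.φ (fst t g).2 ≤ 0 := fun t g => by
    have : 0 ≤ S.φ (-(fst t g).2) := hJ2 t g
    rw [map_neg] at this; linarith only [this]
  replace hJ3 : ∀ t g, S.φ (S.lam t) ≤ S.φ (fst t g).2 + S.φ (B.lam (fst t g).1) := fun t g => by
    have : 0 ≤ S.φ ((fst t g).2 + B.lam (fst t g).1 - S.lam t) := hJ3 t g
    rw [map_sub, map_add] at this; linarith
  let Lt : C → G → ℤ → A := fun t g i =>
    ((it σ (s1 * (s * (J + 0)) + K) [(fst t g).1.1])[(i - S.φ (fst t g).2).toNat]?).getD a0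
  let u : ℤ → A := fun n => Lt (S.typ n) (S.lab n) (S.off n)
  have L1 : ∀ j t g o n (i : ℕ), S.H t g o → S.InZ j t o n →
      n = S.φ (S.A j o) + S.φ (S.T j (fst t g).2) + i →
      (it σ (s1 * (s * (J + j)) + K) [(fst t g).1.1])[i]? = some (u n) := by
    clear * - C G Λ S A p fst σ s1 s J K u B' B hBD hf2 Slen Slen1 hJ2 hJ3 ST hs1 hcl w ε hε P hJ1
      a0 Lt
    intro j t g o n i h hn hi
    obtain ⟨t', κ, o', hd, hn'⟩ := S.InZ_down (j := 0) h (by simpa using hn)
    obtain ⟨e1, e2, e3⟩ := S.st_eq (S.H_D h hd) hn'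
    obtain ⟨w1, w2, e4, e5⟩ := (hBD _ _ _ _).mp (hf2 j t t' κ o' g hd)
    have e6 := Slen 0 w1
    rw [← e5, S.T_zero, map_sub, map_add] at e6
    have e7 := Slen1 0 (fst t' (g * κ)).1.1
    rw [S.T_zero] at e7
    obtain ⟨b1, b2⟩ := hn'
    simp only [S.A_zero, map_add] at b1 b2
    have b3 := hJ2 t' (g * κ)
    have b4 := hJ3 t' (g * κ)
    have e8 : S.φ (B'.T (s * j) (fst t g).2) = S.φ (S.T j (fst t g).2) := by rw [ST]; rfl
    rw [e8] at e6
    obtain ⟨i', hi'⟩ : ∃ i' : ℕ, S.off n - S.φ (fst t' (g * κ)).2 = i' :=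
      ⟨_, (Int.toNat_of_nonneg (by rw [SST.off, e3, map_add]; omega)).symm⟩
    have hi2 := hi'
    rw [SST.off, e3, map_add] at hi2
    have hlt : i' < (it σ (s1 * (s * (J + 0)) + K) [(fst t' (g * κ)).1.1]).length := by omega
    rw [show s1 * (s * (J + j)) + K = s1 * (s * j) + (s1 * (s * (J + 0)) + K) by ring, it_add, e4,
      it_append, it_cons, show i = (it σ (s1 * (s * (J + 0)) + K) w1).length + i' by omega,
      get_mid _ _ _ _ hlt]
    simp only [u, Lt, e1, e2, hi', Int.toNat_natCast]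
    rw [List.getElem?_eq_getElem hlt]; rfl
  refine ⟨u, fun b hb m => ?_, ?_⟩
  · obtain ⟨lm, lM, -, hlM, hl⟩ := B.exists_lam
    have hx : 0 < B.r (P.lam S.x) := Pr ▸ P.lam_pos S.x
    obtain ⟨j1, hj1⟩ := P.exists_θpow_ge (4 * lM / B.r (P.lam S.x))
    replace hj1 := (div_le_iff₀ hx).mp (hj1 j1 le_rfl)
    have hp := P.θpow_pos j1
    have eθ : B'.θ ^ (s * j1) = P.θ ^ j1 := by rw [Pθ, pow_mul]; rfl
    obtain ⟨τ, hτ, a1, a2⟩ := B'.Dt_cover (s * j1) (τ := fst S.x 1)
      (y := P.θ ^ j1 * (B.r (P.lam S.x) / 2)) (by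
        rw [eθ, mul_div_cancel_left₀ _ hp.ne']
        constructor
        · show B.r _ ≤ _; linarith only [hx, hf1, (hf1 S.x 1).1]
        · show _ < B.r _ + B.r (B.lam _); linarith only [hx, hf1, (hf1 S.x 1).2])
    replace a1 : B.r τ.2 ≤ P.θ ^ j1 * (B.r (P.lam S.x) / 2) := a1
    replace a2 : P.θ ^ j1 * (B.r (P.lam S.x) / 2) < B.r τ.2 + B.r (B.lam τ.1) := a2
    have a3 := (hl τ.1).2.1
    have Sr : S.r = B.r := Pr
    obtain ⟨j2, c1, c2, c3⟩ := ((S.ev_nonneg τ.2 (by rw [Sr]; linarith only [hlM, hj1, a2, a3])).and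
      ((S.ev_nonneg (S.T j1 (S.lam S.x) - τ.2 - B.lam τ.1) (by
        rw [map_sub, map_sub, S.r_T, Sr]
        show 0 ≤ P.θ ^ j1 * B.r (P.lam S.x) - _ - _; linarith only [hlM, hj1, a1, a3])).and
        (eventually_ge_atTop (m + 1)))).exists
    obtain ⟨j', hj'⟩ : ∃ j', s * (J + j2) = (j' + 1) + m :=
      ⟨s * (J + j2) - (m + 1), by
        have : J + j2 ≤ s * (J + j2) := Nat.le_mul_of_pos_left _ (Nat.pos_of_ne_zero hs)
        omega⟩
    obtain ⟨v1, v2, ev⟩ := List.append_of_mem (hpr j' τ.1.1 b τ.1.2 hb)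
    obtain ⟨w1, w2, e4, e5⟩ := (hBD _ _ _ _).mp hτ
    have e6 := Slen j2 w1
    have e8 : B'.T (s * j1) (fst S.x 1).2 = S.T j1 (fst S.x 1).2 := by rw [ST]; rfl
    rw [← e5, e8, map_sub, map_sub, ← S.T_add] at e6
    have e7 := Slen1 j2 τ.1.1
    have e9 : it σ (s1 * (s * (J + j2)) + K) [τ.1.1] = it σ (s1 * m + K) v1 ++
        (it σ (s1 * m + K) [b] ++ it σ (s1 * m + K) v2) := by
      rw [hj', show s1 * (j' + 1 + m) + K = s1 * (j' + 1) + (s1 * m + K) by ring, it_add, ev,
        it_append, it_cons]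
    simp only [map_sub, ← S.T_add] at c2
    refine ⟨S.φ (S.A (j2 + j1) 0) + S.φ (S.T j2 τ.2) + (it σ (s1 * m + K) v1).length,
      fun i hi => ?_⟩
    have e10 := congrArg List.length e9
    simp only [List.length_append] at e10
    have := L1 (j2 + j1) S.x 1 0 (S.φ (S.A (j2 + j1) 0) + S.φ (S.T j2 τ.2) +
      (it σ (s1 * m + K) v1).length + i) ((it σ (s1 * (s * (J + j2)) + K) w1).length +
      ((it σ (s1 * m + K) v1).length + i)) S.H_center ⟨by omega, by rw [S.en_eq]; omega⟩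
      (by push_cast; omega)
    rw [← this, show s1 * (s * (J + (j2 + j1))) + K = s1 * (s * j1) + (s1 * (s * (J + j2)) + K) by
      ring, it_add σ (s1 * (s * j1)), e4, it_append, it_cons σ _ τ.1.1, get_mid _ _ _ _ (by omega),
      e9, get_mid _ _ _ _ hi]
  · obtain ⟨N1, hN1⟩ := S.main hD hK (fun t g i => Φ fun e => Lt t g (e + i)) (fun _ _ _ => hΦ _)
      (ε / 2) (by positivity)
    obtain ⟨Cst, hC⟩ := S.near_count w (ε / 8) (by positivity) fun t => by
      clear * - w ε Λ C G S t hJ1 hε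
      have h1 : 2 * w / (ε / 8) + 1 ≤ S.φ (S.lam t) := hJ1 t
      have h2 : 2 * w / (ε / 8) ≤ S.φ (S.lam t) := by linarith only [h1]
      rw [div_le_iff₀ (by positivity)] at h2; linarith only [h2]
    obtain ⟨N2, hN2⟩ := exists_nat_ge (Cst / (ε / 8))
    rw [div_le_iff₀ (by positivity)] at hN2
    refine ⟨max N1 N2, fun N hN ι => ?_⟩
    have h1 := diff_le (fun n => Φ fun i => u (i + n))
      (fun n => Φ fun e => Lt (S.typ n) (S.lab n) (e + S.off n)) (fun _ => hΦ _) (fun _ => hΦ _) _ hC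
      (fun n hn => hΦw _ _ fun e he => by
        obtain ⟨e1, e2, e3⟩ := S.st_eq (S.st_H n) (not_not.mp hn e he)
        simp only [u, add_comm e n, SST.off, e1, e2, e3]
        congr 1; ring) N ι
    have h2 := hN1 N (le_of_max_le_left hN) ι
    have h3 : (N2 : ℝ) ≤ N := by exact_mod_cast le_of_max_le_right hN
    clear * - N Φ u ι ε Cst N2 Lt Λ C G S hN2 h1 h2 hε h3; nlinarith

end Pool.Agent.PT
end

-- merged part: Pool.Agent.Work.MP_cf06ef_an.P14
section
set_option autoImplicit false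
set_option linter.unusedSectionVars false
open Finset Filter Topology
open ArithmeticFunction (moebius)

namespace Pool.Agent.PT

section
variable {A : Type} (σ : A → List A)

lemma mem_it (l : ℕ) (w : List A) (b : A) : b ∈ it σ l w ↔ ∃ y ∈ w, b ∈ it σ l [y] := by
  induction w with
  | nil => simp [it_nil]
  | cons a w ih => rw [it_cons]; simp [ih]

lemma exists_term [Finite A] (hσ : ∀ a, σ a ≠ []) : ∃ s, s ≠ 0 ∧
    (∀ j a b, b ∈ it σ (s * (j + 1)) [a] ↔ b ∈ it σ s [a]) ∧
    ∀ a, ∃ b ∈ it σ s [a], ∀ b' ∈ it σ s [b], b ∈ it σ s [b'] := by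
  obtain ⟨s, hs, h⟩ := exists_idem (fun k a b => b ∈ it σ k [a]) fun k l x z => by
    rw [it_add, mem_it]
  have h' : ∀ j a b, b ∈ it σ (s * (j + 1)) [a] ↔ b ∈ it σ s [a] := fun j a b =>
    iff_of_eq (congrFun (congrFun (h j) a) b)
  have tr : ∀ a b c, b ∈ it σ s [a] → c ∈ it σ s [b] → c ∈ it σ s [a] := fun a b c h1 h2 => by
    rw [← h' 1, mul_add, mul_one, it_add, mem_it]; exact ⟨b, h1, h2⟩
  refine ⟨s, hs, h', fun a => ?_⟩
  obtain ⟨b0, hb0⟩ := List.exists_mem_of_ne_nil _ (it_ne_nil σ hσ s a)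
  obtain ⟨b, hb, hmin⟩ := Set.exists_min_image {b | b ∈ it σ s [a]}
    (fun b => {c | c ∈ it σ s [b]}.ncard) (Set.toFinite _) ⟨b0, hb0⟩
  obtain ⟨c, hc⟩ := List.exists_mem_of_ne_nil _ (it_ne_nil σ hσ s b)
  refine ⟨c, tr _ _ _ hb hc, fun b' hb' => ?_⟩
  have h1 := tr _ _ _ hc hb'
  have e := Set.eq_of_subset_of_ncard_le (s := {c | c ∈ it σ s [b']}) (t := {c | c ∈ it σ s [b]})
    (fun y hy => tr _ _ _ h1 hy) (hmin _ (tr _ _ _ hb h1))
  exact (Set.ext_iff.mp e c).mpr hc

lemma len_bd' [Finite A] (hσ : ∀ a, σ a ≠ []) (θ : ℝ) (hθ : 1 < θ) (c : A → ℝ)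
    (hc : ∀ a, Tendsto (fun n => ((it σ n [a]).length : ℝ) - c a * θ ^ n) atTop (𝓝 0)) :
    ∃ c1 c2 : ℝ, 0 < c1 ∧ 0 < c2 ∧ ∀ n a, c1 * θ ^ n ≤ (it σ n [a]).length ∧
      ((it σ n [a]).length : ℝ) ≤ c2 * θ ^ n := by
  have hθ0 : 0 < θ := by linarith
  have one : ∀ n a, (1 : ℝ) ≤ (it σ n [a]).length := fun n a => by
    exact_mod_cast List.length_pos_iff.mpr (it_ne_nil σ hσ n a)
  have : ∀ a, ∃ c1 c2 : ℝ, 0 < c1 ∧ ∀ n, c1 * θ ^ n ≤ (it σ n [a]).length ∧
      ((it σ n [a]).length : ℝ) ≤ c2 * θ ^ n := by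
    intro a
    have cpos : 0 < c a := by
      obtain ⟨n, hn⟩ := ((hc a).eventually (gt_mem_nhds one_pos)).exists
      exact (mul_pos_iff_of_pos_right (pow_pos hθ0 n)).mp (by linarith [one n a])
    obtain ⟨E, hE⟩ := (hc a).abs.bddAbove_range
    have hE' : ∀ n, |((it σ n [a]).length : ℝ) - c a * θ ^ n| ≤ E := fun n => hE ⟨n, rfl⟩
    have hE0 : 0 ≤ E := (abs_nonneg _).trans (hE' 0)
    refine ⟨c a / (E + 1), c a + E, by positivity, fun n => ?_⟩
    obtain ⟨a1, a2⟩ := abs_le.mp (hE' n)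
    have h4 : 1 ≤ θ ^ n := one_le_pow₀ hθ.le
    constructor
    · rw [div_mul_eq_mul_div, div_le_iff₀ (by positivity)]; linarith only [a1, hE0, one, one n a, mul_nonneg_of_nonpos_of_nonpos (Mathlib.Tactic.Linarith.sub_nonpos_of_le hE0) (Mathlib.Tactic.Linarith.sub_nonpos_of_le (one n a))]
    · linarith only [a2, hE0, h4, mul_nonneg_of_nonpos_of_nonpos (Mathlib.Tactic.Linarith.sub_nonpos_of_le hE0) (Mathlib.Tactic.Linarith.sub_nonpos_of_le h4)]
  choose c1 c2 h1 h2 using this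
  rcases isEmpty_or_nonempty A with h | h
  · exact ⟨1, 1, one_pos, one_pos, fun n a => (h.false a).elim⟩
  obtain ⟨a1, ha1⟩ := Finite.exists_min c1
  obtain ⟨a2, ha2⟩ := Finite.exists_max c2
  refine ⟨c1 a1, max 1 (c2 a2), h1 _, by positivity, fun n a => ⟨le_trans ?_ (h2 a n).1,
    (h2 a n).2.trans ?_⟩⟩
  · gcongr; exact ha1 a
  · gcongr; exact (ha2 a).trans (le_max_right _ _)

lemma blocks (M : ℕ) (g : ℤ → ℂ) (bd : A → ℝ) (h : ℤ → ℝ) (W : List A) (st : ℤ)
    (hW : ∀ W1 b W2, W = W1 ++ b :: W2 →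
      ‖∑ j ∈ Ico (st + (it σ M W1).length) (st + (it σ M W1).length + (it σ M [b]).length), g j‖
      ≤ bd b + ∑ j ∈ Ico (st + (it σ M W1).length)
        (st + (it σ M W1).length + (it σ M [b]).length), h j) :
    ‖∑ j ∈ Ico st (st + (it σ M W).length), g j‖ ≤
      (W.map bd).sum + ∑ j ∈ Ico st (st + (it σ M W).length), h j := by
  induction W generalizing st with
  | nil => simp [it_nil]
  | cons a W ih =>
    have h1 := hW [] a W rfl
    have h2 := ih (st + (it σ M [a]).length) fun W1 b W2 e => by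
      have := hW (a :: W1) b W2 (by rw [e]; rfl)
      rw [it_cons σ M a W1, List.length_append, Nat.cast_add, ← add_assoc] at this
      exact this
    simp only [it_nil, List.length_nil, Nat.cast_zero, add_zero] at h1
    rw [it_cons σ M a W, List.length_append, Nat.cast_add, ← add_assoc,
      ← Ico_union_Ico_eq_Ico (b := st + (it σ M [a]).length) (by omega) (by omega),
      sum_union (Ico_disjoint_Ico_consecutive _ _ _), sum_union (Ico_disjoint_Ico_consecutive _ _ _),
      List.map_cons, List.sum_cons]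
    exact (norm_add_le _ _).trans (by linarith)

end

def tr1 (f : ℕ → ℂ) (N : ℕ) (j : ℤ) : ℂ := if 1 ≤ j ∧ j ≤ N then f j.toNat else 0

lemma trunc (f : ℕ → ℂ) (N : ℕ) (lo a : ℤ) (h : lo ≤ 1) :
    ∑ j ∈ Ico lo a, tr1 f N j = ∑ n ∈ Icc 1 (min (a - 1).toNat N), f n := by
  simp only [tr1]
  rw [← sum_filter]
  refine sum_nbij' (fun j => j.toNat) (fun n => (n : ℤ)) ?_ ?_ ?_ ?_ ?_ <;>
    simp only [mem_filter, mem_Ico, mem_Icc, implies_true] <;> omega

theorem UW (hD : Dav) (hK : Kat) {A : Type} [Fintype A] (σ : A → List A) (hσ : ∀ a, σ a ≠ [])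
    (θ : ℝ) (hθ : 1 < θ) (c : A → ℝ)
    (hc : ∀ a, Tendsto (fun n => ((it σ n [a]).length : ℝ) - c a * θ ^ n) atTop (𝓝 0))
    (w : ℕ) (Φ : (ℤ → A) → ℂ) (hΦ : ∀ x, ‖Φ x‖ ≤ 1)
    (hΦw : ∀ x y, (∀ e : ℤ, |e| ≤ w → x e = y e) → Φ x = Φ y) (ε : ℝ) (hε : 0 < ε) :
    ∃ N0 : ℕ, ∀ N ≥ N0, ∀ (x : ℤ → A) (a : A) (n : ℕ) (st : ℤ), st ≤ 1 - w →
      N + w < st + (it σ n [a]).length →
      (∀ i : ℕ, 1 - w ≤ st + i → st + i ≤ N + w → (it σ n [a])[i]? = some (x (st + i))) →
      ‖∑ n ∈ Icc 1 N, (moebius n : ℂ) * Φ (fun i => x (i + n))‖ ≤ ε * N := by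
  classical
  rcases isEmpty_or_nonempty A with h | h
  · exact ⟨0, fun N _ x a => (h.false a).elim⟩
  have hθ0 : 0 < θ := by linarith
  obtain ⟨Λ, _, B, K, hlen, hBD⟩ := exists_base σ hσ θ hθ c hc
  obtain ⟨s, hs, hid, hterm⟩ := exists_term σ hσ
  obtain ⟨c1, c2, hc1, hc2, hl⟩ := len_bd' σ hσ θ hθ c hc
  let Tm : A → Prop := fun b => ∀ b' ∈ it σ s [b], b ∈ it σ s [b']
  have tr : ∀ a b c, b ∈ it σ s [a] → c ∈ it σ s [b] → c ∈ it σ s [a] := fun a b c h1 h2 => by
    rw [← hid 1, mul_add, mul_one, it_add, mem_it]; exact ⟨b, h1, h2⟩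
  have cl : ∀ k a b c, b ∈ it σ s [a] → c ∈ it σ (s * k) [b] → c ∈ it σ s [a] := by
    intro k a b c h1 h2
    rw [← hid k, mul_add, mul_one, add_comm, it_add, mem_it]; exact ⟨b, h1, h2⟩
  have Tself : ∀ b, Tm b → b ∈ it σ s [b] := fun b hb => by
    obtain ⟨b', h1, -⟩ := hterm b
    exact tr _ _ _ h1 (hb _ h1)
  have Ther : ∀ k b c, Tm b → c ∈ it σ (s * k) [b] → Tm c := fun k b c hb hc d hd => by
    have h1 := cl k b b c (Tself b hb) hc
    exact tr _ _ _ (hb _ (tr _ _ _ h1 hd)) h1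
  have hps := pow_pos hθ0 s
  set β := min (c1 / (c2 * θ ^ s)) (1 / 2) with hβ
  have hβ0 : 0 < β := by positivity
  have hβ1 : β ≤ 1 / 2 := min_le_right _ _
  have nt : ∀ M i (W : List A), ((it σ (s * i) W).map fun b =>
      if Tm b then (0 : ℝ) else (it σ M [b]).length).sum
      ≤ (1 - β) ^ i * (it σ (s * i + M) W).length := by
    clear * - A Tm σ s β hterm Ther θ hθ0 c1 c2 hl hc1 hc2 hθ hβ1 hβ0
    intro M i
    induction i with
    | zero =>
      intro W
      simp only [mul_zero, zero_add, pow_zero, one_mul]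
      rw [length_it σ M]
      show (W.map _).sum ≤ _
      push_cast
      rw [List.map_map]
      exact List.sum_le_sum fun b _ => by simp only [Function.comp]; split_ifs <;> simp
    | succ i ih =>
      intro W
      induction W with
      | nil => simp [it_nil]
      | cons b W ih2 =>
        rw [it_cons σ _ b W, it_cons σ _ b W, List.map_append, List.sum_append, List.length_append,
          Nat.cast_add, mul_add ((1 - β) ^ (i + 1))]
        refine add_le_add ?_ ih2
        obtain ⟨d, hd, hd'⟩ := hterm b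
        obtain ⟨v1, v2, ev⟩ := List.append_of_mem hd
        have e0 : ((it σ (s * i) [d]).map fun b =>
            if Tm b then (0 : ℝ) else (it σ M [b]).length).sum = 0 :=
          List.sum_eq_zero fun y hy => by
            obtain ⟨e, he, rfl⟩ := List.mem_map.mp hy
            exact if_pos (Ther i d e hd' he)
        have e1 : ((it σ (s + (s * i + M)) [b]).length : ℝ) = (it σ (s * i + M) v1).length +
            ((it σ (s * i + M) [d]).length + (it σ (s * i + M) v2).length) := by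
          rw [it_add, ev, it_append, it_cons]; simp
        have e3 : β * (it σ (s + (s * i + M)) [b]).length ≤ (it σ (s * i + M) [d]).length := by
          have hpm := pow_pos hθ0 (s * i + M)
          calc _ ≤ c1 / (c2 * θ ^ s) * (c2 * θ ^ (s + (s * i + M))) :=
                mul_le_mul (min_le_left _ _) (hl _ _).2 (by positivity) (by positivity)
            _ = c1 * θ ^ (s * i + M) := by rw [pow_add θ s]; field_simp
            _ ≤ _ := (hl _ _).1
        rw [show s * (i + 1) + M = s + (s * i + M) by ring, show s * (i + 1) = s + s * i by ring,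
          it_add σ s (s * i), ev, it_append, it_cons, List.map_append, List.map_append,
          List.sum_append, List.sum_append, e0, pow_succ]
        have hq : 0 ≤ (1 - β) ^ i := pow_nonneg (by linarith only [hβ0, hβ1]) i
        linarith only [ih v1, ih v2, mul_le_mul_of_nonneg_left e3 hq,
          congrArg (fun z : ℝ => (1 - β) ^ i * (1 - β) * z) e1,
          congrArg (fun z : ℝ => (1 - β) ^ i * β * z) e1]
  obtain ⟨i0, hi0⟩ := exists_pow_lt_of_lt_one (x := ε / 6) (y := 1 - β) (by positivity)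
    (by linarith only [hβ0])
  have hpi := pow_pos hθ0 (s * i0)
  set ε' := ε * (c1 / (c2 * θ ^ s)) / (24 * (c2 * θ ^ (s * i0))) with hε'
  have hε'0 : 0 < ε' := by positivity
  have : ∀ b0, ∃ (u : ℤ → A) (N0 : ℕ), Tm b0 → (∀ m, ∃ ι : ℤ, ∀ i : ℕ,
      i < (it σ (s * m + K) [b0]).length → (it σ (s * m + K) [b0])[i]? = some (u (ι + i))) ∧
      ∀ N ≥ N0, ∀ ι : ℤ,
        ‖∑ n ∈ Icc 1 N, (moebius n : ℂ) * Φ (fun i => u (i + (n + ι)))‖ ≤ ε' * N := by
    intro b0
    by_cases hb : Tm b0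
    · obtain ⟨u, h1, N0, h2⟩ := cls_seq hD hK σ B K hlen hBD s hs (fun b => b ∈ it σ s [b0]) b0
        (Tself _ hb) (fun k a b ha hb => cl k _ _ _ ha hb)
        (fun j a b ha hb' => (hid j a b).mpr (tr _ _ _ (hb a ha) hb')) w Φ hΦ hΦw ε' hε'0
      exact ⟨u, N0, fun _ => ⟨h1 b0 (Tself _ hb), h2⟩⟩
    · exact ⟨fun _ => b0, 0, fun h => absurd h hb⟩
  choose u N0 hu using this
  obtain ⟨N1, hN1⟩ := (Set.finite_range N0).bddAbove
  obtain ⟨N2, hN2⟩ := exists_nat_gt (max (max (N1 / ε') (2 * w / ε')) (c2 * θ ^ (s * i0 + (s * 0 + K))))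
  refine ⟨N2, fun N hN x a n st hst hen hx => ?_⟩
  have hN' : (N2 : ℝ) ≤ N := by exact_mod_cast hN
  have hNa : (N1 : ℝ) ≤ ε' * N := by
    have := (le_max_left _ _).trans ((le_max_left _ _).trans (hN2.le.trans hN'))
    rwa [div_le_iff₀' hε'0] at this
  have hNb : 2 * (w : ℝ) ≤ ε' * N := by
    have := (le_max_right _ _).trans ((le_max_left _ _).trans (hN2.le.trans hN'))
    rwa [div_le_iff₀' hε'0] at this
  have hN0 : (0 : ℝ) ≤ N := by positivity
  obtain ⟨m, hm1, hm2⟩ : ∃ m, c2 * θ ^ (s * i0 + (s * m + K)) < N ∧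
      N ≤ c2 * θ ^ (s * i0 + (s * (m + 1) + K)) := by
    clear * - N c2 θ s i0 K hθ hc2 hs A σ w N2 a n st N1 ε' hN2 hN' h
    have ex : ∃ m, N ≤ c2 * θ ^ (s * i0 + (s * m + K)) := by
      obtain ⟨m, hm⟩ := pow_unbounded_of_one_lt (N / c2) hθ
      rw [div_lt_iff₀' hc2] at hm
      refine ⟨m, hm.le.trans ?_⟩
      gcongr
      · exact hθ.le
      · have := Nat.le_mul_of_pos_left m (Nat.pos_of_ne_zero hs); omega
    have h0 : Nat.find ex ≠ 0 := fun h => by
      have := Nat.find_spec ex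
      rw [h] at this
      linarith only [hN2, hN', this, le_max_right (max (N1 / ε') (2 * w / ε')) (c2 * θ ^ (s * i0 + (s * 0 + K)))]
    obtain ⟨m, hm⟩ := Nat.exists_eq_succ_of_ne_zero h0
    exact ⟨m, not_le.mp (Nat.find_min ex (by omega)), by
      have := Nat.find_spec ex; rwa [hm] at this⟩
  generalize hM : s * m + K = M at hm1
  rw [show s * i0 + (s * (m + 1) + K) = s + (s * i0 + M) by rw [← hM]; ring, pow_add] at hm2
  obtain ⟨n', rfl⟩ : ∃ n', n = n' + (s * i0 + M) := by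
    clear * - s i0 M n A σ a c2 θ c1 hl hθ hc2 N w K N2 st hst hen m hm1
    refine Nat.exists_eq_add_of_le' (not_lt.mp fun hlt => ?_)
    have h1 := (hl n a).2
    have h2 : c2 * θ ^ n ≤ c2 * θ ^ (s * i0 + M) := by clear * - c2 θ n s i0 M hθ hlt hc2; gcongr; exact hθ.le
    have h3 : N ≤ (it σ n [a]).length := by omega
    have h4 : (N : ℝ) ≤ (it σ n [a]).length := by exact_mod_cast h3
    linarith only [hm1, h1, h2, h4]
  set g : ℤ → ℂ := tr1 (fun n => (moebius n : ℂ) * Φ (fun i => x (i + n))) N with hg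
  have g1 : ∀ j, ‖g j‖ ≤ 1 := fun j => by
    simp only [hg, tr1]; split_ifs
    · rw [norm_mul]; exact mul_le_one₀ (norm_moebius_le _) (norm_nonneg _) (hΦ _)
    · simp
  have term : ∀ b (t : ℤ), Tm b → (∀ i : ℕ, i < (it σ M [b]).length → 1 - w ≤ t + i →
      t + i ≤ N + w → (it σ M [b])[i]? = some (x (t + i))) →
      ‖∑ j ∈ Ico t (t + (it σ M [b]).length), g j‖ ≤ 4 * (ε' * N) := by
    clear * - A Tm σ M w N x s K u N0 Φ ε' g hu m ε c1 c2 θ i0 hε hc1 hc2 hθ hΦ N1 hN1 hNa N2 a st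
      n' g1 hg hΦw hM hNb h hx
    intro b t hb hx
    obtain ⟨h1, h2⟩ := hu b hb
    obtain ⟨ι, hι⟩ := h1 m
    rw [hM] at hι
    set g' : ℤ → ℂ := tr1 (fun n => (moebius n : ℂ) * Φ (fun i => u b (i + (n + (ι - t))))) N
      with hg'
    have a1 : ∀ M' ≤ N, ‖∑ n ∈ Icc 1 M', (moebius n : ℂ) * Φ (fun i => u b (i + (n + (ι - t))))‖
        ≤ ε' * N := by
      clear * - N Φ u b ι t ε' N0 h2 ε c1 c2 θ s i0 hε hc1 hc2 hθ hΦ N1 hN1 A hNa h
      intro M' hM'
      by_cases h : N0 b ≤ M'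
      · exact (h2 M' h _).trans (by clear * - ε' M' N hM' ε c1 c2 θ s i0 hε hc1 hc2 hθ; gcongr)
      · refine (norm_sum_le_of_le _ (n := fun _ => (1 : ℝ)) fun n _ => ?_).trans ?_
        · rw [norm_mul]; exact mul_le_one₀ (norm_moebius_le _) (norm_nonneg _) (hΦ _)
        · have h3 : M' ≤ N1 := (not_le.mp h).le.trans (hN1 ⟨b, rfl⟩)
          have h4 : (M' : ℝ) ≤ N1 := by exact_mod_cast h3
          simp only [sum_const, Nat.card_Icc, add_tsub_cancel_right, nsmul_eq_mul, mul_one]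
          linarith only [hNa, h4]
    have a2 : ‖∑ j ∈ Ico t (t + (it σ M [b]).length), g' j‖ ≤ 2 * (ε' * N) := by
      clear * - t A σ M b g' ε' N w K s i0 N2 a st m n' Φ u ι hg' ε c1 c2 θ a1
      have e := sum_union (f := g') (Ico_disjoint_Ico_consecutive (min t 1) t
        (t + (it σ M [b]).length))
      rw [Ico_union_Ico_eq_Ico (min_le_left _ _) (by omega)] at e
      rw [← sub_eq_of_eq_add' e, hg', trunc _ _ _ _ (min_le_right _ _),
        trunc _ _ _ _ (min_le_right _ _)]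
      exact (norm_sub_le _ _).trans (by
        linarith only [a1, a1 _ (min_le_right (t + (it σ M [b]).length - 1).toNat N),
          a1 _ (min_le_right (t - 1).toNat N)])
    have a3 : ‖∑ j ∈ Ico t (t + (it σ M [b]).length), g j -
        ∑ j ∈ Ico t (t + (it σ M [b]).length), g' j‖ ≤ 2 * (2 * w) := by
      clear * - t A σ M b g g' w N Φ u ι hg' hΦ g1 x hg hΦw K s i0 N2 a st m n' hx hι h
      rw [← sum_sub_distrib]
      refine (norm_sum_le_of_le _ (n := fun j => 2 * if g j ≠ g' j then (1 : ℝ) else 0)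
        fun j _ => ?_).trans ?_
      · split_ifs with h
        · refine (norm_sub_le _ _).trans ?_
          have : ‖g' j‖ ≤ 1 := by
            simp only [hg', tr1]; split_ifs
            · rw [norm_mul]; exact mul_le_one₀ (norm_moebius_le _) (norm_nonneg _) (hΦ _)
            · simp
          linarith only [this, g1, g1 j]
        · simp [not_not.mp h]
      · rw [← mul_sum]
        refine mul_le_mul_of_nonneg_left ?_ (by norm_num)
        suffices h : ∀ j, t ≤ j → j < t + (it σ M [b]).length → g j ≠ g' j →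
            j < t + w ∨ t + (it σ M [b]).length - w ≤ j by
          exact le_trans (le_of_eq (sum_congr rfl fun j _ => by congr))
            (cnt_ends (fun j => g j ≠ g' j) t (t + (it σ M [b]).length) w h)
        intro j b1 b2 b3
        by_contra hcon
        apply b3
        simp only [hg, hg', tr1]
        split_ifs with h
        · congr 1
          refine hΦw _ _ fun e he => ?_
          rw [abs_le] at he
          obtain ⟨i, hi⟩ : ∃ i : ℕ, e + j = t + i := ⟨(e + j - t).toNat, by omega⟩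
          have := (hx i (by omega) (by omega) (by omega)).symm.trans (hι i (by omega))
          rw [show e + (j.toNat : ℤ) = t + i by omega,
            show e + ((j.toNat : ℤ) + (ι - t)) = ι + i by omega]
          exact Option.some.inj this
        · rfl
    linarith only [hNb, a2, a3, norm_sub_norm_le (∑ j ∈ Ico t (t + (it σ M [b]).length), g j)
      (∑ j ∈ Ico t (t + (it σ M [b]).length), g' j)]
  have big : ∀ b (t : ℤ), (∀ i : ℕ, i < (it σ (s * i0 + M) [b]).length → 1 - w ≤ t + i →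
      t + i ≤ N + w → (it σ (s * i0 + M) [b])[i]? = some (x (t + i))) →
      ‖∑ j ∈ Ico t (t + (it σ (s * i0 + M) [b]).length), g j‖
        ≤ ε / 3 * (it σ (s * i0 + M) [b]).length := by
    clear * - A σ s i0 M w N x g ε' Tm term K N2 a st m n' g1 ε c1 c2 θ hε hc1 hc2 hθ β nt hl hi0
      hm2 hε' hx
    intro b t hx
    have h1 := blocks σ M g (fun b => 4 * (ε' * N) + if Tm b then (0 : ℝ) else (it σ M [b]).length)
      (fun _ => 0) (it σ (s * i0) [b]) t fun W1 d W2 e => by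
        rw [sum_const_zero, add_zero]
        split_ifs with hd
        · rw [add_zero]
          refine term d _ hd fun i b1 b2 b3 => ?_
          rw [it_add, e, it_append, it_cons] at hx
          rw [← get_mid (it σ M W1) _ (it σ M W2) i b1, hx _ (by simp; omega)
            (by push_cast; omega) (by push_cast; omega)]
          push_cast; rw [add_assoc]
        · refine (norm_sum_le_of_le _ fun j _ => g1 j).trans ?_
          simp; clear * - ε' N ε c1 c2 θ s i0 hε hc1 hc2 hθ; positivity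
    rw [sum_const_zero, add_zero, List.sum_map_add, ← it_add] at h1
    refine h1.trans ?_
    have h2 := nt M i0 [b]
    have h3 := (hl (s * i0) b).2
    have h4 := (hl (s * i0 + M) b).1
    have h5 : (1 - β) ^ i0 * (it σ (s * i0 + M) [b]).length
        ≤ ε / 6 * (it σ (s * i0 + M) [b]).length := by clear * - A σ s i0 M b β ε hi0; gcongr
    have h6 : ((it σ (s * i0) [b]).length : ℝ) * (4 * (ε' * N))
        ≤ ε / 6 * (it σ (s * i0 + M) [b]).length :=
      calc _ ≤ (c2 * θ ^ (s * i0)) * (4 * (ε' * (c2 * (θ ^ s * θ ^ (s * i0 + M))))) := by clear * - A σ s i0 b c2 θ ε' N M h3 hm2 ε c1 hε hc1 hc2 hθ hε'; gcongr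
        _ = ε / 6 * (c1 * θ ^ (s * i0 + M)) := by clear * - c2 θ s i0 ε' M ε c1 hε' hc2 hθ hc1 hε; rw [hε']; field_simp; ring
        _ ≤ _ := by clear * - ε c1 θ s i0 M A σ b h4 hε; gcongr
    simp only [List.map_const', List.sum_replicate, nsmul_eq_mul]
    clear * - A σ s i0 b ε' N Tm M ε β c1 c2 θ h2 h5 h6; linarith only [h2, h5, h6]
  have fin := blocks σ (s * i0 + M) g (fun _ => 0)
    (fun j => if 1 - (N : ℤ) ≤ j ∧ j ≤ 2 * N then ε / 3 else 0) (it σ n' [a]) st fun W1 d W2 e => by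
      clear * - st A σ s i0 M W1 d g N ε c2 θ c1 hl hm1 big w x W2 n' a e hx K N2 m Φ hε h hc
      rw [zero_add]
      generalize ht : st + (it σ (s * i0 + M) W1).length = t
      by_cases hc : ∃ j ∈ Ico t (t + (it σ (s * i0 + M) [d]).length), 1 ≤ j ∧ j ≤ N
      · obtain ⟨j, hj, b1, b2⟩ := hc
        have b3 : (it σ (s * i0 + M) [d]).length < N := by
          exact_mod_cast (hl (s * i0 + M) d).2.trans_lt hm1
        refine (big d t fun i b4 b5 b6 => ?_).trans (le_of_eq ?_)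
        · rw [it_add, e, it_append, it_cons] at hx
          rw [← get_mid (it σ (s * i0 + M) W1) _ (it σ (s * i0 + M) W2) i b4, hx _
            (by push_cast; omega) (by push_cast; omega), ← ht]
          push_cast; rw [add_assoc]
        · rw [sum_congr rfl (g := fun _ => ε / 3) fun j' hj' => if_pos (by
            simp only [mem_Ico] at hj hj'; omega)]
          simp [mul_comm]
      · rw [sum_eq_zero (f := g) fun j hj => if_neg fun h => hc ⟨j, hj, h⟩, norm_zero]
        exact sum_nonneg fun j _ => by split_ifs <;> positivity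
  rw [← it_add, hg, trunc _ _ _ _ (by omega), min_eq_right (by omega)] at fin
  refine fin.trans ?_
  rw [← sum_filter, sum_const, nsmul_eq_mul]
  have : ((Ico st (st + (it σ (n' + (s * i0 + M)) [a]).length)).filter
      fun j => 1 - (N : ℤ) ≤ j ∧ j ≤ 2 * N).card ≤ 3 * N := by
    clear * - N st A σ n' s i0 M a w K N2 m
    refine (card_le_card (t := Icc (1 - (N : ℤ)) (2 * N)) fun j hj => ?_).trans ?_
    · simp only [mem_filter, mem_Icc] at hj ⊢; exact hj.2
    · simp; omega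
  have h2 : (((Ico st (st + (it σ (n' + (s * i0 + M)) [a]).length)).filter
      fun j => 1 - (N : ℤ) ≤ j ∧ j ≤ 2 * N).card : ℝ) ≤ 3 * N := by exact_mod_cast this
  simp only [List.map_const', List.sum_replicate, smul_zero, zero_add]
  linarith only [mul_le_mul_of_nonneg_right h2 hε.le]

end Pool.Agent.PT
end
end

-- merged part: Pool.Agent.Work.MP_cf06ef_an.B17
section
-- merged part: Pool.Agent.Work.MP_cf06ef_an.B0
section
/-! Shared definitions for the Moebius disjointness of all substitution subshifts. -/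

set_option autoImplicit false
open Finset Filter Topology
open ArithmeticFunction (moebius)

namespace Pool.Agent.SB
open Pool.Agent.PT

/-- the Moebius function with real values. -/
noncomputable def mu (n : ℕ) : ℝ := ((moebius n : ℤ) : ℝ)

/-- two-point Chowla. -/
def CH2 : Prop := ∀ h : ℕ, 1 ≤ h →
  Tendsto (fun N : ℕ => (1 / (N : ℝ)) * ∑ n ∈ range N, mu n * mu (n + h)) atTop (𝓝 0)

/-- convolutions of Moebius with kernels having small atoms are small in `L¹`. -/
def CV : Prop := ∀ δ : ℝ, 0 < δ → ∀ w : ℕ, ∃ N0 : ℕ, ∀ N ≥ N0, ∀ (ι : Type) (I : Finset ι)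
  (t : ι → ℕ) (k : ℝ), (∀ i ∈ I, t i < w) → (∀ s, ((I.filter fun i => t i = s).card : ℝ) ≤ k) →
  ∑ u ∈ Icc 1 N, |∑ i ∈ I, mu (u + t i)| ≤ N * (k / δ + δ * I.card)

/-- a bounded function of a finite window. -/
structure WF (A : Type) where
  f : (ℤ → A) → ℂ
  w : ℕ
  bd : ∀ x, ‖f x‖ ≤ 1
  loc : ∀ x y, (∀ e : ℤ, |e| ≤ w → x e = y e) → f x = f y

/-- the window function along the orbit of `x`. -/
def WF.ev {A : Type} (Φ : WF A) (x : ℤ → A) (n : ℤ) : ℂ := Φ.f fun i => x (i + n)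

/-- the word `v` occurs in `x` at position `u`. -/
def Occ {A : Type} (x : ℤ → A) (u : ℤ) (v : List A) : Prop :=
  ∀ i : ℕ, i < v.length → v[i]? = some (x (u + i))

/-- `U` is a disjoint union of occurrences in `x` of words of `W`. -/
inductive Tiled {A : Type} (W : Set (List A)) (x : ℤ → A) : Finset ℕ → Prop
  | nil : Tiled W x ∅
  | add {U : Finset ℕ} {u : ℕ} {v : List A} : Tiled W x U → v ∈ W → Occ x u v →
      Disjoint U (Ico u (u + v.length)) → Tiled W x (U ∪ Ico u (u + v.length))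

/-- orthogonality to Moebius on arbitrary disjoint unions of occurrences of words of `W`. -/
def BLK {A : Type} (Φ : WF A) (W : Set (List A)) (ε : ℝ) : Prop :=
  ∃ N0 : ℕ, ∀ N ≥ N0, ∀ (x : ℤ → A) (U : Finset ℕ), Tiled W x U → U ⊆ Icc 1 N →
    ‖∑ n ∈ U, (moebius n : ℂ) * Φ.ev x n‖ ≤ ε * N

/-- the word is a concatenation of words of `W` and at most `m` further letters. -/
inductive Cov {A : Type} (W : Set (List A)) : List A → ℝ → Prop
  | nil : Cov W [] 0
  | good {w v : List A} {m : ℝ} : w ∈ W → Cov W v m → Cov W (w ++ v) m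
  | junk {a : A} {v : List A} {m : ℝ} : Cov W v m → Cov W (a :: v) (m + 1)
  | mono {v : List A} {m m' : ℝ} : Cov W v m → m ≤ m' → Cov W v m'

open Classical in
/-- number of jumps. -/
noncomputable def jmp {Θ : Type} (π : ℕ → Θ) (N : ℕ) : ℕ :=
  ((range N).filter fun n => π (n + 1) ≠ π n).card

/-- optional shift. -/
def sh (a : ℤ → ℂ) : Option ℤ → ℕ → ℂ
  | none, _ => 0
  | some ι, n => a (n + ι)

/-- orthogonality to Moebius along moving orbits, with error `ε`. -/
def BOe (a : ℤ → ℂ) (ε : ℝ) : Prop := ∃ (L0 : ℝ) (N0 : ℕ), ∀ N ≥ N0, ∀ π : ℕ → Option ℤ,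
  ‖∑ n ∈ Icc 1 N, (moebius n : ℂ) * sh a (π n) n‖ ≤ ε * N + L0 * jmp π N

/-- orthogonality to Moebius along moving orbits. -/
def BO (a : ℤ → ℂ) : Prop := ∀ ε : ℝ, 0 < ε → BOe a ε

/-- a factor of a periodic sequence of period at most `P0`. -/
def Per {A : Type} (P0 : ℕ) (s : List A) : Prop :=
  ∃ (P : ℕ) (u : ℤ → A), 1 ≤ P ∧ P ≤ P0 ∧ (∀ n, u (n + P) = u n) ∧ Occ u 0 s

/-- a concatenation of at most `k` periodic words. -/
def QP {A : Type} (P0 k : ℕ) (r : List A) : Prop :=
  ∃ l : List (List A), l.length ≤ k ∧ l.flatten = r ∧ ∀ s ∈ l, Per P0 s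

/-- length of the `n`-th image of a letter. -/
def len {A : Type} (σ : A → List A) (n : ℕ) (a : A) : ℕ := (it σ n [a]).length

/-- power of a substitution. -/
def pw {A : Type} (σ : A → List A) (T : ℕ) : A → List A := fun a => it σ T [a]

/-- a primitive class of letters which dominates the growth of all letters. -/
structure Cls {A : Type} (σ : A → List A) where
  p : A → Prop
  a0 : A
  θ : ℝ
  L : A → ℝ
  ne : ∀ a, σ a ≠ []
  pa0 : p a0
  prim : ∀ c c', p c → p c' → c' ∈ σ c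
  low : ∀ b a, ¬ p b → a ∈ σ b → ¬ p a
  one_lt : 1 < θ
  pos : ∀ c, p c → 0 < L c
  zero : ∀ b, ¬ p b → L b = 0
  lim : ∀ a, Tendsto (fun n => (len σ n a : ℝ) / θ ^ n) atTop (𝓝 (L a))

/-- the images of level `K` of the letters of the class. -/
def Cls.W {A : Type} {σ : A → List A} (S : Cls σ) (K : ℕ) : Set (List A) :=
  {v | ∃ c, S.p c ∧ v = it σ K [c]}

/-- the main statement for a dominating primitive class. -/
def Cls.Main {A : Type} {σ : A → List A} (S : Cls σ) : Prop :=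
  ∀ (Φ : WF A) (ε : ℝ), 0 < ε → ∀ K0 : ℕ, ∃ K ≥ K0, BLK Φ (S.W K) ε

lemma it_succ {A : Type} (σ : A → List A) (n : ℕ) (w : List A) :
    it σ (n + 1) w = it σ n (it σ 1 w) := by rw [add_comm, it_add]

lemma it_succ' {A : Type} (σ : A → List A) (n : ℕ) (w : List A) :
    it σ (n + 1) w = it σ 1 (it σ n w) := it_add σ n 1 w

lemma it_zero {A : Type} (σ : A → List A) (w : List A) : it σ 0 w = w := rfl

lemma it_one' {A : Type} (σ : A → List A) (a : A) : it σ 1 [a] = σ a := by simp [it_one]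

lemma it_eq_flatMap {A : Type} (σ : A → List A) (n : ℕ) (w : List A) :
    it σ n w = w.flatMap fun a => it σ n [a] := by
  induction w with
  | nil => simp [it_nil]
  | cons a w ih => rw [it_cons, ih]; simp

lemma it_pw {A : Type} (σ : A → List A) (T n : ℕ) (w : List A) :
    it (pw σ T) n w = it σ (T * n) w := by
  induction n with
  | zero => rfl
  | succ n ih => rw [it_succ', ih, mul_add, mul_one, it_add, it_one, it_eq_flatMap σ T]; rfl

lemma len_pw {A : Type} (σ : A → List A) (T n : ℕ) (a : A) : len (pw σ T) n a = len σ (T * n) a := by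
  rw [len, it_pw, len]

lemma length_it' {A : Type} (σ : A → List A) (n : ℕ) (w : List A) :
    ((it σ n w).length : ℝ) = (w.map fun a => (len σ n a : ℝ)).sum := by
  induction w with
  | nil => simp [it_nil]
  | cons a w ih => rw [it_cons, List.length_append, Nat.cast_add, ih]; simp [len]

lemma le_length_it {A : Type} {σ : A → List A} (hσ : ∀ a, σ a ≠ []) (n : ℕ) (w : List A) :
    w.length ≤ (it σ n w).length := by
  induction w with
  | nil => simp
  | cons a w ih =>
    rw [it_cons, List.length_append, List.length_cons]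
    have := List.length_pos_iff.mpr (it_ne_nil σ hσ n a)
    omega

lemma len_mono {A : Type} {σ : A → List A} (hσ : ∀ a, σ a ≠ []) (a : A) :
    Monotone fun n => len σ n a := fun m n h => by
  obtain ⟨k, rfl⟩ := Nat.exists_eq_add_of_le h
  simp only [len]; rw [it_add]; exact le_length_it hσ k _

lemma it_infix {A : Type} (σ : A → List A) (n : ℕ) {v w : List A} (h : v <:+: w) :
    it σ n v <:+: it σ n w := by
  obtain ⟨s, t, rfl⟩ := h
  exact ⟨it σ n s, it σ n t, by rw [it_append, it_append]⟩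

lemma mu_abs_le (n : ℕ) : |mu n| ≤ 1 := by
  have : |moebius n| ≤ 1 := ArithmeticFunction.abs_moebius_le_one
  unfold mu; exact_mod_cast this

lemma mu_cast (n : ℕ) : ((mu n : ℝ) : ℂ) = (moebius n : ℂ) := by simp [mu]

lemma Occ_append {A : Type} {x : ℤ → A} {u : ℤ} {v w : List A} :
    Occ x u (v ++ w) ↔ Occ x u v ∧ Occ x (u + v.length) w := by
  constructor
  · intro h
    refine ⟨fun i hi => ?_, fun i hi => ?_⟩
    · rw [← h i (by simp; omega), List.getElem?_append_left hi]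
    · have := h (v.length + i) (by simp; omega)
      rw [List.getElem?_append_right (by omega), Nat.add_sub_cancel_left] at this
      rw [this]; push_cast; rw [add_assoc]
  · rintro ⟨h1, h2⟩ i hi
    by_cases h : i < v.length
    · rw [List.getElem?_append_left h]; exact h1 i h
    · obtain ⟨j, rfl⟩ := Nat.exists_eq_add_of_le (not_lt.mp h)
      rw [List.getElem?_append_right (by omega), Nat.add_sub_cancel_left,
        h2 j (by simp at hi; omega)]
      push_cast; rw [add_assoc]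

lemma Occ.sub {A : Type} {x : ℤ → A} {u : ℤ} {v w : List A} (h : Occ x u w) (hv : v <:+: w) :
    ∃ u', Occ x u' v := by
  obtain ⟨s, t, rfl⟩ := hv
  exact ⟨_, (Occ_append.mp (Occ_append.mp h).1).2⟩

/-- two occurrences of the same word give the same values away from the ends. -/
lemma WF.ev_eq {A : Type} (Φ : WF A) {x y : ℤ → A} {u u' : ℤ} {v : List A} (h : Occ x u v)
    (h' : Occ y u' v) (j : ℕ) (h1 : Φ.w ≤ j) (h2 : j + Φ.w < v.length) :
    Φ.ev x (u + j) = Φ.ev y (u' + j) := by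
  refine Φ.loc _ _ fun e he => ?_
  rw [abs_le] at he
  obtain ⟨i, hi⟩ : ∃ i : ℕ, e + j = i := ⟨(e + j).toNat, by omega⟩
  have := (h i (by omega)).symm.trans (h' i (by omega))
  rw [show e + (u + j) = u + i by omega, show e + (u' + j) = u' + i by omega]
  exact Option.some.inj this

/-- Doeblin limit lemma. -/
lemma doeblin {C : Type} [Finite C] [Nonempty C] (v : ℕ → C → ℝ) (π : ℝ) (hπ : 0 < π)
    (d : ℕ → ℝ) (hd : Antitone d) (hd0 : Tendsto d atTop (𝓝 0))
    (h : ∀ m a, (∀ c, a ≤ v m c) → ∀ c c', a + π * (v m c' - a) - (d m - d (m + 1)) ≤ v (m + 1) c) :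
    (∃ κ, (∀ c, Tendsto (fun m => v m c) atTop (𝓝 κ)) ∧
      ∀ m a, (∀ c, a ≤ v m c) → a - d m ≤ κ) ∨
    ∀ c, Tendsto (fun m => v m c) atTop atTop := by
  choose cm hcm using fun m => Finite.exists_min (v m)
  set a : ℕ → ℝ := fun m => v m (cm m) - d m with ha
  have step : ∀ m c', a m + π * (v m c' - v m (cm m)) ≤ a (m + 1) := fun m c' => by
    have := h m _ (hcm m) (cm (m + 1)) c'
    simp only [ha]; linarith only [this]
  have mono : Monotone a := monotone_nat_of_le_succ fun m => by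
    have := step m (cm m); linarith
  have dn : ∀ m, 0 ≤ d m := fun m => hd.le_of_tendsto hd0 m
  by_cases hb : BddAbove (Set.range a)
  · left
    have ta := tendsto_atTop_ciSup mono hb
    refine ⟨⨆ m, a m, fun c => ?_, fun m b hb' => ?_⟩
    · have t1 : Tendsto (fun m => a m + d m) atTop (𝓝 (⨆ m, a m)) := by simpa using ta.add hd0
      have t2 : Tendsto (fun m => a m + d m + (a (m + 1) - a m) / π) atTop (𝓝 (⨆ m, a m)) := by
        simpa using t1.add (((ta.comp (tendsto_add_atTop_nat 1)).sub ta).div_const π)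
      refine tendsto_of_tendsto_of_tendsto_of_le_of_le t1 t2 (fun m => ?_) (fun m => ?_)
      · simp only [ha]; linarith [hcm m c]
      · have := step m c
        have h2 : v m c - v m (cm m) ≤ (a (m + 1) - a m) / π := by
          rw [le_div_iff₀ hπ]; linarith
        simp only [ha] at h2 ⊢; linarith only [h2]
    · exact le_trans (by simp only [ha]; linarith [hb' (cm m)]) (le_ciSup hb m)
  · right
    intro c
    refine tendsto_atTop_mono (fun m => ?_) (tendsto_atTop_atTop_of_monotone' mono hb)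
    simp only [ha]; linarith [hcm m c, dn m]

end Pool.Agent.SB
end

-- merged part: Pool.Agent.Work.MP_cf06ef_an.B1
section
/-! Tilings, covers, block orthogonality: elementary API. -/

set_option autoImplicit false
open Finset Filter Topology
open ArithmeticFunction (moebius)

namespace Pool.Agent.SB
open Pool.Agent.PT
variable {A : Type}

lemma WF.term_le (Φ : WF A) (x : ℤ → A) (n : ℕ) (m : ℤ) : ‖(moebius n : ℂ) * Φ.ev x m‖ ≤ 1 := by
  rw [norm_mul]; exact mul_le_one₀ (norm_moebius_le n) (norm_nonneg _) (Φ.bd _)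

lemma Tiled.mono {W W' : Set (List A)} {x : ℤ → A} {U : Finset ℕ} (h : Tiled W x U)
    (hW : W ⊆ W') : Tiled W' x U := by
  induction h with
  | nil => exact .nil
  | add _ hv ho hd ih => exact .add ih (hW hv) ho hd

lemma Tiled.union {W : Set (List A)} {x : ℤ → A} {U V : Finset ℕ} (hU : Tiled W x U)
    (hV : Tiled W x V) (hd : Disjoint U V) : Tiled W x (U ∪ V) := by
  induction hV with
  | nil => simpa using hU
  | add _ hv ho hd' ih =>
    rw [disjoint_union_right] at hd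
    rw [← union_assoc]
    exact .add (ih hd.1) hv ho (disjoint_union_left.mpr ⟨hd.2, hd'⟩)

lemma Tiled.split {W W' : Set (List A)} {x : ℤ → A} {U : Finset ℕ} (h : Tiled (W ∪ W') x U) :
    ∃ U1 U2, Tiled W x U1 ∧ Tiled W' x U2 ∧ Disjoint U1 U2 ∧ U = U1 ∪ U2 := by
  induction h with
  | nil => exact ⟨∅, ∅, .nil, .nil, by simp, by simp⟩
  | add _ hv ho hd ih =>
    obtain ⟨U1, U2, h1, h2, h3, rfl⟩ := ih
    rw [disjoint_union_left] at hd
    rcases hv with hv | hv
    · exact ⟨_, U2, .add h1 hv ho hd.1, h2, disjoint_union_left.mpr ⟨h3, hd.2.symm⟩,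
        union_right_comm _ _ _⟩
    · exact ⟨U1, _, h1, .add h2 hv ho hd.2, disjoint_union_right.mpr ⟨h3, hd.1⟩, union_assoc _ _ _⟩

/-- the explicit list of tiles of a tiling. -/
lemma Tiled.exists_tiles {W : Set (List A)} {x : ℤ → A} {U : Finset ℕ} (h : Tiled W x U) :
    ∃ T : Finset (ℕ × List A), (∀ τ ∈ T, τ.2 ∈ W ∧ Occ x τ.1 τ.2 ∧
      Ico τ.1 (τ.1 + τ.2.length) ⊆ U) ∧
      (∀ τ ∈ T, ∀ τ' ∈ T, τ ≠ τ' →
        Disjoint (Ico τ.1 (τ.1 + τ.2.length)) (Ico τ'.1 (τ'.1 + τ'.2.length))) ∧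
      ∀ g : ℕ → ℂ, ∑ n ∈ U, g n = ∑ τ ∈ T, ∑ j ∈ range τ.2.length, g (τ.1 + j) := by
  classical
  induction h with
  | nil => exact ⟨∅, by simp, by simp, by simp⟩
  | @add U u v _ hv ho hd ih =>
    obtain ⟨T, h1, h2, h3⟩ := ih
    by_cases hm : (u, v) ∈ T
    · have h4 := (h1 _ hm).2.2
      rw [union_eq_left.mpr h4]
      exact ⟨T, h1, h2, h3⟩
    refine ⟨insert (u, v) T, fun τ hτ => ?_, fun τ hτ τ' hτ' hne => ?_, fun g => ?_⟩
    · rcases mem_insert.mp hτ with rfl | hτ
      · exact ⟨hv, ho, subset_union_right⟩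
      · exact ⟨(h1 τ hτ).1, (h1 τ hτ).2.1, (h1 τ hτ).2.2.trans subset_union_left⟩
    · rcases mem_insert.mp hτ with rfl | hτ <;> rcases mem_insert.mp hτ' with rfl | hτ'
      · exact absurd rfl hne
      · exact (hd.mono_left (h1 τ' hτ').2.2).symm
      · exact hd.mono_left (h1 τ hτ).2.2
      · exact h2 τ hτ τ' hτ' hne
    · rw [sum_union hd, sum_insert hm, h3, add_comm, sum_Ico_eq_sum_range, Nat.add_sub_cancel_left]

lemma BLK.mono {Φ : WF A} {W W' : Set (List A)} {ε ε' : ℝ} (h : BLK Φ W ε) (hW : W' ⊆ W)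
    (hε : ε ≤ ε') : BLK Φ W' ε' := by
  obtain ⟨N0, h⟩ := h
  exact ⟨N0, fun N hN x U hU hs => (h N hN x U (hU.mono hW) hs).trans (by gcongr)⟩

lemma BLK.union {Φ : WF A} {W W' : Set (List A)} {ε ε' : ℝ} (h : BLK Φ W ε) (h' : BLK Φ W' ε') :
    BLK Φ (W ∪ W') (ε + ε') := by
  obtain ⟨N0, h⟩ := h
  obtain ⟨N1, h'⟩ := h'
  refine ⟨max N0 N1, fun N hN x U hU hs => ?_⟩
  obtain ⟨U1, U2, h1, h2, h3, rfl⟩ := hU.split
  rw [sum_union h3, add_mul]
  exact (norm_add_le _ _).trans (add_le_add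
    (h N (le_of_max_le_left hN) x U1 h1 (subset_union_left.trans hs))
    (h' N (le_of_max_le_right hN) x U2 h2 (subset_union_right.trans hs)))

lemma BLK.empty (Φ : WF A) : BLK Φ ∅ 0 := by
  refine ⟨0, fun N _ x U hU _ => ?_⟩
  cases hU with
  | nil => simp
  | add _ hv => exact hv.elim

lemma BLK.biUnion {I : Type} {Φ : WF A} (s : Finset I) (W : I → Set (List A)) {ε : ℝ}
    (h : ∀ i ∈ s, BLK Φ (W i) ε) : BLK Φ (⋃ i ∈ s, W i) (s.card * ε) := by
  classical
  induction s using Finset.induction_on with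
  | empty => simpa using BLK.empty Φ
  | insert i s hi ih =>
    rw [set_biUnion_insert, card_insert_of_notMem hi]
    refine ((h i (mem_insert_self _ _)).union (ih fun j hj => h j (mem_insert_of_mem hj))).mono
      subset_rfl (le_of_eq ?_)
    push_cast; ring

/-- a finite family of sets of words, each with arbitrarily small error. -/
lemma BLK.family {I : Type} [Finite I] {Φ : WF A} (P : I → ℝ → Set (List A) → Prop)
    (h : ∀ i ε, 0 < ε → ∃ W, BLK Φ W ε ∧ P i ε W) (ε : ℝ) (hε : 0 < ε) :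
    ∃ (W : Set (List A)) (ε' : ℝ), 0 < ε' ∧ ε' ≤ ε ∧ BLK Φ W ε ∧ ∀ i, ∃ W' ⊆ W, P i ε' W' := by
  have := Fintype.ofFinite I
  have hc : (0 : ℝ) < Fintype.card I + 1 := by positivity
  choose W h1 h2 using fun i => h i (ε / (Fintype.card I + 1)) (by positivity)
  refine ⟨⋃ i ∈ (univ : Finset I), W i, ε / (Fintype.card I + 1), by positivity,
    div_le_self hε.le (by linarith [Nat.cast_nonneg (α := ℝ) (Fintype.card I)]),
    (BLK.biUnion univ W fun i _ => h1 i).mono subset_rfl ?_, fun i =>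
      ⟨W i, Set.subset_biUnion_of_mem (u := W) (by simp), h2 i⟩⟩
  rw [card_univ, mul_div_assoc', div_le_iff₀ hc]; linarith only [hε]

lemma Cov.nonneg {W : Set (List A)} {v : List A} {m : ℝ} (h : Cov W v m) : 0 ≤ m := by
  induction h with
  | nil => exact le_rfl
  | good _ _ ih => exact ih
  | junk _ ih => linarith
  | mono _ h ih => linarith

lemma Cov.append {W : Set (List A)} {v v' : List A} {m m' : ℝ} (h : Cov W v m)
    (h' : Cov W v' m') : Cov W (v ++ v') (m + m') := by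
  induction h with
  | nil => simpa using h'
  | good hw _ ih => rw [List.append_assoc]; exact .good hw ih
  | junk _ ih => exact (Cov.junk ih).mono (by linarith)
  | mono _ h ih => exact ih.mono (by linarith)

lemma Cov.self (W : Set (List A)) (v : List A) : Cov W v v.length := by
  induction v with
  | nil => simpa using Cov.nil
  | cons a v ih => simpa using Cov.junk ih

lemma Cov.mem {W : Set (List A)} {v : List A} (h : v ∈ W) : Cov W v 0 := by
  simpa using Cov.good h Cov.nil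

lemma Cov.subset {W W' : Set (List A)} {v : List A} {m : ℝ} (h : Cov W v m) (hW : W ⊆ W') :
    Cov W' v m := by
  induction h with
  | nil => exact .nil
  | good hw _ ih => exact .good (hW hw) ih
  | junk _ ih => exact .junk ih
  | mono _ h ih => exact .mono ih h

lemma Cov.flatMap {B : Type} {W : Set (List A)} (f : B → List A) (κ : B → ℝ) (y : List B)
    (h : ∀ b ∈ y, Cov W (f b) (κ b)) : Cov W (y.flatMap f) (y.map κ).sum := by
  induction y with
  | nil => exact .nil
  | cons b y ih =>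
    rw [List.flatMap_cons, List.map_cons, List.sum_cons]
    exact (h b (by simp)).append (ih fun c hc => h c (by simp [hc]))

lemma Cov.tiled {W : Set (List A)} {v : List A} {m : ℝ} (h : Cov W v m) (x : ℤ → A) (u : ℕ)
    (ho : Occ x u v) : ∃ U ⊆ Ico u (u + v.length), Tiled W x U ∧ (v.length : ℝ) ≤ U.card + m := by
  induction h generalizing u with
  | nil => exact ⟨∅, by simp, .nil, by simp⟩
  | @good w v m hw _ ih =>
    obtain ⟨h1, h2⟩ := Occ_append.mp ho
    obtain ⟨U, a1, a2, a3⟩ := ih (u + w.length) (by push_cast; exact h2)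
    have hd : Disjoint U (Ico u (u + w.length)) :=
      (Ico_disjoint_Ico_consecutive _ _ _).symm.mono_left a1
    refine ⟨_, union_subset (a1.trans (Ico_subset_Ico (by omega) (by simp; omega)))
      (Ico_subset_Ico le_rfl (by simp)), .add a2 hw h1 hd, ?_⟩
    rw [card_union_of_disjoint hd]; simp; linarith only [a3]
  | @junk a v m _ ih =>
    obtain ⟨U, a1, a2, a3⟩ := ih (u + 1) (by
      simpa using (Occ_append.mp (show Occ x u ([a] ++ v) from ho)).2)
    exact ⟨U, a1.trans (Ico_subset_Ico (by omega) (by simp; omega)), a2, by simp; linarith⟩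
  | mono _ h ih =>
    obtain ⟨U, a1, a2, a3⟩ := ih u ho
    exact ⟨U, a1, a2, by linarith⟩

lemma norm_sum_le_subset {U V : Finset ℕ} (h : U ⊆ V) (g : ℕ → ℂ) (hg : ∀ n, ‖g n‖ ≤ 1) :
    ‖∑ n ∈ V, g n‖ ≤ ‖∑ n ∈ U, g n‖ + (V.card - U.card) := by
  rw [← sum_sdiff h, add_comm]
  refine (norm_add_le _ _).trans (add_le_add le_rfl ?_)
  refine (norm_sum_le_of_le _ fun n _ => hg n).trans ?_
  rw [sum_const, nsmul_eq_mul, mul_one, card_sdiff_of_subset h, Nat.cast_sub (card_le_card h)]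

/-- the use of a cover for the whole interval. -/
lemma BLK.whole {Φ : WF A} {W : Set (List A)} {ε : ℝ} (h : BLK Φ W ε) : ∃ N0 : ℕ, ∀ N ≥ N0,
    ∀ (x : ℤ → A) (v : List A) (m : ℝ), v.length = N → Occ x 1 v → Cov W v m →
      ‖∑ n ∈ Icc 1 N, (moebius n : ℂ) * Φ.ev x n‖ ≤ ε * N + m := by
  obtain ⟨N0, h⟩ := h
  refine ⟨N0, fun N hN x v m hv ho hc => ?_⟩
  obtain ⟨U, a1, a2, a3⟩ := hc.tiled x 1 ho
  have hs : U ⊆ Icc 1 N := a1.trans fun n hn => by simp at hn ⊢; omega
  have := norm_sum_le_subset hs _ fun n => Φ.term_le x n n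
  have h2 := h N hN x U a2 hs
  rw [hv] at a3
  simp only [Nat.card_Icc, add_tsub_cancel_right] at this
  linarith only [a3, h2, this]

/-- many occurrences of the same word. -/
lemma WF.same_word {I : Type} (Φ : WF A) (x : ℤ → A) (X : Finset I) (st : I → ℕ) (v : List A)
    (h : ∀ i ∈ X, Occ x (st i) v) :
    ‖∑ i ∈ X, ∑ j ∈ range v.length, (moebius (st i + j) : ℂ) * Φ.ev x ((st i + j : ℕ) : ℤ)‖ ≤
      ∑ j ∈ range v.length, |∑ i ∈ X, mu (st i + j)| + 2 * Φ.w * X.card := by
  classical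
  rcases X.eq_empty_or_nonempty with rfl | ⟨i0, hi0⟩
  · simp
  rw [sum_comm]
  refine (norm_sum_le_of_le _ (n := fun j => |∑ i ∈ X, mu (st i + j)| +
    (if Φ.w ≤ j ∧ j + Φ.w < v.length then 0 else 1) * X.card) fun j _ => ?_).trans ?_
  · split_ifs with hj
    · rw [sum_congr rfl (g := fun i => ((mu (st i + j) : ℝ) : ℂ) * Φ.ev x (st i0 + j))
        fun i hi => by rw [mu_cast, Nat.cast_add, Φ.ev_eq (h i hi) (h i0 hi0) j hj.1 hj.2],
        ← sum_mul, norm_mul, ← Complex.ofReal_sum, Complex.norm_real, Real.norm_eq_abs]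
      have : ‖Φ.ev x (st i0 + j)‖ ≤ 1 := Φ.bd _
      simpa using mul_le_of_le_one_right (abs_nonneg _) this
    · refine (norm_sum_le_of_le _ fun i _ => Φ.term_le x _ _).trans ?_
      simp
  · rw [sum_add_distrib, ← sum_mul]
    gcongr
    rw [sum_ite, sum_const_zero, zero_add, sum_const, nsmul_eq_mul, mul_one]
    have : ((range v.length).filter fun j => ¬ (Φ.w ≤ j ∧ j + Φ.w < v.length)).card ≤ 2 * Φ.w := by
      refine (card_le_card (t := range Φ.w ∪ Ico (v.length - Φ.w) v.length) fun j hj => ?_).trans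
        ((card_union_le _ _).trans ?_)
      · simp only [mem_filter, mem_range, mem_union, mem_Ico] at hj ⊢; omega
      · simp; omega
    exact_mod_cast this

end Pool.Agent.SB
end

-- merged part: Pool.Agent.Work.MP_cf06ef_an.B9
section
/-! Dominating primitive classes: lengths, abelianisation, return vectors. -/

set_option autoImplicit false
set_option linter.unusedSectionVars false
open Finset Filter Topology

namespace Pool.Agent.SB
open Pool.Agent.PT

section Alg
variable {A : Type} [Fintype A] [DecidableEq A]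

/-- abelianisation of a word. -/
def ab (w : List A) : A → ℤ := (w.map fun a => (Pi.single a 1 : A → ℤ)).sum

/-- the additive extension of a function of letters. -/
def lin {G : Type} [AddCommGroup G] (f : A → G) : (A → ℤ) →ₗ[ℤ] G := Fintype.linearCombination ℤ f

/-- the abelianised substitution. -/
def MM (σ : A → List A) : Module.End ℤ (A → ℤ) := lin fun a => ab (σ a)

/-- the length functional of level `j`. -/
def hh (σ : A → List A) (j : ℕ) : (A → ℤ) →ₗ[ℤ] ℤ := lin fun a => (len σ j a : ℤ)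

@[simp] lemma ab_nil : ab ([] : List A) = 0 := rfl
lemma ab_cons (a : A) (w : List A) : ab (a :: w) = Pi.single a 1 + ab w := by simp [ab]
@[simp] lemma ab_append (v w : List A) : ab (v ++ w) = ab v + ab w := by simp [ab]
lemma ab_single (a : A) : ab [a] = Pi.single a 1 := by simp [ab]

lemma lin_single {G : Type} [AddCommGroup G] (f : A → G) (a : A) :
    lin f (Pi.single a 1) = f a := by simp [lin]

lemma lin_apply {G : Type} [AddCommGroup G] (f : A → G) (γ : A → ℤ) :
    lin f γ = ∑ a, γ a • f a := by simp [lin, Fintype.linearCombination_apply]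

lemma lin_ab {G : Type} [AddCommGroup G] (f : A → G) (w : List A) :
    lin f (ab w) = (w.map f).sum := by
  induction w with
  | nil => simp
  | cons a w ih => rw [ab_cons, map_add, ih, lin_single]; simp

lemma lin_ext {G : Type} [AddCommGroup G] {f g : (A → ℤ) →ₗ[ℤ] G}
    (h : ∀ a, f (ab [a]) = g (ab [a])) : f = g :=
  (Pi.basisFun ℤ A).ext fun a => by simpa [ab_single] using h a

lemma MM_ab (σ : A → List A) (w : List A) : MM σ (ab w) = ab (it σ 1 w) := by
  induction w with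
  | nil => simp [it_nil]
  | cons a w ih => rw [ab_cons, map_add, ih, it_cons, ab_append, it_one', MM, lin_single]

lemma MM_pow_ab (σ : A → List A) (n : ℕ) (w : List A) : (MM σ ^ n) (ab w) = ab (it σ n w) := by
  induction n with
  | zero => rfl
  | succ n ih => rw [pow_succ', Module.End.mul_apply, ih, MM_ab, it_succ' σ n]

lemma MM_pw (σ : A → List A) (T : ℕ) : MM (pw σ T) = MM σ ^ T :=
  lin_ext fun a => by rw [MM_ab, MM_pow_ab, it_pw, mul_one]

lemma hh_ab (σ : A → List A) (j : ℕ) (w : List A) : hh σ j (ab w) = (it σ j w).length := by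
  induction w with
  | nil => simp [it_nil]
  | cons a w ih => rw [ab_cons, map_add, ih, it_cons, hh, lin_single]; simp [len]

lemma hh_pow (σ : A → List A) (j n : ℕ) (γ : A → ℤ) : hh σ j ((MM σ ^ n) γ) = hh σ (n + j) γ :=
  LinearMap.congr_fun (lin_ext (f := (hh σ j).comp (MM σ ^ n)) (g := hh σ (n + j)) fun a => by
    rw [LinearMap.comp_apply, MM_pow_ab, hh_ab, hh_ab, it_add]) γ

lemma hh_MM (σ : A → List A) (j : ℕ) (γ : A → ℤ) : hh σ j (MM σ γ) = hh σ (j + 1) γ := by
  simpa [add_comm] using hh_pow σ j 1 γ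

lemma hh_pw (σ : A → List A) (T j : ℕ) : hh (pw σ T) j = hh σ (T * j) := by
  simp only [hh, len_pw]

end Alg

namespace Cls
variable {A : Type} {σ : A → List A} (S : Cls σ)

lemma θ_pos : 0 < S.θ := one_pos.trans S.one_lt
lemma θpow_pos (n : ℕ) : 0 < S.θ ^ n := pow_pos S.θ_pos n

lemma L_nonneg (a : A) : 0 ≤ S.L a := by
  by_cases h : S.p a
  · exact (S.pos a h).le
  · exact (S.zero a h).ge

lemma low_it (n : ℕ) {b a : A} (hb : ¬ S.p b) (h : a ∈ it σ n [b]) : ¬ S.p a := by
  induction n generalizing a with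
  | zero => rw [it_zero, List.mem_singleton] at h; exact h ▸ hb
  | succ n ih =>
    rw [it_succ', mem_it] at h
    obtain ⟨y, h1, h2⟩ := h
    exact S.low y a (ih h1) (by rwa [it_one'] at h2)

lemma prim_it (n : ℕ) {c c' : A} (hc : S.p c) (hc' : S.p c') : c' ∈ it σ (n + 1) [c] := by
  induction n with
  | zero => rw [it_one']; exact S.prim c c' hc hc'
  | succ n ih => rw [it_succ', mem_it]; exact ⟨c', ih, by rw [it_one']; exact S.prim _ _ hc' hc'⟩

lemma lim_word (w : List A) :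
    Tendsto (fun n => ((it σ n w).length : ℝ) / S.θ ^ n) atTop (𝓝 (w.map S.L).sum) := by
  induction w with
  | nil => simp [it_nil]
  | cons a w ih =>
    refine ((S.lim a).add ih).congr fun n => ?_
    rw [it_cons σ n a w]; simp [len, add_div]

lemma eig (n : ℕ) (w : List A) : ((it σ n w).map S.L).sum = S.θ ^ n * (w.map S.L).sum := by
  refine tendsto_nhds_unique (S.lim_word (it σ n w)) ?_
  refine (((S.lim_word w).comp (tendsto_add_atTop_nat n)).const_mul (S.θ ^ n)).congr fun m => ?_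
  have := S.θpow_pos n
  simp only [Function.comp, add_comm m n, it_add, pow_add]; field_simp

lemma len_bd [Finite A] : ∃ c1 c2 : ℝ, 0 < c1 ∧ 0 < c2 ∧
    (∀ n c, S.p c → c1 * S.θ ^ n ≤ len σ n c) ∧ ∀ n a, (len σ n a : ℝ) ≤ c2 * S.θ ^ n := by
  have : Nonempty A := ⟨S.a0⟩
  have : Nonempty {c // S.p c} := ⟨⟨S.a0, S.pa0⟩⟩
  obtain ⟨a, ha⟩ := Finite.exists_max S.L
  obtain ⟨b, hb⟩ := Finite.exists_min fun c : {c // S.p c} => S.L c
  have h1 : 0 < S.L a := (S.pos _ S.pa0).trans_le (ha _)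
  choose B hB using fun a => (S.lim a).bddAbove_range
  obtain ⟨d, hd⟩ := Finite.exists_max B
  refine ⟨S.L b / S.L a, |B d| + 1, div_pos (S.pos _ b.2) h1, by positivity, fun n c hc => ?_,
    fun n e => ?_⟩
  · have h2 := S.eig n [c]
    have h3 := List.sum_le_card_nsmul ((it σ n [c]).map S.L) (S.L a) (by simpa using fun x _ => ha x)
    have h4 := mul_le_mul_of_nonneg_left (hb ⟨c, hc⟩) (S.θpow_pos n).le
    rw [div_mul_eq_mul_div, div_le_iff₀ h1]
    simp only [List.map_singleton, List.sum_singleton, List.length_map, nsmul_eq_mul] at h2 h3 h4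
    unfold len; linarith only [h4, h2, h3]
  · have h2 : (len σ n e : ℝ) / S.θ ^ n ≤ B e := hB e ⟨n, rfl⟩
    rw [← div_le_iff₀ (S.θpow_pos n)]
    linarith only [h2, hd, hd e, le_abs_self (B d)]

open Classical in
/-- the letters outside the class carry a small part of the length. -/
lemma spacer [Finite A] (ε : ℝ) (hε : 0 < ε) : ∀ᶠ k in atTop, ∀ n c, S.p c →
    ((it σ n [c]).map fun b => if S.p b then (0 : ℝ) else len σ k b).sum ≤ ε * len σ (n + k) c := by
  obtain ⟨c1, c2, h1, h2, h3, h4⟩ := S.len_bd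
  have : ∀ᶠ k in atTop, ∀ b, ¬ S.p b → (len σ k b : ℝ) / S.θ ^ k < ε * c1 / c2 := by
    rw [eventually_all]
    intro b
    by_cases hb : S.p b
    · simp [hb]
    · have := S.lim b
      rw [S.zero b hb] at this
      filter_upwards [this.eventually (gt_mem_nhds (by positivity : 0 < ε * c1 / c2))] with k hk _
        using hk
  filter_upwards [this] with k hk n c hc
  have hp := S.θpow_pos k
  have hn := S.θpow_pos n
  refine (List.sum_le_card_nsmul _ (ε * c1 / c2 * S.θ ^ k) fun x hx => ?_).trans ?_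
  · obtain ⟨b, -, rfl⟩ := List.mem_map.mp hx
    split_ifs with hb
    · positivity
    · exact ((div_lt_iff₀ hp).mp (hk b hb)).le
  · rw [List.length_map, nsmul_eq_mul]
    calc _ ≤ c2 * S.θ ^ n * (ε * c1 / c2 * S.θ ^ k) := by gcongr; exact h4 n c
      _ = ε * (c1 * S.θ ^ (n + k)) := by rw [pow_add]; field_simp
      _ ≤ _ := by gcongr; exact h3 _ c hc

/-- the class for a power of the substitution. -/
def pow (T : ℕ) (hT : T ≠ 0) : Cls (pw σ T) where
  p := S.p
  a0 := S.a0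
  θ := S.θ ^ T
  L := S.L
  ne := it_ne_nil σ S.ne T
  pa0 := S.pa0
  prim := fun c c' hc hc' => by
    obtain ⟨n, rfl⟩ := Nat.exists_eq_succ_of_ne_zero hT
    exact S.prim_it n hc hc'
  low := fun b a hb h => S.low_it T hb h
  one_lt := one_lt_pow₀ S.one_lt hT
  pos := S.pos
  zero := S.zero
  lim := fun a => by
    simpa only [len_pw, ← pow_mul, Function.comp_def, id] using
      (S.lim a).comp (tendsto_id.const_mul_atTop' (Nat.pos_of_ne_zero hT))

lemma main_of_pow {T : ℕ} {hT : T ≠ 0} (h : (S.pow T hT).Main) : S.Main := by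
  intro Φ ε hε K0
  obtain ⟨K, hK, h⟩ := h Φ ε hε K0
  refine ⟨T * K, hK.trans (Nat.le_mul_of_pos_left K (Nat.pos_of_ne_zero hT)), h.mono ?_ le_rfl⟩
  rintro _ ⟨c, hc, rfl⟩
  exact ⟨c, hc, (it_pw σ T K [c]).symm⟩

/-- return words to the base letter, without their first letter. -/
def Ret : Set (List A) := {w | ∃ n c, S.p c ∧ S.a0 :: (w ++ [S.a0]) <:+: it σ n [c]}

variable [Fintype A] [DecidableEq A]

/-- the geometric length. -/
def rr : (A → ℤ) →ₗ[ℤ] ℝ := lin S.L

/-- the module of return vectors. -/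
def Lam : Submodule ℤ (A → ℤ) := Submodule.span ℤ {γ | ∃ w ∈ S.Ret, γ = ab (S.a0 :: w)}

/-- lengths of return words are of Pisot type. -/
def PT : Prop := ∀ γ ∈ S.Lam, Tendsto (fun j => (hh σ j γ : ℝ) - S.rr γ * S.θ ^ j) atTop (𝓝 0)

/-- a second non-contracting eigenvalue on the return vectors. -/
structure NP where
  φ : (A → ℤ) →ₗ[ℤ] ℂ
  β : ℂ
  δ : ℂ
  one_le : 1 ≤ ‖β‖
  lt : ‖β‖ < S.θ
  δ_ne : δ ≠ 0
  eig : ∀ γ ∈ S.Lam, φ (MM σ γ) = β * φ γ
  good : ∀ (Γ : Finset (A → ℤ)) (k0 : ℕ), ∃ k ≥ k0, ∀ γ ∈ Γ, hh σ k γ = 0 →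
    S.rr γ = 0 ∧ (MM σ γ ∈ S.Lam → φ (MM σ γ) = 0)
  two : ∀ c, S.p c → ∃ w1 w w2, σ c = w1 ++ S.a0 :: (w ++ S.a0 :: w2) ∧ φ (ab (S.a0 :: w)) = δ

lemma rr_ab (w : List A) : S.rr (ab w) = (w.map S.L).sum := lin_ab _ _

lemma rr_pow (n : ℕ) (γ : A → ℤ) : S.rr ((MM σ ^ n) γ) = S.θ ^ n * S.rr γ :=
  LinearMap.congr_fun (lin_ext (f := S.rr.comp (MM σ ^ n))
    (g := (LinearMap.mulLeft ℤ (S.θ ^ n)).comp S.rr) fun a => by
      simp only [LinearMap.comp_apply, MM_pow_ab, rr_ab, S.eig, LinearMap.mulLeft_apply]) γ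

lemma rr_MM (γ : A → ℤ) : S.rr (MM σ γ) = S.θ * S.rr γ := by simpa using S.rr_pow 1 γ

lemma hh_lim (γ : A → ℤ) : Tendsto (fun j => (hh σ j γ : ℝ) / S.θ ^ j) atTop (𝓝 (S.rr γ)) := by
  simp only [hh, rr, lin_apply, zsmul_eq_mul, smul_eq_mul, Int.cast_sum, Int.cast_mul,
    Int.cast_natCast, sum_div, mul_div_assoc]
  exact tendsto_finsetSum _ fun a _ => (S.lim a).const_mul _

lemma ret_mem {w : List A} (h : w ∈ S.Ret) : ab (S.a0 :: w) ∈ S.Lam :=
  Submodule.subset_span ⟨w, h, rfl⟩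

/-- the image of a return word is conjugate to a return word. -/
lemma ret_step {H T w : List A} (e : σ S.a0 = H ++ S.a0 :: T) (h : w ∈ S.Ret) :
    T ++ (it σ 1 w ++ H) ∈ S.Ret := by
  obtain ⟨n, c, hc, h⟩ := h
  refine ⟨n + 1, c, hc, List.IsInfix.trans ⟨H, T, ?_⟩ (it_succ' σ n [c] ▸ it_infix σ 1 h)⟩
  rw [it_cons, it_append, it_one', e]; simp

lemma Lam_MM {γ : A → ℤ} (h : γ ∈ S.Lam) : MM σ γ ∈ S.Lam := by
  obtain ⟨H, T, e⟩ := List.append_of_mem (S.prim _ _ S.pa0 S.pa0)
  refine (Submodule.span_le (p := S.Lam.comap (MM σ))).mpr ?_ h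
  rintro _ ⟨w, hw, rfl⟩
  show MM σ (ab (S.a0 :: w)) ∈ S.Lam
  convert S.ret_mem (S.ret_step e hw) using 1
  rw [MM_ab, it_cons, it_one', e]
  simp only [ab_append, ab_cons]; abel

lemma Lam_pow (n : ℕ) {γ : A → ℤ} (h : γ ∈ S.Lam) : (MM σ ^ n) γ ∈ S.Lam := by
  induction n with
  | zero => exact h
  | succ n ih => rw [pow_succ', Module.End.mul_apply]; exact S.Lam_MM ih

lemma Lam_pow_le (T : ℕ) (hT : T ≠ 0) : (S.pow T hT).Lam ≤ S.Lam :=
  Submodule.span_mono fun _ ⟨w, ⟨n, c, hc, h⟩, e⟩ => ⟨w, ⟨T * n, c, hc, it_pw σ T n [c] ▸ h⟩, e⟩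

/-- two occurrences of the base letter differ by a return vector. -/
lemma diff_mem {n : ℕ} {c : A} (hc : S.p c) {u1 v1 u2 v2 : List A}
    (h1 : it σ n [c] = u1 ++ S.a0 :: v1) (h2 : it σ n [c] = u2 ++ S.a0 :: v2) :
    ab u1 - ab u2 ∈ S.Lam := by
  have key : ∀ {u1 v1 v2 s : List A}, it σ n [c] = u1 ++ S.a0 :: v1 →
      S.a0 :: v1 = s ++ S.a0 :: v2 → ab s ∈ S.Lam := by
    intro u1 v1 v2 s h1 h2
    cases s with
    | nil => exact S.Lam.zero_mem
    | cons a w =>
      simp only [List.cons_append, List.cons.injEq] at h2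
      obtain ⟨rfl, rfl⟩ := h2
      exact S.ret_mem ⟨n, c, hc, u1, v2, by rw [h1]; simp⟩
  rcases List.append_eq_append_iff.mp (h1.symm.trans h2) with ⟨s, rfl, e⟩ | ⟨s, rfl, e⟩
  · simpa using key h1 e
  · simpa using key h2 e

end Cls
end Pool.Agent.SB
end

-- merged part: Pool.Agent.Work.MP_cf06ef_an.B10
section
/-! The dichotomy: Pisot type, or a second non-contracting eigenvalue. -/

set_option autoImplicit false
set_option linter.unusedSectionVars false
open Finset Filter Topology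

namespace Pool.Agent.SB
open Pool.Agent.PT
variable {A : Type} [Fintype A] [DecidableEq A] {σ : A → List A}

lemma B10_contr {u : ℕ → ℂ} {l : ℂ} (hl : ‖l‖ < 1)
    (h : Tendsto (fun j => u (j + 1) - l * u j) atTop (𝓝 0)) : Tendsto u atTop (𝓝 0) := by
  rw [NormedAddGroup.tendsto_nhds_zero] at h
  have h1 : 0 < 1 - ‖l‖ := by linarith
  refine NormedAddGroup.tendsto_nhds_zero.2 fun ε hε => ?_
  obtain ⟨N, hN⟩ := eventually_atTop.1 (h (ε / 2 * (1 - ‖l‖)) (by positivity))
  have h2 : ∀ n, ‖u (n + N)‖ ≤ ‖l‖ ^ n * ‖u N‖ + ε / 2 := fun n => by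
    induction n with
    | zero => simp; positivity
    | succ n ih =>
      have h3 := hN (n + N) (by omega)
      have h4 := norm_add_le (u (n + N + 1) - l * u (n + N)) (l * u (n + N))
      rw [sub_add_cancel, norm_mul] at h4
      have h5 := mul_le_mul_of_nonneg_left ih (norm_nonneg l)
      rw [show n + 1 + N = n + N + 1 by omega, pow_succ]
      linarith only [h3, h4, h5]
  obtain ⟨K, hK⟩ := eventually_atTop.1 (((tendsto_pow_atTop_nhds_zero_of_lt_one (norm_nonneg l)
    hl).mul_const ‖u N‖).eventually (gt_mem_nhds (by simpa using hε : 0 * ‖u N‖ < ε / 2)))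
  refine eventually_atTop.2 ⟨K + N, fun n hn => ?_⟩
  have h3 := h2 (n - N)
  have h4 := hK (n - N) (by omega)
  rw [Nat.sub_add_cancel (by omega)] at h3
  linarith only [h3, h4]

/-- a finite dimensional shift invariant space of sequences. -/
lemma B10_seq (U : Submodule ℂ (ℕ → ℂ)) [FiniteDimensional ℂ U]
    (hU : ∀ u ∈ U, (fun j => u (j + 1)) ∈ U) :
    (∀ u ∈ U, Tendsto u atTop (𝓝 0)) ∨ ∃ (β : ℂ) (ψ : (ℕ → ℂ) →ₗ[ℂ] ℂ), 1 ≤ ‖β‖ ∧
      (∃ u ∈ U, u 0 ≠ 0 ∧ ∀ j, u j = β ^ j * u 0) ∧ (∃ u ∈ U, ψ u ≠ 0) ∧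
      ∀ u ∈ U, ψ (fun j => u (j + 1)) = β * ψ u := by
  let f : Module.End ℂ U := (LinearMap.funLeft ℂ ℂ Nat.succ).restrict hU
  have hf : ∀ (μ : ℂ) (u : U) j, ((f - μ • (1 : Module.End ℂ U)) u).1 j = u.1 (j + 1) - μ * u.1 j :=
    fun _ _ _ => rfl
  by_cases h : ∀ μ : ℂ, 1 ≤ ‖μ‖ → Function.Injective (f - μ • (1 : Module.End ℂ U))
  · left
    have key : ∀ (μ : ℂ) (k : ℕ) (u : U), ((f - μ • (1 : Module.End ℂ U)) ^ k) u = 0 →
        Tendsto u.1 atTop (𝓝 0) := fun μ k => by
      rcases le_or_gt 1 ‖μ‖ with hμ | hμ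
      · intro u hu
        rw [(map_eq_zero_iff _ (Module.End.iterate_injective (h μ hμ) k)).1 hu]
        exact tendsto_const_nhds
      · induction k with
        | zero =>
          intro u hu
          rw [show u = 0 from hu]
          exact tendsto_const_nhds
        | succ k ih =>
          intro u hu
          rw [pow_succ, Module.End.mul_apply] at hu
          exact B10_contr hμ (ih _ hu)
    intro u hu
    have h1 : (⟨u, hu⟩ : U) ∈ ⨆ μ, f.maxGenEigenspace μ := by
      rw [Module.End.iSup_maxGenEigenspace_eq_top]; trivial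
    refine Submodule.iSup_induction _ (motive := fun x : U => Tendsto x.1 atTop (𝓝 0)) h1
      (fun μ x hx => ?_) tendsto_const_nhds fun x y hx hy => ?_
    · obtain ⟨k, hk⟩ := (Module.End.mem_maxGenEigenspace f μ x).1 hx
      exact key μ k x hk
    · have h2 := hx.add hy
      rw [add_zero] at h2
      exact h2
  · right
    push Not at h
    obtain ⟨β, hβ, h⟩ := h
    obtain ⟨ψ, h1, h2⟩ := Submodule.exists_le_ker_of_lt_top
      (LinearMap.range (f - β • (1 : Module.End ℂ U))) (lt_top_iff_ne_top.2 fun e =>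
        h (LinearMap.injective_iff_surjective.2 (LinearMap.range_eq_top.1 e)))
    obtain ⟨g, hg⟩ := ψ.exists_extend
    have hg' : ∀ u : U, g u = ψ u := fun u => LinearMap.congr_fun hg u
    rw [injective_iff_map_eq_zero] at h
    push Not at h
    obtain ⟨u, hu, hu0⟩ := h
    have h3 : ∀ j, u.1 j = β ^ j * u.1 0 := fun j => by
      induction j with
      | zero => simp
      | succ j ih =>
        have := hf β u j
        rw [hu] at this
        rw [pow_succ', mul_assoc, ← ih]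
        exact (sub_eq_zero.1 this.symm)
    refine ⟨β, g, hβ, ⟨u, u.2, fun e => hu0 (Subtype.ext (funext fun j => ?_)), h3⟩, ?_,
      fun v hv => ?_⟩
    · rw [h3, e, mul_zero]; rfl
    · by_contra k
      push Not at k
      exact h1 (LinearMap.ext fun v => (hg' v).symm.trans (k v v.2))
    · have h4 := h2 ⟨⟨v, hv⟩, rfl⟩
      rw [LinearMap.mem_ker, LinearMap.sub_apply, map_sub, sub_eq_zero, LinearMap.smul_apply,
        map_smul, ← hg', ← hg'] at h4
      exact h4

lemma B10_stab (σ : A → List A) : ∃ T : ℕ, T ≠ 0 ∧ ∀ t, t ≠ 0 → ∀ γ,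
    (∀ i, hh σ (T * t * i) γ = 0) → ∀ i, hh σ (T * i) γ = 0 := by
  let K : ℕ →o Submodule ℤ (A → ℤ) :=
    ⟨fun n => ⨅ i, LinearMap.ker (hh σ (n.factorial * i)), fun n m h => le_iInf fun i => by
      obtain ⟨c, hc⟩ := Nat.factorial_dvd_factorial h
      exact iInf_le_of_le (c * i) (by rw [hc, mul_assoc])⟩
  obtain ⟨n, hn⟩ := monotone_stabilizes_iff_noetherian.2 inferInstance K
  refine ⟨n.factorial, n.factorial_ne_zero, fun t ht γ h => ?_⟩
  obtain ⟨c, hc⟩ := Nat.dvd_factorial (Nat.pos_of_ne_zero (mul_ne_zero n.factorial_ne_zero ht))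
    (le_max_right n (n.factorial * t))
  have h1 : γ ∈ K (max n (n.factorial * t)) := (Submodule.mem_iInf _).2 fun i => by
    rw [LinearMap.mem_ker, hc, mul_assoc _ c]
    exact h _
  rw [← hn _ (le_max_left _ _)] at h1
  exact (Submodule.mem_iInf _).1 h1

lemma B10_ch [Nonempty A] (f : Module.End ℤ (A → ℤ)) (g : (A → ℤ) →ₗ[ℤ] ℤ) (γ : A → ℤ)
    (h : ∀ s < Fintype.card A, g ((f ^ s) γ) = 0) (s : ℕ) : g ((f ^ s) γ) = 0 := by
  have h1 : f.charpoly.natDegree = Fintype.card A := by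
    rw [LinearMap.charpoly_natDegree, Module.finrank_fintype_fun_eq_card]
  have h2 : f.charpoly ≠ 1 := fun e => by
    rw [e, Polynomial.natDegree_one] at h1
    exact Fintype.card_ne_zero h1.symm
  rw [LinearMap.pow_eq_aeval_mod_charpoly, Polynomial.aeval_eq_sum_range'
    (h1 ▸ Polynomial.natDegree_modByMonic_lt _ f.charpoly_monic h2), LinearMap.sum_apply, map_sum]
  exact sum_eq_zero fun i hi => by
    rw [LinearMap.smul_apply, map_smul, h i (mem_range.1 hi), smul_zero]

/-- the error sequence along multiples of `T`. -/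
noncomputable def Cls.B10e (S : Cls σ) (T : ℕ) : (A → ℤ) →ₗ[ℤ] ℕ → ℂ where
  toFun γ j := ((hh σ (T * j) γ - S.rr γ * (S.θ ^ T) ^ j : ℝ) : ℂ)
  map_add' x y := by
    funext j
    simp only [map_add, Pi.add_apply]
    push_cast
    ring
  map_smul' c x := by
    funext j
    rw [map_smul, map_smul]
    simp only [Pi.smul_apply, zsmul_eq_mul, eq_intCast, Int.cast_id]
    push_cast
    ring

lemma Cls.B10e_pow (S : Cls σ) (T : ℕ) (γ : A → ℤ) :
    S.B10e T ((MM σ ^ T) γ) = fun j => S.B10e T γ (j + 1) := by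
  funext j
  simp only [B10e, LinearMap.coe_mk, AddHom.coe_mk, hh_pow, S.rr_pow]
  rw [show T + T * j = T * (j + 1) by ring]
  push_cast
  ring

lemma Cls.B10lim (S : Cls σ) {T : ℕ} (hT : T ≠ 0) (γ : A → ℤ) :
    Tendsto (fun j => (hh σ (T * j) γ : ℝ) / (S.θ ^ T) ^ j) atTop (𝓝 (S.rr γ)) := by
  have h := (S.pow T hT).hh_lim γ
  simp only [hh_pw] at h
  exact h

lemma Cls.B10e_lim (S : Cls σ) {T : ℕ} (hT : T ≠ 0) (γ : A → ℤ) :
    Tendsto (fun j => S.B10e T γ j / ((S.θ ^ T : ℝ) : ℂ) ^ j) atTop (𝓝 0) := by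
  have h := (S.B10lim hT γ).sub_const (S.rr γ)
  rw [sub_self] at h
  refine ((Complex.continuous_ofReal.tendsto 0).comp h).congr fun j => ?_
  have h1 : ((S.θ ^ T : ℝ) : ℂ) ≠ 0 := by exact_mod_cast (S.θpow_pos T).ne'
  simp only [B10e, LinearMap.coe_mk, AddHom.coe_mk, Function.comp, Complex.ofReal_sub,
    Complex.ofReal_div, Complex.ofReal_mul, Complex.ofReal_pow (S.θ ^ T)]
  field_simp

lemma Cls.B10ker (S : Cls σ) {T : ℕ} (hT : T ≠ 0) {γ : A → ℤ} (h : ∀ i, hh σ (T * i) γ = 0) :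
    S.rr γ = 0 ∧ S.B10e T γ = 0 := by
  have h1 : S.rr γ = 0 := tendsto_nhds_unique (S.B10lim hT γ) (by simp [h])
  exact ⟨h1, funext fun j => by simp [B10e, h, h1]⟩

theorem Cls.dich (S : Cls σ) :
    ∃ (T : ℕ) (hT : T ≠ 0), (S.pow T hT).PT ∨ Nonempty (S.pow T hT).NP := by
  have : Nonempty A := ⟨S.a0⟩
  obtain ⟨T, hT, hK⟩ := B10_stab σ
  let U : Submodule ℂ (ℕ → ℂ) := Submodule.span ℂ (S.B10e T '' S.Lam)
  have hfin : FiniteDimensional ℂ U := by
    have := FiniteDimensional.span_of_finite ℂ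
      (Set.finite_range fun a : A => S.B10e T (Pi.single a 1))
    refine Submodule.finiteDimensional_of_le (S₂ := Submodule.span ℂ
      (Set.range fun a : A => S.B10e T (Pi.single a 1))) (Submodule.span_le.2 ?_)
    rintro _ ⟨γ, -, rfl⟩
    rw [pi_eq_sum_univ' γ, map_sum]
    refine Submodule.sum_mem _ fun a _ => ?_
    rw [map_smul]
    exact zsmul_mem (Submodule.subset_span (Set.mem_range_self a)) _
  have hU : ∀ u ∈ U, (fun j => u (j + 1)) ∈ U := fun u hu =>
    (Submodule.span_le (p := U.comap (LinearMap.funLeft ℂ ℂ Nat.succ))).2 (by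
      rintro _ ⟨γ, hγ, rfl⟩
      exact Submodule.subset_span ⟨_, S.Lam_pow T hγ, S.B10e_pow T γ⟩) hu
  rcases B10_seq U hU with h | ⟨β, ψ, hβ, ⟨u, hu, hu0, hu1⟩, ⟨v, hv, hv0⟩, hψ⟩
  · refine ⟨T, hT, Or.inl fun γ hγ => ?_⟩
    have h1 := (Complex.continuous_re.tendsto 0).comp
      (h _ (Submodule.subset_span ⟨γ, S.Lam_pow_le T hT hγ, rfl⟩))
    simp only [hh_pw]
    exact h1
  let φ : (A → ℤ) →ₗ[ℤ] ℂ := (ψ.restrictScalars ℤ).comp (S.B10e T)
  have hβ0 : β ≠ 0 := norm_pos_iff.1 (one_pos.trans_le hβ)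
  have hlt : ‖β‖ < S.θ ^ T := by
    have h1 : Tendsto (fun j => u j / ((S.θ ^ T : ℝ) : ℂ) ^ j) atTop (𝓝 0) := by
      refine Submodule.span_induction (p := fun u _ =>
        Tendsto (fun j => u j / ((S.θ ^ T : ℝ) : ℂ) ^ j) atTop (𝓝 0)) ?_ (by simp)
        (fun x y _ _ hx hy => ?_) (fun c x _ hx => ?_) hu
      · rintro _ ⟨γ, -, rfl⟩
        exact S.B10e_lim hT γ
      · simpa [add_div] using hx.add hy
      · simpa [mul_div_assoc] using hx.const_mul c
    have h2 : Tendsto (fun j => (β / ((S.θ ^ T : ℝ) : ℂ)) ^ j) atTop (𝓝 0) := by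
      have h3 := h1.div_const (u 0)
      rw [zero_div] at h3
      refine h3.congr fun j => ?_
      rw [hu1 j, div_pow]
      field_simp
    have h3 := tendsto_pow_atTop_nhds_zero_iff_norm_lt_one.1 h2
    rwa [norm_div, Complex.norm_real, Real.norm_of_nonneg (S.θpow_pos T).le,
      div_lt_one (S.θpow_pos T)] at h3
  have heig : ∀ m, ∀ γ ∈ S.Lam, φ ((MM σ ^ (T * m)) γ) = β ^ m * φ γ := fun m γ hγ => by
    induction m with
    | zero => simp
    | succ m ih =>
      rw [show T * (m + 1) = T + T * m by ring, pow_add, Module.End.mul_apply, pow_succ',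
        mul_assoc, ← ih]
      change ψ (S.B10e T _) = β * ψ (S.B10e T _)
      rw [S.B10e_pow]
      exact hψ _ (Submodule.subset_span ⟨_, S.Lam_pow _ hγ, rfl⟩)
  obtain ⟨w, ⟨n, c0, hc0, hw⟩, hδ⟩ : ∃ w ∈ S.Ret, φ (ab (S.a0 :: w)) ≠ 0 := by
    by_contra k
    push Not at k
    have h1 : S.Lam ≤ LinearMap.ker φ := Submodule.span_le.2 (by
      rintro _ ⟨w, hw, rfl⟩
      exact k w hw)
    refine hv0 ((Submodule.span_le (p := LinearMap.ker ψ)).2 ?_ hv)
    rintro _ ⟨γ, hγ, rfl⟩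
    exact h1 hγ
  have hT' : T * (n + 1) ≠ 0 := mul_ne_zero hT n.succ_ne_zero
  refine ⟨T * (n + 1), hT', Or.inr ⟨⟨φ, β ^ (n + 1), φ (ab (S.a0 :: w)), ?_, ?_, hδ,
    fun γ hγ => ?_, fun Γ k0 => ?_, fun c hc => ?_⟩⟩⟩
  · rw [norm_pow]
    exact one_le_pow₀ hβ
  · rw [norm_pow]
    change _ < S.θ ^ (T * (n + 1))
    rw [pow_mul]
    exact pow_lt_pow_left₀ hlt (norm_nonneg _) n.succ_ne_zero
  · rw [MM_pw]
    exact heig _ γ (S.Lam_pow_le _ hT' hγ)
  · by_contra k
    push Not at k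
    choose g h1 h2 h3 using fun j => k (j + k0 + 1) (by omega)
    obtain ⟨a, ha, b, ⟨γ, hγ⟩, hm⟩ := Combinatorics.exists_mono_homothetic_copy
      (range (Fintype.card A + 1)) fun j => (⟨g j, h1 j⟩ : Γ)
    have hm' : ∀ s ≤ Fintype.card A, g (a * s + b) = γ := fun s hs =>
      congrArg Subtype.val (hm s (mem_range.2 (by omega)))
    set γ' := (MM σ ^ (T * ((n + 1) * (b + k0)))) ((MM σ ^ (T * (n + 1))) γ) with hγ'
    have h4 := B10_ch (MM σ ^ (T * ((n + 1) * a))) (hh σ 0) γ' fun s hs => by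
      have h5 := h2 (a * s + b)
      rw [hm' s hs.le, hh_pw] at h5
      rw [← pow_mul, hγ', hh_pow, hh_pow, hh_pow, ← h5]
      congr 2
      ring
    obtain ⟨h5, h6⟩ := S.B10ker hT (hK ((n + 1) * a) (mul_ne_zero n.succ_ne_zero ha.ne') γ'
      fun i => by simpa only [← pow_mul, hh_pow, add_zero] using h4 i)
    have h7 := h3 (a * 0 + b)
    rw [hm' 0 (Nat.zero_le _), MM_pw] at h7
    rw [hγ', S.rr_pow, S.rr_pow] at h5
    obtain ⟨h8, h9⟩ := h7 ((mul_eq_zero_iff_left (S.θpow_pos _).ne').1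
      ((mul_eq_zero_iff_left (S.θpow_pos _).ne').1 h5))
    have h10 := heig ((n + 1) * (b + k0)) _ (S.Lam_pow_le _ hT' h8)
    rw [show φ γ' = 0 from (congrArg ψ h6).trans ψ.map_zero] at h10
    exact mul_ne_zero (pow_ne_zero _ hβ0) h9 h10.symm
  · obtain ⟨m, hm⟩ : ∃ m, T * (n + 1) = m + 1 + n :=
      ⟨T * (n + 1) - (n + 1), by
        have := Nat.le_mul_of_pos_left (n + 1) (Nat.pos_of_ne_zero hT)
        omega⟩
    obtain ⟨s, t, e⟩ := List.append_of_mem (S.prim_it m hc hc0)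
    obtain ⟨w1, w2, e'⟩ := hw.trans (it_infix σ n (⟨s, t, by rw [e]; simp⟩ : [c0] <:+: it σ (m + 1) [c]))
    refine ⟨w1, w, w2, ?_, rfl⟩
    change it σ (T * (n + 1)) [c] = w1 ++ S.a0 :: (w ++ S.a0 :: w2)
    rw [hm, it_add, ← e']
    simp

end Pool.Agent.SB
end

-- merged part: Pool.Agent.Work.MP_cf06ef_an.B5
section
/-! Self-similar systems of intervals carrying a complex cocycle. -/

set_option autoImplicit false
open Finset Filter Topology MeasureTheory

namespace Pool.Agent.SB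
open Pool.Agent.PT

lemma bdd_int {f : ℝ → ℝ} (hf : Measurable f) {B : ℝ} (hB : ∀ x, |f x| ≤ B) (a b : ℝ) :
    IntervalIntegrable f volume a b :=
  (intervalIntegrable_const (c := B)).mono_fun' hf.aestronglyMeasurable
    (Eventually.of_forall fun x => hB x)

lemma int_mono_Ico {f g : ℝ → ℝ} {a b : ℝ} (hab : a ≤ b) (hf : IntervalIntegrable f volume a b)
    (hg : IntervalIntegrable g volume a b) (h : ∀ x, a ≤ x → x < b → f x ≤ g x) :
    ∫ x in a..b, f x ≤ ∫ x in a..b, g x :=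
  intervalIntegral.integral_mono_on_of_le_Ioo hab hf hg fun x hx => h x hx.1.le hx.2

lemma int_congr_Ico {f g : ℝ → ℝ} {a b : ℝ} (hab : a ≤ b) (h : ∀ x, a ≤ x → x < b → f x = g x) :
    ∫ x in a..b, f x = ∫ x in a..b, g x := by
  rw [intervalIntegral.integral_of_le hab, intervalIntegral.integral_of_le hab,
    integral_Ioc_eq_integral_Ioo, integral_Ioc_eq_integral_Ioo]
  exact setIntegral_congr_fun measurableSet_Ioo fun x hx => h x hx.1.le hx.2

/-- a self-similar system: each type has a length and a list of labelled children. -/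
structure SSS (C : Type) where
  θ : ℝ
  β : ℂ
  δ : ℂ
  L : C → ℝ
  ch : C → List (C × ℂ)
  a0 : C
  one_le : 1 ≤ ‖β‖
  lt : ‖β‖ < θ
  δ_ne : δ ≠ 0
  pos : ∀ c, 0 < L c
  eig : ∀ c, ((ch c).map fun e => L e.1).sum = θ * L c
  prim : ∀ c c', ∃ z, (c', z) ∈ ch c
  two : ∀ c, ∃ z l1 l2 l3, ch c = l1 ++ (a0, z) :: (l2 ++ (a0, z + δ) :: l3)

namespace SSS
variable {C : Type} (S : SSS C)

/-- total length. -/
def tot (D : List (C × ℂ)) : ℝ := (D.map fun e => S.L e.1).sum

/-- labelled descendants. -/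
noncomputable def desc : ℕ → C → List (C × ℂ)
  | 0, c => [(c, 0)]
  | n + 1, c => (S.ch c).flatMap fun e => (desc n e.1).map fun d => (d.1, S.β ^ n * e.2 + d.2)

/-- refinement of a list by `n` levels. -/
noncomputable def ref (n : ℕ) (D : List (C × ℂ)) : List (C × ℂ) :=
  D.flatMap fun e => (S.desc n e.1).map fun d => (d.1, S.β ^ n * e.2 + d.2)

/-- the step function of a list of labelled intervals. -/
noncomputable def step : List (C × ℂ) → ℝ → ℂ
  | [], _ => 0
  | d :: D, x => if x < S.L d.1 then d.2 else step D (x - S.L d.1)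

/-- the cocycle at depth `n`. -/
noncomputable def Z (n : ℕ) (c : C) : ℝ → ℂ := S.step (S.desc n c)

/-- a descendant with position `ρ` and label `ζ`. -/
def Tile (n : ℕ) (c : C) (ρ : ℝ) (ζ : ℂ) : Prop :=
  ∃ b D1 D2, S.desc n c = D1 ++ (b, ζ) :: D2 ∧ S.tot D1 = ρ

/-- integral of a function of the cocycle. -/
noncomputable def ev {E : Type} [AddCommGroup E] [Module ℝ E] (n : ℕ) (c : C) (F : ℂ → E) : E :=
  ((S.desc n c).map fun d => S.L d.1 • F d.2).sum

noncomputable def sig (m : ℕ) : ℝ := ∑ j ∈ range m, ‖S.β‖ ^ (2 * j)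

open Classical in
/-- the test function of the increment of the cocycle. -/
noncomputable def H (T : ℝ) (ξ : ℂ) (m : ℕ) (c : C) (x : ℝ) : ℝ :=
  if 0 ≤ x + T ∧ x + T < S.θ ^ m * S.L c then
    1 - Real.cos (ξ * (S.Z m c (x + T) - S.Z m c x)).re else 0

lemma one_lt : 1 < S.θ := S.one_le.trans_lt S.lt
lemma θ_pos : 0 < S.θ := one_pos.trans S.one_lt
lemma θpow_pos (n : ℕ) : 0 < S.θ ^ n := pow_pos S.θ_pos n

@[simp] lemma tot_nil : S.tot [] = 0 := rfl
@[simp] lemma tot_cons (d : C × ℂ) (D : List (C × ℂ)) : S.tot (d :: D) = S.L d.1 + S.tot D := by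
  simp [tot]
@[simp] lemma tot_append (D D' : List (C × ℂ)) : S.tot (D ++ D') = S.tot D + S.tot D' := by
  simp [tot]
lemma tot_nonneg (D : List (C × ℂ)) : 0 ≤ S.tot D :=
  List.sum_nonneg fun x hx => by obtain ⟨a, -, rfl⟩ := List.mem_map.mp hx; exact (S.pos _).le
lemma tot_ch (c : C) : S.tot (S.ch c) = S.θ * S.L c := S.eig c
lemma tot_shift (D : List (C × ℂ)) (z : ℂ) : S.tot (D.map fun d => (d.1, z + d.2)) = S.tot D := by
  simp [tot, Function.comp_def]

lemma desc_succ (n : ℕ) (c : C) : S.desc (n + 1) c = S.ref n (S.ch c) := rfl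
lemma ref_nil (n : ℕ) : S.ref n [] = [] := rfl
lemma ref_cons (n : ℕ) (e : C × ℂ) (D : List (C × ℂ)) : S.ref n (e :: D) =
    ((S.desc n e.1).map fun d => (d.1, S.β ^ n * e.2 + d.2)) ++ S.ref n D := by simp [ref]
lemma ref_append (n : ℕ) (D D' : List (C × ℂ)) : S.ref n (D ++ D') = S.ref n D ++ S.ref n D' := by
  simp [ref]

lemma tot_desc (n : ℕ) (c : C) : S.tot (S.desc n c) = S.θ ^ n * S.L c := by
  induction n generalizing c with
  | zero => simp [desc]
  | succ n ih =>
    rw [desc_succ, pow_succ, mul_assoc, ← tot_ch]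
    induction S.ch c with
    | nil => simp [ref_nil]
    | cons e D ihD => rw [ref_cons, tot_append, ihD, tot_shift, ih, tot_cons]; ring

lemma tot_ref (n : ℕ) (D : List (C × ℂ)) : S.tot (S.ref n D) = S.θ ^ n * S.tot D := by
  induction D with
  | nil => simp [ref_nil]
  | cons e D ih => rw [ref_cons, tot_append, ih, tot_shift, tot_desc, tot_cons]; ring

lemma ref_shift (n : ℕ) (D : List (C × ℂ)) (z : ℂ) : S.ref n (D.map fun d => (d.1, z + d.2)) =
    (S.ref n D).map fun d => (d.1, S.β ^ n * z + d.2) := by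
  simp [ref, List.flatMap_map, List.map_flatMap, Function.comp_def, mul_add, add_assoc]

lemma desc_add (n l : ℕ) (c : C) : S.desc (n + l) c = S.ref n (S.desc l c) := by
  induction l generalizing c with
  | zero => simp [desc, ref]
  | succ l ih =>
    rw [← add_assoc, desc_succ, desc_succ]
    induction S.ch c with
    | nil => rfl
    | cons e D ihD => rw [ref_cons, ref_cons, ref_append, ihD, ref_shift, ih, pow_add, mul_assoc]

lemma step_append (D D' : List (C × ℂ)) {x : ℝ} (hx : 0 ≤ x) :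
    S.step (D ++ D') (S.tot D + x) = S.step D' x := by
  induction D with
  | nil => simp
  | cons d D ih =>
    rw [List.cons_append, step, if_neg (by rw [tot_cons]; linarith [S.tot_nonneg D]), ← ih]
    congr 1; rw [tot_cons]; ring

lemma step_append' (D D' : List (C × ℂ)) {x : ℝ} (h0 : 0 ≤ x) (hx : x < S.tot D) :
    S.step (D ++ D') x = S.step D x := by
  induction D generalizing x with
  | nil => simp at hx; linarith
  | cons d D ih =>
    rw [List.cons_append, step, step]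
    split_ifs with h
    · rfl
    · exact ih (by linarith) (by rw [tot_cons] at hx; linarith)

lemma step_shift (D : List (C × ℂ)) (z : ℂ) {x : ℝ} (h0 : 0 ≤ x) (hx : x < S.tot D) :
    S.step (D.map fun d => (d.1, z + d.2)) x = z + S.step D x := by
  induction D generalizing x with
  | nil => simp at hx; linarith
  | cons d D ih =>
    rw [List.map_cons, step, step]
    split_ifs with h
    · rfl
    · exact ih (by linarith) (by rw [tot_cons] at hx; linarith)

lemma step_ref (n : ℕ) (D1 D2 : List (C × ℂ)) (d : C × ℂ) {x : ℝ} (h0 : 0 ≤ x)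
    (hx : x < S.θ ^ n * S.L d.1) :
    S.step (S.ref n (D1 ++ d :: D2)) (S.θ ^ n * S.tot D1 + x) = S.β ^ n * d.2 + S.Z n d.1 x := by
  rw [ref_append, ← tot_ref, S.step_append _ _ h0, ref_cons,
    S.step_append' _ _ h0 (by rwa [tot_shift, tot_desc]), S.step_shift _ _ h0 (by rwa [tot_desc]), Z]

/-- locality in a child. -/
lemma Z_child {n : ℕ} {c : C} {l1 l2 : List (C × ℂ)} {e : C × ℂ} (h : S.ch c = l1 ++ e :: l2)
    {x : ℝ} (h0 : 0 ≤ x) (hx : x < S.θ ^ n * S.L e.1) :
    S.Z (n + 1) c (S.θ ^ n * S.tot l1 + x) = S.β ^ n * e.2 + S.Z n e.1 x := by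
  rw [Z, desc_succ, h, S.step_ref n _ _ _ h0 hx]

/-- locality in a descendant. -/
lemma Z_desc {n l : ℕ} {c : C} {D1 D2 : List (C × ℂ)} {d : C × ℂ} (h : S.desc l c = D1 ++ d :: D2)
    {x : ℝ} (h0 : 0 ≤ x) (hx : x < S.θ ^ n * S.L d.1) :
    S.Z (n + l) c (S.θ ^ n * S.tot D1 + x) = S.β ^ n * d.2 + S.Z n d.1 x := by
  rw [Z, desc_add, h, S.step_ref n _ _ _ h0 hx]

lemma Z_tile {l : ℕ} {c : C} {D1 D2 : List (C × ℂ)} {d : C × ℂ} (h : S.desc l c = D1 ++ d :: D2)
    {x : ℝ} (h0 : S.tot D1 ≤ x) (hx : x < S.tot D1 + S.L d.1) : S.Z l c x = d.2 := by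
  rw [Z, h, show x = S.tot D1 + (x - S.tot D1) by ring, S.step_append _ _ (by linarith), step,
    if_pos (by linarith)]

lemma Tile.succ {n : ℕ} {c : C} {l1 l2 : List (C × ℂ)} {e : C × ℂ} (h : S.ch c = l1 ++ e :: l2)
    {ρ : ℝ} {ζ : ℂ} (ht : S.Tile n e.1 ρ ζ) :
    S.Tile (n + 1) c (S.θ ^ n * S.tot l1 + ρ) (S.β ^ n * e.2 + ζ) := by
  obtain ⟨b, D1, D2, h1, rfl⟩ := ht
  refine ⟨b, S.ref n l1 ++ D1.map fun d => (d.1, S.β ^ n * e.2 + d.2),
    (D2.map fun d => (d.1, S.β ^ n * e.2 + d.2)) ++ S.ref n l2, ?_, ?_⟩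
  · rw [desc_succ, h, ref_append, ref_cons, h1]; simp
  · rw [tot_append, tot_ref, tot_shift]

lemma Tile.zero (c : C) : S.Tile 0 c 0 0 := ⟨c, [], [], rfl, rfl⟩

lemma meas_comp_step {E : Type} [MeasurableSpace E] (F : ℂ → E) (D : List (C × ℂ)) :
    Measurable fun x => F (S.step D x) := by
  induction D with
  | nil => simp only [step]; exact measurable_const
  | cons d D ih =>
    simp only [step, apply_ite F]
    exact Measurable.ite measurableSet_Iio measurable_const (ih.comp (measurable_sub_const _))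

@[fun_prop] lemma meas_Z (n : ℕ) (c : C) : Measurable (S.Z n c) := S.meas_comp_step id _

lemma comp_step_le (F : ℂ → ℝ) (D : List (C × ℂ)) (x : ℝ) :
    |F (S.step D x)| ≤ |F 0| + (D.map fun d => |F d.2|).sum := by
  induction D generalizing x with
  | nil => simp [step]
  | cons d D ih =>
    have h1 : 0 ≤ (D.map fun d => |F d.2|).sum :=
      List.sum_nonneg fun x hx => by obtain ⟨a, -, rfl⟩ := List.mem_map.mp hx; exact abs_nonneg _
    rw [step, List.map_cons, List.sum_cons]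
    split_ifs
    · linarith only [h1, abs_nonneg (F 0)]
    · linarith [ih (x - S.L d.1), abs_nonneg (F d.2)]

lemma int_comp_step (F : ℂ → ℝ) (D : List (C × ℂ)) (a b : ℝ) :
    IntervalIntegrable (fun x => F (S.step D x)) volume a b :=
  bdd_int (S.meas_comp_step F D) (S.comp_step_le F D) a b

lemma Z_bdd [Finite C] (n : ℕ) : ∃ B : ℝ, 0 ≤ B ∧ ∀ c x, ‖S.Z n c x‖ ≤ B := by
  obtain ⟨B, hB⟩ := (Set.finite_range fun c => ((S.desc n c).map fun d => |‖d.2‖|).sum).bddAbove
  refine ⟨|B|, abs_nonneg _, fun c x => ?_⟩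
  have := S.comp_step_le (fun z => ‖z‖) (S.desc n c) x
  rw [norm_zero, abs_zero, zero_add, abs_norm] at this
  exact this.trans ((hB ⟨c, rfl⟩).trans (le_abs_self B))

lemma integral_step (F : ℂ → ℝ) (D : List (C × ℂ)) :
    ∫ x in (0 : ℝ)..S.tot D, F (S.step D x) = (D.map fun d => S.L d.1 • F d.2).sum := by
  induction D with
  | nil => simp
  | cons d D ih =>
    rw [← intervalIntegral.integral_add_adjacent_intervals (b := S.L d.1) (S.int_comp_step F _ _ _)
      (S.int_comp_step F _ _ _), List.map_cons, List.sum_cons, ← ih,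
      int_congr_Ico (g := fun _ => F d.2) (S.pos _).le fun x _ hx => by rw [step, if_pos hx],
      int_congr_Ico (g := fun x => F (S.step D (x - S.L d.1))) (a := S.L d.1) (b := S.tot (d :: D))
        (f := fun x => F (S.step (d :: D) x)) (by rw [tot_cons]; linarith [S.tot_nonneg D]) fun x hx _ => by
          rw [step, if_neg (not_lt.mpr hx)],
      intervalIntegral.integral_comp_sub_right (fun x => F (S.step D x))]
    simp

lemma integral_Z (F : ℂ → ℝ) (n : ℕ) (c : C) :
    ∫ x in (0 : ℝ)..S.θ ^ n * S.L c, F (S.Z n c x) = S.ev n c F := by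
  rw [← tot_desc]; exact S.integral_step F _

lemma ev_zero {E : Type} [AddCommGroup E] [Module ℝ E] (c : C) (F : ℂ → E) :
    S.ev 0 c F = S.L c • F 0 := by simp [ev, desc]

lemma ev_succ {E : Type} [AddCommGroup E] [Module ℝ E] (n : ℕ) (c : C) (F : ℂ → E) :
    S.ev (n + 1) c F = ((S.ch c).map fun e => S.ev n e.1 fun w => F (S.β ^ n * e.2 + w)).sum := by
  rw [ev, desc_succ]
  induction S.ch c with
  | nil => rfl
  | cons e D ih =>
    rw [ref_cons, List.map_append, List.sum_append, ih, List.map_cons, List.sum_cons, List.map_map]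
    rfl

lemma exists_L [Finite C] : ∃ lm lM : ℝ, 0 < lm ∧ 0 < lM ∧ ∀ c, lm ≤ S.L c ∧ S.L c ≤ lM := by
  have : Nonempty C := ⟨S.a0⟩
  obtain ⟨a, ha⟩ := Finite.exists_min S.L
  obtain ⟨b, hb⟩ := Finite.exists_max S.L
  exact ⟨_, _, S.pos a, S.pos b, fun c => ⟨ha c, hb c⟩⟩

lemma length_le {lm : ℝ} (h : ∀ c, lm ≤ S.L c) (D : List (C × ℂ)) : lm * D.length ≤ S.tot D := by
  induction D with
  | nil => simp
  | cons d D ih => rw [tot_cons, List.length_cons]; push_cast; linarith [h d.1]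

/-- weighted averages over the children. -/
lemma avg [Finite C] : ∃ π : ℝ, 0 < π ∧ π ≤ 1 ∧ ∀ c (f : C × ℂ → ℝ) (a : ℝ),
    (∀ e ∈ S.ch c, a ≤ f e) → ∀ e0 ∈ S.ch c,
      S.θ * S.L c * (a + π * (f e0 - a)) ≤ ((S.ch c).map fun e => S.L e.1 * f e).sum := by
  obtain ⟨lm, lM, h1, h2, h⟩ := S.exists_L
  have hθ := S.one_lt
  refine ⟨lm / (S.θ * lM), by positivity, ?_, fun c f a ha e0 he0 => ?_⟩
  · rw [div_le_one (by positivity)]; linarith only [h, h2, hθ, h S.a0, mul_pos_of_neg_of_neg (Mathlib.Tactic.Linarith.sub_neg_of_lt h2) (Mathlib.Tactic.Linarith.sub_neg_of_lt hθ)]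
  have key : ∀ D : List (C × ℂ), (∀ e ∈ D, a ≤ f e) →
      S.tot D * a ≤ (D.map fun e => S.L e.1 * f e).sum := by
    intro D hD
    induction D with
    | nil => simp
    | cons d D ih =>
      rw [tot_cons, List.map_cons, List.sum_cons]
      nlinarith only [ih, hD, ih fun e he => hD e (by simp [he]), hD d (by simp), S.pos d.1]
  obtain ⟨l1, l2, hl⟩ := List.append_of_mem he0
  have h3 := S.tot_ch c
  have h4 := ha e0 he0
  rw [hl] at ha h3 ⊢
  have h5 := key l1 fun e he => ha e (by simp [he])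
  have h6 := key l2 fun e he => ha e (by simp [he])
  have h7 : S.θ * S.L c * (lm / (S.θ * lM)) ≤ S.L e0.1 := by
    rw [mul_div_assoc', div_le_iff₀ (by positivity)]
    have := mul_le_mul (h c).2 (h e0.1).1 h1.le h2.le
    linarith only [this, hθ, mul_nonneg_of_nonpos_of_nonpos (le_of_lt (Mathlib.Tactic.Linarith.sub_neg_of_lt hθ)) (Mathlib.Tactic.Linarith.sub_nonpos_of_le this)]
  simp only [tot_append, tot_cons, List.map_append, List.sum_append, List.map_cons,
    List.sum_cons] at h3 ⊢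
  have h8 := mul_le_mul_of_nonneg_right h7 (sub_nonneg.mpr h4)
  have h9 := congrArg (· * a) h3
  generalize lm / (S.θ * lM) = π at h8 ⊢
  linarith only [h5, h6, h9, h8]

/-- bounding an integral by the integrals over the pieces. -/
lemma int_pieces (f : ℝ → ℝ) (hf : ∀ a b, IntervalIntegrable f volume a b) (s : ℝ)
    (bd : C × ℂ → ℝ) (D : List (C × ℂ)) (st : ℝ)
    (h : ∀ D1 e D2, D = D1 ++ e :: D2 →
      ∫ x in (st + s * S.tot D1)..(st + s * S.tot D1 + s * S.L e.1), f x ≤ bd e) :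
    ∫ x in st..(st + s * S.tot D), f x ≤ (D.map bd).sum := by
  induction D generalizing st with
  | nil => simp
  | cons d D ih =>
    have h1 := h [] d D rfl
    have h2 := ih (st + s * S.L d.1) fun D1 e D2 he => by
      have := h (d :: D1) e D2 (by rw [he]; rfl)
      rwa [tot_cons, mul_add, ← add_assoc] at this
    rw [tot_nil, mul_zero, add_zero] at h1
    rw [← intervalIntegral.integral_add_adjacent_intervals (hf st (st + s * S.L d.1)) (hf _ _),
      tot_cons, mul_add, ← add_assoc, List.map_cons, List.sum_cons]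
    exact add_le_add h1 h2

lemma meas_H (T : ℝ) (ξ : ℂ) (m : ℕ) (c : C) : Measurable (S.H T ξ m c) := by
  unfold H
  refine Measurable.ite ?_ (by fun_prop) measurable_const
  exact (measurableSet_le measurable_const (measurable_add_const T)).inter
    (measurableSet_lt (measurable_add_const T) measurable_const)

lemma H_nonneg (T : ℝ) (ξ : ℂ) (m : ℕ) (c : C) (x : ℝ) : 0 ≤ S.H T ξ m c x := by
  unfold H; split_ifs
  · linarith [Real.cos_le_one (ξ * (S.Z m c (x + T) - S.Z m c x)).re]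
  · rfl

lemma H_le (T : ℝ) (ξ : ℂ) (m : ℕ) (c : C) (x : ℝ) : S.H T ξ m c x ≤ 2 := by
  unfold H; split_ifs
  · linarith [Real.neg_one_le_cos (ξ * (S.Z m c (x + T) - S.Z m c x)).re]
  · norm_num

lemma int_H (T : ℝ) (ξ : ℂ) (m : ℕ) (c : C) (a b : ℝ) :
    IntervalIntegrable (S.H T ξ m c) volume a b :=
  bdd_int (S.meas_H T ξ m c) (B := 2)
    (fun x => by rw [abs_of_nonneg (S.H_nonneg _ _ _ _ _)]; exact S.H_le _ _ _ _ _) a b

end SSS
end Pool.Agent.SB
end

-- merged part: Pool.Agent.Work.MP_cf06ef_an.B6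
section
/-! Variance and amplitude of the cocycle. -/

set_option autoImplicit false
open Finset Filter Topology MeasureTheory

namespace Pool.Agent.SB
namespace SSS
variable {C : Type} (S : SSS C)

lemma ev_lin (n : ℕ) (c : C) (F G : ℂ → ℝ) (b d : ℝ) :
    S.ev n c (fun w => F w + b * G w + d) = S.ev n c F + b * S.ev n c G + d * (S.θ ^ n * S.L c) := by
  rw [← tot_desc]
  unfold ev
  induction S.desc n c with
  | nil => simp
  | cons e D ih => simp only [List.map_cons, List.sum_cons]; rw [ih]; simp only [tot_cons, smul_eq_mul]; ring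

lemma ev_mul (n : ℕ) (c : C) (F : ℂ → ℂ) (b : ℂ) :
    S.ev n c (fun w => b * F w) = b * S.ev n c F := by
  unfold ev
  induction S.desc n c with
  | nil => simp
  | cons e D ih => simp only [List.map_cons, List.sum_cons]; rw [ih]; simp only [Complex.real_smul]; ring

lemma ev_re (n : ℕ) (c : C) (F : ℂ → ℂ) : (S.ev n c F).re = S.ev n c fun w => (F w).re := by
  unfold ev
  induction S.desc n c with
  | nil => simp
  | cons e D ih => simp only [List.map_cons, List.sum_cons, Complex.add_re]; rw [ih]; simp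

lemma ev_im (n : ℕ) (c : C) (F : ℂ → ℂ) : (S.ev n c F).im = S.ev n c fun w => (F w).im := by
  unfold ev
  induction S.desc n c with
  | nil => simp
  | cons e D ih => simp only [List.map_cons, List.sum_cons, Complex.add_im]; rw [ih]; simp

lemma sum_le_tot (D : List (C × ℂ)) (g : C × ℂ → ℝ) (b : ℝ) (h : ∀ e ∈ D, g e ≤ S.L e.1 * b) :
    (D.map g).sum ≤ S.tot D * b := by
  induction D with
  | nil => simp
  | cons d D ih =>
    rw [List.map_cons, List.sum_cons, tot_cons, add_mul]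
    exact add_le_add (h d (by simp)) (ih fun e he => h e (by simp [he]))

lemma norm_sum_le_tot (D : List (C × ℂ)) (g : C × ℂ → ℂ) (b : ℝ)
    (h : ∀ e : C × ℂ, ‖g e‖ ≤ S.L e.1 * b) : ‖(D.map g).sum‖ ≤ S.tot D * b := by
  induction D with
  | nil => simp
  | cons d D ih =>
    rw [List.map_cons, List.sum_cons, tot_cons, add_mul]
    exact (norm_add_le _ _).trans (add_le_add (h d) ih)

lemma sig_succ (m : ℕ) : S.sig (m + 1) = S.sig m + (‖S.β‖ ^ m) ^ 2 := by
  rw [sig, sum_range_succ, ← pow_mul, mul_comm m]; rfl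

lemma le_sig (m : ℕ) : (m : ℝ) ≤ S.sig m := by
  induction m with
  | zero => simp [sig]
  | succ m ih =>
    rw [sig_succ]; push_cast
    linarith only [ih, one_le_pow₀ (n := 2) (one_le_pow₀ (n := m) S.one_le)]

variable [Finite C]

lemma digit_bd : ∃ zM : ℝ, 0 ≤ zM ∧ ∀ c, ∀ e ∈ S.ch c, ‖e.2‖ ≤ zM := by
  obtain ⟨B, hB⟩ := (Set.finite_range fun c => ((S.ch c).map fun d => ‖d.2‖).sum).bddAbove
  refine ⟨|B|, abs_nonneg _, fun c e he => le_trans ?_ ((hB ⟨c, rfl⟩).trans (le_abs_self B))⟩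
  exact List.single_le_sum (fun x hx => by
    obtain ⟨a, -, rfl⟩ := List.mem_map.mp hx; exact norm_nonneg _) _ (List.mem_map_of_mem he)

theorem var_bound : ∃ K : ℝ, 0 < K ∧ ∀ (ξ : ℂ) (m : ℕ) (c : C), ∃ μ : ℝ,
    S.ev m c (fun w => ((ξ * w).re - μ) ^ 2) ≤ K * ‖ξ‖ ^ 2 * S.sig m * (S.θ ^ m * S.L c) := by
  obtain ⟨zM, hz0, hz⟩ := S.digit_bd
  obtain ⟨π, hπ, hπ1, havg⟩ := S.avg
  set K1 := 2 * zM / π with hK1
  have hK10 : 0 ≤ K1 := by positivity
  refine ⟨(zM + K1) ^ 2 + 1, by positivity, fun ξ => ?_⟩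
  set mn : ℕ → C → ℝ := fun n c => S.ev n c (fun w => (ξ * w).re) / (S.θ ^ n * S.L c) with hmn
  have lpos : ∀ n c, 0 < S.θ ^ n * S.L c := fun n c => mul_pos (S.θpow_pos n) (S.pos c)
  have hM : ∀ n c, S.ev n c (fun w => (ξ * w).re) = mn n c * (S.θ ^ n * S.L c) := fun n c => by
    rw [hmn]; exact (div_mul_cancel₀ _ (lpos n c).ne').symm
  have dig : ∀ n c, ∀ e ∈ S.ch c, |(ξ * (S.β ^ n * e.2)).re| ≤ zM * (‖ξ‖ * ‖S.β‖ ^ n) := by
    intro n c e he
    refine (Complex.abs_re_le_norm _).trans ?_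
    rw [norm_mul, norm_mul, norm_pow, ← mul_assoc, mul_comm]
    gcongr; exact hz c e he
  have rec1 : ∀ n c, S.θ * S.L c * mn (n + 1) c =
      ((S.ch c).map fun e => S.L e.1 * ((ξ * (S.β ^ n * e.2)).re + mn n e.1)).sum := by
    intro n c
    apply mul_left_cancel₀ (S.θpow_pos n).ne'
    rw [← List.sum_map_mul_left, show S.θ ^ n * (S.θ * S.L c * mn (n + 1) c)
      = mn (n + 1) c * (S.θ ^ (n + 1) * S.L c) by ring, ← hM, ev_succ]
    congr 1
    refine List.map_congr_left fun e _ => ?_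
    have := S.ev_lin n e.1 (fun w => (ξ * w).re) (fun _ => 0) 0 (ξ * (S.β ^ n * e.2)).re
    rw [hM] at this
    simp only [mul_add, Complex.add_re, zero_mul, add_zero] at this ⊢
    simp only [add_comm (ξ * (S.β ^ n * e.2)).re, this]; ring
  have osc : ∀ n, ∃ lo, ∀ c, lo ≤ mn n c ∧ mn n c ≤ lo + K1 * (‖ξ‖ * ‖S.β‖ ^ n) := by
    intro n
    induction n with
    | zero => exact ⟨0, fun c => by simp [hmn, ev_zero]; positivity⟩
    | succ n ih =>
      obtain ⟨lo, hlo⟩ := ih
      set b := ‖ξ‖ * ‖S.β‖ ^ n with hb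
      have hb0 : 0 ≤ b := by positivity
      have hb1 : b ≤ ‖ξ‖ * ‖S.β‖ ^ (n + 1) := by
        rw [hb]; gcongr
        · exact S.one_le
        · omega
      refine ⟨lo - zM * b + π * (mn n S.a0 - lo), fun c => ?_⟩
      obtain ⟨z0, h0⟩ := S.prim c S.a0
      have hl : 0 < S.θ * S.L c := mul_pos S.θ_pos (S.pos c)
      have d0 := abs_le.mp (dig n c _ h0)
      have h1 := havg c (fun e => (ξ * (S.β ^ n * e.2)).re + mn n e.1) (lo - zM * b)
        (fun e he => by linarith only [dig, he, hlo, (abs_le.mp (dig n c e he)).1, (hlo e.1).1]) _ h0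
      have h2 := havg c (fun e => -((ξ * (S.β ^ n * e.2)).re + mn n e.1)) (-(lo + K1 * b + zM * b))
        (fun e he => by linarith only [dig, he, hlo, (abs_le.mp (dig n c e he)).2, (hlo e.1).2]) _ h0
      have h3 : ((S.ch c).map fun e => S.L e.1 * -((ξ * (S.β ^ n * e.2)).re + mn n e.1)).sum
          = S.θ * S.L c * -mn (n + 1) c := by
        rw [mul_neg, rec1, ← neg_one_mul, ← List.sum_map_mul_left]
        congr 1; exact List.map_congr_left fun e _ => by ring
      rw [← rec1] at h1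
      rw [h3] at h2
      have h4 := le_of_mul_le_mul_left h1 hl
      have h5 := le_of_mul_le_mul_left h2 hl
      have h6 : π * (K1 * b) = 2 * (zM * b) := by rw [hK1]; field_simp
      have h7 := mul_le_mul_of_nonneg_left hb1 hK10
      have h8 := mul_le_mul_of_nonneg_left d0.1 hπ.le
      have h9 := mul_le_mul_of_nonneg_left d0.2 hπ.le
      simp only at h4 h5 h8 h9
      constructor <;> linarith only [h4, h8, h5, h6, h7, h9]
  have bv : ∀ n c (s μ : ℝ), S.ev n c (fun w => (s + (ξ * w).re - μ) ^ 2) =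
      S.ev n c (fun w => ((ξ * w).re - mn n c) ^ 2) + (s + mn n c - μ) ^ 2 * (S.θ ^ n * S.L c) := by
    intro n c s μ
    have := S.ev_lin n c (fun w => ((ξ * w).re - mn n c) ^ 2) (fun w => (ξ * w).re)
      (2 * (s + mn n c - μ)) ((s + mn n c - μ) ^ 2 - 2 * mn n c * (s + mn n c - μ))
    rw [hM] at this
    refine Eq.trans (congrArg _ (funext fun w => by ring)) (this.trans (by ring))
  intro m c
  refine ⟨mn m c, ?_⟩
  induction m generalizing c with
  | zero => simp [hmn, ev_zero, sig]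
  | succ n ih =>
    obtain ⟨lo, hlo⟩ := osc n
    have h1 := bv (n + 1) c 0 lo
    have h2 := mul_nonneg (sq_nonneg (0 + mn (n + 1) c - lo)) (lpos (n + 1) c).le
    refine le_trans (b := S.ev (n + 1) c fun w => (0 + (ξ * w).re - lo) ^ 2) (by linarith only [h1, h2]) ?_
    rw [ev_succ]
    refine (S.sum_le_tot _ _ (((zM + K1) ^ 2 + 1) * ‖ξ‖ ^ 2 * S.sig (n + 1) * S.θ ^ n)
      fun e he => ?_).trans (le_of_eq (by rw [tot_ch]; ring))
    simp only [mul_add, Complex.add_re, zero_add]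
    rw [bv]
    have h3 : ((ξ * (S.β ^ n * e.2)).re + mn n e.1 - lo) ^ 2
        ≤ ((zM + K1) * (‖ξ‖ * ‖S.β‖ ^ n)) ^ 2 := by
      have := abs_le.mp (dig n c e he)
      have h4 : 0 ≤ K1 * (‖ξ‖ * ‖S.β‖ ^ n) := by positivity
      exact sq_le_sq' (by linarith only [this, h4, hlo, (hlo e.1).1]) (by linarith only [this, hlo, (hlo e.1).2])
    have h4 := mul_le_mul_of_nonneg_right h3 (lpos n e.1).le
    have h5 : 0 ≤ (‖ξ‖ * ‖S.β‖ ^ n) ^ 2 * (S.θ ^ n * S.L e.1) :=
      mul_nonneg (sq_nonneg _) (lpos n e.1).le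
    rw [sig_succ]
    linarith only [h4, h5, ih, ih e.1]

omit [Finite C] in
lemma two_exp (x τ : ℝ) (h : |τ| ≤ 1) :
    ‖Complex.exp (x * Complex.I) + Complex.exp ((x + τ : ℝ) * Complex.I)‖ ≤ 2 - τ ^ 2 / 16 := by
  have h1 : Complex.exp (x * Complex.I) + Complex.exp ((x + τ : ℝ) * Complex.I)
      = Complex.exp (x * Complex.I) * (1 + Complex.exp (τ * Complex.I)) := by
    push_cast; rw [add_mul, Complex.exp_add]; ring
  have h2 : τ ^ 2 ≤ 1 := by rw [← sq_abs]; linarith only [h, abs_nonneg τ, mul_nonneg_of_nonpos_of_nonpos (Mathlib.Tactic.Linarith.sub_nonpos_of_le h) (Mathlib.Tactic.Linarith.sub_nonpos_of_le (abs_nonneg τ))]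
  rw [h1, norm_mul, Complex.norm_exp_ofReal_mul_I, one_mul]
  refine abs_le_of_sq_le_sq' ?_ (by linarith only [h2]) |>.2
  rw [Complex.sq_norm, Complex.normSq_apply]
  simp only [Complex.add_re, Complex.one_re, Complex.exp_ofReal_mul_I_re, Complex.add_im,
    Complex.one_im, Complex.exp_ofReal_mul_I_im, zero_add]
  have h3 := Real.cos_le_one_sub_mul_cos_sq (x := τ) (h.trans (by linarith only [Real.pi_gt_three]))
  have h4 : 2 / 16 ≤ 2 / Real.pi ^ 2 := by
    gcongr; linarith only [Real.pi_lt_four, Real.pi_pos, mul_pos_of_neg_of_neg (Mathlib.Tactic.Linarith.sub_neg_of_lt Real.pi_lt_four) (Mathlib.Tactic.Linarith.sub_neg_of_lt Real.pi_pos)]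
  linarith only [h3, h4, Real.sin_sq_add_cos_sq τ, sq_nonneg τ, sq_nonneg (τ ^ 2), sq_nonneg (τ ^ (2 : ℕ)), mul_nonneg_of_nonpos_of_nonpos (Mathlib.Tactic.Linarith.sub_nonpos_of_le (sq_nonneg τ)) (Mathlib.Tactic.Linarith.sub_nonpos_of_le h4)]

theorem amp : ∃ c1 : ℝ, 0 < c1 ∧ ∀ i : ℕ, 1 ≤ i → ∃ ξ : ℂ, ‖ξ‖ ^ 2 * ‖S.δ‖ ^ 2 * S.sig i = 1 ∧
    ∀ c, S.ev i c (fun w => Real.cos (ξ * w).re) ^ 2 + S.ev i c (fun w => Real.sin (ξ * w).re) ^ 2
      ≤ (1 - c1) * (S.θ ^ i * S.L c) ^ 2 := by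
  obtain ⟨lm, lM, h1, h2, hL⟩ := S.exists_L
  have hθ := S.one_lt
  set κ := lm / (32 * (S.θ * lM)) with hκ
  have hκ0 : 0 < κ := by positivity
  have hκ1 : κ ≤ 1 / 2 := by
    rw [hκ, div_le_iff₀ (by positivity)]; linarith only [h2, hL, hθ, hL S.a0, mul_pos_of_neg_of_neg (Mathlib.Tactic.Linarith.sub_neg_of_lt h2) (Mathlib.Tactic.Linarith.sub_neg_of_lt hθ)]
  refine ⟨κ / 2, by positivity, fun i hi => ?_⟩
  have nsq : ∀ (ξ : ℂ) n, ∑ j ∈ range n, ‖ξ * (S.β ^ j * S.δ)‖ ^ 2
      = ‖ξ‖ ^ 2 * ‖S.δ‖ ^ 2 * S.sig n := fun ξ n => by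
    rw [sig, mul_sum]
    exact sum_congr rfl fun j _ => by rw [norm_mul, norm_mul, norm_pow]; ring
  have key : ∀ ξ : ℂ, ‖ξ‖ ^ 2 * ‖S.δ‖ ^ 2 * S.sig i = 1 → ∀ n ≤ i, ∀ c,
      ‖S.ev n c fun w => Complex.exp ((ξ * w).re * Complex.I)‖ ≤
        S.L c * ((1 - κ * ∑ j ∈ range n, (ξ * (S.β ^ j * S.δ)).re ^ 2) * S.θ ^ n) := by
    intro ξ hξ n
    induction n with
    | zero => intro _ c; simp [ev_zero, abs_of_pos (S.pos c)]
    | succ n ih =>
      intro hn c
      replace ih := ih (by omega)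
      have s1 : ∑ j ∈ range (n + 1), (ξ * (S.β ^ j * S.δ)).re ^ 2 ≤ 1 := by
        rw [← hξ, ← nsq]
        refine (sum_le_sum fun j _ => ?_).trans (sum_le_sum_of_subset_of_nonneg
          (range_mono hn) fun _ _ _ => sq_nonneg _)
        rw [← sq_abs]; gcongr; exact Complex.abs_re_le_norm _
      rw [sum_range_succ] at s1 ⊢
      have s0 : 0 ≤ ∑ j ∈ range n, (ξ * (S.β ^ j * S.δ)).re ^ 2 := sum_nonneg fun _ _ => sq_nonneg _
      generalize ∑ j ∈ range n, (ξ * (S.β ^ j * S.δ)).re ^ 2 = s at s0 s1 ih ⊢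
      set τ := (ξ * (S.β ^ n * S.δ)).re with hτ
      have hτ1 : |τ| ≤ 1 := by rw [← sq_le_one_iff_abs_le_one]; linarith only [s0, s1]
      have ha : 1 / 2 ≤ 1 - κ * s := by linarith only [hκ1, hκ0, s1, sq_nonneg τ, mul_nonneg_of_nonpos_of_nonpos (Mathlib.Tactic.Linarith.sub_nonpos_of_le (sq_nonneg τ)) (le_of_lt (Mathlib.Tactic.Linarith.sub_neg_of_lt hκ0)), mul_nonneg_of_nonpos_of_nonpos (le_of_lt (Mathlib.Tactic.Linarith.sub_neg_of_lt hκ0)) (Mathlib.Tactic.Linarith.sub_nonpos_of_le s1)]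
      generalize hA : 1 - κ * s = a at ha ih
      have hp := S.θpow_pos n
      set g : C × ℂ → ℂ := fun e => Complex.exp ((ξ * (S.β ^ n * e.2)).re * Complex.I) *
        S.ev n e.1 fun w => Complex.exp ((ξ * w).re * Complex.I) with hg
      have e1 : (S.ev (n + 1) c fun w => Complex.exp ((ξ * w).re * Complex.I))
          = ((S.ch c).map g).sum := by
        rw [ev_succ]; congr 1
        refine List.map_congr_left fun e _ => ?_
        rw [hg]; dsimp only; rw [← ev_mul]
        congr 1; funext w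
        rw [← Complex.exp_add, mul_add, Complex.add_re]; push_cast; rw [add_mul]
      have gb : ∀ e, ‖g e‖ ≤ S.L e.1 * (a * S.θ ^ n) := fun e => by
        rw [hg]; dsimp only; rw [norm_mul, Complex.norm_exp_ofReal_mul_I, one_mul]; exact ih e.1
      obtain ⟨z, l1, l2, l3, hc⟩ := S.two c
      have e2 : ‖g (S.a0, z) + g (S.a0, z + S.δ)‖ ≤ (2 - τ ^ 2 / 16) * (S.L S.a0 * (a * S.θ ^ n)) := by
        rw [hg]; dsimp only
        rw [← add_mul, norm_mul, mul_add, mul_add, Complex.add_re]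
        exact mul_le_mul (two_exp _ _ hτ1) (ih _) (norm_nonneg _) (by linarith only [hκ0, hκ1, s0, s1, sq_abs τ, abs_nonneg τ])
      have e3 := S.tot_ch c
      rw [hc] at e3
      simp only [tot_append, tot_cons] at e3
      have e4 : ((S.ch c).map g).sum = (l1.map g).sum + (l2.map g).sum + (l3.map g).sum
          + (g (S.a0, z) + g (S.a0, z + S.δ)) := by rw [hc]; simp; ring
      have e5 : κ * (S.θ * S.L c) ≤ a * S.L S.a0 / 16 := by
        have b1 : κ * (S.θ * S.L c) ≤ κ * (S.θ * lM) := by gcongr; exact (hL c).2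
        have b2 : κ * (S.θ * lM) = lm / 32 := by rw [hκ]; field_simp
        (refine le_of_not_gt fun h_nl => ?_; linarith only [h_nl, b1, b2, hL, h1, ha, hκ0, hκ1, (hL S.a0).1, mul_nonneg_of_nonpos_of_nonpos (le_of_lt (Mathlib.Tactic.Linarith.sub_neg_of_lt h1)) (Mathlib.Tactic.Linarith.sub_nonpos_of_le ha), mul_pos_of_neg_of_neg (Mathlib.Tactic.Linarith.sub_neg_of_lt hκ0) (Mathlib.Tactic.Linarith.sub_neg_of_lt h_nl), mul_nonneg_of_nonpos_of_nonpos (Mathlib.Tactic.Linarith.sub_nonpos_of_le hκ1) (le_of_lt (Mathlib.Tactic.Linarith.sub_neg_of_lt h_nl)), mul_nonneg_of_nonpos_of_nonpos (Mathlib.Tactic.Linarith.sub_nonpos_of_le ha) (Mathlib.Tactic.Linarith.sub_nonpos_of_le (hL S.a0).left)])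
      have e6 := mul_le_mul_of_nonneg_left e5 (mul_nonneg (sq_nonneg τ) hp.le)
      have e7 := congrArg (· * (a * S.θ ^ n)) e3
      rw [e1, e4, show 1 - κ * (s + τ ^ 2) = a - κ * τ ^ 2 by rw [← hA]; ring, pow_succ S.θ]
      refine (norm_add_le _ _).trans ((add_le_add norm_add₃_le e2).trans ?_)
      linarith only [e6, e7, gb, S.norm_sum_le_tot l1 g _ gb, S.norm_sum_le_tot l2 g _ gb,
        S.norm_sum_le_tot l3 g _ gb]
  have hδ : 0 < ‖S.δ‖ := norm_pos_iff.mpr S.δ_ne
  have hs : 0 < S.sig i := lt_of_lt_of_le (by exact_mod_cast hi) (S.le_sig i)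
  obtain ⟨ξ, hξ, hξ2⟩ : ∃ ξ : ℂ, ‖ξ‖ ^ 2 * ‖S.δ‖ ^ 2 * S.sig i = 1 ∧
      1 / 2 ≤ ∑ j ∈ range i, (ξ * (S.β ^ j * S.δ)).re ^ 2 := by
    set ξ0 : ℂ := ((1 / (‖S.δ‖ * √(S.sig i)) : ℝ) : ℂ) with hξ0
    have n0 : ‖ξ0‖ ^ 2 * ‖S.δ‖ ^ 2 * S.sig i = 1 := by
      rw [hξ0, Complex.norm_real, Real.norm_eq_abs, sq_abs, div_pow, mul_pow, Real.sq_sqrt hs.le]
      field_simp
    by_cases h : 1 / 2 ≤ ∑ j ∈ range i, (ξ0 * (S.β ^ j * S.δ)).re ^ 2
    · exact ⟨ξ0, n0, h⟩
    · refine ⟨Complex.I * ξ0, by simpa using n0, ?_⟩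
      have : ∑ j ∈ range i, (ξ0 * (S.β ^ j * S.δ)).re ^ 2 +
          ∑ j ∈ range i, (Complex.I * ξ0 * (S.β ^ j * S.δ)).re ^ 2 = 1 := by
        rw [← n0, ← nsq, ← sum_add_distrib]
        refine sum_congr rfl fun j _ => ?_
        rw [mul_assoc, Complex.I_mul_re, Complex.sq_norm, Complex.normSq_apply]; ring
      linarith only [h, this]
  refine ⟨ξ, hξ, fun c => ?_⟩
  have h3 := key ξ hξ i le_rfl c
  have h4 := S.ev_re i c fun w => Complex.exp ((ξ * w).re * Complex.I)
  have h5 := S.ev_im i c fun w => Complex.exp ((ξ * w).re * Complex.I)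
  simp only [Complex.exp_ofReal_mul_I_re, Complex.exp_ofReal_mul_I_im] at h4 h5
  rw [← h4, ← h5, sq, sq, ← Complex.normSq_apply, ← Complex.sq_norm]
  have hl := mul_pos (S.θpow_pos i) (S.pos c)
  have h6 : ‖S.ev i c fun w => Complex.exp ((ξ * w).re * Complex.I)‖
      ≤ (1 - κ / 2) * (S.θ ^ i * S.L c) := by
    refine h3.trans ?_
    have := mul_le_mul_of_nonneg_left hξ2 (mul_pos hκ0 hl).le
    linarith only [this]
  refine (pow_le_pow_left₀ (norm_nonneg _) h6 2).trans ?_
  rw [mul_pow]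
  gcongr
  linarith only [hκ0, hκ1, mul_nonneg_of_nonpos_of_nonpos (le_of_lt (Mathlib.Tactic.Linarith.sub_neg_of_lt hκ0)) (Mathlib.Tactic.Linarith.sub_nonpos_of_le hκ1)]

end SSS
end Pool.Agent.SB
end

-- merged part: Pool.Agent.Work.MP_cf06ef_an.B16
section
/-! Runs of bounded letters are concatenations of few periodic words. -/

set_option autoImplicit false
open Finset Filter Topology

namespace Pool.Agent.SB
open Pool.Agent.PT

namespace Nice
variable {A : Type}

lemma prefix_append {r v w : List A} (h : r <+: v ++ w) : r <+: v ∨ ∃ t, r = v ++ t ∧ t <+: w := by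
  obtain ⟨s, hs⟩ := h
  rcases List.append_eq_append_iff.mp hs with ⟨a, rfl, -⟩ | ⟨c, rfl, rfl⟩
  · exact Or.inl ⟨a, rfl⟩
  · exact Or.inr ⟨c, rfl, s, rfl⟩

lemma Per_infix {P : ℕ} {s t : List A} (h : Per P s) (ht : t <:+: s) : Per P t := by
  obtain ⟨p, u, h1, h2, h3, h4⟩ := h
  obtain ⟨u', h5⟩ := h4.sub ht
  refine ⟨p, fun n => u (u' + n), h1, h2, fun n => by simp only [← add_assoc, h3], fun i hi => ?_⟩
  rw [h5 i hi, zero_add]

lemma Per_reverse {P : ℕ} {s : List A} (h : Per P s) : Per P s.reverse := by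
  obtain ⟨p, u, h1, h2, h3, h4⟩ := h
  refine ⟨p, fun n => u (s.length - 1 - n), h1, h2, fun n => ?_, fun i hi => ?_⟩
  · simp only []
    rw [← h3]; congr 1; ring
  · rw [List.length_reverse] at hi
    rw [List.getElem?_reverse hi, h4 _ (by omega)]
    congr 2
    rw [Nat.cast_sub (by omega), Nat.cast_sub (by omega)]; push_cast; ring

lemma Per_pow {P : ℕ} {z : List A} (hz : z ≠ []) (hP : z.length ≤ P) (m : ℕ) :
    Per P (List.replicate m z).flatten := by
  have h0 : 0 < z.length := List.length_pos_iff.mpr hz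
  have hlt : ∀ n : ℤ, (n % z.length).toNat < z.length := fun n => by
    have h1 := Int.emod_lt_of_pos n (show (0 : ℤ) < z.length by exact_mod_cast h0)
    have h2 := Int.emod_nonneg n (show (z.length : ℤ) ≠ 0 by exact_mod_cast h0.ne')
    omega
  have hper : ∀ n : ℤ, z[((n + z.length) % z.length).toNat]'(hlt _) =
      z[(n % z.length).toNat]'(hlt _) := fun n => by simp only [Int.add_emod_right]
  refine ⟨z.length, fun n => z[(n % z.length).toNat]'(hlt n), h0, hP, hper, ?_⟩
  induction m with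
  | zero => intro i hi; simp at hi
  | succ m ih =>
    rw [List.replicate_succ, List.flatten_cons, Occ_append]
    refine ⟨fun i hi => ?_, fun i hi => ?_⟩
    · rw [List.getElem?_eq_getElem hi]
      congr 2
      rw [zero_add, ← Int.natCast_mod, Int.toNat_natCast, Nat.mod_eq_of_lt hi]
    · rw [ih i hi]
      congr 1
      have := hper (0 + i)
      simp only [← this]
      congr 3
      ring

lemma QP_pow {P : ℕ} {z : List A} (hP : z.length ≤ P) (m : ℕ) :
    QP P 1 (List.replicate m z).flatten := by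
  by_cases hz : z = []
  · subst hz
    exact ⟨[], by simp, by simp, by simp⟩
  · exact ⟨[(List.replicate m z).flatten], le_rfl, by simp, by simpa using Per_pow hz hP m⟩

lemma QP_short {P : ℕ} {z : List A} (hP : z.length ≤ P) : QP P 1 z := by
  simpa using QP_pow hP 1

lemma QP_append {P k k' : ℕ} {r r' : List A} (h : QP P k r) (h' : QP P k' r') :
    QP P (k + k') (r ++ r') := by
  obtain ⟨l, h1, rfl, h3⟩ := h
  obtain ⟨l', h1', rfl, h3'⟩ := h'
  refine ⟨l ++ l', by rw [List.length_append]; omega, List.flatten_append, fun s hs => ?_⟩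
  exact (List.mem_append.mp hs).elim (h3 s) (h3' s)

lemma QP_mono {P P' k k' : ℕ} {r : List A} (h : QP P k r) (hP : P ≤ P') (hk : k ≤ k') :
    QP P' k' r := by
  obtain ⟨l, h1, h2, h3⟩ := h
  refine ⟨l, h1.trans hk, h2, fun s hs => ?_⟩
  obtain ⟨p, u, a1, a2, a3⟩ := h3 s hs
  exact ⟨p, u, a1, a2.trans hP, a3⟩

lemma QP_reverse {P k : ℕ} {r : List A} (h : QP P k r) : QP P k r.reverse := by
  obtain ⟨l, h1, rfl, h3⟩ := h
  refine ⟨(l.map List.reverse).reverse, by simpa using h1, List.reverse_flatten.symm,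
    fun s hs => ?_⟩
  obtain ⟨t, ht, rfl⟩ := List.mem_map.mp (List.mem_reverse.mp hs)
  exact Per_reverse (h3 t ht)

lemma QP_prefix {P k : ℕ} {r s : List A} (h : QP P k s) (hr : r <+: s) : QP P k r := by
  obtain ⟨l, h1, rfl, h3⟩ := h
  induction l generalizing r k with
  | nil => exact ⟨[], h1, by simpa using (List.prefix_nil.mp hr).symm, by simp⟩
  | cons w l ih =>
    rw [List.length_cons] at h1
    rw [List.flatten_cons] at hr
    rcases prefix_append hr with hr | ⟨t, rfl, ht⟩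
    · exact ⟨[r], by simp; omega, by simp,
        by simpa using Per_infix (h3 w (by simp)) hr.isInfix⟩
    · have h4 : QP P 1 w := ⟨[w], le_rfl, by simp, by simpa using h3 w (by simp)⟩
      exact QP_mono (QP_append h4 (ih le_rfl (fun s hs => h3 s (by simp [hs])) ht)) le_rfl
        (by omega)

/-- letters with bounded lengths. -/
def Bd (σ : A → List A) (b : A) : Prop := ∃ C, ∀ n, len σ n b ≤ C

lemma Bd_step {σ : A → List A} {b a : A} (h : Bd σ b) (ha : a ∈ σ b) : Bd σ a := by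
  obtain ⟨C, hC⟩ := h
  refine ⟨C, fun n => le_trans ?_ (hC (n + 1))⟩
  simp only [len]
  rw [it_succ, it_one']
  obtain ⟨s, t, h⟩ := List.append_of_mem ha
  exact (it_infix σ n ⟨s, t, by simp [h]⟩).length_le

lemma Bd_it {σ : A → List A} (n : ℕ) {w : List A} (h : ∀ b ∈ w, Bd σ b) :
    ∀ a ∈ it σ n w, Bd σ a := by
  induction n with
  | zero => exact h
  | succ n ih =>
    intro a ha
    rw [it_succ', it_one, List.mem_flatMap] at ha
    obtain ⟨b, hb, ha⟩ := ha
    exact Bd_step (ih b hb) ha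

lemma exists_Lb [Finite A] (σ : A → List A) : ∃ L, ∀ b, Bd σ b → ∀ n, len σ n b ≤ L := by
  have : ∀ b, ∃ C, Bd σ b → ∀ n, len σ n b ≤ C := fun b => by
    by_cases h : Bd σ b
    · obtain ⟨C, hC⟩ := h; exact ⟨C, fun _ => hC⟩
    · exact ⟨0, fun h' => absurd h' h⟩
  choose C hC using this
  obtain ⟨L, hL⟩ := (Set.finite_range C).bddAbove
  exact ⟨L, fun b hb n => (hC b hb n).trans (hL ⟨b, rfl⟩)⟩

lemma length_le {σ : A → List A} {L : ℕ} (hL : ∀ b, Bd σ b → ∀ n, len σ n b ≤ L) (n : ℕ)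
    {w : List A} (h : ∀ b ∈ w, Bd σ b) : (it σ n w).length ≤ L * w.length := by
  induction w with
  | nil => simp [it_nil]
  | cons a w ih =>
    rw [it_cons, List.length_append, List.length_cons, mul_add, mul_one, add_comm]
    exact add_le_add (ih fun b hb => h b (by simp [hb])) (hL a (h a (by simp)) n)

lemma exists_first [Finite A] (σ : A → List A) : ∃ f : A → A, ∀ j g, ¬ Bd σ g →
    ∃ w Y, it σ j [g] = w ++ f^[j] g :: Y ∧ (∀ b ∈ w, Bd σ b) ∧ ¬ Bd σ (f^[j] g) := by
  classical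
  obtain ⟨L, hL⟩ := exists_Lb σ
  have : ∀ g, ∃ h, ¬ Bd σ g → ∃ w Y, σ g = w ++ h :: Y ∧ (∀ b ∈ w, Bd σ b) ∧ ¬ Bd σ h := by
    intro g
    by_cases hg : Bd σ g
    · exact ⟨g, fun h => absurd hg h⟩
    have h1 : ¬ ∀ b ∈ σ g, Bd σ b := fun h => hg ⟨L * (σ g).length + 1, fun n => by
      rcases n with _ | n
      · simp [len, it_zero]
      · simp only [len]; rw [it_succ, it_one']; exact (length_le hL n h).trans (by omega)⟩
    generalize σ g = v at h1
    induction v with
    | nil => simp at h1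
    | cons a v ih =>
      by_cases ha : Bd σ a
      · obtain ⟨h, hh⟩ := ih fun h => h1 (by simpa using ⟨ha, h⟩)
        obtain ⟨w, Y, rfl, h2, h3⟩ := hh hg
        exact ⟨h, fun _ => ⟨a :: w, Y, rfl, by simpa using ⟨ha, h2⟩, h3⟩⟩
      · exact ⟨a, fun _ => ⟨[], v, rfl, by simp, ha⟩⟩
  choose f hf using this
  refine ⟨f, fun j g hg => ?_⟩
  induction j with
  | zero => exact ⟨[], [], rfl, by simp, hg⟩
  | succ j ih =>
    obtain ⟨w, Y, h1, h2, h3⟩ := ih
    obtain ⟨u, Z, h4, h5, h6⟩ := hf _ h3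
    rw [Function.iterate_succ_apply']
    refine ⟨it σ 1 w ++ u, Z ++ it σ 1 Y, ?_, fun b hb => ?_, h6⟩
    · rw [it_succ', h1, it_append, it_cons, it_one', h4]; simp
    · exact (List.mem_append.mp hb).elim (Bd_it 1 h2 b) (h5 b)

lemma exists_period [Finite A] (σ : A → List A) (f : A → A) : ∃ T p, 1 ≤ p ∧
    (∀ g, f^[p] (f^[T] g) = f^[T] g) ∧
    ∀ w : List A, (∀ b ∈ w, Bd σ b) → ∀ n, T ≤ n → it σ (n + p) w = it σ n w := by
  obtain ⟨L, hL⟩ := exists_Lb σ
  have := (List.finite_length_le A L).to_subtype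
  have := Fintype.ofFinite A
  let F : ℕ → (A → A) × ({b // Bd σ b} → {l : List A | l.length ≤ L}) :=
    fun n => (f^[n], fun b => ⟨it σ n [b.1], hL b.1 b.2 n⟩)
  obtain ⟨i, j, hij, he⟩ := Finite.exists_ne_map_eq_of_infinite F
  wlog hlt : i < j generalizing i j
  · exact this j i hij.symm he.symm (by omega)
  obtain ⟨p, rfl⟩ := Nat.exists_eq_add_of_lt hlt
  refine ⟨i, p + 1, by omega, fun g => ?_, fun w hw n hn => ?_⟩
  · rw [← Function.iterate_add_apply, add_comm, ← add_assoc]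
    exact (congrFun (congrArg Prod.fst he) g).symm
  · obtain ⟨d, rfl⟩ := Nat.exists_eq_add_of_le hn
    rw [show i + d + (p + 1) = (i + p + 1) + d by ring, it_add, it_add σ i d]
    congr 1
    rw [it_eq_flatMap, it_eq_flatMap σ i]
    refine List.flatMap_congr fun b hb => ?_
    exact (congrArg Subtype.val (congrFun (congrArg Prod.snd he) ⟨b, hw b hb⟩)).symm

/-- `W` is followed by a growing letter at the start of the `N`-th image of `g`. -/
def Dec (σ : A → List A) (N : ℕ) (g : A) (W : List A) : Prop :=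
  ∃ h Y, it σ N [g] = W ++ h :: Y ∧ ¬ Bd σ h

lemma Dec_comp {σ : A → List A} {j N : ℕ} {g h : A} {w Y W : List A}
    (h1 : it σ j [g] = w ++ h :: Y) (h2 : Dec σ N h W) : Dec σ (j + N) g (it σ N w ++ W) := by
  obtain ⟨h', Y', h3, h4⟩ := h2
  exact ⟨h', Y' ++ it σ N Y, by rw [it_add, h1, it_append, it_cons, h3]; simp, h4⟩

lemma Dec_prefix {σ : A → List A} {N : ℕ} {g : A} {W r : List A} (h : Dec σ N g W)
    (hr : r <+: it σ N [g]) (hb : ∀ b ∈ r, Bd σ b) : r <+: W := by
  obtain ⟨h', Y, h1, h2⟩ := h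
  rw [h1] at hr
  rcases prefix_append hr with hr | ⟨t, rfl, ht⟩
  · exact hr
  · rcases t with _ | ⟨c, t⟩
    · simp
    · exact absurd ((List.cons_prefix_cons.mp ht).1 ▸ hb c (by simp)) h2

lemma PQ [Finite A] (σ : A → List A) : ∃ P, ∀ n a r, r <+: it σ n [a] →
    (∀ b ∈ r, Bd σ b) → QP P 3 r := by
  obtain ⟨L, hL⟩ := exists_Lb σ
  obtain ⟨f, hf⟩ := exists_first σ
  obtain ⟨T, p, hp, hf2, hper⟩ := exists_period σ f
  obtain ⟨K, hK⟩ : ∃ K, ∀ a, ∀ j < 2 * T + p + 1, len σ j a ≤ K := by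
    obtain ⟨K, hK⟩ :=
      (Set.finite_range fun x : A × Fin (2 * T + p + 1) => len σ x.2 x.1).bddAbove
    exact ⟨K, fun a j hj => hK ⟨(a, ⟨j, hj⟩), rfl⟩⟩
  have hle : ∀ {j : ℕ} {g h : A} {w Y : List A}, it σ j [g] = w ++ h :: Y → j < 2 * T + p + 1 →
      w.length ≤ K := fun {j g h w Y} h1 h2 => by
    have := hK g j h2
    simp only [len, h1, List.length_append] at this
    omega
  refine ⟨L * K + L + K, fun n a r hr hb => ?_⟩
  by_cases ha : Bd σ a
  · exact QP_mono (QP_short (hr.length_le.trans (hL a ha n))) (by omega) (by omega)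
  by_cases hn : n < 2 * T
  · exact QP_mono (QP_short (hr.length_le.trans (hK a n (by omega)))) (by omega) (by omega)
  obtain ⟨N, rfl⟩ : ∃ N, n = T + (T + N) := ⟨n - 2 * T, by omega⟩
  obtain ⟨w0, Y0, a1, a2, a3⟩ := hf T a ha
  obtain ⟨w, Y, b1, b2, -⟩ := hf p _ a3
  rw [hf2] at b1
  obtain ⟨w1, Y1, c1, -, c3⟩ := hf (T + N % p) _ a3
  have hN := Nat.mod_lt N hp
  have hrep : ∀ m, it σ (T + N % p + m * p) w = it σ (T + N % p) w := fun m => by
    induction m with
    | zero => simp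
    | succ m ih => rw [add_mul, one_mul, ← add_assoc, hper w b2 _ (by omega), ih]
  have key : ∀ m, Dec σ (T + N % p + m * p) (f^[T] a)
      ((List.replicate m (it σ (T + N % p) w)).flatten ++ w1) := fun m => by
    induction m with
    | zero => exact ⟨_, Y1, by simpa using c1, c3⟩
    | succ m ih =>
      have := Dec_comp b1 ih
      rw [hrep] at this
      rw [List.replicate_succ, List.flatten_cons, List.append_assoc,
        show T + N % p + (m + 1) * p = p + (T + N % p + m * p) by ring]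
      exact this
  have h2 := Dec_comp a1 (key (N / p))
  rw [show T + N % p + N / p * p = T + N by rw [add_assoc, Nat.mod_add_div']] at h2
  refine QP_prefix ?_ (Dec_prefix h2 hr hb)
  have e1 := (length_le hL (T + N) a2).trans (Nat.mul_le_mul_left L (hle a1 (by omega)))
  have e2 := (length_le hL (T + N % p) b2).trans (Nat.mul_le_mul_left L (hle b1 (by omega)))
  have e3 := hle c1 (by omega)
  exact QP_append (QP_short (by omega)) (QP_append (QP_pow (by omega) _) (QP_short (by omega)))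

lemma it_rev (σ : A → List A) (n : ℕ) (w : List A) :
    it (fun a => (σ a).reverse) n w.reverse = (it σ n w).reverse := by
  induction n with
  | zero => rfl
  | succ n ih => rw [it_succ', ih, it_succ' σ n, it_one, it_one, List.reverse_flatMap]; rfl

lemma SQ [Finite A] (σ : A → List A) : ∃ P, ∀ n a r, r <:+ it σ n [a] →
    (∀ b ∈ r, Bd σ b) → QP P 3 r := by
  obtain ⟨P, hP⟩ := PQ fun a => (σ a).reverse
  have h1 : ∀ n a, it (fun a => (σ a).reverse) n [a] = (it σ n [a]).reverse := fun n a => by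
    simpa using it_rev σ n [a]
  refine ⟨P, fun n a r hr hb => ?_⟩
  have := hP n a r.reverse (by rw [h1]; exact List.reverse_prefix.mpr hr) fun b hb' => by
    obtain ⟨C, hC⟩ := hb b (List.mem_reverse.mp hb')
    exact ⟨C, fun n => by simpa [len, h1] using hC n⟩
  simpa using QP_reverse this

lemma flat {P : ℕ} (B : A → Prop) (l : List (List A))
    (hp : ∀ w ∈ l, ∀ r, r <+: w → (∀ b ∈ r, B b) → QP P 3 r)
    (hs : ∀ w ∈ l, ∀ r, r <:+ w → (∀ b ∈ r, B b) → QP P 3 r) :
    (∀ r, r <+: l.flatten → (∀ b ∈ r, B b) → QP P (3 * l.length) r) ∧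
    ∀ r, r <:+: l.flatten → (∀ b ∈ r, B b) → (∃ w ∈ l, r <:+: w) ∨ QP P (3 * l.length) r := by
  induction l with
  | nil =>
    refine ⟨fun r hr _ => ?_, fun r hr _ => Or.inr ?_⟩
    · exact ⟨[], by simp, by simpa using (List.prefix_nil.mp hr).symm, by simp⟩
    · exact ⟨[], by simp, by simpa using (List.infix_nil.mp hr).symm, by simp⟩
  | cons w l ih =>
    obtain ⟨i1, i2⟩ := ih (fun v hv => hp v (by simp [hv])) fun v hv => hs v (by simp [hv])
    rw [List.flatten_cons, List.length_cons]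
    refine ⟨fun r hr hb => ?_, fun r hr hb => ?_⟩
    · rcases prefix_append hr with hr | ⟨t, rfl, ht⟩
      · exact QP_mono (hp w (by simp) r hr hb) le_rfl (by omega)
      · exact QP_mono (QP_append (hp w (by simp) w List.prefix_rfl fun b h => hb b (by simp [h]))
          (i1 t ht fun b h => hb b (by simp [h]))) le_rfl (by omega)
    · rcases List.infix_append_iff.mp hr with hr | hr | ⟨l1, l2, rfl, h1, h2⟩
      · exact Or.inl ⟨w, by simp, hr⟩
      · rcases i2 r hr hb with ⟨v, hv, h⟩ | h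
        · exact Or.inl ⟨v, by simp [hv], h⟩
        · exact Or.inr (QP_mono h le_rfl (by omega))
      · exact Or.inr (QP_mono (QP_append (hs w (by simp) l1 h1 fun b h => hb b (by simp [h]))
          (i1 l2 h2 fun b h => hb b (by simp [h]))) le_rfl (by omega))

end Nice
open Nice

theorem nice {A : Type} [Finite A] (σ : A → List A) (hσ : ∀ a, σ a ≠ []) :
    ∃ (Bd : A → Prop) (P0 k : ℕ), (∀ b, Bd b → ∀ a ∈ σ b, Bd a) ∧
      (∀ g, ¬ Bd g → Tendsto (fun n => len σ n g) atTop atTop) ∧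
      ∀ n a r, r <:+: it σ n [a] → (∀ b ∈ r, Bd b) → QP P0 k r := by
  obtain ⟨P, hP⟩ := PQ σ
  obtain ⟨P', hP'⟩ := SQ σ
  obtain ⟨Lm, hLm⟩ := (Set.finite_range fun a => (σ a).length).bddAbove
  refine ⟨Bd σ, P + P' + 1, 3 * Lm + 1, fun b hb a ha => Bd_step hb ha, fun g hg => ?_,
    fun n => ?_⟩
  · exact tendsto_atTop_atTop_of_monotone' (len_mono hσ g) fun ⟨C, hC⟩ =>
      hg ⟨C, fun n => hC ⟨n, rfl⟩⟩
  induction n with
  | zero => exact fun a r hr _ => QP_mono (QP_short hr.length_le) (by simp [it_zero]) (by omega)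
  | succ n ih =>
    intro a r hr hb
    rw [it_succ, it_one', it_eq_flatMap, List.flatMap_def] at hr
    have hfl := flat (P := P + P' + 1) (Bd σ) ((σ a).map fun c => it σ n [c])
      (fun w hw r h1 h2 => by
        obtain ⟨c, -, rfl⟩ := List.mem_map.mp hw
        exact QP_mono (hP n c r h1 h2) (by omega) le_rfl)
      (fun w hw r h1 h2 => by
        obtain ⟨c, -, rfl⟩ := List.mem_map.mp hw
        exact QP_mono (hP' n c r h1 h2) (by omega) le_rfl)
    rcases hfl.2 r hr hb with ⟨w, hw, h⟩ | h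
    · obtain ⟨c, -, rfl⟩ := List.mem_map.mp hw
      exact ih c r h hb
    · refine QP_mono h le_rfl ?_
      have : (σ a).length ≤ Lm := hLm ⟨a, rfl⟩
      rw [List.length_map]
      omega

end Pool.Agent.SB
end

-- merged part: Pool.Agent.Work.MP_cf06ef_an.B17
section
/-! Perron-Frobenius and the dichotomy for the class of a growing letter. -/

set_option autoImplicit false
open Finset Filter Topology

namespace Pool.Agent.SB
open Pool.Agent.PT

theorem perron {C : Type} [Fintype C] [Nonempty C] (m : C → C → ℝ) (hm : ∀ c c', 0 < m c c') :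
    ∃ (θ : ℝ) (v : C → ℝ), 0 < θ ∧ (∀ c, 0 < v c) ∧ ∀ c, ∑ c', m c c' * v c' = θ * v c := by
  let K : Set (ℝ × (C → ℝ)) :=
    {z | 0 ≤ z.1 ∧ z.2 ∈ stdSimplex ℝ C ∧ ∀ c, z.1 * z.2 c ≤ ∑ c', m c c' * z.2 c'}
  have pos : ∀ x : C → ℝ, (∀ c, 0 ≤ x c) → ∀ c0, 0 < x c0 → ∀ c, 0 < ∑ c', m c c' * x c' :=
    fun x hx c0 h0 c => sum_pos' (fun c' _ => mul_nonneg (hm c c').le (hx c'))
      ⟨c0, mem_univ _, mul_pos (hm c c0) h0⟩
  have nrm : ∀ (t : ℝ) (x : C → ℝ), 0 ≤ t → (∀ c, 0 < x c) →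
      (∀ c, t * x c ≤ ∑ c', m c c' * x c') → (t, fun c => x c / ∑ c', x c') ∈ K := by
    intro t x ht hx h
    have hS : 0 < ∑ c', x c' := sum_pos (fun c _ => hx c) univ_nonempty
    refine ⟨ht, ⟨fun c => (div_pos (hx c) hS).le, by rw [← sum_div, div_self hS.ne']⟩, fun c => ?_⟩
    simp only [← mul_div_assoc, ← sum_div]
    exact div_le_div_of_nonneg_right (h c) hS.le
  have hK : IsCompact K := by
    refine ((isCompact_Icc (a := (0 : ℝ)) (b := ∑ c, ∑ c', m c c')).prod
      (isCompact_stdSimplex ℝ C)).of_isClosed_subset ?_ ?_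
    · refine (isClosed_le continuous_const continuous_fst).inter
        (((isClosed_stdSimplex ℝ C).preimage continuous_snd).inter ?_)
      show IsClosed {z : ℝ × (C → ℝ) | ∀ c, z.1 * z.2 c ≤ ∑ c', m c c' * z.2 c'}
      rw [Set.ofPred_forall]
      exact isClosed_iInter fun c => isClosed_le (by fun_prop) (by fun_prop)
    · rintro ⟨t, x⟩ ⟨h1, h2, h3⟩
      refine ⟨⟨h1, ?_⟩, h2⟩
      calc t = ∑ c, t * x c := by rw [← mul_sum, h2.2, mul_one]
        _ ≤ _ := sum_le_sum fun c _ => (h3 c).trans (sum_le_sum fun c' _ =>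
          mul_le_of_le_one_right (hm c c').le (mem_Icc_of_mem_stdSimplex h2 c').2)
  obtain ⟨⟨t, x⟩, ⟨h1, h2, h3⟩, hmax⟩ := hK.exists_isMaxOn
    ⟨_, nrm 0 (fun _ => 1) le_rfl (fun _ => one_pos) fun c => by
      simpa using sum_nonneg fun c' _ => (hm c c').le⟩ continuous_fst.continuousOn
  obtain ⟨c1, -, hc1⟩ : ∃ c ∈ univ, 0 < x c := by
    by_contra k
    push Not at k
    have := sum_nonpos k
    rw [h2.2] at this
    exact absurd this (by norm_num)
  have hy := pos x h2.1 c1 hc1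
  have eq : ∀ c, ∑ c', m c c' * x c' = t * x c := by
    by_contra k
    push Not at k
    obtain ⟨c0, k⟩ := k
    have hz := pos (fun c => ∑ c', m c c' * x c' - t * x c) (fun c => sub_nonneg.2 (h3 c)) c0
      (sub_pos.2 ((h3 c0).lt_of_ne k.symm))
    obtain ⟨c2, hc2⟩ := Finite.exists_min fun c =>
      (∑ c', m c c' * (∑ c'', m c' c'' * x c'' - t * x c')) / ∑ c', m c c' * x c'
    have hδ := div_pos (hz c2) (hy c2)
    have := hmax (nrm (t + _) _ (add_nonneg h1 hδ.le) hy fun c => by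
      have h4 := (le_div_iff₀ (hy c)).1 (hc2 c)
      have h5 : ∑ c', m c c' * (∑ c'', m c' c'' * x c'' - t * x c') =
          ∑ c', m c c' * ∑ c'', m c' c'' * x c'' - t * ∑ c', m c c' * x c' := by
        rw [mul_sum, ← sum_sub_distrib]
        exact sum_congr rfl fun c' _ => by ring
      rw [add_mul]
      linarith only [h4, h5])
    exact absurd this (not_le.2 (lt_add_of_pos_right t hδ))
  have key : ∀ c, 0 < t * x c := fun c => eq c ▸ hy c
  have ht : 0 < t := pos_of_mul_pos_left (key c1) hc1.le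
  exact ⟨t, x, ht, fun c => pos_of_mul_pos_right (key c) ht.le, eq⟩

lemma b17_sum_count {A : Type} [DecidableEq A] {p : A → Prop} [DecidablePred p]
    [Fintype {c // p c}] (f : A → ℝ) (hf : ∀ a, ¬ p a → f a = 0) (w : List A) :
    (w.map f).sum = ∑ c : {c // p c}, (w.count c.1 : ℝ) * f c.1 := by
  induction w with
  | nil => simp
  | cons a w ih =>
    simp only [List.map_cons, List.sum_cons, List.count_cons, ih, Nat.cast_add, add_mul,
      sum_add_distrib]
    rw [add_comm]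
    congr 1
    by_cases h : p a
    · rw [sum_eq_single ⟨a, h⟩ (fun c _ hc => by
        rw [if_neg (by simpa using fun k : a = c.1 => hc (Subtype.ext k.symm))]; simp) (by simp)]
      simp
    · rw [hf a h, sum_eq_zero fun c _ => by
        rw [if_neg (by simpa using fun k : a = c.1 => h (k ▸ c.2))]; simp]

lemma b17_sum_sub {A : Type} (f g : A → ℝ) (w : List A) :
    (w.map fun a => f a - g a).sum = (w.map f).sum - (w.map g).sum := by
  induction w with
  | nil => simp
  | cons a w ih => simp only [List.map_cons, List.sum_cons, ih]; ring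

lemma b17_len_succ {A : Type} (τ : A → List A) (m : ℕ) (a : A) :
    (len τ (m + 1) a : ℝ) = ((τ a).map fun b => (len τ m b : ℝ)).sum := by
  rw [len, it_succ, it_one', length_it']

theorem cls_dich {A : Type} [Fintype A] [DecidableEq A] (τ : A → List A) (hτ : ∀ a, τ a ≠ [])
    (hid : ∀ j a b, b ∈ it τ (j + 1) [a] ↔ b ∈ τ a) (g : A)
    (hg : Tendsto (fun n => len τ n g) atTop atTop) :
    (∃ (τ' : A → List A) (S : Cls τ'), S.p g ∧ ∀ n, it τ' n [g] = it τ n [g]) ∨
    ∀ ε : ℝ, 0 < ε → ∀ᶠ m in atTop,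
      (((it τ m [g]).countP fun c => c ∈ τ g ∧ g ∈ τ c : ℕ) : ℝ) ≤ ε * len τ m g := by
  have tr : ∀ a b c, b ∈ τ a → c ∈ τ b → c ∈ τ a := fun a b c h1 h2 => by
    rw [← hid 1, it_succ, it_one', it_one]
    exact List.mem_flatMap.2 ⟨b, h1, h2⟩
  by_cases hgg : g ∉ τ g
  · refine Or.inr fun ε hε => Eventually.of_forall fun m => ?_
    rw [List.countP_eq_zero.2 fun c _ k => hgg (tr _ c _ (of_decide_eq_true k).1
      (of_decide_eq_true k).2), Nat.cast_zero]
    positivity
  push Not at hgg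
  let p : A → Prop := fun c => c ∈ τ g ∧ g ∈ τ c
  have pg : p g := ⟨hgg, hgg⟩
  have _ : Nonempty {c // p c} := ⟨⟨g, pg⟩⟩
  have prim : ∀ c c', p c → p c' → c' ∈ τ c := fun c c' h h' => tr _ _ _ h.2 h'.1
  have low : ∀ b ∈ τ g, ¬ p b → ∀ a ∈ τ b, ¬ p a := fun b hb h a ha k =>
    h ⟨hb, tr _ _ _ ha k.2⟩
  obtain ⟨θ, lam, hθ, hl, hev⟩ := perron (fun c c' : {c // p c} => ((τ c.1).count c'.1 : ℝ))
    fun c c' => Nat.cast_pos.2 (List.count_pos_iff.2 (prim _ _ c.2 c'.2))
  obtain ⟨Λ, Λ1, Λ0⟩ : ∃ Λ : A → ℝ, (∀ c : {c // p c}, Λ c.1 = lam c) ∧ ∀ a, ¬ p a → Λ a = 0 :=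
    ⟨fun a => if h : p a then lam ⟨a, h⟩ else 0, fun c => dif_pos c.2, fun a h => dif_neg h⟩
  have Λp : ∀ a, p a → 0 < Λ a := fun a h => (Λ1 ⟨a, h⟩).symm ▸ hl ⟨a, h⟩
  have eig : ∀ a ∈ τ g, ((τ a).map Λ).sum = θ * Λ a := fun a ha => by
    by_cases h : p a
    · rw [b17_sum_count Λ Λ0, Λ1 ⟨a, h⟩, ← hev]
      simp only [Λ1]
    · rw [Λ0 a h, mul_zero]
      refine List.sum_eq_zero fun y hy => ?_
      obtain ⟨b, hb, rfl⟩ := List.mem_map.1 hy
      exact Λ0 b (low a ha h b hb)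
  let v : ℕ → {c // p c} → ℝ := fun m c => len τ m c.1 / (θ ^ m * Λ c.1)
  have den : ∀ (m : ℕ) (c : {c // p c}), 0 < θ ^ m * Λ c.1 := fun m c =>
    mul_pos (pow_pos hθ m) (Λp _ c.2)
  obtain ⟨q, hq⟩ := Finite.exists_min fun q : {c // p c} × {c // p c} => Λ q.2.1 / (θ * Λ q.1.1)
  have hd := doeblin v _ (div_pos (Λp _ q.2.2) (mul_pos hθ (Λp _ q.1.2))) (fun _ => 0)
    antitone_const tendsto_const_nhds fun m a ha c c' => by
      clear * - A τ m a θ Λ p g den ha Λ0 c' c prim q v hq Λp hθ eig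
      have h1 : ∀ b, 0 ≤ (len τ m b : ℝ) - a * θ ^ m * Λ b := fun b => by
        by_cases h : p b
        · rw [sub_nonneg, mul_assoc]
          exact (le_div_iff₀ (den m ⟨b, h⟩)).1 (ha ⟨b, h⟩)
        · rw [Λ0 b h, mul_zero, sub_zero]
          positivity
      have h2 : (len τ m c'.1 : ℝ) - a * θ ^ m * Λ c'.1 ≤
          ((τ c.1).map fun b => (len τ m b : ℝ) - a * θ ^ m * Λ b).sum :=
        List.single_le_sum (fun y hy => by
          obtain ⟨b, -, rfl⟩ := List.mem_map.1 hy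
          exact h1 b) _ (List.mem_map.2 ⟨c'.1, prim _ _ c.2 c'.2, rfl⟩)
      rw [b17_sum_sub, ← b17_len_succ, List.sum_map_mul_left, eig _ c.2.1] at h2
      have h3 := mul_le_mul_of_nonneg_right (hq (c, c')) (sub_nonneg.2 (ha c'))
      have k1 := Λp _ c.2
      have k2 := Λp _ c'.2
      have h4 : a + Λ c'.1 / (θ * Λ c.1) * (v m c' - a) ≤ v (m + 1) c := by
        clear * - a Λ A p c' θ c v m τ den hθ k1 k2 h2
        rw [le_div_iff₀ (den _ c)]
        refine le_trans (le_of_eq ?_) (add_le_of_le_sub_left h2)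
        simp only [v, pow_succ]
        field_simp
      simp only at h3
      linarith only [h3, h4]
  rcases hd with ⟨κ, h1, h2⟩ | h1
  · left
    obtain ⟨c0, hc0⟩ := Finite.exists_min (v 0)
    have hκ : 0 < κ := lt_of_lt_of_le (by
      simp only [v, sub_zero]
      exact div_pos (by simp [len, it_zero]) (den 0 c0)) (h2 0 _ hc0)
    have lim1 : ∀ c, p c → Tendsto (fun n => (len τ n c : ℝ) / θ ^ n) atTop (𝓝 (κ * Λ c)) := by
      intro c hc
      refine ((h1 ⟨c, hc⟩).mul_const (Λ c)).congr fun n => ?_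
      have := Λp c hc
      simp only [v]
      field_simp
    have one : 1 < θ := by
      by_contra k
      refine not_tendsto_nhds_of_tendsto_atTop (tendsto_atTop_mono (fun n => ?_)
        (tendsto_natCast_atTop_atTop.comp hg)) _ (lim1 g pg)
      exact le_div_self (Nat.cast_nonneg _) (pow_pos hθ n) (pow_le_one₀ hθ.le (not_lt.1 k))
    have lim2 : ∀ b ∈ τ g, Tendsto (fun n => (len τ n b : ℝ) / θ ^ n) atTop (𝓝 (κ * Λ b)) := by
      clear * - A τ g θ κ Λ p lim1 Λ0 pg eig hgg hθ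
      intro b hb
      by_cases h : p b
      · exact lim1 b h
      have t1 := tendsto_list_sum (τ g)
        (f := fun c n => if p c then (len τ n c : ℝ) / θ ^ n else 0) (a := fun c => κ * Λ c)
        (x := atTop) fun c _ => by
          by_cases k : p c
          · simpa only [if_pos k] using lim1 c k
          · simpa only [if_neg k, Λ0 c k, mul_zero] using tendsto_const_nhds
      rw [List.sum_map_mul_left, eig g hgg] at t1
      have t2 := (((lim1 g pg).comp (tendsto_add_atTop_nat 1)).const_mul θ).sub t1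
      rw [mul_left_comm, sub_self] at t2
      rw [Λ0 b h, mul_zero]
      refine squeeze_zero (fun n => by positivity) (fun n => ?_) t2
      have e : θ * ((len τ (n + 1) g : ℝ) / θ ^ (n + 1)) =
          ((τ g).map fun c => (len τ n c : ℝ) / θ ^ n).sum := by
        simp only [div_eq_mul_inv]
        rw [List.sum_map_mul_right, ← b17_len_succ, pow_succ]
        field_simp
      rw [Function.comp_apply, e, ← b17_sum_sub]
      refine List.single_le_sum (fun y hy => ?_) _ (List.mem_map.2 ⟨b, hb, by rw [if_neg h, sub_zero]⟩)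
      obtain ⟨c, -, rfl⟩ := List.mem_map.1 hy
      split_ifs
      · rw [sub_self]
      · rw [sub_zero]
        positivity
    let τ' : A → List A := fun a => if a ∈ τ g then τ a else [a]
    have e1 : ∀ n, ∀ a ∈ τ g, it τ' n [a] = it τ n [a] := fun n => by
      induction n with
      | zero => exact fun _ _ => rfl
      | succ n ih =>
        intro a ha
        rw [it_succ τ', it_succ τ, it_one', it_one', show τ' a = τ a from if_pos ha, it_eq_flatMap,
          it_eq_flatMap τ]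
        exact List.flatMap_congr fun b hb => ih b (tr _ _ _ ha hb)
    have e2 : ∀ n, ∀ a ∉ τ g, it τ' n [a] = [a] := fun n a ha => by
      induction n with
      | zero => rfl
      | succ n ih => rw [it_succ, it_one', show τ' a = [a] from if_neg ha, ih]
    refine ⟨τ', ⟨p, g, θ, fun a => κ * Λ a, fun a => ?_, pg, fun c c' h h' => ?_,
      fun b a h ha => ?_, one, fun c h => mul_pos hκ (Λp c h), fun b h => ?_, fun a => ?_⟩, pg,
      fun n => e1 n g hgg⟩
    · simp only [τ']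
      split_ifs
      exacts [hτ a, List.cons_ne_nil _ _]
    · rw [show τ' c = τ c from if_pos h.1]
      exact prim c c' h h'
    · by_cases k : b ∈ τ g
      · exact low b k h a (by rwa [show τ' b = τ b from if_pos k] at ha)
      · rw [show τ' b = [b] from if_neg k, List.mem_singleton] at ha
        exact ha ▸ h
    · rw [Λ0 b h, mul_zero]
    · by_cases k : a ∈ τ g
      · simpa only [len, e1 _ a k] using lim2 a k
      · rw [Λ0 a fun h => k h.1, mul_zero]
        simp only [len, e2 _ a k]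
        exact tendsto_const_nhds.div_atTop (tendsto_pow_atTop_atTop_of_one_lt one)
  · right
    intro ε hε
    obtain ⟨c0, hc0⟩ := Finite.exists_min fun c : {c // p c} => Λ c.1
    have k0 := Λp _ c0.2
    have w1 : ∀ m, ∀ a ∈ τ g, ((it τ m [a]).map Λ).sum = θ ^ m * Λ a := fun m => by
      induction m with
      | zero => intro a _; simp [it_zero]
      | succ m ih =>
        intro a ha
        have : ∀ w : List A, (∀ b ∈ w, b ∈ τ g) →
            ((it τ m w).map Λ).sum = θ ^ m * (w.map Λ).sum := fun w hw => by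
          induction w with
          | nil => simp [it_nil]
          | cons b w ih' =>
            rw [it_cons, List.map_append, List.sum_append, ih b (hw b (by simp)),
              ih' fun c hc => hw c (by simp [hc]), List.map_cons, List.sum_cons, mul_add]
        rw [it_succ, it_one', this _ fun b hb => tr _ _ _ ha hb, eig a ha, pow_succ, mul_assoc]
    have w2 : ∀ w : List A, ((w.countP fun c => c ∈ τ g ∧ g ∈ τ c : ℕ) : ℝ) * Λ c0.1 ≤
        (w.map Λ).sum := fun w => by
      induction w with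
      | nil => simp
      | cons b w ih =>
        rw [List.countP_cons, List.map_cons, List.sum_cons]
        by_cases h : p b
        · rw [if_pos (decide_eq_true h), Nat.cast_add, Nat.cast_one]
          linarith only [h, ih, hc0, hc0 ⟨b, h⟩]
        · rw [if_neg fun k => h (of_decide_eq_true k), Λ0 b h, add_zero, zero_add]
          exact ih
    filter_upwards [(h1 ⟨g, pg⟩).eventually_ge_atTop (1 / (ε * Λ c0.1))] with m hm
    have h2 := (le_div_iff₀ (den m ⟨g, pg⟩)).1 hm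
    have h3 := w2 (it τ m [g])
    rw [w1 m g hgg] at h3
    rw [one_div, inv_mul_le_iff₀ (mul_pos hε k0)] at h2
    refine le_of_mul_le_mul_right (h3.trans (h2.trans_eq ?_)) k0
    ring

end Pool.Agent.SB
end
end
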