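import Pool.Agent.Work.MP_cf06ef_an.B19
import Pool.Agent.Work.MP_ca0f09_nt.Main2
import Pool.Agent.Work.MP_ca0f09_nt.Construct
import Pool.Agent.Work.MP_ca0f09_nt.UnifMR

/-! The unconditional theorem over an arbitrary finite alphabet. -/

set_option autoImplicit false
open Filter Topology

namespace Pool.Agent.SB
open Pool.Agent.PT

theorem ch2 : CH2 := fun h hh => by
  have H := Pool.Agent.Work.MP_ca0f09_nt.twoPt_of_free
    (fun h W hh hW ε hε hε1 => Pool.Agent.Work.MP_ca0f09_nt.exists_sys h W hh hW ε hε hε1)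
    (Pool.Agent.Work.MP_ca0f09_nt.free_of_unif Pool.Agent.Work.MP_ca0f09_nt.unif)
    h hh 1 le_rfl (fun _ => 1) (fun _ => by simp) (fun _ => rfl)
  simp only [one_mul] at H
  exact H

lemma it_map {A B : Type} (e : A ≃ B) (σ : A → List A) (n : ℕ) (w : List A) :
    it (fun b => (σ (e.symm b)).map e) n (w.map e) = (it σ n w).map e := by
  induction n with
  | zero => rfl
  | succ n ih =>
    rw [it, it, Function.iterate_succ_apply', Function.iterate_succ_apply']
    change (it _ n _).flatMap _ = ((it σ n w).flatMap σ).map e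
    rw [ih, List.flatMap_map, List.map_flatMap]
    simp

theorem general (A : Type) [Fintype A] [TopologicalSpace A] [DiscreteTopology A]
    (σ : A → List A) (hσ : ∀ a, σ a ≠ []) (X : Set (ℤ → A))
    (hX : X = {x : ℤ → A | ∀ (i : ℤ) (m : ℕ), ∃ (a : A) (n : ℕ),
      List.IsInfix (List.ofFn (fun j : Fin m => x (i + ((j : ℕ) : ℤ)))) (it σ n [a])})
    (S : X → X) (hS : ∀ (x : X) (i : ℤ), (S x).1 i = x.1 (i + 1))
    (f : X → ℂ) (hf : Continuous f) (x : X) :
    Tendsto (fun N : ℕ => (1 / (N : ℂ)) * ∑ n ∈ Finset.Icc 1 N,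
      f (S^[n] x) * ((ArithmeticFunction.moebius n : ℤ) : ℂ)) atTop (𝓝 0) := by
  classical
  let e := Fintype.equivFin A
  have mem : ∀ y : ℤ → Fin (Fintype.card A), (∀ (i : ℤ) (m : ℕ), ∃ (a : Fin (Fintype.card A))
      (n : ℕ), List.IsInfix (List.ofFn (fun j : Fin m => y (i + ((j : ℕ) : ℤ))))
        (it (fun b => (σ (e.symm b)).map e) n [a])) ↔ (fun i => e.symm (y i)) ∈ X := by
    intro y
    rw [hX]
    refine forall₂_congr fun i m => ⟨fun ⟨a, n, h⟩ => ⟨e.symm a, n, ?_⟩,
      fun ⟨a, n, h⟩ => ⟨e a, n, ?_⟩⟩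
    · have h1 := it_map e σ n [e.symm a]
      simp only [List.map_singleton, Equiv.apply_symm_apply] at h1
      have h2 := h.map e.symm
      rw [h1, List.map_map, List.map_ofFn] at h2
      simpa [Function.comp_def] using h2
    · have h2 := h.map e
      rw [← it_map e σ n [a], List.map_ofFn] at h2
      simpa [Function.comp_def] using h2
  have hit : ∀ (n : ℕ) (i : ℤ), (S^[n] x).1 i = x.1 (i + n) := by
    intro n
    induction n with
    | zero => simp
    | succ n ih =>
      intro i
      rw [Function.iterate_succ_apply', hS, ih, Nat.cast_succ, add_assoc, add_comm 1]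
  have H := final ch2 _ (fun b => (σ (e.symm b)).map e) (fun b => by simpa using hσ _) _ rfl
    (fun y => if h : (fun i => e.symm (y i)) ∈ X then f ⟨_, h⟩ else 0) (by
      rw [continuousOn_iff_continuous_domRestrict]
      have hc : Continuous e.symm := continuous_of_discreteTopology
      refine Continuous.congr (f := fun y => f ⟨fun i => e.symm (y.1 i), (mem y.1).mp y.2⟩)
        (hf.comp (Continuous.subtype_mk (continuous_pi fun i => hc.comp
          ((continuous_apply i).comp continuous_subtype_val)) _)) fun y => ?_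
      simp only [Set.domRestrict_apply, dif_pos ((mem y.1).mp y.2)])
    (fun i => e (x.1 i)) ((mem fun i => e (x.1 i)).mpr (by simp))
  refine H.congr fun N => ?_
  congr 1
  refine Finset.sum_congr rfl fun n _ => ?_
  have h1 : (fun i => e.symm (e (x.1 (i + n)))) = (S^[n] x).1 := funext fun i => by simp [hit]
  rw [dif_pos (h1 ▸ (S^[n] x).2)]
  congr 2
  exact Subtype.ext h1

end Pool.Agent.SB
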