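import Mathlib

-- merged part: Pool.Agent.Work.MP_cf06ef_an.P11
section
-- merged part: Pool.Agent.Work.MP_cf06ef_an.P1
section
set_option autoImplicit false
open Finset

namespace Pool.Agent.PT

/-- `t` lies in the Bohr set of the frequencies `B` with radius `η`. -/
def Bohr (B : Finset ℝ) (η : ℝ) (t : ℤ) : Prop := ∀ β ∈ B, ∃ z : ℤ, |β * t - z| < η

/-- A Pisot module: positions, their real and their integer lengths. -/
structure PM (Λ : Type) [AddCommGroup Λ] where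
  θ : ℝ
  ρ : ℝ
  s : ℝ
  r : Λ →+ ℝ
  T : ℕ → Λ →+ Λ
  φ : Λ →+ ℤ
  N : Λ → ℝ
  one_lt : 1 < θ
  ρ_nonneg : 0 ≤ ρ
  ρ_lt : ρ < 1
  s_pos : 0 < s
  r_inj : Function.Injective r
  r_T : ∀ k γ, r (T k γ) = θ ^ k * r γ
  N_add : ∀ a b, N (a + b) ≤ N a + N b
  N_neg : ∀ a, N (-a) = N a
  N_T : ∀ k a, N (T k a) ≤ ρ ^ k * N a
  N_nsmul : ∀ (n : ℕ) a, N (n • a) = n * N a
  approx : ∀ a, |(φ a : ℝ) - s * r a| ≤ N a
  fin : ∀ R : ℝ, {a | |r a| ≤ R ∧ N a ≤ R}.Finite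
  a0 : ∃ a0 : ℕ, a0 ≠ 0 ∧ ∀ a, ∃ b, a0 • a = T 1 b
  finmod : ∀ p : ℕ, p ≠ 0 → ∃ F : Finset Λ, ∀ a, ∃ f ∈ F, ∃ b, a = f + p • b
  bohr : ∀ k : ℕ, ∃ (B : Finset ℝ) (η : ℝ), 0 < η ∧
    ∀ t : ℤ, Bohr B η t → ∃ δ, N δ ≤ 1 ∧ φ (T k δ) = t

namespace PM
variable {Λ : Type} [AddCommGroup Λ] (M : PM Λ)

lemma θ_pos : 0 < M.θ := lt_trans one_pos M.one_lt

lemma θpow_pos (k : ℕ) : 0 < M.θ ^ k := pow_pos M.θ_pos k

lemma one_le_θpow (k : ℕ) : 1 ≤ M.θ ^ k := one_le_pow₀ M.one_lt.le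

lemma T_zero (a : Λ) : M.T 0 a = a := M.r_inj (by simp [M.r_T])

lemma T_add (k l : ℕ) (a : Λ) : M.T (k + l) a = M.T k (M.T l a) :=
  M.r_inj (by simp [M.r_T, pow_add, mul_assoc])

lemma T_comm (k l : ℕ) (a : Λ) : M.T k (M.T l a) = M.T l (M.T k a) := by
  rw [← M.T_add, ← M.T_add, add_comm]

lemma N_nonneg (a : Λ) : 0 ≤ M.N a := (abs_nonneg _).trans (M.approx a)

lemma N_zero : M.N 0 = 0 := by simpa using M.N_nsmul 0 0

lemma N_sub (a b : Λ) : M.N (a - b) ≤ M.N a + M.N b := by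
  rw [sub_eq_add_neg]; simpa [M.N_neg] using M.N_add a (-b)

lemma ρpow_le_one (k : ℕ) : M.ρ ^ k ≤ 1 := pow_le_one₀ M.ρ_nonneg M.ρ_lt.le

lemma N_T_le (k : ℕ) (a : Λ) : M.N (M.T k a) ≤ M.N a :=
  (M.N_T k a).trans (by nlinarith [M.ρpow_le_one k, M.N_nonneg a])

lemma approxT (k : ℕ) (a : Λ) : |(M.φ (M.T k a) : ℝ) - M.s * (M.θ ^ k * M.r a)| ≤ M.N a := by
  have := M.approx (M.T k a); rw [M.r_T] at this; exact this.trans (M.N_T_le k a)

lemma exists_ρpow_le {ε : ℝ} (hε : 0 < ε) : ∃ k, ∀ j ≥ k, M.ρ ^ j ≤ ε := by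
  obtain ⟨k, hk⟩ := exists_pow_lt_of_lt_one hε M.ρ_lt
  exact ⟨k, fun j hj => (pow_le_pow_of_le_one M.ρ_nonneg M.ρ_lt.le hj).trans hk.le⟩

lemma exists_θpow_ge (R : ℝ) : ∃ k, ∀ j ≥ k, R ≤ M.θ ^ j := by
  obtain ⟨k, hk⟩ := pow_unbounded_of_one_lt R M.one_lt
  exact ⟨k, fun j hj => hk.le.trans (pow_le_pow_right₀ M.one_lt.le hj)⟩

/-- multiplication by `θ^k` and by `q` is onto modulo a prime `p` dividing neither `a0` nor `q`. -/
lemma torsion : ∃ a0 : ℕ, a0 ≠ 0 ∧ ∀ p q : ℕ, p.Coprime a0 → p.Coprime q → ∀ (k : ℕ) (a : Λ),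
    ∃ b c, a = q • M.T k b + p • c := by
  obtain ⟨a0, h0, ha⟩ := M.a0
  refine ⟨a0, h0, fun p q hp hq k => ?_⟩
  have bez : ∀ n : ℕ, p.Coprime n → ∀ a : Λ, ∃ b c : Λ, a = n • b + p • c := by
    intro n hn a
    have h := Nat.gcd_eq_gcd_ab p n
    rw [hn] at h
    refine ⟨(p.gcdB n) • a, (p.gcdA n) • a, ?_⟩
    rw [← natCast_zsmul, ← natCast_zsmul, smul_smul, smul_smul, ← add_smul, add_comm, ← h]
    simp
  have h1 : ∀ k (a : Λ), ∃ b c, a = M.T k b + p • c := by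
    intro k
    induction k with
    | zero => intro a; exact ⟨a, 0, by simp [M.T_zero]⟩
    | succ k ih =>
      intro a
      obtain ⟨b, c, rfl⟩ := ih a
      obtain ⟨b1, c1, rfl⟩ := bez a0 hp b
      obtain ⟨b2, hb2⟩ := ha b1
      refine ⟨b2, c + M.T k c1, ?_⟩
      rw [hb2, map_add, ← M.T_add, map_nsmul, smul_add]; abel
  intro a
  obtain ⟨b, c, rfl⟩ := bez q hq a
  obtain ⟨b1, c1, rfl⟩ := h1 k b
  refine ⟨b1, c + q • c1, ?_⟩
  rw [smul_add, smul_add, smul_comm q p c1]; abel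

/-- the power structure. -/
def pow (e : ℕ) (he : e ≠ 0) : PM Λ where
  θ := M.θ ^ e
  ρ := M.ρ ^ e
  s := M.s
  r := M.r
  T := fun k => M.T (e * k)
  φ := M.φ
  N := M.N
  one_lt := one_lt_pow₀ M.one_lt he
  ρ_nonneg := pow_nonneg M.ρ_nonneg e
  ρ_lt := pow_lt_one₀ M.ρ_nonneg M.ρ_lt he
  s_pos := M.s_pos
  r_inj := M.r_inj
  r_T := fun k γ => by rw [M.r_T, pow_mul]
  N_add := M.N_add
  N_neg := M.N_neg
  N_T := fun k a => by rw [← pow_mul]; exact M.N_T _ a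
  N_nsmul := M.N_nsmul
  approx := M.approx
  fin := M.fin
  a0 := by
    obtain ⟨a0, h0, ha⟩ := M.a0
    refine ⟨a0 ^ e, pow_ne_zero _ h0, ?_⟩
    have : ∀ n (a : Λ), ∃ b, a0 ^ n • a = M.T n b := by
      intro n
      induction n with
      | zero => intro a; exact ⟨a, by simp [M.T_zero]⟩
      | succ n ih =>
        intro a
        obtain ⟨b, hb⟩ := ih a
        obtain ⟨c, hc⟩ := ha b
        refine ⟨c, ?_⟩
        rw [pow_succ', mul_smul, hb, ← map_nsmul, hc, M.T_add]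
    simpa using this e
  finmod := M.finmod
  bohr := fun k => M.bohr (e * k)

/-- the rescaled structure. -/
def scale (J : ℕ) : PM Λ where
  θ := M.θ
  ρ := M.ρ
  s := M.s * M.θ ^ J
  r := M.r
  T := M.T
  φ := M.φ.comp (M.T J)
  N := M.N
  one_lt := M.one_lt
  ρ_nonneg := M.ρ_nonneg
  ρ_lt := M.ρ_lt
  s_pos := mul_pos M.s_pos (M.θpow_pos J)
  r_inj := M.r_inj
  r_T := M.r_T
  N_add := M.N_add
  N_neg := M.N_neg
  N_T := M.N_T
  N_nsmul := M.N_nsmul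
  approx := fun a => by simpa [mul_assoc] using M.approxT J a
  fin := M.fin
  a0 := M.a0
  finmod := M.finmod
  bohr := fun k => by
    obtain ⟨B, η, hη, h⟩ := M.bohr (J + k)
    refine ⟨B, η, hη, fun t ht => ?_⟩
    obtain ⟨δ, h1, h2⟩ := h t ht
    exact ⟨δ, h1, by simpa [M.T_add] using h2⟩

lemma bohr_mul (k E : ℕ) (hE : E ≠ 0) : ∃ (B : Finset ℝ) (η : ℝ), 0 < η ∧
    ∀ t : ℤ, Bohr B η t → ∃ δ, M.N δ ≤ 1 ∧ (E : ℤ) * M.φ (M.T k δ) = t := by
  classical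
  obtain ⟨B, η, hη, h⟩ := M.bohr k
  have hE' : (0 : ℝ) < E := by exact_mod_cast Nat.pos_of_ne_zero hE
  refine ⟨insert (1 / (E : ℝ)) (B.image (fun β => β / E)), min η (1 / (E : ℝ)), by positivity, ?_⟩
  intro t ht
  obtain ⟨z, hz⟩ := ht (1 / (E : ℝ)) (mem_insert_self _ _)
  have hz' : t = E * z := by
    have h1 : |(1 / E : ℝ) * t - z| < 1 / E := hz.trans_le (min_le_right _ _)
    have h2 : (1 / E : ℝ) * t - z = ((t - E * z : ℤ) : ℝ) / E := by push_cast; field_simp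
    rw [h2, abs_div, abs_of_pos hE', div_lt_div_iff_of_pos_right hE'] at h1
    have h3 : |t - E * z| < 1 := by exact_mod_cast h1
    have := Int.abs_lt_one_iff.mp h3
    linarith
  obtain ⟨δ, h1, h2⟩ := h z (fun β hβ => by
    obtain ⟨w, hw⟩ := ht (β / E) (mem_insert_of_mem (mem_image_of_mem _ hβ))
    refine ⟨w, ?_⟩
    have : β / E * t = β * z := by rw [hz']; push_cast; field_simp
    rw [this] at hw
    exact hw.trans_le (min_le_left _ _))
  exact ⟨δ, h1, by rw [h2, hz']⟩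

end PM

end Pool.Agent.PT
end

-- merged part: Pool.Agent.Work.MP_cf06ef_an.P3
section
set_option autoImplicit false
open Finset Filter Topology ArithmeticFunction

namespace Pool.Agent.PT

/-- Moebius is orthogonal to every linear phase. -/
def Dav : Prop := ∀ β : ℝ, Tendsto (fun N : ℕ => (∑ n ∈ Icc 1 N,
  (moebius n : ℂ) * Complex.exp (2 * Real.pi * Complex.I * β * n)) / N) atTop (𝓝 0)

/-- orthogonality to Moebius, uniformly in the shift. -/
def UO (a : ℤ → ℂ) : Prop := ∀ ε > (0 : ℝ), ∃ N0 : ℕ, ∀ N ≥ N0, ∀ ι : ℤ,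
  ‖∑ n ∈ Icc 1 N, (moebius n : ℂ) * a (n + ι)‖ ≤ ε * N

/-- the set `P` has at most `ε N + C` points in each interval of length `N`. -/
def Sm (P : ℤ → Prop) (ε C : ℝ) : Prop :=
  ∀ (ι : ℤ) (N : ℕ) (s : Finset ℤ), (∀ n ∈ s, ι ≤ n ∧ n < ι + N ∧ P n) → (s.card : ℝ) ≤ ε * N + C

lemma norm_moebius_le (n : ℕ) : ‖(moebius n : ℂ)‖ ≤ 1 := by
  have : |moebius n| ≤ 1 := abs_moebius_le_one
  rw [Complex.norm_intCast]; exact_mod_cast this

def Pr (w : ℤ → ℂ) : Prop := ∀ ε > (0 : ℝ), ∃ N0 : ℕ, ∀ N ≥ N0, ∀ c : ℤ, ∀ M ≤ N,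
  ‖∑ n ∈ Icc 1 M, (moebius n : ℂ) * w (c - n)‖ ≤ ε * N

noncomputable def ch (β : ℝ) (t : ℤ) : ℂ := Complex.exp (2 * Real.pi * Complex.I * β * t)

lemma norm_ch (β : ℝ) (t : ℤ) : ‖ch β t‖ = 1 := by
  have : (2 * Real.pi * Complex.I * β * t : ℂ) = ((2 * Real.pi * β * t : ℝ) : ℂ) * Complex.I := by
    push_cast; ring
  rw [ch, this, Complex.norm_exp_ofReal_mul_I]

lemma Pr_ch (hD : Dav) (β : ℝ) : Pr (ch β) := by
  intro ε hε
  have h := (Metric.tendsto_atTop.mp (hD (-β))) ε hε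
  obtain ⟨M0, hM0⟩ := h
  obtain ⟨N0, hN0⟩ := exists_nat_ge (M0 / ε)
  refine ⟨N0, fun N hN c M hM => ?_⟩
  have h1 : ∑ n ∈ Icc 1 M, (moebius n : ℂ) * ch β (c - n) = ch β c * ∑ n ∈ Icc 1 M,
      (moebius n : ℂ) * Complex.exp (2 * Real.pi * Complex.I * ((-β : ℝ) : ℂ) * n) := by
    rw [mul_sum]; refine sum_congr rfl fun n _ => ?_
    rw [ch, ch, mul_left_comm, ← Complex.exp_add]; congr 2; push_cast; ring
  rw [h1, norm_mul, norm_ch, one_mul]
  have hNr : (N0 : ℝ) ≤ N := by exact_mod_cast hN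
  have hMr : (M : ℝ) ≤ N := by exact_mod_cast hM
  by_cases hM' : M0 ≤ M
  · rcases Nat.eq_zero_or_pos M with rfl | hp
    · simp; positivity
    · have h2 := hM0 M hM'
      have hp' : (0 : ℝ) < M := by exact_mod_cast hp
      rw [dist_zero_right, norm_div, Complex.norm_natCast, div_lt_iff₀ hp'] at h2
      exact h2.le.trans (by gcongr)
  · have h2 : (M : ℝ) ≤ M0 := by exact_mod_cast (not_le.mp hM').le
    rw [div_le_iff₀ hε] at hN0
    calc _ ≤ ∑ n ∈ Icc 1 M, (1 : ℝ) := by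
          refine norm_sum_le_of_le _ fun n _ => ?_
          have := norm_ch (-β) n
          rw [ch] at this
          rw [norm_mul]; push_cast at this ⊢; rw [this, mul_one]; exact norm_moebius_le n
      _ = M := by simp
      _ ≤ ε * N := by nlinarith

lemma Pr_adjoin (hD : Dav) (w : ℤ → ℂ) (hw : w ∈ Algebra.adjoin ℂ (Set.range ch)) : Pr w := by
  have h1 : w ∈ Subalgebra.toSubmodule (Algebra.adjoin ℂ (Set.range ch)) := hw
  rw [Algebra.adjoin_eq_span] at h1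
  clear hw
  induction h1 using Submodule.span_induction with
  | mem x hx =>
    have : ∃ β, x = ch β := by
      induction hx using Submonoid.closure_induction with
      | mem x hx => obtain ⟨β, rfl⟩ := hx; exact ⟨β, rfl⟩
      | one => exact ⟨0, by funext t; simp [ch]⟩
      | mul x y _ _ hx hy =>
        obtain ⟨β, rfl⟩ := hx
        obtain ⟨γ, rfl⟩ := hy
        refine ⟨β + γ, ?_⟩
        funext t
        simp only [Pi.mul_apply, ch, ← Complex.exp_add]; congr 1; push_cast; ring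
    obtain ⟨β, rfl⟩ := this
    exact Pr_ch hD β
  | zero => intro ε hε; exact ⟨0, fun N _ c M _ => by simp; positivity⟩
  | add x y _ _ hx hy =>
    intro ε hε
    obtain ⟨N1, h1⟩ := hx (ε / 2) (by positivity)
    obtain ⟨N2, h2⟩ := hy (ε / 2) (by positivity)
    refine ⟨max N1 N2, fun N hN c M hM => ?_⟩
    simp only [Pi.add_apply, mul_add, sum_add_distrib]
    have := h1 N (le_of_max_le_left hN) c M hM
    have := h2 N (le_of_max_le_right hN) c M hM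
    exact (norm_add_le _ _).trans (by linarith)
  | smul a x _ hx =>
    intro ε hε
    obtain ⟨N1, h1⟩ := hx (ε / (‖a‖ + 1)) (by positivity)
    refine ⟨N1, fun N hN c M hM => ?_⟩
    have h2 : ∑ n ∈ Icc 1 M, (moebius n : ℂ) * (a • x) (c - n)
        = a * ∑ n ∈ Icc 1 M, (moebius n : ℂ) * x (c - n) := by
      rw [mul_sum]; exact sum_congr rfl fun n _ => by simp; ring
    rw [h2, norm_mul]
    calc _ ≤ (‖a‖ + 1) * (ε / (‖a‖ + 1) * N) :=
          mul_le_mul (by linarith) (h1 N hN c M hM) (norm_nonneg _) (by positivity)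
      _ = ε * N := by field_simp

lemma Pr_Ioc {w : ℤ → ℂ} (hw : Pr w) : ∀ ε > (0 : ℝ), ∃ N0 : ℕ, ∀ N ≥ N0, ∀ c : ℤ, ∀ A M : ℕ,
    M ≤ N → ‖∑ n ∈ Ioc A M, (moebius n : ℂ) * w (c - n)‖ ≤ ε * N := by
  intro ε hε
  obtain ⟨N0, h⟩ := hw (ε / 2) (by positivity)
  refine ⟨N0, fun N hN c A M hM => ?_⟩
  by_cases hA : A ≤ M
  · have h1 := h N hN c M hM
    have h2 := h N hN c A (hA.trans hM)
    have h3 := sum_Ioc_consecutive (fun n : ℕ => (moebius n : ℂ) * w (c - n)) (Nat.zero_le A) hA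
    have h4 : ∀ n : ℕ, Icc 1 n = Ioc 0 n := fun n => by ext; simp; omega
    rw [h4] at h1 h2
    rw [← sub_eq_of_eq_add' h3.symm]
    exact (norm_sub_le _ _).trans (by linarith)
  · rw [Ioc_eq_empty (by omega)]; simp; positivity

open Classical in
lemma bohr_count (B : Finset ℝ) (M : ℕ) (hM : 0 < M) (N : ℕ) :
    (N : ℝ) / M ^ B.card ≤ ((range N).filter fun t : ℕ => Bohr B (1 / M) t).card := by
  have hM' : (0 : ℝ) < M := by exact_mod_cast hM
  set f : ℕ → (B → ℕ) := fun t β => ⌊Int.fract ((β : ℝ) * t) * M⌋₊ with hf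
  obtain ⟨y, -, hy⟩ := exists_le_card_fiber_of_nsmul_le_card_of_maps_to (s := range N)
    (t := Fintype.piFinset fun _ : B => range M) (f := f) (b := (N : ℝ) / M ^ B.card)
    (fun t _ => Fintype.mem_piFinset.mpr fun β => mem_range.mpr (by
      rw [hf, Nat.floor_lt (mul_nonneg (Int.fract_nonneg _) hM'.le)]
      have := Int.fract_lt_one ((β : ℝ) * t); nlinarith))
    ⟨fun _ => 0, by simp [hM]⟩ (by simp; field_simp; rfl)
  refine hy.trans ?_
  set Fb := (range N).filter fun x => f x = y with hFb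
  rcases Fb.eq_empty_or_nonempty with h | h
  · rw [h]; simp
  · set t0 := Fb.min' h
    have ht0 : t0 ∈ Fb := min'_mem _ _
    have : Fb.card ≤ ((range N).filter fun t : ℕ => Bohr B (1 / M) t).card := by
      refine card_le_card_of_injOn (fun t => t - t0) (fun t ht => ?_) (fun t ht t' ht' h => ?_)
      · have ht' : t ∈ Fb := ht
        have h1 : t0 ≤ t := min'_le _ _ ht'
        rw [hFb, mem_filter, mem_range] at ht' ht0
        simp only [coe_filter, mem_range, Set.mem_ofPred_eq]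
        refine ⟨by omega, fun β hβ => ⟨⌊β * t⌋ - ⌊β * t0⌋, ?_⟩⟩
        have h2 : f t ⟨β, hβ⟩ = f t0 ⟨β, hβ⟩ := by rw [ht'.2, ht0.2]
        simp only [hf] at h2
        have h3 : β * ((t - t0 : ℕ) : ℤ) - ((⌊β * t⌋ - ⌊β * t0⌋ : ℤ) : ℝ)
            = Int.fract (β * t) - Int.fract (β * t0) := by
          rw [Int.fract, Int.fract]; push_cast [h1]; ring
        rw [h3, lt_div_iff₀ hM', ← abs_of_pos hM', ← abs_mul, abs_lt]
        have a1 := Nat.floor_le (mul_nonneg (Int.fract_nonneg (β * t)) hM'.le)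
        have a2 := Nat.floor_le (mul_nonneg (Int.fract_nonneg (β * t0)) hM'.le)
        have a3 := Nat.lt_floor_add_one (Int.fract (β * t) * M)
        have a4 := Nat.lt_floor_add_one (Int.fract (β * t0) * M)
        rw [h2] at a1 a3
        constructor <;> nlinarith
      · have h1 : t0 ≤ t := min'_le _ _ ht
        have h2 : t0 ≤ t' := min'_le _ _ ht'
        simp only at h; omega
    exact_mod_cast this

noncomputable def fej (x : ℝ) : ℝ := (1 + Real.cos (2 * Real.pi * x)) / 2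

lemma fej_nonneg (x : ℝ) : 0 ≤ fej x := by
  have := Real.neg_one_le_cos (2 * Real.pi * x); unfold fej; linarith

lemma fej_le_one (x : ℝ) : fej x ≤ 1 := by
  have := Real.cos_le_one (2 * Real.pi * x); unfold fej; linarith

lemma fej_abs (x : ℝ) (z : ℤ) : fej x = fej |x - z| := by
  unfold fej
  have h1 : Real.cos (2 * Real.pi * |x - z|) = Real.cos (2 * Real.pi * (x - z)) := by
    rw [← Real.cos_abs (2 * Real.pi * (x - z)), abs_mul, abs_of_pos Real.two_pi_pos]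
  rw [h1, mul_sub, mul_comm (2 * Real.pi) (z : ℝ), Real.cos_sub_int_mul_two_pi]

lemma fej_anti {x y : ℝ} (hx : 0 ≤ x) (hxy : x ≤ y) (hy : y ≤ 1 / 2) : fej y ≤ fej x := by
  have := Real.cos_le_cos_of_nonneg_of_le_pi (x := 2 * Real.pi * x) (y := 2 * Real.pi * y)
    (by positivity) (by nlinarith [Real.pi_pos]) (by gcongr)
  unfold fej; linarith

lemma fej_lt_one {x : ℝ} (hx : 0 < x) (hy : x ≤ 1 / 2) : fej x < 1 := by
  have := Real.cos_lt_cos_of_nonneg_of_le_pi (x := 0) (y := 2 * Real.pi * x) le_rfl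
    (by nlinarith [Real.pi_pos]) (by positivity)
  unfold fej; rw [Real.cos_zero] at this; linarith

lemma fej_mem (B : Finset ℝ) (K : ℕ) :
    (fun t : ℤ => ((∏ β ∈ B, fej (β * t) ^ K : ℝ) : ℂ)) ∈ Algebra.adjoin ℂ (Set.range ch) := by
  have : (fun t : ℤ => ((∏ β ∈ B, fej (β * t) ^ K : ℝ) : ℂ))
      = ∏ β ∈ B, ((1 / 4 : ℂ) • (1 + 1 + ch β + ch (-β))) ^ K := by
    funext t
    simp only [Finset.prod_apply, Pi.pow_apply, Pi.smul_apply, Pi.add_apply, Pi.one_apply,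
      smul_eq_mul, Complex.ofReal_prod, Complex.ofReal_pow]
    refine prod_congr rfl fun β _ => ?_
    congr 1
    simp only [fej, ch]
    push_cast
    rw [Complex.cos]
    have e1 : (2 * Real.pi * Complex.I * β * t : ℂ) = 2 * Real.pi * (β * t) * Complex.I := by ring
    have e2 : (2 * Real.pi * Complex.I * -β * t : ℂ) = -(2 * Real.pi * (β * t)) * Complex.I := by
      ring
    rw [e1, e2]; ring
  rw [this]
  refine Subalgebra.prod_mem _ fun β _ => Subalgebra.pow_mem _ (Subalgebra.smul_mem _ ?_ _) _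
  exact add_mem (add_mem (add_mem (one_mem _) (one_mem _)) (Algebra.subset_adjoin ⟨β, rfl⟩))
    (Algebra.subset_adjoin ⟨-β, rfl⟩)

theorem AP (hD : Dav) (a : ℤ → ℂ) (ha : ∀ n, ‖a n‖ ≤ 1)
    (h : ∀ ε > (0 : ℝ), ∃ (B : Finset ℝ) (η C : ℝ), 0 < η ∧
      ∀ t, Bohr B η t → Sm (fun n => a (n + t) ≠ a n) ε C) : UO a := by
  classical
  intro ε hε
  obtain ⟨B, η0, C, hη0, hB⟩ := h (ε / 8) (by positivity)
  set η := min η0 (1 / 2) with hη
  have hηp : 0 < η := by positivity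
  set κ := fej η with hκ
  have hκ1 : κ < 1 := fej_lt_one hηp (min_le_right _ _)
  have hκ0 : 0 ≤ κ := fej_nonneg _
  obtain ⟨M, hM2, hM⟩ : ∃ M : ℕ, 2 ≤ M ∧ κ < fej (1 / M) ^ B.card := by
    have h1 : Tendsto (fun M : ℕ => fej (1 / M) ^ B.card) atTop (𝓝 (fej 0 ^ B.card)) := by
      have : Continuous fej := by unfold fej; fun_prop
      exact ((this.tendsto 0).comp tendsto_one_div_atTop_nhds_zero_nat).pow _
    have h2 : fej 0 ^ B.card = 1 := by simp [fej]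
    rw [h2] at h1
    exact ((eventually_ge_atTop 2).and (h1.eventually (lt_mem_nhds hκ1))).exists
  set κ' := fej (1 / M) ^ B.card with hκ'
  have hκ'0 : 0 < κ' := hκ0.trans_lt hM
  have hMr : (2 : ℝ) ≤ M := by exact_mod_cast hM2
  have hMB : (0 : ℝ) < M ^ B.card := by positivity
  obtain ⟨K, hK⟩ := exists_pow_lt_of_lt_one (x := ε / 8 / M ^ B.card) (y := κ / κ')
    (by positivity) ((div_lt_one hκ'0).mpr hM)
  set c := κ' ^ K / M ^ B.card with hc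
  have hc0 : 0 < c := by positivity
  have hKc : κ ^ K ≤ ε / 8 * c := by
    rw [div_pow, div_lt_iff₀ (by positivity)] at hK
    refine hK.le.trans (le_of_eq ?_); rw [hc]; ring
  set ω : ℤ → ℝ := fun t => ∏ β ∈ B, fej (β * t) ^ K with hω
  have ω0 : ∀ t, 0 ≤ ω t := fun t => prod_nonneg fun β _ => pow_nonneg (fej_nonneg _) _
  have ωs : ∀ t, ¬ Bohr B η0 t → ω t ≤ κ ^ K := by
    intro t ht
    simp only [Bohr, not_forall, not_exists, not_lt] at ht
    obtain ⟨β, hβ, ht⟩ := ht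
    have h1 : fej (β * t) ≤ κ := by
      rw [fej_abs _ (round (β * t))]
      exact fej_anti hηp.le ((min_le_left _ _).trans (ht _)) (abs_sub_round _)
    rw [hω]; dsimp only
    rw [← mul_prod_erase B _ hβ]
    calc _ ≤ κ ^ K * 1 := mul_le_mul (pow_le_pow_left₀ (fej_nonneg _) h1 K)
          (prod_le_one (fun β _ => pow_nonneg (fej_nonneg _) _)
            fun β _ => pow_le_one₀ (fej_nonneg _) (fej_le_one _))
          (prod_nonneg fun β _ => pow_nonneg (fej_nonneg _) _) (by positivity)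
      _ = κ ^ K := mul_one _
  have ωl : ∀ t, Bohr B (1 / M) t → κ' ^ K ≤ ω t := by
    intro t ht
    rw [hκ', ← pow_mul, mul_comm, pow_mul, ← prod_const]
    refine prod_le_prod (fun β _ => pow_nonneg (fej_nonneg _) _) fun β hβ => ?_
    obtain ⟨z, hz⟩ := ht β hβ
    refine pow_le_pow_left₀ (fej_nonneg _) ?_ K
    rw [fej_abs (β * t) z]
    exact fej_anti (abs_nonneg _) hz.le (by gcongr)
  obtain ⟨N1, hN1⟩ := Pr_Ioc (Pr_adjoin hD _ (fej_mem B K)) (c * ε / 8) (by positivity)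
  obtain ⟨N2, hN2⟩ := exists_nat_ge (8 * C / ε)
  refine ⟨max 1 (max N1 N2), fun N hN ι => ?_⟩
  have hN0 : (1 : ℝ) ≤ N := by exact_mod_cast le_of_max_le_left hN
  have hNC : C ≤ ε / 8 * N := by
    have : (N2 : ℝ) ≤ N := by exact_mod_cast le_of_max_le_right (le_of_max_le_right hN)
    rw [div_le_iff₀ hε] at hN2
    linarith only [hN2, mul_le_mul_of_nonneg_right this hε.le]
  set S := ∑ n ∈ Icc 1 N, (moebius n : ℂ) * a (n + ι) with hS
  set St : ℕ → ℂ := fun t => ∑ n ∈ Icc 1 N, (moebius n : ℂ) * a (n + ι + t) with hSt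
  set W := ∑ t ∈ range N, ω t with hW
  have hWc : c * N ≤ W := by
    calc c * N = (N / M ^ B.card) * κ' ^ K := by rw [hc]; ring
      _ ≤ ((range N).filter fun t : ℕ => Bohr B (1 / M) t).card * κ' ^ K := by
          gcongr; convert bohr_count B M (by omega) N
      _ = ∑ t ∈ (range N).filter fun t : ℕ => Bohr B (1 / M) t, κ' ^ K := by simp
      _ ≤ ∑ t ∈ (range N).filter fun t : ℕ => Bohr B (1 / M) t, ω t :=
          sum_le_sum fun t ht => ωl t (mem_filter.mp ht).2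
      _ ≤ W := sum_le_sum_of_subset_of_nonneg (filter_subset _ _) fun t _ _ => ω0 t
  have diff : ∀ t : ℕ, ‖S - St t‖ ≤
      2 * ((Icc 1 N).filter fun n : ℕ => a (n + ι + t) ≠ a (n + ι)).card := by
    intro t
    rw [hS, hSt]; dsimp only
    rw [← sum_sub_distrib, ← sum_filter_of_ne (p := fun n : ℕ => a (n + ι + t) ≠ a (n + ι))
      (fun n _ hn h => hn (by rw [h, sub_self]))]
    refine (norm_sum_le_of_le _ (n := fun _ => (2 : ℝ)) fun n _ => ?_).trans (by simp [mul_comm])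
    rw [← mul_sub, norm_mul]
    have := norm_moebius_le n
    have h2 := (norm_sub_le _ _).trans (add_le_add (ha (n + ι)) (ha (n + ι + t)))
    calc _ ≤ 1 * (1 + 1 : ℝ) := by gcongr
      _ = 2 := by norm_num
  have diff2 : ∀ t : ℕ, ω t * ‖S - St t‖ ≤ ω t * (ε / 2 * N) + κ ^ K * (2 * N) := by
    intro t
    by_cases ht : Bohr B η0 t
    · have h3 : (((Icc 1 N).filter fun n : ℕ => a (n + ι + t) ≠ a (n + ι)).card : ℝ)
          ≤ ε / 8 * N + C := by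
        rw [← card_image_of_injective (f := fun n : ℕ => (n : ℤ) + ι) _
          (fun n n' h => by simpa using h)]
        refine hB t ht (1 + ι) N _ fun n hn => ?_
        obtain ⟨m, hm, rfl⟩ := mem_image.mp hn
        simp only [mem_filter, mem_Icc] at hm
        exact ⟨by omega, by omega, hm.2⟩
      have h4 : ‖S - St t‖ ≤ ε / 2 * N := by linarith [diff t]
      have := mul_le_mul_of_nonneg_left h4 (ω0 t)
      have : 0 ≤ κ ^ K * (2 * N) := by positivity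
      linarith
    · have h2 : (((Icc 1 N).filter fun n : ℕ => a (n + ι + t) ≠ a (n + ι)).card : ℝ) ≤ N := by
        exact_mod_cast (card_filter_le _ _).trans (by simp)
      have h3 : ω t * ‖S - St t‖ ≤ κ ^ K * (2 * N) :=
        mul_le_mul (ωs t ht) (by linarith [diff t]) (norm_nonneg _) (by positivity)
      have : 0 ≤ ω t * (ε / 2 * N) := mul_nonneg (ω0 t) (by positivity)
      linarith
  have main : ‖∑ t ∈ range N, (ω t : ℂ) * St t‖ ≤ 2 * N * (c * ε / 8 * N) := by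
    have h1 : ∑ t ∈ range N, (ω t : ℂ) * St t = ∑ n ∈ Icc 1 N, ∑ m ∈ Ico n (n + N),
        a (m + ι) * ((moebius n : ℂ) * (ω (m - n) : ℂ)) := by
      simp only [hSt, mul_sum]
      rw [sum_comm]
      refine sum_congr rfl fun n _ => ?_
      rw [sum_Ico_eq_sum_range, Nat.add_sub_cancel_left]
      refine sum_congr rfl fun t _ => ?_
      push_cast
      rw [add_sub_cancel_left, show (n : ℤ) + t + ι = n + ι + t by ring]; ring
    rw [h1, sum_comm' (t' := Icc 1 (2 * N)) (s' := fun m => Ioc (m - N) (min m N))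
      (fun n m => by simp only [mem_Icc, mem_Ico, mem_Ioc]; omega)]
    refine (norm_sum_le_of_le _ (n := fun _ => c * ε / 8 * N) fun m _ => ?_).trans (by simp)
    rw [← mul_sum, norm_mul]
    have := hN1 N (le_of_max_le_left (le_of_max_le_right hN)) m (m - N) (min m N)
      (min_le_right _ _)
    calc _ ≤ 1 * (c * ε / 8 * N) := mul_le_mul (ha _) this (norm_nonneg _) zero_le_one
      _ = _ := one_mul _
  have hW0 : 0 < W := lt_of_lt_of_le (by positivity) hWc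
  have fin : W * ‖S‖ ≤ 2 * N * (c * ε / 8 * N) + (W * (ε / 2 * N) + N * (κ ^ K * (2 * N))) := by
    have h1 : (W : ℂ) * S = ∑ t ∈ range N, (ω t : ℂ) * St t
        + ∑ t ∈ range N, (ω t : ℂ) * (S - St t) := by
      rw [← sum_add_distrib, hW]; push_cast; rw [sum_mul]
      exact sum_congr rfl fun t _ => by ring
    have h2 : W * ‖S‖ = ‖(W : ℂ) * S‖ := by
      rw [norm_mul, Complex.norm_real, Real.norm_of_nonneg hW0.le]
    rw [h2, h1]
    refine (norm_add_le _ _).trans (add_le_add main ?_)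
    refine (norm_sum_le_of_le _ (n := fun t : ℕ => ω t * (ε / 2 * N) + κ ^ K * (2 * N))
      fun t _ => ?_).trans ?_
    · rw [norm_mul, Complex.norm_real, Real.norm_of_nonneg (ω0 t)]; exact diff2 t
    · rw [sum_add_distrib, ← sum_mul]; simp [hW]
  have h5 : N * (κ ^ K * (2 * N)) ≤ (c * N) * (ε / 4 * N) := by
    calc _ ≤ N * ((ε / 8 * c) * (2 * N)) := by gcongr
      _ = _ := by ring
  have h6 : (c * N) * (ε / 4 * N) ≤ W * (ε / 4 * N) := by gcongr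
  have h7 : W * ‖S‖ ≤ W * (ε * N) := by linarith only [fin, h5, h6]
  exact le_of_mul_le_mul_left h7 hW0

end Pool.Agent.PT
end

-- merged part: Pool.Agent.Work.MP_cf06ef_an.P4
section
set_option autoImplicit false
open Finset

namespace Pool.Agent.PT

open Classical in
lemma Sm.sum_le {P : ℤ → Prop} {ε C : ℝ} (h : Sm P ε C) (A : ℤ) (M : ℕ) :
    ∑ i ∈ range M, (if P (A + i) then (1 : ℝ) else 0) ≤ ε * M + C := by
  rw [sum_boole, ← card_image_of_injective (f := fun i : ℕ => A + (i : ℤ)) _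
    (fun n n' h => by simpa using h)]
  refine h A M _ fun n hn => ?_
  obtain ⟨m, hm, rfl⟩ := mem_image.mp hn
  simp only [mem_filter, mem_range] at hm
  exact ⟨by omega, by omega, hm.2⟩

section Engine
variable {E : Type} [NormedAddCommGroup E] [InnerProductSpace ℂ E] [FiniteDimensional ℂ E]
  {K : Type} [Fintype K] (R : K → E →ₗᵢ[ℂ] E) (V : Submodule ℂ E)

/-- a configuration of translates that fixes no nonzero vector of `V`. -/
def Contr {S : Type} (a : S → K) : Prop :=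
  ∀ ψ ∈ V, (∀ δ δ', R (a δ) ψ = R (a δ') ψ) → ψ = 0

lemma exists_contr (S : Type) [Fintype S] [Nonempty S] : ∃ c : ℝ, 0 ≤ c ∧ c < 1 ∧
    ∀ a : S → K, Contr R V a → ∀ ψ ∈ V, ‖∑ δ, R (a δ) ψ‖ ≤ c * (Fintype.card S * ‖ψ‖) := by
  classical
  have hS : (0 : ℝ) < Fintype.card S := by exact_mod_cast Fintype.card_pos
  have one : ∀ a : S → K, ∃ c : ℝ, c < 1 ∧ (Contr R V a →
      ∀ ψ ∈ V, ‖∑ δ, R (a δ) ψ‖ ≤ c * (Fintype.card S * ‖ψ‖)) := by
    intro a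
    by_cases ha : Contr R V a
    swap
    · exact ⟨0, one_pos, fun h => absurd h ha⟩
    have hc : IsCompact (Metric.sphere (0 : E) 1 ∩ V) :=
      haveI := FiniteDimensional.proper_rclike ℂ E
      (isCompact_sphere 0 1).inter_right V.closed_of_finiteDimensional
    have red : ∀ c : ℝ, (∀ ψ ∈ Metric.sphere (0 : E) 1 ∩ V,
        ‖∑ δ, R (a δ) ψ‖ ≤ c * Fintype.card S) →
        ∀ ψ ∈ V, ‖∑ δ, R (a δ) ψ‖ ≤ c * (Fintype.card S * ‖ψ‖) := by
      intro c h ψ hψ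
      by_cases h0 : ψ = 0
      · simp [h0]
      · have hn : 0 < ‖ψ‖ := norm_pos_iff.mpr h0
        have h1 := h ((‖ψ‖⁻¹ : ℂ) • ψ) ⟨by simp [norm_smul, hn.ne'], V.smul_mem _ hψ⟩
        simp only [map_smul, ← smul_sum, norm_smul, norm_inv, Complex.norm_real, norm_norm] at h1
        rw [inv_mul_le_iff₀ hn] at h1
        linarith
    rcases (Metric.sphere (0 : E) 1 ∩ V).eq_empty_or_nonempty with he | he
    · exact ⟨0, one_pos, fun _ => red 0 fun ψ hψ => by rw [he] at hψ; exact hψ.elim⟩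
    · obtain ⟨x, hx, hmax⟩ := hc.exists_isMaxOn he (f := fun ψ => ‖∑ δ, R (a δ) ψ‖)
        (Continuous.continuousOn (by fun_prop))
      have hx1 : ‖x‖ = 1 := by simpa using hx.1
      refine ⟨‖∑ δ, R (a δ) x‖ / Fintype.card S, ?_, fun _ => red _ fun ψ hψ => ?_⟩
      · rw [div_lt_one hS]
        have : ∃ δ δ', R (a δ) x ≠ R (a δ') x := by
          by_contra hcon
          push Not at hcon
          have := ha x hx.2 hcon
          rw [this] at hx1; simp at hx1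
        obtain ⟨δ, δ', hne⟩ := this
        have hd : δ ≠ δ' := by rintro rfl; exact hne rfl
        have h2 : ‖R (a δ) x + R (a δ') x‖ < 2 := by
          let : InnerProductSpace ℝ E := InnerProductSpace.rclikeToReal ℂ E
          refine lt_of_le_of_ne ((norm_add_le _ _).trans (by simp [hx1]; norm_num)) fun h => hne ?_
          exact eq_of_norm_eq_of_norm_add_eq (by simp) (by rw [h]; simp [hx1]; norm_num)
        have hm : δ' ∈ univ.erase δ := by simp [hd.symm]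
        rw [← add_sum_erase _ _ (mem_univ δ), ← add_sum_erase _ _ hm, ← add_assoc]
        have h3 : ‖∑ e ∈ (univ.erase δ).erase δ', R (a e) x‖ ≤ Fintype.card S - 2 := by
          refine (norm_sum_le_of_le _ (n := fun _ => (1 : ℝ)) fun e _ => by simp [hx1]).trans ?_
          have h4 := card_erase_add_one hm
          have h5 := card_erase_add_one (mem_univ δ)
          rw [card_univ] at h5
          have h6 : (((univ.erase δ).erase δ').card : ℝ) + 2 = Fintype.card S := by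
            exact_mod_cast (by omega : ((univ.erase δ).erase δ').card + 2 = Fintype.card S)
          simp only [sum_const, nsmul_eq_mul, mul_one]; linarith
        exact (norm_add_le _ _).trans_lt (by linarith)
      · rw [div_mul_cancel₀ _ hS.ne']; exact hmax hψ
  choose c hc1 hc2 using one
  obtain ⟨c0, hc0, h1, h2⟩ : ∃ c0 : ℝ, 0 ≤ c0 ∧ c0 < 1 ∧ ∀ a, c a ≤ c0 := by
    rcases isEmpty_or_nonempty (S → K) with h | h
    · exact ⟨0, le_rfl, one_pos, fun a => (h.false a).elim⟩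
    · obtain ⟨a0, ha0⟩ := Finite.exists_max c
      exact ⟨max 0 (c a0), le_max_left _ _, max_lt one_pos (hc1 a0),
        fun a => (ha0 a).trans (le_max_right _ _)⟩
  exact ⟨c0, hc0, h1, fun a ha ψ hψ => (hc2 a ha ψ hψ).trans (by gcongr; exact h2 a)⟩

omit [InnerProductSpace ℂ E] [FiniteDimensional ℂ E] in
lemma shift_sum (f : ℤ → E) (hf : ∀ n, ‖f n‖ ≤ 1) (A : ℤ) (M : ℕ) (s : ℤ) :
    ‖∑ i ∈ range M, f (A + i + s) - ∑ i ∈ range M, f (A + i)‖ ≤ 2 * |(s : ℝ)| := by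
  have one : ∀ s : ℤ,
      ‖∑ i ∈ range M, f (A + i + (s + 1)) - ∑ i ∈ range M, f (A + i + s)‖ ≤ 2 := by
    intro s
    have := sum_range_sub (fun i : ℕ => f (A + i + s)) M
    rw [← sum_sub_distrib]
    have h2 : ∑ i ∈ range M, (f (A + i + (s + 1)) - f (A + i + s))
        = ∑ i ∈ range M, (f (A + ((i + 1 : ℕ) : ℤ) + s) - f (A + i + s)) :=
      sum_congr rfl fun i _ => by congr 2; push_cast; ring
    rw [h2, this]
    exact (norm_sub_le _ _).trans (by linarith [hf (A + M + s), hf (A + (0 : ℕ) + s)])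
  induction s using Int.induction_on with
  | zero => simp
  | succ s ih =>
    have h1 := one s
    have h2 := norm_sub_le_norm_sub_add_norm_sub (∑ i ∈ range M, f (A + i + (s + 1)))
      (∑ i ∈ range M, f (A + i + s)) (∑ i ∈ range M, f (A + i))
    push_cast at ih ⊢
    rw [abs_of_nonneg (by positivity)] at ih ⊢
    linarith
  | pred s ih =>
    have h1 := one (-s - 1)
    rw [sub_add_cancel, norm_sub_rev] at h1
    have h2 := norm_sub_le_norm_sub_add_norm_sub (∑ i ∈ range M, f (A + i + (-s - 1)))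
      (∑ i ∈ range M, f (A + i + -s)) (∑ i ∈ range M, f (A + i))
    have h3 : (0 : ℝ) ≤ s := by positivity
    push_cast at ih ⊢
    rw [abs_of_nonpos (by linarith)] at ih ⊢
    linarith

/-- window version of a relation. -/
def RelW {I : Type} (Rel : I → ℤ → ℤ → K → Prop) (ι : I) (W : ℕ) (n n' : ℤ) (a : K) : Prop :=
  ∀ j : ℤ, |j| ≤ W → Rel ι (n + j) (n' + j) a

theorem engine {I : Type} (Rel : I → ℤ → ℤ → K → Prop) (Ψ0 : I → ℤ → E)
    (hV : ∀ ι n, Ψ0 ι n ∈ V) (h1 : ∀ ι n, ‖Ψ0 ι n‖ ≤ 1)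
    (hR : ∀ ι n n' a, Rel ι n n' a → Ψ0 ι n' = R a (Ψ0 ι n))
    (S : Type) [Fintype S] [Nonempty S] (β : ℝ) (hβ : 0 < β)
    (KL : ∀ (W : ℕ) (ε : ℝ), 0 < ε → ∀ T0 : ℕ, ∃ (s : S → ℤ) (T : ℕ) (C : ℝ), T0 ≤ T ∧
      ∀ ι, ∃ (exc : ℤ → Prop) (a : ℤ → S → K), Sm exc ε C ∧
        (∀ n, ¬ exc n → ∀ δ, RelW Rel ι W n (n + s δ) (a n δ)) ∧
        ∀ A : ℤ, ∃ (A' L : ℕ), A' + L ≤ T ∧ β * T ≤ L ∧
          ∀ i < L, ¬ exc (A + A' + i) → Contr R V (a (A + A' + i))) :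
    ∀ α > (0 : ℝ), ∃ b : ℝ, ∀ ι (A : ℤ) (M : ℕ), ‖∑ i ∈ range M, Ψ0 ι (A + i)‖ ≤ α * M + b := by
  classical
  obtain ⟨c, hc0, hc1, hc⟩ := exists_contr R V S
  have hS : (0 : ℝ) < Fintype.card S := by exact_mod_cast Fintype.card_pos
  set St : ℝ → Prop := fun α => ∃ (W : ℕ) (b D : ℝ) (Ψ : I → ℤ → E), 0 ≤ b ∧
    (∀ ι n, Ψ ι n ∈ V) ∧ (∀ ι n, ‖Ψ ι n‖ ≤ 1) ∧
    (∀ ι n n' a, RelW Rel ι W n n' a → Ψ ι n' = R a (Ψ ι n)) ∧
    (∀ ι (A : ℤ) (M : ℕ), ‖∑ i ∈ range M, Ψ ι (A + i) - ∑ i ∈ range M, Ψ0 ι (A + i)‖ ≤ D) ∧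
    (∀ ι (A : ℤ) (M : ℕ), ∑ i ∈ range M, ‖Ψ ι (A + i)‖ ≤ α * M + b) with hSt
  set β' := min β 1 with hβ'
  have hβ'0 : 0 < β' := by positivity
  have hβ'1 : β' ≤ 1 := min_le_right _ _
  set γ := (1 - c) * β' / 2 with hγ
  have hγ0 : 0 < γ := by have : 0 < 1 - c := by linarith
                         positivity
  have hγ1 : γ ≤ 1 / 2 := by
    rw [hγ]; linarith only [mul_le_one₀ (sub_le_self 1 hc0) hβ'0.le hβ'1]
  have st1 : St 1 := ⟨0, 0, 0, Ψ0, le_rfl, hV, h1, fun ι n n' a h => hR ι n n' a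
    (by simpa using h 0 (by simp)), fun ι A M => by simp, fun ι A M => by
      refine (sum_le_sum fun (i : ℕ) _ => h1 ι (A + i)).trans ?_
      simp⟩
  have step : ∀ α > (0 : ℝ), St α → St (α * (1 - γ)) := by
    rintro α hα ⟨W, b, D, Ψ, hb, hV, h1, hR, hD, hsum⟩
    obtain ⟨T0, hT0⟩ := exists_nat_ge (6 * b / (α * γ))
    obtain ⟨s, T, C, hT, hKL⟩ := KL W (α * γ / 2) (by positivity) (T0 + 1)
    have hT1 : (T0 : ℝ) + 1 ≤ T := by exact_mod_cast hT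
    have hTb : 3 * b ≤ α * γ / 2 * T := by
      rw [div_le_iff₀ (by positivity)] at hT0
      have : 0 < α * γ := by positivity
      linarith only [hT0, this, mul_le_mul_of_nonneg_right hT1 this.le]
    set Ψ' : I → ℤ → E := fun ι n => ((Fintype.card S : ℂ)⁻¹) • ∑ δ, Ψ ι (n + s δ) with hΨ'
    have nrm : ∀ x : E, ‖((Fintype.card S : ℂ)⁻¹) • x‖ = ‖x‖ / Fintype.card S := fun x => by
      rw [norm_smul, norm_inv, Complex.norm_natCast, div_eq_inv_mul]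
    have h1' : ∀ ι n, ‖Ψ' ι n‖ ≤ 1 := fun ι n => by
      rw [hΨ']; dsimp only; rw [nrm, div_le_one hS]
      exact (norm_sum_le_of_le _ (n := fun _ => (1 : ℝ)) fun δ _ => h1 ι _).trans (by simp)
    refine ⟨W + ∑ δ, (s δ).natAbs, T + |C|, D + ∑ δ, 2 * |(s δ : ℝ)|, Ψ', by positivity,
      fun ι n => V.smul_mem _ (V.sum_mem fun δ _ => hV ι _), h1', ?_, ?_, ?_⟩
    · intro ι n n' a h
      simp only [hΨ', map_smul, map_sum]
      congr 1
      refine sum_congr rfl fun δ _ => hR ι _ _ a fun j hj => ?_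
      have h2 : (s δ).natAbs ≤ ∑ δ, (s δ).natAbs :=
        single_le_sum (f := fun δ => (s δ).natAbs) (fun _ _ => Nat.zero_le _) (mem_univ δ)
      have := h (s δ + j) (by
        have h3 := abs_add_le (s δ) j
        have h4 : |s δ| = (s δ).natAbs := Int.abs_eq_natAbs _
        rw [Nat.cast_add]
        generalize ∑ δ, (s δ).natAbs = X at h2 ⊢
        omega)
      simpa only [add_assoc] using this
    · intro ι A M
      have h2 : ∑ i ∈ range M, Ψ' ι (A + i) - ∑ i ∈ range M, Ψ ι (A + i) =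
          ((Fintype.card S : ℂ)⁻¹) • ∑ δ,
            (∑ i ∈ range M, Ψ ι (A + i + s δ) - ∑ i ∈ range M, Ψ ι (A + i)) := by
        simp only [hΨ']
        rw [← smul_sum, sum_comm, sum_sub_distrib, smul_sub, sum_const, card_univ,
          ← Nat.cast_smul_eq_nsmul ℂ, smul_smul, inv_mul_cancel₀ (by simp), one_smul]
      have h3 : ‖∑ i ∈ range M, Ψ' ι (A + i) - ∑ i ∈ range M, Ψ ι (A + i)‖
          ≤ ∑ δ, 2 * |(s δ : ℝ)| := by
        rw [h2, nrm]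
        have h4 : (1 : ℝ) ≤ Fintype.card S := by exact_mod_cast Fintype.card_pos
        exact (div_le_self (norm_nonneg _) h4).trans
          (norm_sum_le_of_le _ fun δ _ => shift_sum (Ψ ι) (h1 ι) A M (s δ))
      have h4 := norm_sub_le_norm_sub_add_norm_sub (∑ i ∈ range M, Ψ' ι (A + i))
        (∑ i ∈ range M, Ψ ι (A + i)) (∑ i ∈ range M, Ψ0 ι (A + i))
      linarith [hD ι A M]
    · intro ι
      obtain ⟨exc, a, hexc, hrel, hrun⟩ := hKL ι
      set u : ℤ → ℝ := fun n => ‖Ψ' ι n‖ - if exc n then 1 else 0 with hu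
      have hΨ'' : ∀ n, ¬ exc n → Ψ' ι n = ((Fintype.card S : ℂ)⁻¹) • ∑ δ, R (a n δ) (Ψ ι n) :=
        fun n hn => by
          simp only [hΨ']; congr 1
          exact sum_congr rfl fun δ _ => hR ι _ _ _ (hrel n hn δ)
      have u1 : ∀ n, u n ≤ 1 := fun n => by
        simp only [hu]; have := h1' ι n; split_ifs <;> linarith
      have u2 : ∀ n, u n ≤ ‖Ψ ι n‖ := fun n => by
        simp only [hu]
        split_ifs with hn
        · linarith [h1' ι n, norm_nonneg (Ψ ι n)]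
        · rw [sub_zero, hΨ'' n hn, nrm, div_le_iff₀ hS]
          exact (norm_sum_le_of_le _ (n := fun _ => ‖Ψ ι n‖) fun δ _ => by simp).trans
            (by simp [mul_comm])
      have u3 : ∀ n, (¬ exc n → Contr R V (a n)) → u n ≤ c * ‖Ψ ι n‖ := fun n h => by
        simp only [hu]
        split_ifs with hn
        · have : 0 ≤ c * ‖Ψ ι n‖ := by positivity
          linarith [h1' ι n]
        · rw [sub_zero, hΨ'' n hn, nrm, div_le_iff₀ hS]
          exact (hc _ (h hn) _ (hV ι n)).trans (le_of_eq (by ring))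
      have block : ∀ A : ℤ, ∑ i ∈ range T, u (A + i) ≤ α * (1 - γ - γ / 2) * T := by
        intro A
        obtain ⟨A', L, hL1, hL2, hL3⟩ := hrun A
        obtain ⟨L', hL'⟩ := Nat.exists_eq_add_of_le hL1
        have e1 := hsum ι A A'
        have e2 := hsum ι (A + A') L
        have e3 := hsum ι (A + A' + L) L'
        have f1 : ∑ i ∈ range A', u (A + i) ≤ α * A' + b :=
          (sum_le_sum fun i _ => u2 _).trans e1
        have f2 : ∑ i ∈ range L, u (A + ((A' + i : ℕ) : ℤ)) ≤ c * (α * L + b) := by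
          refine le_trans ?_ (mul_le_mul_of_nonneg_left e2 hc0)
          rw [mul_sum]
          refine sum_le_sum fun i hi => ?_
          push_cast; rw [← add_assoc]
          exact u3 _ (hL3 i (mem_range.mp hi))
        have f3 : ∑ i ∈ range L', u (A + ((A' + L + i : ℕ) : ℤ)) ≤ α * L' + b := by
          refine le_trans (sum_le_sum fun i _ => ?_) e3
          push_cast; rw [← add_assoc, ← add_assoc]; exact u2 _
        have hTr : (T : ℝ) = A' + L + L' := by exact_mod_cast hL'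
        have hL4 : β' * T ≤ L := le_trans (by gcongr; exact min_le_left _ _) hL2
        conv_lhs => rw [hL', sum_range_add, sum_range_add]
        have g1 : α * ((1 - c) * (β' * T)) ≤ α * ((1 - c) * L) := by
          have : 0 ≤ 1 - c := by linarith
          gcongr
        have g2 : c * b ≤ b := mul_le_of_le_one_left hb hc1.le
        have g3 : α * (1 - γ - γ / 2) * T
            = α * T - α * ((1 - c) * (β' * T)) + α * γ / 2 * T := by rw [hγ]; ring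
        rw [g3]
        have g4 : α * T = α * A' + α * L + α * L' := by rw [hTr]; ring
        linarith only [f1, f2, f3, g1, g2, g4, hTb]
      have all : ∀ (M : ℕ) (A : ℤ), ∑ i ∈ range M, u (A + i) ≤ α * (1 - γ - γ / 2) * M + T := by
        intro M
        have hpos : 0 ≤ α * (1 - γ - γ / 2) := mul_nonneg hα.le (by linarith)
        induction M using Nat.strong_induction_on with
        | _ M ih =>
          intro A
          by_cases hM : M < T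
          · have h2 : ∑ i ∈ range M, u (A + i) ≤ M :=
              (sum_le_sum fun i _ => u1 _).trans (by simp)
            have h3 : (M : ℝ) ≤ T := by exact_mod_cast hM.le
            have : 0 ≤ α * (1 - γ - γ / 2) * M := by positivity
            linarith
          · obtain ⟨M', rfl⟩ := Nat.exists_eq_add_of_le (not_lt.mp hM)
            rw [sum_range_add]
            have h2 := ih M' (by omega) (A + T)
            have h3 := block A
            push_cast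
            simp only [← add_assoc]
            linarith
      intro A M
      have h2 := all M A
      have h3 := hexc.sum_le A M
      simp only [hu, sum_sub_distrib] at h2
      have := le_abs_self C
      linarith only [h2, h3, this]
  have iter : ∀ n : ℕ, St ((1 - γ) ^ n) := by
    intro n
    induction n with
    | zero => simpa using st1
    | succ n ih => rw [pow_succ]; exact step _ (pow_pos (by linarith) n) ih
  intro α hα
  obtain ⟨n, hn⟩ := exists_pow_lt_of_lt_one hα (y := 1 - γ) (by linarith)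
  obtain ⟨W, b, D, Ψ, -, -, -, -, hD, hsum⟩ := iter n
  refine ⟨b + D, fun ι A M => ?_⟩
  have h2 := hD ι A M
  have h3 := (norm_sum_le _ _).trans (hsum ι A M)
  have h4 := norm_sub_norm_le (∑ i ∈ range M, Ψ0 ι (A + i)) (∑ i ∈ range M, Ψ ι (A + i))
  rw [norm_sub_rev] at h4
  have h5 : (1 - γ) ^ n * M ≤ α * M := by gcongr
  linarith

end Engine

end Pool.Agent.PT
end

-- merged part: Pool.Agent.Work.MP_cf06ef_an.P5
section
set_option autoImplicit false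
set_option linter.unusedSectionVars false
open Finset

namespace Pool.Agent.PT

/-- a graded labelled substitution of intervals. -/
structure GS (Λ C G : Type) [AddCommGroup Λ] [Group G] extends PM Λ where
  lam : C → Λ
  D : ℕ → C → C → G → Λ → Prop
  B : ℝ
  lam_pos : ∀ t, 0 < r (lam t)
  D_refl : ∀ t, D 0 t t 1 0
  D_comp : ∀ {k l t t' t'' κ κ' o o'}, D k t t' κ o → D l t' t'' κ' o' →
    D (k + l) t t'' (κ * κ') (T l o + o')
  D_bd : ∀ {k t t' κ o}, D k t t' κ o → 0 ≤ r o ∧ r o + r (lam t') ≤ θ ^ k * r (lam t)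
  D_cover : ∀ k t y, 0 ≤ y → y < θ ^ k * r (lam t) →
    ∃ t' κ o, D k t t' κ o ∧ r o ≤ y ∧ y < r o + r (lam t')
  D_uniq : ∀ {k t t1 t2 κ1 κ2 o1 o2} y, D k t t1 κ1 o1 → D k t t2 κ2 o2 →
    r o1 ≤ y → y < r o1 + r (lam t1) → r o2 ≤ y → y < r o2 + r (lam t2) →
    t1 = t2 ∧ κ1 = κ2 ∧ o1 = o2
  D_N : ∀ {k t t' κ o}, D k t t' κ o → N o ≤ B

/-- primitive, with coincidences and an interior fixed tile. -/
structure SST (Λ C G : Type) [AddCommGroup Λ] [Group G] extends GS Λ C G where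
  x : C
  os : Λ
  center : D 1 x x 1 os
  os_pos : 0 < r os
  os_lt : r os + r (lam x) < θ * r (lam x)
  prim : ∀ t t' κ, ∃ o, D 1 t t' κ o
  co : ∀ t t' o y, 0 ≤ y → y < r (lam t) → r o ≤ y → y < r o + r (lam t') →
    ∃ k u κ κ' o1 o2, D k t u κ o1 ∧ D k t' u κ' o2 ∧ o1 = T k o + o2
  φ_pos : ∀ t, 0 < φ (lam t)

namespace GS
variable {Λ C G : Type} [AddCommGroup Λ] [Group G] (S : GS Λ C G)

lemma D_first (k : ℕ) (t : C) : ∃ t' κ, S.D k t t' κ 0 := by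
  obtain ⟨t', κ, o, h, h1, -⟩ := S.D_cover k t 0 le_rfl (mul_pos (S.θpow_pos k) (S.lam_pos t))
  have : o = 0 := S.r_inj (by rw [map_zero]; exact le_antisymm h1 (S.D_bd h).1)
  exact ⟨t', κ, this ▸ h⟩

lemma exists_lam [Finite C] : ∃ lm lM : ℝ, 0 < lm ∧ 0 < lM ∧
    ∀ t, lm ≤ S.r (S.lam t) ∧ S.r (S.lam t) ≤ lM ∧ S.N (S.lam t) ≤ lM := by
  rcases isEmpty_or_nonempty C with h | h
  · exact ⟨1, 1, one_pos, one_pos, fun t => (h.false t).elim⟩
  · obtain ⟨a, ha⟩ := Finite.exists_min fun t => S.r (S.lam t)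
    obtain ⟨b, hb⟩ := Finite.exists_max fun t => S.r (S.lam t) + S.N (S.lam t)
    refine ⟨_, _, S.lam_pos a, add_pos_of_pos_of_nonneg (S.lam_pos b) (S.N_nonneg (S.lam b)),
      fun t => ⟨ha t, ?_, ?_⟩⟩
    · linarith [hb t, S.N_nonneg (S.lam t)]
    · linarith [hb t, S.lam_pos t]

end GS

namespace SST
variable {Λ C G : Type} [AddCommGroup Λ] [Group G] (S : SST Λ C G)

def P : ℕ → Λ
  | 0 => 0
  | k + 1 => S.T 1 (P k) + S.os

noncomputable def z : ℝ := S.r S.os / (S.θ - 1)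

lemma z_mul : (S.θ - 1) * S.z = S.r S.os := by
  have := S.one_lt
  rw [z]; field_simp [(sub_pos.mpr this).ne']

lemma z_pos : 0 < S.z := div_pos S.os_pos (sub_pos.mpr S.one_lt)

lemma z_lt : S.z < S.r (S.lam S.x) := by
  rw [z, div_lt_iff₀ (sub_pos.mpr S.one_lt)]; linarith [S.os_lt]

lemma r_P (k : ℕ) : S.r (S.P k) = (S.θ ^ k - 1) * S.z := by
  induction k with
  | zero => simp [P]
  | succ k ih => rw [P, map_add, S.r_T, ih, ← S.z_mul]; ring

lemma D_P (k : ℕ) : S.D k S.x S.x 1 (S.P k) := by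
  induction k with
  | zero => exact S.D_refl _
  | succ k ih => simpa [P] using S.D_comp ih S.center

lemma P_add (k l : ℕ) : S.P (k + l) = S.T l (S.P k) + S.P l :=
  S.r_inj (by simp only [map_add, S.r_T, r_P]; ring)

/-- the inflation on positions. -/
def A (k : ℕ) (o : Λ) : Λ := S.T k o - S.P k

lemma r_A (k : ℕ) (o : Λ) : S.r (S.A k o) = S.θ ^ k * (S.r o - S.z) + S.z := by
  rw [A, map_sub, S.r_T, r_P]; ring

lemma A_zero (o : Λ) : S.A 0 o = o := by simp [A, P, S.T_zero]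

lemma A_add (k : ℕ) (o v : Λ) : S.A k (o + v) = S.A k o + S.T k v := by
  rw [A, A, map_add]; abel

lemma A_A (j k : ℕ) (o : Λ) : S.A (j + k) o = S.A j (S.A k o) :=
  S.r_inj (by simp only [r_A]; ring)

/-- the self-similar tiling of the line. -/
def H (t : C) (g : G) (o : Λ) : Prop := ∃ j, S.D j S.x t g (o + S.P j)

lemma D_lift {j t g o} (h : S.D j S.x t g (o + S.P j)) (l : ℕ) :
    S.D (l + j) S.x t g (o + S.P (l + j)) := by
  have := S.D_comp (S.D_P l) h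
  rw [one_mul] at this
  convert this using 1
  rw [P_add]; abel

lemma H_center : S.H S.x 1 0 := ⟨0, by simpa [P] using S.D_refl S.x⟩

lemma H_D {t g o k t' κ o'} (h : S.H t g o) (hd : S.D k t t' κ o') :
    S.H t' (g * κ) (S.A k o + o') := by
  obtain ⟨j, hj⟩ := h
  refine ⟨j + k, ?_⟩
  convert S.D_comp hj hd using 1
  rw [P_add, A, map_add]; abel

lemma H_cover (y : ℝ) : ∃ t g o, S.H t g o ∧ S.r o ≤ y ∧ y < S.r o + S.r (S.lam t) := by
  have hz := S.z_pos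
  have hz' := sub_pos.mpr S.z_lt
  obtain ⟨j1, h1⟩ := S.exists_θpow_ge ((S.z - y) / S.z)
  obtain ⟨j2, h2⟩ := S.exists_θpow_ge ((y - S.z + 1) / (S.r (S.lam S.x) - S.z))
  have h3 := h1 (max j1 j2) (le_max_left _ _)
  have h4 := h2 (max j1 j2) (le_max_right _ _)
  rw [div_le_iff₀ hz] at h3
  rw [div_le_iff₀ hz'] at h4
  obtain ⟨t, g, o, hd, h5, h6⟩ := S.D_cover (max j1 j2) S.x (y + S.r (S.P (max j1 j2)))
    (by rw [r_P]; linarith) (by rw [r_P]; linarith)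
  refine ⟨t, g, o - S.P (max j1 j2), ⟨max j1 j2, by simpa using hd⟩, ?_, ?_⟩ <;>
    rw [map_sub] <;> linarith

lemma H_uniq {t1 t2 g1 g2 o1 o2} (y : ℝ) (h1 : S.H t1 g1 o1) (h2 : S.H t2 g2 o2)
    (a1 : S.r o1 ≤ y) (a2 : y < S.r o1 + S.r (S.lam t1))
    (a3 : S.r o2 ≤ y) (a4 : y < S.r o2 + S.r (S.lam t2)) : t1 = t2 ∧ g1 = g2 ∧ o1 = o2 := by
  obtain ⟨j1, h1⟩ := h1
  obtain ⟨j2, h2⟩ := h2
  have h3 := S.D_lift h1 j2
  have h4 := S.D_lift h2 j1
  rw [add_comm j1 j2] at h4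
  obtain ⟨e1, e2, e3⟩ := S.D_uniq (y + S.r (S.P (j2 + j1))) h3 h4 (by rw [map_add]; linarith)
    (by rw [map_add]; linarith) (by rw [map_add]; linarith) (by rw [map_add]; linarith)
  exact ⟨e1, e2, add_right_cancel e3⟩

lemma H_uniq' {t1 t2 g1 g2 o} (h1 : S.H t1 g1 o) (h2 : S.H t2 g2 o) : t1 = t2 ∧ g1 = g2 := by
  obtain ⟨a, b, -⟩ := S.H_uniq (S.r o) h1 h2 le_rfl (by linarith [S.lam_pos t1]) le_rfl
    (by linarith [S.lam_pos t2])
  exact ⟨a, b⟩

lemma H_N {t g o} (h : S.H t g o) : S.N o ≤ 2 * S.B := by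
  obtain ⟨j, hj⟩ := h
  have := S.N_sub (o + S.P j) (S.P j)
  rw [add_sub_cancel_right] at this
  linarith [S.D_N hj, S.D_N (S.D_P j)]

lemma B_nonneg : 0 ≤ S.B := (S.N_nonneg _).trans (S.D_N S.center)

lemma H_parent {t g o} (h : S.H t g o) (k : ℕ) : ∃ T g0 o0 κ o', S.H T g0 o0 ∧ S.D k T t κ o' ∧
    g = g0 * κ ∧ o = S.A k o0 + o' := by
  have hp := S.θpow_pos k
  obtain ⟨T, g0, o0, h0, h1, h2⟩ := S.H_cover ((S.r o - S.z) / S.θ ^ k + S.z)
  rw [← sub_le_iff_le_add, le_div_iff₀ hp] at h1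
  rw [← lt_sub_iff_add_lt, div_lt_iff₀ hp] at h2
  obtain ⟨t', κ, o', hd, h3, h4⟩ := S.D_cover k T (S.r o - S.r (S.A k o0))
    (by rw [r_A]; linarith) (by rw [r_A]; linarith)
  obtain ⟨e1, e2, e3⟩ := S.H_uniq (S.r o) h (S.H_D h0 hd) le_rfl (by linarith [S.lam_pos t])
    (by rw [map_add]; linarith) (by rw [map_add]; linarith)
  exact ⟨T, g0, o0, κ, o', h0, e1 ▸ hd, e2, e3⟩

def Pos (o : Λ) : Prop := ∃ t g, S.H t g o

lemma H_le {t g o o'} (h : S.H t g o) (h' : S.Pos o') (hlt : S.r o < S.r o') :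
    S.r (o + S.lam t) ≤ S.r o' := by
  obtain ⟨t', g', h'⟩ := h'
  by_contra hc
  rw [map_add] at hc
  obtain ⟨-, -, e⟩ := S.H_uniq (S.r o') h h' hlt.le (not_le.mp hc) le_rfl
    (by linarith [S.lam_pos t'])
  rw [e] at hlt; exact lt_irrefl _ hlt

lemma Pos_next {t g o} (h : S.H t g o) : S.Pos (o + S.lam t) := by
  obtain ⟨t', g', o', h', h1, h2⟩ := S.H_cover (S.r (o + S.lam t))
  rw [map_add] at h1 h2
  have hl := S.lam_pos t
  have h3 : S.r o < S.r o' := by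
    by_contra hc
    obtain ⟨e1, -, e3⟩ := S.H_uniq (S.r o) h h' le_rfl (by linarith) (not_lt.mp hc) (by linarith)
    rw [← e1, ← e3] at h2; exact lt_irrefl _ h2
  have h4 := S.H_le h ⟨t', g', h'⟩ h3
  have : o + S.lam t = o' := S.r_inj (le_antisymm h4 (by rw [map_add]; exact h1))
  exact ⟨t', g', this ▸ h'⟩

lemma Pos_A {o} (h : S.Pos o) (k : ℕ) : S.Pos (S.A k o) := by
  obtain ⟨t, g, h⟩ := h
  obtain ⟨t', κ, hd⟩ := S.D_first k t
  exact ⟨t', g * κ, by simpa using S.H_D h hd⟩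

variable [Finite C]

lemma Pos_mono {o o'} (h : S.Pos o) (h' : S.Pos o') (hle : S.r o ≤ S.r o') : S.φ o ≤ S.φ o' := by
  obtain ⟨lm, lM, hlm, -, hl⟩ := S.exists_lam
  obtain ⟨n, hn⟩ := exists_nat_ge ((S.r o' - S.r o) / lm)
  rw [div_le_iff₀ hlm] at hn
  induction n generalizing o with
  | zero =>
    have : o = o' := S.r_inj (le_antisymm hle (by simpa using hn))
    rw [this]
  | succ n ih =>
    rcases hle.eq_or_lt with he | hlt
    · rw [S.r_inj he]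
    · obtain ⟨t, g, h⟩ := h
      have h1 := ih (S.Pos_next h) (S.H_le h h' hlt) (by
        rw [map_add]; push_cast at hn; linarith [(hl t).1])
      rw [map_add] at h1
      linarith [S.φ_pos t]

/-- the integer `n` lies in the level `j` tile of type `t` and position `o`. -/
def InZ (j : ℕ) (t : C) (o : Λ) (n : ℤ) : Prop :=
  S.φ (S.A j o) ≤ n ∧ n < S.φ (S.A j (o + S.lam t))

lemma A_mono {o o'} (h : S.Pos o) (h' : S.Pos o') (hle : S.r o ≤ S.r o') (j : ℕ) :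
    S.φ (S.A j o) ≤ S.φ (S.A j o') :=
  S.Pos_mono (S.Pos_A h j) (S.Pos_A h' j) (by
    rw [r_A, r_A]; have := S.θpow_pos j; nlinarith)

lemma len_pos (j : ℕ) (t : C) : 0 < S.φ (S.T j (S.lam t)) := by
  obtain ⟨o, ho⟩ := S.prim S.x t 1
  have h := S.H_D S.H_center ho
  obtain ⟨t', κ, hd⟩ := S.D_first j t
  have h1 := S.H_D h hd
  have h2 := S.Pos_mono (S.Pos_next h1) (S.Pos_A (S.Pos_next h) j) (by
    have := (S.D_bd hd).2
    rw [S.A_add j _ (S.lam t)]; simp only [map_add, map_zero, S.r_T] at this ⊢; linarith)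
  rw [S.A_add j _ (S.lam t)] at h2
  simp only [map_add, map_zero] at h2
  linarith [S.φ_pos t']

lemma InZ_uniq {j t1 t2 g1 g2 o1 o2 n} (h1 : S.H t1 g1 o1) (h2 : S.H t2 g2 o2)
    (a1 : S.InZ j t1 o1 n) (a2 : S.InZ j t2 o2 n) : t1 = t2 ∧ g1 = g2 ∧ o1 = o2 := by
  rcases lt_trichotomy (S.r o1) (S.r o2) with h | h | h
  · have := S.A_mono (S.Pos_next h1) ⟨_, _, h2⟩ (S.H_le h1 ⟨_, _, h2⟩ h) j
    linarith [a1.2, a2.1]
  · have e := S.r_inj h
    subst e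
    obtain ⟨a, b⟩ := S.H_uniq' h1 h2
    exact ⟨a, b, rfl⟩
  · have := S.A_mono (S.Pos_next h2) ⟨_, _, h1⟩ (S.H_le h2 ⟨_, _, h1⟩ h) j
    linarith [a2.2, a1.1]

lemma child_bd {T g o k t κ o'} (h : S.H T g o) (hd : S.D k T t κ o') (j : ℕ) :
    S.φ (S.A (j + k) o) ≤ S.φ (S.A j (S.A k o + o')) ∧
    S.φ (S.A j (S.A k o + o' + S.lam t)) ≤ S.φ (S.A (j + k) (o + S.lam T)) := by
  have h1 := S.H_D h hd
  have h2 := S.D_bd hd
  rw [A_A, A_A]
  constructor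
  · exact S.A_mono (S.Pos_A ⟨_, _, h⟩ k) ⟨_, _, h1⟩ (by rw [map_add]; linarith) j
  · exact S.A_mono (S.Pos_next h1) (S.Pos_A (S.Pos_next h) k) (by
      rw [S.A_add k o]; simp only [map_add, S.r_T]; linarith) j

lemma InZ_up {T g o k t κ o' j n} (h : S.H T g o) (hd : S.D k T t κ o')
    (hn : S.InZ j t (S.A k o + o') n) : S.InZ (j + k) T o n :=
  ⟨(S.child_bd h hd j).1.trans hn.1, hn.2.trans_le (S.child_bd h hd j).2⟩

lemma InZ_cover0 (n : ℤ) : ∃ t g o, S.H t g o ∧ S.InZ 0 t o n := by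
  obtain ⟨t, g, o, h, h1, -⟩ := S.H_cover ((n - 2 * S.B) / S.s)
  rw [le_div_iff₀ S.s_pos] at h1
  have h2 : S.φ o ≤ n := by
    have := (abs_le.mp (S.approx o)).2
    have h3 : (S.φ o : ℝ) ≤ n := by linarith [S.H_N h]
    exact_mod_cast h3
  obtain ⟨m, hm⟩ : ∃ m : ℕ, n - S.φ o ≤ m := ⟨(n - S.φ o).toNat, Int.self_le_toNat _⟩
  clear h1
  induction m generalizing t g o with
  | zero =>
    refine ⟨t, g, o, h, ?_⟩
    simp only [InZ, A_zero, map_add]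
    exact ⟨h2, by have := S.φ_pos t; push_cast at hm; omega⟩
  | succ m ih =>
    by_cases hc : n < S.φ (o + S.lam t)
    · exact ⟨t, g, o, h, by simp only [InZ, A_zero]; exact ⟨h2, hc⟩⟩
    · obtain ⟨t', g', h'⟩ := S.Pos_next h
      refine ih t' g' _ h' (not_lt.mp hc) ?_
      have := S.φ_pos t
      rw [map_add]; push_cast at hm; omega

lemma InZ_cover (j : ℕ) (n : ℤ) : ∃ t g o, S.H t g o ∧ S.InZ j t o n := by
  obtain ⟨t, g, o, h, hn⟩ := S.InZ_cover0 n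
  obtain ⟨T, g0, o0, κ, o', h0, hd, -, rfl⟩ := S.H_parent h j
  exact ⟨T, g0, o0, h0, by simpa using S.InZ_up h0 hd hn⟩

lemma InZ_down {T g o j k n} (h : S.H T g o) (hn : S.InZ (j + k) T o n) :
    ∃ t κ o', S.D k T t κ o' ∧ S.InZ j t (S.A k o + o') n := by
  obtain ⟨t, g1, o1, h1, hn1⟩ := S.InZ_cover j n
  obtain ⟨T', g0, o0, κ, o', h0, hd, -, rfl⟩ := S.H_parent h1 k
  obtain ⟨rfl, -, rfl⟩ := S.InZ_uniq h h0 hn (S.InZ_up h0 hd hn1)
  exact ⟨t, κ, o', hd, hn1⟩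

noncomputable def typ (n : ℤ) : C := (S.InZ_cover0 n).choose
noncomputable def lab (n : ℤ) : G := (S.InZ_cover0 n).choose_spec.choose
noncomputable def pos (n : ℤ) : Λ := (S.InZ_cover0 n).choose_spec.choose_spec.choose
noncomputable def off (n : ℤ) : ℤ := n - S.φ (S.pos n)

lemma st_H (n : ℤ) : S.H (S.typ n) (S.lab n) (S.pos n) :=
  (S.InZ_cover0 n).choose_spec.choose_spec.choose_spec.1

lemma st_In (n : ℤ) : S.InZ 0 (S.typ n) (S.pos n) n :=
  (S.InZ_cover0 n).choose_spec.choose_spec.choose_spec.2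

lemma st_eq {t g o n} (h : S.H t g o) (hn : S.InZ 0 t o n) :
    S.typ n = t ∧ S.lab n = g ∧ S.pos n = o := S.InZ_uniq (S.st_H n) h (S.st_In n) hn

/-- same local state, label multiplied on the left by `a`. -/
def Eqv (n n' : ℤ) (a : G) : Prop :=
  S.typ n' = S.typ n ∧ S.off n' = S.off n ∧ S.lab n' = a * S.lab n

lemma transfer {T g g' o v j n} (h : S.H T g o) (h' : S.H T g' (o + v)) (hn : S.InZ j T o n) :
    S.Eqv n (n + S.φ (S.T j v)) (g' * g⁻¹) := by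
  obtain ⟨t, κ, o', hd, hn1⟩ := S.InZ_down (j := 0) h (by simpa using hn)
  obtain ⟨e1, e2, e3⟩ := S.st_eq (S.H_D h hd) hn1
  have hn2 : S.InZ 0 t (S.A j (o + v) + o') (n + S.φ (S.T j v)) := by
    simp only [InZ, A_zero, A_add, map_add, S.T_zero] at hn1 ⊢
    constructor <;> linarith [hn1.1, hn1.2]
  obtain ⟨f1, f2, f3⟩ := S.st_eq (S.H_D h' hd) hn2
  refine ⟨by rw [e1, f1], ?_, by rw [e2, f2]; group⟩
  rw [off, off, e3, f3, A_add]; simp only [map_add]; ring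

end SST

end Pool.Agent.PT
end

-- merged part: Pool.Agent.Work.MP_cf06ef_an.P10
section
set_option autoImplicit false
set_option linter.unusedSectionVars false
open Finset

namespace Pool.Agent.PT

lemma exists_idem {X : Type} [Finite X] (Rel : ℕ → X → X → Prop)
    (h : ∀ k l x z, Rel (k + l) x z ↔ ∃ y, Rel k x y ∧ Rel l y z) :
    ∃ s, s ≠ 0 ∧ ∀ j, Rel (s * (j + 1)) = Rel s := by
  obtain ⟨i, j, hij, he⟩ := Finite.exists_ne_map_eq_of_infinite Rel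
  wlog hlt : i < j generalizing i j
  · exact this j i hij.symm he.symm (by omega)
  obtain ⟨d, rfl⟩ := Nat.exists_eq_add_of_le hlt.le
  have hd : d ≠ 0 := by omega
  have h1 : ∀ m, Rel (i + m + d) = Rel (i + m) := fun m => by
    funext x z
    rw [add_right_comm, h, h, ← he]
  have h2 : ∀ n m, Rel (i + m + d * n) = Rel (i + m) := by
    intro n m
    induction n with
    | zero => simp
    | succ n ih => rw [mul_add, mul_one, ← add_assoc, add_assoc i m, h1, ← add_assoc, ih]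
  obtain ⟨m, hm⟩ : ∃ m, d * (i + 1) = i + m :=
    Nat.exists_eq_add_of_le (by nlinarith [Nat.pos_of_ne_zero hd])
  refine ⟨d * (i + 1), by positivity, fun j => ?_⟩
  rw [mul_add _ j 1, mul_one, add_comm, mul_assoc]
  nth_rw 1 [hm]
  rw [h2, hm]

namespace GS
variable {Λ A : Type} [AddCommGroup Λ] (B : GS Λ A Unit)

def In (τ : A × Λ) (y : ℝ) : Prop := B.r τ.2 ≤ y ∧ y < B.r τ.2 + B.r (B.lam τ.1)

def Dt (k : ℕ) (τ τ' : A × Λ) : Prop := B.D k τ.1 τ'.1 () (τ'.2 - B.T k τ.2)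

lemma Dt_comp {k l τ τ' τ''} (h : B.Dt k τ τ') (h' : B.Dt l τ' τ'') : B.Dt (k + l) τ τ'' := by
  have := B.D_comp h h'
  unfold Dt
  convert this using 1
  rw [add_comm k l, B.T_add, map_sub]; abel

lemma Dt_cover (k : ℕ) {τ y} (h : B.In τ (y / B.θ ^ k)) : ∃ τ', B.Dt k τ τ' ∧ B.In τ' y := by
  have hp := B.θpow_pos k
  obtain ⟨h1, h2⟩ := h
  rw [le_div_iff₀ hp] at h1
  rw [div_lt_iff₀ hp] at h2
  obtain ⟨t, κ, o, hd, h3, h4⟩ := B.D_cover k τ.1 (y - B.θ ^ k * B.r τ.2) (by linarith) (by linarith)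
  refine ⟨(t, o + B.T k τ.2), by simpa [Dt] using hd, ?_, ?_⟩ <;>
    simp only [map_add, B.r_T] <;> linarith

lemma Dt_uniq {k τ τ1 τ2 y} (h1 : B.Dt k τ τ1) (h2 : B.Dt k τ τ2) (a1 : B.In τ1 y)
    (a2 : B.In τ2 y) : τ1 = τ2 := by
  obtain ⟨e1, -, e2⟩ := B.D_uniq (y - B.r (B.T k τ.2)) h1 h2 (by rw [map_sub]; linarith [a1.1])
    (by rw [map_sub]; linarith [a1.2]) (by rw [map_sub]; linarith [a2.1])
    (by rw [map_sub]; linarith [a2.2])
  exact Prod.ext e1 (sub_left_injective e2)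

lemma Dt_zero {τ τ'} (h : B.Dt 0 τ τ') : τ' = τ := by
  have h0 : B.Dt 0 τ τ := by simpa [Dt, B.T_zero] using B.D_refl τ.1
  obtain ⟨b1, b2⟩ := B.D_bd h
  rw [B.T_zero, map_sub] at b1 b2
  have := B.lam_pos τ'.1
  exact B.Dt_uniq (y := B.r τ'.2) h h0 ⟨le_rfl, by linarith⟩ ⟨by linarith, by linarith⟩

def Good {I : Type} (τ : I → A × Λ) : Prop :=
  ∀ k (τ' : I → A × Λ) y, (∀ i, B.Dt k (τ i) (τ' i) ∧ B.In (τ' i) y) → Function.Injective τ'

lemma Good.desc {I : Type} {τ τ' : I → A × Λ} {k} (h : B.Good τ) (h' : ∀ i, B.Dt k (τ i) (τ' i)) :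
    B.Good τ' := fun l τ'' y h'' => h (k + l) τ'' y fun i => ⟨B.Dt_comp (h' i) (h'' i).1, (h'' i).2⟩

lemma Good.shift {I : Type} {τ : I → A × Λ} (h : B.Good τ) (v : Λ) :
    B.Good fun i => ((τ i).1, (τ i).2 + v) := by
  intro k τ' y h' i j hij
  refine h k (fun i => ((τ' i).1, (τ' i).2 - B.T k v)) (y - B.r (B.T k v)) (fun i => ⟨?_, ?_, ?_⟩)
    (by simp [hij])
  · have := (h' i).1
    simp only [Dt, map_add] at this ⊢
    convert this using 1; abel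
  · simp only [map_sub]; linarith [(h' i).2.1]
  · simp only [map_sub]; linarith [(h' i).2.2]

lemma Dt_N {k} {τ1 τ2 τ1' τ2' : A × Λ} (h1 : B.Dt k τ1 τ1') (h2 : B.Dt k τ2 τ2') :
    B.N (τ1'.2 - τ2'.2) ≤ B.ρ ^ k * B.N (τ1.2 - τ2.2) + 2 * B.B := by
  have e : τ1'.2 - τ2'.2 = B.T k (τ1.2 - τ2.2) + ((τ1'.2 - B.T k τ1.2) - (τ2'.2 - B.T k τ2.2)) := by
    rw [map_sub]; abel
  rw [e]
  linarith [B.N_add (B.T k (τ1.2 - τ2.2)) ((τ1'.2 - B.T k τ1.2) - (τ2'.2 - B.T k τ2.2)),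
    B.N_T k (τ1.2 - τ2.2), B.N_sub (τ1'.2 - B.T k τ1.2) (τ2'.2 - B.T k τ2.2), B.D_N h1, B.D_N h2]

lemma desc_bdd {I : Type} [Finite I] {τ : I → A × Λ} {y0} (h : ∀ i, B.In (τ i) y0) (R : ℝ)
    (hR : 2 * B.B < R) : ∃ (k : ℕ) (τ' : I → A × Λ) (y : ℝ), (∀ i, B.Dt k (τ i) (τ' i) ∧ B.In (τ' i) y) ∧
      ∀ i j, B.N ((τ' i).2 - (τ' j).2) ≤ R := by
  obtain ⟨b, hb⟩ := (Set.finite_range fun c : I × I => B.N ((τ c.1).2 - (τ c.2).2)).bddAbove
  obtain ⟨k, hk⟩ := B.exists_ρpow_le (ε := (R - 2 * B.B) / (|b| + 1)) (by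
    have := sub_pos.mpr hR; positivity)
  have hk' := (le_div_iff₀ (by positivity)).mp (hk k le_rfl)
  have hp := B.θpow_pos k
  choose τ' h1 h2 using fun i => B.Dt_cover k (τ := τ i) (y := y0 * B.θ ^ k)
    (by rw [mul_div_cancel_right₀ _ hp.ne']; exact h i)
  refine ⟨k, τ', _, fun i => ⟨h1 i, h2 i⟩, fun i j => ?_⟩
  have h3 : B.N ((τ i).2 - (τ j).2) ≤ |b| + 1 := by
    linarith [show B.N ((τ i).2 - (τ j).2) ≤ b from hb ⟨(i, j), rfl⟩, le_abs_self b]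
  have h4 := mul_le_mul_of_nonneg_left h3 (pow_nonneg B.ρ_nonneg k)
  linarith [B.Dt_N (h1 i) (h1 j)]

variable [Finite A]

lemma exists_rank [Nonempty A] : ∃ c : ℕ, 0 < c ∧
    (∃ (τ : Fin c → A × Λ) (y : ℝ), B.Good τ ∧ ∀ i, B.In (τ i) y) ∧
    ∀ (c' : ℕ) (τ : Fin c' → A × Λ) (y : ℝ), B.Good τ → (∀ i, B.In (τ i) y) → c' ≤ c := by
  obtain ⟨lm, lM, -, hlM, hl⟩ := B.exists_lam
  set R := max lM (2 * B.B + 1)
  have hfin : (Set.univ ×ˢ {a | |B.r a| ≤ R ∧ B.N a ≤ R} : Set (A × Λ)).Finite :=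
    Set.finite_univ.prod (B.fin R)
  set P : Set ℕ := {c | ∃ (τ : Fin c → A × Λ) (y : ℝ), B.Good τ ∧ ∀ i, B.In (τ i) y} with hP
  have hbdd : BddAbove P := by
    refine ⟨hfin.toFinset.card, ?_⟩
    rintro c ⟨τ, y, hg, hin⟩
    rcases Nat.eq_zero_or_pos c with rfl | hc
    · exact Nat.zero_le _
    obtain ⟨k, τ', y', h1, h2⟩ := B.desc_bdd hin R (lt_of_lt_of_le (by linarith) (le_max_right _ _))
    have hinj := hg k τ' y' h1
    have := card_le_card_of_injOn (s := univ) (t := hfin.toFinset)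
      (fun i => ((τ' i).1, (τ' i).2 - (τ' ⟨0, hc⟩).2)) (fun i _ => by
        simp only [Set.Finite.coe_toFinset, Set.mem_prod, Set.mem_univ, true_and,
          Set.mem_ofPred_eq]
        refine ⟨le_trans ?_ (le_max_left _ _), h2 _ _⟩
        obtain ⟨a1, a2⟩ := (h1 i).2
        obtain ⟨a3, a4⟩ := (h1 ⟨0, hc⟩).2
        rw [map_sub, abs_le]
        constructor <;> linarith [(hl (τ' i).1).2.1, (hl (τ' ⟨0, hc⟩).1).2.1])
      (fun i _ j _ h => hinj (by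
        simp only [Prod.mk.injEq, sub_left_inj] at h; exact Prod.ext h.1 h.2))
    simpa using this
  obtain ⟨a⟩ := ‹Nonempty A›
  have h1 : 1 ∈ P := ⟨fun _ => (a, 0), 0, fun _ _ _ _ => Function.injective_of_subsingleton _,
    fun _ => ⟨by simp, by simpa using B.lam_pos a⟩⟩
  exact ⟨sSup P, le_csSup hbdd h1, Nat.sSup_mem ⟨1, h1⟩ hbdd,
    fun c' τ y h h' => le_csSup hbdd ⟨τ, y, h, h'⟩⟩

section Fam
variable {I : Type} [Finite I] [Nonempty I]

lemma cl_ex (τ : I → A × Λ) : ∃ v : Λ, (∃ i, v = (τ i).2 + B.lam (τ i).1) ∧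
    ∀ j, B.r v ≤ B.r (τ j).2 + B.r (B.lam (τ j).1) := by
  obtain ⟨i, hi⟩ := Finite.exists_min fun i => B.r (τ i).2 + B.r (B.lam (τ i).1)
  exact ⟨_, ⟨i, rfl⟩, fun j => by rw [map_add]; exact hi j⟩

/-- right end of the common part of a family of tiles. -/
noncomputable def cl (τ : I → A × Λ) : Λ := (B.cl_ex τ).choose

lemma cl_eq (τ : I → A × Λ) : ∃ i, B.r (B.cl τ) = B.r (τ i).2 + B.r (B.lam (τ i).1) := by
  obtain ⟨i, hi⟩ := (B.cl_ex τ).choose_spec.1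
  exact ⟨i, by rw [cl, hi, map_add]⟩

lemma cl_le (τ : I → A × Λ) (j : I) : B.r (B.cl τ) ≤ B.r (τ j).2 + B.r (B.lam (τ j).1) :=
  (B.cl_ex τ).choose_spec.2 j

lemma cl_comp (τ : I → A × Λ) (π : I ≃ I) : B.cl (τ ∘ π) = B.cl τ := by
  apply B.r_inj
  obtain ⟨i, hi⟩ := B.cl_eq τ
  obtain ⟨j, hj⟩ := B.cl_eq (τ ∘ π)
  apply le_antisymm
  · rw [hi]; simpa using B.cl_le (τ ∘ π) (π.symm i)
  · rw [hj]; exact B.cl_le τ (π j)

def Nm (τ : I → A × Λ) : Prop :=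
  (∀ i, B.r (τ i).2 ≤ 0) ∧ (∃ i, (τ i).2 = 0) ∧ 0 < B.r (B.cl τ)

lemma Nm.comp {τ : I → A × Λ} (h : B.Nm τ) (π : I ≃ I) : B.Nm (τ ∘ π) := by
  obtain ⟨h1, ⟨i, hi⟩, h3⟩ := h
  exact ⟨fun i => h1 _, ⟨π.symm i, by simpa using hi⟩, by rwa [cl_comp]⟩

lemma Nm.shift_eq {τ τ' : I → A × Λ} {o o'} (h : B.Nm τ) (h' : B.Nm τ')
    (e : ∀ i, (τ i).2 + o = (τ' i).2 + o') : o = o' := by
  obtain ⟨h1, ⟨i, hi⟩, -⟩ := h
  obtain ⟨h2, ⟨j, hj⟩, -⟩ := h'
  have a1 := congrArg B.r (e i)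
  have a2 := congrArg B.r (e j)
  rw [map_add, map_add] at a1 a2
  rw [hi, map_zero] at a1
  rw [hj, map_zero] at a2
  exact B.r_inj (by linarith [h1 j, h2 i])

def R (k : ℕ) (τ τ' : I → A × Λ) (o : Λ) : Prop :=
  B.Nm τ' ∧ ∀ i, B.Dt k (τ i) ((τ' i).1, (τ' i).2 + o)

lemma R_refl {τ : I → A × Λ} (h : B.Nm τ) : B.R 0 τ τ 0 :=
  ⟨h, fun i => by simpa [Dt, B.T_zero] using B.D_refl (τ i).1⟩

lemma R_comp {k l} {τ τ' τ'' : I → A × Λ} {o o'} (h : B.R k τ τ' o) (h' : B.R l τ' τ'' o') :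
    B.R (k + l) τ τ'' (B.T l o + o') := by
  refine ⟨h'.1, fun i => B.Dt_comp (h.2 i) ?_⟩
  have := h'.2 i
  simp only [Dt, map_add] at this ⊢
  convert this using 1; abel

lemma R_perm {k} {τ τ' : I → A × Λ} {o} (h : B.R k τ τ' o) (π : I ≃ I) :
    B.R k (τ ∘ π) (τ' ∘ π) o := ⟨Nm.comp B h.1 π, fun i => h.2 (π i)⟩

lemma R_bd {k} {τ τ' : I → A × Λ} {o} (hτ : B.Nm τ) (h : B.R k τ τ' o) :
    0 ≤ B.r o ∧ B.r o + B.r (B.cl τ') ≤ B.θ ^ k * B.r (B.cl τ) := by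
  obtain ⟨-, ⟨i, hi⟩, -⟩ := hτ
  obtain ⟨j, hj⟩ := B.cl_eq τ
  have a1 := (B.D_bd (h.2 i)).1
  have a2 := (B.D_bd (h.2 j)).2
  simp only [map_sub, map_add, B.r_T, hi, map_zero] at a1 a2
  rw [hj]
  constructor <;> linarith [h.1.1 i, B.cl_le τ' j]

lemma R_of {k} {τ τ1 : I → A × Λ} {y} (h : ∀ i, B.Dt k (τ i) (τ1 i) ∧ B.In (τ1 i) y) :
    ∃ τ' o, B.R k τ τ' o ∧ (∀ i, τ1 i = ((τ' i).1, (τ' i).2 + o)) ∧
      B.r o ≤ y ∧ y < B.r o + B.r (B.cl τ') := by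
  obtain ⟨i, hi⟩ := Finite.exists_max fun i => B.r (τ1 i).2
  obtain ⟨j, hj⟩ := B.cl_eq fun j => ((τ1 j).1, (τ1 j).2 - (τ1 i).2)
  simp only [map_sub] at hj
  refine ⟨fun j => ((τ1 j).1, (τ1 j).2 - (τ1 i).2), (τ1 i).2, ⟨⟨fun j => ?_, ⟨i, by simp⟩, ?_⟩,
    fun j => by simpa using (h j).1⟩, fun j => by simp, (h i).2.1, ?_⟩
  · simp only [map_sub]; linarith [hi j]
  · rw [hj]; linarith [(h i).2.1, (h j).2.2]
  · rw [hj]; linarith [(h j).2.2]

lemma R_cover (k : ℕ) {τ : I → A × Λ} (hτ : B.Nm τ) {y} (h0 : 0 ≤ y)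
    (h1 : y < B.θ ^ k * B.r (B.cl τ)) :
    ∃ τ' o, B.R k τ τ' o ∧ B.r o ≤ y ∧ y < B.r o + B.r (B.cl τ') := by
  have hp := B.θpow_pos k
  choose τ1 h2 using fun i => B.Dt_cover k (τ := τ i) (y := y)
    ⟨(hτ.1 i).trans (by positivity), by
      rw [div_lt_iff₀ hp]
      have := mul_le_mul_of_nonneg_left (B.cl_le τ i) hp.le
      linarith⟩
  obtain ⟨τ', o, a1, -, a2⟩ := B.R_of h2
  exact ⟨τ', o, a1, a2⟩

lemma R_In {τ' : I → A × Λ} {o y} (h : B.Nm τ') (a1 : B.r o ≤ y) (a2 : y < B.r o + B.r (B.cl τ'))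
    (i : I) : B.In ((τ' i).1, (τ' i).2 + o) y := by
  constructor <;> simp only [map_add] <;> linarith [h.1 i, B.cl_le τ' i]

lemma R_uniq {k} {τ τ1 τ2 : I → A × Λ} {o1 o2} (y : ℝ) (h1 : B.R k τ τ1 o1) (h2 : B.R k τ τ2 o2)
    (a1 : B.r o1 ≤ y) (a2 : y < B.r o1 + B.r (B.cl τ1))
    (a3 : B.r o2 ≤ y) (a4 : y < B.r o2 + B.r (B.cl τ2)) : τ1 = τ2 ∧ o1 = o2 := by
  have e := fun i => Prod.mk.inj (B.Dt_uniq (h1.2 i) (h2.2 i) (B.R_In h1.1 a1 a2 i)
    (B.R_In h2.1 a3 a4 i))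
  have e2 := Nm.shift_eq B h1.1 h2.1 fun i => (e i).2
  subst e2
  exact ⟨funext fun i => Prod.ext (e i).1 (add_right_cancel (e i).2), rfl⟩

lemma R_split {k l} {τ τ'' : I → A × Λ} {o} (hτ : B.Nm τ) (h : B.R (k + l) τ τ'' o) :
    ∃ τ' o1 o2, B.R k τ τ' o1 ∧ B.R l τ' τ'' o2 := by
  have hp := B.θpow_pos l
  obtain ⟨b1, b2⟩ := B.R_bd hτ h
  have b3 := h.1.2.2
  obtain ⟨τ', o1, h1, a1, a2⟩ := B.R_cover k hτ (y := B.r o / B.θ ^ l) (by positivity) (by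
    rw [div_lt_iff₀ hp]; rw [pow_add] at b2; linarith)
  rw [le_div_iff₀ hp] at a1
  rw [div_lt_iff₀ hp] at a2
  obtain ⟨τ3, o2, h2, a3, a4⟩ := B.R_cover l h1.1 (y := B.r o - B.θ ^ l * B.r o1) (by linarith)
    (by linarith)
  obtain ⟨rfl, -⟩ := B.R_uniq (B.r o) (B.R_comp h1 h2) h (by rw [map_add, B.r_T]; linarith)
    (by rw [map_add, B.r_T]; linarith) le_rfl (by linarith)
  exact ⟨τ', o1, o2, h1, h2⟩

/-- normalised good families with bounded offsets. -/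
def Fam (R0 : ℝ) : Set (I → A × Λ) :=
  {τ | B.Good τ ∧ B.Nm τ ∧ ∀ i j, B.N ((τ i).2 - (τ j).2) ≤ R0}

lemma Fam_N {R0} {τ : I → A × Λ} (h : τ ∈ B.Fam R0) (i : I) : B.N (τ i).2 ≤ R0 := by
  obtain ⟨j, hj⟩ := h.2.1.2.1
  simpa [hj] using h.2.2 i j

lemma Fam_fin (R0 : ℝ) : (B.Fam R0 : Set (I → A × Λ)).Finite := by
  obtain ⟨lm, lM, -, hlM, hl⟩ := B.exists_lam
  refine (Set.Finite.pi' fun _ : I => Set.finite_univ.prod (B.fin (max lM R0))).subset
    fun τ h i => ⟨trivial, le_trans ?_ (le_max_left _ _), (B.Fam_N h i).trans (le_max_right _ _)⟩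
  rw [abs_le]
  constructor <;> linarith [h.2.1.1 i, B.cl_le τ i, h.2.1.2.2, (hl (τ i).1).2.1]

lemma Fam_closed {R0} (hR : B.ρ * R0 + 2 * B.B ≤ R0) {k} {τ τ' : I → A × Λ} {o}
    (hτ : τ ∈ B.Fam R0) (h : B.R k τ τ' o) : τ' ∈ B.Fam R0 := by
  refine ⟨by simpa using Good.shift B (Good.desc B hτ.1 h.2) (-o), h.1, fun i j => ?_⟩
  rcases Nat.eq_zero_or_pos k with rfl | hk
  · have a1 := congrArg Prod.snd (B.Dt_zero (h.2 i))
    have a2 := congrArg Prod.snd (B.Dt_zero (h.2 j))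
    have := hτ.2.2 i j
    rw [← a1, ← a2] at this
    simpa using this
  · have a1 := B.Dt_N (h.2 i) (h.2 j)
    simp only [add_sub_add_right_eq_sub] at a1
    have a2 : B.ρ ^ k * B.N ((τ i).2 - (τ j).2) ≤ B.ρ * R0 :=
      mul_le_mul (pow_le_of_le_one B.ρ_nonneg B.ρ_lt.le hk.ne') (hτ.2.2 i j) (B.N_nonneg _)
        B.ρ_nonneg
    linarith

end Fam

end GS
end Pool.Agent.PT
end

-- merged part: Pool.Agent.Work.MP_cf06ef_an.P11
section
set_option autoImplicit false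
set_option linter.unusedSectionVars false
open Finset

namespace Pool.Agent.PT

/-- the structure `SST` before rescaling. -/
structure PSST (Λ C G : Type) [AddCommGroup Λ] [Group G] extends GS Λ C G where
  x : C
  os : Λ
  center : D 1 x x 1 os
  os_pos : 0 < r os
  os_lt : r os + r (lam x) < θ * r (lam x)
  prim : ∀ t t' κ, ∃ o, D 1 t t' κ o
  co : ∀ t t' o y, 0 ≤ y → y < r (lam t) → r o ≤ y → y < r o + r (lam t') →
    ∃ k u κ κ' o1 o2, D k t u κ o1 ∧ D k t' u κ' o2 ∧ o1 = T k o + o2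

def PSST.scale {Λ C G : Type} [AddCommGroup Λ] [Group G] (P : PSST Λ C G) (J : ℕ)
    (h : ∀ t, 0 < P.φ (P.T J (P.lam t))) : SST Λ C G where
  toPM := P.toPM.scale J
  lam := P.lam
  D := P.D
  B := P.B
  lam_pos := P.lam_pos
  D_refl := P.D_refl
  D_comp := P.D_comp
  D_bd := P.D_bd
  D_cover := P.D_cover
  D_uniq := P.D_uniq
  D_N := P.D_N
  x := P.x
  os := P.os
  center := P.center
  os_pos := P.os_pos
  os_lt := P.os_lt
  prim := P.prim
  co := P.co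
  φ_pos := h

namespace GS
variable {Λ A : Type} [AddCommGroup Λ] (B : GS Λ A Unit) [Finite A]

lemma coinc {c : ℕ} [Nonempty (Fin c)]
    (hmax : ∀ (c' : ℕ) (τ : Fin c' → A × Λ) (y : ℝ), B.Good τ → (∀ i, B.In (τ i) y) → c' ≤ c)
    (s : ℕ) (hs : s ≠ 0) {τ τ' : Fin c → A × Λ} (hg : B.Good τ) (hg' : B.Good τ') (o : Λ) {y0 : ℝ}
    (h : ∀ i, B.In (τ i) y0) (h' : ∀ i, B.In ((τ' i).1, (τ' i).2 + o) y0) :
    ∃ k σ1 o1 o2, ∃ π : Equiv.Perm (Fin c), B.R (s * k) τ σ1 o1 ∧ B.R (s * k) τ' (σ1 ∘ π) o2 ∧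
      o1 = B.T (s * k) o + o2 := by
  classical
  let U : Fin c ⊕ Fin c → A × Λ := Sum.elim τ fun i => ((τ' i).1, (τ' i).2 + o)
  have ex : ∃ m : ℕ, ∃ (k : ℕ) (U' : Fin c ⊕ Fin c → A × Λ) (y : ℝ),
      (∀ i, B.Dt (s * k) (U i) (U' i) ∧ B.In (U' i) y) ∧ (univ.image U').card = m :=
    ⟨_, 0, U, y0, fun i => ⟨by simpa [Dt, B.T_zero] using B.D_refl (U i).1, by
      rcases i with i | i
      · exact h i
      · exact h' i⟩, rfl⟩
  obtain ⟨k, U', y, hU, hm⟩ := Nat.find_spec ex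
  have hmin := fun m => Nat.find_min' ex (m := m)
  generalize Nat.find ex = m at hm hmin
  let e0 := (univ.image U').equivFinOfCardEq hm
  let e : Fin m → A × Λ := fun j => (e0.symm j : A × Λ)
  have he : ∀ j, ∃ i, U' i = e j := fun j => by
    obtain ⟨i, -, hi⟩ := mem_image.mp (e0.symm j).2; exact ⟨i, hi⟩
  let idx : Fin c ⊕ Fin c → Fin m := fun i => e0 ⟨U' i, by simp⟩
  have hidx : ∀ i, e (idx i) = U' i := fun i => by simp [e, idx]
  have ge : B.Good e := by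
    intro l e' y' h1 j1 j2 h2
    by_contra hne
    obtain ⟨l', hl'⟩ : ∃ l', s * l = l + l' :=
      Nat.exists_eq_add_of_le (Nat.le_mul_of_pos_left _ (Nat.pos_of_ne_zero hs))
    have hp := B.θpow_pos l'
    choose e'' h3 h4 using fun j => B.Dt_cover l' (τ := e' j) (y := y' * B.θ ^ l')
      (by rw [mul_div_cancel_right₀ _ hp.ne']; exact (h1 j).2)
    have h5 : e'' j1 = e'' j2 := B.Dt_uniq (h3 j1) (h2 ▸ h3 j2) (h4 j1) (h4 j2)
    have h6 := hmin _ ⟨k + l, fun i => e'' (idx i), y' * B.θ ^ l', fun i => ⟨by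
      rw [mul_add, hl']
      exact B.Dt_comp (hU i).1 (hidx i ▸ B.Dt_comp (h1 _).1 (h3 _)), h4 _⟩, rfl⟩
    have h7 : (univ.image fun i => e'' (idx i)).card ≤ ((univ.erase j1).image e'').card := by
      refine card_le_card fun v hv => ?_
      obtain ⟨i, -, rfl⟩ := mem_image.mp hv
      by_cases hi : idx i = j1
      · exact mem_image.mpr ⟨j2, by simp [Ne.symm hne], by rw [hi, h5]⟩
      · exact mem_image.mpr ⟨idx i, by simp [hi], rfl⟩
    have h8 := card_image_le (s := univ.erase j1) (f := e'')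
    have h9 := card_erase_add_one (mem_univ j1)
    simp only [card_univ, Fintype.card_fin] at h9
    omega
  have hmc : m ≤ c := hmax m e y ge fun j => by
    obtain ⟨i, hi⟩ := he j; exact hi ▸ (hU i).2
  have i1 : Function.Injective fun i => U' (Sum.inl i) := hg _ _ y fun i => hU (Sum.inl i)
  have i2 : Function.Injective fun i => U' (Sum.inr i) :=
    Good.shift B hg' o _ _ y fun i => hU (Sum.inr i)
  have r1 : univ.image (fun i => U' (Sum.inl i)) = univ.image U' :=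
    eq_of_subset_of_card_le (fun v hv => by
      obtain ⟨i, -, rfl⟩ := mem_image.mp hv; simp) (by
      rw [card_image_of_injective _ i1]; simpa [hm] using hmc)
  have r2 : ∀ i, ∃ j, U' (Sum.inl j) = U' (Sum.inr i) := fun i => by
    have : U' (Sum.inr i) ∈ univ.image U' := by simp
    rw [← r1] at this
    simpa using this
  choose π0 hπ0 using r2
  have π0inj : Function.Injective π0 := fun i j hij => i2 (by
    simp only [← hπ0, hij])
  let π : Equiv.Perm (Fin c) := Equiv.ofBijective π0 (Finite.injective_iff_bijective.mp π0inj)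
  obtain ⟨σ1, o1, a1, a2, -, -⟩ := B.R_of (τ := τ) fun i => hU (Sum.inl i)
  refine ⟨k, σ1, o1, o1 - B.T (s * k) o, π, a1, ⟨Nm.comp B a1.1 π, fun i => ?_⟩, by abel⟩
  have := (hU (Sum.inr i)).1
  rw [← hπ0, a2] at this
  simp only [Dt, U, Sum.elim_inr, map_add] at this
  show B.D _ _ (σ1 (π0 i)).1 () ((σ1 (π0 i)).2 + (o1 - B.T (s * k) o) - B.T (s * k) (τ' i).2)
  convert this using 1
  abel

theorem exists_PSST [Nonempty A] : ∃ (C G : Type) (_ : Group G) (_ : Finite C) (_ : Finite G)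
    (s : ℕ) (hs : s ≠ 0) (P : PSST Λ C G) (fst : C → G → A × Λ), P.toPM = B.toPM.pow s hs ∧
    (∀ t g, B.r (fst t g).2 ≤ 0 ∧ B.r (P.lam t) ≤ B.r (fst t g).2 + B.r (B.lam (fst t g).1)) ∧
    ∀ k t t' κ o g, P.D k t t' κ o →
      B.Dt (s * k) (fst t g) ((fst t' (g * κ)).1, (fst t' (g * κ)).2 + o) := by
  classical
  obtain ⟨c, hc, ⟨τ0, y0, hg0, hin0⟩, hmax⟩ := B.exists_rank
  have : Nonempty (Fin c) := ⟨⟨0, hc⟩⟩
  obtain ⟨lm, lM, -, hlM, hl⟩ := B.exists_lam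
  have hρ := sub_pos.mpr B.ρ_lt
  obtain ⟨R0, hR1, hR2⟩ : ∃ R0 : ℝ, 2 * B.B < R0 ∧ B.ρ * R0 + 2 * B.B ≤ R0 := by
    have h1 : (2 * |B.B| + 1) / (1 - B.ρ) * (1 - B.ρ) = 2 * |B.B| + 1 := by field_simp
    have h2 : 0 ≤ (2 * |B.B| + 1) / (1 - B.ρ) * B.ρ := mul_nonneg (by positivity) B.ρ_nonneg
    exact ⟨(2 * |B.B| + 1) / (1 - B.ρ), by linarith [le_abs_self B.B],
      by linarith [le_abs_self B.B]⟩
  let X := (B.Fam R0 : Set (Fin c → A × Λ))
  have : Finite X := B.Fam_fin R0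
  have : Nonempty X := by
    obtain ⟨k, τ1, y, h1, h2⟩ := B.desc_bdd hin0 R0 hR1
    obtain ⟨τ', o, a1, a2, -⟩ := B.R_of h1
    refine ⟨τ', by simpa using Good.shift B (Good.desc B hg0 a1.2) (-o), a1.1, fun i j => ?_⟩
    have := h2 i j
    rw [a2 i, a2 j] at this
    simpa using this
  let Rel : ℕ → X → X → Prop := fun k τ τ' => ∃ o, B.R k τ.1 τ'.1 o
  obtain ⟨s0, hs0, hidem⟩ := exists_idem Rel fun k l x z =>
    ⟨fun ⟨o, h⟩ => by
      obtain ⟨τ', o1, o2, h1, h2⟩ := B.R_split x.2.2.1 h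
      exact ⟨⟨τ', B.Fam_closed hR2 x.2 h1⟩, ⟨o1, h1⟩, ⟨o2, h2⟩⟩,
    fun ⟨y, ⟨o1, h1⟩, ⟨o2, h2⟩⟩ => ⟨_, B.R_comp h1 h2⟩⟩
  have trans : ∀ x y z, Rel s0 x y → Rel s0 y z → Rel s0 x z := by
    rintro x y z ⟨o1, h1⟩ ⟨o2, h2⟩
    rw [← hidem 1]
    exact ⟨_, by rw [mul_add, mul_one]; exact B.R_comp h1 h2⟩
  obtain ⟨x0, hx0⟩ := Finite.exists_min fun x : X => {y | Rel s0 x y}.ncard
  let E : Set (Fin c → A × Λ) := {τ | ∃ h : τ ∈ X, Rel s0 x0 ⟨τ, h⟩}
  have E_fam : ∀ τ ∈ E, τ ∈ B.Fam R0 := fun τ h => h.1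
  have E_closed : ∀ j τ τ' o, τ ∈ E → B.R (s0 * j) τ τ' o → τ' ∈ E := by
    rintro j τ τ' o ⟨h1, h2⟩ h
    have h3 := B.Fam_closed hR2 h1 h
    refine ⟨h3, ?_⟩
    obtain ⟨o1, h2⟩ := h2
    rw [← hidem j]
    exact ⟨_, by rw [mul_add, mul_one, add_comm]; exact B.R_comp h2 h⟩
  have E_prim : ∀ j τ τ', τ ∈ E → τ' ∈ E → ∃ o, B.R (s0 * (j + 1)) τ τ' o := by
    rintro j τ τ' ⟨h1, h2⟩ ⟨h3, h4⟩
    have e := Set.eq_of_subset_of_ncard_le (s := {y | Rel s0 ⟨τ, h1⟩ y}) (t := {y | Rel s0 x0 y})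
      (fun y hy => trans _ _ _ h2 hy) (hx0 _)
    have h5 : Rel s0 ⟨τ, h1⟩ ⟨τ', h3⟩ := (Set.ext_iff.mp e _).mpr h4
    rwa [← hidem j] at h5
  have E_perm : ∀ (π : Equiv.Perm (Fin c)) τ, τ ∈ E → τ ∘ π ∈ E → ∀ τ' ∈ E, τ' ∘ π ∈ E := by
    intro π τ h1 h2 τ' h3
    obtain ⟨o, h⟩ := E_prim 0 τ τ' h1 h3
    exact E_closed _ _ _ _ h2 (B.R_perm h π)
  have E_ne : E.Nonempty := by
    obtain ⟨τ', o, h, -⟩ := B.R_cover s0 x0.2.2.1 (y := 0) le_rfl
      (mul_pos (B.θpow_pos _) x0.2.2.1.2.2)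
    exact ⟨τ', B.Fam_closed hR2 x0.2 h, o, h⟩
  let G : Subgroup (Equiv.Perm (Fin c)) :=
    { carrier := {π | ∀ τ ∈ E, τ ∘ π ∈ E}
      mul_mem' := fun {a b} ha hb τ h => hb _ (ha τ h)
      one_mem' := fun τ h => h
      inv_mem' := fun {a} ha τ h => E_perm a⁻¹ _ (ha τ h) (by
        convert h using 1; funext i; simp) τ h }
  let : MulAction G E :=
    { smul := fun g τ => ⟨τ.1 ∘ (g⁻¹ : G).1, (g⁻¹).2 _ τ.2⟩
      one_smul := fun τ => rfl
      mul_smul := fun g h τ => Subtype.ext rfl }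
  have smul_def : ∀ (g : G) (τ : E), (g • τ).1 = τ.1 ∘ (g⁻¹ : G).1 := fun _ _ => rfl
  have : Finite E := (B.Fam_fin R0).subset E_fam
  let C := MulAction.orbitRel.Quotient G E
  have : Finite C := Quotient.finite _
  let rep : C → E := Quotient.out
  have rep_ex : ∀ τ : E, ∃ (t : C) (g : G), τ = g • rep t := fun τ => by
    have h : (MulAction.orbitRel G E) τ (rep (Quotient.mk _ τ)) :=
      (MulAction.orbitRel G E).symm (Quotient.mk_out (s := MulAction.orbitRel G E) τ)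
    obtain ⟨g, hg⟩ := MulAction.mem_orbit_iff.mp (MulAction.orbitRel_apply.mp h)
    exact ⟨_, g, hg.symm⟩
  have rep_uniq : ∀ (t t' : C) (g g' : G), g • rep t = g' • rep t' → t = t' ∧ g = g' := by
    intro t t' g g' h
    have e : t = t' := by
      rw [← Quotient.out_eq t, ← Quotient.out_eq t']
      exact Quotient.sound (MulAction.orbitRel_apply.mpr (MulAction.mem_orbit_iff.mpr
        ⟨g⁻¹ * g', by rw [mul_smul, ← h, inv_smul_smul]⟩))
    subst e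
    refine ⟨rfl, ?_⟩
    have hf := E_fam _ (rep t).2
    have inj : Function.Injective (rep t).1 := hf.1 0 _ 0 fun i =>
      ⟨by simpa [Dt, B.T_zero] using B.D_refl ((rep t).1 i).1,
        by simpa using B.R_In (o := 0) hf.2.1 (by simp) (by simpa using hf.2.1.2.2) i⟩
    have h2 := congrArg Subtype.val h
    rw [smul_def, smul_def] at h2
    exact inv_injective (Subtype.ext (Equiv.ext fun i => inj (congrFun h2 i)))
  have cl_smul : ∀ (g : G) (τ : E), B.cl (g • τ).1 = B.cl τ.1 := fun g τ => B.cl_comp _ _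
  have R_smul : ∀ k (τ τ' : E) o (g : G), B.R k τ.1 τ'.1 o → B.R k (g • τ).1 (g • τ').1 o :=
    fun k τ τ' o g h => B.R_perm h _
  have Nm_E : ∀ τ : E, B.Nm τ.1 := fun τ => (E_fam _ τ.2).2.1
  obtain ⟨x, -, -⟩ := rep_ex ⟨_, E_ne.choose_spec⟩
  have hx := (Nm_E (rep x)).2.2
  obtain ⟨j, hj⟩ := B.exists_θpow_ge (4 * lM / B.r (B.cl (rep x).1))
  replace hj := (div_le_iff₀ hx).mp (hj (s0 * j) (Nat.le_mul_of_pos_left _ (Nat.pos_of_ne_zero hs0)))
  obtain ⟨os, hos, hos1, hos2⟩ : ∃ os, B.R (s0 * (j + 1)) (rep x).1 (rep x).1 os ∧ 0 < B.r os ∧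
      B.r os + B.r (B.cl (rep x).1) < B.θ ^ (s0 * (j + 1)) * B.r (B.cl (rep x).1) := by
    obtain ⟨τ', o1, h1, a1, a2⟩ := B.R_cover (s0 * j) (Nm_E (rep x))
      (y := B.θ ^ (s0 * j) * B.r (B.cl (rep x).1) / 2) (by linarith) (by linarith)
    obtain ⟨o2, h2⟩ := E_prim 0 _ _ (E_closed _ _ _ _ (rep x).2 h1) (rep x).2
    rw [zero_add, mul_one] at h2
    have a3 : B.r (B.cl τ') ≤ lM := by
      obtain ⟨i⟩ := ‹Nonempty (Fin c)›
      linarith [B.cl_le τ' i, h1.1.1 i, (hl (τ' i).1).2.1]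
    obtain ⟨b1, b2⟩ := B.R_bd h1.1 h2
    have hp := B.θpow_pos s0
    refine ⟨_, by rw [mul_add, mul_one]; exact B.R_comp h1 h2, ?_, ?_⟩
    · rw [map_add, B.r_T]
      have : 0 < B.θ ^ s0 * B.r o1 := mul_pos hp (by linarith)
      linarith
    · rw [map_add, B.r_T, mul_add, mul_one, pow_add]
      have : B.θ ^ s0 * (B.r o1 + B.r (B.cl τ')) < B.θ ^ s0 * (B.θ ^ (s0 * j) * B.r (B.cl (rep x).1)) :=
        mul_lt_mul_of_pos_left (by linarith) hp
      linarith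
  set s := s0 * (j + 1) with hs
  have hs' : s ≠ 0 := by positivity
  have E_cl : ∀ k (τ : E) τ' o, B.R (s * k) τ.1 τ' o → τ' ∈ E := fun k τ τ' o h =>
    E_closed _ _ _ _ τ.2 (by rw [hs, mul_assoc] at h; exact h)
  refine ⟨C, G, inferInstance, inferInstance, inferInstance, s, hs',
    { toPM := B.toPM.pow s hs'
      lam := fun t => B.cl (rep t).1
      D := fun k t t' κ o => B.R (s * k) (rep t).1 (κ • rep t').1 o
      B := B.B + 2 * R0
      lam_pos := fun t => (Nm_E _).2.2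
      D_refl := fun t => by rw [one_smul]; exact B.R_refl (Nm_E _)
      D_comp := fun {k l t t' t'' κ κ' o o'} h h' => by
        rw [mul_add, mul_smul]; exact B.R_comp h (R_smul _ _ _ _ κ h')
      D_bd := fun {k t t' κ o} h => by
        have := B.R_bd (Nm_E _) h
        rw [cl_smul, pow_mul] at this; exact this
      D_cover := fun k t y h0 h1 => by
        obtain ⟨τ', o, h, a1, a2⟩ := B.R_cover (s * k) (Nm_E (rep t)) h0 (by
          rw [pow_mul]; exact h1)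
        obtain ⟨t', κ, e⟩ := rep_ex ⟨τ', E_cl _ _ _ _ h⟩
        have e' : τ' = (κ • rep t').1 := congrArg Subtype.val e
        subst e'
        exact ⟨t', κ, o, h, a1, by rw [cl_smul] at a2; exact a2⟩
      D_uniq := fun {k t t1 t2 κ1 κ2 o1 o2} y h1 h2 a1 a2 a3 a4 => by
        obtain ⟨e1, e2⟩ := B.R_uniq y h1 h2 a1 (by rw [cl_smul]; exact a2) a3
          (by rw [cl_smul]; exact a4)
        obtain ⟨e3, e4⟩ := rep_uniq _ _ _ _ (Subtype.ext e1)
        exact ⟨e3, e4, e2⟩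
      D_N := fun {k t t' κ o} h => by
        obtain ⟨i⟩ := ‹Nonempty (Fin c)›
        have a1 := B.D_N (h.2 i)
        have a2 := B.Fam_N (E_fam _ (rep t).2) i
        have a3 := B.Fam_N (E_fam _ (κ • rep t').2) i
        have a4 := B.N_T_le (s * k) ((rep t).1 i).2
        have a5 := B.N_add (((κ • rep t').1 i).2 + o - B.T (s * k) ((rep t).1 i).2)
          (B.T (s * k) ((rep t).1 i).2)
        have a6 := B.N_sub (((κ • rep t').1 i).2 + o) ((κ • rep t').1 i).2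
        rw [sub_add_cancel] at a5
        rw [add_sub_cancel_left] at a6
        show B.N o ≤ _
        linarith
      x := x
      os := os
      center := by rw [mul_one, one_smul]; exact hos
      os_pos := hos1
      os_lt := hos2
      prim := fun t t' κ => by rw [mul_one]; exact E_prim j _ _ (rep t).2 (κ • rep t').2
      co := fun t t' o y a1 a2 a3 a4 => by
        obtain ⟨k, σ1, o1, o2, π, h1, h2, e⟩ := B.coinc hmax s hs' (E_fam _ (rep t).2).1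
          (E_fam _ (rep t').2).1 o (y0 := y)
          (fun i => by simpa using B.R_In (o := 0) (Nm_E (rep t)) (by simpa using a1)
                        (by rw [map_zero, zero_add]; exact a2) i) (B.R_In (Nm_E _) a3 a4)
        have m1 := E_cl _ _ _ _ h1
        have m2 := E_cl _ _ _ _ h2
        obtain ⟨u, κ, e1⟩ := rep_ex ⟨σ1, m1⟩
        have e' : σ1 = (κ • rep u).1 := congrArg Subtype.val e1
        subst e'
        refine ⟨k, u, κ, (⟨π, E_perm π _ m1 m2⟩ : G)⁻¹ * κ, o1, o2, h1, ?_, e⟩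
        rw [mul_smul, smul_def, inv_inv]; exact h2 },
    fun t g => (g • rep t).1 ⟨0, hc⟩, rfl, fun t g => ⟨(Nm_E _).1 _, ?_⟩, fun k t t' κ o g h => ?_⟩
  · have := B.cl_le (g • rep t).1 ⟨0, hc⟩
    rwa [cl_smul] at this
  · dsimp only; rw [mul_smul]; exact (R_smul _ _ _ _ g h).2 _

end GS
end Pool.Agent.PT
end
end

-- merged part: Pool.Agent.Work.MP_cf06ef_an.P8
section
-- merged part: Pool.Agent.Work.MP_cf06ef_an.P6
section
set_option autoImplicit false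
set_option linter.unusedSectionVars false
open Finset

namespace Pool.Agent.PT

lemma Sm.mono {P Q : ℤ → Prop} {ε C : ℝ} (h : Sm Q ε C) (hPQ : ∀ n, P n → Q n) : Sm P ε C :=
  fun ι N s hs => h ι N s fun n hn => ⟨(hs n hn).1, (hs n hn).2.1, hPQ n (hs n hn).2.2⟩

lemma Sm.weaken {P : ℤ → Prop} {ε ε' C : ℝ} (h : Sm P ε C) (hε : ε ≤ ε') : Sm P ε' C :=
  fun ι N s hs => (h ι N s hs).trans (by gcongr)

lemma Sm.or {P Q : ℤ → Prop} {ε C ε' C' : ℝ} (h : Sm P ε C) (h' : Sm Q ε' C') :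
    Sm (fun n => P n ∨ Q n) (ε + ε') (C + C') := by
  classical
  intro ι N s hs
  have h1 := h ι N (s.filter P) fun n hn => by
    rw [mem_filter] at hn; exact ⟨(hs n hn.1).1, (hs n hn.1).2.1, hn.2⟩
  have h2 := h' ι N (s.filter fun n => ¬ P n) fun n hn => by
    rw [mem_filter] at hn
    exact ⟨(hs n hn.1).1, (hs n hn.1).2.1, (hs n hn.1).2.2.resolve_left hn.2⟩
  have h3 : (s.card : ℝ) = (s.filter P).card + (s.filter fun n => ¬ P n).card := by
    exact_mod_cast (card_filter_add_card_filter_not P).symm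
  linarith

lemma Sm.affine {P : ℤ → Prop} {ε C : ℝ} (h : Sm P ε C) (p : ℕ) (hp : p ≠ 0) (c : ℤ) :
    Sm (fun n => P (p * n + c)) (p * ε) C := by
  classical
  intro ι N s hs
  have hp' : (0 : ℤ) < p := by exact_mod_cast Nat.pos_of_ne_zero hp
  rw [← card_image_of_injective (f := fun n : ℤ => p * n + c) s
    (fun n n' h => by simpa [hp] using h)]
  refine (h (p * ι + c) (p * N) _ fun n hn => ?_).trans (le_of_eq (by push_cast; ring))
  obtain ⟨m, hm, rfl⟩ := mem_image.mp hn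
  obtain ⟨h1, h2, h3⟩ := hs m hm
  refine ⟨by nlinarith, by push_cast; nlinarith, h3⟩

lemma cell_sum (Cell : ℤ → ℤ → Prop) (hpos : ∀ a b, Cell a b → a < b)
    (next : ∀ a b, Cell a b → ∃ c, Cell b c)
    (disj : ∀ a b a' b', Cell a b → Cell a' b' → a < a' → b ≤ a') (u : ℤ → ℝ) (b c : ℤ)
    (hb : Cell b c) : ∀ (a d : ℤ), Cell a d → a ≤ b →
      (∀ e f, Cell e f → a ≤ e → f ≤ b → ∑ n ∈ Ico e f, u n ≤ 0) → ∑ n ∈ Ico a b, u n ≤ 0 := by
  have : ∀ (m : ℕ) (a d : ℤ), b - a ≤ m → Cell a d → a ≤ b →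
      (∀ e f, Cell e f → a ≤ e → f ≤ b → ∑ n ∈ Ico e f, u n ≤ 0) → ∑ n ∈ Ico a b, u n ≤ 0 := by
    intro m
    induction m with
    | zero => intro a d h1 _ h2 _; rw [Ico_eq_empty (by omega)]; simp
    | succ m ih =>
      intro a d h1 ha h2 hu
      rcases h2.eq_or_lt with rfl | h2
      · simp
      · have h3 := disj _ _ _ _ ha hb h2
        have h4 := hpos _ _ ha
        obtain ⟨e, he⟩ := next _ _ ha
        rw [← Ico_union_Ico_eq_Ico h4.le h3, sum_union (Ico_disjoint_Ico_consecutive _ _ _)]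
        have h5 := hu a d ha le_rfl h3
        have h6 := ih d e (by push_cast at h1; omega) he h3
          fun e f h h' h'' => hu e f h (by omega) h''
        linarith
  exact fun a d => this (b - a).toNat a d (Int.self_le_toNat _)

lemma sum_Ico_le (u : ℤ → ℝ) (hu : ∀ n, u n ≤ 1) (a b : ℤ) (L : ℝ) (hL : 0 ≤ L)
    (h : ((b - a : ℤ) : ℝ) ≤ L) : ∑ n ∈ Ico a b, u n ≤ L := by
  refine (sum_le_sum fun n _ => hu n).trans ?_
  simp only [sum_const, Int.card_Ico, nsmul_eq_mul, mul_one]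
  rcases le_total 0 (b - a) with h0 | h0
  · have : (((b - a).toNat : ℤ) : ℝ) = ((b - a : ℤ) : ℝ) := by rw [Int.toNat_of_nonneg h0]
    rw [← Int.cast_natCast, this]; exact h
  · rw [Int.toNat_of_nonpos h0]; simpa using hL

open Classical in
lemma Sm_of_cells (Cell : ℤ → ℤ → Prop) (hpos : ∀ a b, Cell a b → a < b)
    (next : ∀ a b, Cell a b → ∃ c, Cell b c)
    (disj : ∀ a b a' b', Cell a b → Cell a' b' → a < a' → b ≤ a')
    (cover : ∀ n, ∃ a b, Cell a b ∧ a ≤ n ∧ n < b) (L : ℝ)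
    (hL : ∀ a b, Cell a b → ((b - a : ℤ) : ℝ) ≤ L) (P : ℤ → Prop) (ε : ℝ) (hε : 0 ≤ ε)
    (h : ∀ a b, Cell a b → ∑ n ∈ Ico a b, (if P n then (1 : ℝ) else 0) ≤ ε * ((b - a : ℤ) : ℝ)) :
    Sm P ε (2 * L) := by
  intro ι N s hs
  set u : ℤ → ℝ := fun n => (if P n then (1 : ℝ) else 0) - ε with hu
  have u1 : ∀ n, u n ≤ 1 := fun n => by simp only [hu]; split_ifs <;> linarith
  have usum : ∀ a b : ℤ, a ≤ b → ∑ n ∈ Ico a b, u n
      = ∑ n ∈ Ico a b, (if P n then (1 : ℝ) else 0) - ε * ((b - a : ℤ) : ℝ) := by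
    intro a b hab
    simp only [hu, sum_sub_distrib, sum_const, Int.card_Ico, nsmul_eq_mul]
    rw [← Int.cast_natCast, Int.toNat_of_nonneg (by omega), mul_comm]
  obtain ⟨a0, b0, c0, h1, h2⟩ := cover ι
  obtain ⟨a1, b1, c1, h3, h4⟩ := cover (ι + N)
  have hL0 : 0 ≤ L := le_trans (by exact_mod_cast (sub_pos.mpr (hpos _ _ c0)).le) (hL _ _ c0)
  have key : ∑ n ∈ Ico ι (ι + N), u n ≤ 2 * L := by
    by_cases hc : b0 ≤ a1
    · obtain ⟨e, he⟩ := next _ _ c0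
      rw [← Ico_union_Ico_eq_Ico h2.le (hc.trans h3), sum_union (Ico_disjoint_Ico_consecutive _ _ _),
        ← Ico_union_Ico_eq_Ico hc h3, sum_union (Ico_disjoint_Ico_consecutive _ _ _)]
      have e1 := sum_Ico_le u u1 ι b0 L hL0 (le_trans (by exact_mod_cast (by omega)) (hL _ _ c0))
      have e2 := cell_sum Cell hpos next disj u a1 b1 c1 b0 e he hc fun e f hc _ _ => by
        rw [usum _ _ (hpos _ _ hc).le]; linarith [h e f hc]
      have e3 := sum_Ico_le u u1 a1 (ι + N) L hL0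
        (le_trans (by exact_mod_cast (by omega)) (hL _ _ c1))
      linarith
    · have h5 : a1 ≤ a0 := by
        by_contra h5
        exact hc (disj _ _ _ _ c0 c1 (not_le.mp h5))
      have e1 := sum_Ico_le u u1 ι (ι + N) L hL0
        (le_trans (by exact_mod_cast (by omega)) (hL _ _ c1))
      linarith
  rw [usum _ _ (by omega), sum_boole] at key
  have h6 : (s.card : ℝ) ≤ ((Ico ι (ι + N)).filter P).card := by
    exact_mod_cast card_le_card fun n hn => by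
      rw [mem_filter, mem_Ico]; exact ⟨⟨(hs n hn).1, (hs n hn).2.1⟩, (hs n hn).2.2⟩
  simp only [add_sub_cancel_left, Int.cast_natCast] at key
  linarith

namespace SST
variable {Λ C G : Type} [AddCommGroup Λ] [Group G] (S : SST Λ C G) [Finite C]

def Cell (j : ℕ) (a b : ℤ) : Prop :=
  ∃ t g o, S.H t g o ∧ a = S.φ (S.A j o) ∧ b = S.φ (S.A j (o + S.lam t))

lemma en_eq (j : ℕ) (t : C) (o : Λ) :
    S.φ (S.A j (o + S.lam t)) = S.φ (S.A j o) + S.φ (S.T j (S.lam t)) := by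
  rw [A_add, map_add]

lemma Cell_pos (j : ℕ) (a b : ℤ) (h : S.Cell j a b) : a < b := by
  obtain ⟨t, g, o, -, rfl, rfl⟩ := h
  rw [en_eq]; linarith [S.len_pos j t]

lemma Cell_next (j : ℕ) (a b : ℤ) (h : S.Cell j a b) : ∃ c, S.Cell j b c := by
  obtain ⟨t, g, o, h, rfl, rfl⟩ := h
  obtain ⟨t', g', h'⟩ := S.Pos_next h
  exact ⟨_, t', g', _, h', rfl, rfl⟩

lemma Cell_disj (j : ℕ) (a b a' b' : ℤ) (h : S.Cell j a b) (h' : S.Cell j a' b') (hlt : a < a') :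
    b ≤ a' := by
  have h1 := S.Cell_pos j _ _ h'
  obtain ⟨t, g, o, h, rfl, rfl⟩ := h
  obtain ⟨t', g', o', h', rfl, rfl⟩ := h'
  by_contra hc
  obtain ⟨-, -, rfl⟩ := S.InZ_uniq (j := j) h h' ⟨hlt.le, not_le.mp hc⟩ ⟨le_rfl, h1⟩
  exact lt_irrefl _ hlt

lemma len_bd : ∃ c1 c2 : ℝ, 0 < c1 ∧ 0 < c2 ∧ ∀ j t, c1 * S.θ ^ j ≤ S.φ (S.T j (S.lam t)) ∧
    (S.φ (S.T j (S.lam t)) : ℝ) ≤ c2 * S.θ ^ j := by
  obtain ⟨lm, lM, h1, h2, h⟩ := S.exists_lam
  have hs := S.s_pos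
  refine ⟨S.s * lm / (lM + 1), S.s * lM + lM, by positivity, by positivity, fun j t => ?_⟩
  obtain ⟨a1, a2⟩ := abs_le.mp (S.approxT j (S.lam t))
  obtain ⟨b1, b2, b3⟩ := h t
  have hp := S.θpow_pos j
  have h3 : (1 : ℝ) ≤ S.φ (S.T j (S.lam t)) := by exact_mod_cast S.len_pos j t
  have h4 := S.one_le_θpow j
  have h5 : S.s * (S.θ ^ j * lm) ≤ S.s * (S.θ ^ j * S.r (S.lam t)) := by gcongr
  have h6 : S.s * (S.θ ^ j * S.r (S.lam t)) ≤ S.s * (S.θ ^ j * lM) := by gcongr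
  constructor
  · rw [div_mul_eq_mul_div, div_le_iff₀ (by positivity)]; nlinarith
  · clear * - Λ C G S j t lM a2 b3 h6 h2 h4
    nlinarith

open Classical in
lemma Sm_cells (j : ℕ) : ∃ Cst : ℝ, ∀ (P : ℤ → Prop) (ε : ℝ), 0 ≤ ε →
    (∀ t g o, S.H t g o → ∑ n ∈ Ico (S.φ (S.A j o)) (S.φ (S.A j (o + S.lam t))),
      (if P n then (1 : ℝ) else 0) ≤ ε * S.φ (S.T j (S.lam t))) → Sm P ε Cst := by
  obtain ⟨c1, c2, -, -, hc⟩ := S.len_bd
  refine ⟨2 * (c2 * S.θ ^ j), fun P ε hε h => Sm_of_cells (S.Cell j) (S.Cell_pos j) (S.Cell_next j)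
    (S.Cell_disj j) (fun n => ?_) _ ?_ P ε hε ?_⟩
  · obtain ⟨t, g, o, h, hn⟩ := S.InZ_cover j n
    exact ⟨_, _, ⟨t, g, o, h, rfl, rfl⟩, hn⟩
  · rintro a b ⟨t, g, o, -, rfl, rfl⟩
    rw [en_eq, add_sub_cancel_left]; exact (hc j t).2
  · rintro a b ⟨t, g, o, h', rfl, rfl⟩
    refine (h t g o h').trans (le_of_eq ?_)
    rw [en_eq, add_sub_cancel_left]

/-- the tile reappears, with the same type, after every small translation of level `i`. -/
def Stab (R : ℝ) (i : ℕ) (t : C) (o : Λ) : Prop :=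
  ∀ ζ, S.N ζ ≤ R → ∃ g', S.H t g' (o + S.T i ζ)

lemma Stab.child {R i T o k t κ o'} (h : S.Stab R i T o) (hd : S.D k T t κ o') :
    S.Stab R (k + i) t (S.A k o + o') := fun ζ hζ => by
  obtain ⟨g', h'⟩ := h ζ hζ
  refine ⟨g' * κ, ?_⟩
  convert S.H_D h' hd using 1
  rw [A_add, S.T_add]; abel

lemma Stab.mono {R i i' t o} (h : S.Stab R i t o) (hi : i ≤ i') : S.Stab R i' t o := fun ζ hζ => by
  obtain ⟨l, rfl⟩ := Nat.exists_eq_add_of_le hi
  rw [S.T_add]; exact h _ ((S.N_T_le l ζ).trans hζ)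

lemma robust (R : ℝ) : ∃ k0, ∀ T, ∃ t κ o', S.D k0 T t κ o' ∧
    ∀ g o, S.H T g o → S.Stab R k0 t (S.A k0 o + o') := by
  classical
  obtain ⟨lm, lM, -, hlM, hl⟩ := S.exists_lam
  set Gd : ℕ → C → Λ → C × Λ → Prop := fun k t o' c =>
    (∃ κ' o2, S.D k c.1 t κ' o2 ∧ o' = S.T k c.2 + o2) ∨
    (∀ y, S.r o' ≤ y → y < S.r o' + S.r (S.lam t) → S.θ ^ k * S.r c.2 ≤ y →
      ¬ y < S.θ ^ k * (S.r c.2 + S.r (S.lam c.1))) with hGd
  have persist : ∀ k t o' c l t3 κ3 o3, Gd k t o' c → S.D l t t3 κ3 o3 →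
      Gd (k + l) t3 (S.T l o' + o3) c := by
    clear * - C Λ G Gd S
    rintro k t o' c l t3 κ3 o3 (⟨κ', o2, hd, rfl⟩ | h) h3
    · exact Or.inl ⟨_, _, S.D_comp hd h3, by rw [add_comm k l, S.T_add, map_add]; abel⟩
    · refine Or.inr fun y h4 h5 h6 h7 => ?_
      have hp := S.θpow_pos l
      obtain ⟨b1, b2⟩ := S.D_bd h3
      rw [map_add, S.r_T] at h4 h5
      rw [pow_add] at h6 h7
      refine h (y / S.θ ^ l) ?_ ?_ ?_ ?_
      · rw [le_div_iff₀ hp]; linarith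
      · rw [div_lt_iff₀ hp]; linarith
      · rw [le_div_iff₀ hp]; linarith
      · rw [div_lt_iff₀ hp]; linarith
  have ind : ∀ (T : C) (F : Finset (C × Λ)), ∃ k t κ o', S.D k T t κ o' ∧ ∀ c ∈ F, Gd k t o' c := by
    clear * - C Λ G S Gd hGd persist
    intro T F
    induction F using Finset.induction_on with
    | empty => exact ⟨0, T, 1, 0, S.D_refl T, by simp⟩
    | insert c F _ ih =>
      obtain ⟨k, t, κ, o', hd, hF⟩ := ih
      by_cases hc : Gd k t o' c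
      · exact ⟨k, t, κ, o', hd, by simpa [hc] using fun a b h => hF (a, b) h⟩
      · simp only [hGd, not_or, not_forall, not_not] at hc
        obtain ⟨-, y, h1, h2, h3, h4⟩ := hc
        obtain ⟨t2, κ2, o2, hd2, h5, h6⟩ := S.D_cover k c.1 (y - S.θ ^ k * S.r c.2)
          (by linarith) (by linarith)
        obtain ⟨l, t3, κ3, κ3', o3, o3', hd3, hd3', e⟩ := S.co t t2 (S.T k c.2 + o2 - o')
          (y - S.r o') (by linarith) (by linarith)
          (by rw [map_sub, map_add, S.r_T]; linarith) (by rw [map_sub, map_add, S.r_T]; linarith)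
        refine ⟨k + l, t3, _, _, S.D_comp hd hd3, fun c' hc' => ?_⟩
        rcases mem_insert.mp hc' with rfl | hc'
        · refine Or.inl ⟨_, _, S.D_comp hd2 hd3', ?_⟩
          rw [e, add_comm k l, S.T_add, map_sub, map_add]; abel
        · exact persist _ _ _ _ _ _ _ _ (hF c' hc') hd3
  set R1 := max lM (4 * S.B + R)
  have hfin : (Set.univ ×ˢ {a | |S.r a| ≤ R1 ∧ S.N a ≤ R1} : Set (C × Λ)).Finite :=
    Set.finite_univ.prod (S.fin R1)
  choose k t κ o' hd hF using fun T => ind T hfin.toFinset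
  obtain ⟨k0, hk0⟩ := (Set.finite_range k).bddAbove
  refine ⟨k0, fun T => ?_⟩
  obtain ⟨l, hl'⟩ := Nat.exists_eq_add_of_le (hk0 ⟨T, rfl⟩)
  obtain ⟨t3, κ3, hd3⟩ := S.D_first l (t T)
  refine ⟨t3, _, _, hl' ▸ S.D_comp (hd T) hd3, fun g o h ζ hζ => ?_⟩
  set o4 := S.T l (o' T) + 0 with ho4
  have hd4 : S.D k0 T t3 (κ T * κ3) o4 := hl' ▸ S.D_comp (hd T) hd3
  have hp := S.θpow_pos k0
  obtain ⟨b1, b2⟩ := S.D_bd hd4
  have hl3 := S.lam_pos t3
  obtain ⟨T', g', o'', h', h1, h2⟩ := S.H_cover (S.r o + S.r ζ + S.r o4 / S.θ ^ k0)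
  have y0 : 0 ≤ S.r o4 / S.θ ^ k0 := by positivity
  have y1 : S.r o4 / S.θ ^ k0 < S.r (S.lam T) := by clear * - Λ C G S o4 k0 T hp t3 b2 hl3; rw [div_lt_iff₀ hp]; linarith
  have hG := persist _ _ _ (T', o'' - o - ζ) _ _ _ _ (hF T _ (by
    clear * - C Λ G S R1 hfin T' o'' o ζ lM o4 k0 h2 y0 lm hl T h1 y1 R hζ g h g' h' hd3
    simp only [Set.Finite.mem_toFinset, Set.mem_prod, Set.mem_univ, true_and, Set.mem_ofPred_eq]
    constructor
    · refine le_trans ?_ (le_max_left _ _)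
      rw [map_sub, map_sub, abs_le]
      constructor <;> linarith [(hl T).2.1, (hl T').2.1]
    · refine le_trans ?_ (le_max_right _ _)
      linarith [S.N_sub (o'' - o) ζ, S.N_sub o'' o, S.H_N h, S.H_N h'])) hd3
  rw [← hl', ← ho4] at hG
  rcases hG with ⟨κ', o2, hd2, e⟩ | hG
  · refine ⟨g' * κ', ?_⟩
    convert S.H_D h' hd2 using 1
    rw [e]; simp only [A, map_sub]; abel
  · exfalso
    refine hG (S.r o4) le_rfl (by linarith) ?_ ?_
    · rw [map_sub, map_sub, mul_comm, ← le_div_iff₀ hp]; linarith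
    · rw [map_sub, map_sub, mul_comm, ← div_lt_iff₀ hp]; linarith

def Bad (R : ℝ) (j i : ℕ) (n : ℤ) : Prop :=
  ∃ t g o, S.H t g o ∧ S.InZ j t o n ∧ ¬ S.Stab R i t o

lemma den (R ε : ℝ) (hε : 0 < ε) : ∃ i0, ∀ j, ∃ Cst, Sm (S.Bad R j i0) ε Cst := by
  classical
  obtain ⟨k0, hk0⟩ := S.robust R
  obtain ⟨c1, c2, hc1, hc2, hc⟩ := S.len_bd
  have hp := S.θpow_pos k0
  set β := min (c1 / (c2 * S.θ ^ k0)) (1 / 2) with hβ
  have hβ0 : 0 < β := by positivity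
  have hβ1 : β ≤ 1 / 2 := min_le_right _ _
  have key : ∀ j i t g o, S.H t g o →
      ∑ n ∈ Ico (S.φ (S.A (j + i * k0) o)) (S.φ (S.A (j + i * k0) (o + S.lam t))),
      (if S.Bad R j (i * k0) n then (1 : ℝ) else 0)
        ≤ (1 - β) ^ i * S.φ (S.T (j + i * k0) (S.lam t)) := by
    intro j i
    induction i with
    | zero =>
      intro t g o _
      refine sum_Ico_le _ (fun n => by split_ifs <;> norm_num) _ _ _ ?_ ?_
      · have := S.len_pos (j + 0 * k0) t; positivity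
      · rw [en_eq]; simp
    | succ i ih =>
      intro T g o h
      obtain ⟨ts, κs, os, hds, hst⟩ := hk0 T
      have hHs := S.H_D h hds
      set m := j + i * k0 with hm
      have hm' : j + (i + 1) * k0 = m + k0 := by rw [hm]; ring
      rw [hm']
      set q := (1 - β) ^ i with hq
      have hq0 : 0 ≤ q := pow_nonneg (by linarith) i
      set u : ℤ → ℝ := fun n => (if S.Bad R j ((i + 1) * k0) n then (1 : ℝ) else 0)
        - q * (1 - if S.InZ m ts (S.A k0 o + os) n then 1 else 0) with hu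
      obtain ⟨t1, g1, h1⟩ := S.Pos_A ⟨_, _, h⟩ k0
      obtain ⟨t2, g2, h2⟩ := S.Pos_A (S.Pos_next h) k0
      have hle : S.φ (S.A (m + k0) o) ≤ S.φ (S.A (m + k0) (o + S.lam T)) := by
        rw [en_eq]; linarith [S.len_pos (m + k0) T]
      have hsum : ∑ n ∈ Ico (S.φ (S.A (m + k0) o)) (S.φ (S.A (m + k0) (o + S.lam T))), u n ≤ 0 := by
        rw [S.A_A m k0, S.A_A m k0] at hle ⊢
        refine cell_sum (S.Cell m) (S.Cell_pos m) (S.Cell_next m) (S.Cell_disj m) u _ _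
          ⟨t2, g2, _, h2, rfl, rfl⟩ _ _ ⟨t1, g1, _, h1, rfl, rfl⟩ hle ?_
        rintro e f ⟨t, g', o', h', rfl, rfl⟩ - -
        by_cases hc' : ∃ n, S.InZ m t o' n ∧ S.InZ m ts (S.A k0 o + os) n
        · obtain ⟨n0, a1, a2⟩ := hc'
          obtain ⟨rfl, -, rfl⟩ := S.InZ_uniq h' hHs a1 a2
          refine sum_nonpos fun n hn => ?_
          have hn' : S.InZ m t (S.A k0 o + os) n := mem_Ico.mp hn
          have hb : ¬ S.Bad R j ((i + 1) * k0) n := by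
            rintro ⟨t3, g3, o3, h3, a3, a4⟩
            obtain ⟨t4, κ4, o4, hd4, a5⟩ := S.InZ_down h' hn'
            obtain ⟨rfl, -, rfl⟩ := S.InZ_uniq h3 (S.H_D h' hd4) a3 a5
            exact a4 (Stab.mono S (Stab.child S (hst g o h) hd4) (le_of_eq (by ring)))
          simp [hu, hb, hn']
        · push Not at hc'
          have e1 : ∑ n ∈ Ico (S.φ (S.A m o')) (S.φ (S.A m (o' + S.lam t))), u n ≤
              ∑ n ∈ Ico (S.φ (S.A m o')) (S.φ (S.A m (o' + S.lam t))),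
                ((if S.Bad R j (i * k0) n then (1 : ℝ) else 0) - q) := by
            refine sum_le_sum fun n hn => ?_
            simp only [hu, hc' n (mem_Ico.mp hn), if_false, sub_zero, mul_one]
            by_cases hb : S.Bad R j ((i + 1) * k0) n
            · have : S.Bad R j (i * k0) n := by
                obtain ⟨t3, g3, o3, h3, a3, a4⟩ := hb
                exact ⟨t3, g3, o3, h3, a3, fun h => a4 (Stab.mono S h (by clear * - i k0 S a3 a4 g3 h h3 o3 t3; nlinarith))⟩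
              simp [hb, this]
            · simp only [hb, if_false]; split_ifs <;> linarith
          refine e1.trans ?_
          rw [sum_sub_distrib, sum_const, Int.card_Ico, nsmul_eq_mul, ← Int.cast_natCast, en_eq,
            add_sub_cancel_left, Int.toNat_of_nonneg (S.len_pos m t).le, ← en_eq]
          linarith [ih t g' o' h']
      simp only [hu, sum_sub_distrib, ← mul_sum, sum_boole] at hsum
      have hf : (Ico (S.φ (S.A (m + k0) o)) (S.φ (S.A (m + k0) (o + S.lam T)))).filter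
          (S.InZ m ts (S.A k0 o + os)) = Ico (S.φ (S.A m (S.A k0 o + os)))
            (S.φ (S.A m (S.A k0 o + os + S.lam ts))) := by
        ext n
        have := S.child_bd h hds m
        simp only [mem_filter, mem_Ico, InZ]; omega
      rw [hf, sum_const, Int.card_Ico, Int.card_Ico, nsmul_eq_mul, ← Int.cast_natCast (R := ℝ)
        (Int.toNat _), ← Int.cast_natCast (R := ℝ) (Int.toNat _), S.en_eq m, add_sub_cancel_left,
        Int.toNat_of_nonneg (S.len_pos m ts).le, Int.toNat_of_nonneg (sub_nonneg.mpr hle)] at hsum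
      rw [sum_boole]
      have e2 : ((S.φ (S.A (m + k0) (o + S.lam T)) - S.φ (S.A (m + k0) o) : ℤ) : ℝ)
          = S.φ (S.T (m + k0) (S.lam T)) := by rw [en_eq, add_sub_cancel_left]
      rw [e2] at hsum
      have e3 : β * S.φ (S.T (m + k0) (S.lam T)) ≤ S.φ (S.T m (S.lam ts)) := by
        have hpm := S.θpow_pos m
        calc _ ≤ c1 / (c2 * S.θ ^ k0) * (c2 * S.θ ^ (m + k0)) :=
              mul_le_mul (min_le_left _ _) (hc _ _).2
                (by exact_mod_cast (S.len_pos _ _).le) (by positivity)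
          _ = c1 * S.θ ^ m := by rw [pow_add]; field_simp
          _ ≤ _ := (hc _ _).1
      rw [pow_succ, ← hq]
      clear * - Λ C G S R j i k0 m o T q β ts hsum hβ0 hβ1 hq0 e3
      nlinarith
  obtain ⟨i, hi⟩ := exists_pow_lt_of_lt_one hε (y := 1 - β) (by linarith)
  refine ⟨i * k0, fun j => ?_⟩
  obtain ⟨Cst, hC⟩ := S.Sm_cells (j + i * k0)
  exact ⟨Cst, (hC _ _ (pow_nonneg (by linarith) i) (key j i)).weaken hi.le⟩

/-- `n` has its window of radius `W` inside an `(R,i)`-stable tile of level `j`. -/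
def Win (R : ℝ) (j i : ℕ) (W : ℕ) (n : ℤ) : Prop :=
  ∃ t g o, S.H t g o ∧ S.Stab R i t o ∧ ∀ e : ℤ, |e| ≤ W → S.InZ j t o (n + e)

lemma win (R ε : ℝ) (hε : 0 < ε) : ∃ i0, ∀ W, ∃ j0, ∀ j ≥ j0, ∃ Cst,
    Sm (fun n => ¬ S.Win R j i0 W n) ε Cst := by
  classical
  obtain ⟨i0, h0⟩ := S.den R (ε / 2) (by positivity)
  obtain ⟨c1, c2, hc1, -, hc⟩ := S.len_bd
  refine ⟨i0, fun W => ?_⟩
  obtain ⟨j0, hj0⟩ := S.exists_θpow_ge (2 * W / (c1 * (ε / 2)))
  refine ⟨j0, fun j hj => ?_⟩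
  obtain ⟨C1, h1⟩ := h0 j
  obtain ⟨C2, h2⟩ := S.Sm_cells j
  have h3 := h2 (fun n => ∃ t g o, S.H t g o ∧ S.InZ j t o n ∧
    (n < S.φ (S.A j o) + W ∨ S.φ (S.A j (o + S.lam t)) - W ≤ n)) (ε / 2) (by positivity) (by
      intro t g o h
      rw [sum_boole]
      have h4 := hj0 j hj
      rw [div_le_iff₀ (by positivity)] at h4
      have h5 := (hc j t).1
      refine le_trans (b := 2 * (W : ℝ)) ?_ (by clear * - W ε Λ C G S j t c1 h4 hε h5; nlinarith)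
      refine le_trans (Nat.cast_le.mpr (card_le_card (t := Ico (S.φ (S.A j o)) (S.φ (S.A j o) + W) ∪
        Ico (S.φ (S.A j (o + S.lam t)) - W) (S.φ (S.A j (o + S.lam t)))) fun n hn => ?_)) ?_
      · rw [mem_filter] at hn
        obtain ⟨hn1, t', g', o', h', a1, a2⟩ := hn
        obtain ⟨rfl, -, rfl⟩ := S.InZ_uniq h h' (mem_Ico.mp hn1) a1
        rw [mem_Ico] at hn1
        simp only [mem_union, mem_Ico]; omega
      · refine le_trans (Nat.cast_le.mpr (card_union_le _ _)) ?_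
        simp [two_mul])
  refine ⟨C1 + C2, ((h1.or h3).mono fun n hn => ?_).weaken (by linarith)⟩
  obtain ⟨t, g, o, h, a1⟩ := S.InZ_cover j n
  by_contra hcon
  simp only [not_or, Bad, not_exists, not_and, not_not, not_lt, not_le] at hcon
  refine hn ⟨t, g, o, h, hcon.1 t g o h a1, fun e he => ?_⟩
  have := hcon.2 t g o h a1
  rw [abs_le] at he
  constructor <;> omega

lemma Win.eqv {R j i W n} (h : S.Win R j i W n) (ζ : Λ) (hζ : S.N ζ ≤ R) :
    ∃ a, ∀ e : ℤ, |e| ≤ W → S.Eqv (n + e) (n + S.φ (S.T (j + i) ζ) + e) a := by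
  obtain ⟨t, g, o, h, hs, hw⟩ := h
  obtain ⟨g', h'⟩ := hs ζ hζ
  refine ⟨g' * g⁻¹, fun e he => ?_⟩
  have := S.transfer h h' (hw e he)
  rwa [← S.T_add, add_right_comm] at this

end SST

end Pool.Agent.PT
end

-- merged part: Pool.Agent.Work.MP_cf06ef_an.P7
section
set_option autoImplicit false
set_option linter.unusedSectionVars false
open Finset

namespace Pool.Agent.PT
namespace SST
variable {Λ C G : Type} [AddCommGroup Λ] [Group G] (S : SST Λ C G) [Finite C] [Finite G]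

lemma H_depth {t g o} (h : S.H t g o) : ∃ j0, ∀ j ≥ j0, S.D j S.x t g (o + S.P j) := by
  obtain ⟨j0, h⟩ := h
  refine ⟨j0, fun j hj => ?_⟩
  obtain ⟨l, rfl⟩ := Nat.exists_eq_add_of_le' hj
  exact S.D_lift h l

lemma H_x {κ o'' j t g o} (h : S.H S.x κ o'') (hd : S.D j S.x t g (o + S.P j)) :
    S.H t (κ * g) (o + S.T j o'') := by
  convert S.H_D h hd using 1
  rw [A]; abel

lemma res (p : ℕ) (hp : p ≠ 0) (hG : (Nat.card G).Coprime p) : ∃ K, ∀ T g0 o0, S.H T g0 o0 →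
    ∀ t g o, S.H t g o → ∀ κ', ∃ κ o' η, S.D K T t κ o' ∧ g0 * κ = κ' ∧
      S.A K o0 + o' = o + p • η := by
  obtain ⟨F, hF⟩ := S.finmod p hp
  set Qr : C → G → Λ → Prop := fun t g o => ∃ η, S.H t g (o + p • η) with hQr
  have Qcongr : ∀ t g o v, Qr t g (o + p • v) → Qr t g o := by
    rintro t g o v ⟨η, h⟩
    exact ⟨v + η, by rwa [smul_add, ← add_assoc]⟩
  obtain ⟨j0, hj0⟩ : ∃ j0, ∀ t g o, Qr t g o →
      ∃ η, S.D j0 S.x t g (o + p • η + S.P j0) := by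
    have : ∀ c : C × G × F, ∃ j, Qr c.1 c.2.1 c.2.2 →
        ∃ η, ∀ j' ≥ j, S.D j' S.x c.1 c.2.1 (c.2.2 + p • η + S.P j') := by
      intro c
      by_cases h : Qr c.1 c.2.1 c.2.2
      · obtain ⟨η, h⟩ := h
        obtain ⟨j, hj⟩ := S.H_depth h
        exact ⟨j, fun _ => ⟨η, hj⟩⟩
      · exact ⟨0, fun h' => absurd h' h⟩
    choose j hj using this
    obtain ⟨j0, hj0⟩ := (Set.finite_range j).bddAbove
    refine ⟨j0, fun t g o h => ?_⟩
    obtain ⟨f, hf, b, rfl⟩ := hF o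
    obtain ⟨η, hη⟩ := hj (t, g, ⟨f, hf⟩) (Qcongr _ _ _ _ h)
    refine ⟨η - b, ?_⟩
    convert hη j0 (hj0 ⟨_, rfl⟩) using 2
    rw [smul_sub]; abel
  set Stb : G → Λ → Prop := fun κ v => ∀ t g o, Qr t g o → Qr t (κ * g) (o + v) with hStb
  have Stb_x : ∀ κ o'', S.H S.x κ o'' → Stb κ (S.T j0 o'') := by
    intro κ o'' h t g o hq
    obtain ⟨η, hd⟩ := hj0 t g o hq
    exact ⟨η, by convert S.H_x h hd using 1; abel⟩
  have Stb_pow : ∀ κ v, Stb κ v → ∀ n : ℕ, Stb (κ ^ n) (n • v) := by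
    intro κ v h n
    induction n with
    | zero => intro t g o hq; simpa using hq
    | succ n ih =>
      intro t g o hq
      have := h _ _ _ (ih t g o hq)
      rwa [← mul_assoc, ← pow_succ', add_assoc, ← succ_nsmul] at this
  have Ginv : ∀ κ t g o, Qr t g o → Qr t (κ * g) o := by
    intro κ t g o hq
    obtain ⟨κ', rfl⟩ := (powCoprime hG).surjective κ
    obtain ⟨o1, h1⟩ := S.prim S.x S.x κ'
    have h2 := S.H_D S.H_center h1
    rw [one_mul] at h2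
    exact Qcongr _ _ _ _ (Stb_pow _ _ (Stb_x _ _ h2) p t g o hq)
  refine ⟨1 + j0, fun T g0 o0 h0 t g o h κ' => ?_⟩
  obtain ⟨o2, h2⟩ := S.prim T S.x 1
  have h3 := S.H_D h0 h2
  obtain ⟨m, hm⟩ := Nat.exists_eq_add_of_le' (Nat.pos_of_ne_zero hp)
  have h4 := Stb_pow _ _ (Stb_x _ _ h3) m t g o ⟨0, by simpa using h⟩
  have h5 := Ginv (g0⁻¹ * κ' * ((g0 * 1) ^ m * g)⁻¹) _ _ _ h4
  rw [inv_mul_cancel_right] at h5
  obtain ⟨η, hd⟩ := hj0 _ _ _ h5
  refine ⟨_, _, η + S.T j0 (S.A 1 o0 + o2), S.D_comp h2 hd, by group, ?_⟩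
  rw [add_comm 1 j0, A_A, A, smul_add, hm, succ_nsmul (S.T j0 (S.A 1 o0 + o2)), map_add]
  simp only [smul_add]
  abel

/-- holonomies of rectangles with sides `p L` and `p θ^k δ`. -/
def Rect (p : ℕ) (L : Λ) (k : ℕ) (d : G) : Prop :=
  ∃ δ τ o γ0 γ1 γ2 γ3, S.N δ ≤ 1 ∧ S.H τ γ0 o ∧ S.H τ γ1 (o + p • L) ∧
    S.H τ γ2 (o + p • S.T k δ) ∧ S.H τ γ3 (o + p • L + p • S.T k δ) ∧ d = γ1⁻¹ * γ0 * γ2⁻¹ * γ3

def Dp (p : ℕ) : Set G := {d | ∃ L, ∀ k, S.Rect p L k d}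

lemma Rect.anti {p L k k' d} (h : S.Rect p L k' d) (hk : k ≤ k') : S.Rect p L k d := by
  obtain ⟨l, rfl⟩ := Nat.exists_eq_add_of_le hk
  obtain ⟨δ, τ, o, γ0, γ1, γ2, γ3, h0, h1, h2, h3, h4, h5⟩ := h
  rw [S.T_add] at h3 h4
  exact ⟨_, τ, o, γ0, γ1, γ2, γ3, (S.N_T_le l δ).trans h0, h1, h2, h3, h4, h5⟩

lemma near {T g0 o0 k t κ o'} {y lM : ℝ} (hl : S.r (S.lam T) ≤ lM) (_h : S.H T g0 o0)
    (h1 : S.r o0 ≤ (y - S.z) / S.θ ^ k + S.z)
    (h2 : (y - S.z) / S.θ ^ k + S.z < S.r o0 + S.r (S.lam T)) (hd : S.D k T t κ o') :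
    |S.r (S.A k o0 + o') - y| ≤ S.θ ^ k * lM := by
  have hp := S.θpow_pos k
  rw [← sub_le_iff_le_add, le_div_iff₀ hp] at h1
  rw [← lt_sub_iff_add_lt, div_lt_iff₀ hp] at h2
  obtain ⟨b1, b2⟩ := S.D_bd hd
  have := S.lam_pos t
  have h3 : S.θ ^ k * S.r (S.lam T) ≤ S.θ ^ k * lM := by gcongr
  rw [map_add, r_A, abs_le]
  constructor <;> linarith

lemma chain (p : ℕ) (hp : p ≠ 0) (hG : (Nat.card G).Coprime p) : ∃ k1, ∀ k ≥ k1, ∀ δ, S.N δ ≤ 1 →
    ∀ τ o η γ0 γ1 γ2 γ3, S.H τ γ0 o → S.H τ γ1 (o + p • η) → S.H τ γ2 (o + p • S.T k δ) →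
      S.H τ γ3 (o + p • η + p • S.T k δ) →
      (QuotientGroup.mk' (Subgroup.normalClosure (S.Dp p))) (γ0 * γ2⁻¹) =
      (QuotientGroup.mk' (Subgroup.normalClosure (S.Dp p))) (γ1 * γ3⁻¹) := by
  obtain ⟨K, hK⟩ := S.res p hp hG
  obtain ⟨k0, hk0⟩ := S.robust p
  obtain ⟨lm, lM, -, hlM, hl⟩ := S.exists_lam
  set π := QuotientGroup.mk' (Subgroup.normalClosure (S.Dp p)) with hπ
  set Δ := S.θ ^ (K + k0) * lM with hΔ
  have hΔ0 : 0 < Δ := mul_pos (S.θpow_pos _) hlM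
  have hp1 : (1 : ℝ) ≤ p := by exact_mod_cast Nat.pos_of_ne_zero hp
  set R2 := max (3 * Δ) (4 * S.B) with hR2
  obtain ⟨ks, hks⟩ : ∃ ks, ∀ L, |S.r L| ≤ R2 → S.N L ≤ R2 → ∀ d, S.Rect p L ks d →
      ∀ k, S.Rect p L k d := by
    have : ∀ c : Λ × G, ∃ k, S.Rect p c.1 k c.2 → ∀ k, S.Rect p c.1 k c.2 := by
      intro c
      by_cases h : ∀ k, S.Rect p c.1 k c.2
      · exact ⟨0, fun _ => h⟩
      · obtain ⟨k, hk⟩ := not_forall.mp h
        exact ⟨k, fun h' => absurd h' hk⟩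
    choose k hk using this
    obtain ⟨ks, hks⟩ := (((S.fin R2).prod (Set.finite_univ (α := G))).image k).bddAbove
    exact ⟨ks, fun L h1 h2 d h => hk (L, d) (Rect.anti S h (hks ⟨(L, d), ⟨⟨h1, h2⟩, trivial⟩, rfl⟩))⟩
  refine ⟨max ks (K + k0), fun k hk δ hδ τ => ?_⟩
  have short : ∀ o η γ0 γ1 γ2 γ3, S.H τ γ0 o → S.H τ γ1 (o + p • η) →
      S.H τ γ2 (o + p • S.T k δ) → S.H τ γ3 (o + p • η + p • S.T k δ) →
      |S.r (p • η)| ≤ 3 * Δ → π (γ0 * γ2⁻¹) = π (γ1 * γ3⁻¹) := by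
    intro o η γ0 γ1 γ2 γ3 h0 h1 h2 h3 hs
    have a1 : |S.r η| ≤ R2 := by
      clear * - Λ C G S η Δ R2 p K k0 lM hs hΔ0 hp1
      refine le_trans ?_ (le_max_left _ _)
      rw [map_nsmul, nsmul_eq_mul, abs_mul, Nat.abs_cast] at hs
      nlinarith [abs_nonneg (S.r η)]
    have a2 : S.N η ≤ R2 := by
      clear * - Λ C G S η R2 o p τ γ0 h0 γ1 h1 hp1 Δ
      refine le_trans ?_ (le_max_right _ _)
      have := S.N_sub (o + p • η) o
      rw [add_sub_cancel_left, S.N_nsmul] at this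
      nlinarith [S.H_N h0, S.H_N h1, S.N_nonneg η]
    have a3 : γ1⁻¹ * γ0 * γ2⁻¹ * γ3 ∈ Subgroup.normalClosure (S.Dp p) :=
      Subgroup.subset_normalClosure ⟨η, hks η a1 a2 _ (Rect.anti S
        ⟨δ, τ, o, γ0, γ1, γ2, γ3, hδ, h0, h1, h2, h3, rfl⟩ (le_of_max_le_left hk))⟩
    have a4 : π (γ1⁻¹ * γ0 * γ2⁻¹ * γ3) = 1 := (QuotientGroup.eq_one_iff _).mpr a3
    have a5 : γ0 * γ2⁻¹ = γ1 * (γ1⁻¹ * γ0 * γ2⁻¹ * γ3) * γ3⁻¹ := by group
    rw [a5, map_mul, map_mul, a4, mul_one, map_mul]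
  have dense : ∀ o γ0, S.H τ γ0 o → ∀ y : ℝ, ∃ η γ1 γ3, S.H τ γ1 (o + p • η) ∧
      S.H τ γ3 (o + p • η + p • S.T k δ) ∧ |S.r (o + p • η) - y| ≤ Δ := by
    intro o γ0 h0 y
    obtain ⟨T, g0, o0, hT, h1, h2⟩ := S.H_cover ((y - S.z) / S.θ ^ (k0 + K) + S.z)
    obtain ⟨ts, κs, os, hds, hst⟩ := hk0 T
    obtain ⟨κ, o', η, hd, -, e⟩ := hK _ _ _ (S.H_D hT hds) τ γ0 o h0 1
    have h3 := Stab.mono S (Stab.child S (hst g0 o0 hT) hd) (le_of_max_le_right hk)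
    obtain ⟨γ3, h4⟩ := h3 (p • δ) (by clear * - Λ C G S p δ hδ h3; rw [S.N_nsmul]; nlinarith)
    have h5 := S.near (hl T).2.1 hT h1 h2 (S.D_comp hds hd)
    refine ⟨η, _, γ3, e ▸ S.H_D (S.H_D hT hds) hd, by rw [← e, ← map_nsmul]; exact h4, ?_⟩
    rw [← e, A_add, ← A_A, add_assoc, hΔ, add_comm K k0]; exact h5
  have long : ∀ (n : ℕ) o η γ0 γ1 γ2 γ3, S.H τ γ0 o → S.H τ γ1 (o + p • η) →
      S.H τ γ2 (o + p • S.T k δ) → S.H τ γ3 (o + p • η + p • S.T k δ) →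
      0 ≤ S.r (p • η) → S.r (p • η) ≤ n * Δ → π (γ0 * γ2⁻¹) = π (γ1 * γ3⁻¹) := by
    clear * - Λ G C S τ p k δ Δ π short K k0 lM hΔ0 dense
    intro n
    induction n with
    | zero =>
      intro o η γ0 γ1 γ2 γ3 h0 h1 h2 h3 a1 a2
      exact short o η _ _ _ _ h0 h1 h2 h3 (by
        rw [abs_of_nonneg a1]; push_cast at a2; linarith)
    | succ n ih =>
      intro o η γ0 γ1 γ2 γ3 h0 h1 h2 h3 a1 a2
      by_cases hc : S.r (p • η) ≤ 3 * Δ
      · exact short o η _ _ _ _ h0 h1 h2 h3 (by rwa [abs_of_nonneg a1])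
      · obtain ⟨η', γ1', γ3', b1, b2, b3⟩ := dense o γ0 h0 (S.r o + 2 * Δ)
        rw [map_add, abs_le] at b3
        have e : o + p • η' + p • (η - η') = o + p • η := by rw [smul_sub]; abel
        refine (short o η' _ _ _ _ h0 b1 h2 b2 (by rw [abs_le]; constructor <;> linarith)).trans
          (ih (o + p • η') (η - η') _ _ _ _ b1 (e ▸ h1) b2 (e ▸ h3) ?_ ?_) <;>
          rw [smul_sub, map_sub]
        · linarith
        · push_cast at a2; linarith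
  intro o η γ0 γ1 γ2 γ3 h0 h1 h2 h3
  obtain ⟨n, hn⟩ := exists_nat_ge (|S.r (p • η)| / Δ)
  rw [div_le_iff₀ hΔ0] at hn
  rcases le_total 0 (S.r (p • η)) with a | a
  · exact long n o η _ _ _ _ h0 h1 h2 h3 a ((le_abs_self _).trans hn)
  · have e : o + p • η + p • (-η) = o := by rw [smul_neg]; abel
    refine (long n (o + p • η) (-η) _ _ _ _ h1 (e.symm ▸ h0) h3 (e.symm ▸ h2) ?_ ?_).symm <;>
      rw [smul_neg, map_neg]
    · linarith
    · exact (neg_le_abs _).trans hn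

theorem alpha (hD : Dav) (p : ℕ) (hp : p ≠ 0) (hG : (Nat.card G).Coprime p) (F : C → G → ℤ → ℂ)
    (hF : ∀ t g i, ‖F t g i‖ ≤ 1)
    (hN : ∀ ν ∈ Subgroup.normalClosure (S.Dp p), ∀ t g i, F t (g * ν) i = F t g i) :
    UO fun n => F (S.typ n) (S.lab n) (S.off n) := by
  refine AP hD _ (fun n => hF _ _ _) fun ε hε => ?_
  obtain ⟨k1, hk1⟩ := S.chain p hp hG
  set e := Nat.card G with he
  have he0 : e ≠ 0 := Nat.card_pos.ne'
  obtain ⟨i0, hi0⟩ := S.den (e * p) ε hε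
  obtain ⟨Cst, hC⟩ := hi0 0
  set k := max k1 i0
  obtain ⟨B, η, hη, hB⟩ := S.bohr_mul k (e * p) (mul_ne_zero he0 hp)
  refine ⟨B, η, Cst, hη, fun t ht => hC.mono fun n hn => ?_⟩
  obtain ⟨δ, hδ, rfl⟩ := hB t ht
  refine ⟨_, _, _, S.st_H n, S.st_In n, fun hst => hn ?_⟩
  set π := QuotientGroup.mk' (Subgroup.normalClosure (S.Dp p)) with hπ
  have hst' := Stab.mono S hst (le_max_right k1 i0)
  have ex : ∀ i : ℕ, ∃ γ, i ≤ e → S.H (S.typ n) γ (S.pos n + p • (i • S.T k δ)) := by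
    intro i
    by_cases hi : i ≤ e
    · obtain ⟨γ, hγ⟩ := hst' (p • i • δ) (by
        clear * - Λ C G S p i δ e hi hδ he0 hp
        rw [S.N_nsmul, S.N_nsmul]
        have : (i : ℝ) ≤ e := by exact_mod_cast hi
        have h2 : (i : ℝ) * S.N δ ≤ e * 1 := mul_le_mul this hδ (S.N_nonneg _) (by positivity)
        have h3 : (0 : ℝ) ≤ p := by positivity
        nlinarith)
      exact ⟨γ, fun _ => by rwa [map_nsmul, map_nsmul] at hγ⟩
    · exact ⟨1, fun h => absurd h hi⟩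
  choose γ hγ using ex
  have γ0 : γ 0 = S.lab n := (S.H_uniq' (by simpa using hγ 0 (Nat.zero_le _)) (S.st_H n)).2
  have pw : ∀ i ≤ e, π (γ 0 * (γ i)⁻¹) = π (γ 0 * (γ 1)⁻¹) ^ i := by
    intro i
    induction i with
    | zero => simp
    | succ i ih =>
      intro hi
      have := hk1 k (le_max_left _ _) δ hδ (S.typ n) (S.pos n) (i • S.T k δ) (γ 0) (γ i) (γ 1)
        (γ (i + 1)) (γ0 ▸ S.st_H n) (hγ i (by omega)) (by simpa using hγ 1 (by omega))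
        (by have := hγ (i + 1) hi; rwa [succ_nsmul, smul_add, ← add_assoc] at this)
      rw [pow_succ, ← ih (by omega), this, ← map_mul]
      congr 1; group
  have h1 := pw e le_rfl
  rw [← map_pow, he, pow_card_eq_one', map_one, ← he] at h1
  have h2 : γ 0 * (γ e)⁻¹ ∈ Subgroup.normalClosure (S.Dp p) := (QuotientGroup.eq_one_iff _).mp h1
  have h3 : (γ e)⁻¹ * γ 0 ∈ Subgroup.normalClosure (S.Dp p) :=
    Subgroup.normalClosure_normal.mem_comm h2
  obtain ⟨b1, b2, b3⟩ := S.transfer (S.st_H n) (hγ e le_rfl) (S.st_In n)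
  have h4 : S.φ (S.T 0 (p • e • S.T k δ)) = ((e * p : ℕ) : ℤ) * S.φ (S.T k δ) := by
    rw [S.T_zero, map_nsmul, map_nsmul]; simp; ring
  rw [h4] at b1 b2 b3
  rw [b1, b2, b3, inv_mul_cancel_right, ← hN _ h3, ← γ0]
  simp

end SST
end Pool.Agent.PT
end

-- merged part: Pool.Agent.Work.MP_cf06ef_an.P8
section
set_option autoImplicit false
set_option linter.unusedSectionVars false
open Finset

namespace Pool.Agent.PT
lemma q_arith {p q e w n1 ι a ζK φ0 φη st ln θm θi X c1 cL B : ℝ} (hp : 1 ≤ p) (hq : 1 ≤ q)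
    (hB : 0 ≤ B) (hc1 : 0 < c1) (_hcL : 0 ≤ cL) (hθm : 1 ≤ θm) (hθi : 0 < θi)
    (hp2 : 8 * X ≤ p * c1) (hi : 8 * (q * (c1 + 1 + cL) + 2 * B) ≤ θi * c1)
    (hln : c1 * (θm * θi) ≤ ln)
    (z3 : |φ0 - p * (st + ln / 2 - (q / p * (a - ι) + ι))| ≤ 2 * B + X * (θm * θi))
    (a0 : q * ζK = φ0 + p * φη) (b8 : a + ζK ≤ p * n1 + ι) (b9 : p * n1 + ι < a + ζK + p)
    (he0 : 0 ≤ e) (he : e + 1 ≤ c1 * θm) (hw : |w| ≤ θm * cL) :
    st + φη ≤ q * (n1 + e + w) + ι ∧ q * (n1 + e + w) + ι < st + φη + ln := by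
  have hp' : 0 < p := by linarith
  have eY : p * (st + ln / 2 - (q / p * (a - ι) + ι))
      = p * (st + ln / 2) - q * (a - ι) - p * ι := by field_simp; ring
  rw [eY] at z3
  obtain ⟨z4, z5⟩ := abs_le.mp z3
  obtain ⟨w1, w2⟩ := abs_le.mp hw
  have g1 : 0 < θm * θi := by positivity
  have f1 : X * (θm * θi) ≤ p * (ln / 8) := by
    clear * - X θm θi p c1 hp2 hθm hθi ln hln hp
    have g2 : 8 * X * (θm * θi) ≤ p * c1 * (θm * θi) := by gcongr
    have g3 : p * (c1 * (θm * θi)) ≤ p * ln := by gcongr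
    linarith
  have f2 : (q * (c1 + 1 + cL) + 2 * B) * θm ≤ ln / 8 := by
    clear * - q c1 cL B θm θi hi hθm ln hln
    have g2 : 8 * (q * (c1 + 1 + cL) + 2 * B) * θm ≤ θi * c1 * θm := by gcongr
    linarith
  have fB : 2 * B * 1 ≤ 2 * B * θm := by gcongr
  have f3 : q * (1 + e + w) + 2 * B ≤ ln / 8 := by
    clear * - e w c1 cL θm hθm he w2 q hq B ln f2 fB g1
    have g1 : 1 + e + w ≤ (c1 + 1 + cL) * θm := by linarith
    have g2 : q * (1 + e + w) ≤ q * ((c1 + 1 + cL) * θm) := by gcongr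
    linarith
  have f4 : -(ln / 8) ≤ q * (e + w) - 2 * B := by
    clear * - c1 θm hc1 hθm cL e w he0 he w1 q hq ln B f2 fB g1
    have g0 : 0 ≤ c1 * θm := by positivity
    have g1 : -((c1 + 1 + cL) * θm) ≤ e + w := by linarith
    have g2 : q * (-((c1 + 1 + cL) * θm)) ≤ q * (e + w) := by gcongr
    linarith
  have f5 : 0 ≤ q * (p * n1 + ι - a - ζK) := mul_nonneg (by clear * - q hq a n1 p ζK ι; linarith) (by linarith)
  have f6 : q * (p * n1 + ι - a - ζK) ≤ q * p := by clear * - q p n1 ι a ζK b9 hq; gcongr; linarith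
  have f7 : 2 * B * 1 ≤ 2 * B * p := by gcongr
  have hln0 : 0 < ln := lt_of_lt_of_le (by positivity) hln
  have g3 : p * (q * (1 + e + w) + 2 * B) ≤ p * (ln / 8) := by gcongr
  have g4 : p * (-(ln / 8)) ≤ p * (q * (e + w) - 2 * B) := by gcongr
  have u1 : q * (n1 + e + w) + ι - (st + ln / 2 + φη) ≤ ln / 4 :=
    le_of_mul_le_mul_left (by clear * - p q n1 e w ι st ln φη ζK φ0 a B X θm θi a0 z5 f1 f6 f7 g3 hp'; linarith) hp'
  have u2 : -(ln / 4) ≤ q * (n1 + e + w) + ι - (st + ln / 2 + φη) :=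
    le_of_mul_le_mul_left (by clear * - p ln q n1 e w ι st φη ζK φ0 B X θm θi a a0 z4 f1 f5 f7 g4 hp'; linarith) hp'
  constructor <;> linarith

lemma p_arith {p n0 n1 ι a0 a ζK ln θm X1 X2 Cw U : ℝ} (hp : 1 ≤ p) (hθm : 1 ≤ θm) (hU : θm ≤ U)
    (h1 : 0 ≤ X1) (h2 : 0 ≤ X2) (hCw : X1 + X2 + 1 ≤ Cw) (hz : |ζK| ≤ θm * X2)
    (hln : ln ≤ θm * X1) (b4 : a0 ≤ p * n0 + ι) (b5 : p * n0 + ι < a0 + ln) (b6 : a0 ≤ a)
    (b7 : a ≤ a0 + ln) (b8 : a + ζK ≤ p * n1 + ι) (b9 : p * n1 + ι < a + ζK + p) :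
    |n1 - n0| ≤ Cw * U := by
  have hp' : 0 < p := by linarith
  have f1 : (X1 + X2 + 1) * θm ≤ Cw * U := mul_le_mul hCw hU (by linarith) (by linarith)
  have f2 : p * ((X1 + X2 + 1) * θm) ≤ p * (Cw * U) := by gcongr
  have f3 : 0 ≤ (p - 1) * ((X1 + X2) * θm) := mul_nonneg (by linarith) (by positivity)
  have f4 : p * 1 ≤ p * θm := by gcongr
  obtain ⟨a8, a9⟩ := abs_le.mp hz
  rw [abs_le]
  constructor
  · exact le_of_mul_le_mul_left (by linarith) hp'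
  · exact le_of_mul_le_mul_left (by linarith) hp'

lemma le_of_mul_le' {p x y : ℝ} (hp : 1 ≤ p) (hx : 0 ≤ x) (h : p * x ≤ y) : x ≤ y := by
  nlinarith

namespace SST
variable {Λ C G : Type} [AddCommGroup Λ] [Group G] (S : SST Λ C G) [Finite C] [Finite G]

/-- holonomy along the progression `c n + ι`. -/
noncomputable def hol (c : ℕ) (ι n t : ℤ) : G := S.lab (c * (n + t) + ι) * (S.lab (c * n + ι))⁻¹

lemma hol_eq {c : ℕ} {ι n : ℤ} {j T g g' o v} (h : S.H T g o) (h' : S.H T g' (o + c • v))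
    (hn : S.InZ j T o (c * n + ι)) : S.hol c ι n (S.φ (S.T j v)) = g' * g⁻¹ := by
  have := (S.transfer h h' hn).2.2
  rw [map_nsmul, map_nsmul, nsmul_eq_mul] at this
  rw [hol, show (c : ℤ) * (n + S.φ (S.T j v)) + ι = c * n + ι + c * S.φ (S.T j v) by ring, this]
  group

lemma abs_φT (j : ℕ) (a : Λ) : |(S.φ (S.T j a) : ℝ)| ≤ S.θ ^ j * (S.s * |S.r a| + S.N a) := by
  have h1 := S.approxT j a
  have h2 := abs_sub_abs_le_abs_sub (S.φ (S.T j a) : ℝ) (S.s * (S.θ ^ j * S.r a))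
  rw [abs_mul, abs_mul, abs_of_pos S.s_pos, abs_of_pos (S.θpow_pos j)] at h2
  nlinarith [S.one_le_θpow j, S.N_nonneg a]

/-- the shifts of size at most `Rs` at level `m` generate enough holonomy at `n`. -/
def Gen (p q : ℕ) (d : G) (Rs : ℝ) (m : ℕ) (ι n : ℤ) : Prop :=
  (∃ δ1 δ2 δ3 u, (|S.r δ1| ≤ Rs ∧ S.N δ1 ≤ Rs) ∧ (|S.r δ2| ≤ Rs ∧ S.N δ2 ≤ Rs) ∧
    (|S.r δ3| ≤ Rs ∧ S.N δ3 ≤ Rs) ∧
    (S.hol p ι n (S.φ (S.T m δ1)))⁻¹ * (S.hol p ι n (S.φ (S.T m δ2)))⁻¹ *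
      S.hol p ι n (S.φ (S.T m δ3)) = u * d * u⁻¹ ∧
    (S.hol q ι n (S.φ (S.T m δ1)))⁻¹ * (S.hol q ι n (S.φ (S.T m δ2)))⁻¹ *
      S.hol q ι n (S.φ (S.T m δ3)) = 1) ∧
  ∀ κ, ∃ δ, (|S.r δ| ≤ Rs ∧ S.N δ ≤ Rs) ∧ S.hol p ι n (S.φ (S.T m δ)) = κ

lemma near_pos (j : ℕ) (y : ℝ) {lM : ℝ} (hl : ∀ t, S.r (S.lam t) ≤ lM) : ∃ ζ0, S.N ζ0 ≤ 2 * S.B ∧
    |(S.φ (S.T j ζ0) : ℝ) - y| ≤ 2 * S.B + S.s * lM * S.θ ^ j := by
  have hpM := S.θpow_pos j
  have hs := S.s_pos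
  obtain ⟨t0, g0, ζ0, hζ0, z1, z2⟩ := S.H_cover (y / (S.s * S.θ ^ j))
  rw [le_div_iff₀ (by positivity)] at z1
  rw [div_lt_iff₀ (by positivity)] at z2
  refine ⟨ζ0, S.H_N hζ0, ?_⟩
  obtain ⟨a1, a2⟩ := abs_le.mp (S.approxT j ζ0)
  have a3 := S.H_N hζ0
  have a4 : S.r (S.lam t0) * (S.s * S.θ ^ j) ≤ lM * (S.s * S.θ ^ j) := by
    gcongr; exact hl t0
  have a5 : 0 < S.r (S.lam t0) * (S.s * S.θ ^ j) := by have := S.lam_pos t0; positivity
  rw [abs_le]; constructor <;> linarith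

lemma all_labels {p K : ℕ} (hpp : (1 : ℝ) ≤ p) {lM : ℝ} (hl : ∀ t, S.r (S.lam t) ≤ lM)
    (hK : ∀ T g0 o0, S.H T g0 o0 → ∀ t g o, S.H t g o → ∀ κ', ∃ κ o' η, S.D K T t κ o' ∧
      g0 * κ = κ' ∧ S.A K o0 + o' = o + p • η) {τ g bb} (c0 : S.H τ g bb) (κ : G) :
    ∃ η, |S.r η| ≤ S.θ ^ K * lM ∧ S.N η ≤ 4 * S.B ∧ S.H τ κ (bb + p • η) := by
  obtain ⟨T3, g3, o7, κ3, o', hT3, hd3', -, e3⟩ := S.H_parent c0 K
  obtain ⟨κ4, o'', η', hd4, e4, e5⟩ := hK T3 g3 o7 hT3 τ _ bb c0 κ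
  have c4 := S.H_D hT3 hd4
  rw [e4, e5] at c4
  refine ⟨η', ?_, ?_, c4⟩
  · have a1 : p • η' = o'' - o' := by
      rw [e3, add_assoc, add_left_cancel_iff] at e5; rw [e5]; abel
    have a2 : (p : ℝ) * S.r η' = S.r o'' - S.r o' := by
      rw [← map_sub, ← a1, map_nsmul, nsmul_eq_mul]
    obtain ⟨b1, b2⟩ := S.D_bd hd3'
    obtain ⟨b3, b4⟩ := S.D_bd hd4
    have hpK := S.θpow_pos K
    have b5 : S.θ ^ K * S.r (S.lam T3) ≤ S.θ ^ K * lM := by gcongr; exact hl T3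
    have b6 := S.lam_pos τ
    have b7 : |(p : ℝ) * S.r η'| ≤ S.θ ^ K * lM := by
      rw [a2, abs_le]; constructor <;> linarith
    rw [abs_mul, Nat.abs_cast] at b7
    exact le_of_mul_le' hpp (abs_nonneg _) b7
  · have a1 := S.N_sub (bb + p • η') bb
    rw [add_sub_cancel_left, S.N_nsmul] at a1
    exact le_of_mul_le' hpp (S.N_nonneg _) (by linarith [S.H_N c0, S.H_N c4])

lemma tors_small {p q K' : ℕ} {R1 : ℝ} (hp1 : 1 + 2 * S.B ≤ p) {ζ ζ0 η : Λ} (h0 : S.N ζ0 ≤ 2 * S.B)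
    (hζ : S.N ζ ≤ R1) (hK : S.ρ ^ K' * (q * R1) ≤ 1) (tor : q • S.T K' ζ = ζ0 + p • η) :
    S.N η ≤ 1 := by
  have a1 := S.N_sub (q • S.T K' ζ) ζ0
  rw [S.N_nsmul] at a1
  nth_rw 1 [tor] at a1
  rw [add_sub_cancel_left, S.N_nsmul] at a1
  have a2 := S.N_T K' ζ
  have a4 : S.ρ ^ K' * S.N ζ ≤ S.ρ ^ K' * R1 :=
    mul_le_mul_of_nonneg_left hζ (pow_nonneg S.ρ_nonneg _)
  have a5 : q * S.N (S.T K' ζ) ≤ q * (S.ρ ^ K' * R1) := by gcongr; linarith
  have hB := S.B_nonneg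
  exact le_of_mul_le_mul_left (a := (p : ℝ)) (by linarith) (by linarith)

lemma runs : ∃ p0 a0 : ℕ, a0 ≠ 0 ∧ ∀ p q : ℕ, p0 ≤ p → q ≠ 0 → p.Coprime a0 → p.Coprime q →
    (Nat.card G).Coprime p → ∀ d ∈ S.Dp p, ∃ (Rs β : ℝ) (Ct m0 : ℕ), 0 ≤ Rs ∧ 0 < β ∧ 1 ≤ Ct ∧
      ∀ m ≥ m0, ∀ ι A : ℤ, ∃ A' Lr : ℕ, A' + Lr ≤ Ct * ⌈S.θ ^ m⌉₊ ∧
        β * (Ct * ⌈S.θ ^ m⌉₊ : ℕ) ≤ Lr ∧ ∀ i < Lr, S.Gen p q d Rs m ι (A + A' + i) := by
  obtain ⟨a0, ha0, htor⟩ := S.torsion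
  obtain ⟨kq, hkq⟩ := S.robust 2
  obtain ⟨lm, lM, -, hlM, hl⟩ := S.exists_lam
  replace hl : ∀ t, S.r (S.lam t) ≤ lM := fun t => (hl t).2.1
  obtain ⟨c1, c2, hc1, hc2, hc⟩ := S.len_bd
  have hs := S.s_pos
  have hB := S.B_nonneg
  obtain ⟨p0, hp0⟩ := exists_nat_ge (max (8 * (S.s * lM * S.θ ^ kq) / c1) (1 + 2 * S.B))
  refine ⟨p0, a0, ha0, fun p q hp hq hpa hpq hG d hd => ?_⟩
  have hpr : (p0 : ℝ) ≤ p := by exact_mod_cast hp
  have hp1 : 1 + 2 * S.B ≤ p := (le_max_right _ _).trans (hp0.trans hpr)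
  have hp2 : 8 * (S.s * lM * S.θ ^ kq) ≤ p * c1 :=
    (div_le_iff₀ hc1).mp ((le_max_left _ _).trans (hp0.trans hpr))
  clear hp0 hpr hp
  have hpp : (1 : ℝ) ≤ p := by linarith
  have hpz : p ≠ 0 := by rintro rfl; norm_num at hpp
  have hqq : (1 : ℝ) ≤ q := by exact_mod_cast Nat.pos_of_ne_zero hq
  obtain ⟨L, hL⟩ := hd
  obtain ⟨K, hK⟩ := S.res p hpz hG
  have nL := S.N_nonneg L
  have aL := abs_nonneg (S.r L)
  have hcL0 : 0 ≤ S.s * |S.r L| + S.N L := by positivity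
  obtain ⟨i, hi⟩ := S.exists_θpow_ge (8 * (q * (c1 + 1 + (S.s * |S.r L| + S.N L)) + 2 * S.B) / c1)
  replace hi := (div_le_iff₀ hc1).mp (hi i le_rfl)
  obtain ⟨k', hk'⟩ := S.exists_ρpow_le (ε := 1 / q) (by positivity)
  obtain ⟨δ, τ, o, γ0, γ1, γ2, γ3, hδ, h0, h1, h2, h3, hdd⟩ := hL (i + kq + k')
  have Nδ : S.N (q • S.T k' δ) ≤ 1 := by
    clear * - Λ C G S q k' δ hk' hδ hq
    rw [S.N_nsmul]
    have a2 := S.N_T k' δ
    have a3 := hk' k' le_rfl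
    rw [le_div_iff₀ (by positivity)] at a3
    have a4 : S.ρ ^ k' * S.N δ ≤ S.ρ ^ k' * 1 :=
      mul_le_mul_of_nonneg_left hδ (pow_nonneg S.ρ_nonneg _)
    have a5 : q * S.N (S.T k' δ) ≤ q * (S.ρ ^ k' * 1) := by gcongr; linarith
    linarith
  obtain ⟨F, hF⟩ := S.finmod p hpz
  obtain ⟨R1, hR1, hR1'⟩ : ∃ R1 : ℝ, 0 < R1 ∧ ∀ f ∈ F, |S.r f| ≤ R1 ∧ S.N f ≤ R1 := by
    clear * - Λ C G S F
    obtain ⟨b, hb⟩ := (F.image fun f => |S.r f| + S.N f).finite_toSet.bddAbove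
    refine ⟨max b 1, by positivity, fun f hf => ?_⟩
    have : |S.r f| + S.N f ≤ b := hb (by simpa using ⟨f, hf, rfl⟩)
    have h4 := le_max_left b 1
    constructor <;> linarith [abs_nonneg (S.r f), S.N_nonneg f]
  obtain ⟨k1, hk1⟩ := S.robust R1
  obtain ⟨k'', hk''⟩ := S.exists_ρpow_le (ε := 1 / (q * R1)) (by positivity)
  obtain ⟨J0, hJ0⟩ := S.H_depth h0
  obtain ⟨J1, hJ1⟩ := S.H_depth h1
  obtain ⟨J2, hJ2⟩ := S.H_depth h2
  obtain ⟨J3, hJ3⟩ := S.H_depth h3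
  obtain ⟨K', hK'⟩ : ∃ K', K' = J0 + J1 + J2 + J3 + k'' + 1 + k1 := ⟨_, rfl⟩
  obtain ⟨J, hJ⟩ : ∃ J, J = i + kq + (J0 + J1 + J2 + J3 + k'') := ⟨_, rfl⟩
  have d0 := hJ0 J (by omega)
  have d1 := hJ1 J (by omega)
  have d2 := hJ2 J (by omega)
  have d3 := hJ3 J (by omega)
  replace hk'' := (le_div_iff₀ (by positivity)).mp (hk'' K' (by omega))
  obtain ⟨K1, hK1⟩ : ∃ K1, K1 = k1 + 1 + J := ⟨_, rfl⟩
  have hKK : i + kq + K' = K1 := by omega
  clear hJ0 hJ1 hJ2 hJ3 h0 h1 h2 h3 hK' hJ hk' hL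
  obtain ⟨δ2, hδ2⟩ : ∃ δ2, δ2 = S.T (i + kq + k') δ := ⟨_, rfl⟩
  rw [← hδ2] at d2 d3
  have hpK := S.θpow_pos K
  have hpK1 := S.θpow_pos K1
  have nδ := S.N_nonneg δ2
  have aδ := abs_nonneg (S.r δ2)
  have hKl : 0 < S.θ ^ K * lM := by positivity
  obtain ⟨Cw, hCw⟩ := exists_nat_ge (c2 * S.θ ^ K1 + S.θ ^ K1 * (S.s * R1 + R1) + 1)
  obtain ⟨Cl, hCl⟩ := exists_nat_ge c1
  obtain ⟨m0, hm0⟩ := S.exists_θpow_ge (2 * p / c1)
  obtain ⟨tq, κq, oq, -, hstq⟩ := hkq S.x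
  have st6 := hstq 1 0 S.H_center
  generalize S.A kq 0 + oq = o6 at st6
  clear hstq hkq
  refine ⟨|S.r L| + S.N L + |S.r δ2| + S.N δ2 + S.θ ^ K * lM + 4 * S.B,
    c1 / (4 * p * (2 * Cw + Cl + 1)), 2 * Cw + Cl + 1, m0, by clear * - Λ C G S L δ2 K lM nL nδ hpK hlM hB Cl Cw c1 m0 p; positivity, by positivity,
    by omega, fun m hm ι A => ?_⟩
  have hm1 := (div_le_iff₀ hc1).mp (hm0 m hm)
  have hθm := S.one_le_θpow m
  have hU1 : S.θ ^ m ≤ ⌈S.θ ^ m⌉₊ := Nat.le_ceil _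
  have hU2 : (⌈S.θ ^ m⌉₊ : ℝ) ≤ 2 * S.θ ^ m := by
    clear * - Λ C G S m hθm
    have := Nat.ceil_lt_add_one (by linarith : 0 ≤ S.θ ^ m); linarith
  generalize ⌈S.θ ^ m⌉₊ = U at hU1 hU2 ⊢
  obtain ⟨Lr, hLr1, hLr2⟩ : ∃ Lr : ℕ, (Lr : ℝ) * p ≤ c1 * S.θ ^ m ∧ c1 * S.θ ^ m < (Lr + 1) * p :=
    ⟨⌊c1 * S.θ ^ m / p⌋₊, (le_div_iff₀ (by linarith)).mp (Nat.floor_le (by positivity)),
      (div_lt_iff₀ (by linarith)).mp (Nat.lt_floor_add_one _)⟩
  have hLr3 : (Lr : ℝ) ≤ c1 * S.θ ^ m := le_of_mul_le' hpp (by positivity) (by linarith)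
  obtain ⟨n0, hn0⟩ : ∃ n0 : ℤ, n0 = A + Cw * U := ⟨_, rfl⟩
  -- the p-copy
  obtain ⟨T1, g1, o1, hT1, in1⟩ := S.InZ_cover (m + K1) (p * n0 + ι)
  obtain ⟨ts, κs, os, hds, hst⟩ := hk1 T1
  obtain ⟨o3', hd3⟩ := S.prim ts S.x 1
  obtain ⟨o3, ho3⟩ : ∃ o3, o3 = S.A 1 (S.A k1 o1 + os) + o3' := ⟨_, rfl⟩
  have st3 : S.Stab R1 (1 + k1) S.x o3 := ho3 ▸ Stab.child S (hst g1 o1 hT1) hd3
  obtain ⟨a, ha⟩ : ∃ a, a = S.φ (S.A m (o + S.T J o3)) := ⟨_, rfl⟩
  have hb0' : S.φ (S.A (m + K1) o1) ≤ a ∧ a ≤ S.φ (S.A (m + K1) (o1 + S.lam T1)) := by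
    have e := S.child_bd hT1 (S.D_comp (S.D_comp hds hd3) d0) m
    have e2 : S.A (k1 + 1 + J) o1 + (S.T J (S.T 1 os + o3') + (o + S.P J)) = o + S.T J o3 := by
      apply S.r_inj
      simp only [ho3, map_add, r_A, S.r_T, r_P]; ring
    rw [e2, S.en_eq m, ← ha, ← hK1] at e
    exact ⟨e.1, by linarith [e.2, S.len_pos m τ]⟩
  -- the q-copy
  obtain ⟨ζ0, hζ0, z3⟩ := S.near_pos (m + i + kq) (p * (S.φ (S.A (m + i) o6) +
    (S.φ (S.T (m + i) (S.lam tq)) : ℝ) / 2 - ((q : ℝ) / p * (a - ι) + ι))) hl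
  obtain ⟨b, c, hbc⟩ := htor p q hpa hpq K' ζ0
  obtain ⟨ζ, hζ, b', rfl⟩ := hF b
  obtain ⟨η, tor⟩ : ∃ η, q • S.T K' ζ = ζ0 + p • η := ⟨-c - q • S.T K' b', by
    rw [hbc, map_add, map_nsmul, smul_add, smul_sub, smul_neg, smul_comm q p]; abel⟩
  clear hbc
  have Nη : S.N η ≤ 1 := S.tors_small hp1 hζ0 (hR1' ζ hζ).2 hk'' tor
  obtain ⟨ω, hω⟩ := st6 η (by linarith)
  obtain ⟨ω', hω'⟩ := st6 (η + q • S.T k' δ) (by linarith [S.N_add η (q • S.T k' δ)])
  rw [map_add, ← add_assoc, map_nsmul, ← S.T_add] at hω'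
  obtain ⟨g', hg'⟩ := st3 ζ (hR1' ζ hζ).2
  obtain ⟨bb, hbb⟩ : ∃ bb, bb = o + S.T J (o3 + S.T (1 + k1) ζ) := ⟨_, rfl⟩
  have c0 : S.H τ (g' * γ0) bb := hbb ▸ S.H_x hg' d0
  have c1' : S.H τ (g' * γ1) (bb + p • L) := by
    convert S.H_x hg' d1 using 1; rw [hbb]; abel
  have c2' : S.H τ (g' * γ2) (bb + p • δ2) := by
    convert S.H_x hg' d2 using 1; rw [hbb]; abel
  have c3' : S.H τ (g' * γ3) (bb + p • (L + δ2)) := by
    convert S.H_x hg' d3 using 1; rw [hbb, smul_add]; abel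
  have est : S.φ (S.A m bb) = a + S.φ (S.T (m + K1) ζ) := by
    clear * - Λ C G S m bb a K1 ζ o J o3 k1 hbb ha a0 kq p q i K' hK1 Cw m0 A U n0 T1 o1
    rw [hbb, ha, map_add (S.T J), ← add_assoc, S.A_add m _ (S.T J _), map_add, ← S.T_add,
      ← S.T_add, show m + J + (1 + k1) = m + K1 by omega]
  obtain ⟨n1, hn1, hn1'⟩ : ∃ n1 : ℤ, S.φ (S.A m bb) ≤ p * n1 + ι ∧
      p * n1 + ι < S.φ (S.A m bb) + p := by
    clear * - p hpz Λ C G S m bb ι A
    have hp' : (0 : ℤ) < p := by exact_mod_cast Nat.pos_of_ne_zero hpz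
    refine ⟨-((ι - S.φ (S.A m bb)) / p), ?_, ?_⟩
    · have := Int.mul_ediv_self_le (x := ι - S.φ (S.A m bb)) hp'.ne'; linarith
    · have := Int.lt_mul_ediv_self_add (x := ι - S.φ (S.A m bb)) hp'; linarith
  have b8 : (a : ℝ) + S.φ (S.T (m + K1) ζ) ≤ p * n1 + ι := by rw [est] at hn1; exact_mod_cast hn1
  have b9 : (p : ℝ) * n1 + ι < a + S.φ (S.T (m + K1) ζ) + p := by
    rw [est] at hn1'; exact_mod_cast hn1'
  have dist : |n1 - n0| ≤ Cw * U := by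
    obtain ⟨a4, a5⟩ := in1
    obtain ⟨a6, a7⟩ := hb0'
    rw [en_eq] at a5 a7
    have := p_arith (n0 := n0) (a0 := S.φ (S.A (m + K1) o1)) (ln := S.φ (S.T (m + K1) (S.lam T1)))
      hpp hθm hU1 (by positivity) (by positivity) hCw ((S.abs_φT (m + K1) ζ).trans (by
        clear * - Λ C G S m K1 ζ R1 hR1' hζ hs hpK1 hθm
        rw [pow_add, mul_assoc]
        gcongr
        · exact (hR1' ζ hζ).1
        · exact (hR1' ζ hζ).2))
      ((hc (m + K1) T1).2.trans (le_of_eq (by rw [pow_add]; ring))) (by exact_mod_cast a4)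
      (by exact_mod_cast a5) (by exact_mod_cast a6) (by exact_mod_cast a7) b8 b9
    exact_mod_cast this
  rw [abs_le] at dist
  obtain ⟨A', hA'⟩ : ∃ A' : ℕ, n1 = A + A' := ⟨(n1 - A).toNat, by
    clear * - n1 A n0 Cw U hn0 dist
    rw [Int.toNat_of_nonneg (by linarith)]; ring⟩
  refine ⟨A', Lr, ?_, ?_, fun e he => ?_⟩
  · have a1 : (A' : ℤ) ≤ 2 * Cw * U := by linarith
    have a2 : (Lr : ℝ) ≤ Cl * U := hLr3.trans (by clear * - c1 Cl Λ C G S m U hCl hU1 hθm Lr hLr3; gcongr)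
    have a3 : Lr ≤ Cl * U := by exact_mod_cast a2
    have a4 : A' ≤ 2 * Cw * U := by exact_mod_cast a1
    rw [add_mul, add_mul]; omega
  · push_cast
    rw [show c1 / (4 * p * (2 * Cw + Cl + 1)) * ((2 * Cw + Cl + 1) * U) = c1 * U / (4 * p) by
      clear * - c1 p Cw Cl U hpz hc1
      field_simp, div_le_iff₀ (by positivity)]
    have : c1 * U ≤ c1 * (2 * S.θ ^ m) := by clear * - c1 U Λ C G S m hU2 hc1; gcongr
    clear * - c1 U Lr p Λ C G S m hm1 hLr2 this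
    linarith
  · rw [← hA']
    have he' : (e : ℝ) + 1 ≤ Lr := by exact_mod_cast he
    have inp : S.InZ m τ bb (p * (n1 + e) + ι) := by
      constructor
      · have : (0 : ℤ) ≤ p * e := by positivity
        linarith
      · rw [en_eq]
        have a1 := (hc m τ).1
        have a0 : ((e : ℝ) + 1) * p ≤ Lr * p := by clear * - p e Lr he' hpz a0; gcongr
        have a2 : (((e + 1) * p : ℤ) : ℝ) ≤ S.φ (S.T m (S.lam τ)) := by clear * - e p Λ C G S m τ Lr c1 hLr1 a1 a0; push_cast; linarith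
        have a3 : ((e + 1) * p : ℤ) ≤ S.φ (S.T m (S.lam τ)) := by exact_mod_cast a2
        clear * - p n1 e ι Λ C G S m bb τ hn1' a3
        linarith
    have inq : ∀ w : ℤ, |(w : ℝ)| ≤ S.θ ^ m * (S.s * |S.r L| + S.N L) →
        S.InZ (m + i) tq (o6 + S.T kq η) (q * (n1 + e + w) + ι) := by
      intro w hw
      have a0 : (q : ℝ) * S.φ (S.T (m + K1) ζ)
          = S.φ (S.T (m + i + kq) ζ0) + p * S.φ (S.T (m + i + kq) η) := by
        clear * - Λ C G S m i kq q K' ζ ζ0 p η tor K1 a0 o k1 J hK1 hKK Cw m0 ι A U Lr n0 T1 o1 o3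
          a bb n1 A' e
        have := congrArg (fun v => S.φ (S.T (m + i + kq) v)) tor
        simp only [map_add, map_nsmul, nsmul_eq_mul, ← S.T_add] at this
        rw [show m + i + kq + K' = m + K1 by omega] at this
        exact_mod_cast this
      obtain ⟨u1, u2⟩ := q_arith (e := e) hpp hqq hB hc1 hcL0 hθm (S.θpow_pos i) hp2 hi
        (by rw [← pow_add]; exact (hc (m + i) tq).1)
        (z3.trans (le_of_eq (by rw [pow_add, pow_add]; ring))) a0 b8 b9 (by positivity)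
        (he'.trans hLr3) hw
      constructor
      · rw [A_add, ← S.T_add, map_add]; exact_mod_cast u1
      · rw [en_eq, A_add, ← S.T_add, map_add]; exact_mod_cast u2
    constructor
    · refine ⟨L, δ2, L + δ2, g' * γ0, ⟨by clear * - Λ C G S L δ2 K lM hB nL nδ aδ hKl c0 c1' c2' c3' g' hdd hδ2 hω hω' i inp inq k' kq m γ0 δ; linarith, by linarith⟩, ⟨by linarith, by clear * - Λ C G S δ2 L K lM hB nL aL aδ hKl c0 c1' c2' c3' g' hdd hδ2 hω hω' i inp inq k' kq m γ0 δ; linarith⟩,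
        ⟨?_, ?_⟩, ?_, ?_⟩
      · rw [map_add]; linarith [abs_add_le (S.r L) (S.r δ2)]
      · clear * - Λ C G S L δ2 K lM hB aL aδ hKl
        linarith [S.N_add L δ2]
      · rw [S.hol_eq c0 c1' inp, S.hol_eq c0 c2' inp, S.hol_eq c0 c3' inp, hdd]; group
      · have e1 : S.T (m + i) (S.T (kq + k') δ) = S.T m δ2 := by
          rw [hδ2, ← S.T_add, ← S.T_add, show m + i + (kq + k') = m + (i + kq + k') by omega]
        have a1 := S.hol_eq hω hω' (by clear * - Λ C G S m i tq o6 kq η q n1 e ι inq L hθm hs nL hω hω'; simpa using inq 0 (by clear * - Λ C G S m L hθm hs nL hω hω' inq; simp; positivity))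
        have a2 := S.hol_eq hω hω' (inq _ (S.abs_φT m L))
        rw [e1] at a1 a2
        rw [a1, ← a2, map_add, map_add]
        simp only [hol, add_assoc]; group
    · intro κ
      obtain ⟨η', b1, b2, c4⟩ := S.all_labels hpp hl hK c0 (κ * (g' * γ0))
      exact ⟨η', ⟨by clear * - Λ C G S η' L δ2 K lM hB nL aL nδ aδ b1 c0 c4 inp; linarith, by clear * - Λ C G S η' L δ2 K lM nL aL nδ aδ hKl b2 c0 c4 inp; linarith⟩, by rw [S.hol_eq c0 c4 inp]; group⟩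

end SST
end Pool.Agent.PT
end
end
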