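import Pool.Agent.Work.MP_cf06ef_an.P15

/-!
Moebius disjointness of every substitution subshift whose word lengths are of Pisot type.
-/

open Filter Topology

namespace Pool.Agent.Results.MP_cf06ef_an.PisotType

theorem result :
    ∀ (k : ℕ) (σ : Fin k → List (Fin k)), (∀ a, σ a ≠ []) →
      (∃ (θ : ℝ) (c : Fin k → ℝ), 1 < θ ∧ ∀ a, Tendsto (fun n : ℕ =>
        ((Nat.iterate (fun w : List (Fin k) => w.flatMap σ) n [a]).length : ℝ) - c a * θ ^ n)
          atTop (𝓝 0)) →
      ∀ X : Set (ℤ → Fin k),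
        X = {x : ℤ → Fin k | ∀ (i : ℤ) (m : ℕ), ∃ (a : Fin k) (n : ℕ),
              List.IsInfix (List.ofFn (fun j : Fin m => x (i + ((j : ℕ) : ℤ))))
                (Nat.iterate (fun w : List (Fin k) => w.flatMap σ) n [a])} →
        ∀ f : (ℤ → Fin k) → ℂ, ContinuousOn f X →
          ∀ x ∈ X,
            Tendsto (fun N : ℕ => (1 / (N : ℂ)) *
                ∑ n ∈ Finset.Icc 1 N,
                  f (fun i : ℤ => x (i + (n : ℤ))) * ((ArithmeticFunction.moebius n : ℤ) : ℂ))
              atTop (𝓝 0) :=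
  fun k σ hσ ⟨θ, c, hθ, hc⟩ X hX f hf x hx =>
    Pool.Agent.PT.final k σ hσ θ hθ c hc X hX f hf x hx

end Pool.Agent.Results.MP_cf06ef_an.PisotType
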